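import Pool.Agent.R852.PP.Defs
import Pool.Agent.R852.SP.Irr
import Pool.Agent.TH192.PA.FormZ

set_option autoImplicit false
set_option linter.unusedSectionVars false
set_option linter.unusedVariables false

/-! # Thom-Sebastiani sums over determinantal ideals and over linear ideals: the class -/

namespace Pool.Agent.T6.H26

open MeasureTheory MvPolynomial Pool.Agent.Y230.PT Pool.Agent.Y230.PS Pool.Agent.Y230.TH
open Pool.Agent.R852.PP Pool.Agent.TH192.DT
open Pool.Agent.R852.SP (sub IsIrrFlat arrM)
open Pool.Agent.TH187.SA (IsReesFlat)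

/-- The products of minors (Pfaffians) of the sizes `p t`, `t < T`: generators of the product of the
ideals of the minors (Pfaffians) of the sizes `p t` of the matrix of variables. -/
@[reducible] noncomputable def detQ (S : MSpace) {T : ℕ} (p : Fin T → ℕ) : FamQ :=
  ⟨S.Var, (t : Fin T) → S.Idx (p t), fun J =>
    ∏ t, MvPolynomial.map (Int.castRingHom ℚ) (S.minorsZ (p t) (J t))⟩

/-- The products of linear forms, `e s` of them from the family of index `s`, `s ∈ S`: generators of
the product `∏ s, I(L s) ^ e s` of powers of the ideals of the linear subspaces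
`L s = {x | ∑ i, c s j i * x i = 0 for all j}`. -/
@[reducible] noncomputable def arrQ {σ S : Type} [Fintype σ] [DecidableEq σ] [Fintype S]
    [DecidableEq S] {κ : S → Type} [∀ s, Fintype (κ s)] [∀ s, DecidableEq (κ s)]
    (c : (s : S) → κ s → σ → ℚ) (e : S → ℕ) : FamQ :=
  ⟨σ, (q : Σ s, Fin (e s)) → κ q.1, arrM c e⟩

/-- Two classes of ideals, given by generators: `DTS false A` for ideals and `DTS true A` for
principal ideals (hypersurfaces). They are the smallest classes with the following properties. -/
inductive DTS : Bool → FamQ → Prop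
  /-- the class `PTS`: monomial ideals, ideals of `ℚ[x, y]`, cones, plane curves, ... -/
  | pts (c : Bool) (A : FamQ) (h : PTS false c A) : DTS c A
  /-- products of ideals of minors of a generic or symmetric matrix, or of ideals of Pfaffians -/
  | det (S : MSpace) (T : ℕ) (p : Fin T → ℕ) (hp : ∀ t, S.Small (p t)) : DTS false (detQ S p)
  /-- products of powers of ideals of linear subspaces, whose irreducible flats are Rees flats -/
  | arr (σ S : Type) [Fintype σ] [DecidableEq σ] [Fintype S] [DecidableEq S] (κ : S → Type)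
      [∀ s, Fintype (κ s)] [∀ s, DecidableEq (κ s)] (c : (s : S) → κ s → σ → ℚ)
      (hc : ∀ s, ∃ j, c s j ≠ 0) (e : S → ℕ)
      (hR : ∀ X, IsIrrFlat (sub c) (fun s => e s ≠ 0) X →
        IsReesFlat (sub c) (fun s => e s ≠ 0) X) : DTS false (arrQ c e)
  /-- a hypersurface is a principal ideal -/
  | hyp (A : FamQ) (h : DTS true A) : DTS false A
  /-- the powers of a hypersurface are principal ideals -/
  | pow (σ : Type) [Fintype σ] (g : MvPolynomial σ ℚ) (k : ℕ) (hk : k ≠ 0)
      (h : DTS true ⟨σ, Fin 1, fun _ => g⟩) : DTS false ⟨σ, Fin 1, fun _ => g ^ k⟩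
  /-- the sum of two ideals in disjoint sets of variables -/
  | sum (A B : FamQ) (hA : DTS false A) (hB : DTS false B) : DTS false (A.sum B)
  /-- the product of two ideals, or of two polynomials, in disjoint sets of variables -/
  | mul (c : Bool) (A B : FamQ) (hA : DTS c A) (hB : DTS c B) : DTS c (A.mul B)
  /-- the polynomial `∑ y_j f_j(x)` -/
  | univ (A : FamQ) (hA : DTS false A) : DTS true A.univ
  /-- the products of powers `h(x) ∏_t (∑_j y_{t, j} f_{t, j}(x)) ^ a_t`, if the ideal
  `h ∏_t (f_{t, j})_j ^ a_t` is in the class -/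
  | form (σ : Type) [Fintype σ] (m : ℕ) (r a : Fin m → ℕ) (hm : 0 < m) (ha : ∀ t, 0 < a t)
      (h : MvPolynomial σ ℚ)
      (f : (t : Fin m) → Fin (r t) → MvPolynomial σ ℚ)
      (hA : DTS false (genQ a h f)) : DTS true (formQ a h f)
  /-- the Thom-Sebastiani sum `∑ y_j f_j(x) + g(z)` -/
  | ts (A : FamQ) (τ : Type) [Fintype τ] (g : MvPolynomial τ ℚ) (hA : DTS false A)
      (hg : DTS true ⟨τ, Fin 1, fun _ => g⟩) : DTS true (tsum A τ g)
  /-- variables which do not occur may be dropped -/
  | drop (σ κ : Type) [Fintype σ] [Fintype κ] (g : MvPolynomial σ ℚ)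
      (h : DTS true ⟨σ ⊕ κ, Fin 1, fun _ => rename Sum.inl g⟩) :
      DTS true ⟨σ, Fin 1, fun _ => g⟩
  /-- the variables and the generators may be indexed differently -/
  | equiv (c : Bool) (A B : FamQ) (i : A.σ ≃ B.σ) (k : A.ι ≃ B.ι)
      (h : ∀ j, B.f (k j) = rename i (A.f j)) (hA : DTS c A) : DTS c B

end Pool.Agent.T6.H26
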