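import Pool.Agent.T6.H26.Null
import Pool.Agent.T6.H26.DTSDefs
import Pool.Agent.R852.MX.PAdic

set_option autoImplicit false
set_option linter.unusedSectionVars false
set_option linter.unusedVariables false

/-! # Products of determinantal ideals -/

namespace Pool.Agent.T6.H26

open MeasureTheory Polynomial Pool.Agent.Y230.PT Pool.Agent.Y230.PS Filter
open Pool.Agent.TH192.DT Pool.Agent.TH192.MT Pool.Agent.TH192.PA
open Pool.Agent.W574.SM Pool.Agent.W574.RO
open Pool.Agent.W427.SMC (mu msZ bsZ tr' phi_eq tau tr'_pos)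
open scoped NNReal ENNReal

attribute [local instance] msZ bsZ

theorem detQ_toC (S : MSpace) {T : ℕ} (p : Fin T → ℕ) :
    (detQ S p).toC = prodFam fun t => S.minors (p t) := by
  funext J
  change MvPolynomial.map (algebraMap ℚ ℂ)
    (∏ t, MvPolynomial.map (Int.castRingHom ℚ) (S.minorsZ (p t) (J t))) = ∏ t, S.minors (p t) (J t)
  rw [map_prod]
  refine Finset.prod_congr rfl fun t _ => ?_
  rw [MvPolynomial.map_map, ← S.map_minorsZ]
  congr 1

theorem detQ_ne (S : MSpace) {T : ℕ} (p : Fin T → ℕ) (hp : ∀ t, S.Small (p t)) :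
    ∃ J, (detQ S p).f J ≠ 0 := by
  choose j hj using fun t => S.minors_ne (p t) (hp t)
  refine ⟨j, fun h => ?_⟩
  have h1 : (detQ S p).toC j = 0 := by
    change MvPolynomial.map (algebraMap ℚ ℂ) ((detQ S p).f j) = 0
    rw [h, map_zero]
  rw [detQ_toC] at h1
  exact Finset.prod_ne_zero_iff.2 (fun t _ => hj t) h1

variable {q : ℕ} [Fact q.Prime]

theorem sz_detQ (S : MSpace) {T : ℕ} (p : Fin T → ℕ) (hp : ∀ t, S.Small (p t))
    (x : S.Var → ℤ_[q]) : sz ((detQ S p).toP q) x = ∏ t, ((nS S (p t) x : ℝ≥0) : ℝ) := by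
  have h1 : (fun J : (t : Fin T) → S.Idx (p t) => MvPolynomial.eval (fun i => inc q (x i))
      ((detQ S p).toP q J)) = fun J => ∏ t, (fun j => inc q (MvPolynomial.aeval x
        (S.minorsZ (p t) j))) (J t) := by
    funext J
    change MvPolynomial.eval _ (MvPolynomial.map (algebraMap ℚ ℚ_[q])
      (∏ t, MvPolynomial.map (Int.castRingHom ℚ) (S.minorsZ (p t) (J t)))) = _
    rw [map_prod, map_prod]
    refine Finset.prod_congr rfl fun t _ => ?_
    rw [MvPolynomial.map_map, MvPolynomial.eval_map]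
    beta_reduce
    rw [MvPolynomial.aeval_def]
    have h2 := MvPolynomial.eval₂_comp_left (algebraMap ℤ_[q] ℚ_[q]) (algebraMap ℤ ℤ_[q]) x
      (S.minorsZ (p t) (J t))
    change _ = algebraMap ℤ_[q] ℚ_[q] _
    rw [h2]
    congr 1
  unfold sz
  rw [h1, Pool.Agent.R852.PP.norm_prodv (fun t (j : S.Idx (p t)) =>
    inc q (MvPolynomial.aeval x (S.minorsZ (p t) j)))]
  refine Finset.prod_congr rfl fun t _ => ?_
  have hne := S.idx_nonempty (p t) (hp t)
  unfold nS
  refine le_antisymm ?_ ?_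
  · refine (pi_norm_le_iff_of_nonneg (NNReal.coe_nonneg _)).2 fun j => ?_
    have h3 := Finset.le_sup (f := fun j : S.Idx (p t) =>
      ‖MvPolynomial.aeval x (S.minorsZ (p t) j)‖₊) (Finset.mem_univ j)
    exact_mod_cast h3
  · obtain ⟨j0, -, h0⟩ := Finset.exists_mem_eq_sup (Finset.univ : Finset (S.Idx (p t)))
      Finset.univ_nonempty (fun j => ‖MvPolynomial.aeval x (S.minorsZ (p t) j)‖₊)
    rw [h0]
    exact norm_le_pi_norm (fun j => inc q (MvPolynomial.aeval x (S.minorsZ (p t) j))) j0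

theorem FF_detQ (S : MSpace) {T : ℕ} (p : Fin T → ℕ) (hp : ∀ t, S.Small (p t)) (s : ℝ)
    (hs : 0 < s) : Pool.Agent.Y230.PS.FF ((detQ S p).toP q) s =
      (((∫⁻ x : S.Var → ℤ_[q], ∏ t, ((nS S (p t) x : ℝ≥0) : ℝ≥0∞) ^ (((1 : ℕ) : ℝ) * s)
          ∂(hm q S.Var)).toReal : ℝ) : ℂ) := by
  unfold Pool.Agent.Y230.PS.FF FZ
  congr 2
  refine lintegral_congr fun x => ?_
  rw [sz_detQ S p hp x, ← Real.finsetProd_rpow _ _ (fun t _ => NNReal.coe_nonneg _),
    ENNReal.ofReal_prod_of_nonneg (fun t _ => Real.rpow_nonneg (NNReal.coe_nonneg _) _)]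
  refine Finset.prod_congr rfl fun t _ => ?_
  rw [Nat.cast_one, one_mul, ← ENNReal.ofReal_rpow_of_nonneg (NNReal.coe_nonneg _) hs.le,
    ENNReal.ofReal_coe_nnreal]

theorem isLocEq_one {σ ι : Type} [Fintype ι] (f : ι → MvPolynomial σ ℂ) (b : ℂ[X])
    (h : IsFunctionalEq f b) : Pool.Agent.W574.LM.IsLocEq 1 f b := by
  obtain ⟨S, P, hS, hP⟩ := h
  exact ⟨S, P, hS, fun s => by rw [one_mul]; exact hP s⟩

theorem rr_of_pow (T0 : ℂ) (n N : ℕ) (hN : 0 < N) (h : T0 ^ N = (q : ℂ) ^ n) :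
    ((rr q T0 : ℝ) : ℂ) = -(n : ℂ) / N := by
  have hp : (1 : ℝ) < q := by exact_mod_cast (Fact.out : q.Prime).one_lt
  have hl : Real.log q ≠ 0 := (Real.log_pos hp).ne'
  have hdR : (N : ℝ) ≠ 0 := by exact_mod_cast hN.ne'
  have h1 := congrArg (fun z => Real.log ‖z‖) h
  simp only [norm_pow, Complex.norm_natCast, Real.log_pow] at h1
  have h2 : rr q T0 = -(n : ℝ) / N := by
    unfold rr
    rw [div_eq_div_iff hl hdR]
    linear_combination -h1
  rw [h2]
  push_cast
  ring

theorem FR_det (S : MSpace) {T : ℕ} (p : Fin T → ℕ) (hp : ∀ t, S.Small (p t)) :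
    FR q (mR q (detQ S p)) (Pool.Agent.Y230.PS.FF ((detQ S p).toP q)) := by
  have hq0 : (q : ℂ) ≠ 0 := by exact_mod_cast (Fact.out : q.Prime).ne_zero
  obtain ⟨P, hP⟩ := int_norms (q := q) S T p (fun _ => 1) hp
  set N : ℕ → ℕ := fun d => ∑ t, 1 * (p t - d) with hN
  set D0 := Pool.Agent.TH192.PA.Dd q S.codim N S.rk 0 with hD0
  have hev : ∀ z : ℂ, (D0.map Complex.ofRealHom).eval z =
      ∏ e ∈ Finset.Ico 0 S.rk, (1 - ((q : ℂ)⁻¹) ^ S.codim e * z ^ N e) := by
    intro z
    rw [hD0]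
    unfold Pool.Agent.TH192.PA.Dd
    rw [Polynomial.map_prod, eval_prod]
    refine Finset.prod_congr rfl fun e _ => ?_
    simp
  have hc : ∀ (F : ℝ[X]) (s : ℝ), (F.map Complex.ofRealHom).eval ((tr' q s : ℝ) : ℂ) =
      ((F.eval (tr' q s) : ℝ) : ℂ) := by
    intro F s
    rw [Polynomial.eval_map]
    exact (Polynomial.hom_eval₂ F (RingHom.id ℝ) Complex.ofRealHom (tr' q s)).symm ▸ rfl
  refine FR_of_pos _ (toP_ne _ (detQ_ne S p hp)) _ (D0.map Complex.ofRealHom)
    (P.map Complex.ofRealHom) ?_ ?_ ?_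
  · intro h
    have h1 := hev 0
    rw [h, eval_zero] at h1
    have h2 : ∏ e ∈ Finset.Ico 0 S.rk, (1 - ((q : ℂ)⁻¹) ^ S.codim e * (0 : ℂ) ^ N e) ≠ 0 := by
      refine Finset.prod_ne_zero_iff.2 fun e he => ?_
      have he' : e < S.rk := (Finset.mem_Ico.1 he).2
      have hcd : 0 < S.codim e := S.codim_pos ⟨e, he'⟩
      by_cases h0 : N e = 0
      · rw [h0, pow_zero, mul_one]
        intro h3
        have h4 : ((q : ℂ)⁻¹) ^ S.codim e = 1 := (sub_eq_zero.1 h3).symm
        have h5 := congrArg norm h4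
        rw [norm_pow, norm_inv, Complex.norm_natCast, norm_one] at h5
        have h6 : ((q : ℝ)⁻¹) ^ S.codim e < 1 := pow_lt_one₀ (by positivity)
          (inv_lt_one_of_one_lt₀ (by exact_mod_cast (Fact.out : q.Prime).one_lt)) hcd.ne'
        linarith
      · rw [zero_pow h0, mul_zero, sub_zero]
        exact one_ne_zero
    exact h2 h1.symm
  · intro T0 hT0
    by_cases hr : (D0.map Complex.ofRealHom).eval T0 = 0
    · rw [hev, Finset.prod_eq_zero_iff] at hr
      obtain ⟨e, he, h0⟩ := hr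
      have he' : e < S.rk := (Finset.mem_Ico.1 he).2
      have hcd : 0 < S.codim e := S.codim_pos ⟨e, he'⟩
      have h1 : T0 ^ N e = (q : ℂ) ^ S.codim e := by
        have h2 := (sub_eq_zero.1 h0).symm
        rw [inv_pow, inv_mul_eq_iff_eq_mul₀ (pow_ne_zero _ hq0), mul_one] at h2
        exact h2
      have hNe : 0 < N e := by
        rcases Nat.eq_zero_or_pos (N e) with h | h
        · exfalso
          rw [h, pow_zero] at h1
          have h5 := congrArg norm h1
          rw [norm_pow, Complex.norm_natCast, norm_one] at h5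
          have h6 : 1 < (q : ℝ) ^ S.codim e :=
            one_lt_pow₀ (by exact_mod_cast (Fact.out : q.Prime).one_lt) hcd.ne'
          linarith
        · exact h
      have hrr := rr_of_pow T0 _ _ hNe h1
      have hforced : Forced (detQ S p).toC ((rr q T0 : ℝ) : ℂ) := by
        intro b hb
        rw [detQ_toC] at hb
        have hl := isLocEq_one _ b hb
        have h7 := Pool.Agent.R852.MX.ideal_rootsF S p hp b 1 (by simp) hl ⟨e, he'⟩ 0
          (by simpa [hN] using hNe)
        rw [hrr]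
        simp only [Nat.cast_zero, add_zero] at h7
        have h8 : N e = ∑ t, (p t - e) := by
          rw [hN]
          simp
        rw [h8]
        exact h7
      rw [mR_top hforced]
      exact le_top
    · rw [rootMultiplicity_eq_zero hr]
      simp
  · intro s hs
    rw [FF_detQ S p hp s hs, hc, hc, ← hP s hs]
    push_cast
    rfl

end Pool.Agent.T6.H26
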