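import Pool.Agent.T6.H26.TSCDefs
import Pool.Agent.R779.HK.Minors

set_option autoImplicit false
set_option linter.unusedSectionVars false
set_option linter.unusedVariables false

/-! # Hankel determinantal ideals: the definitions -/

namespace Pool.Agent.T6.H26

open MvPolynomial Pool.Agent.Y230.PS Pool.Agent.R779.HK

/-- The maximal minor, with the columns `J 0 < ... < J (k - 1)`, of the `k × (N + 1 - k)` Hankel
matrix `(x_{i + j})`, `0 ≤ i < k`, `0 ≤ j ≤ N - k`, in the variables `x_0, ..., x_{N - 1}`. -/
noncomputable def hankR (R : Type) [CommRing R] (N k : ℕ) (J : HIdx N k) :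
    MvPolynomial (Fin N) R :=
  (Matrix.of fun i j : Fin k => (X (⟨(i : ℕ) + (show Fin k ↪o Fin (N + 1 - k) from J) j, by
    have := i.2; have := ((show Fin k ↪o Fin (N + 1 - k) from J) j).2; omega⟩ : Fin N) :
      MvPolynomial (Fin N) R)).det

/-- The products of maximal minors of the `k t × (N + 1 - k t)` Hankel matrices in the variables
`x_0, ..., x_{N - 1}`: generators of the product of the ideals of secant varieties of the rational
normal curve. -/
@[reducible] noncomputable def hankQ (N : ℕ) {T : ℕ} (k : Fin T → ℕ) : FamQ :=
  ⟨Fin N, (t : Fin T) → HIdx N (k t), fun J => ∏ t, hankR ℚ N (k t) (J t)⟩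

/-- The classes of the starting points: `WBase` and, for ideals, also the products of the ideals of
maximal minors of Hankel matrices `k t × (N + 1 - k t)` in the same `N` variables,
`2 * k t < N`. -/
inductive HBase : Bool → FamQ → Prop
  /-- the classes `WBase` -/
  | wbase (c : Bool) (A : FamQ) (h : WBase c A) : HBase c A
  /-- products of ideals of maximal minors of Hankel matrices -/
  | hank (N T : ℕ) (k : Fin T → ℕ) (hk : ∀ t, 2 * k t < N) : HBase false (hankQ N k)

end Pool.Agent.T6.H26
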