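import Pool.Agent.R779.HK.Tup
import Pool.Agent.R852.MX.Eq

set_option autoImplicit false
set_option linter.unusedSectionVars false
set_option linter.unusedVariables false

/-! # Products of powers of forms over products of Hankel determinantal ideals -/

namespace Pool.Agent.T6.H26.HankMix

open MvPolynomial Pool.Agent.W574.SM Pool.Agent.W574.LM Pool.Agent.H628R4.TP
  Pool.Agent.W574.HS Pool.Agent.W574.RO Pool.Agent.Y229 Pool.Agent.TH192.DT Pool.Agent.R779.HK
  Pool.Agent.R852.MX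

variable {T B : Type} [Fintype T] [DecidableEq T] [Fintype B] [DecidableEq B]

/-- The generators `∏_{β t = b} M_{t, J t}` of the product of the ideals `I_{p t}` with `β t = b`:
products of maximal minors `M_{t, J}` (`hankel N (p t) J`) of the `p t × (N + 1 - p t)` Hankel
matrices in the variables `x_0, …, x_{N - 1}`, one for each `t` with `β t = b`. -/
noncomputable def blkH (N : ℕ) (p : T → ℕ) (β : T → B) (b : B) :
    ((t : {t // β t = b}) → HIdx N (p t.1)) → MvPolynomial (Fin N) ℂ :=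
  prodFam fun t : {t // β t = b} => hankel N (p t.1)

/-- `f = ∏ b, F_b ^ a b`, `F_b = ∑_J y_{b,J} ∏_{β t = b} M_{t, J t}(x)`, in the variables `y_{b,J}`
(`Sum.inl ⟨b, J⟩`) and `x_0, …, x_{N - 1}` (`Sum.inr i`). -/
noncomputable def hankMix (N : ℕ) (p : T → ℕ) (β : T → B) (a : B → ℕ) :
    MvPolynomial ((Σ b, ((t : {t // β t = b}) → HIdx N (p t.1))) ⊕ Fin N) ℂ :=
  powProd a (blkH N p β)

theorem blkH_ne (N : ℕ) (p : T → ℕ) (β : T → B) (hp : ∀ t, 2 * p t < N) (b : B) :
    ∃ j, blkH N p β b j ≠ 0 := by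
  choose j hj using fun t : {t // β t = b} => hankel_ne N (p t.1) (hp t.1)
  refine ⟨j, ?_⟩
  change ∏ t : {t // β t = b}, hankel N (p t.1) (j t) ≠ 0
  exact Finset.prod_ne_zero_iff.2 fun t _ => hj t

theorem sum_mixH (p : T → ℕ) (β : T → B) (a : B → ℕ) (d : ℕ) :
    ∑ x : (Σ q : (Σ b, Fin (a b)), {t // β t = q.1}), (p x.2.1 - d) =
      ∑ t, a (β t) * (p t - d) := by
  rw [Fintype.sum_sigma, Fintype.sum_sigma, ← Fintype.sum_fiberwise β]
  refine Finset.sum_congr rfl fun b _ => ?_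
  trans ∑ _i : Fin (a b), ∑ t : {t // β t = b}, (p t.1 - d)
  · rfl
  · rw [Finset.sum_const, Finset.card_univ, Fintype.card_fin, smul_eq_mul, Finset.mul_sum]
    exact Finset.sum_congr rfl fun t _ => by rw [t.2]

/-- the roots for products of Hankel determinantal ideals, with any index set -/
theorem ideal_rootsH {τ : Type} [Fintype τ] [DecidableEq τ] (N d : ℕ) (p : τ → ℕ)
    (hp : ∀ t, 2 * p t < N) (b : Polynomial ℂ) (H : MvPolynomial (Fin N) ℂ)
    (hH : MvPolynomial.constantCoeff H ≠ 0)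
    (hb : IsLocEq H (prodFam fun t => hankel N (p t)) b) (l : ℕ) (hl : l < ∑ t, (p t - d)) :
    b.eval (-(((N - 2 * d : ℕ) : ℂ) + l) / (∑ t, (p t - d) : ℕ)) = 0 := by
  classical
  have h1 : IsLocEq H (prodFam fun q : Σ t : τ, Fin ((fun _ : τ => 1) t) => hankel N (p q.1)) b := by
    refine locEq_reindex (Equiv.piCurry (fun (t : τ) (_ : Fin 1) => HIdx N (p t)) |>.trans
      (Equiv.piCongrRight fun t => Equiv.funUnique (Fin 1) (HIdx N (p t)))) H _ _ ?_ b hb
    intro J
    unfold prodFam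
    rw [Fintype.prod_sigma]
    refine Finset.prod_congr rfl fun t _ => ?_
    rw [Fintype.prod_unique]
    rfl
  have h2 := ideal_roots N d p (fun _ => 1) hp b H hH h1 l (by simpa using hl)
  simpa using h2

theorem hmix_data (N : ℕ) (p : T → ℕ) (β : T → B) (a : B → ℕ) (hp : ∀ t, 2 * p t < N)
    (b : Polynomial ℂ) (hb : PowData a (blkH N p β) b) (d l : ℕ)
    (hl : l < ∑ t, a (β t) * (p t - d)) :
    b.eval (-(((N - 2 * d : ℕ) : ℂ) + l) / (∑ t, a (β t) * (p t - d) : ℕ)) = 0 := by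
  classical
  obtain ⟨t0, _, ht0⟩ := Finset.exists_ne_zero_of_sum_ne_zero
    (by omega : ∑ t, a (β t) * (p t - d) ≠ 0)
  obtain ⟨H, hH, hHb⟩ := hb.ideal ⟨β t0, left_ne_zero_of_mul ht0⟩
  have h1 : IsLocEq H (prodFam fun x : (Σ q : (Σ b, Fin (a b)), {t // β t = q.1}) =>
      hankel N (p x.2.1)) b := by
    refine locEq_reindex (Equiv.piCurry
      (fun (q : Σ b, Fin (a b)) (t : {t // β t = q.1}) => HIdx N (p t.1))) H _ _ ?_ b hHb
    intro J
    exact (Fintype.prod_sigma (fun x : (Σ q : (Σ b, Fin (a b)), {t // β t = q.1}) =>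
      hankel N (p x.2.1) (J x))).symm
  have h2 := ideal_rootsH N d (fun x : (Σ q : (Σ b, Fin (a b)), {t // β t = q.1}) => p x.2.1)
    (fun x => hp _) b H hH h1 l (by rw [sum_mixH p β a d]; exact hl)
  rw [sum_mixH p β a d] at h2
  exact h2

/-- The multiplicities of `f = ∏ b, F_b ^ a b`: `N_d = ∑ t, a (β t) * max (p t - d, 0)` along `E_d`,
and `a b` along the strict transform of `F_b = 0`. -/
def mulHM (N : ℕ) (p : T → ℕ) (β : T → B) (a : B → ℕ) : Fin ((N + 1) / 2) ⊕ B → ℕ :=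
  Sum.elim (fun d => ∑ t, a (β t) * (p t - (d : ℕ))) a

theorem hmix_roots (N : ℕ) (p : T → ℕ) (β : T → B) (a : B → ℕ) (hp : ∀ t, 2 * p t < N)
    (b : Polynomial ℂ) (hb : IsBFunction (hankMix N p β a) b) (x : Fin ((N + 1) / 2) ⊕ B)
    (l : ℕ) (hl : l < mulHM N p β a x) :
    b.eval (-((nuH N B x : ℂ) + l) / mulHM N p β a x) = 0 := by
  have hb' := powData_global a _ (blkH_ne N p β hp) b hb
  rcases x with d | c
  · exact hmix_data N p β a hp b hb' d l hl
  · have h3 := hb'.strict c l hl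
    change b.eval (-(((1 : ℕ) : ℂ) + l) / a c) = 0
    rw [Nat.cast_one]
    exact h3

theorem nuH_pos' (N : ℕ) (B : Type) (x : Fin ((N + 1) / 2) ⊕ B) : 0 < nuH N B x := by
  rcases x with d | c
  · have := d.2
    change 0 < N - 2 * (d : ℕ)
    omega
  · exact Nat.one_pos

end Pool.Agent.T6.H26.HankMix
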