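import Pool.Agent.T6.H26.ArrBase
import Pool.Agent.R852.PP.Main

set_option autoImplicit false
set_option linter.unusedSectionVars false
set_option linter.unusedVariables false

/-! # Thom-Sebastiani sums over determinantal ideals and over linear ideals: the induction -/

namespace Pool.Agent.T6.H26

open MeasureTheory MvPolynomial Pool.Agent.W427.SMC Pool.Agent.Y230.PT Pool.Agent.Y230.PS
open Pool.Agent.Y230.TH Pool.Agent.R852.PP
open scoped ENNReal
open Pool.Agent.Y230.RE Pool.Agent.W574.SM Pool.Agent.W574.RO Pool.Agent.W574.CN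

attribute [local instance] msZ bsZ

variable {p : ℕ} [Fact p.Prime]

/-- **The zeta functions of the class.** -/
theorem dts_main (c : Bool) (A : FamQ) (h : DTS c A) : (∃ j, A.f j ≠ 0) ∧
      FR p (if c = true then rG p (wR p) A else mR p A) (Pool.Agent.Y230.PS.FF (A.toP p)) := by
  classical
  have hM := isMltP_R (p := p)
  induction h with
  | pts c A h => exact pts_main hM c A h
  | det S T q hq => exact ⟨detQ_ne S q hq, by simpa using FR_det (q := p) S q hq⟩
  | arr σ S κ c hc e hR => exact ⟨arrQ_ne c hc e, by simpa using FR_arrQ (p := p) c hc e hR⟩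
  | hyp A h ih =>
    refine ⟨ih.1, ?_⟩
    have h1 := ih.2
    simp only [if_true] at h1
    simpa using h1.mono (hM.base.hyp A)
  | pow σ g k hk h ih =>
    have hg : g ≠ 0 := by
      obtain ⟨j, hj⟩ := ih.1
      exact hj
    refine ⟨⟨(0 : Fin 1), pow_ne_zero k hg⟩, ?_⟩
    have h1 := ih.2
    simp only [if_true] at h1
    rw [if_neg Bool.false_ne_true]
    exact pow_case hk (fun T => hM.pow σ g hg k hk T) (h1.mono (hM.base.hyp _))
  | sum A B hA hB ihA ihB =>
    refine ⟨sum_ne A B ihA.1, ?_⟩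
    rw [toP_sum]
    have h1 := ihA.2
    have h2 := ihB.2
    simp only [Bool.false_eq_true, if_false] at h1 h2 ⊢
    exact FR_sumK _ _ _ _ _ (hM.base.base.sum A B) h1 h2
  | mul c A B hA hB ihA ihB =>
    refine ⟨mul_ne A B ihA.1 ihB.1, ?_⟩
    rw [toP_mul]
    have h1 := ihA.2
    have h2 := ihB.2
    cases c
    · simp only [Bool.false_eq_true, if_false] at h1 h2 ⊢
      refine (FR.mul h1 h2 (fun T hT => hM.base.base.mul A B T hT ihA.1 ihB.1)).congr
        fun s hs => ?_
      rw [FF_mulK]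
    · simp only [if_true] at h1 h2 ⊢
      refine (FR.mul h1 h2 (fun T hT => hM.base.mul A B T hT ihA.1 ihB.1)).congr fun s hs => ?_
      rw [FF_mulK]
  | univ A hA ihA =>
    refine ⟨univ_ne A ihA.1, ?_⟩
    rw [toP_univ]
    have hι : Nonempty A.ι := ⟨ihA.1.choose⟩
    have h1 := ihA.2
    simp only [Bool.false_eq_true, if_false, if_true] at h1 ⊢
    exact FR_univK hι _ _ _ (fun T hT => hM.base.univ A T hT ihA.1) h1
  | form σ m r a hm ha h f hA ihA =>
    have hne : ∃ J, genP a h f J ≠ 0 := ihA.1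
    obtain ⟨hh, hf⟩ := genQ_ne a h f ha hne
    refine ⟨⟨(0 : Fin 1), formP_ne a h f hne ha⟩, ?_⟩
    have h1 := ihA.2
    simp only [Bool.false_eq_true, if_false, if_true] at h1 ⊢
    rw [genQ_toP] at h1
    rw [formQ_toP]
    exact FR_formK a (fun t => ⟨(hf t).choose⟩) _ _ _ _
      (fun T hT => hM.form σ m r a h f hm ha hne T hT) h1
  | ts A τ g hA hg ihA ihg =>
    have hg0 : g ≠ 0 := by
      obtain ⟨j, hj⟩ := ihg.1
      exact hj
    refine ⟨ts_ne A τ g hg0, ?_⟩
    rw [toP_ts]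
    have hι : Nonempty A.ι := ⟨ihA.1.choose⟩
    have h1 := ihA.2
    have h2 := ihg.2
    simp only [Bool.false_eq_true, if_false, if_true] at h1 h2 ⊢
    exact FR_ts Pool.Agent.Y287.TH.tZ _ _ _ _ _ (hM.base.ts A τ g ihA.1 hg0)
      (hM.base.one A τ g ihA.1 hg0) h1 h2
  | drop σ κ g h ih =>
    refine ⟨⟨(0 : Fin 1), fun h0 => ?_⟩, ?_⟩
    · obtain ⟨j, hj⟩ := ih.1
      apply hj
      have h1 : g = 0 := h0
      change rename Sum.inl g = 0
      rw [h1, map_zero]
    · have h1 := ih.2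
      simp only [if_true] at h1 ⊢
      refine (h1.mono (hM.base.drop σ κ g)).congr fun s hs => ?_
      have h2 := FF_drop (κ := κ) (map (algebraMap ℚ ℚ_[p]) g) s
      refine Eq.trans ?_ h2
      congr 1
      funext j
      exact map_rename _ _ _
  | equiv c A B i k h hA ihA =>
    refine ⟨equiv_ne A B i k h ihA.1, ?_⟩
    have h3 : ∀ s : ℝ, Pool.Agent.Y230.PS.FF (A.toP p) s = Pool.Agent.Y230.PS.FF (B.toP p) s :=
      fun s => by
      rw [FF_equiv i k (A.toP p) (B.toP p) (fun j => ?_) s]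
      change map (algebraMap ℚ ℚ_[p]) (B.f (k j)) = _
      rw [h, map_rename]
      rfl
    have h1 := ihA.2
    cases c
    · simp only [Bool.false_eq_true, if_false] at h1 ⊢
      exact (h1.mono fun T hT => hM.base.base.equiv A B i k h T hT).congr fun s hs => h3 s
    · simp only [if_true] at h1 ⊢
      exact (h1.mono fun T hT => hM.base.equiv A B i k h T hT).congr fun s hs => h3 s

section fin

variable {V : Type} [Fintype V]

/-- **The real parts of the poles are roots.** -/
theorem dts_R (F : MvPolynomial V ℚ) (hF : DTS false (hyp F)) (b : Polynomial ℂ)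
    (hb : Pool.Agent.H628R4.TP.IsBFunction (map (algebraMap ℚ ℂ) F) b)
    (Z : ℂ → ℂ) (hZ : MeromorphicOn Z Set.univ)
    (hZp : ∀ s : ℂ, 0 < s.re → Z s = zetaQ p F s) (s₀ : ℂ) (hs : meromorphicOrderAt Z s₀ < 0) :
    b.eval (s₀.re : ℂ) = 0 := by
  obtain ⟨-, h2⟩ := dts_main (p := p) false (Pool.Agent.Y230.PS.hyp F) hF
  simp only [Bool.false_eq_true, if_false] at h2
  obtain ⟨D, P, hD0, h1, h4⟩ := h2.rat
  have h3 := mero_bound p D P hD0 Z hZ (fun s hs => by
    rw [pw_real, hZp s (by simpa using hs), zetaQ_eq, ← FF_hyp]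
    exact h1 s hs.le) s₀
  have h5 : rr p (pw p s₀) = s₀.re := pw_norm p s₀
  rw [← h5]
  refine root_of_tr F b hb _ (D.rootMultiplicity (pw p s₀)) (fun h0 => ?_)
    (h4 _ (pw_ne_zero p s₀))
  rw [h0] at h3
  exact absurd (lt_of_le_of_lt h3 hs) (by simp)

/-- the poles of the Poincare series -/
theorem dts_poin (F : MvPolynomial V ℤ)
    (hF : DTS false (hyp (map (Int.castRingHom ℚ) F)))
    (b : Polynomial ℂ) (hb : Pool.Agent.H628R4.TP.IsBFunction (map (Int.castRingHom ℂ) F) b) :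
    ∃ Φ : RatFunc ℂ, ((Φ.denom : Polynomial ℂ) : PowerSeries ℂ) * poincare p F =
        ((Φ.num : Polynomial ℂ) : PowerSeries ℂ) ∧
      ∀ T₀ : ℂ, Φ.denom.eval T₀ = 0 → b.eval ((-Real.log ‖T₀‖ / Real.log p : ℝ) : ℂ) = 0 := by
  obtain ⟨-, h2⟩ := dts_main (p := p) false (hyp (map (Int.castRingHom ℚ) F)) hF
  simp only [Bool.false_eq_true, if_false] at h2
  obtain ⟨D, P, hD0, h1, h6⟩ := h2.rat
  obtain ⟨Φ, h3, h4, h5⟩ := poincare_of p F D P hD0 (fun s hs => by
    rw [← h1 s hs, FF_hyp]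
    simp only [tau_N])
  refine ⟨Φ, h3, fun T hT0 => ?_⟩
  have hd : Φ.denom ≠ 0 := Φ.denom_ne_zero
  have h6' : Φ.denom.rootMultiplicity T ≠ 0 := by
    rw [Ne, Polynomial.rootMultiplicity_eq_zero_iff]
    intro h
    exact hd (h hT0)
  have hT : T ≠ 0 := by
    rintro rfl
    exact h6' h4
  refine root_of_tr (map (Int.castRingHom ℚ) F) b ?_ T (D.rootMultiplicity T) (fun h0 => ?_)
    (h6 T hT)
  · rw [map_map]
    exact hb
  · have := h5 T
    omega

end fin

end Pool.Agent.T6.H26
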