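import Pool.Agent.Y230.PS.Cone2

set_option autoImplicit false
set_option linter.unusedSectionVars false
set_option linter.unusedVariables false

/-! # Weighted cones: the zeta function -/

namespace Pool.Agent.T6.H26

open MeasureTheory Pool.Agent.W427.SMC Pool.Agent.Y230.PT Pool.Agent.Y230.PS
open scoped ENNReal
open Pool.Agent.Y230.RE

attribute [local instance] msZ bsZ

variable {p : ℕ} [Fact p.Prime]

/-- the `m`-th roots of the elements near to `1` -/
theorem exists_root (m : ℕ) (hm : m ≠ 0) : ∃ N : ℕ, 0 < N ∧ ∀ u : ℤ_[p],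
    ‖u - 1‖ ≤ ((p : ℝ)⁻¹) ^ N → ∃ v : ℤ_[p], IsUnit v ∧ v ^ m = u := by
  have hp1 : (1 : ℝ) < p := by exact_mod_cast (Fact.out : p.Prime).one_lt
  have hm0 : (0 : ℝ) < ‖(m : ℤ_[p])‖ ^ 2 :=
    pow_pos (norm_pos_iff.2 (Nat.cast_ne_zero.2 hm)) 2
  obtain ⟨N, hN⟩ := exists_pow_lt_of_lt_one hm0 (inv_lt_one_of_one_lt₀ hp1)
  refine ⟨N + 1, Nat.succ_pos N, fun u hu => ?_⟩
  have hpi : (0 : ℝ) < (p : ℝ)⁻¹ := inv_pos.2 (by linarith)
  have h1 : ((p : ℝ)⁻¹) ^ (N + 1) ≤ ((p : ℝ)⁻¹) ^ N :=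
    pow_le_pow_of_le_one hpi.le (inv_le_one_of_one_le₀ hp1.le) (Nat.le_succ N)
  have h2 : ‖u - 1‖ < ‖(m : ℤ_[p])‖ ^ 2 := lt_of_le_of_lt (hu.trans h1) hN
  have h3 : ‖u - 1‖ < 1 := by
    refine lt_of_le_of_lt hu ?_
    rw [pow_succ]
    have : ((p : ℝ)⁻¹) ^ N ≤ 1 := pow_le_one₀ hpi.le (inv_le_one_of_one_le₀ hp1.le)
    have h4 : (p : ℝ)⁻¹ < 1 := inv_lt_one_of_one_lt₀ hp1
    nlinarith
  obtain ⟨v, hv, -⟩ := hensels_lemma (p := p) (R := ℤ_[p])
    (F := Polynomial.X ^ m - Polynomial.C u) (a := 1) (by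
      simp only [map_sub, map_pow, Polynomial.aeval_X, one_pow, Polynomial.aeval_C,
        Polynomial.derivative_X_pow, Polynomial.derivative_C, sub_zero, map_mul, mul_one,
        Algebra.algebraMap_self, RingHom.id_apply]
      rw [norm_sub_rev]
      simpa using h2)
  rw [map_sub, map_pow, Polynomial.aeval_X, Polynomial.aeval_C, Algebra.algebraMap_self,
    RingHom.id_apply, sub_eq_zero] at hv
  refine ⟨v, ?_, hv⟩
  rw [PadicInt.isUnit_iff]
  have h5 : ‖u‖ = 1 := by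
    have h6 : u = (u - 1) + 1 := by ring
    rw [h6, PadicInt.norm_add_eq_max_of_ne (by rw [norm_one]; exact h3.ne), norm_one]
    exact max_eq_right h3.le
  rw [← hv, norm_pow] at h5
  exact (pow_eq_one_iff_of_nonneg (norm_nonneg v) hm).1 h5

/-- near to `q` all elements are rational numbers times `m`-th powers -/
theorem exists_rat_root (m : ℕ) (hm : m ≠ 0) : ∃ N : ℕ, 0 < N ∧ ∀ q : ℚ_[p], q ≠ 0 →
    ∃ r : ℚ, r ≠ 0 ∧ ∀ u : ℤ_[p], ‖u - 1‖ ≤ ((p : ℝ)⁻¹) ^ N →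
      ∃ v : ℤ_[p], IsUnit v ∧ q * inc p u = (r : ℚ_[p]) * inc p v ^ m := by
  have hp1 : (1 : ℝ) < p := by exact_mod_cast (Fact.out : p.Prime).one_lt
  have hpi : (0 : ℝ) < (p : ℝ)⁻¹ := inv_pos.2 (by linarith)
  obtain ⟨N, hN, hroot⟩ := exists_root (p := p) m hm
  refine ⟨N, hN, fun q hq => ?_⟩
  have hε : 0 < ((p : ℝ)⁻¹) ^ N * ‖q‖ := mul_pos (pow_pos hpi N) (norm_pos_iff.2 hq)
  obtain ⟨r, hr⟩ := Padic.rat_dense p q hε
  have hpN : ((p : ℝ)⁻¹) ^ N ≤ 1 := pow_le_one₀ hpi.le (inv_le_one_of_one_le₀ hp1.le)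
  have hlt : ‖q - (r : ℚ_[p])‖ < ‖q‖ := lt_of_lt_of_le hr (by
    have := norm_nonneg q
    nlinarith)
  have hnr : ‖(r : ℚ_[p])‖ = ‖q‖ := by
    have h6 : (r : ℚ_[p]) = -(q - r) + q := by ring
    rw [h6, Padic.add_eq_max_of_ne (by rw [norm_neg]; exact hlt.ne), norm_neg]
    exact max_eq_right hlt.le
  have hr0 : (r : ℚ_[p]) ≠ 0 := fun h0 => hq (by rwa [h0, norm_zero, eq_comm, norm_eq_zero] at hnr)
  refine ⟨r, fun h0 => hr0 (by rw [h0, Rat.cast_zero]), fun u hu => ?_⟩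
  have hq1 : ‖q / (r : ℚ_[p])‖ ≤ 1 := by
    rw [norm_div, hnr, div_self (norm_ne_zero_iff.2 hq)]
  have h7 : ‖q / (r : ℚ_[p]) - 1‖ ≤ ((p : ℝ)⁻¹) ^ N := by
    have h8 : q / (r : ℚ_[p]) - 1 = (q - r) / r := by field_simp
    rw [h8, norm_div, hnr, div_le_iff₀ (norm_pos_iff.2 hq)]
    exact hr.le
  set y : ℤ_[p] := ⟨q / (r : ℚ_[p]), hq1⟩ with hy
  obtain ⟨v, hv, hvm⟩ := hroot (y * u) (by
    have h9 : y * u - 1 = y * (u - 1) + (y - 1) := by ring
    rw [h9]
    refine (PadicInt.nonarchimedean _ _).trans (max_le ?_ ?_)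
    · rw [norm_mul]
      have : ‖y‖ ≤ 1 := PadicInt.norm_le_one y
      have h10 := norm_nonneg (u - 1)
      nlinarith
    · exact h7)
  refine ⟨v, hv, ?_⟩
  have h11 : inc p v ^ m = inc p (y * u) := by rw [← hvm]; simp [inc]
  rw [h11]
  have h12 : inc p (y * u) = q / (r : ℚ_[p]) * inc p u := PadicInt.coe_mul y u
  rw [h12]
  field_simp

theorem unit_meas : MeasurableSet {z : ℤ_[p] | IsUnit z} := by
  have e : {z : ℤ_[p] | IsUnit z} = {z | ‖z‖ = 1} := by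
    ext z
    exact PadicInt.isUnit_iff
  rw [e]
  exact measurableSet_eq_fun continuous_norm.measurable measurable_const

/-- the integral of a function which is constant on the classes of the units modulo `p ^ N` -/
theorem avgN (g : ℤ_[p] → ℝ≥0∞) (hg : Measurable g) (N : ℕ) (hN : 0 < N)
    (c : ZMod (p ^ N) → ℝ≥0∞)
    (h : ∀ a z, IsUnit ((a.val : ℤ_[p])) → g ((a.val : ℤ_[p]) + (p : ℤ_[p]) ^ N * z) = c a) :
    ∫⁻ z, g z ∂(mu p) = (p : ℝ≥0∞)⁻¹ * ∫⁻ z, g ((p : ℤ_[p]) * z) ∂(mu p) +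
      ∑ a : ZMod (p ^ N), open Classical in
        if IsUnit ((a.val : ℤ_[p])) then ((p : ℝ≥0∞)⁻¹) ^ N * c a else 0 := by
  classical
  have hz : NeZero (p ^ 1) := ⟨pow_ne_zero _ (Fact.out : p.Prime).ne_zero⟩
  have hzN : NeZero (p ^ N) := ⟨pow_ne_zero _ (Fact.out : p.Prime).ne_zero⟩
  set U : Set ℤ_[p] := {z | IsUnit z} with hU
  have hUm : MeasurableSet U := unit_meas
  have hnu : ∀ z : ℤ_[p], ¬ IsUnit ((p : ℤ_[p]) * z) := by
    intro z hu
    exact PadicInt.prime_p.not_isUnit (isUnit_of_mul_isUnit_left hu)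
  rw [← lintegral_add_compl g hUm, add_comm]
  congr 1
  · rw [← lintegral_indicator hUm.compl, lintegral_sm p 1 _ (hg.indicator hUm.compl), sm,
      ← Finset.add_sum_erase Finset.univ _ (Finset.mem_univ 0)]
    rw [Finset.sum_eq_zero, add_zero, ZMod.val_zero, Nat.cast_zero, pow_one]
    · congr 1
      refine lintegral_congr fun z => ?_
      rw [pow_one, zero_add, Set.indicator_of_mem]
      exact hnu z
    · intro w hw
      have h1 : ∀ z : ℤ_[p], Uᶜ.indicator g ((w.val : ℤ_[p]) + (p : ℤ_[p]) ^ 1 * z) = 0 := by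
        intro z
        refine Set.indicator_of_notMem ?_ _
        rw [Set.mem_compl_iff, not_not]
        exact isUnit_res w (Finset.ne_of_mem_erase hw) z
      simp only [h1, lintegral_zero, mul_zero]
  · rw [← lintegral_indicator hUm, lintegral_sm p N _ (hg.indicator hUm), sm]
    refine Finset.sum_congr rfl fun a _ => ?_
    have hiff : ∀ z : ℤ_[p], ((a.val : ℤ_[p]) + (p : ℤ_[p]) ^ N * z) ∈ U ↔
        IsUnit ((a.val : ℤ_[p])) := by
      intro z
      have h2 : ∀ x : ℤ_[p], IsUnit x ↔ ¬ (p : ℤ_[p]) ∣ x := by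
        intro x
        rw [PadicInt.isUnit_iff, ← PadicInt.norm_lt_one_iff_dvd]
        exact ⟨fun h => h.symm ▸ lt_irrefl _, fun h => le_antisymm (PadicInt.norm_le_one x)
          (not_lt.1 h)⟩
      have h3 : (p : ℤ_[p]) ∣ (p : ℤ_[p]) ^ N * z :=
        (dvd_pow_self _ hN.ne').mul_right z
      change IsUnit _ ↔ _
      rw [h2, h2, dvd_add_left h3]
    split_ifs with ha
    · congr 1
      have h1 : ∀ z : ℤ_[p], U.indicator g ((a.val : ℤ_[p]) + (p : ℤ_[p]) ^ N * z) = c a := by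
        intro z
        rw [Set.indicator_of_mem ((hiff z).2 ha), h a z ha]
      rw [lintegral_congr h1, lintegral_const, measure_univ, mul_one]
    · have h1 : ∀ z : ℤ_[p], U.indicator g ((a.val : ℤ_[p]) + (p : ℤ_[p]) ^ N * z) = 0 :=
        fun z => Set.indicator_of_notMem (fun hm => ha ((hiff z).1 hm)) _
      simp only [h1, lintegral_zero, mul_zero]

section

/-- the substitution `x_i = c` -/
noncomputable def dehR {R : Type} [CommRing R] {n : ℕ} (i : Fin (n + 1)) (c : R) :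
    MvPolynomial (Fin (n + 1)) R →ₐ[R] MvPolynomial (Fin n) R :=
  MvPolynomial.aeval (Fin.insertNth i (MvPolynomial.C c : MvPolynomial (Fin n) R) MvPolynomial.X)

variable {n : ℕ} {ι : Type} [Fintype ι]

theorem eval_whom {σ : Type} [Fintype σ] (w : σ → ℕ) (q : MvPolynomial σ ℚ_[p]) (d : ℕ)
    (hq : q.IsWeightedHomogeneous w d) (a : ℚ_[p]) (y : σ → ℚ_[p]) :
    MvPolynomial.eval (fun i => a ^ w i * y i) q = a ^ d * MvPolynomial.eval y q := by
  rw [MvPolynomial.eval_eq', MvPolynomial.eval_eq', Finset.mul_sum]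
  refine Finset.sum_congr rfl fun m hm => ?_
  have h1 : ∏ i, (a ^ w i * y i) ^ m i = a ^ d * ∏ i, y i ^ m i := by
    simp only [mul_pow, ← pow_mul]
    rw [Finset.prod_mul_distrib, Finset.prod_pow_eq_pow_sum]
    congr 2
    have h2 := hq (MvPolynomial.mem_support_iff.1 hm)
    rw [Finsupp.weight_apply, Finsupp.sum_fintype _ _ (by simp)] at h2
    rw [← h2]
    refine Finset.sum_congr rfl fun i _ => ?_
    rw [smul_eq_mul, mul_comm]
  rw [h1]
  ring

theorem eval_dehR (i : Fin (n + 1)) (c : ℚ_[p]) (q : MvPolynomial (Fin (n + 1)) ℚ_[p])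
    (y : Fin n → ℚ_[p]) :
    MvPolynomial.eval y (dehR i c q) = MvPolynomial.eval (Fin.insertNth i c y) q := by
  unfold dehR
  rw [MvPolynomial.aeval_def, MvPolynomial.eval_eval₂]
  congr 1
  · ext; simp
  · funext k
    refine Fin.succAboveCases i ?_ (fun j => ?_) k
    · simp
    · simp

/-- the size of a family on a chart -/
theorem sz_root_ins (w : Fin (n + 1) → ℕ) (f : ι → MvPolynomial (Fin (n + 1)) ℚ_[p]) (d : ℕ)
    (hf : ∀ j, (f j).IsWeightedHomogeneous w d) (c : Fin (n + 1) → ℚ_[p]) (i : Fin (n + 1))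
    (x : ℤ_[p]) (r : ℚ_[p]) (v : ℤ_[p]) (hv : IsUnit v)
    (hx : c i * inc p x = r * inc p v ^ w i) (y : Fin n → ℤ_[p]) :
    sz (scl c f) (Fin.insertNth i x (fun k => v ^ w (i.succAbove k) * y k)) =
      sz (scl (fun k => c (i.succAbove k)) (fun j => dehR i r (f j))) y := by
  rw [sz_ins]
  unfold sz
  have h4 : (fun j => MvPolynomial.eval (Fin.insertNth i (inc p x)
      (fun k => inc p (v ^ w (i.succAbove k) * y k)) : Fin (n + 1) → ℚ_[p]) (scl c f j)) =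
      (inc p v) ^ d • fun j => MvPolynomial.eval (fun k => inc p (y k))
        (scl (fun k => c (i.succAbove k)) (fun j => dehR i r (f j)) j) := by
    funext j
    rw [Pi.smul_apply, smul_eq_mul, eval_scl, eval_scl, eval_dehR, ← eval_whom w (f j) d (hf j)]
    congr 1
    congr 1
    funext k
    induction k using Fin.succAboveCases i with
    | x =>
      rw [Fin.insertNth_apply_same, Fin.insertNth_apply_same, hx, mul_comm]
    | p k =>
      rw [Fin.insertNth_apply_succAbove, Fin.insertNth_apply_succAbove]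
      have h5 : inc p (v ^ w (i.succAbove k) * y k) =
        inc p v ^ w (i.succAbove k) * inc p (y k) := by simp [inc]
      rw [h5]
      ring
  rw [h4, norm_smul, norm_pow]
  have h5 : ‖inc p v‖ = 1 := PadicInt.isUnit_iff.1 hv
  rw [h5, one_pow, one_mul]

/-- the integral over a unit value of a coordinate -/
theorem unit_intw (w : Fin (n + 1) → ℕ) (f : ι → MvPolynomial (Fin (n + 1)) ℚ_[p]) (d : ℕ)
    (hf : ∀ j, (f j).IsWeightedHomogeneous w d) (c : Fin (n + 1) → ℚ_[p]) (i : Fin (n + 1))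
    (s : ℝ) (x : ℤ_[p]) (r : ℚ_[p]) (v : ℤ_[p]) (hv : IsUnit v)
    (hx : c i * inc p x = r * inc p v ^ w i) :
    ∫⁻ y, ENNReal.ofReal (sz (scl c f) (Fin.insertNth i x y : Fin (n + 1) → ℤ_[p]) ^ s)
        ∂(Measure.pi fun _ : Fin n => mu p) =
      ∫⁻ y, ENNReal.ofReal (sz (scl (fun k => c (i.succAbove k)) (fun j => dehR i r (f j))) y ^ s)
        ∂(Measure.pi fun _ : Fin n => mu p) := by
  have hmu : MeasurePreserving (fun (y : Fin n → ℤ_[p]) k => v ^ w (i.succAbove k) * y k)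
      (Measure.pi fun _ : Fin n => mu p) (Measure.pi fun _ : Fin n => mu p) :=
    measurePreserving_pi (fun _ : Fin n => mu p) (fun _ : Fin n => mu p)
      (fun k => mp_unit (v ^ w (i.succAbove k)) (hv.pow _))
  rw [← hmu.lintegral_comp (sz_ins_meas' (scl c f) i x s)]
  refine lintegral_congr fun y => ?_
  rw [sz_root_ins w f d hf c i x r v hv hx y]

theorem unit_intw2 (w : Fin (n + 1) → ℕ) (f : ι → MvPolynomial (Fin (n + 1)) ℚ_[p]) (d : ℕ)
    (hf : ∀ j, (f j).IsWeightedHomogeneous w d) (c : Fin (n + 1) → ℚ_[p]) (i : Fin (n + 1))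
    (s : ℝ) (a u x : ℤ_[p]) (hval : x = a * u) (r : ℚ_[p]) (v : ℤ_[p]) (hv : IsUnit v)
    (hx : c i * inc p a * inc p u = r * inc p v ^ w i) :
    ∫⁻ y, ENNReal.ofReal (sz (scl c f) (Fin.insertNth i x y : Fin (n + 1) → ℤ_[p]) ^ s)
        ∂(Measure.pi fun _ : Fin n => mu p) =
      ∫⁻ y, ENNReal.ofReal (sz (scl (fun k => c (i.succAbove k)) (fun j => dehR i r (f j))) y ^ s)
        ∂(Measure.pi fun _ : Fin n => mu p) := by
  refine unit_intw w f d hf c i s x r v hv ?_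
  have h5 : inc p (a * u) = inc p a * inc p u := PadicInt.coe_mul a u
  rw [hval, h5, ← mul_assoc]
  exact hx

theorem unit_val (N : ℕ) (a z : ℤ_[p]) (ha : IsUnit a) : ∃ u : ℤ_[p],
    ‖u - 1‖ ≤ ((p : ℝ)⁻¹) ^ N ∧ a + (p : ℤ_[p]) ^ N * z = a * u := by
  obtain ⟨u0, hu0⟩ := ha
  refine ⟨1 + (p : ℤ_[p]) ^ N * (z * ((u0⁻¹ : ℤ_[p]ˣ) : ℤ_[p])), ?_, ?_⟩
  · rw [add_sub_cancel_left, norm_mul, norm_pow, PadicInt.norm_p]
    have h1 : ‖z * ((u0⁻¹ : ℤ_[p]ˣ) : ℤ_[p])‖ ≤ 1 := PadicInt.norm_le_one _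
    exact mul_le_of_le_one_right (pow_nonneg (inv_nonneg.2 (Nat.cast_nonneg p)) N) h1
  · rw [← hu0, mul_add, mul_one]
    have : (u0 : ℤ_[p]) * ((p : ℤ_[p]) ^ N * (z * ((u0⁻¹ : ℤ_[p]ˣ) : ℤ_[p]))) =
        (p : ℤ_[p]) ^ N * z * ((u0 : ℤ_[p]) * ((u0⁻¹ : ℤ_[p]ˣ) : ℤ_[p])) := by ring
    rw [this, Units.mul_inv, mul_one]

/-- the first step -/
theorem wcone_step (w : Fin (n + 1) → ℕ) (f : ι → MvPolynomial (Fin (n + 1)) ℚ_[p]) (d : ℕ)
    (hf : ∀ j, (f j).IsWeightedHomogeneous w d) (i : Fin (n + 1)) (hi : w i ≠ 0)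
    (c : Fin (n + 1) → ℚ_[p]) (hc : ∀ k, c k ≠ 0) :
    ∃ (K : Type) (_ : Fintype K) (a : K → ℝ) (r : K → ℚ), (∀ k, r k ≠ 0) ∧ ∀ s : ℝ, 0 ≤ s →
      FF (scl c f) s = ((qr p : ℝ) : ℂ) * FF (scl (Function.update c i ((p : ℚ_[p]) * c i)) f) s +
        ∑ k, ((a k : ℝ) : ℂ) *
          FF (scl (fun k => c (i.succAbove k)) (fun j => dehR i (r k : ℚ_[p]) (f j))) s := by
  classical
  obtain ⟨N, hN, hroot⟩ := exists_rat_root (p := p) (w i) hi
  have hzN : NeZero (p ^ N) := ⟨pow_ne_zero _ (Fact.out : p.Prime).ne_zero⟩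
  have hp0 : (p : ℝ≥0∞) ≠ 0 := by exact_mod_cast (Fact.out : p.Prime).ne_zero
  set K := {a : ZMod (p ^ N) // IsUnit ((a.val : ℤ_[p]))} with hK
  have hq : ∀ a : K, c i * inc p ((a.1.val : ℤ_[p])) ≠ 0 := fun a =>
    mul_ne_zero (hc i) (fun h0 => by
      have h1 : ‖inc p ((a.1.val : ℤ_[p]))‖ = 1 := PadicInt.isUnit_iff.1 a.2
      rw [h0, norm_zero] at h1
      exact zero_ne_one h1)
  choose r hr0 hr using fun a : K => hroot _ (hq a)
  refine ⟨K, inferInstance, fun _ => (qr p) ^ N, r, hr0, fun s hs => ?_⟩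
  have hcomp : ∀ {σ : Type} [Fintype σ] (h : ι → MvPolynomial σ ℚ_[p]),
      ∫⁻ x, ENNReal.ofReal (sz h x ^ s) ∂(Measure.pi fun _ : σ => mu p) ≠ ⊤ := by
    intro σ _ h
    obtain ⟨B, hB⟩ := (isCompact_range (sz_cont h)).bddAbove
    refine ne_top_of_le_ne_top (ENNReal.ofReal_ne_top (r := B ^ s))
      ((lintegral_mono (g := fun _ => ENNReal.ofReal (B ^ s)) fun x =>
      ENNReal.ofReal_le_ofReal (Real.rpow_le_rpow (sz_nonneg _ _) (hB ⟨x, rfl⟩) hs)).trans ?_)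
    rw [lintegral_const, measure_univ, mul_one]
  set C : K → ℝ≥0∞ := fun a => ∫⁻ y, ENNReal.ofReal (sz (scl (fun k => c (i.succAbove k))
    (fun j => dehR i (r a : ℚ_[p]) (f j))) y ^ s) ∂(Measure.pi fun _ : Fin n => mu p) with hC
  have hmain : ∫⁻ x, ENNReal.ofReal (sz (scl c f) x ^ s)
        ∂(Measure.pi fun _ : Fin (n + 1) => mu p) =
      (p : ℝ≥0∞)⁻¹ * ∫⁻ x, ENNReal.ofReal
        (sz (scl (Function.update c i ((p : ℚ_[p]) * c i)) f) x ^ s)
        ∂(Measure.pi fun _ : Fin (n + 1) => mu p) +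
        ∑ a : K, ((p : ℝ≥0∞)⁻¹) ^ N * C a := by
    have h1 : ∀ (z : ℤ_[p]) (y : Fin n → ℤ_[p]),
        sz (scl (Function.update c i ((p : ℚ_[p]) * c i)) f)
        (Fin.insertNth i z y : Fin (n + 1) → ℤ_[p]) =
        sz (scl c f) (Fin.insertNth i ((p : ℤ_[p]) * z) y : Fin (n + 1) → ℤ_[p]) := by
      intro z y
      rw [sz_ins, sz_ins]
      congr 1
      funext j
      rw [eval_scl, eval_scl]
      congr 1
      congr 1
      funext k
      induction k using Fin.succAboveCases i with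
      | x =>
        rw [Fin.insertNth_apply_same, Fin.insertNth_apply_same, Function.update_self]
        have : inc p ((p : ℤ_[p]) * z) = (p : ℚ_[p]) * inc p z := by simp [inc]
        rw [this]
        ring
      | p k =>
        rw [Fin.insertNth_apply_succAbove, Fin.insertNth_apply_succAbove,
          Function.update_of_ne (Fin.succAbove_ne i k)]
    have h2 : ∫⁻ x, ENNReal.ofReal
        (sz (scl (Function.update c i ((p : ℚ_[p]) * c i)) f) x ^ s)
        ∂(Measure.pi fun _ : Fin (n + 1) => mu p) =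
        ∫⁻ z, ∫⁻ y, ENNReal.ofReal (sz (scl c f)
          (Fin.insertNth i ((p : ℤ_[p]) * z) y : Fin (n + 1) → ℤ_[p]) ^ s)
          ∂(Measure.pi fun _ : Fin n => mu p) ∂(mu p) := by
      rw [ins_fubini (scl _ f) i s]
      refine lintegral_congr fun z => lintegral_congr fun y => ?_
      rw [h1]
    rw [ins_fubini (scl c f) i s, h2]
    rw [avgN _ (sz_ins_meas (scl c f) i s).lintegral_prod_right' N hN
      (fun a => if ha : IsUnit ((a.val : ℤ_[p])) then C ⟨a, ha⟩ else 0) (fun a z ha => ?_)]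
    · refine congrArg₂ (· + ·) rfl ?_
      rw [← Finset.sum_filter, Finset.sum_subtype (p := fun a : ZMod (p ^ N) =>
        IsUnit ((a.val : ℤ_[p]))) (Finset.univ.filter fun a : ZMod (p ^ N) =>
        IsUnit ((a.val : ℤ_[p]))) (fun a => by simp)
        (fun a => ((p : ℝ≥0∞)⁻¹) ^ N * (if ha : IsUnit ((a.val : ℤ_[p])) then C ⟨a, ha⟩ else 0))]
      refine Finset.sum_congr rfl fun a _ => ?_
      rw [dif_pos a.2]
    · rw [dif_pos ha]
      obtain ⟨u, hun, hval⟩ := unit_val N (a.val : ℤ_[p]) z ha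
      obtain ⟨v, hv, hv2⟩ := hr ⟨a, ha⟩ u hun
      exact unit_intw2 w f d hf c i s (a.val : ℤ_[p]) u _ hval (r ⟨a, ha⟩ : ℚ_[p]) v hv hv2
  have hC0 : ∀ a, C a ≠ ⊤ := fun a => hcomp _
  unfold FF FZ
  rw [hmain, ENNReal.toReal_add (ENNReal.mul_ne_top (ENNReal.inv_ne_top.2 hp0) (hcomp _))
    (ENNReal.sum_ne_top.2 fun a _ => ENNReal.mul_ne_top
      (ENNReal.pow_ne_top (ENNReal.inv_ne_top.2 hp0)) (hC0 a)),
    ENNReal.toReal_mul, toReal_pinv, ENNReal.toReal_sum (fun a _ => ENNReal.mul_ne_top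
      (ENNReal.pow_ne_top (ENNReal.inv_ne_top.2 hp0)) (hC0 a))]
  simp only [ENNReal.toReal_mul, ENNReal.toReal_pow, toReal_pinv]
  push_cast
  rfl

/-- scaling by `p ^ w` -/
theorem FF_const_sclw (w : Fin (n + 1) → ℕ) (f : ι → MvPolynomial (Fin (n + 1)) ℚ_[p]) (d : ℕ)
    (hf : ∀ j, (f j).IsWeightedHomogeneous w d) (c : Fin (n + 1) → ℚ_[p]) (s : ℝ) :
    FF (scl (fun i => (p : ℚ_[p]) ^ w i * c i) f) s = ((tr' p s : ℝ) : ℂ) ^ d *
      FF (scl c f) s := by
  rw [FF_norm_smul (τ := Fin 0) (scl (fun i => (p : ℚ_[p]) ^ w i * c i) f) (scl c f)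
    ((p : ℚ_[p]) ^ d) (fun x => ?_) s]
  · congr 1
    rw [N_pow, ENNReal.toReal_pow, N_p, Tt_toReal]
    push_cast
    rfl
  · unfold sz
    have h4 : (fun j => MvPolynomial.eval (fun i => inc p (x i))
        (scl (fun i => (p : ℚ_[p]) ^ w i * c i) f j)) =
        ((p : ℚ_[p]) ^ d) • fun j => MvPolynomial.eval (fun i => inc p (x i)) (scl c f j) := by
      funext j
      rw [Pi.smul_apply, smul_eq_mul, eval_scl, eval_scl, ← eval_whom w (f j) d (hf j)]
      congr 1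
      congr 1
      funext k
      ring
    rw [h4, norm_smul]

/-- the reduction -/
theorem wcone_red (w : Fin (n + 1) → ℕ) (f : ι → MvPolynomial (Fin (n + 1)) ℚ_[p]) (d : ℕ)
    (hf : ∀ j, (f j).IsWeightedHomogeneous w d) (m : ℂ → ℕ∞)
    (h : ∀ (i : Fin (n + 1)), w i ≠ 0 → ∀ r : ℚ, r ≠ 0 → ∀ c : Fin n → ℚ_[p], (∀ k, c k ≠ 0) →
      FR p m (FF (scl c (fun j => dehR i (r : ℚ_[p]) (f j))))) :
    ∀ (K : ℕ) (e : Fin (n + 1) → ℕ), ∑ i, e i = K → (∀ i, e i ≠ 0 → w i ≠ 0) →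
      ∀ c : Fin (n + 1) → ℚ_[p], (∀ k, c k ≠ 0) → ∃ G : ℝ → ℂ, FR p m G ∧ ∀ s : ℝ, 0 ≤ s →
        FF (scl c f) s = ((qr p : ℝ) : ℂ) ^ K *
          FF (scl (fun i => (p : ℚ_[p]) ^ e i * c i) f) s + G s := by
  classical
  have hpne : (p : ℚ_[p]) ≠ 0 := by exact_mod_cast (Fact.out : p.Prime).ne_zero
  intro K
  induction K with
  | zero =>
    intro e he _ c hc
    refine ⟨fun _ => 0, FR_const m 0, fun s hs => ?_⟩
    have h1 : (fun i => (p : ℚ_[p]) ^ e i * c i) = c := by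
      funext i
      rw [Finset.sum_eq_zero_iff.1 he i (Finset.mem_univ i), pow_zero, one_mul]
    rw [h1, pow_zero, one_mul, add_zero]
  | succ K ih =>
    intro e he hew c hc
    obtain ⟨i, hi⟩ : ∃ i, e i ≠ 0 := by
      by_contra h0
      push Not at h0
      rw [Finset.sum_eq_zero fun i _ => h0 i] at he
      omega
    set e' : Fin (n + 1) → ℕ := Function.update e i (e i - 1) with he'
    have h2 : ∑ k, e' k = K := by
      rw [← Finset.add_sum_erase Finset.univ e' (Finset.mem_univ i)]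
      rw [← Finset.add_sum_erase Finset.univ e (Finset.mem_univ i)] at he
      have h3 : ∑ k ∈ Finset.univ.erase i, e' k = ∑ k ∈ Finset.univ.erase i, e k :=
        Finset.sum_congr rfl fun k hk => by
          rw [he', Function.update_of_ne (Finset.ne_of_mem_erase hk)]
      rw [h3, he', Function.update_self]
      omega
    have h3 : ∀ k, e' k ≠ 0 → w k ≠ 0 := by
      intro k hk
      by_cases hki : k = i
      · rw [hki]; exact hew i hi
      · rw [he', Function.update_of_ne hki] at hk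
        exact hew k hk
    set c' : Fin (n + 1) → ℚ_[p] := Function.update c i ((p : ℚ_[p]) * c i) with hc'
    have hc'0 : ∀ k, c' k ≠ 0 := by
      intro k
      by_cases hki : k = i
      · rw [hki, hc', Function.update_self]
        exact mul_ne_zero hpne (hc i)
      · rw [hc', Function.update_of_ne hki]
        exact hc k
    obtain ⟨G, hG, hG2⟩ := ih e' h2 h3 c' hc'0
    obtain ⟨K', iK, a, r, hr, hstep⟩ := wcone_step w f d hf i (hew i hi) c hc
    refine ⟨fun s => ((qr p : ℝ) : ℂ) * G s + ∑ k, ((a k : ℝ) : ℂ) *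
      FF (scl (fun k => c (i.succAbove k)) (fun j => dehR i (r k : ℚ_[p]) (f j))) s,
      (FR.mul0 (F := fun _ => ((qr p : ℝ) : ℂ)) (fun T0 _ => Reg.const _) hG).add
      (FR.sum Finset.univ (fun k s => ((a k : ℝ) : ℂ) *
        FF (scl (fun k => c (i.succAbove k)) (fun j => dehR i (r k : ℚ_[p]) (f j))) s)
        fun k _ => FR.mul0 (F := fun _ => ((a k : ℝ) : ℂ)) (fun T0 _ => Reg.const _)
          (h i (hew i hi) (r k) (hr k) _ fun k => hc _)), fun s hs => ?_⟩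
    rw [hstep s hs, hG2 s hs]
    have h4 : (fun k => (p : ℚ_[p]) ^ e' k * c' k) = fun k => (p : ℚ_[p]) ^ e k * c k := by
      funext k
      by_cases hki : k = i
      · rw [hki, hc', he', Function.update_self, Function.update_self, ← mul_assoc, ← pow_succ,
          Nat.sub_add_cancel (Nat.one_le_iff_ne_zero.2 hi)]
      · rw [hc', he', Function.update_of_ne hki, Function.update_of_ne hki]
    rw [h4]
    ring

/-- **Weighted cones.** -/
theorem FR_wcone (w : Fin (n + 1) → ℕ) (hw : ∃ i, w i ≠ 0)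
    (f : ι → MvPolynomial (Fin (n + 1)) ℚ_[p]) (d : ℕ) (hd : 0 < d)
    (hf : ∀ j, (f j).IsWeightedHomogeneous w d) (m m' : ℂ → ℕ∞)
    (H : ∀ T, 1 < ‖T‖ → (if T ^ d = (p : ℂ) ^ (∑ i, w i) then 1 else 0) + m T ≤ m' T)
    (h : ∀ (i : Fin (n + 1)), w i ≠ 0 → ∀ r : ℚ, r ≠ 0 → ∀ c : Fin n → ℚ_[p], (∀ k, c k ≠ 0) →
      FR p m (FF (scl c (fun j => dehR i (r : ℚ_[p]) (f j)))))
    (c : Fin (n + 1) → ℚ_[p]) (hc : ∀ k, c k ≠ 0) : FR p m' (FF (scl c f)) := by
  obtain ⟨G, hG, hG2⟩ := wcone_red w f d hf m h (∑ i, w i) w rfl (fun i hi => hi) c hc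
  have hpos : 0 < ∑ i, w i := by
    obtain ⟨i, hi⟩ := hw
    have := Finset.single_le_sum (f := w) (fun i _ => Nat.zero_le _) (Finset.mem_univ i)
    omega
  obtain ⟨W, hW⟩ : ∃ W, ∑ i, w i = W + 1 := ⟨∑ i, w i - 1, by omega⟩
  rw [hW] at H hG2
  have h3 := FR.mul (geo_FR (p := p) d W hd) hG H
  refine h3.congr fun s hs => ?_
  have h4 := hG2 s hs
  rw [FF_const_sclw w f d hf c s] at h4
  have hne : (1 - ((qr p : ℝ) : ℂ) ^ (W + 1) * ((tr' p s : ℝ) : ℂ) ^ d) ≠ 0 := by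
    intro h
    have h1 : (1 : ℝ) = qr p ^ (W + 1) * tr' p s ^ d := by
      have := sub_eq_zero.1 h
      exact_mod_cast this
    have ht0 := tr'_pos p s
    have h2 : tr' p s ^ d ≤ 1 := pow_le_one₀ ht0.le (tr'_le_one' hs)
    have h5 : qr p ^ (W + 1) < 1 := pow_lt_one₀ qr_pos.le qr_lt_one (by omega)
    have h6 : qr p ^ (W + 1) * tr' p s ^ d ≤ qr p ^ (W + 1) * 1 :=
      mul_le_mul_of_nonneg_left h2 (pow_nonneg qr_pos.le _)
    linarith
  refine mul_left_cancel₀ hne ?_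
  rw [← mul_assoc, mul_inv_cancel₀ hne, one_mul]
  linear_combination -h4

end

end Pool.Agent.T6.H26
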