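import Pool.Agent.W574.CN.Gen

set_option autoImplicit false
set_option linter.unusedSectionVars false

/-! # The root `-|w| / d` of weighted homogeneous ideals -/

namespace Pool.Agent.T6.H26

open Pool.Agent.W574.SM Pool.Agent.W574.CN

section Gen

variable {n : ℕ} {ι : Type} [Fintype ι] [DecidableEq ι]

theorem aeval_mul_whomog {σ S : Type} [CommRing S] [Algebra ℂ S] (w : σ → ℕ) (a : σ → S) (r : S)
    (q : MvPolynomial σ ℂ) (d : ℕ) (hq : q.IsWeightedHomogeneous w d) :
    MvPolynomial.aeval (fun i => r ^ w i * a i) q = r ^ d * MvPolynomial.aeval a q := by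
  rw [MvPolynomial.aeval_def, MvPolynomial.aeval_def, MvPolynomial.eval₂_eq,
    MvPolynomial.eval₂_eq, Finset.mul_sum]
  refine Finset.sum_congr rfl fun m hm => ?_
  have h1 : Finsupp.weight w m = d := hq (MvPolynomial.mem_support_iff.1 hm)
  have h2 : ∏ i ∈ m.support, (r ^ w i * a i) ^ m i = r ^ d * ∏ i ∈ m.support, a i ^ m i := by
    simp only [mul_pow, Finset.prod_mul_distrib, ← pow_mul]
    rw [Finset.prod_pow_eq_pow_sum, ← h1, Finsupp.weight_apply, Finsupp.sum]
    congr 2
    refine Finset.sum_congr rfl fun i _ => ?_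
    rw [smul_eq_mul, mul_comm]
  rw [h2]
  ring

/-- the point of the cone -/
noncomputable def ptz (z : Fin (n + 1)) (p : Fin (n + 1) → ℂ) :
    Fin (n + 1) → MvPowerSeries (Fin (n + 1)) ℂ :=
  fun t => MvPowerSeries.C (p t) + (if t = z then 0 else MvPowerSeries.X t)

theorem pderiv_ptz (z : Fin (n + 1)) (p : Fin (n + 1) → ℂ) (s t : Fin (n + 1)) :
    MvPowerSeries.pderiv ℂ s (ptz z p t) = if t = z then 0 else if s = t then 1 else 0 := by
  have h0 : MvPowerSeries.pderiv ℂ s (MvPowerSeries.C (p t) : MvPowerSeries (Fin (n + 1)) ℂ) = 0 :=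
    (MvPowerSeries.pderiv ℂ s).map_algebraMap (p t)
  rw [ptz, map_add, h0, zero_add]
  by_cases ht : t = z
  · rw [if_pos ht, if_pos ht, map_zero]
  · rw [if_neg ht, if_neg ht]
    by_cases hst : s = t
    · rw [if_pos hst, hst, MvPowerSeries.pderiv_X_self]
    · rw [if_neg hst, MvPowerSeries.pderiv_X_of_ne (Ne.symm hst)]

theorem cc_ptz (z : Fin (n + 1)) (p : Fin (n + 1) → ℂ) :
    (fun t => MvPowerSeries.constantCoeff (ptz z p t)) = p := by
  funext t
  rw [ptz, map_add, MvPowerSeries.constantCoeff_C]
  split_ifs <;> simp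

/-- the determinant of a matrix with diagonal rows except one -/
theorem det_row {R : Type} [CommRing R] (z : Fin (n + 1)) (M : Matrix (Fin (n + 1)) (Fin (n + 1)) R)
    (h : ∀ t i, t ≠ z → t ≠ i → M t i = 0) : M.det = ∏ i, M i i := by
  set e := Equiv.swap (0 : Fin (n + 1)) z with he
  rw [← Matrix.det_submatrix_equiv_self e M, Matrix.det_of_isUpperTriangular]
  · exact Fintype.prod_equiv e (fun i => (M.submatrix e e) i i) (fun i => M i i) fun i => rfl
  · intro t i hti
    simp only [id] at hti
    rw [Matrix.submatrix_apply]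
    refine h _ _ (fun h0 => ?_) (fun h0 => ?_)
    · have h1 : t = 0 := by
        have h2 := congrArg e.symm h0
        rw [Equiv.symm_apply_apply] at h2
        rw [h2, he, Equiv.symm_swap, Equiv.swap_apply_right]
      rw [h1] at hti
      exact absurd hti (Fin.not_lt_zero i)
    · have h1 := e.injective h0
      rw [h1] at hti
      exact lt_irrefl _ hti

theorem det_wcone (w : Fin (n + 1) → ℕ) (z : Fin (n + 1)) (hz : 0 < w z) (p : Fin (n + 1) → ℂ) :
    (Matrix.of fun t i => MvPowerSeries.pderiv ℂ t
      ((MvPowerSeries.X z : MvPowerSeries (Fin (n + 1)) ℂ) ^ w i * ptz z p i)).det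
      = MvPowerSeries.X z ^ (∑ i, w i - 1) * MvPowerSeries.C (w z * p z) := by
  have hent : ∀ t i, MvPowerSeries.pderiv ℂ t
      ((MvPowerSeries.X z : MvPowerSeries (Fin (n + 1)) ℂ) ^ w i * ptz z p i) =
      MvPowerSeries.X z ^ w i * (if i = z then 0 else if t = i then 1 else 0) +
      (if t = z then (w i : MvPowerSeries (Fin (n + 1)) ℂ) * MvPowerSeries.X z ^ (w i - 1) *
        ptz z p i else 0) := by
    intro t i
    rw [Derivation.leibniz, smul_eq_mul, smul_eq_mul, pderiv_ptz, Derivation.leibniz_pow]
    congr 1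
    by_cases ht : t = z
    · rw [if_pos ht, ht, MvPowerSeries.pderiv_X_self, smul_eq_mul, nsmul_eq_mul, mul_one]
      ring
    · rw [if_neg ht, MvPowerSeries.pderiv_X_of_ne (Ne.symm ht), smul_zero, smul_zero, mul_zero]
  have hdiag : ∀ t, MvPowerSeries.pderiv ℂ t
      ((MvPowerSeries.X z : MvPowerSeries (Fin (n + 1)) ℂ) ^ w t * ptz z p t) =
      MvPowerSeries.X z ^ (if t = z then w z - 1 else w t) *
        (if t = z then MvPowerSeries.C (w z * p z) else 1) := by
    intro t
    rw [hent]
    by_cases ht : t = z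
    · subst ht
      rw [if_pos rfl, if_pos rfl, if_pos rfl, if_pos rfl, mul_zero, zero_add, ptz, if_pos rfl,
        add_zero, map_mul, map_natCast]
      ring
    · rw [if_neg ht, if_neg ht, if_neg ht, if_neg ht, if_pos rfl, mul_one, add_zero]
  rw [det_row z]
  · change ∏ t, MvPowerSeries.pderiv ℂ t
      ((MvPowerSeries.X z : MvPowerSeries (Fin (n + 1)) ℂ) ^ w t * ptz z p t) = _
    rw [Finset.prod_congr rfl fun t _ => hdiag t, Finset.prod_mul_distrib,
      Finset.prod_pow_eq_pow_sum, Finset.prod_ite_eq' Finset.univ z, if_pos (Finset.mem_univ z)]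
    congr 2
    have h1 : ∑ t ∈ Finset.univ.erase z, (if t = z then w z - 1 else w t) =
        ∑ t ∈ Finset.univ.erase z, w t :=
      Finset.sum_congr rfl fun t ht => if_neg (Finset.ne_of_mem_erase ht)
    rw [← Finset.add_sum_erase Finset.univ _ (Finset.mem_univ z), if_pos rfl,
      ← Finset.add_sum_erase Finset.univ w (Finset.mem_univ z), h1]
    omega
  · intro t i ht hti
    rw [Matrix.of_apply, hent, if_neg ht, if_neg hti]
    split_ifs <;> simp

/-- The matrix of the derivatives of the quotients is invertible. -/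
theorem det_quotM {σ : Type} [Fintype σ] [DecidableEq σ] (z : σ) (M W : Matrix σ σ ℂ)
    (G v : σ → ℂ) (D : ℂ) (hv : v z ≠ 0) (heul : ∀ t, ∑ s, v s * M s t = D * G t)
    (hG : G z ≠ 0) (hdet : M.det ≠ 0) (hW0 : ∀ s, W s z = if s = z then 1 else 0)
    (hW1 : ∀ s t, t ≠ z → s ≠ z → W s t * G z ^ 2 = M s t * G z - G t * M s z)
    (hW2 : ∀ t, t ≠ z → W z t = 0) : W.det ≠ 0 := by
  intro hdW
  obtain ⟨a, ha, ha2⟩ := Matrix.exists_mulVec_eq_zero_iff.2 hdW
  have hrow : ∀ s, ∑ t, W s t * a t = 0 := fun s => congrFun ha2 s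
  have hsp : ∀ f : σ → ℂ, ∑ t, f t = f z + ∑ t ∈ Finset.univ.erase z, f t := fun f =>
    (Finset.add_sum_erase Finset.univ f (Finset.mem_univ z)).symm
  have ha0 : a z = 0 := by
    have h1 := hrow z
    rw [hsp, hW0, if_pos rfl, one_mul, Finset.sum_eq_zero, add_zero] at h1
    · exact h1
    · intro t ht
      rw [hW2 _ (Finset.ne_of_mem_erase ht), zero_mul]
  apply hdet
  rw [← Matrix.exists_mulVec_eq_zero_iff]
  set c : σ → ℂ := fun t => if t = z then -∑ t ∈ Finset.univ.erase z, a t * G t
    else a t * G z with hc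
  have hc0 : c z = -∑ t ∈ Finset.univ.erase z, a t * G t := if_pos rfl
  have hcs : ∀ t ∈ Finset.univ.erase z, c t = a t * G z := fun t ht =>
    if_neg (Finset.ne_of_mem_erase ht)
  have hs1 : ∀ s, s ≠ z → ∑ t, M s t * c t = 0 := by
    intro s hs
    have h1 := hrow s
    rw [hsp, ha0, mul_zero, zero_add] at h1
    rw [hsp, hc0, Finset.sum_congr (s₁ := Finset.univ.erase z) (f := fun t => M s t * c t)
      (g := fun t => M s t * (a t * G z)) rfl fun t ht => by rw [hcs t ht]]
    have h2 : (G z) ^ 2 * ∑ t ∈ Finset.univ.erase z, W s t * a t = 0 := by rw [h1, mul_zero]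
    rw [Finset.mul_sum] at h2
    have h3 : ∀ t ∈ Finset.univ.erase z, (G z) ^ 2 * (W s t * a t) =
        M s t * (a t * G z) - M s z * (a t * G t) := by
      intro t ht
      have := hW1 s t (Finset.ne_of_mem_erase ht) hs
      linear_combination a t * this
    rw [Finset.sum_congr rfl h3, Finset.sum_sub_distrib, ← Finset.mul_sum] at h2
    linear_combination h2
  have hval : ∑ t, G t * c t = 0 := by
    rw [hsp, hc0, Finset.sum_congr (s₁ := Finset.univ.erase z) (f := fun t => G t * c t)
      (g := fun t => G t * (a t * G z)) rfl fun t ht => by rw [hcs t ht]]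
    rw [mul_neg, Finset.mul_sum, ← Finset.sum_neg_distrib, ← Finset.sum_add_distrib]
    refine Finset.sum_eq_zero fun t _ => ?_
    ring
  have hs0 : ∑ t, M z t * c t = 0 := by
    have h1 : ∑ s, v s * ∑ t, M s t * c t = 0 := by
      have h2 : ∑ s, v s * ∑ t, M s t * c t = ∑ t, (∑ s, v s * M s t) * c t := by
        simp only [Finset.mul_sum, Finset.sum_mul]
        rw [Finset.sum_comm]
        refine Finset.sum_congr rfl fun t _ => Finset.sum_congr rfl fun s _ => ?_
        ring
      rw [h2]
      simp only [heul, mul_assoc]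
      rw [← Finset.mul_sum, hval, mul_zero]
    rw [hsp, Finset.sum_eq_zero (s := Finset.univ.erase z) fun s hs => by
      rw [hs1 _ (Finset.ne_of_mem_erase hs), mul_zero], add_zero] at h1
    exact (mul_eq_zero.1 h1).resolve_left hv
  refine ⟨c, ?_, ?_⟩
  · intro hc1
    apply ha
    funext t
    by_cases ht : t = z
    · rw [ht, ha0]; rfl
    · have := congrFun hc1 t
      rw [hcs t (Finset.mem_erase.2 ⟨ht, Finset.mem_univ t⟩)] at this
      exact (mul_eq_zero.1 this).resolve_right hG
  · funext s
    by_cases hs : s = z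
    · subst hs; exact hs0
    · exact hs1 s hs

/-- the functions whose Jacobian determinant is considered: the generators `f (e t)` for the
variables of positive weight, the variables of weight zero themselves -/
noncomputable def wfun {R : Type} [CommRing R] {ι : Type} (w : Fin (n + 1) → ℕ)
    (f : ι → MvPolynomial (Fin (n + 1)) R) (e : Fin (n + 1) → ι) (t : Fin (n + 1)) :
    MvPolynomial (Fin (n + 1)) R :=
  if w t = 0 then MvPolynomial.X t else f (e t)

/-- **The root `-|w| / d`**, at a point. -/
theorem wroot_aux (w : Fin (n + 1) → ℕ) (f : ι → MvPolynomial (Fin (n + 1)) ℂ) (d : ℕ)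
    (hd : 0 < d) (hf : ∀ j, (f j).IsWeightedHomogeneous w d) (b : Polynomial ℂ)
    (hb : IsFunctionalEq f b) (e : Fin (n + 1) → ι) (z : Fin (n + 1)) (hz : 0 < w z)
    (p : Fin (n + 1) → ℂ) (hpz : p z ≠ 0)
    (hdet : (Matrix.of fun s t =>
      MvPolynomial.eval p (MvPolynomial.pderiv s (wfun w f e t))).det ≠ 0)
    (hgz : MvPolynomial.eval p (f (e z)) ≠ 0) :
    b.eval (-((∑ i, w i : ℕ) : ℂ) / d) = 0 := by
  classical
  set A := ptz z p with hA
  set g : MvPolynomial (Fin (n + 1)) ℂ → MvPowerSeries (Fin (n + 1)) ℂ :=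
    fun q => MvPolynomial.aeval A q with hgdef
  have hgc : ∀ q, MvPowerSeries.constantCoeff (g q) = MvPolynomial.eval p q := by
    intro q
    rw [hgdef]
    simp only
    rw [constCoeff_aeval, hA, cc_ptz]
  have hgd : ∀ (s : Fin (n + 1)) q, MvPowerSeries.pderiv ℂ s (g q) =
      if s = z then 0 else g (MvPolynomial.pderiv s q) := by
    intro s q
    rw [hgdef]
    simp only
    rw [pderiv_aeval, hA]
    simp only [pderiv_ptz]
    by_cases hs : s = z
    · rw [if_pos hs]
      refine Finset.sum_eq_zero fun t _ => ?_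
      by_cases ht : t = z
      · rw [if_pos ht, mul_zero]
      · rw [if_neg ht, if_neg (fun h : s = t => ht (by rw [← h]; exact hs)), mul_zero]
    · rw [if_neg hs, Finset.sum_eq_single s]
      · rw [if_neg hs, if_pos rfl, mul_one]
      · intro t _ hts
        by_cases ht : t = z
        · rw [if_pos ht, mul_zero]
        · rw [if_neg ht, if_neg (Ne.symm hts), mul_zero]
      · intro h; exact absurd (Finset.mem_univ s) h
  set ζ : Fin (n + 1) → MvPowerSeries (Fin (n + 1)) ℂ :=
    fun t => MvPowerSeries.X z ^ w t * A t with hζ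
  have hζa : ∀ j, MvPolynomial.aeval ζ (f j) = MvPowerSeries.X z ^ d * g (f j) := fun j =>
    aeval_mul_whomog w A (MvPowerSeries.X z) (f j) d (hf j)
  set U1 := g (f (e z)) with hU1
  have hU1c : MvPowerSeries.constantCoeff U1 ≠ 0 := by rw [hU1, hgc]; exact hgz
  have hU1i : U1⁻¹ * U1 = 1 := MvPowerSeries.inv_mul_cancel U1 hU1c
  set lam : Fin (n + 1) → ℂ := fun t =>
    MvPolynomial.eval p (f (e t)) / MvPolynomial.eval p (f (e z)) with hlam
  set N : Fin (n + 1) → MvPowerSeries (Fin (n + 1)) ℂ := fun t => g (f (e t)) - lam t • U1 with hN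
  have hNc : ∀ t, MvPowerSeries.constantCoeff (N t) = 0 := by
    intro t
    rw [hN]
    simp only
    rw [map_sub, hU1, hgc, MvPowerSeries.smul_eq_C_mul, map_mul, MvPowerSeries.constantCoeff_C,
      hgc, hlam]
    simp only
    rw [div_mul_cancel₀ _ hgz, sub_self]
  set κ : ℂ := (MvPolynomial.eval p (f (e z)))⁻¹ with hκ
  set u : Fin (n + 1) → MvPowerSeries (Fin (n + 1)) ℂ := fun t =>
    if t = z then MvPowerSeries.X z else if w t = 0 then κ • MvPowerSeries.X t
      else N t * U1⁻¹ with hu
  have hu0 : u z = MvPowerSeries.X z := if_pos rfl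
  have hu2 : ∀ t, t ≠ z → w t = 0 → u t = κ • MvPowerSeries.X t := by
    intro t ht hw
    rw [hu]; simp only; rw [if_neg ht, if_pos hw]
  have hu1 : ∀ t, t ≠ z → w t ≠ 0 → u t = N t * U1⁻¹ := by
    intro t ht hw
    rw [hu]; simp only; rw [if_neg ht, if_neg hw]
  have huU : ∀ t, t ≠ z → w t ≠ 0 → U1 * u t = N t := by
    intro t ht hw
    rw [hu1 t ht hw]
    linear_combination N t * hU1i
  have huc : ∀ t, MvPowerSeries.constantCoeff (u t) = 0 := by
    intro t
    by_cases ht : t = z
    · rw [ht, hu0, MvPowerSeries.constantCoeff_X]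
    · by_cases hw : w t = 0
      · rw [hu2 t ht hw, MvPowerSeries.smul_eq_C_mul, map_mul, MvPowerSeries.constantCoeff_X,
          mul_zero]
      · rw [hu1 t ht hw, map_mul, hNc, zero_mul]
  have hud : ∀ s t, t ≠ z → w t ≠ 0 → MvPolynomial.eval p (f (e z)) *
      MvPowerSeries.constantCoeff (MvPowerSeries.pderiv ℂ s (u t)) =
      MvPowerSeries.constantCoeff (MvPowerSeries.pderiv ℂ s (N t)) := by
    intro s t ht hw
    have h1 : MvPowerSeries.constantCoeff (MvPowerSeries.pderiv ℂ s (U1 * u t)) =
        MvPowerSeries.constantCoeff (MvPowerSeries.pderiv ℂ s (N t)) := by rw [huU t ht hw]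
    rw [Derivation.leibniz, smul_eq_mul, smul_eq_mul, map_add, map_mul
      MvPowerSeries.constantCoeff, map_mul MvPowerSeries.constantCoeff, huc, zero_mul, add_zero,
      hU1, hgc] at h1
    exact h1
  have hwz0 : w z ≠ 0 := hz.ne'
  have hfz : wfun w f e z = f (e z) := if_neg hwz0
  have hres := rees_coords f b hb z ζ (∑ i, w i - 1) d 0 hd (MvPowerSeries.C (w z * p z)) U1 1
    (by
      rw [MvPowerSeries.constantCoeff_C]
      exact mul_ne_zero (Nat.cast_ne_zero.2 hwz0) hpz) hU1c (by simp)
    (det_wcone w z hz p) (e z)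
    (fun j => ⟨g (f j), hζa j⟩) (hζa _) 1 (by simp) u hu0 huc (by
      refine det_quotM z (Matrix.of fun s t =>
        MvPolynomial.eval p (MvPolynomial.pderiv s (wfun w f e t))) _
        (fun t => if w t = 0 then 0 else MvPolynomial.eval p (f (e t)))
        (fun s => (w s : ℂ) * p s) d (mul_ne_zero (Nat.cast_ne_zero.2 hwz0) hpz) ?_ ?_ hdet
        ?_ ?_ ?_
      · intro t
        simp only [Matrix.of_apply]
        by_cases hw : w t = 0
        · rw [if_pos hw, mul_zero]
          refine Finset.sum_eq_zero fun s _ => ?_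
          unfold wfun
          rw [if_pos hw]
          by_cases hst : t = s
          · rw [← hst, hw, Nat.cast_zero, zero_mul, zero_mul]
          · rw [MvPolynomial.pderiv_X_of_ne hst, map_zero, mul_zero]
        · rw [if_neg hw]
          have h1 := congrArg (MvPolynomial.eval p) (hf (e t)).sum_weight_X_mul_pderiv
          rw [map_sum, map_nsmul, nsmul_eq_mul] at h1
          rw [← h1]
          refine Finset.sum_congr rfl fun s _ => ?_
          unfold wfun
          rw [if_neg hw, map_nsmul, map_mul, MvPolynomial.eval_X, nsmul_eq_mul, mul_assoc]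
      · rw [if_neg hwz0]
        exact hgz
      · intro s
        rw [Matrix.of_apply, hu0]
        by_cases hs : s = z
        · rw [if_pos hs, hs, MvPowerSeries.pderiv_X_self, map_one]
        · rw [if_neg hs, MvPowerSeries.pderiv_X_of_ne (Ne.symm hs), map_zero]
      · intro s t ht hs
        simp only [Matrix.of_apply]
        rw [if_neg hwz0, hfz]
        by_cases hw : w t = 0
        · rw [if_pos hw, hu2 t ht hw, zero_mul, sub_zero, Derivation.map_smul,
            MvPowerSeries.smul_eq_C_mul, map_mul, MvPowerSeries.constantCoeff_C]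
          unfold wfun
          rw [if_pos hw]
          by_cases hst : t = s
          · rw [hst, MvPowerSeries.pderiv_X_self, MvPolynomial.pderiv_X_self, map_one, map_one,
              hκ]
            field_simp
          · rw [MvPowerSeries.pderiv_X_of_ne hst, MvPolynomial.pderiv_X_of_ne hst, map_zero,
              map_zero, mul_zero, zero_mul, zero_mul]
        · have h1 := hud s t ht hw
          have h2 : MvPowerSeries.constantCoeff (MvPowerSeries.pderiv ℂ s (N t)) =
              MvPolynomial.eval p (MvPolynomial.pderiv s (f (e t))) -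
                lam t * MvPolynomial.eval p (MvPolynomial.pderiv s (f (e z))) := by
            rw [hN]
            simp only
            rw [map_sub, Derivation.map_smul, hU1, hgd, hgd, if_neg hs, if_neg hs, map_sub,
              MvPowerSeries.smul_eq_C_mul, map_mul MvPowerSeries.constantCoeff,
              MvPowerSeries.constantCoeff_C, hgc, hgc]
          rw [h2] at h1
          have h3 : lam t * MvPolynomial.eval p (f (e z)) = MvPolynomial.eval p (f (e t)) := by
            rw [hlam]
            simp only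
            rw [div_mul_cancel₀ _ hgz]
          have h4 : wfun w f e t = f (e t) := if_neg hw
          rw [if_neg hw, h4]
          linear_combination MvPolynomial.eval p (f (e z)) * h1 -
            MvPolynomial.eval p (MvPolynomial.pderiv s (f (e z))) * h3
      · intro t ht
        rw [Matrix.of_apply]
        by_cases hw : w t = 0
        · rw [hu2 t ht hw, Derivation.map_smul, MvPowerSeries.pderiv_X_of_ne ht, smul_zero,
            map_zero]
        · have h1 := hud z t ht hw
          have h2 : MvPowerSeries.constantCoeff (MvPowerSeries.pderiv ℂ z (N t)) = 0 := by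
            rw [hN]
            simp only
            rw [map_sub, Derivation.map_smul, hU1, hgd, hgd, if_pos rfl, if_pos rfl, smul_zero,
              sub_self, map_zero]
          rw [h2] at h1
          exact (mul_eq_zero.1 h1).resolve_left hgz) (by
      intro t ht
      by_cases hw : w t = 0
      · left
        refine ⟨κ • (MvPolynomial.X t - MvPolynomial.C (p t)), ?_⟩
        rw [map_smul, map_sub, MvPolynomial.aeval_X, MvPolynomial.aeval_C, hu2 t ht hw, hζ]
        simp only
        rw [hw, pow_zero, one_mul, hA, ptz, if_neg ht]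
        congr 1
        have h0 : algebraMap ℂ (MvPowerSeries (Fin (n + 1)) ℂ) (p t) =
          MvPowerSeries.C (p t) := rfl
        rw [h0]
        ring
      · right
        refine ⟨Pi.single (e t) 1 - lam t • Pi.single (e z) 1, ?_⟩
        have h1 : ∀ (h : ι → MvPowerSeries (Fin (n + 1)) ℂ) (i j : ι) (c : ℂ),
            ∑ k, ((Pi.single i 1 : ι → ℂ) - c • (Pi.single j 1 : ι → ℂ)) k • h k
              = h i - c • h j := by
          intro h i j c
          simp only [Pi.sub_apply, Pi.smul_apply, sub_smul, Finset.sum_sub_distrib]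
          congr 1
          · rw [Finset.sum_eq_single i]
            · simp
            · intro k _ hk; rw [Pi.single_eq_of_ne hk, zero_smul]
            · intro h; exact absurd (Finset.mem_univ i) h
          · rw [Finset.sum_eq_single j]
            · simp
            · intro k _ hk; rw [Pi.single_eq_of_ne hk, smul_zero, zero_smul]
            · intro h; exact absurd (Finset.mem_univ j) h
        rw [h1, hζa, hζa, mul_assoc]
        have h2 := huU t ht hw
        rw [hU1] at h2
        rw [h2, hN]
        simp only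
        rw [mul_sub, mul_smul_comm])
  have hle : 1 ≤ ∑ i, w i := by
    have := Finset.single_le_sum (f := w) (fun i _ => Nat.zero_le _) (Finset.mem_univ z)
    omega
  have hn' : -((((∑ i, w i - 1 : ℕ) : ℂ)) + 1 + (0 : ℕ)) = -((∑ i, w i : ℕ) : ℂ) := by
    rw [Nat.cast_sub hle]
    push_cast
    ring
  rwa [hn'] at hres

/-- **The root `-|w| / d`**, for an ideal generated by weighted homogeneous polynomials of the same
degree `d`, such that together with the variables of weight zero there are `n + 1` algebraically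
independent functions. -/
theorem wroot (w : Fin (n + 1) → ℕ) (hw : ∃ z, 0 < w z) (f : ι → MvPolynomial (Fin (n + 1)) ℂ)
    (d : ℕ) (hd : 0 < d) (hf : ∀ j, (f j).IsWeightedHomogeneous w d) (b : Polynomial ℂ)
    (hb : IsFunctionalEq f b) (e : Fin (n + 1) → ι)
    (hdet : (Matrix.of fun s t => MvPolynomial.pderiv s (wfun w f e t)).det ≠ 0) :
    b.eval (-((∑ i, w i : ℕ) : ℂ) / d) = 0 := by
  classical
  have h1 : (∏ z, MvPolynomial.X z) *
      (Matrix.of fun s t => MvPolynomial.pderiv s (wfun w f e t)).det ≠ 0 :=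
    mul_ne_zero (Finset.prod_ne_zero_iff.2 fun z _ => MvPolynomial.X_ne_zero z) hdet
  obtain ⟨p, hp⟩ : ∃ p, MvPolynomial.eval p ((∏ z, MvPolynomial.X z) *
      (Matrix.of fun s t => MvPolynomial.pderiv s (wfun w f e t)).det) ≠ 0 := by
    by_contra hne
    push Not at hne
    exact h1 (MvPolynomial.funext fun p => by rw [hne p, map_zero])
  rw [map_mul, map_prod] at hp
  have hp0 : ∀ z, p z ≠ 0 := by
    intro z
    have h2 := Finset.prod_ne_zero_iff.1 (left_ne_zero_of_mul hp) z (Finset.mem_univ z)
    rwa [MvPolynomial.eval_X] at h2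
  have hp1 := right_ne_zero_of_mul hp
  rw [RingHom.map_det] at hp1
  have hp2 : (Matrix.of fun s t =>
      MvPolynomial.eval p (MvPolynomial.pderiv s (wfun w f e t))).det ≠ 0 := hp1
  -- one of the forms does not vanish at the point
  obtain ⟨z, hz, hgz⟩ : ∃ t, 0 < w t ∧ MvPolynomial.eval p (f (e t)) ≠ 0 := by
    by_contra hne
    push Not at hne
    apply hp2
    rw [← Matrix.exists_vecMul_eq_zero_iff]
    obtain ⟨z, hz⟩ := hw
    refine ⟨fun s => (w s : ℂ) * p s, fun h => ?_, ?_⟩
    · have h3 := congrFun h z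
      exact mul_ne_zero (Nat.cast_ne_zero.2 hz.ne') (hp0 z) h3
    funext t
    change ∑ s, ((w s : ℂ) * p s) *
      MvPolynomial.eval p (MvPolynomial.pderiv s (wfun w f e t)) = 0
    by_cases hwt : w t = 0
    · refine Finset.sum_eq_zero fun s _ => ?_
      unfold wfun
      rw [if_pos hwt]
      by_cases hst : t = s
      · rw [← hst, hwt, Nat.cast_zero, zero_mul, zero_mul]
      · rw [MvPolynomial.pderiv_X_of_ne hst, map_zero, mul_zero]
    · have h2 := congrArg (MvPolynomial.eval p) (hf (e t)).sum_weight_X_mul_pderiv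
      rw [map_sum, map_nsmul, hne t (Nat.pos_of_ne_zero hwt), smul_zero] at h2
      rw [← h2]
      refine Finset.sum_congr rfl fun s _ => ?_
      unfold wfun
      rw [if_neg hwt, map_nsmul, map_mul, MvPolynomial.eval_X, nsmul_eq_mul, mul_assoc]
  exact wroot_aux w f d hd hf b hb e z hz p (hp0 z) hp2 hgz

end Gen

end Pool.Agent.T6.H26
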