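import Pool.Agent.T6.H26.TSC
import Pool.Agent.T6.H26.WRoot
import Pool.Agent.T6.H26.WDeh
import Pool.Agent.T6.H26.WConeP

set_option autoImplicit false
set_option linter.unusedSectionVars false
set_option linter.unusedVariables false

/-! # Weighted cones: the induction -/

namespace Pool.Agent.T6.H26

open MeasureTheory MvPolynomial Pool.Agent.W427.SMC Pool.Agent.Y230.PT Pool.Agent.Y230.PS
open scoped ENNReal
open Pool.Agent.Y230.RE Pool.Agent.W574.SM Pool.Agent.W574.RO Pool.Agent.W574.CN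

attribute [local instance] msZ bsZ

variable {p : ℕ} [Fact p.Prime]

theorem whom_map {R S σ : Type} [CommRing R] [CommRing S] (φ : R →+* S) {w : σ → ℕ} {d : ℕ}
    {q : MvPolynomial σ R} (h : q.IsWeightedHomogeneous w d) :
    (map φ q).IsWeightedHomogeneous w d := by
  intro m hm
  apply h
  intro h0
  apply hm
  rw [coeff_map, h0, map_zero]

theorem map_dehR {R S : Type} [CommRing R] [CommRing S] (φ : R →+* S) {n : ℕ} (i : Fin (n + 1))
    (c : R) (q : MvPolynomial (Fin (n + 1)) R) :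
    map φ (dehR i c q) = dehR i (φ c) (map φ q) := by
  have h : (map φ).comp (dehR i c).toRingHom =
      (dehR i (φ c)).toRingHom.comp (map φ) := by
    apply MvPolynomial.ringHom_ext
    · intro a
      simp [dehR]
    · intro k
      change map φ (dehR i c (X k)) = dehR i (φ c) (map φ (X k))
      rw [map_X]
      unfold dehR
      rw [aeval_X, aeval_X]
      induction k using Fin.succAboveCases i with
      | x => rw [Fin.insertNth_apply_same, Fin.insertNth_apply_same, map_C]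
      | p k => rw [Fin.insertNth_apply_succAbove, Fin.insertNth_apply_succAbove, map_X]
  exact congrArg (fun ψ : MvPolynomial (Fin (n + 1)) R →+* MvPolynomial (Fin n) S => ψ q) h

theorem wdet_ne {n r : ℕ} (w : Fin (n + 1) → ℕ) (hw : ∃ i, w i ≠ 0)
    (f : Fin r → MvPolynomial (Fin (n + 1)) ℚ) (e : Fin (n + 1) → Fin r)
    (he : (Matrix.of fun s t => pderiv s (if w t = 0 then X t else f (e t))).det ≠ 0) :
    ∃ j, f j ≠ 0 := by
  by_contra h0
  push Not at h0
  apply he
  obtain ⟨i, hi⟩ := hw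
  refine Matrix.det_eq_zero_of_column_eq_zero i fun s => ?_
  rw [Matrix.of_apply, if_neg hi, h0, map_zero]

theorem wdet_map {n r : ℕ} (w : Fin (n + 1) → ℕ) (f : Fin r → MvPolynomial (Fin (n + 1)) ℚ)
    (e : Fin (n + 1) → Fin r)
    (he : (Matrix.of fun s t => pderiv s (if w t = 0 then X t else f (e t))).det ≠ 0) :
    (Matrix.of fun s t => pderiv s (wfun w (fun j => map (algebraMap ℚ ℂ) (f j)) e t)).det ≠ 0 := by
  intro h0
  apply he
  apply map_injective _ (algebraMap ℚ ℂ).injective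
  rw [map_zero, ← h0, RingHom.map_det]
  congr 1
  ext s t
  rw [RingHom.mapMatrix_apply, Matrix.map_apply, Matrix.of_apply, Matrix.of_apply]
  unfold wfun
  by_cases hw : w t = 0
  · rw [if_pos hw, if_pos hw, ← pderiv_map, map_X]
  · rw [if_neg hw, if_neg hw, pderiv_map]

theorem rr_wcone (W d : ℕ) (hd : 0 < d) (T : ℂ) (h : T ^ d = (p : ℂ) ^ W) :
    ((rr p T : ℝ) : ℂ) = -(W : ℂ) / d := by
  have hp : (1 : ℝ) < p := by exact_mod_cast (Fact.out : p.Prime).one_lt
  have hl : Real.log p ≠ 0 := (Real.log_pos hp).ne'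
  have hdR : (d : ℝ) ≠ 0 := by exact_mod_cast hd.ne'
  have h1 := congrArg (fun z => Real.log ‖z‖) h
  simp only [norm_pow, Complex.norm_natCast, Real.log_pow] at h1
  have h2 : rr p T = -(W : ℝ) / d := by
    unfold rr
    rw [div_eq_div_iff hl hdR]
    linear_combination -h1
  rw [h2]
  push_cast
  ring

/-- the multiplicities of a weighted cone -/
theorem mR_wcone {n r d : ℕ} (hd : 0 < d) (w : Fin (n + 1) → ℕ) (hw : ∃ i, w i ≠ 0)
    (f : Fin r → MvPolynomial (Fin (n + 1)) ℚ) (hf : ∀ j, (f j).IsWeightedHomogeneous w d)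
    (e : Fin (n + 1) → Fin r)
    (he : (Matrix.of fun s t => pderiv s (if w t = 0 then X t else f (e t))).det ≠ 0) (T : ℂ) :
    (if T ^ d = (p : ℂ) ^ (∑ i, w i) then 1 else 0) + mR p ⟨Fin (n + 1), Fin r, f⟩ T ≤
      mR p ⟨Fin (n + 1), Fin r, f⟩ T := by
  classical
  by_cases h1 : Forced (FamQ.toC ⟨Fin (n + 1), Fin r, f⟩) ((rr p T : ℝ) : ℂ)
  · rw [mR_top h1]
    exact le_top
  · have h3 : ¬ T ^ d = (p : ℂ) ^ (∑ i, w i) := by
      intro hT
      apply h1
      intro b hb
      rw [rr_wcone _ d hd T hT]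
      obtain ⟨z, hz⟩ := hw
      exact wroot w ⟨z, Nat.pos_of_ne_zero hz⟩ (FamQ.toC ⟨Fin (n + 1), Fin r, f⟩) d hd
        (fun j => whom_map _ (hf j)) b hb e (wdet_map w f e he)
    rw [mR_zero h1, if_neg h3, zero_add]

/-- the multiplicities of the charts -/
theorem mR_chart {n r d : ℕ} (w : Fin (n + 1) → ℕ) (i : Fin (n + 1)) (hi : w i ≠ 0)
    (f : Fin r → MvPolynomial (Fin (n + 1)) ℚ) (hf : ∀ j, (f j).IsWeightedHomogeneous w d)
    (c : ℚ) (hc : c ≠ 0) (T : ℂ) :
    mR p ⟨Fin n, Fin r, fun j => subQ i c (f j)⟩ T ≤ mR p ⟨Fin (n + 1), Fin r, f⟩ T := by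
  classical
  by_cases h1 : Forced (FamQ.toC ⟨Fin (n + 1), Fin r, f⟩) ((rr p T : ℝ) : ℂ)
  · rw [mR_top h1]
    exact le_top
  · have h2 : ¬ Forced (FamQ.toC ⟨Fin n, Fin r, fun j => subQ i c (f j)⟩) ((rr p T : ℝ) : ℂ) := by
      intro h2
      apply h1
      intro b hb
      apply h2 b
      have h3 := functionalEq_dehw (w := w) i hi (algebraMap ℚ ℂ c)
        ((map_ne_zero _).2 hc) (FamQ.toC ⟨Fin (n + 1), Fin r, f⟩) d (fun j => whom_map _ (hf j)) b hb
      have h4 : FamQ.toC ⟨Fin n, Fin r, fun j => subQ i c (f j)⟩ =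
          fun j => dehw i (algebraMap ℚ ℂ c) (FamQ.toC ⟨Fin (n + 1), Fin r, f⟩ j) := by
        funext j
        exact map_dehR (algebraMap ℚ ℂ) i c (f j)
      rw [h4]
      exact h3
    rw [mR_zero h2]
    exact bot_le

/-- **The zeta functions of the ideals in the class**, on all polydiscs. -/
theorem wgood_main (A : FamQ) (h : WGood A) : (∃ j, A.f j ≠ 0) ∧
    ∀ c : A.σ → ℚ_[p], (∀ i, c i ≠ 0) →
      FR p (mR p A) (Pool.Agent.Y230.PS.FF (scl c (A.toP p))) := by
  classical
  have hM := isMlt_R (p := p)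
  induction h with
  | plane r f hf => exact good_main hM _ (Good.plane r f hf)
  | free A g h => exact good_main hM _ (Good.free A g h)
  | sum A B hA hB ihA ihB =>
    refine ⟨sum_ne A B ihA.1, fun c hc => ?_⟩
    rw [toP_sum, scl_sumK]
    exact FR_sumK _ _ _ _ _ (hM.sum A B) (ihA.2 _ fun i => hc _) (ihB.2 _ fun i => hc _)
  | mul A B hA hB ihA ihB =>
    refine ⟨mul_ne A B ihA.1 ihB.1, fun c hc => ?_⟩
    rw [toP_mul, scl_mulK]
    refine (FR.mul (ihA.2 (fun i => c (Sum.inl i)) fun i => hc _)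
      (ihB.2 (fun i => c (Sum.inr i)) fun i => hc _)
      (fun T hT => hM.mul A B T hT ihA.1 ihB.1)).congr fun s hs => ?_
    rw [FF_mulK]
  | equiv A B i k h hA ihA =>
    refine ⟨equiv_ne A B i k h ihA.1, fun c hc => ?_⟩
    refine ((ihA.2 (fun a => c (i a)) fun a => hc _).mono fun T hT =>
      hM.equiv A B i k h T hT).congr fun s hs => ?_
    rw [FF_equiv i k (scl (fun a => c (i a)) (A.toP p)) (scl c (B.toP p)) (fun j => ?_) s]
    change aeval _ (map (algebraMap ℚ ℚ_[p]) (B.f (k j))) = _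
    rw [h, map_rename]
    exact scl_rename (ι := A.ι) (κ := A.ι) i c _
  | wcone n r d hd w hw f hf e he h ih =>
    refine ⟨wdet_ne w hw f e he, fun c hc => ?_⟩
    refine FR_wcone w hw (FamQ.toP p ⟨Fin (n + 1), Fin r, f⟩) d hd (fun j => whom_map _ (hf j))
      (mR p ⟨Fin (n + 1), Fin r, f⟩) _ (fun T hT => mR_wcone hd w hw f hf e he T)
      (fun i hi r' hr' c' hc' => ?_) c hc
    have h1 := ((ih i hi r' hr').2 c' hc').mono fun T hT => mR_chart w i hi f hf r' hr' T
    have h2 : FamQ.toP p ⟨Fin n, Fin r, fun j => subQ i r' (f j)⟩ =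
        fun j => dehR i (r' : ℚ_[p]) (FamQ.toP p ⟨Fin (n + 1), Fin r, f⟩ j) := by
      funext j
      exact map_dehR (algebraMap ℚ ℚ_[p]) i r' (f j)
    rw [← h2]
    exact h1

/-- the classes of the starting points -/
theorem wbase_main (c : Bool) (A : FamQ) (h : WBase c A) : ZR p c A := by
  cases h with
  | dts c A h => exact dts_main c A h
  | wgood A h =>
    obtain ⟨h1, h2⟩ := wgood_main (p := p) A h
    refine ⟨h1, ?_⟩
    have h3 := h2 (fun _ => 1) fun _ => one_ne_zero
    rw [scl_one] at h3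
    simpa using h3

end Pool.Agent.T6.H26
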