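import Pool.Agent.T6.H26.HTTow
import Pool.Agent.T6.H26.HTDefs
import Pool.Agent.T6.H26.DetBase
import Pool.Agent.T6.H26.HankMix
import Pool.Agent.T6.H26.WGoodMain
import Pool.Agent.T6.H26.TSC

set_option autoImplicit false
set_option linter.unusedSectionVars false
set_option linter.unusedVariables false

/-! # Products of Hankel determinantal ideals: the zeta functions -/

namespace Pool.Agent.T6.H26

open MeasureTheory Polynomial Pool.Agent.Y230.PT Pool.Agent.Y230.PS Filter
open Pool.Agent.TH192.DT Pool.Agent.TH192.MT Pool.Agent.TH192.PA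
open Pool.Agent.W574.SM Pool.Agent.W574.RO Pool.Agent.R779.HK Pool.Agent.T6.H26.HT
open Pool.Agent.W427.SMC (mu msZ bsZ tr' phi_eq tau tr'_pos)
open scoped NNReal ENNReal

attribute [local instance] msZ bsZ

theorem map_hankR {R S : Type} [CommRing R] [CommRing S] (φ : R →+* S) (N k : ℕ)
    (J : HIdx N k) : MvPolynomial.map φ (hankR R N k J) = hankR S N k J := by
  unfold hankR
  rw [RingHom.map_det]
  congr 1
  ext1 i j
  rw [RingHom.mapMatrix_apply, Matrix.map_apply, Matrix.of_apply, Matrix.of_apply,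
    MvPolynomial.map_X]

theorem hankQ_toC (N : ℕ) {T : ℕ} (k : Fin T → ℕ) :
    (hankQ N k).toC = prodFam fun t => hankel N (k t) := by
  funext J
  change MvPolynomial.map (algebraMap ℚ ℂ) (∏ t, hankR ℚ N (k t) (J t)) = ∏ t, hankel N (k t) (J t)
  rw [map_prod]
  exact Finset.prod_congr rfl fun t _ => map_hankR _ _ _ _

theorem hankQ_ne (N : ℕ) {T : ℕ} (k : Fin T → ℕ) (hk : ∀ t, 2 * k t < N) :
    ∃ J, (hankQ N k).f J ≠ 0 := by
  choose j hj using fun t => hankel_ne N (k t) (hk t)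
  refine ⟨j, fun h => ?_⟩
  have h1 : (hankQ N k).toC j = 0 := by
    change MvPolynomial.map (algebraMap ℚ ℂ) ((hankQ N k).f j) = 0
    rw [h, map_zero]
  rw [hankQ_toC] at h1
  exact Finset.prod_ne_zero_iff.2 (fun t _ => hj t) h1

variable {q : ℕ} [Fact q.Prime]

theorem eval_hankR (N k : ℕ) (x : Fin N → ℤ_[q]) (J : HIdx N k) :
    MvPolynomial.eval x (hankR ℤ_[q] N k J) = ((Hk (ext x) k (N + 1 - k)).submatrix id
      (show Fin k ↪o Fin (N + 1 - k) from J)).det := by
  unfold hankR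
  rw [RingHom.map_det]
  congr 1
  ext1 i j
  rw [RingHom.mapMatrix_apply, Matrix.map_apply, Matrix.of_apply, MvPolynomial.eval_X]
  simp only [Hk, Matrix.submatrix_apply, Matrix.of_apply, id]
  rw [ext_lt]

theorem mn_hank (N k : ℕ) (x : Fin N → ℤ_[q]) :
    mn k (Hk (ext x) k (N + 1 - k)) = Finset.univ.sup fun J : HIdx N k =>
      ‖MvPolynomial.eval x (hankR ℤ_[q] N k J)‖₊ := by
  classical
  rw [mn_eq_sup]
  refine le_antisymm (Finset.sup_le fun rc _ => ?_) (Finset.sup_le fun J _ => ?_)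
  · have h1 : ((rc.1 : Fin k → Fin k)) = id := by
      have h2 := ((rc.1.strictMono).range_inj (strictMono_id (α := Fin k))).1 (by
        rw [(Finite.surjective_of_injective rc.1.injective).range_eq, Set.range_id])
      exact h2
    have h3 : ‖minorsOf (Hk (ext x) k (N + 1 - k)) k rc‖₊ =
        ‖MvPolynomial.eval x (hankR ℤ_[q] N k (show HIdx N k from rc.2))‖₊ := by
      rw [eval_hankR, minorsOf, h1]
    rw [h3]
    exact Finset.le_sup (f := fun J : HIdx N k => ‖MvPolynomial.eval x (hankR ℤ_[q] N k J)‖₊)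
      (Finset.mem_univ _)
  · have h3 : ‖MvPolynomial.eval x (hankR ℤ_[q] N k J)‖₊ =
        ‖minorsOf (Hk (ext x) k (N + 1 - k)) k
          (RelEmbedding.refl _, (show Fin k ↪o Fin (N + 1 - k) from J))‖₊ := by
      rw [eval_hankR, minorsOf]
      rfl
    rw [h3]
    exact Finset.le_sup (f := fun rc : (Fin k ↪o Fin k) × (Fin k ↪o Fin (N + 1 - k)) =>
      ‖minorsOf (Hk (ext x) k (N + 1 - k)) k rc‖₊) (Finset.mem_univ _)

theorem hidx_nonempty (N k : ℕ) (hk : 2 * k < N) : Nonempty (HIdx N k) :=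
  ⟨(Fin.castLEOrderEmb (by omega) : Fin k ↪o Fin (N + 1 - k))⟩

theorem sz_hankQ (N : ℕ) {T : ℕ} (k : Fin T → ℕ) (hk : ∀ t, 2 * k t < N)
    (x : Fin N → ℤ_[q]) : sz ((hankQ N k).toP q) x =
      ∏ t, ((mn (k t) (Hk (ext x) (k t) (N + 1 - k t)) : ℝ≥0) : ℝ) := by
  have h1 : (fun J : (t : Fin T) → HIdx N (k t) => MvPolynomial.eval (fun i => inc q (x i))
      ((hankQ N k).toP q J)) = fun J => ∏ t, (fun j => inc q (MvPolynomial.eval x
        (hankR ℤ_[q] N (k t) j))) (J t) := by
    funext J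
    change MvPolynomial.eval _ (MvPolynomial.map (algebraMap ℚ ℚ_[q])
      (∏ t, hankR ℚ N (k t) (J t))) = _
    rw [map_prod, map_prod]
    refine Finset.prod_congr rfl fun t _ => ?_
    rw [map_hankR, ← map_hankR (algebraMap ℤ_[q] ℚ_[q]), MvPolynomial.eval_map]
    beta_reduce
    have h2 := MvPolynomial.eval₂_comp_left (algebraMap ℤ_[q] ℚ_[q]) (RingHom.id ℤ_[q]) x
      (hankR ℤ_[q] N (k t) (J t))
    rw [RingHom.comp_id] at h2
    change _ = algebraMap ℤ_[q] ℚ_[q] _
    exact h2.symm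
  unfold sz
  rw [h1, Pool.Agent.R852.PP.norm_prodv (fun t (j : HIdx N (k t)) =>
    inc q (MvPolynomial.eval x (hankR ℤ_[q] N (k t) j)))]
  refine Finset.prod_congr rfl fun t _ => ?_
  have hne := hidx_nonempty N (k t) (hk t)
  rw [mn_hank]
  refine le_antisymm ?_ ?_
  · refine (pi_norm_le_iff_of_nonneg (NNReal.coe_nonneg _)).2 fun j => ?_
    have h3 := Finset.le_sup (f := fun j : HIdx N (k t) =>
      ‖MvPolynomial.eval x (hankR ℤ_[q] N (k t) j)‖₊) (Finset.mem_univ j)
    exact_mod_cast h3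
  · obtain ⟨j0, -, h0⟩ := Finset.exists_mem_eq_sup (Finset.univ : Finset (HIdx N (k t)))
      Finset.univ_nonempty (fun j => ‖MvPolynomial.eval x (hankR ℤ_[q] N (k t) j)‖₊)
    rw [h0]
    exact norm_le_pi_norm (fun j => inc q (MvPolynomial.eval x (hankR ℤ_[q] N (k t) j))) j0

theorem FF_hankQ (N : ℕ) {T : ℕ} (k : Fin T → ℕ) (hk : ∀ t, 2 * k t < N) (s : ℝ)
    (hs : 0 < s) : Pool.Agent.Y230.PS.FF ((hankQ N k).toP q) s =
      (((GG (HkS q N) k (fun _ : Fin T => 1) s).toReal : ℝ) : ℂ) := by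
  unfold Pool.Agent.Y230.PS.FF FZ GG Pool.Agent.TH192.PA.FF
  congr 2
  refine lintegral_congr fun (x : Fin N → ℤ_[q]) => ?_
  rw [sz_hankQ N k hk x, ← Real.finsetProd_rpow _ _ (fun t _ => NNReal.coe_nonneg _),
    ENNReal.ofReal_prod_of_nonneg (fun t _ => Real.rpow_nonneg (NNReal.coe_nonneg _) _)]
  refine Finset.prod_congr rfl fun t _ => ?_
  rw [Nat.cast_one, one_mul, ← ENNReal.ofReal_rpow_of_nonneg (NNReal.coe_nonneg _) hs.le,
    ENNReal.ofReal_coe_nnreal]
  rfl

/-- **The zeta functions of the products of the Hankel determinantal ideals.** -/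
theorem FR_hank (N : ℕ) {T : ℕ} (k : Fin T → ℕ) (hk : ∀ t, 2 * k t < N) :
    FR q (mR q (hankQ N k)) (Pool.Agent.Y230.PS.FF ((hankQ N k).toP q)) := by
  have hq0 : (q : ℂ) ≠ 0 := by exact_mod_cast (Fact.out : q.Prime).ne_zero
  set R := (N + 1) / 2 with hR
  obtain ⟨P, hP⟩ := tower_GG2 (T := T) (tower_hank (p := q) N N N 0 le_rfl (by omega)) R k
    (fun _ => 1) (fun d' hd' => Finset.sum_eq_zero fun t _ => by
      have := hk t
      rw [Nat.sub_eq_zero_of_le (by omega), Nat.mul_zero])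
  set M : ℕ → ℕ := fun d => ∑ t, 1 * (k t - d) with hM
  set D0 := Pool.Agent.TH192.PA.Dd q (fun d => N - 2 * d) M R 0 with hD0
  have hev : ∀ z : ℂ, (D0.map Complex.ofRealHom).eval z =
      ∏ e ∈ Finset.Ico 0 R, (1 - ((q : ℂ)⁻¹) ^ (N - 2 * e) * z ^ M e) := by
    intro z
    rw [hD0]
    unfold Pool.Agent.TH192.PA.Dd
    rw [Polynomial.map_prod, eval_prod]
    refine Finset.prod_congr rfl fun e _ => ?_
    simp
  have hc : ∀ (F : ℝ[X]) (s : ℝ), (F.map Complex.ofRealHom).eval ((tr' q s : ℝ) : ℂ) =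
      ((F.eval (tr' q s) : ℝ) : ℂ) := by
    intro F s
    rw [Polynomial.eval_map]
    exact (Polynomial.hom_eval₂ F (RingHom.id ℝ) Complex.ofRealHom (tr' q s)).symm ▸ rfl
  refine FR_of_pos _ (toP_ne _ (hankQ_ne N k hk)) _ (D0.map Complex.ofRealHom)
    (P.map Complex.ofRealHom) ?_ ?_ ?_
  · intro h
    have h1 := hev 0
    rw [h, eval_zero] at h1
    have h2 : ∏ e ∈ Finset.Ico 0 R, (1 - ((q : ℂ)⁻¹) ^ (N - 2 * e) * (0 : ℂ) ^ M e) ≠ 0 := by
      refine Finset.prod_ne_zero_iff.2 fun e he => ?_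
      have he' : e < R := (Finset.mem_Ico.1 he).2
      have hcd : 0 < N - 2 * e := by omega
      by_cases h0 : M e = 0
      · rw [h0, pow_zero, mul_one]
        intro h3
        have h4 : ((q : ℂ)⁻¹) ^ (N - 2 * e) = 1 := (sub_eq_zero.1 h3).symm
        have h5 := congrArg norm h4
        rw [norm_pow, norm_inv, Complex.norm_natCast, norm_one] at h5
        have h6 : ((q : ℝ)⁻¹) ^ (N - 2 * e) < 1 := pow_lt_one₀ (by positivity)
          (inv_lt_one_of_one_lt₀ (by exact_mod_cast (Fact.out : q.Prime).one_lt)) hcd.ne'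
        linarith
      · rw [zero_pow h0, mul_zero, sub_zero]
        exact one_ne_zero
    exact h2 h1.symm
  · intro T0 hT0
    by_cases hr : (D0.map Complex.ofRealHom).eval T0 = 0
    · rw [hev, Finset.prod_eq_zero_iff] at hr
      obtain ⟨e, he, h0⟩ := hr
      have he' : e < R := (Finset.mem_Ico.1 he).2
      have hcd : 0 < N - 2 * e := by omega
      have h1 : T0 ^ M e = (q : ℂ) ^ (N - 2 * e) := by
        have h2 := (sub_eq_zero.1 h0).symm
        rw [inv_pow, inv_mul_eq_iff_eq_mul₀ (pow_ne_zero _ hq0), mul_one] at h2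
        exact h2
      have hNe : 0 < M e := by
        rcases Nat.eq_zero_or_pos (M e) with h | h
        · exfalso
          rw [h, pow_zero] at h1
          have h5 := congrArg norm h1
          rw [norm_pow, Complex.norm_natCast, norm_one] at h5
          have h6 : 1 < (q : ℝ) ^ (N - 2 * e) :=
            one_lt_pow₀ (by exact_mod_cast (Fact.out : q.Prime).one_lt) hcd.ne'
          linarith
        · exact h
      have hrr := rr_of_pow T0 _ _ hNe h1
      have hforced : Forced (hankQ N k).toC ((rr q T0 : ℝ) : ℂ) := by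
        intro b hb
        rw [hankQ_toC] at hb
        have hl := isLocEq_one _ b hb
        have h7 := Pool.Agent.T6.H26.HankMix.ideal_rootsH N e k hk b 1 (by simp) hl 0
          (by simpa [hM] using hNe)
        rw [hrr]
        simp only [Nat.cast_zero, add_zero] at h7
        have h8 : M e = ∑ t, (k t - e) := by
          rw [hM]
          simp
        rw [h8]
        exact h7
      rw [mR_top hforced]
      exact le_top
    · rw [rootMultiplicity_eq_zero hr]
      simp
  · intro s hs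
    rw [FF_hankQ N k hk s hs, hc, hc, ← hP s hs]
    push_cast
    rfl

/-- the classes of the starting points -/
theorem hbase_main (c : Bool) (A : FamQ) (h : HBase c A) : ZR q c A := by
  cases h with
  | wbase c A h => exact wbase_main c A h
  | hank N T k hk => exact ⟨hankQ_ne N k hk, by simpa using FR_hank (q := q) N k hk⟩

end Pool.Agent.T6.H26
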