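import Pool.Agent.T6.H26.SPDefs
import Pool.Agent.T6.H26.HTDet

set_option autoImplicit false
set_option linter.unusedSectionVars false
set_option linter.unusedVariables false

/-! # Starting points for the Thom-Sebastiani closures: the zeta functions -/

namespace Pool.Agent.T6.H26

open MvPolynomial Pool.Agent.Y230.PS Pool.Agent.R779.HK Pool.Agent.R852.PP

variable {p : ℕ} [Fact p.Prime]

theorem wpbase_main (c : Bool) (A : FamQ) (h : WPBase c A) : ZR p c A := by
  cases h with
  | pts c A h => exact wbase_main c A (WBase.dts c A (DTS.pts c A h))
  | wgood A h => exact wbase_main false A (WBase.wgood A h)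

theorem hpbase_main (c : Bool) (A : FamQ) (h : HPBase c A) : ZR p c A := by
  cases h with
  | pts c A h => exact wbase_main c A (WBase.dts c A (DTS.pts c A h))
  | hank N T k hk => exact hbase_main false _ (HBase.hank N T k hk)

end Pool.Agent.T6.H26
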