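import Pool.Agent.T6.H26.FTRoot

set_option autoImplicit false
set_option linter.unusedSectionVars false
set_option linter.unusedVariables false

/-! # Functional equations of `f(x) + g(z)`: the expansion -/

namespace Pool.Agent.T6.H26

open MvPolynomial
open Pool.Agent.W574.SM (weyl)
open Pool.Agent.W574.RO (weyl_splits cof cof_mul)
open Pool.Agent.H628R4.TP (IsBFunction weylS)
open Pool.Agent.Y230.TH (kf W StA)

variable {σ τ : Type} (w : σ → ℤ)

/-- the weights of the variables `x`; the variables `z` have the weight zero -/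
def wex (w : σ → ℤ) : σ ⊕ τ → ℤ := Sum.elim w fun _ => 0

theorem wh_inl (u : MvPolynomial σ ℂ) (n : ℤ) (hu : IsWeightedHomogeneous w u n) :
    IsWeightedHomogeneous (wex (τ := τ) w) (rename Sum.inl u : MvPolynomial (σ ⊕ τ) ℂ) n := by
  classical
  rw [u.as_sum, map_sum]
  refine (weightedHomogeneousSubmodule ℂ (wex (τ := τ) w) n).sum_mem fun s hs => ?_
  rw [mem_weightedHomogeneousSubmodule, rename_monomial]
  refine isWeightedHomogeneous_monomial _ _ _ ?_
  have h1 := hu (mem_support_iff.1 hs)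
  rw [← h1]
  rw [Finsupp.weight_apply, Finsupp.weight_apply, Finsupp.sum_mapDomain_index]
  · rfl
  · intro i
    simp
  · intro i a b
    rw [add_smul]

theorem wh_inr (v : MvPolynomial τ ℂ) :
    IsWeightedHomogeneous (wex (τ := τ) w) (rename Sum.inr v : MvPolynomial (σ ⊕ τ) ℂ) 0 := by
  classical
  rw [v.as_sum, map_sum]
  refine (weightedHomogeneousSubmodule ℂ (wex (τ := τ) w) 0).sum_mem fun s hs => ?_
  rw [mem_weightedHomogeneousSubmodule, rename_monomial]
  refine isWeightedHomogeneous_monomial _ _ _ ?_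
  rw [Finsupp.weight_apply, Finsupp.sum_mapDomain_index]
  · refine Finset.sum_eq_zero fun i _ => ?_
    exact smul_zero _
  · intro i
    simp
  · intro i a b
    rw [add_smul]

theorem wh_pz (f : MvPolynomial σ ℂ) (d : ℤ) (hf : IsWeightedHomogeneous w f d) (k : ℤ) :
    IsWeightedHomogeneous w (pz f k) (d * k) := by
  unfold pz
  split_ifs with h
  · exact isWeightedHomogeneous_zero ℂ w _
  · refine (weightedHomogeneousSubmodule ℂ w _).smul_mem _ ?_
    rw [mem_weightedHomogeneousSubmodule]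
    have h1 := hf.pow k.toNat
    have h2 : k.toNat • d = d * k := by
      rw [nsmul_eq_mul, mul_comm]
      congr 1
      omega
    rwa [h2] at h1

/-- the component -/
theorem comp_mul (n e : ℤ) (u : MvPolynomial σ ℂ) (v : MvPolynomial τ ℂ)
    (hu : IsWeightedHomogeneous w u e) :
    weightedHomogeneousComponent (wex (τ := τ) w) n (rename Sum.inl u * rename Sum.inr v) =
      if e = n then rename Sum.inl u * rename Sum.inr v else 0 := by
  classical
  have h := (wh_inl (τ := τ) w u e hu).mul (wh_inr w v)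
  rw [add_zero] at h
  split_ifs with h1
  · subst h1
    exact h.weightedHomogeneousComponent_same
  · exact h.weightedHomogeneousComponent_ne n (Ne.symm h1)

theorem range_pick {M : Type} [AddCommMonoid M] (N : ℕ) (j : ℤ) (F : ℤ → M)
    (h0 : ∀ i : ℤ, i < 0 → F i = 0) (h1 : ∀ i : ℤ, (N : ℤ) < i → F i = 0) :
    ∑ k ∈ Finset.range (N + 1), (if (k : ℤ) = j then F k else 0) = F j := by
  classical
  by_cases hj : 0 ≤ j ∧ j ≤ N
  · rw [Finset.sum_eq_single j.toNat]
    · rw [if_pos (by omega)]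
      congr 1
      omega
    · intro k _ hk
      rw [if_neg (by omega)]
    · intro h
      exact absurd (Finset.mem_range.2 (by omega)) h
  · rw [Finset.sum_eq_zero]
    · symm
      by_cases h2 : j < 0
      · exact h0 j h2
      · exact h1 j (by omega)
    · intro k hk
      have := Finset.mem_range.1 hk
      rw [if_neg (by omega)]

/-- **The expansion of a functional equation of `f(x) + g(z)`**, `f` weighted homogeneous. -/
theorem expansion (f : MvPolynomial σ ℂ) (g : MvPolynomial τ ℂ) (d : ℤ) (hd : 0 < d)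
    (hf : IsWeightedHomogeneous w f d) (b' : Polynomial ℂ) (P : ℕ →₀ weylS (σ ⊕ τ))
    (hP : ∀ N : ℕ, b'.eval (N : ℂ) • pz (rename Sum.inl f + rename Sum.inr g) N =
      P.sum fun m Q => ((N : ℂ) ^ m) • (Q : Module.End ℂ (MvPolynomial (σ ⊕ τ) ℂ))
        (pz (rename Sum.inl f + rename Sum.inr g) ((N + 1 : ℕ) : ℤ))) :
    ∃ (K : Type) (_ : Fintype K) (A : K → weyl σ) (B : K → weyl τ) (δ : K → ℤ) (m : K → ℕ),
      ∀ k l : ℕ, b'.eval ((k + l : ℕ) : ℂ) • (rename Sum.inl (pz f k) * rename Sum.inr (pz g l) :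
        MvPolynomial (σ ⊕ τ) ℂ) = ∑ i, (((k + l : ℕ) : ℂ) ^ m i) •
          (rename Sum.inl ((A i).1 (pz f (k - δ i))) *
            rename Sum.inr ((B i).1 (pz g (l + 1 + δ i)))) := by
  classical
  choose M Q Q' hQ using fun m : ℕ => weyl_splits (σ := σ) (τ := τ) (P m).1 (P m).2
  choose M' R e hR he using fun (m : ℕ) (i : Fin (M m)) => weyl_homW w (Q m i).1 (Q m i).2
  refine ⟨Σ m : P.support, Σ i : Fin (M m), Fin (M' m i), inferInstance,
    fun k => if d ∣ e k.1 k.2.1 k.2.2 then R k.1 k.2.1 k.2.2 else 0, fun k => Q' k.1 k.2.1,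
    fun k => e k.1 k.2.1 k.2.2 / d, fun k => k.1, fun k l => ?_⟩
  set N := k + l with hN
  have h1 := congrArg (weightedHomogeneousComponent (wex (τ := τ) w) (d * k)) (hP N)
  rw [map_smul, pow_add_pz, map_sum] at h1
  have h2 : ∀ i : ℕ, weightedHomogeneousComponent (wex (τ := τ) w) (d * k)
      (rename Sum.inl (pz f i) * rename Sum.inr (pz g ((N : ℤ) - i)) :
        MvPolynomial (σ ⊕ τ) ℂ) = if (i : ℤ) = k then
          (fun i : ℤ => rename Sum.inl (pz f i) * rename Sum.inr (pz g ((N : ℤ) - i)) :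
            ℤ → MvPolynomial (σ ⊕ τ) ℂ) i else 0 := by
    intro i
    rw [comp_mul w _ _ _ _ (wh_pz w f d hf i)]
    have : (d * (i : ℤ) = d * (k : ℤ)) ↔ (i : ℤ) = k :=
      ⟨fun h => mul_left_cancel₀ hd.ne' h, fun h => by rw [h]⟩
    simp only [this]
  have h2' := range_pick N (k : ℤ) (fun i : ℤ => rename Sum.inl (pz f i) *
    rename Sum.inr (pz g ((N : ℤ) - i)) : ℤ → MvPolynomial (σ ⊕ τ) ℂ)
    (fun i hi => by simp only [pz_neg f i hi, map_zero, zero_mul])
    (fun i hi => by simp only [pz_neg g ((N : ℤ) - i) (by omega), map_zero, mul_zero])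
  rw [Finset.sum_congr rfl fun i _ => h2 i, h2'] at h1
  have h3 : (N : ℤ) - (k : ℤ) = (l : ℤ) := by omega
  beta_reduce at h1
  rw [h3] at h1
  rw [h1, Finsupp.sum, map_sum, Fintype.sum_sigma, ← Finset.sum_coe_sort P.support]
  refine Finset.sum_congr rfl fun m _ => ?_
  rw [map_smul, Fintype.sum_sigma]
  have h4 : (P (m : ℕ)).1 (pz (rename Sum.inl f + rename Sum.inr g) ((N + 1 : ℕ) : ℤ)) =
      ∑ i, ∑ j, ∑ k' ∈ Finset.range (N + 1 + 1), rename Sum.inl ((R m i j).1 (pz f k')) *
        rename Sum.inr ((Q' m i).1 (pz g (((N + 1 : ℕ) : ℤ) - k'))) := by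
    rw [pow_add_pz, map_sum]
    have h5 : ∀ k' : ℕ, (P (m : ℕ)).1 (rename Sum.inl (pz f k') *
        rename Sum.inr (pz g (((N + 1 : ℕ) : ℤ) - k'))) = ∑ i, ∑ j,
          rename Sum.inl ((R m i j).1 (pz f k')) *
            rename Sum.inr ((Q' m i).1 (pz g (((N + 1 : ℕ) : ℤ) - k'))) := by
      intro k'
      rw [hQ]
      refine Finset.sum_congr rfl fun i _ => ?_
      rw [hR m i, LinearMap.sum_apply, map_sum, Finset.sum_mul]
    rw [Finset.sum_congr rfl fun k' _ => h5 k', Finset.sum_comm]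
    exact Finset.sum_congr rfl fun i _ => Finset.sum_comm
  change (N : ℂ) ^ (m : ℕ) • weightedHomogeneousComponent (wex (τ := τ) w) (d * k)
    ((P (m : ℕ)).1 (pz (rename Sum.inl f + rename Sum.inr g) ((N + 1 : ℕ) : ℤ))) = _
  rw [h4, map_sum, Finset.smul_sum]
  refine Finset.sum_congr rfl fun i _ => ?_
  rw [map_sum, Finset.smul_sum]
  refine Finset.sum_congr rfl fun j _ => ?_
  rw [map_sum]
  congr 1
  dsimp only
  have h6 : ∀ k' : ℕ, weightedHomogeneousComponent (wex (τ := τ) w) (d * k)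
      (rename Sum.inl ((R m i j).1 (pz f k')) *
        rename Sum.inr ((Q' m i).1 (pz g (((N + 1 : ℕ) : ℤ) - k'))) : MvPolynomial (σ ⊕ τ) ℂ) =
      if d * (k' : ℤ) + e m i j = d * k then rename Sum.inl ((R m i j).1 (pz f k')) *
        rename Sum.inr ((Q' m i).1 (pz g (((N + 1 : ℕ) : ℤ) - k'))) else 0 := fun k' =>
    comp_mul w _ _ _ _ (he m i j _ _ (wh_pz w f d hf k'))
  rw [Finset.sum_congr rfl fun k' _ => h6 k']
  by_cases hde : d ∣ e m i j
  · rw [if_pos hde]
    obtain ⟨δ, hδ⟩ := hde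
    have h7 : e m i j / d = δ := by
      rw [hδ]
      exact Int.mul_ediv_cancel_left δ hd.ne'
    rw [h7]
    have h8 : ∀ k' : ℕ, (d * (k' : ℤ) + e m i j = d * k) ↔ (k' : ℤ) = k - δ := by
      intro k'
      rw [hδ, ← mul_add]
      constructor
      · intro h
        have := mul_left_cancel₀ hd.ne' h
        omega
      · intro h
        rw [h]
        ring
    simp only [h8]
    have h9 := range_pick (N + 1) (k - δ) (fun k' : ℤ =>
      (rename Sum.inl ((R m i j).1 (pz f k')) *
        rename Sum.inr ((Q' m i).1 (pz g (((N + 1 : ℕ) : ℤ) - k'))) : MvPolynomial (σ ⊕ τ) ℂ))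
      (fun i' hi' => by simp only [pz_neg f i' hi', map_zero, zero_mul])
      (fun i' hi' => by
        simp only [pz_neg g (((N + 1 : ℕ) : ℤ) - i') (by omega), map_zero, mul_zero])
    rw [h9]
    have h10 : ((N + 1 : ℕ) : ℤ) - ((k : ℤ) - δ) = (l : ℤ) + 1 + δ := by
      rw [hN]
      push_cast
      ring
    rw [h10]
  · rw [if_neg hde]
    rw [Finset.sum_eq_zero]
    · change _ = rename Sum.inl (0 : MvPolynomial σ ℂ) * _
      rw [map_zero, zero_mul]
    · intro k' _
      rw [if_neg]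
      intro h
      exact hde ⟨(k : ℤ) - k', by rw [mul_sub]; omega⟩

end Pool.Agent.T6.H26
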