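import Pool.Agent.T6.H26.ISSyz
import Pool.Agent.T6.H26.FTKey

set_option autoImplicit false
set_option linter.unusedSectionVars false
set_option linter.unusedVariables false

/-! # The roots of weighted homogeneous polynomials with an isolated critical point -/

namespace Pool.Agent.T6.H26

open MvPolynomial
open Pool.Agent.W574.SM (weyl)
open Pool.Agent.Y230.TH (kf W StA)

theorem span_to {E F : Type} [AddCommGroup E] [Module ℂ E] [AddCommGroup F] [Module ℂ F]
    (S : Set E) (T : Submodule ℂ F) (L : E →ₗ[ℂ] F) (h : ∀ x ∈ S, L x ∈ T) :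
    ∀ x ∈ Submodule.span ℂ S, L x ∈ T := fun x hx =>
  (Submodule.span_le (p := T.comap L)).2 h hx

theorem pd_smul {n : ℕ} (i : Fin n) (c : ℂ) (f : MvPolynomial (Fin n) ℂ) :
    pderiv i (c • f) = c • pderiv i f := Derivation.map_smul _ _ _

variable {n : ℕ} (g : MvPolynomial (Fin n) ℂ)

theorem pz_pderiv (i : Fin n) (m : ℤ) : pderiv i (pz g m) = pderiv i g * pz g (m - 1) := by
  by_cases h : m < 0
  · rw [pz_neg g m h, pz_neg g (m - 1) (by omega), map_zero, mul_zero]
  · obtain ⟨l, rfl⟩ : ∃ l : ℕ, m = l := ⟨m.toNat, by omega⟩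
    cases l with
    | zero =>
      rw [pz_nat, pz_neg g _ (by simp)]
      simp
    | succ l =>
      have h1 : (((l + 1 : ℕ) : ℤ) - 1) = (l : ℕ) := by push_cast; ring
      rw [h1, pz_nat, pz_nat, pd_smul, pderiv_pow, Nat.add_sub_cancel, Nat.factorial_succ,
        mul_smul_comm, mul_comm (pderiv i g), mul_assoc]
      have h2 : (((l + 1 : ℕ) : MvPolynomial (Fin n) ℂ)) = C (((l + 1 : ℕ) : ℂ)) := by simp
      rw [h2, ← smul_eq_C_mul, smul_smul]
      congr 1
      have h3 : (l.factorial : ℂ) ≠ 0 := by exact_mod_cast l.factorial_ne_zero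
      have h4 : ((l + 1 : ℕ) : ℂ) ≠ 0 := by exact_mod_cast Nat.succ_ne_zero l
      rw [Nat.cast_mul]
      field_simp

theorem pz_mul (m : ℤ) : (m : ℂ) • pz g m = g * pz g (m - 1) := by
  by_cases h : m < 0
  · rw [pz_neg g m h, pz_neg g (m - 1) (by omega), smul_zero, mul_zero]
  · obtain ⟨l, rfl⟩ : ∃ l : ℕ, m = l := ⟨m.toNat, by omega⟩
    cases l with
    | zero =>
      rw [pz_neg g (((0 : ℕ) : ℤ) - 1) (by simp)]
      simp
    | succ l =>
      have h1 : (((l + 1 : ℕ) : ℤ) - 1) = (l : ℕ) := by push_cast; ring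
      rw [h1, pz_nat, pz_nat, Nat.factorial_succ, mul_smul_comm, smul_smul, pow_succ' g l]
      congr 1
      have h3 : (l.factorial : ℂ) ≠ 0 := by exact_mod_cast l.factorial_ne_zero
      have h4 : ((l + 1 : ℕ) : ℂ) ≠ 0 := by exact_mod_cast Nat.succ_ne_zero l
      rw [Nat.cast_mul, Int.cast_natCast]
      field_simp

/-- `k! g ^ (k - j) / (k - j)!` -/
noncomputable def pk (j : ℤ) (k : ℕ) : MvPolynomial (Fin n) ℂ := (k.factorial : ℂ) • pz g (k - j)

theorem pk_pderiv (i : Fin n) (j : ℤ) (k : ℕ) :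
    pderiv i (pk g j k) = pderiv i g * pk g (j + 1) k := by
  unfold pk
  rw [pd_smul, pz_pderiv, mul_smul_comm]
  congr 3
  ring

theorem pk_mul (j : ℤ) (k : ℕ) :
    (k : ℂ) • pk g j k = g * pk g (j + 1) k + (j : ℂ) • pk g j k := by
  unfold pk
  have h1 := pz_mul g ((k : ℤ) - j)
  have h2 : (k : ℤ) - j - 1 = k - (j + 1) := by ring
  rw [h2] at h1
  rw [mul_smul_comm, ← h1, smul_comm (k : ℂ), smul_comm (j : ℂ), ← smul_add, ← add_smul]
  congr 2
  push_cast
  ring

theorem pk_zero (k : ℕ) : pk g 0 k = g ^ k := by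
  unfold pk
  rw [sub_zero, pz_nat, smul_smul, mul_inv_cancel₀ (by exact_mod_cast k.factorial_ne_zero),
    one_smul]

theorem pk_neg (e k : ℕ) : pk g (-(e : ℤ)) k = kf k e • g ^ (k + e) := by
  unfold pk kf
  have h1 : (k : ℤ) - -(e : ℤ) = ((k + e : ℕ) : ℤ) := by push_cast; ring
  rw [h1, pz_nat, smul_smul, div_eq_mul_inv]

theorem pk_gt (j : ℤ) (k : ℕ) (h : (k : ℤ) < j) : pk g j k = 0 := by
  unfold pk
  rw [pz_neg g _ (by omega), smul_zero]

theorem pk_self (k : ℕ) : pk g (k : ℤ) k = C (k.factorial : ℂ) := by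
  unfold pk
  have h1 : (k : ℤ) - k = ((0 : ℕ) : ℤ) := by simp
  rw [h1, pz_nat]
  simp [smul_eq_C_mul]

/-- the sequences `f(x) k! g ^ (k - j) / (k - j)!` -/
noncomputable def SS : Submodule ℂ (ℕ → MvPolynomial (Fin n) ℂ) :=
  Submodule.span ℂ {u | ∃ (f : MvPolynomial (Fin n) ℂ) (j : ℤ), u = fun k => f * pk g j k}

/-- the derivatives of these sequences -/
noncomputable def EE : Submodule ℂ (ℕ → MvPolynomial (Fin n) ℂ) :=
  Submodule.span ℂ {u | ∃ (i : Fin n) (f : MvPolynomial (Fin n) ℂ) (j : ℤ),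
    u = fun k => pderiv i (f * pk g j k)}

/-- the derivatives of these sequences, `j ≥ 0` -/
noncomputable def EN : Submodule ℂ (ℕ → MvPolynomial (Fin n) ℂ) :=
  Submodule.span ℂ {u | ∃ (i : Fin n) (f : MvPolynomial (Fin n) ℂ) (j : ℕ),
    u = fun k => pderiv i (f * pk g (j : ℤ) k)}

/-- an operator, term by term -/
noncomputable def tw (T : Module.End ℂ (MvPolynomial (Fin n) ℂ)) :
    (ℕ → MvPolynomial (Fin n) ℂ) →ₗ[ℂ] (ℕ → MvPolynomial (Fin n) ℂ) where
  toFun u k := T (u k)
  map_add' u v := by funext k; exact map_add T _ _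
  map_smul' c u := by funext k; exact map_smul T _ _

/-- the multiplication by `k` -/
noncomputable def kM : (ℕ → MvPolynomial (Fin n) ℂ) →ₗ[ℂ] (ℕ → MvPolynomial (Fin n) ℂ) where
  toFun u k := (k : ℂ) • u k
  map_add' u v := by funext k; exact smul_add _ _ _
  map_smul' c u := by funext k; exact smul_comm (k : ℂ) c (u k)

theorem SS_mul (f0 : MvPolynomial (Fin n) ℂ) : ∀ u ∈ SS g, tw (LinearMap.mulLeft ℂ f0) u ∈ SS g := by
  refine span_to _ _ _ ?_
  rintro _ ⟨f, j, rfl⟩
  refine Submodule.subset_span ⟨f0 * f, j, funext fun k => ?_⟩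
  change f0 * (f * pk g j k) = _
  rw [mul_assoc]

theorem SS_pd (i : Fin n) : ∀ u ∈ SS g, tw ((pderiv i : Derivation ℂ (MvPolynomial (Fin n) ℂ)
    (MvPolynomial (Fin n) ℂ)) : MvPolynomial (Fin n) ℂ →ₗ[ℂ] MvPolynomial (Fin n) ℂ) u ∈
      SS g := by
  refine span_to _ _ _ ?_
  rintro _ ⟨f, j, rfl⟩
  have h1 : (tw ((pderiv i : Derivation ℂ (MvPolynomial (Fin n) ℂ)
      (MvPolynomial (Fin n) ℂ)) : MvPolynomial (Fin n) ℂ →ₗ[ℂ] MvPolynomial (Fin n) ℂ)
        fun k => f * pk g j k) = (fun k => pderiv i f * pk g j k) +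
          fun k => (f * pderiv i g) * pk g (j + 1) k := by
    funext k
    change pderiv i (f * pk g j k) = pderiv i f * pk g j k + (f * pderiv i g) * pk g (j + 1) k
    rw [Derivation.leibniz, pk_pderiv, smul_eq_mul, smul_eq_mul]
    ring
  rw [h1]
  exact Submodule.add_mem _ (Submodule.subset_span ⟨_, _, rfl⟩)
    (Submodule.subset_span ⟨_, _, rfl⟩)

theorem SS_weyl (Q : Module.End ℂ (MvPolynomial (Fin n) ℂ)) (hQ : Q ∈ weyl (Fin n)) :
    ∀ u ∈ SS g, tw Q u ∈ SS g := by
  induction hQ using Algebra.adjoin_induction with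
  | mem R h =>
    rcases h with ⟨i, rfl⟩ | ⟨i, rfl⟩
    · exact SS_mul g _
    · exact SS_pd g i
  | algebraMap r =>
    intro u hu
    exact (SS g).smul_mem r hu
  | add R R' _ _ h h' =>
    intro u hu
    exact (SS g).add_mem (h u hu) (h' u hu)
  | mul R R' _ _ h h' =>
    intro u hu
    exact h _ (h' u hu)

theorem SS_EE (i : Fin n) (f0 : MvPolynomial (Fin n) ℂ) : ∀ u ∈ SS g,
    tw (((pderiv i : Derivation ℂ (MvPolynomial (Fin n) ℂ)
      (MvPolynomial (Fin n) ℂ)) : MvPolynomial (Fin n) ℂ →ₗ[ℂ] MvPolynomial (Fin n) ℂ) ∘ₗ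
        LinearMap.mulLeft ℂ f0) u ∈ EE g := by
  refine span_to _ _ _ ?_
  rintro _ ⟨f, j, rfl⟩
  refine Submodule.subset_span ⟨i, f0 * f, j, funext fun k => ?_⟩
  change pderiv i (f0 * (f * pk g j k)) = _
  rw [mul_assoc]

/-- **normal forms** -/
theorem normal (Q : Module.End ℂ (MvPolynomial (Fin n) ℂ)) (hQ : Q ∈ weyl (Fin n)) :
    ∀ f : MvPolynomial (Fin n) ℂ, ∃ h : MvPolynomial (Fin n) ℂ, ∀ u ∈ SS g,
      tw (LinearMap.mulLeft ℂ f) (tw Q u) - tw (LinearMap.mulLeft ℂ h) u ∈ EE g := by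
  induction hQ using Algebra.adjoin_induction with
  | mem R h =>
    rcases h with ⟨i, rfl⟩ | ⟨i, rfl⟩
    · intro f
      refine ⟨f * X i, fun u hu => ?_⟩
      have h1 : tw (LinearMap.mulLeft ℂ f) (tw (LinearMap.mulLeft ℂ (X i)) u) -
          tw (LinearMap.mulLeft ℂ (f * X i)) u = 0 := by
        funext k
        change f * (X i * u k) - f * X i * u k = 0
        ring
      rw [h1]
      exact (EE g).zero_mem
    · intro f
      refine ⟨-pderiv i f, fun u hu => ?_⟩
      refine (congrArg (· ∈ EE g) (funext fun k => ?_)).mp (SS_EE g i f u hu)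
      change pderiv i (f * u k) = f * pderiv i (u k) - (-pderiv i f) * u k
      rw [Derivation.leibniz, smul_eq_mul, smul_eq_mul]
      ring
  | algebraMap r =>
    intro f
    refine ⟨r • f, fun u hu => ?_⟩
    have h1 : tw (LinearMap.mulLeft ℂ f) (tw (algebraMap ℂ _ r) u) -
        tw (LinearMap.mulLeft ℂ (r • f)) u = 0 := by
      funext k
      change f * (r • u k) - (r • f) * u k = 0
      rw [mul_smul_comm, smul_mul_assoc, sub_self]
    rw [h1]
    exact (EE g).zero_mem
  | add R R' _ _ h h' =>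
    intro f
    obtain ⟨h1, h2⟩ := h f
    obtain ⟨h3, h4⟩ := h' f
    refine ⟨h1 + h3, fun u hu => ?_⟩
    refine (congrArg (· ∈ EE g) (funext fun k => ?_)).mp ((EE g).add_mem (h2 u hu) (h4 u hu))
    change (f * (R (u k)) - h1 * u k) + (f * (R' (u k)) - h3 * u k) =
      f * (R (u k) + R' (u k)) - (h1 + h3) * u k
    ring
  | mul R R' _ hR' h h' =>
    intro f
    obtain ⟨h1, h2⟩ := h f
    obtain ⟨h3, h4⟩ := h' h1
    refine ⟨h3, fun u hu => ?_⟩
    refine (congrArg (· ∈ EE g) (funext fun k => ?_)).mp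
      ((EE g).add_mem (h2 _ (SS_weyl g R' hR' u hu)) (h4 u hu))
    change (f * (R (R' (u k))) - h1 * R' (u k)) + (h1 * (R' (u k)) - h3 * u k) =
      f * (R (R' (u k))) - h3 * u k
    ring

theorem EE_k : ∀ u ∈ EE g, kM u ∈ EE g := by
  refine span_to _ _ _ ?_
  rintro _ ⟨i, f, j, rfl⟩
  have h1 : (kM fun k => pderiv i (f * pk g j k)) = (fun k => pderiv i ((f * g) *
      pk g (j + 1) k)) + (j : ℂ) • fun k => pderiv i (f * pk g j k) := by
    funext k
    change (k : ℂ) • pderiv i (f * pk g j k) = pderiv i ((f * g) * pk g (j + 1) k) +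
      (j : ℂ) • pderiv i (f * pk g j k)
    rw [← pd_smul, ← pd_smul, ← map_add, ← mul_smul_comm, pk_mul, ← mul_smul_comm, mul_add,
      mul_assoc]
  rw [h1]
  exact Submodule.add_mem _ (Submodule.subset_span ⟨_, _, _, rfl⟩)
    (Submodule.smul_mem _ _ (Submodule.subset_span ⟨_, _, _, rfl⟩))

theorem EN_k : ∀ u ∈ EN g, kM u ∈ EN g := by
  refine span_to _ _ _ ?_
  rintro _ ⟨i, f, j, rfl⟩
  have h1 : (kM fun k => pderiv i (f * pk g j k)) = (fun k => pderiv i ((f * g) *
      pk g ((j + 1 : ℕ) : ℤ) k)) + ((j : ℤ) : ℂ) • fun k => pderiv i (f * pk g j k) := by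
    funext k
    change (k : ℂ) • pderiv i (f * pk g j k) = pderiv i ((f * g) * pk g ((j + 1 : ℕ) : ℤ) k) +
      ((j : ℤ) : ℂ) • pderiv i (f * pk g j k)
    have h2 : ((j + 1 : ℕ) : ℤ) = (j : ℤ) + 1 := by push_cast; rfl
    rw [h2, ← pd_smul, ← pd_smul, ← map_add, ← mul_smul_comm, pk_mul, ← mul_smul_comm, mul_add,
      mul_assoc]
  rw [h1]
  exact Submodule.add_mem _ (Submodule.subset_span ⟨_, _, _, rfl⟩)
    (Submodule.smul_mem _ _ (Submodule.subset_span ⟨_, _, _, rfl⟩))

theorem EN_poly (r : Polynomial ℂ) : ∀ u ∈ EN g, (fun k : ℕ => r.eval (k : ℂ) • u k) ∈ EN g := by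
  induction r using Polynomial.induction_on' with
  | add p q hp hq =>
    intro u hu
    refine (congrArg (· ∈ EN g) (funext fun k => ?_)).mp ((EN g).add_mem (hp u hu) (hq u hu))
    rw [Polynomial.eval_add, add_smul]
    rfl
  | monomial m a =>
    intro u hu
    have h1 : ∀ m : ℕ, (fun k : ℕ => ((k : ℂ) ^ m) • u k) ∈ EN g := by
      intro m
      induction m with
      | zero =>
        refine (congrArg (· ∈ EN g) (funext fun k => ?_)).mp hu
        rw [pow_zero, one_smul]
      | succ m ih =>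
        refine (congrArg (· ∈ EN g) (funext fun k => ?_)).mp (EN_k g _ ih)
        change (k : ℂ) • ((k : ℂ) ^ m • u k) = _
        rw [smul_smul, pow_succ']
    refine (congrArg (· ∈ EN g) (funext fun k => ?_)).mp ((EN g).smul_mem a (h1 m))
    rw [Polynomial.eval_monomial]
    change a • ((k : ℂ) ^ m • u k) = _
    rw [smul_smul]

section weights

variable (w : Fin n → ℕ) (d : ℕ)

/-- the integral weights -/
def wz : Fin n → ℤ := fun i => (w i : ℤ)

theorem wh_toZ (f : MvPolynomial (Fin n) ℂ) (m : ℕ) (h : IsWeightedHomogeneous w f m) :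
    IsWeightedHomogeneous (wz w) f (m : ℤ) := by
  intro s hs
  rw [← h hs, Finsupp.weight_apply, Finsupp.weight_apply, Finsupp.sum, Finsupp.sum, Nat.cast_sum]
  refine Finset.sum_congr rfl fun i _ => ?_
  simp [wz]

theorem wz_nonneg (s : Fin n →₀ ℕ) : 0 ≤ Finsupp.weight (wz w) s := by
  rw [Finsupp.weight_apply, Finsupp.sum]
  refine Finset.sum_nonneg fun i _ => ?_
  simp only [wz]
  positivity

theorem pk_wh (hg : IsWeightedHomogeneous w g d) (j : ℤ) (k : ℕ) :
    IsWeightedHomogeneous (wz w) (pk g j k) ((d : ℤ) * (k - j)) := by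
  unfold pk
  exact (weightedHomogeneousSubmodule ℂ (wz w) _).smul_mem _
    (wh_pz (wz w) g d (wh_toZ w g d hg) _)

/-- the component of weight `d k` -/
noncomputable def Pc : (ℕ → MvPolynomial (Fin n) ℂ) →ₗ[ℂ] (ℕ → MvPolynomial (Fin n) ℂ) where
  toFun u k := weightedHomogeneousComponent (wz w) ((d : ℤ) * k) (u k)
  map_add' u v := by funext k; exact map_add _ _ _
  map_smul' c u := by funext k; exact LinearMap.map_smul _ c (u k)

theorem Pc_EE (hw : ∀ i, w i < d) (hg : IsWeightedHomogeneous w g d) : ∀ u ∈ EE g,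
    Pc w d u ∈ EN g := by
  classical
  refine span_to _ _ _ ?_
  rintro _ ⟨i, f, j, rfl⟩
  have h1 : (fun k => pderiv i (f * pk g j k)) = ∑ s ∈ f.support, fun k =>
      pderiv i (monomial s (coeff s f) * pk g j k) := by
    funext k
    rw [Finset.sum_apply]
    conv_lhs => rw [f.as_sum]
    rw [Finset.sum_mul, map_sum]
  rw [h1, map_sum]
  refine (EN g).sum_mem fun s _ => ?_
  set m := Finsupp.weight (wz w) s with hm
  have h2 : ∀ k : ℕ, IsWeightedHomogeneous (wz w) (pderiv i (monomial s (coeff s f) *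
      pk g j k)) (m + (d : ℤ) * (k - j) - w i) := by
    intro k
    have h3 := (isWeightedHomogeneous_monomial (wz w) s (coeff s f) (m := m) rfl).mul
      (pk_wh g w d hg j k)
    exact h3.pderiv (by simp only [wz]; ring)
  by_cases h3 : m + (d : ℤ) * (-j) - w i = 0
  · have h4 : Pc w d (fun k => pderiv i (monomial s (coeff s f) * pk g j k)) = fun k =>
        pderiv i (monomial s (coeff s f) * pk g j k) := by
      funext k
      change weightedHomogeneousComponent (wz w) ((d : ℤ) * k) _ = _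
      have h5 := h2 k
      have h6 : m + (d : ℤ) * (k - j) - w i = d * k := by linear_combination h3
      rw [h6] at h5
      exact h5.weightedHomogeneousComponent_same
    have h7 : 0 ≤ j := by
      have h8 := wz_nonneg w s
      rw [← hm] at h8
      have h9 := hw i
      by_contra hj
      have h10 : (d : ℤ) ≤ (d : ℤ) * (-j) := by
        have : (1 : ℤ) ≤ -j := by omega
        nlinarith [Int.natCast_nonneg d]
      omega
    obtain ⟨j', rfl⟩ : ∃ j' : ℕ, j = j' := ⟨j.toNat, by omega⟩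
    rw [h4]
    exact Submodule.subset_span ⟨_, _, _, rfl⟩
  · have h4 : Pc w d (fun k => pderiv i (monomial s (coeff s f) * pk g j k)) = 0 := by
      funext k
      change weightedHomogeneousComponent (wz w) ((d : ℤ) * k) _ = 0
      refine (h2 k).weightedHomogeneousComponent_ne _ fun h5 => h3 ?_
      linear_combination -h5
    rw [h4]
    exact (EN g).zero_mem

theorem EE_kpow (m : ℕ) : ∀ u ∈ EE g, (fun k : ℕ => ((k : ℂ) ^ m) • u k) ∈ EE g := by
  intro u hu
  induction m with
  | zero =>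
    refine (congrArg (· ∈ EE g) (funext fun k => ?_)).mp hu
    rw [pow_zero, one_smul]
  | succ m ih =>
    refine (congrArg (· ∈ EE g) (funext fun k => ?_)).mp (EE_k g _ ih)
    change (k : ℂ) • ((k : ℂ) ^ m • u k) = _
    rw [smul_smul, pow_succ']

theorem Pc_W (hd : 0 < d) (hw : ∀ i, w i < d) (hg : IsWeightedHomogeneous w g d) :
    ∀ u ∈ W g, Pc w d u ∈ EN g := by
  classical
  refine span_to _ _ _ ?_
  rintro _ ⟨j0, e, Q, he, rfl⟩
  obtain ⟨h, hh⟩ := normal g Q.1 Q.2 1
  set v : ℕ → MvPolynomial (Fin n) ℂ := fun k => 1 * pk g (-(e : ℤ)) k with hv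
  have hvS : v ∈ SS g := Submodule.subset_span ⟨1, _, rfl⟩
  have h1 := EE_kpow g j0 _ (hh v hvS)
  have h2 : (fun k : ℕ => ((k : ℂ) ^ j0 * kf k e) • (Q : Module.End ℂ (MvPolynomial (Fin n) ℂ))
      (g ^ (k + e))) = (fun k : ℕ => ((k : ℂ) ^ j0) • (tw (LinearMap.mulLeft ℂ 1) (tw Q.1 v) -
        tw (LinearMap.mulLeft ℂ h) v) k) + ∑ s ∈ h.support, fun k : ℕ => ((k : ℂ) ^ j0) •
          (monomial s (coeff s h) * pk g (-(e : ℤ)) k) := by
    funext k
    rw [Pi.add_apply, Finset.sum_apply, ← Finset.smul_sum, ← Finset.sum_mul, ← h.as_sum,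
      ← smul_add]
    change _ = ((k : ℂ) ^ j0) • ((1 * (Q.1 (1 * pk g (-(e : ℤ)) k)) -
      h * (1 * pk g (-(e : ℤ)) k)) + h * pk g (-(e : ℤ)) k)
    rw [one_mul, one_mul, sub_add_cancel, pk_neg, map_smul, smul_smul]
  rw [h2, map_add, map_sum]
  refine (EN g).add_mem (Pc_EE g w d hw hg _ h1) ((EN g).sum_mem fun s _ => ?_)
  have h3 : Pc w d (fun k : ℕ => ((k : ℂ) ^ j0) •
      (monomial s (coeff s h) * pk g (-(e : ℤ)) k)) = 0 := by
    funext k
    change weightedHomogeneousComponent (wz w) ((d : ℤ) * k) _ = 0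
    rw [map_smul]
    have h4 := (isWeightedHomogeneous_monomial (wz w) s (coeff s h) rfl).mul
      (pk_wh g w d hg (-(e : ℤ)) k)
    rw [h4.weightedHomogeneousComponent_ne, smul_zero]
    have h5 := wz_nonneg w s
    have h6 : (0 : ℤ) < d * e := by positivity
    intro h7
    have h8 : (d : ℤ) * ((k : ℤ) - -(e : ℤ)) = d * k + d * e := by ring
    rw [h8] at h7
    omega
  rw [h3]
  exact (EN g).zero_mem

end weights

/-- representation of the elements -/
theorem EN_rep : ∀ u ∈ EN g, ∃ (J : ℕ) (a : ℕ → Fin n → MvPolynomial (Fin n) ℂ),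
    (∀ j, J < j → a j = 0) ∧ ∀ k, u k = ∑ j ∈ Finset.range (k + 1), ∑ i,
      pderiv i (a j i * pk g (j : ℤ) k) := by
  classical
  intro u hu
  induction hu using Submodule.span_induction with
  | mem u h =>
    obtain ⟨i0, f, j0, rfl⟩ := h
    refine ⟨j0, fun j i => if j = j0 ∧ i = i0 then f else 0, fun j hj => ?_, fun k => ?_⟩
    · funext i
      beta_reduce
      rw [if_neg (fun h => by omega)]
      rfl
    · beta_reduce
      by_cases hk : j0 ≤ k
      · rw [Finset.sum_eq_single j0, Finset.sum_eq_single i0]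
        · rw [if_pos ⟨rfl, rfl⟩]
        · intro i _ hi
          rw [if_neg (fun h => hi h.2), zero_mul, map_zero]
        · intro h
          exact absurd (Finset.mem_univ _) h
        · intro j _ hj
          refine Finset.sum_eq_zero fun i _ => ?_
          rw [if_neg (fun h => hj h.1), zero_mul, map_zero]
        · intro h
          exact absurd (Finset.mem_range.2 (by omega)) h
      · rw [pk_gt g _ k (by omega), mul_zero, map_zero]
        symm
        refine Finset.sum_eq_zero fun j hj => Finset.sum_eq_zero fun i _ => ?_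
        have := Finset.mem_range.1 hj
        rw [if_neg (fun h => by omega), zero_mul, map_zero]
  | zero =>
    refine ⟨0, fun _ _ => 0, fun j _ => rfl, fun k => ?_⟩
    simp
  | add u v _ _ hu hv =>
    obtain ⟨J, a, h1, h2⟩ := hu
    obtain ⟨J', a', h1', h2'⟩ := hv
    refine ⟨max J J', fun j i => a j i + a' j i, fun j hj => ?_, fun k => ?_⟩
    · funext i
      beta_reduce
      rw [h1 j (lt_of_le_of_lt (le_max_left _ _) hj), h1' j (lt_of_le_of_lt (le_max_right _ _) hj)]
      simp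
    · rw [Pi.add_apply, h2, h2', ← Finset.sum_add_distrib]
      refine Finset.sum_congr rfl fun j _ => ?_
      rw [← Finset.sum_add_distrib]
      refine Finset.sum_congr rfl fun i _ => ?_
      rw [add_mul, map_add]
  | smul c u _ hu =>
    obtain ⟨J, a, h1, h2⟩ := hu
    refine ⟨J, fun j i => c • a j i, fun j hj => ?_, fun k => ?_⟩
    · funext i
      beta_reduce
      rw [h1 j hj]
      simp
    · rw [Pi.smul_apply, h2, Finset.smul_sum]
      refine Finset.sum_congr rfl fun j _ => ?_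
      rw [Finset.smul_sum]
      refine Finset.sum_congr rfl fun i _ => ?_
      rw [smul_mul_assoc, pd_smul]

theorem pk_indep (b : ℕ → MvPolynomial (Fin n) ℂ)
    (hb : ∀ k : ℕ, ∑ j ∈ Finset.range (k + 1), b j * pk g (j : ℤ) k = 0) (k : ℕ) : b k = 0 := by
  induction k using Nat.strong_induction_on with
  | _ k ih =>
    have h1 := hb k
    rw [Finset.sum_range_succ, Finset.sum_eq_zero, zero_add, pk_self] at h1
    · refine (mul_eq_zero.1 h1).resolve_right fun h0 => ?_
      have h2 := congrArg constantCoeff h0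
      rw [constantCoeff_C, map_zero] at h2
      exact k.factorial_ne_zero (by exact_mod_cast h2)
    · intro j hj
      rw [ih j (Finset.mem_range.1 hj), zero_mul]

/-- **A constant sequence of coefficients.** -/
theorem const_EN (N : ℕ) (hN : ∀ i, X i ^ N ∈ Ideal.span (Set.range fun j => pderiv j g))
    (hc : ∀ i, constantCoeff (pderiv i g) = 0) (c : ℂ)
    (h : (fun k : ℕ => c • g ^ k) ∈ EN g) : c = 0 := by
  classical
  obtain ⟨J, a, h1, h2⟩ := EN_rep g _ h
  set b : ℕ → MvPolynomial (Fin n) ℂ := fun j => match j with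
    | 0 => ∑ i, pderiv i (a 0 i) - C c
    | j + 1 => ∑ i, (pderiv i (a (j + 1) i) + pderiv i g * a j i) with hb
  have hb0 : b 0 = ∑ i, pderiv i (a 0 i) - C c := rfl
  have hbs : ∀ j, b (j + 1) = ∑ i, (pderiv i (a (j + 1) i) + pderiv i g * a j i) := fun j => rfl
  have h3 : ∀ k : ℕ, ∑ j ∈ Finset.range (k + 1), b j * pk g (j : ℤ) k = 0 := by
    intro k
    have h4 : ∑ j ∈ Finset.range (k + 1), (∑ i, pderiv i g * a j i) * pk g ((j + 1 : ℕ) : ℤ) k =
        ∑ j ∈ Finset.range k, (∑ i, pderiv i g * a j i) * pk g ((j + 1 : ℕ) : ℤ) k := by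
      rw [Finset.sum_range_succ, pk_gt g ((k + 1 : ℕ) : ℤ) k (by push_cast; omega), mul_zero,
        add_zero]
    have h5 : c • g ^ k = ∑ j ∈ Finset.range (k + 1), (∑ i, pderiv i (a j i)) * pk g (j : ℤ) k +
        ∑ j ∈ Finset.range (k + 1), (∑ i, pderiv i g * a j i) * pk g ((j + 1 : ℕ) : ℤ) k := by
      have h6 := h2 k
      beta_reduce at h6
      rw [h6, ← Finset.sum_add_distrib]
      refine Finset.sum_congr rfl fun j _ => ?_
      rw [Finset.sum_mul, Finset.sum_mul, ← Finset.sum_add_distrib]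
      refine Finset.sum_congr rfl fun i _ => ?_
      rw [Derivation.leibniz, pk_pderiv, smul_eq_mul, smul_eq_mul]
      push_cast
      ring
    rw [h4] at h5
    rw [Finset.sum_range_succ', hb0, Finset.sum_congr rfl fun j _ => by rw [hbs j]]
    rw [Finset.sum_range_succ'] at h5
    have h7 : pk g ((0 : ℕ) : ℤ) k = g ^ k := by rw [Nat.cast_zero, pk_zero]
    rw [h7] at h5 ⊢
    have h8 : ∀ j ∈ Finset.range k, (∑ i, (pderiv i (a (j + 1) i) + pderiv i g * a j i)) *
        pk g ((j + 1 : ℕ) : ℤ) k = (∑ i, pderiv i (a (j + 1) i)) * pk g ((j + 1 : ℕ) : ℤ) k +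
          (∑ i, pderiv i g * a j i) * pk g ((j + 1 : ℕ) : ℤ) k := by
      intro j _
      rw [Finset.sum_add_distrib, add_mul]
    rw [Finset.sum_congr rfl h8, Finset.sum_add_distrib, sub_mul, ← smul_eq_C_mul, h5]
    ring
  have h9 := noexact g N hN hc J a h1 (fun j => by rw [← hbs]; exact pk_indep g b h3 (j + 1))
  have h10 := pk_indep g b h3 0
  rw [hb0, sub_eq_zero] at h10
  rw [h10, constantCoeff_C] at h9
  exact h9

/-- **The root `-(∑ w_i) / d` of the reduced functional equation.** -/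
theorem RD (w : Fin n → ℕ) (d : ℕ) (hd : 0 < d) (hw : ∀ i, w i < d)
    (hg : IsWeightedHomogeneous w g d) (N : ℕ)
    (hN : ∀ i, X i ^ N ∈ Ideal.span (Set.range fun j => pderiv j g)) (q : Polynomial ℂ)
    (hq : (fun k : ℕ => q.eval (k : ℂ) • g ^ k) ∈ W g) :
    q.eval (-((∑ i, w i : ℕ) : ℂ) / d) = 0 := by
  classical
  have hd0 : (d : ℂ) ≠ 0 := by exact_mod_cast hd.ne'
  have hc : ∀ i, constantCoeff (pderiv i g) = 0 := by
    intro i
    have h1 := (wh_toZ w g d hg).pderiv (i := i) (n' := (d : ℤ) - w i) (by simp only [wz]; ring)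
    rw [constantCoeff_eq]
    by_contra h2
    have h3 := h1 h2
    rw [map_zero] at h3
    have h4 := hw i
    omega
  set α : ℂ := -((∑ i, w i : ℕ) : ℂ) / d with hα
  have h1 : (fun k : ℕ => q.eval (k : ℂ) • g ^ k) ∈ EN g := by
    have h2 := Pc_W g w d hd hw hg _ hq
    refine (congrArg (· ∈ EN g) (funext fun k => ?_)).mp h2
    change weightedHomogeneousComponent (wz w) ((d : ℤ) * k) (q.eval (k : ℂ) • g ^ k) = _
    have h3 := pk_wh g w d hg 0 k
    rw [pk_zero, sub_zero] at h3
    rw [map_smul, h3.weightedHomogeneousComponent_same]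
  have h2 : (fun k : ℕ => ((k : ℂ) - α) • g ^ k) ∈ EN g := by
    have h3 : (fun k : ℕ => ((k : ℂ) - α) • g ^ k) = ∑ i, ((w i : ℂ) / d) •
        fun k : ℕ => pderiv i (X i * pk g ((0 : ℕ) : ℤ) k) := by
      funext k
      rw [Finset.sum_apply]
      have h4 := hg.sum_weight_X_mul_pderiv
      have h5 := pk_mul g 0 k
      rw [Int.cast_zero, zero_smul, add_zero, zero_add] at h5
      have h6 : ∀ i, (((w i : ℂ) / d) • fun k : ℕ => pderiv i (X i * pk g ((0 : ℕ) : ℤ) k)) k =
          ((w i : ℂ) / d) • g ^ k + ((1 : ℂ) / d) • ((w i • (X i * pderiv i g)) * pk g 1 k) := by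
        intro i
        rw [Pi.smul_apply, Derivation.leibniz, pk_pderiv, pderiv_X_self, smul_eq_mul, smul_eq_mul,
          mul_one, Nat.cast_zero, zero_add, pk_zero, smul_add, add_comm]
        congr 1
        rw [nsmul_eq_mul, div_eq_mul_inv, one_div, mul_comm (w i : ℂ), mul_smul]
        congr 1
        rw [smul_eq_C_mul]
        simp only [map_natCast]
        ring
      rw [Finset.sum_congr rfl fun i _ => h6 i, Finset.sum_add_distrib, ← Finset.sum_smul,
        ← Finset.smul_sum, ← Finset.sum_mul, h4, ← Finset.sum_div, nsmul_eq_mul, mul_assoc, ← h5,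
        pk_zero]
      have h7 : ((d : ℕ) : MvPolynomial (Fin n) ℂ) = C (d : ℂ) := by simp
      rw [h7, ← smul_eq_C_mul, smul_smul, smul_smul, ← add_smul]
      congr 1
      rw [hα]
      push_cast
      field_simp
      ring
    rw [h3]
    exact Submodule.sum_mem _ fun i _ => Submodule.smul_mem _ _ (Submodule.subset_span
      ⟨_, _, _, rfl⟩)
  obtain ⟨r, hr⟩ : (Polynomial.X - Polynomial.C α) ∣ q - Polynomial.C (q.eval α) := by
    rw [Polynomial.dvd_iff_isRoot, Polynomial.IsRoot, Polynomial.eval_sub, Polynomial.eval_C,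
      sub_self]
  refine const_EN g N hN hc _ ?_
  refine (congrArg (· ∈ EN g) (funext fun k => ?_)).mp ((EN g).sub_mem h1 (EN_poly g r _ h2))
  have h3 := congrArg (fun P : Polynomial ℂ => P.eval (k : ℂ)) hr
  simp only [Polynomial.eval_sub, Polynomial.eval_C, Polynomial.eval_mul, Polynomial.eval_X] at h3
  rw [Pi.sub_apply, smul_smul, ← sub_smul]
  congr 1
  linear_combination h3

end Pool.Agent.T6.H26
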