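import Pool.Agent.T6.H26.DetBase
import Pool.Agent.R852.SP.Last

set_option autoImplicit false
set_option linter.unusedSectionVars false
set_option linter.unusedVariables false

/-! # Products of ideals of linear subspaces -/

namespace Pool.Agent.T6.H26

open MeasureTheory Polynomial Pool.Agent.Y230.PT Pool.Agent.Y230.PS Filter
open Pool.Agent.W574.SM Pool.Agent.W574.RO
open Pool.Agent.R852.SP
open Pool.Agent.TH187.SA (Occurs IsReesFlat zeros mult mem_zeros arrGen arr_roots_one codim_pos
  arrGen_ne)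
open Pool.Agent.W427.SMC (mu msZ bsZ tr' phi_eq tau tr'_pos)
open scoped NNReal ENNReal

attribute [local instance] msZ bsZ

variable {σ S : Type} [Fintype σ] [DecidableEq σ] [Fintype S] [DecidableEq S]
  {κ : S → Type} [∀ s, Fintype (κ s)] [∀ s, DecidableEq (κ s)]

theorem arrQ_toC (c : (s : S) → κ s → σ → ℚ) (e : S → ℕ) :
    (arrQ c e).toC = arrGen (cC c) e := by
  funext J
  change MvPolynomial.map (algebraMap ℚ ℂ) (arrM c e J) = _
  rw [map_arrM]
  rfl

theorem arrQ_ne (c : (s : S) → κ s → σ → ℚ) (hc : ∀ s, ∃ j, c s j ≠ 0) (e : S → ℕ) :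
    ∃ J, (arrQ c e).f J ≠ 0 := by
  obtain ⟨J, hJ⟩ := arrGen_ne (cC c) (cC_ne c hc) e
  refine ⟨J, fun h => hJ ?_⟩
  rw [← arrQ_toC]
  change MvPolynomial.map (algebraMap ℚ ℂ) ((arrQ c e).f J) = 0
  rw [h, map_zero]

variable {p : ℕ} [Fact p.Prime]

theorem FR_arrQ (c : (s : S) → κ s → σ → ℚ) (hc : ∀ s, ∃ j, c s j ≠ 0) (e : S → ℕ)
    (hR : ∀ X, IsIrrFlat (sub c) (fun s => e s ≠ 0) X →
      IsReesFlat (sub c) (fun s => e s ≠ 0) X) :
    FR p (mR p (arrQ c e)) (Pool.Agent.Y230.PS.FF ((arrQ c e).toP p)) := by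
  have hocc : Occurs (fun _ : Unit => e) (fun _ => 1) = fun s => e s ≠ 0 := by
    funext s
    apply propext
    constructor
    · rintro ⟨t, -, h⟩
      exact h
    · intro h
      exact ⟨(), one_ne_zero, h⟩
  have hNu : ∀ X, Nu c (fun _ : Unit => e) (fun _ => 1) X = mult (sub c) e X := by
    intro X
    unfold Nu
    simp
  have h1 := FR_arr (p := p) c hc (fun _ : Unit => e) (fun _ => 1)
  refine (h1.mono fun z hz => ?_).congr fun s hs => ?_
  · by_cases h0 : mO p c (fun _ : Unit => e) (fun _ => 1) z = 0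
    · rw [h0]
      simp
    · obtain ⟨X, hX, hX2⟩ := exists_res c (fun _ : Unit => e) (fun _ => 1) hc p z
        (Nat.one_le_iff_ne_zero.2 h0)
      rw [hocc] at hX
      rw [hNu] at hX2
      have hX3 := hR X hX
      have hpos : 0 < Fintype.card σ - Module.finrank ℂ X := codim_pos hX3
      obtain ⟨hN, hr⟩ := rr_res (p := p) hpos hX2
      have hf : Forced (arrQ c e).toC ((rr p z : ℝ) : ℂ) := by
        intro b hb
        rw [arrQ_toC] at hb
        have h5 := arr_roots_one (cC c) e b 1 (by simp) (isLocEq_one _ b hb) X hX3 0 hN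
        rw [hr]
        rw [Nat.cast_zero, add_zero] at h5
        exact h5
      rw [mR_top hf]
      exact le_top
  · unfold Pool.Agent.Y230.PS.FF
    congr 1
    funext x
    rw [map_one, norm_one, one_mul, Fintype.univ_ofSubsingleton, Finset.prod_singleton, pow_one]
    rfl

end Pool.Agent.T6.H26
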