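import Pool.Agent.T6.H26.LCRoot
import Pool.Agent.R779.HK.Minors
import Pool.Agent.T6.H26.HankMix
import Pool.Agent.Y230.TL.Fin
import Pool.Agent.R852.TP.Fin

set_option autoImplicit false
set_option linter.unusedSectionVars false
set_option linter.unusedVariables false

/-! # Germs of ideals at the origin: weighted cones and determinantal ideals, poles and roots -/

namespace Pool.Agent.T6.H26

open MvPolynomial Pool.Agent.W574.SM Pool.Agent.W574.RO Pool.Agent.Y229 Pool.Agent.W574.LM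
open Pool.Agent.W574.HS Pool.Agent.W574.CN
open Pool.Agent.TH192.DT Pool.Agent.R852.TL Pool.Agent.R779.HK Pool.Agent.T6.H26.HankMix
open Pool.Agent.Y230.RS (topZeta)
open Pool.Agent.Y228.AT (topZeta_pole)
open Pool.Agent.Y230.TL (Cl StJ StU StL)

section Cone

variable {n : ℕ} {ι : Type} [Fintype ι] [DecidableEq ι]

theorem exists_ne_of_det (w : Fin (n + 1) → ℕ) (hw : ∃ i, w i ≠ 0)
    (f : ι → MvPolynomial (Fin (n + 1)) ℂ) (e : Fin (n + 1) → ι)
    (he : (Matrix.of fun s t => pderiv s (if w t = 0 then X t else f (e t))).det ≠ 0) :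
    ∃ j, f j ≠ 0 := by
  by_contra h
  push Not at h
  obtain ⟨z, hz⟩ := hw
  refine he (Matrix.det_eq_zero_of_column_eq_zero z fun s => ?_)
  rw [Matrix.of_apply, if_neg hz, h, map_zero]

theorem sf_wroot (w : Fin (n + 1) → ℕ) (hw : ∃ i, w i ≠ 0)
    (f : ι → MvPolynomial (Fin (n + 1)) ℂ) (d : ℕ) (hd : 0 < d)
    (hf : ∀ j, (f j).IsWeightedHomogeneous w d) (e : Fin (n + 1) → ι)
    (he : (Matrix.of fun s t => pderiv s (if w t = 0 then X t else f (e t))).det ≠ 0) :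
    SF f 0 (-((∑ i, w i : ℕ) : ℂ) / d) :=
  sf_of_local f 0 _ (fun H b hb hH => wrootL w (by
    obtain ⟨z, hz⟩ := hw
    exact ⟨z, Nat.pos_of_ne_zero hz⟩) f d hd hf b H hb hH e he)
    (exists_fe f (exists_ne_of_det w hw f e he))

end Cone

/-- **Weighted cones: poles and forced roots.** -/
theorem wcone_cl (T : AddSubmonoid ℂ) (hT : (T : Set ℂ).Countable)
    (K : Fam → RatFunc ℂ → Prop) (hK : ∀ A Z, K A Z → Cl T false A Z) (A : Fam) (Z : RatFunc ℂ)
    (h : WCone K A Z) : Finite A.σ ∧ (∃ j, A.f j ≠ 0) ∧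
      ∀ s₀ : ℂ, Z.denom.eval s₀ = 0 → ∃ t ∈ T, FoL A (s₀ - t) := by
  classical
  obtain ⟨n, r, d, hd, w, hw, f, hf, e, he, m, κ, Z, χ, hκ, hχ, ht, h⟩ := h
  refine ⟨inferInstanceAs (Finite (Fin (n + 1))), exists_ne_of_det w hw f e he, fun s hs => ?_⟩
  by_cases hpole : s = -((∑ i, w i : ℕ) : ℂ) / d
  · refine ⟨0, T.zero_mem, ?_⟩
    rw [sub_zero, hpole]
    exact sf_wroot w hw f d hd hf e he
  -- some `Z q` with `χ q ≠ 0` has the pole `s`
  obtain ⟨q, hq, hqs⟩ : ∃ q, χ q ≠ 0 ∧ (Z q).denom.eval s = 0 := by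
    by_contra hcon
    push Not at hcon
    refine Reg_denom s _ ((Pool.Agent.W574.SM.Reg s).mul_mem
      ((Pool.Agent.W574.SM.Reg s).sum_mem fun q _ => ?_) (fac_mem d _ s fun h0 => hpole ?_)) hs
    · by_cases h0 : χ q = 0
      · rw [h0, Int.cast_zero, zero_mul]
        exact (Pool.Agent.W574.SM.Reg s).zero_mem
      · exact (Pool.Agent.W574.SM.Reg s).mul_mem (intCast_mem _ _)
          (mem_Reg_of_denom _ _ (hcon q h0))
    · have hd0 : (d : ℂ) ≠ 0 := Nat.cast_ne_zero.2 hd.ne'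
      rw [eq_div_iff hd0]
      linear_combination h0
  obtain ⟨a, ha, haq⟩ := hχ q hq
  -- the points of the orbit of `a`
  have horb : ∀ c : ℂ, c ≠ 0 → Adm w (fun i => c ^ w i * a i) := by
    intro c hc
    refine ⟨fun h0 => ha.1 ?_, fun i hi => by
      change c ^ w i * a i = 0
      rw [ha.2 i hi, mul_zero]⟩
    funext i
    have h1 := congrFun h0 i
    simp only [Pi.zero_apply] at h1
    exact (mul_eq_zero.1 h1).resolve_left (pow_ne_zero _ hc)
  have hex : ∀ c : ℂ, c ≠ 0 → ∃ t ∈ T, ∃ i, w i ≠ 0 ∧ c ^ w i * a i ≠ 0 ∧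
      SF (fun j => slc i (fun i => c ^ w i * a i) (f j)) 0 (s - t) := by
    intro c hc
    obtain ⟨i, hi, hai, hcl⟩ := h _ (horb c hc)
    rw [hκ a c hc ha, haq] at hcl
    obtain ⟨t, ht, h1⟩ := (hK _ _ hcl).pole s hqs
    exact ⟨t, ht, i, hi, hai, h1⟩
  -- some `t` occurs infinitely often
  obtain ⟨t, ht, hinf⟩ : ∃ t ∈ T, {c : ℂ | c ≠ 0 ∧ ∃ i, w i ≠ 0 ∧ c ^ w i * a i ≠ 0 ∧
      SF (fun j => slc i (fun i => c ^ w i * a i) (f j)) 0 (s - t)}.Infinite := by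
    by_contra hcon
    push Not at hcon
    have h1 : ({0}ᶜ : Set ℂ) ⊆ ⋃ t ∈ (T : Set ℂ), {c : ℂ | c ≠ 0 ∧ ∃ i, w i ≠ 0 ∧
        c ^ w i * a i ≠ 0 ∧
        SF (fun j => slc i (fun i => c ^ w i * a i) (f j)) 0 (s - t)} := by
      intro c hc
      obtain ⟨t, ht, h2⟩ := hex c hc
      exact Set.mem_biUnion ht ⟨hc, h2⟩
    have h2 : (⋃ t ∈ (T : Set ℂ), {c : ℂ | c ≠ 0 ∧ ∃ i, w i ≠ 0 ∧
        c ^ w i * a i ≠ 0 ∧
        SF (fun j => slc i (fun i => c ^ w i * a i) (f j)) 0 (s - t)}).Countable := by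
      refine hT.biUnion fun t ht => ?_
      exact (hcon t ht).countable
    have h3 : (Set.univ : Set ℂ).Countable := by
      have h4 : ({0} ∪ {0}ᶜ : Set ℂ).Countable := (Set.countable_singleton 0).union (h2.mono h1)
      rwa [Set.union_compl_self] at h4
    exact not_countable_complex h3
  refine ⟨t, ht, ?_⟩
  refine sf_orbit a (fun i hi => ha.2 i hi) _ hinf f (s - t) fun c hc B hB => ?_
  obtain ⟨hc0, i, hi, hai, h1⟩ := hc
  exact sf_slice i hi (fun i => c ^ w i * a i) hai f d hf (s - t) h1 B hB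

/-- **The induction.** -/
theorem tw_closure (hJ : StJ) (hU : StU) (hL : StL) (T : AddSubmonoid ℂ)
    (hTc : (T : Set ℂ).Countable)
    (hT : ∀ t ∈ T, ∀ k : ℕ, k ≠ 0 → ∃ j < k, ∃ t' ∈ T, t + j = k * t')
    (At HAt : Fam → RatFunc ℂ → Prop)
    (hAt : ∀ A Z, At A Z → Finite A.σ ∧ (∃ j, A.f j ≠ 0) ∧
      ∀ s₀ : ℂ, Z.denom.eval s₀ = 0 → ∃ t ∈ T, FoL A (s₀ - t))
    (hHAt : ∀ A Z, HAt A Z → Cl T true A Z) (k : ℕ) :
    ∀ (c : Bool) (A : Fam) (Z : RatFunc ℂ), TW At HAt k c A Z → Cl T c A Z := by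
  induction k with
  | zero => exact fun c A Z h => tq_closure hJ hU hL T hT At HAt hAt hHAt c A Z h
  | succ k ih =>
    intro c A Z h
    refine tq_closure hJ hU hL T hT _ _ (fun A Z h => ?_) (fun A Z h => ih true A Z h) c A Z h
    rcases h with h | h
    · have h1 := ih false A Z h
      exact ⟨h1.fin, h1.ne, h1.pole⟩
    · exact wcone_cl T hTc _ (fun A Z h => ih false A Z h) A Z h

/-! ### The atoms -/

theorem prodFam_ne {κ T : Type} [Fintype T] {J : T → Type} (g : (t : T) → J t → MvPolynomial κ ℂ)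
    (h : ∀ t, ∃ j, g t j ≠ 0) : ∃ J, prodFam g J ≠ 0 := by
  classical
  choose j hj using h
  exact ⟨j, Finset.prod_ne_zero_iff.2 fun t _ => hj t⟩

theorem pole_frac (a k : ℕ) (ha : 0 < a) (s : ℂ) (h : ((k + 1 : ℕ) : ℂ) + a * s = 0) :
    s = -((k + 1 : ℕ) : ℂ) / a := by
  have ha0 : (a : ℂ) ≠ 0 := Nat.cast_ne_zero.2 ha.ne'
  rw [eq_div_iff ha0]
  linear_combination h

theorem strongL_poles (A : Fam) (Z : RatFunc ℂ) (h : StrongL A Z) :
    Finite A.σ ∧ (∃ j, A.f j ≠ 0) ∧ ∀ s₀ : ℂ, Z.denom.eval s₀ = 0 → FoL A s₀ := by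
  classical
  cases h with
  | loc _ _ hfin h => exact ⟨hfin, strongLocal_poles A Z h⟩
  | rees σ T J κ g hg a k m χ h =>
    have hne : ∃ j, prodFam (fun q : Σ t, Fin (a t) => g q.1) j ≠ 0 :=
      prodFam_ne _ fun q => hg q.1
    refine ⟨inferInstanceAs (Finite σ), hne, fun s hs => ?_⟩
    obtain ⟨S, hS, i, hi, hai, h0⟩ := topZeta_pole _ _ χ s hs
    rw [pole_frac _ _ hai s h0]
    refine sf_of_local _ 0 _ (fun H b hb hH => ?_) (exists_fe _ hne)
    rw [MvPolynomial.eval_zero] at hH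
    exact Pool.Agent.Y228.RR.root_of_from a g b H hb _ _ hai (h i hai ⟨S, hS, hi⟩ H hH)
  | arr σ S I κ c hc e G hG χ =>
    refine ⟨inferInstanceAs (Finite σ), Pool.Agent.TH187.SA.arrGen_ne c hc e, fun s hs => ?_⟩
    obtain ⟨S', hS, i, hi, hai, h0⟩ := topZeta_pole _ _ χ s hs
    rw [pole_frac _ _ hai s h0]
    refine sf_of_local _ 0 _ (fun H b hb hH => ?_)
      (exists_fe _ (Pool.Agent.TH187.SA.arrGen_ne c hc e))
    rw [MvPolynomial.eval_zero] at hH
    have h1 := Pool.Agent.TH187.SA.arr_roots_one c e b H hH hb (G i) (hG i) 0 hai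
    rw [Nat.cast_zero, add_zero] at h1
    rw [Nat.sub_add_cancel (Pool.Agent.TH187.SA.codim_pos (hG i))]
    exact h1

theorem det_poles_aux (S : MSpace) (T : ℕ) (p : Fin T → ℕ) (hp : ∀ t, S.Small (p t))
    (χ : Finset (Fin S.rk) → ℤ) : (∃ j, S.prods p j ≠ 0) ∧
    ∀ s : ℂ, (topZeta (fun d : Fin S.rk => ∑ t, (p t - (d : ℕ)))
      (fun d => S.codim d - 1) χ).denom.eval s = 0 → SF (S.prods p) 0 s := by
  classical
  have hne : ∃ j, S.prods p j ≠ 0 := prodFam_ne _ fun t => S.minors_ne (p t) (hp t)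
  refine ⟨hne, fun s hs => ?_⟩
  obtain ⟨S', hS, i, hi, hai, h0⟩ := topZeta_pole _ _ χ s hs
  rw [pole_frac _ _ hai s h0]
  refine sf_of_local _ 0 _ (fun H b hb hH => ?_) (exists_fe _ hne)
  rw [MvPolynomial.eval_zero] at hH
  have h1 := S.ideal_roots T p hp b H hH hb i 0 hai
  rw [Nat.cast_zero, add_zero] at h1
  rw [Nat.sub_add_cancel (S.codim_pos i)]
  exact h1

theorem pfC_eq {R : Type*} [CommRing R] : ∀ (n : ℕ) (A : Matrix (Fin n) (Fin n) R),
    pfC n A = Pool.Agent.Helper929.pf n A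
  | 0, _ => by rw [pfC, Pool.Agent.Helper929.pf]
  | 1, _ => by rw [pfC, Pool.Agent.Helper929.pf]
  | (n + 2), A => by
    rw [pfC, Pool.Agent.Helper929.pf]
    exact Finset.sum_congr rfl fun j _ => by rw [pfC_eq n]

theorem detL_poles (A : Fam) (Z : RatFunc ℂ) (h : DetL A Z) :
    Finite A.σ ∧ (∃ j, A.f j ≠ 0) ∧ ∀ s₀ : ℂ, Z.denom.eval s₀ = 0 → FoL A s₀ := by
  classical
  cases h with
  | gen m n T p hp χ =>
    have h1 := det_poles_aux (MSpace.gen m n) T p hp χ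
    exact ⟨inferInstanceAs (Finite (Fin m × Fin n)), h1.1, h1.2⟩
  | sym n T p hp χ =>
    have h1 := det_poles_aux (MSpace.sym n) T p hp χ
    exact ⟨inferInstanceAs (Finite (Sym2 (Fin n))), h1.1, h1.2⟩
  | skew n T p hp χ =>
    have h1 := det_poles_aux (MSpace.skew n) T p hp χ
    have h2 : (fun J : (t : Fin T) → (Fin (2 * p t) ↪o Fin n) =>
        ∏ t, pfC (2 * p t) ((skewM n).submatrix (J t) (J t))) = (MSpace.skew n).prods p := by
      funext J
      exact Finset.prod_congr rfl fun t _ => pfC_eq _ _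
    refine ⟨inferInstanceAs (Finite {q : Fin n × Fin n // q.1 < q.2}), ?_, ?_⟩
    · change ∃ j, (fun J : (t : Fin T) → (Fin (2 * p t) ↪o Fin n) =>
        ∏ t, pfC (2 * p t) ((skewM n).submatrix (J t) (J t))) j ≠ 0
      rw [h2]
      exact h1.1
    · intro s hs
      change SF (fun J : (t : Fin T) → (Fin (2 * p t) ↪o Fin n) =>
        ∏ t, pfC (2 * p t) ((skewM n).submatrix (J t) (J t))) 0 s
      rw [h2]
      exact h1.2 s hs
  | hankel N T p hp χ =>
    have hne : ∃ j, prodFam (fun t => Pool.Agent.R779.HK.hankel N (p t)) j ≠ 0 :=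
      prodFam_ne _ fun t => hankel_ne N (p t) (hp t)
    refine ⟨inferInstanceAs (Finite (Fin N)), hne, fun s hs => ?_⟩
    obtain ⟨S', hS, i, hi, hai, h0⟩ := topZeta_pole _ _ χ s hs
    rw [pole_frac _ _ hai s h0]
    change SF (prodFam (fun t => Pool.Agent.R779.HK.hankel N (p t))) 0 _
    refine sf_of_local _ 0 _ (fun H b hb hH => ?_) (exists_fe _ hne)
    rw [MvPolynomial.eval_zero] at hH
    have h1 := ideal_rootsH N i p hp b H hH hb 0 hai
    rw [Nat.cast_zero, add_zero] at h1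
    rw [Nat.sub_add_cancel (by have := i.2; omega)]
    exact h1

theorem strongD_at (T : AddSubmonoid ℂ) (A : Fam) (Z : RatFunc ℂ) (h : StrongD A Z) :
    Finite A.σ ∧ (∃ j, A.f j ≠ 0) ∧
      ∀ s₀ : ℂ, Z.denom.eval s₀ = 0 → ∃ t ∈ T, FoL A (s₀ - t) := by
  have h1 : Finite A.σ ∧ (∃ j, A.f j ≠ 0) ∧ ∀ s₀ : ℂ, Z.denom.eval s₀ = 0 → FoL A s₀ := by
    cases h with
    | lib h => exact strongL_poles A Z h
    | det h => exact detL_poles A Z h
  exact ⟨h1.1, h1.2.1, fun s hs => ⟨0, T.zero_mem, by rw [sub_zero]; exact h1.2.2 s hs⟩⟩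

theorem weakD_at (A : Fam) (Z : RatFunc ℂ) (h : WeakD A Z) :
    Finite A.σ ∧ (∃ j, A.f j ≠ 0) ∧
      ∀ s₀ : ℂ, Z.denom.eval s₀ = 0 → ∃ t ∈ natC, FoL A (s₀ - t) := by
  cases h with
  | lib h =>
    cases h with
    | strong h => exact strongD_at natC A Z (StrongD.lib A Z h)
    | weak hfin h => exact Pool.Agent.Y230.TL.fi_weak A Z ⟨hfin, h⟩
  | det h => exact strongD_at natC A Z (StrongD.det A Z h)

theorem natC_countable : (natC : Set ℂ).Countable := by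
  have h : (natC : Set ℂ) ⊆ Set.range (fun n : ℕ => (n : ℂ)) := by
    intro t ht
    obtain ⟨n, hn⟩ := (mem_natC t).1 ht
    exact ⟨n, hn⟩
  exact (Set.countable_range _).mono h

theorem bot_countable : ((⊥ : AddSubmonoid ℂ) : Set ℂ).Countable := by
  rw [AddSubmonoid.coe_bot]
  exact Set.countable_singleton 0

/-! ### The final statements -/

open Pool.Agent.Y230.TL (StrongHyp WeakHyp strongHyp_cl weakHyp_cl root_of_sf)
open Pool.Agent.H628R4.TP (IsLocalBFunction)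

theorem tw_strong_cl (hJ : StJ) (hU : StU) (hL : StL) (k : ℕ) (c : Bool) (A : Fam)
    (Z : RatFunc ℂ) (h : TW StrongD StrongHyp k c A Z) : Cl ⊥ c A Z :=
  tw_closure hJ hU hL ⊥ bot_countable Pool.Agent.R852.TP.bot_div StrongD StrongHyp
    (fun A Z h => strongD_at ⊥ A Z h) (strongHyp_cl hL) k c A Z h

theorem tw_weak_cl (hJ : StJ) (hU : StU) (hL : StL) (k : ℕ) (c : Bool) (A : Fam)
    (Z : RatFunc ℂ) (h : TW WeakD WeakHyp k c A Z) : Cl natC c A Z :=
  tw_closure hJ hU hL natC natC_countable Pool.Agent.R852.TP.nat_div WeakD WeakHyp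
    weakD_at (weakHyp_cl hL) k c A Z h

/-- **The strong conjecture at the origin for the ideals in the class.** -/
theorem tw_strong_ideal (hJ : StJ) (hU : StU) (hL : StL) (k : ℕ) (c : Bool) (A : Fam)
    (Z : RatFunc ℂ) (h : TW StrongD StrongHyp k c A Z) (b : Polynomial ℂ)
    (hb : IsLocalBI A.f b) (s₀ : ℂ) (hs : Z.denom.eval s₀ = 0) : b.eval s₀ = 0 := by
  classical
  have hC := tw_strong_cl hJ hU hL k c A Z h
  obtain ⟨t, ht, h1⟩ := hC.pole s₀ hs
  rw [AddSubmonoid.mem_bot] at ht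
  rw [ht, sub_zero] at h1
  have := hC.fin
  exact h1.localBI b hb

/-- **The strong conjecture at the origin for the hypersurfaces in the class.** -/
theorem tw_strong (hJ : StJ) (hU : StU) (hL : StL) (k : ℕ) (c : Bool) {σ : Type}
    (F : MvPolynomial σ ℂ) (Z : RatFunc ℂ)
    (h : TW StrongD StrongHyp k c ⟨σ, Fin 1, fun _ => F⟩ Z) (b : Polynomial ℂ)
    (hb : IsLocalBFunction F b) (s₀ : ℂ) (hs : Z.denom.eval s₀ = 0) : b.eval s₀ = 0 := by
  have hC := tw_strong_cl hJ hU hL k c _ Z h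
  obtain ⟨t, ht, h1⟩ := hC.pole s₀ hs
  rw [AddSubmonoid.mem_bot] at ht
  rw [ht, sub_zero] at h1
  obtain ⟨j, hj⟩ := hC.ne
  exact root_of_sf hC.fin F hj s₀ h1 b hb

/-- **The weak conjecture at the origin for the hypersurfaces in the class.** -/
theorem tw_weak (hJ : StJ) (hU : StU) (hL : StL) (k : ℕ) (c : Bool) {σ : Type}
    (F : MvPolynomial σ ℂ) (Z : RatFunc ℂ)
    (h : TW WeakD WeakHyp k c ⟨σ, Fin 1, fun _ => F⟩ Z) (b : Polynomial ℂ)
    (hb : IsLocalBFunction F b) (s₀ : ℂ) (hs : Z.denom.eval s₀ = 0) :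
    ∃ i : ℕ, b.eval (s₀ - i) = 0 := by
  have hC := tw_weak_cl hJ hU hL k c _ Z h
  obtain ⟨t, ht, h1⟩ := hC.pole s₀ hs
  obtain ⟨i, rfl⟩ := (mem_natC _).1 ht
  obtain ⟨j, hj⟩ := hC.ne
  exact ⟨i, root_of_sf hC.fin F hj _ h1 b hb⟩

/-- If all weights are `0` or `1`, then all germs are tame. -/
theorem tame_of_le_one {n r : ℕ} (w : Fin (n + 1) → ℕ) (hw : ∀ i, w i ≤ 1)
    (f : Fin r → MvPolynomial (Fin (n + 1)) ℂ) (a : Fin (n + 1) → ℂ) (ha : Adm w a) :
    Tame w f a := by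
  classical
  obtain ⟨ha0, ha1⟩ := ha
  obtain ⟨i, hi⟩ : ∃ i, a i ≠ 0 := by
    by_contra hcon
    push Not at hcon
    exact ha0 (funext hcon)
  have hwi : w i ≠ 0 := fun h => hi (ha1 i h)
  have hwi1 : w i = 1 := by have := hw i; omega
  refine Or.inr ⟨i, hwi, hi, fun _ => 0, fun g hg t => ?_, fun j => ⟨0, ?_⟩⟩
  · have h1 : g = 1 := by
      have := hg i hi
      rw [hwi1] at this
      exact Nat.dvd_one.1 this
    rw [h1]
    exact Nat.modEq_one
  · intro k _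
    simp [Finsupp.weight_apply, Finsupp.sum]

end Pool.Agent.T6.H26
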