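import Pool.Agent.T6.H26.FTPow
import Pool.Agent.R852.PP.Main

set_option autoImplicit false
set_option linter.unusedSectionVars false
set_option linter.unusedVariables false

/-! # Roots of the functional equations of sums, products and powers -/

namespace Pool.Agent.T6.H26

open MvPolynomial
open Pool.Agent.Y230.PT Pool.Agent.Y230.PS Pool.Agent.Y230.TH Pool.Agent.R852.PP
open Pool.Agent.W574.SM (weyl IsFunctionalEq)
open Pool.Agent.W574.RO Pool.Agent.W574.CN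
open Pool.Agent.W574.HS (minus_one)
open Pool.Agent.H628R4.TP (IsBFunction weylS)

section wh

variable {R : Type} [CommSemiring R] {σ τ : Type}

theorem wh_rename (f : σ → τ) (W : τ → ℤ) (g : MvPolynomial σ R) (d : ℤ)
    (h : IsWeightedHomogeneous (fun i => W (f i)) g d) : IsWeightedHomogeneous W (rename f g) d := by
  classical
  intro e he
  obtain ⟨u, hu, hc⟩ := coeff_rename_ne_zero f g e he
  have h1 := h hc
  rw [← hu, ← h1, Finsupp.weight_apply, Finsupp.weight_apply, Finsupp.sum_mapDomain_index]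
  · intro i
    rw [zero_smul]
  · intro i a b
    rw [add_smul]

theorem wh_scale (w : σ → ℤ) (g : MvPolynomial σ R) (d c : ℤ) (h : IsWeightedHomogeneous w g d) :
    IsWeightedHomogeneous (fun i => c * w i) g (c * d) := by
  intro e he
  rw [← h he, Finsupp.weight_apply, Finsupp.weight_apply, Finsupp.sum, Finsupp.sum,
    Finset.mul_sum]
  refine Finset.sum_congr rfl fun i _ => ?_
  simp only [nsmul_eq_mul]
  ring

theorem wh_map {S : Type} [CommSemiring S] (φ : R →+* S) (w : σ → ℤ) (g : MvPolynomial σ R) (d : ℤ)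
    (h : IsWeightedHomogeneous w g d) : IsWeightedHomogeneous w (map φ g) d := by
  intro e he
  rw [coeff_map] at he
  exact h fun h0 => he (by rw [h0, map_zero])

theorem wh_zero_weight (g : MvPolynomial σ R) : IsWeightedHomogeneous (fun _ => (0 : ℤ)) g 0 := by
  intro e he
  rw [Finsupp.weight_apply, Finsupp.sum]
  simp

end wh

/-- weighted homogeneous of positive degree, for integral weights -/
def WH {σ : Type} (g : MvPolynomial σ ℚ) : Prop :=
  g ≠ 0 ∧ ∃ (w : σ → ℤ) (d : ℤ), 0 < d ∧ IsWeightedHomogeneous w g d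

section WH

variable {σ τ : Type}

theorem WH.const {g : MvPolynomial σ ℚ} (h : WH g) : constantCoeff g = 0 := by
  obtain ⟨-, w, d, hd, hw⟩ := h
  by_contra h
  have h1 := hw (d := 0) (by rw [constantCoeff_eq] at h; exact h)
  simp only [map_zero] at h1
  omega

theorem WH.add {g₁ : MvPolynomial σ ℚ} {g₂ : MvPolynomial τ ℚ} (h1 : WH g₁) (h2 : WH g₂) :
    WH (rename Sum.inl g₁ + rename Sum.inr g₂ : MvPolynomial (σ ⊕ τ) ℚ) := by
  have hc := h2.const
  obtain ⟨h01, w1, d1, hd1, hw1⟩ := h1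
  obtain ⟨h02, w2, d2, hd2, hw2⟩ := h2
  refine ⟨fun h0 => h01 ?_, Sum.elim (fun i => d2 * w1 i) (fun i => d1 * w2 i), d1 * d2,
    mul_pos hd1 hd2, ?_⟩
  · have h1 := congrArg (aeval (Sum.elim X (fun _ => 0)) :
      MvPolynomial (σ ⊕ τ) ℚ → MvPolynomial σ ℚ) h0
    rw [map_add, map_zero, aeval_rename, aeval_rename, Sum.elim_comp_inl, Sum.elim_comp_inr,
      aeval_X_left_apply] at h1
    have h2 : (aeval fun _ : τ => (0 : MvPolynomial σ ℚ)) g₂ = 0 := by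
      have h3 := aeval_zero (S₁ := MvPolynomial σ ℚ) g₂
      rw [hc, map_zero] at h3
      exact h3
    rw [h2, add_zero] at h1
    exact h1
  · refine IsWeightedHomogeneous.add ?_ ?_
    · refine wh_rename Sum.inl _ g₁ _ ?_
      have h3 := wh_scale w1 g₁ d1 d2 hw1
      rw [mul_comm d2 d1] at h3
      exact h3
    · exact wh_rename Sum.inr _ g₂ _ (wh_scale w2 g₂ d2 d1 hw2)

theorem WH.mul {g₁ : MvPolynomial σ ℚ} {g₂ : MvPolynomial τ ℚ} (h1 : WH g₁) (h2 : WH g₂) :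
    WH (rename Sum.inl g₁ * rename Sum.inr g₂ : MvPolynomial (σ ⊕ τ) ℚ) := by
  obtain ⟨h01, w1, d1, hd1, hw1⟩ := h1
  obtain ⟨h02, w2, d2, hd2, hw2⟩ := h2
  refine ⟨mul_ne_zero (fun h0 => h01 ?_) (fun h0 => h02 ?_), Sum.elim w1 w2, d1 + d2,
    add_pos hd1 hd2, ?_⟩
  · exact rename_injective _ Sum.inl_injective (by rw [h0, map_zero])
  · exact rename_injective _ Sum.inr_injective (by rw [h0, map_zero])
  · exact (wh_rename Sum.inl (Sum.elim w1 w2) g₁ _ hw1).mul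
      (wh_rename Sum.inr (Sum.elim w1 w2) g₂ _ hw2)

theorem WH.pow {g : MvPolynomial σ ℚ} (h : WH g) (k : ℕ) (hk : k ≠ 0) : WH (g ^ k) := by
  obtain ⟨h0, w, d, hd, hw⟩ := h
  refine ⟨pow_ne_zero k h0, w, k • d, ?_, hw.pow k⟩
  rw [nsmul_eq_mul]
  exact mul_pos (by exact_mod_cast Nat.pos_of_ne_zero hk) hd

theorem WH.smul {g : MvPolynomial σ ℚ} (h : WH g) (c : ℚ) (hc : c ≠ 0) : WH (C c * g) := by
  obtain ⟨h0, w, d, hd, hw⟩ := h
  exact ⟨mul_ne_zero (by rwa [Ne, C_eq_zero]) h0, w, d, hd, hw.C_mul c⟩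

theorem WH.equiv {g : MvPolynomial σ ℚ} (h : WH g) (i : σ ≃ τ) : WH (rename i g) := by
  obtain ⟨h0, w, d, hd, hw⟩ := h
  refine ⟨fun h1 => h0 (rename_injective _ i.injective (by rw [h1, map_zero])),
    fun j => w (i.symm j), d, hd, wh_rename i _ g d ?_⟩
  simpa using hw

end WH

section FK

variable {σ τ : Type} [Fintype σ] [Fintype τ]

theorem FK_iff (g : MvPolynomial σ ℚ) (r : ℂ) (m : ℕ) : FK ⟨σ, Fin 1, fun _ => g⟩ r m ↔
    ∀ b : Polynomial ℂ, IsBFunction (map (algebraMap ℚ ℂ) g) b →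
      (Polynomial.X - Polynomial.C r) ^ m ∣ b :=
  ⟨fun h b hb => h b (single_of_isB _ b hb),
    fun h b hb => h b (Pool.Agent.Y229.isB_of_single _ b hb)⟩

theorem map_ne {g : MvPolynomial σ ℚ} (hg : g ≠ 0) : map (algebraMap ℚ ℂ) g ≠ 0 := fun h0 =>
  hg (map_injective _ (algebraMap ℚ ℂ).injective (by rw [map_zero]; exact h0))

theorem map_const {g : MvPolynomial σ ℚ} (hg : constantCoeff g = 0) :
    constantCoeff (map (algebraMap ℚ ℂ) g) = 0 := by
  rw [constantCoeff_map, hg, map_zero]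

/-- `-1` is a root -/
theorem FK_m1 {g : MvPolynomial σ ℚ} (h : WH g) : FK ⟨σ, Fin 1, fun _ => g⟩ (-1) 1 := by
  rw [FK_iff]
  intro b hb
  obtain ⟨P, hP⟩ := hb
  rw [pow_one, Polynomial.dvd_iff_isRoot]
  refine minus_one (map (algebraMap ℚ ℂ) g) 1 (map_ne h.1) ?_ b P fun s => ?_
  · rintro ⟨G, hG⟩
    have h1 := congrArg constantCoeff hG
    rw [map_one, map_mul, map_const h.const, zero_mul] at h1
    exact one_ne_zero h1
  · rw [one_mul]
    exact hP s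

theorem dl_m1 : dl (-1) = 1 := by rw [dl_eq, if_pos rfl]

theorem dl_ne {r : ℂ} (h : r ≠ -1) : dl r = 0 := by rw [dl_eq, if_neg h]

theorem FK_dl {g : MvPolynomial σ ℚ} (h : WH g) (r : ℂ) : FK ⟨σ, Fin 1, fun _ => g⟩ r (dl r) := by
  by_cases hr : r = -1
  · rw [hr, dl_m1]
    exact FK_m1 h
  · rw [dl_ne hr]
    exact FK_zero _ _

/-- a root of the reduced functional equation -/
theorem root_red (r : ℂ) (q : Polynomial ℂ)
    (h : (Polynomial.X - Polynomial.C r) ^ (1 + dl r) ∣ (Polynomial.X + 1) * q) :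
    q.eval r = 0 := by
  by_cases hr : r = -1
  · rw [hr, dl_m1] at h
    have e : (Polynomial.X - Polynomial.C (-1 : ℂ)) = Polynomial.X + 1 := by
      rw [Polynomial.C_neg, sub_neg_eq_add, Polynomial.C_1]
    have hne : (Polynomial.X + 1 : Polynomial ℂ) ≠ 0 := by
      rw [← e]
      exact Polynomial.X_sub_C_ne_zero _
    rw [e, pow_add, pow_one] at h
    have h1 := (mul_dvd_mul_iff_left hne).1 h
    rw [← e, Polynomial.dvd_iff_isRoot] at h1
    rw [hr]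
    exact h1
  · rw [dl_ne hr, add_zero, pow_one, Polynomial.dvd_iff_isRoot, Polynomial.IsRoot.def,
      Polynomial.eval_mul, Polynomial.eval_add, Polynomial.eval_X, Polynomial.eval_one] at h
    refine (mul_eq_zero.1 h).resolve_left fun h1 => hr ?_
    linear_combination h1

/-- **Sums.** -/
theorem FK_addE {g₁ : MvPolynomial σ ℚ} {g₂ : MvPolynomial τ ℚ} (h1 : WH g₁) (h2 : WH g₂)
    (α β : ℂ) (hα : FK ⟨σ, Fin 1, fun _ => g₁⟩ α (1 + dl α))
    (hβ : FK ⟨τ, Fin 1, fun _ => g₂⟩ β (1 + dl β)) :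
    FK ⟨σ ⊕ τ, Fin 1, fun _ => rename Sum.inl g₁ + rename Sum.inr g₂⟩ (α + β)
      (1 + dl (α + β)) := by
  have hc := h2.const
  obtain ⟨h01, w, d, hd, hw⟩ := h1
  rw [FK_iff] at hα hβ ⊢
  intro b hb
  rw [map_add, map_rename, map_rename] at hb
  obtain ⟨b', e, h3⟩ := fe_sum Pool.Agent.Y21.TH.tA w d hd (map (algebraMap ℚ ℂ) g₁)
    (map (algebraMap ℚ ℂ) g₂) (wh_map _ w g₁ d hw) (map_ne h01) (map_ne h2.1) (map_const hc) b hb
  have h4 := h3 α fun q hq => root_red α q (hα _ (Pool.Agent.Y21.TH.tA _ (map_ne h01) q hq))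
  have h5 := root_red β _ (hβ _ h4)
  rw [Polynomial.eval_comp, Polynomial.eval_add, Polynomial.eval_X, Polynomial.eval_C,
    add_comm β α] at h5
  rw [e]
  refine dvd_dl (α + β) 1 b' ?_
  rw [pow_one, Polynomial.dvd_iff_isRoot]
  exact h5

/-- **Products.** -/
theorem FK_mulE {g₁ : MvPolynomial σ ℚ} {g₂ : MvPolynomial τ ℚ} (h1 : g₁ ≠ 0) (h2 : g₂ ≠ 0)
    (r : ℂ) (hr : ∀ N : ℕ, (N : ℂ) ≠ r) (m n : ℕ) (hm : FK ⟨σ, Fin 1, fun _ => g₁⟩ r m)
    (hn : FK ⟨τ, Fin 1, fun _ => g₂⟩ r n) :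
    FK ⟨σ ⊕ τ, Fin 1, fun _ => rename Sum.inl g₁ * rename Sum.inr g₂⟩ r (m + n) := by
  rw [FK_iff] at hm hn ⊢
  intro b hb
  rw [map_mul, map_rename, map_rename] at hb
  refine FMB_mul _ _ (map_ne h1) (map_ne h2) r hr ?_ m n hm hn b hb
  obtain ⟨b0, hb0, hfe⟩ := Pool.Agent.Y229.exists_fe (fun _ : Fin 1 => map (algebraMap ℚ ℂ) g₁)
    ⟨0, map_ne h1⟩
  exact ⟨b0, hb0, Pool.Agent.Y229.isB_of_single _ _ hfe⟩

/-- **Powers.** -/
theorem FK_powE {g : MvPolynomial σ ℚ} (hg : WH g) (k : ℕ) (hk : 2 ≤ k) (r : ℂ)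
    (h : FK ⟨σ, Fin 1, fun _ => g⟩ ((k : ℂ) * r) 1) :
    FK ⟨σ, Fin 1, fun _ => g ^ k⟩ r (1 + dl r) := by
  have hkC : (k : ℂ) ≠ 0 := by exact_mod_cast (by omega : k ≠ 0)
  by_cases hr : r = -1
  · rw [FK_iff] at h ⊢
    intro b hb
    rw [map_pow] at hb
    obtain ⟨b', e, h1⟩ := isB_pow_strong _ (map_ne hg.1) (map_const hg.const) k hk b hb
    have h2 := dvd_of_comp b' (k : ℂ) hkC r 1 (h _ h1)
    rw [e]
    exact dvd_dl r 1 b' h2
  · rw [dl_ne hr]
    exact FK_pow g hg.1 k (by omega) r 1 h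

/-- **Constant factors.** -/
theorem FK_smulE (g : MvPolynomial σ ℚ) (c : ℚ) (hc : c ≠ 0) (r : ℂ) (m : ℕ)
    (h : FK ⟨σ, Fin 1, fun _ => g⟩ r m) : FK ⟨σ, Fin 1, fun _ => C c * g⟩ r m := by
  classical
  rw [FK_iff] at h ⊢
  intro b hb
  refine h b ?_
  set G := map (algebraMap ℚ ℂ) g with hG
  set a : ℂ := algebraMap ℚ ℂ c with ha
  have ha0 : a ≠ 0 := by
    rw [ha, Ne, map_eq_zero_iff _ (algebraMap ℚ ℂ).injective]
    exact hc
  rw [map_mul, map_C, ← hG, ← ha] at hb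
  obtain ⟨P, hP⟩ := hb
  refine ⟨a • P, fun s => ?_⟩
  have h1 := congrArg (fun z => (a⁻¹) ^ s • z) (hP s)
  beta_reduce at h1
  have e1 : (C a * G) ^ s = a ^ s • G ^ s := by rw [mul_pow, ← C_pow, C_mul']
  have e2 : (C a * G) ^ (s + 1) = a ^ (s + 1) • G ^ (s + 1) := by
    rw [mul_pow, ← C_pow, C_mul']
  rw [e1, mul_smul_comm, smul_smul, ← mul_pow, inv_mul_cancel₀ ha0, one_pow, one_smul] at h1
  rw [h1, Finsupp.sum_smul_index' (by simp), Finsupp.smul_sum]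
  refine Finsupp.sum_congr fun m _ => ?_
  rw [e2, map_smul, smul_smul, smul_smul]
  change _ = ((s : ℂ) ^ m) • (a • (P m : Module.End ℂ (MvPolynomial σ ℂ)) (G ^ (s + 1)))
  rw [smul_smul]
  congr 1
  rw [pow_succ]
  have h2 : (a⁻¹) ^ s * a ^ s = 1 := by rw [← mul_pow, inv_mul_cancel₀ ha0, one_pow]
  linear_combination ((s : ℂ) ^ m * a) * h2

end FK

end Pool.Agent.T6.H26
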