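import Pool.Agent.W427.SMC.Poin1

set_option autoImplicit false
set_option linter.unusedSectionVars false
set_option linter.unusedVariables false

/-! # Additive characters of `ℤ_p` -/

namespace Pool.Agent.T6.H26

open MeasureTheory Pool.Agent.W427.SMC
open scoped ENNReal

attribute [local instance] msZ bsZ

variable (p : ℕ) [Fact p.Prime]

theorem nz (m : ℕ) : NeZero (p ^ m) := ⟨pow_ne_zero _ (Fact.out : p.Prime).ne_zero⟩

attribute [local instance] nz

/-- the character `z ↦ exp (2 π i z / p ^ m)` -/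
noncomputable def ch (m : ℕ) (z : ℤ_[p]) : ℂ := ZMod.stdAddChar (PadicInt.toZModPow m z)

theorem ch_add (m : ℕ) (a b : ℤ_[p]) : ch p m (a + b) = ch p m a * ch p m b := by
  unfold ch
  rw [map_add, AddChar.map_add_eq_mul]

theorem ch_zero (m : ℕ) : ch p m 0 = 1 := by
  unfold ch
  rw [map_zero, AddChar.map_zero_eq_one]

theorem norm_ch (m : ℕ) (z : ℤ_[p]) : ‖ch p m z‖ = 1 := by
  unfold ch
  rw [ZMod.stdAddChar_apply]
  exact Circle.norm_coe _

theorem pinv_pos : (0 : ℝ) < (p : ℝ)⁻¹ :=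
  inv_pos.2 (by exact_mod_cast (Fact.out : p.Prime).pos)

theorem norm_p_pow (m : ℕ) : ‖(p : ℤ_[p]) ^ m‖ = ((p : ℝ)⁻¹) ^ m := by
  rw [norm_pow, PadicInt.norm_p]

theorem le_iff_dvd (m : ℕ) (z : ℤ_[p]) : ‖z‖ ≤ ((p : ℝ)⁻¹) ^ m ↔ (p : ℤ_[p]) ^ m ∣ z := by
  rw [dvd_iff_norm, norm_p_pow]

theorem ch_one_iff (m : ℕ) (z : ℤ_[p]) : ch p m z = 1 ↔ ‖z‖ ≤ ((p : ℝ)⁻¹) ^ m := by
  rw [le_iff_dvd, ← Ideal.mem_span_singleton, ← PadicInt.ker_toZModPow, RingHom.mem_ker]
  unfold ch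
  rw [← (ZMod.stdAddChar (N := p ^ m)).map_zero_eq_one]
  exact ZMod.injective_stdAddChar.eq_iff

theorem ch_congr (m : ℕ) (a b : ℤ_[p]) (h : ‖a - b‖ ≤ ((p : ℝ)⁻¹) ^ m) : ch p m a = ch p m b := by
  have h1 : a = b + (a - b) := by ring
  rw [h1, ch_add, (ch_one_iff p m (a - b)).2 h, mul_one]

theorem exists_nat (m : ℕ) (z : ℤ_[p]) : ∃ n : ℕ, ‖z - n‖ ≤ ((p : ℝ)⁻¹) ^ m := by
  refine ⟨(PadicInt.toZModPow m z).val, ?_⟩
  rw [le_iff_dvd, ← Ideal.mem_span_singleton, ← PadicInt.ker_toZModPow, RingHom.mem_ker, map_sub,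
    map_natCast, ZMod.natCast_zmod_val, sub_self]

theorem ch_nat (m n : ℕ) : ch p m (n : ℤ_[p]) = Complex.exp (2 * Real.pi * Complex.I * n / (p ^ m : ℕ)) := by
  unfold ch
  rw [map_natCast]
  have h := ZMod.stdAddChar_coe (N := p ^ m) (n : ℤ)
  rw [Int.cast_natCast, Int.cast_natCast] at h
  exact h

theorem ch_p (m : ℕ) (z : ℤ_[p]) : ch p (m + 1) ((p : ℤ_[p]) * z) = ch p m z := by
  obtain ⟨n, hn⟩ := exists_nat p m z
  rw [ch_congr p m z n hn, ch_congr p (m + 1) ((p : ℤ_[p]) * z) ((p * n : ℕ) : ℤ_[p]), ch_nat, ch_nat]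
  · congr 1
    have hp : (p : ℂ) ≠ 0 := by exact_mod_cast (Fact.out : p.Prime).ne_zero
    push_cast
    rw [pow_succ]
    field_simp
  · have h1 : (p : ℤ_[p]) * z - ((p * n : ℕ) : ℤ_[p]) = (p : ℤ_[p]) * (z - n) := by
      push_cast
      ring
    rw [h1, norm_mul, PadicInt.norm_p, pow_succ, mul_comm]
    exact mul_le_mul_of_nonneg_right hn (pinv_pos p).le

theorem ch_pow (m k : ℕ) (z : ℤ_[p]) : ch p (m + k) ((p : ℤ_[p]) ^ k * z) = ch p m z := by
  induction k with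
  | zero => rw [pow_zero, one_mul, add_zero]
  | succ k ih =>
    rw [pow_succ', mul_assoc, ← add_assoc, ch_p]
    exact ih

theorem ch_meas (m : ℕ) : Measurable (ch p m) := by
  have h : ∀ S : Set (ZMod (p ^ m)), MeasurableSet {z : ℤ_[p] | PadicInt.toZModPow m z ∈ S} := by
    intro S
    have h1 : {z : ℤ_[p] | PadicInt.toZModPow m z ∈ S} =
        ⋃ w ∈ S, {z : ℤ_[p] | PadicInt.toZModPow m z = w} := by
      ext z
      simp
    rw [h1]
    exact MeasurableSet.biUnion (Set.to_countable S) fun w _ => meas_res p m w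
  intro T hT
  exact h {w | ZMod.stdAddChar w ∈ T}

theorem ch_int (m : ℕ) (z : ℤ_[p]) :
    ∫ t, ch p m (t * z) ∂(mu p) = if ‖z‖ ≤ ((p : ℝ)⁻¹) ^ m then 1 else 0 := by
  split_ifs with h
  · have h1 : ∀ t : ℤ_[p], ch p m (t * z) = 1 := by
      intro t
      rw [ch_one_iff, norm_mul]
      calc ‖t‖ * ‖z‖ ≤ 1 * ‖z‖ := mul_le_mul_of_nonneg_right (PadicInt.norm_le_one t) (norm_nonneg _)
        _ ≤ _ := by rw [one_mul]; exact h
    simp only [h1]
    rw [integral_const]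
    simp
  · have h1 : ∫ t, ch p m (t * z) ∂(mu p) = ch p m z * ∫ t, ch p m (t * z) ∂(mu p) := by
      rw [← integral_const_mul]
      conv_lhs => rw [← integral_add_left_eq_self (μ := mu p) (fun t => ch p m (t * z)) 1]
      refine integral_congr_ae (Filter.Eventually.of_forall fun t => ?_)
      change ch p m ((1 + t) * z) = ch p m z * ch p m (t * z)
      rw [add_mul, one_mul, ch_add]
    have h2 : ch p m z ≠ 1 := fun h3 => h ((ch_one_iff p m z).1 h3)
    have h3 : (1 - ch p m z) * ∫ t, ch p m (t * z) ∂(mu p) = 0 := by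
      rw [sub_mul, one_mul, ← h1, sub_self]
    rcases mul_eq_zero.1 h3 with h4 | h4
    · exact absurd (sub_eq_zero.1 h4).symm h2
    · exact h4

/-- self-similarity -/
theorem mu_sm (l : ℕ) : mu p = ((p : ℝ≥0∞)⁻¹) ^ l • ∑ w : ZMod (p ^ l),
    (mu p).map (fun z => (w.val : ℤ_[p]) + (p : ℤ_[p]) ^ l * z) := by
  refine Measure.ext_of_lintegral _ fun g hg => ?_
  rw [lintegral_sm p l g hg, lintegral_smul_measure, lintegral_finsetSum_measure, smul_eq_mul,
    Finset.mul_sum]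
  refine Finset.sum_congr rfl fun w _ => ?_
  rw [lintegral_map hg (meas_aff p l _)]

theorem bdd_int {Ω : Type} [MeasurableSpace Ω] (μ : Measure Ω) [IsFiniteMeasure μ] (f : Ω → ℂ)
    (hf : Measurable f) (C : ℝ) (hC : ∀ x, ‖f x‖ ≤ C) : Integrable f μ :=
  Integrable.of_bound hf.aestronglyMeasurable C (Filter.Eventually.of_forall hC)

/-- self-similarity for integrals of bounded functions -/
theorem integral_sm (l : ℕ) (f : ℤ_[p] → ℂ) (hf : Measurable f) (C : ℝ) (hC : ∀ x, ‖f x‖ ≤ C) :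
    ∫ z, f z ∂(mu p) = ∑ w : ZMod (p ^ l), ((p : ℂ)⁻¹) ^ l *
      ∫ z, f ((w.val : ℤ_[p]) + (p : ℤ_[p]) ^ l * z) ∂(mu p) := by
  conv_lhs => rw [mu_sm p l]
  rw [integral_smul_measure, integral_finsetSum_measure, Finset.smul_sum]
  · refine Finset.sum_congr rfl fun w _ => ?_
    rw [integral_map (meas_aff p l _).aemeasurable hf.aestronglyMeasurable]
    rw [ENNReal.toReal_pow, ENNReal.toReal_inv, ENNReal.toReal_natCast, Complex.real_smul]
    push_cast
    rfl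
  · intro w _
    have : IsFiniteMeasure ((mu p).map (fun z => (w.val : ℤ_[p]) + (p : ℤ_[p]) ^ l * z)) :=
      Measure.isFiniteMeasure_map _ _
    exact bdd_int _ f hf C hC

end Pool.Agent.T6.H26
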