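import Pool.Agent.R852.PP.Defs

set_option autoImplicit false
set_option linter.unusedSectionVars false
set_option linter.unusedVariables false

/-! # Sums, products and powers in disjoint variables: the definitions -/

namespace Pool.Agent.T6.H26

open MvPolynomial Pool.Agent.Y230.PS Pool.Agent.Y230.TH Pool.Agent.R852.PP

/-- The three kinds of families of polynomials: ideals, hypersurfaces, and hypersurfaces for which
also the exponential sums are controlled. -/
inductive Kd
  /-- ideals, given by generators -/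
  | idl
  /-- hypersurfaces, that is, principal ideals -/
  | hyp
  /-- hypersurfaces with controlled exponential sums -/
  | exh

/-- `g` is weighted homogeneous of degree `d` for positive weights `w_i < d`, and the origin is the
only common zero of its partial derivatives in `ℂ ^ (n + 1)`. For `w_i = 1` these are the forms of
degree `d ≥ 2` which define smooth projective hypersurfaces. -/
structure IsoCrit {n : ℕ} (g : MvPolynomial (Fin (n + 1)) ℚ) (w : Fin (n + 1) → ℕ) (d : ℕ) :
    Prop where
  pos : ∀ i, 1 ≤ w i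
  lt : ∀ i, w i < d
  hom : IsWeightedHomogeneous w g d
  iso : ∀ z : Fin (n + 1) → ℂ, (∀ i, aeval z (pderiv i g) = 0) → z = 0

/-- Three classes of families of polynomials with rational coefficients: `RO Kd.idl A` for ideals,
`RO Kd.hyp A` for hypersurfaces, and the class `RO Kd.exh A` of hypersurfaces which is also closed
under SUMS in disjoint sets of variables. They are the smallest classes with the following
properties. -/
inductive RO : Kd → FamQ → Prop
  /-- the ideals of the starting class `PTS` (monomial ideals, ideals of `ℚ[x, y]`, ...) -/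
  | ptsI (A : FamQ) (h : PTS false false A) : RO Kd.idl A
  /-- the hypersurfaces of the starting class `PTS` (plane curves, ...) -/
  | ptsH (A : FamQ) (h : PTS false true A) : RO Kd.hyp A
  /-- a hypersurface is a principal ideal -/
  | ofHyp (A : FamQ) (h : RO Kd.hyp A) : RO Kd.idl A
  /-- the third class is contained in the second one -/
  | ofExh (A : FamQ) (h : RO Kd.exh A) : RO Kd.hyp A
  /-- the powers of a hypersurface are principal ideals -/
  | pow (σ : Type) [Fintype σ] (g : MvPolynomial σ ℚ) (k : ℕ) (hk : k ≠ 0)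
      (h : RO Kd.hyp ⟨σ, Fin 1, fun _ => g⟩) : RO Kd.idl ⟨σ, Fin 1, fun _ => g ^ k⟩
  /-- the sum of two ideals in disjoint sets of variables -/
  | sum (A A' : FamQ) (hA : RO Kd.idl A) (hA' : RO Kd.idl A') : RO Kd.idl (A.sum A')
  /-- the product of two ideals in disjoint sets of variables -/
  | mulI (A A' : FamQ) (hA : RO Kd.idl A) (hA' : RO Kd.idl A') : RO Kd.idl (A.mul A')
  /-- the product of two polynomials in disjoint sets of variables -/
  | mulH (A A' : FamQ) (hA : RO Kd.hyp A) (hA' : RO Kd.hyp A') : RO Kd.hyp (A.mul A')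
  /-- the polynomial `∑ y_j f_j(x)` -/
  | univ (A : FamQ) (hA : RO Kd.idl A) : RO Kd.hyp A.univ
  /-- the products of powers `h(x) ∏_t (∑_j y_{t, j} f_{t, j}(x)) ^ a_t`, if the ideal
  `h ∏_t (f_{t, j})_j ^ a_t` is in the class -/
  | form (σ : Type) [Fintype σ] (m : ℕ) (r a : Fin m → ℕ) (hm : 0 < m) (ha : ∀ t, 0 < a t)
      (h : MvPolynomial σ ℚ)
      (f : (t : Fin m) → Fin (r t) → MvPolynomial σ ℚ)
      (hA : RO Kd.idl (genQ a h f)) : RO Kd.hyp (formQ a h f)
  /-- the Thom-Sebastiani sum `∑ y_j f_j(x) + g(z)`, `g` a hypersurface in the second class -/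
  | ts (A : FamQ) (τ : Type) [Fintype τ] (g : MvPolynomial τ ℚ) (hA : RO Kd.idl A)
      (hg : RO Kd.hyp ⟨τ, Fin 1, fun _ => g⟩) : RO Kd.hyp (tsum A τ g)
  /-- variables which do not occur may be dropped -/
  | drop (σ κ : Type) [Fintype σ] [Fintype κ] (g : MvPolynomial σ ℚ)
      (h : RO Kd.hyp ⟨σ ⊕ κ, Fin 1, fun _ => rename Sum.inl g⟩) :
      RO Kd.hyp ⟨σ, Fin 1, fun _ => g⟩
  /-- third class: the products of powers `∏_t (∑_j y_{t, j} f_{t, j}(x)) ^ a_t`, if the ideal
  `∏_t (f_{t, j})_j ^ a_t` is in the first class -/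
  | formE (σ : Type) [Fintype σ] (m : ℕ) (r a : Fin m → ℕ) (hm : 0 < m) (ha : ∀ t, 0 < a t)
      (f : (t : Fin m) → Fin (r t) → MvPolynomial σ ℚ)
      (hA : RO Kd.idl (genQ a 1 f)) : RO Kd.exh (formQ a 1 f)
  /-- third class: the weighted homogeneous polynomials with an isolated critical point -/
  | isoE (n : ℕ) (g : MvPolynomial (Fin (n + 1)) ℚ) (w : Fin (n + 1) → ℕ) (d : ℕ)
      (h : IsoCrit g w d) : RO Kd.exh ⟨Fin (n + 1), Fin 1, fun _ => g⟩
  /-- third class: **sums** `g₁(x) + g₂(z)` in disjoint sets of variables -/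
  | addE (σ τ : Type) [Fintype σ] [Fintype τ] (g₁ : MvPolynomial σ ℚ) (g₂ : MvPolynomial τ ℚ)
      (h₁ : RO Kd.exh ⟨σ, Fin 1, fun _ => g₁⟩) (h₂ : RO Kd.exh ⟨τ, Fin 1, fun _ => g₂⟩) :
      RO Kd.exh ⟨σ ⊕ τ, Fin 1, fun _ => rename Sum.inl g₁ + rename Sum.inr g₂⟩
  /-- third class: products `g₁(x) g₂(z)` in disjoint sets of variables -/
  | mulE (σ τ : Type) [Fintype σ] [Fintype τ] (g₁ : MvPolynomial σ ℚ) (g₂ : MvPolynomial τ ℚ)
      (h₁ : RO Kd.exh ⟨σ, Fin 1, fun _ => g₁⟩) (h₂ : RO Kd.exh ⟨τ, Fin 1, fun _ => g₂⟩) :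
      RO Kd.exh ⟨σ ⊕ τ, Fin 1, fun _ => rename Sum.inl g₁ * rename Sum.inr g₂⟩
  /-- third class: powers -/
  | powE (σ : Type) [Fintype σ] (g : MvPolynomial σ ℚ) (k : ℕ) (hk : k ≠ 0)
      (h : RO Kd.exh ⟨σ, Fin 1, fun _ => g⟩) : RO Kd.exh ⟨σ, Fin 1, fun _ => g ^ k⟩
  /-- third class: constant factors -/
  | smulE (σ : Type) [Fintype σ] (g : MvPolynomial σ ℚ) (c : ℚ) (hc : c ≠ 0)
      (h : RO Kd.exh ⟨σ, Fin 1, fun _ => g⟩) : RO Kd.exh ⟨σ, Fin 1, fun _ => C c * g⟩
  /-- the variables and the generators may be indexed differently -/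
  | equiv (c : Kd) (A A' : FamQ) (i : A.σ ≃ A'.σ) (k : A.ι ≃ A'.ι)
      (h : ∀ j, A'.f (k j) = rename i (A.f j)) (hA : RO c A) : RO c A'

/-- The polynomials which are built from the following pieces in disjoint sets of variables with
**sums, products, powers** (with exponent at least 1) and products with constants `c ≠ 0`; `Built S F`
means that `S` is the set of the variables of such an expression of `F`. -/
inductive Built {V : Type} [DecidableEq V] : Finset V → MvPolynomial V ℚ → Prop
  /-- a variable -/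
  | var (i : V) : Built {i} (X i)
  /-- a weighted homogeneous polynomial with an isolated critical point -/
  | iso (n : ℕ) (g : MvPolynomial (Fin (n + 1)) ℚ) (w : Fin (n + 1) → ℕ) (d : ℕ)
      (h : IsoCrit g w d) (e : Fin (n + 1) ↪ V) : Built (Finset.univ.map e) (rename e g)
  /-- `∑_j y_j f_j(x₁, x₂)` for a nonzero ideal `(f_j)` of `ℚ[x₁, x₂]` and variables `y_j` -/
  | lin (r : ℕ) (f : Fin r → MvPolynomial (Fin 2) ℚ) (hf : ∃ j, f j ≠ 0)
      (e : Fin r ⊕ Fin 2 ↪ V) : Built (Finset.univ.map e)
        (rename e (∑ j, X (Sum.inl j) * rename Sum.inr (f j)))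
  /-- the sum of two polynomials with disjoint sets of variables -/
  | add (S T : Finset V) (hST : Disjoint S T) (F G : MvPolynomial V ℚ) (hF : Built S F)
      (hG : Built T G) : Built (S ∪ T) (F + G)
  /-- the product of two polynomials with disjoint sets of variables -/
  | mul (S T : Finset V) (hST : Disjoint S T) (F G : MvPolynomial V ℚ) (hF : Built S F)
      (hG : Built T G) : Built (S ∪ T) (F * G)
  /-- powers -/
  | pow (S : Finset V) (F : MvPolynomial V ℚ) (k : ℕ) (hk : k ≠ 0) (hF : Built S F) :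
      Built S (F ^ k)
  /-- constant factors -/
  | smul (S : Finset V) (F : MvPolynomial V ℚ) (c : ℚ) (hc : c ≠ 0) (hF : Built S F) :
      Built S (C c * F)

end Pool.Agent.T6.H26
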