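import Pool.Agent.T6.H26.FTMul
import Pool.Agent.R852.PP.PAdic

set_option autoImplicit false
set_option linter.unusedSectionVars false
set_option linter.unusedVariables false

/-! # The exponential sums of products of powers of linear forms in new variables -/

namespace Pool.Agent.T6.H26

open MeasureTheory Pool.Agent.W427.SMC Pool.Agent.Y230.PS Pool.Agent.Y230.PT Pool.Agent.Y230.TH
open Pool.Agent.R852.PP
open scoped ENNReal Polynomial

attribute [local instance] msZ bsZ nz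

variable {p : ℕ} [Fact p.Prime]

section haar

variable {τ : Type} [Fintype τ] [DecidableEq τ] {κ : τ → Type} [∀ t, Fintype (κ t)]
  [∀ t, DecidableEq (κ t)]

/-- the map `y ↦ (∑_j y_{t, j} w_{t, j})_t` -/
noncomputable def lh (w : (t : τ) → κ t → ℤ_[p]) : ((Σ t, κ t) → ℤ_[p]) →+ (τ → ℤ_[p]) where
  toFun y t := ∑ j, y ⟨t, j⟩ * w t j
  map_zero' := by
    funext t
    simp
  map_add' y y' := by
    funext t
    simp only [Pi.add_apply, add_mul, Finset.sum_add_distrib]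

theorem lh_apply (w : (t : τ) → κ t → ℤ_[p]) (y : (Σ t, κ t) → ℤ_[p]) (t : τ) :
    lh w y t = ∑ j, y ⟨t, j⟩ * w t j := rfl

theorem lh_cont (w : (t : τ) → κ t → ℤ_[p]) : Continuous (lh w) := by
  refine continuous_pi fun t => ?_
  change Continuous fun y : (Σ t, κ t) → ℤ_[p] => ∑ j, y ⟨t, j⟩ * w t j
  exact continuous_finsetSum _ fun j _ => (continuous_apply (⟨t, j⟩ : Σ t, κ t)).mul
    continuous_const

theorem lh_surj (w : (t : τ) → κ t → ℤ_[p]) (hw : ∀ t, ∃ j, ‖w t j‖ = 1) :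
    Function.Surjective (lh w) := by
  choose j0 hj0 using hw
  have hu : ∀ t, ∃ v : ℤ_[p], w t (j0 t) * v = 1 := fun t => by
    obtain ⟨u, hu⟩ := PadicInt.isUnit_iff.2 (hj0 t)
    exact ⟨((u⁻¹ : ℤ_[p]ˣ) : ℤ_[p]), by rw [← hu, Units.mul_inv]⟩
  choose v hv using hu
  intro z
  refine ⟨fun q => if q.2 = j0 q.1 then z q.1 * v q.1 else 0, ?_⟩
  funext t
  rw [lh_apply, Finset.sum_eq_single (j0 t)]
  · rw [if_pos rfl]
    linear_combination z t * hv t
  · intro j _ hj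
    rw [if_neg hj, zero_mul]
  · intro h
    exact absurd (Finset.mem_univ _) h

theorem lh_map (w : (t : τ) → κ t → ℤ_[p]) (hw : ∀ t, ∃ j, ‖w t j‖ = 1) :
    (Measure.pi fun _ : (Σ t, κ t) => mu p).map (lh w) = Measure.pi fun _ : τ => mu p := by
  have hc := lh_cont w
  have h1 := Measure.isAddHaarMeasure_map_of_isFiniteMeasure
    (Measure.pi fun _ : (Σ t, κ t) => mu p) (lh w) hc (lh_surj w hw)
  have h2 : IsProbabilityMeasure (Measure.map (lh w) (Measure.pi fun _ : (Σ t, κ t) => mu p)) :=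
    Measure.isProbabilityMeasure_map hc.measurable.aemeasurable
  exact Measure.isAddHaarMeasure_eq_of_isProbabilityMeasure _ _

theorem lh_int (w : (t : τ) → κ t → ℤ_[p]) (hw : ∀ t, ∃ j, ‖w t j‖ = 1)
    (h : (τ → ℤ_[p]) → ℂ) (hm : Measurable h) :
    ∫ y, h (lh w y) ∂(Measure.pi fun _ : (Σ t, κ t) => mu p) =
      ∫ v, h v ∂(Measure.pi fun _ : τ => mu p) := by
  rw [← lh_map w hw]
  exact (integral_map (lh_cont w).measurable.aemeasurable hm.aestronglyMeasurable).symm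

end haar

section ppw

/-- the power of `p` of the given size -/
noncomputable def ppw (p : ℕ) [Fact p.Prime] (r : ℝ) : ℤ_[p] :=
  open Classical in if h : ∃ k : ℕ, r = ((p : ℝ)⁻¹) ^ k then (p : ℤ_[p]) ^ h.choose else 0

theorem ppw_pow (k : ℕ) : ppw p (((p : ℝ)⁻¹) ^ k) = (p : ℤ_[p]) ^ k := by
  unfold ppw
  have h : ∃ j : ℕ, ((p : ℝ)⁻¹) ^ k = ((p : ℝ)⁻¹) ^ j := ⟨k, rfl⟩
  rw [dif_pos h]
  have h1 := h.choose_spec
  have h2 := (pw_le_iff (p := p) k h.choose).1 h1.le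
  have h3 := (pw_le_iff (p := p) h.choose k).1 h1.ge
  congr 1
  omega

theorem ppw_zero : ppw p 0 = 0 := by
  unfold ppw
  rw [dif_neg]
  rintro ⟨k, hk⟩
  exact (pow_pos (pinv_pos p) k).ne hk

theorem norm_ppw {r : ℝ} (h : Val p r) : ‖ppw p r‖ = r := by
  rcases h with rfl | ⟨k, rfl⟩
  · rw [ppw_zero, norm_zero]
  · rw [ppw_pow, norm_p_pow]

theorem ppw_meas : Measurable (ppw p) := by
  refine Measurable.measurable_of_countable_ne (f := fun _ : ℝ => (0 : ℤ_[p])) measurable_const ?_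
  refine (Set.countable_range (fun k : ℕ => ((p : ℝ)⁻¹) ^ k)).mono fun r hr => ?_
  by_contra h
  apply hr
  unfold ppw
  rw [dif_neg]
  rintro ⟨k, hk⟩
  exact h ⟨k, hk.symm⟩

end ppw

section fam

variable {τ : Type} [Fintype τ] [DecidableEq τ] {κ : τ → Type} [∀ t, Fintype (κ t)]
  [∀ t, DecidableEq (κ t)]

theorem inc_mul (a b : ℤ_[p]) : inc p (a * b) = inc p a * inc p b := by simp [inc]

theorem inc_sum {ι : Type} (S : Finset ι) (g : ι → ℤ_[p]) :
    inc p (∑ j ∈ S, g j) = ∑ j ∈ S, inc p (g j) := by simp [inc]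

theorem inc_prod {ι : Type} (S : Finset ι) (g : ι → ℤ_[p]) :
    inc p (∏ j ∈ S, g j) = ∏ j ∈ S, inc p (g j) :=
  map_prod (PadicInt.Coe.ringHom (p := p)) g S

theorem inc_pow (a : ℤ_[p]) (k : ℕ) : inc p (a ^ k) = inc p a ^ k := by simp [inc]

/-- the normalisation of the coefficients of the forms -/
theorem norml (hκ : ∀ t, Nonempty (κ t)) (a : τ → ℕ) (ha : ∀ t, 1 ≤ a t)
    (v : (t : τ) → κ t → ℚ_[p]) (K : ℕ)
    (hv : Val p (((p : ℝ)⁻¹) ^ K * ∏ t, ‖v t‖ ^ a t)) :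
    ∃ w : (t : τ) → κ t → ℤ_[p], (∀ t, ∃ j, ‖w t j‖ = 1) ∧ ∀ y : (Σ t, κ t) → ℤ_[p],
      (p : ℚ_[p]) ^ K * ∏ t, (∑ j, inc p (y ⟨t, j⟩) * v t j) ^ a t =
        inc p (ppw p (((p : ℝ)⁻¹) ^ K * ∏ t, ‖v t‖ ^ a t) * ∏ t, lh w y t ^ a t) := by
  have hp0 : (p : ℚ_[p]) ≠ 0 := by exact_mod_cast (Fact.out : p.Prime).ne_zero
  by_cases h0 : ∃ t, v t = 0
  · obtain ⟨t0, ht0⟩ := h0
    refine ⟨fun _ _ => 1, fun t => ⟨Classical.arbitrary _, norm_one⟩, fun y => ?_⟩
    have h1 : ∏ t, ‖v t‖ ^ a t = 0 := by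
      refine Finset.prod_eq_zero (Finset.mem_univ t0) ?_
      rw [ht0, norm_zero, zero_pow (by have := ha t0; omega)]
    have h2 : ∏ t, (∑ j, inc p (y ⟨t, j⟩) * v t j) ^ a t = 0 := by
      refine Finset.prod_eq_zero (Finset.mem_univ t0) ?_
      rw [ht0]
      simp only [Pi.zero_apply, mul_zero, Finset.sum_const_zero]
      rw [zero_pow (by have := ha t0; omega)]
    rw [h1, h2, mul_zero, mul_zero, ppw_zero, zero_mul]
    simp [inc]
  · push Not at h0
    have h1 : ∀ t, ∃ (n : ℤ) (w : κ t → ℤ_[p]), (∀ j, v t j = (p : ℚ_[p]) ^ n * inc p (w j)) ∧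
        ∃ j, ‖w j‖ = 1 := by
      intro t
      have := hκ t
      obtain ⟨j0, hj0⟩ := norm_attained (v t)
      have hne : v t j0 ≠ 0 := by
        intro h
        apply h0 t
        rw [h, norm_zero] at hj0
        exact norm_eq_zero.1 hj0
      set n := (v t j0).valuation with hn
      have hnn : ‖v t j0‖ = (p : ℝ) ^ (-n) := Padic.norm_eq_zpow_neg_valuation hne
      have hpn : ‖(p : ℚ_[p]) ^ n‖ = (p : ℝ) ^ (-n) := by
        rw [norm_zpow, Padic.norm_p, inv_zpow, zpow_neg]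
      have hpp : (p : ℚ_[p]) ^ n ≠ 0 := zpow_ne_zero _ hp0
      have hpr : (p : ℝ) ^ (-n) ≠ 0 := by rw [← hpn]; exact norm_ne_zero_iff.2 hpp
      have hle : ∀ j, ‖v t j / (p : ℚ_[p]) ^ n‖ ≤ 1 := by
        intro j
        rw [norm_div, hpn, ← hnn, ← hj0]
        exact div_le_one_of_le₀ (norm_le_pi_norm (v t) j) (norm_nonneg _)
      refine ⟨n, fun j => ⟨v t j / (p : ℚ_[p]) ^ n, hle j⟩, fun j => ?_, j0, ?_⟩
      · change v t j = (p : ℚ_[p]) ^ n * (v t j / (p : ℚ_[p]) ^ n)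
        rw [mul_div_cancel₀ _ hpp]
      · change ‖v t j0 / (p : ℚ_[p]) ^ n‖ = 1
        rw [norm_div, hnn, hpn, div_self hpr]
    choose n w hw hw1 using h1
    refine ⟨w, hw1, fun y => ?_⟩
    have h2 : ∀ t, ∑ j, inc p (y ⟨t, j⟩) * v t j = (p : ℚ_[p]) ^ (n t) * inc p (lh w y t) := by
      intro t
      rw [lh_apply, inc_sum, Finset.mul_sum]
      refine Finset.sum_congr rfl fun j _ => ?_
      rw [hw, inc_mul]
      ring
    have h3 : ∀ t, ‖v t‖ = ‖(p : ℚ_[p]) ^ (n t)‖ := by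
      intro t
      have e : v t = (p : ℚ_[p]) ^ (n t) • fun j => inc p (w t j) := funext fun j => hw t j
      obtain ⟨j1, hj1⟩ := hw1 t
      have e2 : ‖fun j => inc p (w t j)‖ = 1 := by
        refine le_antisymm ((pi_norm_le_iff_of_nonneg zero_le_one).2 fun j => ?_) ?_
        · exact PadicInt.norm_le_one (w t j)
        · have := norm_le_pi_norm (fun j => inc p (w t j)) j1
          have e3 : ‖inc p (w t j1)‖ = 1 := hj1
          rwa [e3] at this
      rw [e, norm_smul, e2, mul_one]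
    obtain ⟨N, hN⟩ : ∃ N : ℤ, (p : ℚ_[p]) ^ K * ∏ t, ((p : ℚ_[p]) ^ (n t)) ^ a t =
        (p : ℚ_[p]) ^ N := by
      have h4 : ∀ S : Finset τ, ∃ N : ℤ, ∏ t ∈ S, ((p : ℚ_[p]) ^ (n t)) ^ a t =
          (p : ℚ_[p]) ^ N := by
        intro S
        induction S using Finset.induction_on with
        | empty => exact ⟨0, by simp⟩
        | insert t S ht ih =>
          obtain ⟨N, hN⟩ := ih
          refine ⟨n t * a t + N, ?_⟩
          rw [Finset.prod_insert ht, hN, zpow_add₀ hp0, zpow_mul, zpow_natCast]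
      obtain ⟨N, hN⟩ := h4 Finset.univ
      exact ⟨K + N, by rw [hN, zpow_add₀ hp0, zpow_natCast]⟩
    have h5 : ((p : ℝ)⁻¹) ^ K * ∏ t, ‖v t‖ ^ a t = ‖(p : ℚ_[p]) ^ N‖ := by
      rw [← hN, norm_mul, norm_pow, Padic.norm_p, norm_prod]
      congr 1
      refine Finset.prod_congr rfl fun t _ => ?_
      rw [norm_pow, h3]
    have h6 : ∃ k : ℕ, N = k := by
      rw [h5] at hv
      rcases hv with hv | ⟨k, hk⟩
      · exact absurd (norm_eq_zero.1 hv) (zpow_ne_zero _ hp0)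
      · refine ⟨k, ?_⟩
        rw [norm_zpow, Padic.norm_p, ← zpow_natCast] at hk
        exact zpow_right_injective₀ (pinv_pos p) (ne_of_lt (pinv_lt (p := p))) hk
    obtain ⟨k, rfl⟩ := h6
    have h7 : ‖(p : ℚ_[p]) ^ ((k : ℕ) : ℤ)‖ = ((p : ℝ)⁻¹) ^ k := by
      rw [zpow_natCast, norm_pow, Padic.norm_p]
    rw [h5, h7, ppw_pow, inc_mul, inc_prod]
    have h8 : inc p ((p : ℤ_[p]) ^ k) = (p : ℚ_[p]) ^ ((k : ℕ) : ℤ) := by
      rw [zpow_natCast, inc_pow]
      simp [inc]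
    rw [h8, ← hN, mul_assoc, ← Finset.prod_mul_distrib]
    congr 1
    refine Finset.prod_congr rfl fun t _ => ?_
    rw [h2, mul_pow, inc_pow]

end fam

section rep

open MvPolynomial

/-- `G` is the function of `p ^ K g` -/
def Rep {σ : Type} (g : MvPolynomial σ ℚ_[p]) (K : ℕ) (G : (σ → ℤ_[p]) → ℤ_[p]) : Prop :=
  ∀ x, inc p (G x) = (p : ℚ_[p]) ^ K * eval (fun i => inc p (x i)) g

theorem Rep.cont {σ : Type} [Fintype σ] {g : MvPolynomial σ ℚ_[p]} {K : ℕ}
    {G : (σ → ℤ_[p]) → ℤ_[p]} (h : Rep g K G) : Continuous G := by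
  rw [(inc_emb p).continuous_iff]
  have e : inc p ∘ G = fun x => (p : ℚ_[p]) ^ K * eval (fun i => inc p (x i)) g := funext h
  rw [e]
  exact continuous_const.mul ((MvPolynomial.continuous_eval _).comp (continuous_pi fun i =>
    (inc_emb p).continuous.comp (continuous_apply i)))

/-- the exponential sums of `g` are good -/
def XE {σ : Type} [Fintype σ] (M : ℂ → ℕ∞) (g : MvPolynomial σ ℚ_[p]) : Prop :=
  ∃ (K : ℕ) (G : (σ → ℤ_[p]) → ℤ_[p]), Rep g K G ∧
    GoodE p (tr M) (Et (Measure.pi fun _ : σ => mu p) G)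

theorem Et_sumpi {σ τ : Type} [Fintype σ] [Fintype τ]
    (G : (σ → ℤ_[p]) × (τ → ℤ_[p]) → ℤ_[p]) (u : ℤ_[p]) (m : ℕ) :
    Et (Measure.pi fun _ : σ ⊕ τ => mu p)
      (fun z => G (fun i => z (Sum.inl i), fun i => z (Sum.inr i))) u m =
    Et ((Measure.pi fun _ : σ => mu p).prod (Measure.pi fun _ : τ => mu p)) G u m := by
  have hmp := (measurePreserving_sumPiEquivProdPi (X := fun _ : σ ⊕ τ => ℤ_[p])
    (fun _ : σ ⊕ τ => mu p))
  unfold Et
  exact hmp.integral_comp' (fun q => ch p m (u * G q))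

theorem Et_symm {Ω₁ Ω₂ : Type} [MeasurableSpace Ω₁] [MeasurableSpace Ω₂] (μ₁ : Measure Ω₁)
    (μ₂ : Measure Ω₂) [IsProbabilityMeasure μ₁] [IsProbabilityMeasure μ₂]
    (G : Ω₁ × Ω₂ → ℤ_[p]) (hG : Measurable G) (u : ℤ_[p]) (m : ℕ) :
    Et (μ₁.prod μ₂) G u m = ∫ x, ∫ y, ch p m (u * G (y, x)) ∂μ₁ ∂μ₂ := by
  unfold Et
  exact integral_prod_symm _ (bdd_int _ _ ((ch_meas p m).comp (measurable_const.mul hG)) 1
      fun x => (norm_ch p m _).le)

/-- **The exponential sums of a product of powers of linear forms in new variables.** -/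
theorem XE_form {σ : Type} [Fintype σ] {n : ℕ} {κ : Fin (n + 1) → Type} [∀ t, Fintype (κ t)]
    [∀ t, DecidableEq (κ t)] (hκ : ∀ t, Nonempty (κ t)) (a : Fin (n + 1) → ℕ)
    (ha : ∀ t, 1 ≤ a t) (f : (t : Fin (n + 1)) → κ t → MvPolynomial σ ℚ_[p])
    {M M' : ℂ → ℕ∞} (hF : FR p M (FF (genK a (1 : MvPolynomial σ ℚ_[p]) f)))
    (H : ∀ T, 1 < ‖T‖ → M T + (∑ t, if t = 0 ∧ a t = 1 then 0 else ma p (a t) T) ≤ M' T) :
    XE M' (formK a (1 : MvPolynomial σ ℚ_[p]) f) := by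
  classical
  set gen := genK a (1 : MvPolynomial σ ℚ_[p]) f with hgen
  have hsz : ∀ x : σ → ℤ_[p], sz gen x =
      ∏ t, ‖fun j => eval (fun i => inc p (x i)) (f t j)‖ ^ a t := by
    intro x
    rw [hgen, sz_genK, map_one, norm_one, one_mul]
    rfl
  obtain ⟨K, hK⟩ := sz_int (p := p) gen
  have hK1 : ∀ x, Val p (((p : ℝ)⁻¹) ^ K * sz gen x) := hK K le_rfl
  have h1 : ∀ x : σ → ℤ_[p], ∃ w : (t : Fin (n + 1)) → κ t → ℤ_[p], (∀ t, ∃ j, ‖w t j‖ = 1) ∧
      ∀ y : (Σ t, κ t) → ℤ_[p], (p : ℚ_[p]) ^ K * ∏ t, (∑ j, inc p (y ⟨t, j⟩) *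
        eval (fun i => inc p (x i)) (f t j)) ^ a t =
          inc p (ppw p (((p : ℝ)⁻¹) ^ K * sz gen x) * ∏ t, lh w y t ^ a t) := by
    intro x
    have h2 := norml hκ a ha (fun t j => eval (fun i => inc p (x i)) (f t j)) K (by
      rw [← hsz]
      exact hK1 x)
    rwa [← hsz] at h2
  choose w hw hwy using h1
  set G₁ : (σ → ℤ_[p]) → ℤ_[p] := fun x => ppw p (((p : ℝ)⁻¹) ^ K * sz gen x) with hG₁
  have hG₁n : ∀ x, ‖G₁ x‖ = ((p : ℝ)⁻¹) ^ K * sz gen x := fun x => norm_ppw (hK1 x)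
  have hG₁m : Measurable G₁ := ppw_meas.comp ((sz_meas gen).const_mul _)
  set G' : ((Σ t, κ t) → ℤ_[p]) × (σ → ℤ_[p]) → ℤ_[p] := fun q =>
    G₁ q.2 * ∏ t, lh (w q.2) q.1 t ^ a t with hG'
  have hrep : Rep (formK a (1 : MvPolynomial σ ℚ_[p]) f) K
      (fun z => G' (fun i => z (Sum.inl i), fun i => z (Sum.inr i))) := by
    intro z
    rw [hG', hG₁]
    dsimp only
    rw [← hwy]
    congr 1
    unfold formK
    rw [map_mul, map_one, map_one, one_mul, map_prod]
    refine Finset.prod_congr rfl fun t _ => ?_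
    rw [map_pow, map_sum]
    congr 1
    refine Finset.sum_congr rfl fun j _ => ?_
    rw [map_mul, eval_X, eval_rename]
    rfl
  have hG'c : Continuous G' := by
    rw [(inc_emb p).continuous_iff]
    have e : inc p ∘ G' = fun q => (p : ℚ_[p]) ^ K * ∏ t, (∑ j, inc p (q.1 ⟨t, j⟩) *
        eval (fun i => inc p (q.2 i)) (f t j)) ^ a t := funext fun q => (hwy q.2 q.1).symm
    rw [e]
    have c1 : ∀ (t : Fin (n + 1)) (j : κ t), Continuous (fun q : ((Σ t, κ t) → ℤ_[p]) ×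
        (σ → ℤ_[p]) => inc p (q.1 ⟨t, j⟩) * eval (fun i => inc p (q.2 i)) (f t j)) := by
      intro t j
      exact ((inc_emb p).continuous.comp ((continuous_apply (⟨t, j⟩ : Σ t, κ t)).comp
        continuous_fst)).mul ((MvPolynomial.continuous_eval _).comp (continuous_pi fun i =>
          (inc_emb p).continuous.comp ((continuous_apply i).comp continuous_snd)))
    have c2 : ∀ t : Fin (n + 1), Continuous (fun q : ((Σ t, κ t) → ℤ_[p]) ×
        (σ → ℤ_[p]) => (∑ j, inc p (q.1 ⟨t, j⟩) * eval (fun i => inc p (q.2 i)) (f t j)) ^ a t) :=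
      fun t => (continuous_finsetSum _ fun j _ => c1 t j).pow _
    exact (continuous_finsetProd _ fun t _ => c2 t).const_smul ((p : ℚ_[p]) ^ K)
  have hG'm : Measurable G' := hG'c.measurable
  refine ⟨K, _, hrep, ?_⟩
  -- the integral over `y`
  have hE : ∀ (u : ℤ_[p]) (m : ℕ), Et (Measure.pi fun _ : (Σ t, κ t) ⊕ σ => mu p)
      (fun z => G' (fun i => z (Sum.inl i), fun i => z (Sum.inr i))) u m =
      Et ((Measure.pi fun _ : σ => mu p).prod (Measure.pi fun _ : Fin (n + 1) => mu p))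
        (fun q => G₁ q.1 ^ 1 * ∏ t, q.2 t ^ a t) u m := by
    intro u m
    have e1 := Et_sumpi G' u m
    have e2 := Et_symm (Measure.pi fun _ : (Σ t, κ t) => mu p) (Measure.pi fun _ : σ => mu p) G'
      hG'm u m
    have e3 := Et_mulk (Measure.pi fun _ : σ => mu p) (Measure.pi fun _ : Fin (n + 1) => mu p)
      G₁ (fun v => ∏ t, v t ^ a t) hG₁m (prod_meas a) 1 u m
    refine e1.trans (e2.trans (Eq.trans ?_ e3.symm))
    refine integral_congr_ae (Filter.Eventually.of_forall fun x => ?_)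
    beta_reduce
    have h5 := lh_int (w x) (hw x) (fun v => ch p m (u * G₁ x ^ 1 * ∏ t, v t ^ a t))
      ((ch_meas p m).comp (measurable_const.mul (prod_meas a)))
    refine Eq.trans (integral_congr_ae (Filter.Eventually.of_forall fun y => ?_)) h5
    change ch p m (u * (G₁ x * ∏ t, lh (w x) y t ^ a t)) =
      ch p m (u * G₁ x ^ 1 * ∏ t, lh (w x) y t ^ a t)
    rw [pow_one, mul_assoc]
  -- the volumes
  have hFK : FR p M (FZ (Measure.pi fun _ : σ => mu p) fun x => ‖G₁ x‖) := by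
    have e : (fun x => ‖G₁ x‖) = fun x => ((p : ℝ)⁻¹) ^ K * sz gen x := funext hG₁n
    rw [e]
    exact (FR_scale (Measure.pi fun _ : σ => mu p) (sz gen) (sz_nonneg gen) K).2 hF
  have hVc := Vc_mem (Measure.pi fun _ : σ => mu p) (fun x => ‖G₁ x‖) hG₁m.norm
    (fun x => val_norm G₁ x) hFK
  have hA : ∀ (c : ℕ) (v : ℤ_[p]), 1 ≤ c → ‖v‖ = 1 →
      Ab (Measure.pi fun _ : σ => mu p) G₁ c v ∈ EP (Pool.Agent.Y230.PS.tr M) := by
    intro c v hc hv
    have e : Ab (Measure.pi fun _ : σ => mu p) G₁ c v = if ‖1 - v‖ ≤ ((p : ℝ)⁻¹) ^ c then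
        (Vc (Measure.pi fun _ : σ => mu p) (fun x => ‖G₁ x‖) p -
          sft (Vc (Measure.pi fun _ : σ => mu p) (fun x => ‖G₁ x‖) p)) else 0 := by
      funext N
      have hset : {x | ‖G₁ x - (p : ℤ_[p]) ^ N * v‖ ≤ ((p : ℝ)⁻¹) ^ (N + c)} =
          if ‖1 - v‖ ≤ ((p : ℝ)⁻¹) ^ c then {x | ‖G₁ x‖ ≤ ((p : ℝ)⁻¹) ^ N} \
            {x | ‖G₁ x‖ ≤ ((p : ℝ)⁻¹) ^ (N + 1)} else ∅ := by
        have hpn : ∀ x, ‖G₁ x‖ = ((p : ℝ)⁻¹) ^ N → G₁ x = (p : ℤ_[p]) ^ N * 1 := by
          intro x hx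
          rw [mul_one, ← ppw_pow, ← hx, hG₁n]
        ext x
        split_ifs with hv1
        · constructor
          · intro hx
            have h3 := norm_of_close hc hv hx
            refine ⟨h3.le, fun h4 => ?_⟩
            change ‖G₁ x‖ ≤ _ at h4
            rw [h3, pw_le_iff] at h4
            omega
          · rintro ⟨h3, h4⟩
            change ‖G₁ x‖ ≤ _ at h3
            have h4' : ¬ ‖G₁ x‖ ≤ ((p : ℝ)⁻¹) ^ (N + 1) := h4
            have h5 : ‖G₁ x‖ = ((p : ℝ)⁻¹) ^ N := by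
              rcases val_norm G₁ x with h6 | ⟨k, h6⟩
              · exfalso
                apply h4'
                rw [h6]
                exact pow_nonneg (pinv_pos p).le _
              · rw [h6, pw_le_iff] at h3 h4'
                rw [h6]
                congr 1
                omega
            change ‖G₁ x - (p : ℤ_[p]) ^ N * v‖ ≤ _
            rw [hpn x h5]
            exact close_mul.2 hv1
        · constructor
          · intro hx
            have h3 := norm_of_close hc hv hx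
            change ‖G₁ x - (p : ℤ_[p]) ^ N * v‖ ≤ _ at hx
            rw [hpn x h3] at hx
            exact absurd (close_mul.1 hx) hv1
          · intro hx
            exact absurd hx (Set.notMem_empty x)
      unfold Ab
      rw [hset]
      have hsub : {x | ‖G₁ x‖ ≤ ((p : ℝ)⁻¹) ^ (N + 1)} ⊆ {x | ‖G₁ x‖ ≤ ((p : ℝ)⁻¹) ^ N} :=
        fun x hx => le_trans hx ((pw_le_iff _ _).2 (Nat.le_succ N))
      have hms : MeasurableSet {x | ‖G₁ x‖ ≤ ((p : ℝ)⁻¹) ^ (N + 1)} :=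
        measurableSet_le hG₁m.norm measurable_const
      split_ifs with hv1
      · rw [measure_sdiff hsub hms.nullMeasurableSet (measure_ne_top _ _),
          ENNReal.toReal_sub_of_le (measure_mono hsub) (measure_ne_top _ _)]
        push_cast
        rfl
      · simp
    rw [e]
    split_ifs
    · exact (EP _).sub_mem hVc (EP_sft _ _ hVc)
    · exact (EP _).zero_mem
  have h6 := good_mulk (Measure.pi fun _ : σ => mu p) (Measure.pi fun _ : Fin (n + 1) => mu p)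
    G₁ (fun v => ∏ t, v t ^ a t) hG₁m (prod_meas a) 1 le_rfl
    (V_pow _ G₁ hG₁m hVc 1 le_rfl) hA (Phi_good n a ha 0)
  refine (h6.congr fun u _ m => (hE u m).symm).mono fun T hT => ?_
  rw [pow_one]
  refine le_trans ?_ (tr_mono H T)
  unfold Pool.Agent.Y230.PS.tr
  split_ifs with h
  · rw [zero_add]
    refine le_of_eq (Finset.sum_eq_zero fun t _ => ?_)
    split_ifs
    · rfl
    · unfold ma
      rw [if_neg]
      intro h7
      have h8 : ‖T‖ ^ a t ≤ 1 := pow_le_one₀ (norm_nonneg _) h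
      rw [← norm_pow, h7] at h8
      exact absurd (one_lt_p (p := p)) (not_lt.2 h8)
  · exact le_rfl

end rep

end Pool.Agent.T6.H26
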