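import Pool.Agent.T6.H26.FTChar
import Pool.Agent.R852.PP.PAdic
import Pool.Agent.Y230.TH.Seq
import Pool.Agent.Y230.PS.Cone

set_option autoImplicit false
set_option linter.unusedSectionVars false
set_option linter.unusedVariables false

/-! # Exponential sums with recursions -/

namespace Pool.Agent.T6.H26

open MeasureTheory Pool.Agent.W427.SMC Pool.Agent.Y230.PS Pool.Agent.Y230.TH
open scoped ENNReal Polynomial

attribute [local instance] msZ bsZ nz

variable {p : ℕ} [Fact p.Prime]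

/-- functions of a unit `u` and of `m` which depend only on `u` modulo a fixed power of `p`, and
whose series in `m` are rational with poles in `M` -/
def GoodE (p : ℕ) [Fact p.Prime] (M : ℂ → ℕ∞) (E : ℤ_[p] → ℕ → ℂ) : Prop :=
  ∃ c : ℕ, (∀ u v : ℤ_[p], ‖u‖ = 1 → ‖v‖ = 1 → ‖u - v‖ ≤ ((p : ℝ)⁻¹) ^ c → ∀ m, E u m = E v m) ∧
    ∀ u : ℤ_[p], ‖u‖ = 1 → E u ∈ EP M

/-- local constancy and bounds -/
structure LocE (p : ℕ) [Fact p.Prime] (E : ℤ_[p] → ℕ → ℂ) : Prop where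
  loc : ∀ (m : ℕ) (u v : ℤ_[p]), ‖u - v‖ ≤ ((p : ℝ)⁻¹) ^ m → E u m = E v m
  bdd : ∀ u m, ‖E u m‖ ≤ 1

theorem meas_loc (m : ℕ) (f : ℤ_[p] → ℂ)
    (h : ∀ u v : ℤ_[p], ‖u - v‖ ≤ ((p : ℝ)⁻¹) ^ m → f u = f v) : Measurable f := by
  have h1 : f = fun z => (fun w : ZMod (p ^ m) => f (w.val : ℤ_[p])) (PadicInt.toZModPow m z) := by
    funext z
    refine h _ _ ?_
    rw [le_iff_dvd, ← Ideal.mem_span_singleton, ← PadicInt.ker_toZModPow, RingHom.mem_ker, map_sub,
      map_natCast, ZMod.natCast_zmod_val, sub_self]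
  rw [h1]
  intro T hT
  have h2 : ((fun z => (fun w : ZMod (p ^ m) => f (w.val : ℤ_[p])) (PadicInt.toZModPow m z)) ⁻¹' T :
      Set ℤ_[p]) = ⋃ w ∈ {w : ZMod (p ^ m) | f (w.val : ℤ_[p]) ∈ T},
        {z : ℤ_[p] | PadicInt.toZModPow m z = w} := by
    ext z
    simp
  rw [h2]
  exact MeasurableSet.biUnion (Set.to_countable _) fun w _ => meas_res p m w

theorem unit_add (l : ℕ) (hl : 1 ≤ l) (x z : ℤ_[p]) :
    ‖x + (p : ℤ_[p]) ^ l * z‖ = 1 ↔ ‖x‖ = 1 := by
  have h0 : (p : ℤ_[p]) ∣ (p : ℤ_[p]) ^ l * z := by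
    obtain ⟨l, rfl⟩ : ∃ k, l = k + 1 := ⟨l - 1, by omega⟩
    exact ⟨(p : ℤ_[p]) ^ l * z, by rw [pow_succ]; ring⟩
  have h1 : ∀ y : ℤ_[p], ‖y‖ = 1 ↔ ¬ (p : ℤ_[p]) ∣ y := by
    intro y
    rw [← PadicInt.norm_lt_one_iff_dvd]
    constructor
    · intro h
      rw [h]
      exact lt_irrefl _
    · intro h
      exact le_antisymm (PadicInt.norm_le_one y) (not_lt.1 h)
  rw [h1, h1]
  exact not_congr (dvd_add_left h0)

/-- the part over the units, `j ≥ 1` -/
theorem unit_part (l : ℕ) (hl : 1 ≤ l) (f : ℤ_[p] → ℂ) (hf : Measurable f)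
    (hC : ∀ x, ‖f x‖ ≤ 1) :
    ∫ z, (if ‖z‖ = 1 then f z else 0) ∂(mu p) = ∑ w : ZMod (p ^ l),
      if ‖(w.val : ℤ_[p])‖ = 1 then ((p : ℂ)⁻¹) ^ l *
        ∫ z, f ((w.val : ℤ_[p]) + (p : ℤ_[p]) ^ l * z) ∂(mu p) else 0 := by
  have hm : Measurable (fun z : ℤ_[p] => if ‖z‖ = 1 then f z else 0) := by
    refine Measurable.ite ?_ hf measurable_const
    exact measurableSet_eq_fun continuous_norm.measurable measurable_const
  rw [integral_sm p l _ hm 1 (fun x => by split_ifs; exact hC x; simp)]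
  refine Finset.sum_congr rfl fun w _ => ?_
  simp only [unit_add l hl]
  split_ifs with h
  · rfl
  · simp

/-- the splitting into the multiples of `p` and the units -/
theorem split_p (f : ℤ_[p] → ℂ) (hf : Measurable f) (hC : ∀ x, ‖f x‖ ≤ 1) :
    ∫ z, f z ∂(mu p) = (p : ℂ)⁻¹ * ∫ z, f ((p : ℤ_[p]) * z) ∂(mu p) +
      ∫ z, (if ‖z‖ = 1 then f z else 0) ∂(mu p) := by
  classical
  rw [unit_part 1 le_rfl f hf hC, integral_sm p 1 f hf 1 hC,
    ← Finset.add_sum_erase Finset.univ _ (Finset.mem_univ 0),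
    ← Finset.add_sum_erase Finset.univ (fun w : ZMod (p ^ 1) =>
      if ‖(w.val : ℤ_[p])‖ = 1 then ((p : ℂ)⁻¹) ^ 1 *
        ∫ z, f ((w.val : ℤ_[p]) + (p : ℤ_[p]) ^ 1 * z) ∂(mu p) else 0) (Finset.mem_univ 0)]
  have h0 : ‖(((0 : ZMod (p ^ 1)).val : ℕ) : ℤ_[p])‖ ≠ 1 := by
    rw [ZMod.val_zero, Nat.cast_zero, norm_zero]
    exact zero_ne_one
  rw [if_neg h0, zero_add]
  congr 1
  · rw [ZMod.val_zero, Nat.cast_zero, pow_one]
    simp only [pow_one, zero_add]
  · refine Finset.sum_congr rfl fun w hw => ?_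
    rw [if_pos]
    have h1 := isUnit_res (p := p) w (Finset.ne_of_mem_erase hw) 0
    rw [mul_zero, add_zero, PadicInt.isUnit_iff] at h1
    exact h1

/-- **The average over the units.** -/
theorem GoodE.avg {M : ℂ → ℕ∞} {E : ℤ_[p] → ℕ → ℂ} (hL : LocE p E) (hE : GoodE p M E) (a : ℕ) :
    GoodE p M (fun u m => ∫ z, (if ‖z‖ = 1 then E (u * z ^ a) m else 0) ∂(mu p)) := by
  obtain ⟨c, hc, hEP⟩ := hE
  have key : ∀ u v : ℤ_[p], ‖u‖ = 1 → ‖v‖ = 1 → ‖u - v‖ ≤ ((p : ℝ)⁻¹) ^ c → ∀ z : ℤ_[p],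
      ‖z‖ = 1 → ∀ m, E (u * z ^ a) m = E (v * z ^ a) m := by
    intro u v hu hv huv z hz m
    refine hc _ _ (by rw [norm_mul, norm_pow, hu, hz, one_pow, one_mul])
      (by rw [norm_mul, norm_pow, hv, hz, one_pow, one_mul]) ?_ m
    rw [← sub_mul, norm_mul, norm_pow, hz, one_pow, mul_one]
    exact huv
  refine ⟨c, fun u v hu hv huv m => ?_, fun u hu => ?_⟩
  · refine integral_congr_ae (Filter.Eventually.of_forall fun z => ?_)
    beta_reduce
    split_ifs with hz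
    · exact key u v hu hv huv z hz m
    · rfl
  · have h1 : (fun m => ∫ z, (if ‖z‖ = 1 then E (u * z ^ a) m else 0) ∂(mu p)) =
        ∑ w : ZMod (p ^ (c + 1)), if ‖(w.val : ℤ_[p])‖ = 1 then
          (((p : ℂ)⁻¹) ^ (c + 1)) • E (u * (w.val : ℤ_[p]) ^ a) else 0 := by
      funext m
      have hm : Measurable (fun z : ℤ_[p] => E (u * z ^ a) m) := by
        refine meas_loc m _ fun x y hxy => hL.loc m _ _ ?_
        rw [← mul_sub, norm_mul, hu, one_mul]
        obtain ⟨k, hk⟩ := sub_dvd_pow_sub_pow x y a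
        rw [hk, norm_mul]
        calc ‖x - y‖ * ‖k‖ ≤ ‖x - y‖ * 1 :=
              mul_le_mul_of_nonneg_left (PadicInt.norm_le_one k) (norm_nonneg _)
          _ ≤ _ := by rw [mul_one]; exact hxy
      rw [unit_part (c + 1) (by omega) (fun z => E (u * z ^ a) m) hm (fun x => hL.bdd _ _),
        Finset.sum_apply]
      refine Finset.sum_congr rfl fun w _ => ?_
      split_ifs with hw
      · rw [Pi.smul_apply, smul_eq_mul]
        congr 1
        have h2 : ∀ z : ℤ_[p], E (u * ((w.val : ℤ_[p]) + (p : ℤ_[p]) ^ (c + 1) * z) ^ a) m =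
            E (u * (w.val : ℤ_[p]) ^ a) m := by
          intro z
          have h3 := (unit_add (p := p) (c + 1) (by omega) (w.val : ℤ_[p]) z).2 hw
          refine hc _ _ (by rw [norm_mul, norm_pow, hu, h3, one_pow, one_mul])
            (by rw [norm_mul, norm_pow, hu, hw, one_pow, one_mul]) ?_ m
          rw [← mul_sub, norm_mul, hu, one_mul]
          obtain ⟨k, hk⟩ := sub_dvd_pow_sub_pow ((w.val : ℤ_[p]) + (p : ℤ_[p]) ^ (c + 1) * z)
            (w.val : ℤ_[p]) a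
          rw [hk, add_sub_cancel_left, norm_mul, norm_mul, norm_p_pow]
          have h4 : ‖z‖ * ‖k‖ ≤ 1 := mul_le_one₀ (PadicInt.norm_le_one z) (norm_nonneg _)
            (PadicInt.norm_le_one k)
          have h5 : ((p : ℝ)⁻¹) ^ (c + 1) ≤ ((p : ℝ)⁻¹) ^ c := by
            refine pow_le_pow_of_le_one (pinv_pos p).le ?_ (Nat.le_succ c)
            exact inv_le_one_of_one_le₀ (by exact_mod_cast (Fact.out : p.Prime).one_le)
          calc ((p : ℝ)⁻¹) ^ (c + 1) * ‖z‖ * ‖k‖ = ((p : ℝ)⁻¹) ^ (c + 1) * (‖z‖ * ‖k‖) := by ring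
            _ ≤ ((p : ℝ)⁻¹) ^ (c + 1) * 1 :=
                mul_le_mul_of_nonneg_left h4 (pow_nonneg (pinv_pos p).le _)
            _ ≤ _ := by rw [mul_one]; exact h5
        simp only [h2]
        rw [integral_const]
        simp
      · rfl
    beta_reduce
    rw [h1]
    refine (EP M).sum_mem fun w _ => ?_
    split_ifs with hw
    · exact (EP M).smul_mem _ (hEP _ (by rw [norm_mul, norm_pow, hu, hw, one_pow, one_mul]))
    · exact (EP M).zero_mem

/-- the pole `T ^ a = p` -/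
noncomputable def ma (p a : ℕ) (T : ℂ) : ℕ∞ := open Classical in if T ^ a = (p : ℂ) then 1 else 0

theorem mult_Xa (a : ℕ) (ha : 1 ≤ a) :
    (Polynomial.X ^ a - Polynomial.C (p : ℂ) : ℂ[X]) ≠ 0 ∧ ∀ T : ℂ, T ≠ 0 →
      (((Polynomial.X ^ a - Polynomial.C (p : ℂ) : ℂ[X]).rootMultiplicity T : ℕ) : ℕ∞) ≤
        ma p a T := by
  classical
  have hp1 : (p : ℂ) ≠ 1 := by exact_mod_cast (Fact.out : p.Prime).one_lt.ne'
  set D : ℂ[X] := Polynomial.X ^ a - Polynomial.C (p : ℂ) with hD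
  have hD0 : D ≠ 0 := by
    intro h0
    have h1 := congrArg (fun P : ℂ[X] => P.eval 1) h0
    simp only [hD, Polynomial.eval_sub, Polynomial.eval_pow, Polynomial.eval_X, one_pow,
      Polynomial.eval_C, Polynomial.eval_zero] at h1
    exact hp1 (sub_eq_zero.1 h1).symm
  refine ⟨hD0, fun T hT => ?_⟩
  unfold ma
  split_ifs with hTp
  · have h2 : ¬ 1 < D.rootMultiplicity T := by
      rw [Polynomial.one_lt_rootMultiplicity_iff_isRoot hD0]
      rintro ⟨-, h2⟩
      rw [Polynomial.IsRoot.def, hD] at h2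
      simp only [Polynomial.derivative_sub, Polynomial.derivative_X_pow,
        Polynomial.derivative_C, sub_zero, Polynomial.eval_mul, Polynomial.eval_C,
        Polynomial.eval_pow, Polynomial.eval_X] at h2
      rcases mul_eq_zero.1 h2 with h3 | h3
      · have : a = 0 := by exact_mod_cast h3
        omega
      · exact pow_ne_zero _ hT h3
    exact_mod_cast not_lt.1 h2
  · have h1 : D.rootMultiplicity T = 0 := by
      apply Polynomial.rootMultiplicity_eq_zero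
      rw [Polynomial.IsRoot, hD]
      simp only [Polynomial.eval_sub, Polynomial.eval_C, Polynomial.eval_X,
        Polynomial.eval_pow]
      exact fun h => hTp (sub_eq_zero.1 h)
    rw [h1]
    simp

/-- a recursion of step `a` -/
theorem EP_rec (M : ℂ → ℕ∞) (a : ℕ) (ha : 1 ≤ a) (c d : ℕ → ℂ) (hd : d ∈ EP M)
    (h : ∀ m, c m = (p : ℂ)⁻¹ * (if m < a then 1 else c (m - a)) + d m) :
    c ∈ EP (fun T => M T + ma p a T) := by
  classical
  have hp0 : (p : ℂ) ≠ 0 := by exact_mod_cast (Fact.out : p.Prime).ne_zero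
  obtain ⟨D, P, hD, h1, h2⟩ := EP_rat M d hd
  obtain ⟨h3, h4⟩ := mult_Xa (p := p) a ha
  set R : ℂ[X] := ∑ i ∈ Finset.range a, Polynomial.X ^ i with hR
  have h5 : (((Polynomial.X ^ a - Polynomial.C (p : ℂ) : ℂ[X]) : PowerSeries ℂ)) * ser c =
      ((-R : ℂ[X]) : PowerSeries ℂ) - PowerSeries.C (p : ℂ) * ser d := by
    ext m
    rw [Polynomial.coe_sub, Polynomial.coe_pow, Polynomial.coe_X, Polynomial.coe_C, sub_mul,
      map_sub, map_sub, PowerSeries.coeff_C_mul, PowerSeries.coeff_C_mul, coeff_ser, coeff_ser,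
      Polynomial.coeff_coe, Polynomial.coeff_neg, PowerSeries.coeff_X_pow_mul', coeff_ser, h m, hR,
      Polynomial.finsetSum_coeff]
    simp only [Polynomial.coeff_X_pow]
    by_cases hm : m < a
    · rw [if_pos hm, if_neg (by omega), Finset.sum_ite_eq, if_pos (Finset.mem_range.2 hm)]
      field_simp
      ring
    · rw [if_neg hm, if_pos (by omega), Finset.sum_ite_eq, if_neg (by simpa using hm)]
      field_simp
      ring
  refine rat_EP _ (D * (Polynomial.X ^ a - Polynomial.C (p : ℂ))) (mul_ne_zero hD h3) c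
    (-(D * R) - Polynomial.C (p : ℂ) * P) ?_ fun T hT => ?_
  · rw [Polynomial.coe_mul, mul_assoc, h5, mul_sub, mul_left_comm, h1]
    rw [Polynomial.coe_sub, Polynomial.coe_neg, Polynomial.coe_neg, Polynomial.coe_mul,
      Polynomial.coe_mul, Polynomial.coe_C]
    ring
  · rw [Polynomial.rootMultiplicity_mul (mul_ne_zero hD h3)]
    push_cast
    exact add_le_add (h2 T hT) (h4 T hT)

/-- a recursion of step `a` -/
theorem GoodE.rec {M : ℂ → ℕ∞} {E D : ℤ_[p] → ℕ → ℂ} (hD : GoodE p M D) (a : ℕ) (ha : 1 ≤ a)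
    (h : ∀ u, ‖u‖ = 1 → ∀ m, E u m = (p : ℂ)⁻¹ * (if m < a then 1 else E u (m - a)) + D u m) :
    GoodE p (fun T => M T + ma p a T) E := by
  obtain ⟨c, hc, hEP⟩ := hD
  refine ⟨c, fun u v hu hv huv m => ?_, fun u hu => EP_rec M a ha (E u) (D u) (hEP u hu) (h u hu)⟩
  induction m using Nat.strong_induction_on with
  | _ m ih =>
    rw [h u hu, h v hv, hc u v hu hv huv m]
    congr 2
    split_ifs with hm
    · rfl
    · exact ih (m - a) (by omega)

end Pool.Agent.T6.H26
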