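import Pool.Agent.T6.H26.FTGood

set_option autoImplicit false
set_option linter.unusedSectionVars false
set_option linter.unusedVariables false

/-! # The exponential sums of monomials -/

namespace Pool.Agent.T6.H26

open MeasureTheory Pool.Agent.W427.SMC Pool.Agent.Y230.PS Pool.Agent.Y230.TH
open scoped ENNReal Polynomial

attribute [local instance] msZ bsZ nz

variable {p : ℕ} [Fact p.Prime]

section gen

variable {Ω : Type} [MeasurableSpace Ω] (μ : Measure Ω) [IsProbabilityMeasure μ] (G : Ω → ℤ_[p])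

/-- the exponential sums of a function with values in `ℤ_p` -/
noncomputable def Et (u : ℤ_[p]) (m : ℕ) : ℂ := ∫ x, ch p m (u * G x) ∂μ

theorem mul_meas (u : ℤ_[p]) (hG : Measurable G) : Measurable (fun x => u * G x) :=
  (continuous_const.mul continuous_id).measurable.comp hG

theorem Et_loc : LocE p (Et μ G) where
  loc m u v h := by
    unfold Et
    refine integral_congr_ae (Filter.Eventually.of_forall fun x => ch_congr p m _ _ ?_)
    rw [← sub_mul, norm_mul]
    calc ‖u - v‖ * ‖G x‖ ≤ ‖u - v‖ * 1 :=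
          mul_le_mul_of_nonneg_left (PadicInt.norm_le_one _) (norm_nonneg _)
      _ ≤ _ := by rw [mul_one]; exact h
  bdd u m := by
    unfold Et
    have h := norm_integral_le_of_norm_le_const (μ := μ) (f := fun x => ch p m (u * G x)) (C := 1)
      (Filter.Eventually.of_forall fun x => (norm_ch p m _).le)
    simpa using h

theorem Et_pmul (k : ℕ) (u : ℤ_[p]) (m : ℕ) :
    Et μ G ((p : ℤ_[p]) ^ k * u) m = if m < k then 1 else Et μ G u (m - k) := by
  unfold Et
  split_ifs with h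
  · have h1 : ∀ x, ch p m ((p : ℤ_[p]) ^ k * u * G x) = 1 := by
      intro x
      rw [ch_one_iff, le_iff_dvd]
      obtain ⟨j, rfl⟩ : ∃ j, k = m + j := ⟨k - m, by omega⟩
      exact ⟨(p : ℤ_[p]) ^ j * u * G x, by rw [pow_add]; ring⟩
    simp only [h1]
    rw [integral_const]
    simp
  · obtain ⟨j, rfl⟩ : ∃ j, m = j + k := ⟨m - k, by omega⟩
    refine integral_congr_ae (Filter.Eventually.of_forall fun x => ?_)
    beta_reduce
    rw [mul_assoc, ch_pow, Nat.add_sub_cancel]

end gen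

section base

theorem exists_val (z : ℤ_[p]) (hz : z ≠ 0) : ∃ v : ℕ, ‖z‖ = ((p : ℝ)⁻¹) ^ v := by
  refine ⟨z.valuation, ?_⟩
  rw [PadicInt.norm_eq_zpow_neg_valuation hz, zpow_neg, zpow_natCast, inv_pow]

theorem pinv_lt : (p : ℝ)⁻¹ < 1 :=
  inv_lt_one_of_one_lt₀ (by exact_mod_cast (Fact.out : p.Prime).one_lt)

theorem pw_le_iff (i j : ℕ) : ((p : ℝ)⁻¹) ^ i ≤ ((p : ℝ)⁻¹) ^ j ↔ j ≤ i :=
  pow_le_pow_iff_right_of_lt_one₀ (pinv_pos p) pinv_lt

/-- the units, one variable -/
theorem base_zero (a v m : ℕ) (ha : 1 ≤ a) (hv : ‖(a : ℤ_[p])‖ = ((p : ℝ)⁻¹) ^ v)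
    (hm : 2 * v + 2 ≤ m) (u : ℤ_[p]) (hu : ‖u‖ = 1) :
    ∫ z, (if ‖z‖ = 1 then ch p m (u * z ^ a) else 0) ∂(mu p) = 0 := by
  set j := (m + 1) / 2 with hj
  have hj1 : 1 ≤ j := by omega
  have hj2 : m ≤ 2 * j := by omega
  have hj3 : v + j < m := by omega
  rw [unit_part j hj1 (fun z => ch p m (u * z ^ a))
    ((ch_meas p m).comp (continuous_const.mul (continuous_id.pow a)).measurable)
    (fun x => (norm_ch p m _).le)]
  refine Finset.sum_eq_zero fun w _ => ?_
  split_ifs with hw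
  · have h1 : ∀ z : ℤ_[p], ch p m (u * ((w.val : ℤ_[p]) + (p : ℤ_[p]) ^ j * z) ^ a) =
        ch p m (u * (w.val : ℤ_[p]) ^ a) *
          ch p m (z * (u * ((a : ℤ_[p]) * (w.val : ℤ_[p]) ^ (a - 1)) * (p : ℤ_[p]) ^ j)) := by
      intro z
      obtain ⟨k, hk⟩ := Polynomial.powAddExpansion (w.val : ℤ_[p]) ((p : ℤ_[p]) ^ j * z) a
      rw [← ch_add]
      refine ch_congr p m _ _ ?_
      rw [le_iff_dvd, hk]
      obtain ⟨i, hi⟩ : ∃ i, 2 * j = m + i := ⟨2 * j - m, by omega⟩
      refine ⟨u * k * ((p : ℤ_[p]) ^ i * z ^ 2), ?_⟩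
      have h2 : ((p : ℤ_[p]) ^ j * z) ^ 2 = (p : ℤ_[p]) ^ m * (p : ℤ_[p]) ^ i * z ^ 2 := by
        rw [mul_pow, ← pow_mul, mul_comm j 2, hi, pow_add]
      rw [h2]
      ring
    simp only [h1]
    rw [integral_const_mul, ch_int, if_neg, mul_zero, mul_zero]
    rw [norm_mul, norm_mul, norm_mul, norm_pow, hu, hv, hw, one_pow, mul_one, one_mul, norm_p_pow,
      ← pow_add, pw_le_iff]
    omega
  · rfl

theorem base_good (a : ℕ) (ha : 1 ≤ a) : GoodE p (fun _ => 0)
    (fun u m => ∫ z, (if ‖z‖ = 1 then ch p m (u * z ^ a) else 0) ∂(mu p)) := by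
  obtain ⟨v, hv⟩ := exists_val (p := p) (a : ℤ_[p]) (by
    exact_mod_cast (show a ≠ 0 by omega))
  refine ⟨2 * v + 2, fun u w hu hw huw m => ?_, fun u hu => ?_⟩
  · beta_reduce
    by_cases hm : 2 * v + 2 ≤ m
    · rw [base_zero a v m ha hv hm u hu, base_zero a v m ha hv hm w hw]
    · refine integral_congr_ae (Filter.Eventually.of_forall fun z => ?_)
      beta_reduce
      split_ifs with hz
      · refine ch_congr p m _ _ ?_
        rw [← sub_mul, norm_mul, norm_pow, hz, one_pow, mul_one]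
        refine huw.trans ?_
        rw [pw_le_iff]
        omega
      · rfl
  · exact N0_EP _ ⟨2 * v + 2, fun m hm => base_zero a v m ha hv hm u hu⟩

end base

/-- the exponential sums of a monomial -/
noncomputable def Phi {n : ℕ} (a : Fin n → ℕ) : ℤ_[p] → ℕ → ℂ :=
  Et (Measure.pi fun _ : Fin n => mu p) (fun w => ∏ t, w t ^ a t)

theorem prod_meas {n : ℕ} (a : Fin n → ℕ) : Measurable (fun w : Fin n → ℤ_[p] => ∏ t, w t ^ a t) :=
  (continuous_finsetProd _ fun t _ => (continuous_apply t).pow _).measurable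

theorem Phi_loc {n : ℕ} (a : Fin n → ℕ) : LocE p (Phi a) := Et_loc _ _

/-- one variable after the others -/
theorem Phi_succ {n : ℕ} (a : Fin (n + 1) → ℕ) (i : Fin (n + 1)) (u : ℤ_[p]) (m : ℕ) :
    Phi a u m = ∫ z, Phi (fun j => a (i.succAbove j)) (u * z ^ a i) m ∂(mu p) := by
  unfold Phi Et
  have hmp := measurePreserving_piFinSuccAbove (fun _ : Fin (n + 1) => mu p) i
  have h1 : ∀ w : Fin (n + 1) → ℤ_[p], ch p m (u * ∏ t, w t ^ a t) =
      (fun q : ℤ_[p] × (Fin n → ℤ_[p]) => ch p m (u * q.1 ^ a i *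
        ∏ j, q.2 j ^ a (i.succAbove j))) (MeasurableEquiv.piFinSuccAbove (fun _ => ℤ_[p]) i w) := by
    intro w
    rw [Fin.prod_univ_succAbove _ i, ← mul_assoc]
    rfl
  simp only [h1]
  rw [hmp.integral_comp' (fun q : ℤ_[p] × (Fin n → ℤ_[p]) => ch p m (u * q.1 ^ a i *
        ∏ j, q.2 j ^ a (i.succAbove j))), integral_prod]
  refine bdd_int _ _ ?_ 1 fun x => (norm_ch p m _).le
  refine (ch_meas p m).comp ?_
  refine Continuous.measurable ?_
  refine (continuous_const.mul (continuous_fst.pow _)).mul (continuous_finsetProd _ fun t _ => ?_)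
  exact ((continuous_apply t).comp continuous_snd).pow _

theorem Phi_rec {n : ℕ} (a : Fin (n + 1) → ℕ) (i : Fin (n + 1)) (u : ℤ_[p]) (m : ℕ) :
    Phi a u m = (p : ℂ)⁻¹ * (if m < a i then 1 else Phi a u (m - a i)) +
      ∫ z, (if ‖z‖ = 1 then Phi (fun j => a (i.succAbove j)) (u * z ^ a i) m else 0) ∂(mu p) := by
  have hL := Phi_loc (p := p) (fun j => a (i.succAbove j))
  rw [Phi_succ a i u m, split_p _ ?_ (fun x => hL.bdd _ _)]
  · congr 2
    have h1 : ∀ z : ℤ_[p], Phi (fun j => a (i.succAbove j)) (u * ((p : ℤ_[p]) * z) ^ a i) m =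
        if m < a i then 1 else Phi (fun j => a (i.succAbove j)) (u * z ^ a i) (m - a i) := by
      intro z
      have h2 : u * ((p : ℤ_[p]) * z) ^ a i = (p : ℤ_[p]) ^ a i * (u * z ^ a i) := by
        rw [mul_pow]
        ring
      rw [h2]
      exact Et_pmul _ _ _ _ _
    simp only [h1]
    split_ifs with h
    · rw [integral_const]
      simp
    · rw [← Phi_succ]
  · refine meas_loc m _ fun x y hxy => hL.loc m _ _ ?_
    rw [← mul_sub, norm_mul]
    obtain ⟨k, hk⟩ := sub_dvd_pow_sub_pow x y (a i)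
    rw [hk, norm_mul]
    have h4 : ‖u‖ * ‖k‖ ≤ 1 := mul_le_one₀ (PadicInt.norm_le_one u) (norm_nonneg _)
      (PadicInt.norm_le_one k)
    calc ‖u‖ * (‖x - y‖ * ‖k‖) = ‖x - y‖ * (‖u‖ * ‖k‖) := by ring
      _ ≤ ‖x - y‖ * 1 := mul_le_mul_of_nonneg_left h4 (norm_nonneg _)
      _ ≤ _ := by rw [mul_one]; exact hxy

theorem GoodE.congr {M : ℂ → ℕ∞} {E F : ℤ_[p] → ℕ → ℂ} (h : GoodE p M E)
    (he : ∀ u, ‖u‖ = 1 → ∀ m, E u m = F u m) : GoodE p M F := by
  obtain ⟨c, h1, h2⟩ := h
  refine ⟨c, fun u v hu hv huv m => ?_, fun u hu => ?_⟩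
  · rw [← he u hu, ← he v hv]
    exact h1 u v hu hv huv m
  · have : E u = F u := funext fun m => he u hu m
    rw [← this]
    exact h2 u hu

theorem GoodE.mono {M M' : ℂ → ℕ∞} {E : ℤ_[p] → ℕ → ℂ} (h : GoodE p M E)
    (hM : ∀ T, T ≠ 0 → M T ≤ M' T) : GoodE p M' E := by
  obtain ⟨c, h1, h2⟩ := h
  exact ⟨c, h1, fun u hu => EP_mono hM (h2 u hu)⟩

/-- **The exponential sums of monomials.** -/
theorem Phi_good : ∀ (n : ℕ) (a : Fin (n + 1) → ℕ) (_ : ∀ t, 1 ≤ a t) (i0 : Fin (n + 1)),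
    GoodE p (fun T => ∑ t, if t = i0 ∧ a t = 1 then 0 else ma p (a t) T) (Phi a) := by
  intro n
  induction n with
  | zero =>
    intro a ha i0
    have hone : ∀ (u : ℤ_[p]) (m : ℕ) (z : ℤ_[p]),
        Phi (p := p) (fun j => a ((0 : Fin 1).succAbove j)) (u * z ^ a 0) m =
          ch p m (u * z ^ a 0) := by
      intro u m z
      unfold Phi Et
      simp
    by_cases h1 : a 0 = 1
    · have h2 : ∀ T, (∑ t : Fin 1, if t = i0 ∧ a t = 1 then 0 else ma p (a t) T) = 0 := by
        intro T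
        rw [Fin.sum_univ_one, if_pos ⟨Subsingleton.elim _ _, h1⟩]
      simp only [h2]
      refine ⟨0, fun u v hu hv _ m => ?_, fun u hu => ?_⟩
      · rw [Phi_succ a 0 u, Phi_succ a 0 v]
        simp only [hone]
        simp only [h1, pow_one]
        have h3 : ∀ x : ℤ_[p], ‖x‖ = 1 → ∫ z, ch p m (x * z) ∂(mu p) =
            if 1 ≤ ((p : ℝ)⁻¹) ^ m then 1 else 0 := by
          intro x hx
          have := ch_int p m x
          rw [hx] at this
          simp only [mul_comm _ x] at this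
          exact this
        rw [h3 u hu, h3 v hv]
      · refine N0_EP _ ⟨1, fun m hm => ?_⟩
        rw [Phi_succ a 0]
        simp only [hone]
        simp only [h1, pow_one]
        have h3 := ch_int p m u
        rw [hu] at h3
        simp only [mul_comm _ u] at h3
        rw [h3, if_neg]
        have h4 := (pw_le_iff (p := p) 0 m)
        rw [pow_zero] at h4
        rw [h4]
        omega
    · have h2 : ∀ T, (∑ t : Fin 1, if t = i0 ∧ a t = 1 then 0 else ma p (a t) T) =
          0 + ma p (a 0) T := by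
        intro T
        rw [Fin.sum_univ_one, if_neg (fun h => h1 h.2), zero_add]
      simp only [h2]
      refine GoodE.rec (base_good (p := p) (a 0) (ha 0)) (a 0) (ha 0) fun u hu m => ?_
      rw [Phi_rec a 0 u m]
      simp only [hone]
  | succ n ih =>
    intro a ha i0
    obtain ⟨i, hi⟩ : ∃ i : Fin (n + 1 + 1), i ≠ i0 := exists_ne i0
    obtain ⟨j0, hj0⟩ := Fin.exists_succAbove_eq (Ne.symm hi)
    have h1 := ih (fun j => a (i.succAbove j)) (fun j => ha _) j0
    have h2 := GoodE.avg (Phi_loc (p := p) (fun j => a (i.succAbove j))) h1 (a i)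
    have h3 := GoodE.rec h2 (E := Phi a) (a i) (ha i) fun u hu m => Phi_rec a i u m
    refine h3.mono fun T _ => le_of_eq ?_
    rw [Fin.sum_univ_succAbove _ i, if_neg (fun h => hi h.1), add_comm]
    congr 1
    refine Finset.sum_congr rfl fun j _ => ?_
    have h4 : (i.succAbove j = i0) ↔ j = j0 := by
      rw [← hj0]
      exact Fin.succAbove_right_inj
    simp only [h4]

end Pool.Agent.T6.H26
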