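import Pool.Agent.T6.H26.FTSeq
import Pool.Agent.T6.H26.FTPhi

set_option autoImplicit false
set_option linter.unusedSectionVars false
set_option linter.unusedVariables false

/-! # The laws of the values; products and powers -/

namespace Pool.Agent.T6.H26

open MeasureTheory Pool.Agent.W427.SMC Pool.Agent.Y230.PS Pool.Agent.Y230.TH
open scoped ENNReal Polynomial

attribute [local instance] msZ bsZ nz

variable {p : ℕ} [Fact p.Prime]

/-- **Integrals over the units with a locally constant weight.** -/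
theorem GoodE.wt {M : ℂ → ℕ∞} {E : ℤ_[p] → ℕ → ℂ} (hL : LocE p E) (hE : GoodE p M E) (l : ℕ)
    (χ : ℤ_[p] → ℂ) (hχ : ∀ x y, ‖x - y‖ ≤ ((p : ℝ)⁻¹) ^ l → χ x = χ y) (hχ1 : ∀ x, ‖χ x‖ ≤ 1) :
    (fun m => ∫ z, (if ‖z‖ = 1 then χ z * E z m else 0) ∂(mu p)) ∈ EP M := by
  obtain ⟨c, hc, hEP⟩ := hE
  set L := max c l + 1 with hL'
  have hcL : c ≤ L := by omega
  have hlL : l ≤ L := by omega
  have h1 : (fun m => ∫ z, (if ‖z‖ = 1 then χ z * E z m else 0) ∂(mu p)) =
      ∑ w : ZMod (p ^ L), if ‖(w.val : ℤ_[p])‖ = 1 then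
        (((p : ℂ)⁻¹) ^ L * χ (w.val : ℤ_[p])) • E (w.val : ℤ_[p]) else 0 := by
    funext m
    have hm : Measurable (fun z : ℤ_[p] => χ z * E z m) :=
      (meas_loc l χ hχ).mul (meas_loc m _ fun x y hxy => hL.loc m _ _ hxy)
    rw [unit_part L (by omega) (fun z => χ z * E z m) hm (fun x => by
      rw [norm_mul]
      exact mul_le_one₀ (hχ1 x) (norm_nonneg _) (hL.bdd x m)), Finset.sum_apply]
    refine Finset.sum_congr rfl fun w _ => ?_
    split_ifs with hw
    · rw [Pi.smul_apply, smul_eq_mul, mul_assoc]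
      congr 1
      have h2 : ∀ z : ℤ_[p], χ ((w.val : ℤ_[p]) + (p : ℤ_[p]) ^ L * z) *
          E ((w.val : ℤ_[p]) + (p : ℤ_[p]) ^ L * z) m = χ (w.val : ℤ_[p]) *
            E (w.val : ℤ_[p]) m := by
        intro z
        have h3 := (unit_add (p := p) L (by omega) (w.val : ℤ_[p]) z).2 hw
        have h4 : ‖(w.val : ℤ_[p]) + (p : ℤ_[p]) ^ L * z - (w.val : ℤ_[p])‖ ≤
            ((p : ℝ)⁻¹) ^ L := by
          rw [add_sub_cancel_left, norm_mul, norm_p_pow]
          exact mul_le_of_le_one_right (pow_nonneg (pinv_pos p).le _) (PadicInt.norm_le_one z)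
        rw [hχ _ _ (h4.trans ((pw_le_iff L l).2 hlL)),
          hc _ _ h3 hw (h4.trans ((pw_le_iff L c).2 hcL))]
      simp only [h2]
      rw [integral_const]
      simp
    · rfl
  rw [h1]
  refine (EP M).sum_mem fun w _ => ?_
  split_ifs with hw
  · exact (EP M).smul_mem _ (hEP _ hw)
  · exact (EP M).zero_mem

theorem int_ite {Ω : Type} [MeasurableSpace Ω] (μ : Measure Ω) [IsFiniteMeasure μ] (P : Ω → Prop)
    [DecidablePred P] (hP : MeasurableSet {x | P x}) :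
    ∫ x, (if P x then (1 : ℂ) else 0) ∂μ = ((μ {x | P x}).toReal : ℂ) := by
  classical
  have h : (fun x => if P x then (1 : ℂ) else 0) = Set.indicator {x | P x} (fun _ => (1 : ℂ)) := by
    funext x
    by_cases h : P x
    · rw [if_pos h, Set.indicator_of_mem (by exact h)]
    · rw [if_neg h, Set.indicator_of_notMem (by exact h)]
  rw [h, integral_indicator_const _ hP, measureReal_def]
  simp

theorem EP_sftk {M : ℂ → ℕ∞} {c : ℕ → ℂ} (hc : c ∈ EP M) (k : ℕ) : (fun n => c (n + k)) ∈ EP M := by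
  induction k with
  | zero => exact hc
  | succ k ih =>
    have h := EP_sft _ _ ih
    have e : sft (fun n => c (n + k)) = fun n => c (n + (k + 1)) := by
      funext n
      rw [sft_apply]
      congr 1
      omega
    rwa [e] at h

section gen

variable {Ω : Type} [MeasurableSpace Ω] (μ : Measure Ω) [IsProbabilityMeasure μ] (G : Ω → ℤ_[p])

/-- the inversion formula -/
theorem four (hG : Measurable G) (n : ℕ) (z0 : ℤ_[p]) :
    ∫ t, ch p n (-(t * z0)) * Et μ G t n ∂(mu p) =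
      ((μ {x | ‖G x - z0‖ ≤ ((p : ℝ)⁻¹) ^ n}).toReal : ℂ) := by
  have h1 : ∀ t, ch p n (-(t * z0)) * Et μ G t n = ∫ x, ch p n (t * (G x - z0)) ∂μ := by
    intro t
    unfold Et
    rw [← integral_const_mul]
    refine integral_congr_ae (Filter.Eventually.of_forall fun x => ?_)
    beta_reduce
    rw [← ch_add]
    congr 1
    ring
  simp only [h1]
  rw [integral_integral_swap]
  · simp only [ch_int]
    exact int_ite μ _ (measurableSet_le ((hG.sub_const z0).norm) measurable_const)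
  · refine bdd_int _ _ ?_ 1 fun x => (norm_ch p n _).le
    refine (ch_meas p n).comp ?_
    exact measurable_fst.mul ((hG.comp measurable_snd).sub_const z0)

theorem ch_neg_zero (n : ℕ) (t : ℤ_[p]) : ch p n (-(t * 0)) = 1 := by
  rw [mul_zero, neg_zero, ch_zero]

theorem Et_meas (m : ℕ) : Measurable (fun t => Et μ G t m) :=
  meas_loc m _ fun x y h => (Et_loc μ G).loc m x y h

theorem Et_p1 (t : ℤ_[p]) (m : ℕ) : Et μ G ((p : ℤ_[p]) * t) (m + 1) = Et μ G t m := by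
  have h := Et_pmul μ G 1 t (m + 1)
  rw [pow_one, if_neg (by omega), Nat.add_sub_cancel] at h
  exact h

theorem V_eq (hG : Measurable G) (n : ℕ) :
    Vc μ (fun x => ‖G x‖) p n = ∫ t, Et μ G t n ∂(mu p) := by
  have h := four μ G hG n 0
  simp only [ch_neg_zero, one_mul, sub_zero] at h
  rw [h]
  rfl

theorem V_mem (hG : Measurable G) {M : ℂ → ℕ∞} (h : GoodE p M (Et μ G)) :
    Vc μ (fun x => ‖G x‖) p ∈ EP (fun T => M T + (dp p T : ℕ)) := by
  have hp0 : (p : ℂ) ≠ 0 := by exact_mod_cast (Fact.out : p.Prime).ne_zero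
  have h1 : op (p : ℂ)⁻¹ (Vc μ (fun x => ‖G x‖) p) =
      sft (fun m => ∫ z, (if ‖z‖ = 1 then (1 : ℂ) * Et μ G z m else 0) ∂(mu p)) := by
    funext n
    rw [op_apply, sft_apply, V_eq μ G hG, V_eq μ G hG,
      split_p _ (Et_meas μ G (n + 1)) (fun x => (Et_loc μ G).bdd x _)]
    simp only [Et_p1, one_mul]
    ring
  have h2 := GoodE.wt (Et_loc μ G) h 0 (fun _ => 1) (fun _ _ _ => rfl) (fun _ => by simp)
  have h3 : op (p : ℂ)⁻¹ (Vc μ (fun x => ‖G x‖) p) ∈ EP M := by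
    rw [h1]
    exact EP_sft _ _ h2
  refine EP_mono (fun T hT => ?_) (EP_of_op _ _ hp0 _ h3)
  rw [dp_eq]
  split_ifs <;> simp

/-- the measure of the preimage of `p ^ N (w + p ^ c ℤ_p)` -/
noncomputable def Ab (c : ℕ) (w : ℤ_[p]) (N : ℕ) : ℂ :=
  ((μ {x | ‖G x - (p : ℤ_[p]) ^ N * w‖ ≤ ((p : ℝ)⁻¹) ^ (N + c)}).toReal : ℂ)

theorem Ab_eq (hG : Measurable G) (c : ℕ) (w : ℤ_[p]) (N : ℕ) :
    Ab μ G c w N = ∫ t, ch p c (-(t * w)) * Et μ G t (N + c) ∂(mu p) := by
  unfold Ab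
  rw [← four μ G hG (N + c) ((p : ℤ_[p]) ^ N * w)]
  refine integral_congr_ae (Filter.Eventually.of_forall fun t => ?_)
  beta_reduce
  congr 1
  rw [← ch_pow p c N (-(t * w)), add_comm c N]
  congr 1
  ring

theorem Ab_mem (hG : Measurable G) {M M' : ℂ → ℕ∞} (h : GoodE p M (Et μ G)) (hM : M ≤ M')
    (hV : Vc μ (fun x => ‖G x‖) p ∈ EP M') (w : ℤ_[p]) (c : ℕ) : Ab μ G c w ∈ EP M' := by
  induction c with
  | zero =>
    have e : Ab μ G 0 w = Vc μ (fun x => ‖G x‖) p := by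
      funext N
      rw [Ab_eq μ G hG, V_eq μ G hG]
      refine integral_congr_ae (Filter.Eventually.of_forall fun t => ?_)
      beta_reduce
      rw [(ch_one_iff p 0 _).2 (by rw [pow_zero]; exact PadicInt.norm_le_one _), one_mul,
        add_zero]
    rw [e]
    exact hV
  | succ c ih =>
    have h2 := GoodE.wt (Et_loc μ G) h (c + 1) (fun t => ch p (c + 1) (-(t * w)))
      (fun x y hxy => ch_congr p _ _ _ (by
        have e : -(x * w) - -(y * w) = -((x - y) * w) := by ring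
        rw [e, norm_neg, norm_mul]
        exact (mul_le_of_le_one_right (norm_nonneg _) (PadicInt.norm_le_one w)).trans hxy))
      (fun x => (norm_ch p _ _).le)
    have h3 := EP_sftk h2 (c + 1)
    have e : Ab μ G (c + 1) w = ((p : ℂ)⁻¹) • Ab μ G c w + fun n =>
        ∫ z, (if ‖z‖ = 1 then ch p (c + 1) (-(z * w)) * Et μ G z (n + (c + 1)) else 0)
          ∂(mu p) := by
      funext N
      rw [Pi.add_apply, Pi.smul_apply, smul_eq_mul, Ab_eq μ G hG, Ab_eq μ G hG,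
        split_p (fun t => ch p (c + 1) (-(t * w)) * Et μ G t (N + (c + 1)))]
      · congr 2
        refine integral_congr_ae (Filter.Eventually.of_forall fun t => ?_)
        beta_reduce
        rw [← add_assoc, Et_p1, ← ch_p p c (-(t * w))]
        congr 2
        ring
      · refine Measurable.mul ?_ (Et_meas μ G _)
        exact (ch_meas p _).comp ((measurable_id.mul_const w).neg)
      · intro x
        rw [norm_mul, norm_ch, one_mul]
        exact (Et_loc μ G).bdd x _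
    rw [e]
    refine (EP M').add_mem ((EP M').smul_mem _ ih) ?_
    exact EP_mono (fun T _ => hM T) h3

theorem val_dec (z : ℤ_[p]) (hz : z ≠ 0) : ∃ (N : ℕ) (z' : ℤ_[p]), ‖z'‖ = 1 ∧
    z = (p : ℤ_[p]) ^ N * z' := by
  obtain ⟨N, hN⟩ := exists_val z hz
  obtain ⟨z', hz'⟩ := (le_iff_dvd p N z).1 hN.le
  refine ⟨N, z', ?_, hz'⟩
  have h1 := congrArg norm hz'
  rw [norm_mul, norm_p_pow, hN] at h1
  have h2 : ((p : ℝ)⁻¹) ^ N ≠ 0 := (pow_pos (pinv_pos p) N).ne'
  exact mul_left_cancel₀ h2 (by rw [mul_one]; exact h1.symm)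

theorem loc_ext {c : ℕ} (hc : ∀ u v : ℤ_[p], ‖u‖ = 1 → ‖v‖ = 1 → ‖u - v‖ ≤ ((p : ℝ)⁻¹) ^ c →
    ∀ m, Et μ G u m = Et μ G v m) (u v : ℤ_[p]) (hu : ‖u‖ = 1) (hv : ‖v‖ = 1)
    (huv : ‖u - v‖ ≤ ((p : ℝ)⁻¹) ^ c) (z : ℤ_[p]) (m : ℕ) :
    Et μ G (u * z) m = Et μ G (v * z) m := by
  by_cases hz : z = 0
  · rw [hz, mul_zero, mul_zero]
  · obtain ⟨N, z', hz', rfl⟩ := val_dec z hz
    have e1 : u * ((p : ℤ_[p]) ^ N * z') = (p : ℤ_[p]) ^ N * (u * z') := by ring
    have e2 : v * ((p : ℤ_[p]) ^ N * z') = (p : ℤ_[p]) ^ N * (v * z') := by ring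
    rw [e1, e2, Et_pmul, Et_pmul]
    split_ifs
    · rfl
    · refine hc _ _ (by rw [norm_mul, hu, hz', one_mul]) (by rw [norm_mul, hv, hz', one_mul]) ?_ _
      rw [← sub_mul, norm_mul, hz', mul_one]
      exact huv

theorem Et_zero (m : ℕ) : Et μ G 0 m = 1 := by
  unfold Et
  simp only [zero_mul, ch_zero]
  rw [integral_const]
  simp

theorem norm_of_close {z w : ℤ_[p]} {N c : ℕ} (hc : 1 ≤ c) (hw : ‖w‖ = 1)
    (h : ‖z - (p : ℤ_[p]) ^ N * w‖ ≤ ((p : ℝ)⁻¹) ^ (N + c)) : ‖z‖ = ((p : ℝ)⁻¹) ^ N := by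
  have h1 : ‖(p : ℤ_[p]) ^ N * w‖ = ((p : ℝ)⁻¹) ^ N := by
    rw [norm_mul, norm_p_pow, hw, mul_one]
  have h2 : ‖z - (p : ℤ_[p]) ^ N * w‖ < ‖(p : ℤ_[p]) ^ N * w‖ := by
    rw [h1]
    refine lt_of_le_of_lt h ?_
    exact pow_lt_pow_right_of_lt_one₀ (pinv_pos p) pinv_lt (by omega)
  have h3 : z = (z - (p : ℤ_[p]) ^ N * w) + (p : ℤ_[p]) ^ N * w := by ring
  rw [h3, IsUltrametricDist.norm_add_eq_max_of_norm_ne_norm h2.ne, max_eq_right h2.le, h1]

theorem close_mul {z' w : ℤ_[p]} {N c : ℕ} :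
    ‖(p : ℤ_[p]) ^ N * z' - (p : ℤ_[p]) ^ N * w‖ ≤ ((p : ℝ)⁻¹) ^ (N + c) ↔
      ‖z' - w‖ ≤ ((p : ℝ)⁻¹) ^ c := by
  rw [← mul_sub, norm_mul, norm_p_pow, pow_add]
  exact mul_le_mul_iff_right₀ (pow_pos (pinv_pos p) N)

theorem res_eq (c : ℕ) (z : ℤ_[p]) (w : ZMod (p ^ c)) :
    ‖z - (w.val : ℤ_[p])‖ ≤ ((p : ℝ)⁻¹) ^ c ↔ PadicInt.toZModPow c z = w := by
  rw [le_iff_dvd, ← Ideal.mem_span_singleton, ← PadicInt.ker_toZModPow, RingHom.mem_ker, map_sub,
    map_natCast, ZMod.natCast_zmod_val, sub_eq_zero]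

/-- the decomposition of the values -/
theorem dec {c : ℕ} (hc1 : 1 ≤ c) (hc : ∀ u v : ℤ_[p], ‖u‖ = 1 → ‖v‖ = 1 →
    ‖u - v‖ ≤ ((p : ℝ)⁻¹) ^ c → ∀ m, Et μ G u m = Et μ G v m) (k : ℕ) (hk : 1 ≤ k) (u : ℤ_[p])
    (hu : ‖u‖ = 1) (z : ℤ_[p]) (m : ℕ) :
    Et μ G (u * z ^ k) m = (if ‖z‖ ^ k ≤ ((p : ℝ)⁻¹) ^ m then 1 else 0) +
      ∑ N ∈ Finset.range m, ∑ w : ZMod (p ^ c),
        if ‖z - (p : ℤ_[p]) ^ N * (w.val : ℤ_[p])‖ ≤ ((p : ℝ)⁻¹) ^ (N + c) then
          (if k * N < m ∧ ‖(w.val : ℤ_[p])‖ = 1 then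
            Et μ G (u * (w.val : ℤ_[p]) ^ k) (m - k * N) else 0) else 0 := by
  by_cases hz : ‖z‖ ^ k ≤ ((p : ℝ)⁻¹) ^ m
  · rw [if_pos hz, Finset.sum_eq_zero, add_zero]
    · rw [(Et_loc μ G).loc m (u * z ^ k) 0 (by
        rw [sub_zero, norm_mul, hu, one_mul, norm_pow]
        exact hz)]
      exact Et_zero μ G m
    · intro N _
      refine Finset.sum_eq_zero fun w _ => ?_
      split_ifs with h1 h2
      · exfalso
        have h3 := norm_of_close hc1 h2.2 h1
        rw [h3, ← pow_mul, pw_le_iff] at hz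
        have h4 := h2.1
        rw [mul_comm] at h4
        omega
      · rfl
      · rfl
  · have hz0 : z ≠ 0 := by
      rintro rfl
      apply hz
      rw [norm_zero, zero_pow (by omega)]
      exact pow_nonneg (pinv_pos p).le _
    obtain ⟨N0, z', hz', rfl⟩ := val_dec z hz0
    have hN0 : k * N0 < m := by
      by_contra h
      apply hz
      rw [norm_mul, norm_p_pow, hz', mul_one, ← pow_mul, pw_le_iff, mul_comm N0 k]
      omega
    have hN1 : N0 < m := lt_of_le_of_lt (Nat.le_mul_of_pos_left N0 hk) hN0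
    rw [if_neg hz, zero_add, Finset.sum_eq_single N0,
      Finset.sum_eq_single (PadicInt.toZModPow c z')]
    · have h1 : ‖z' - ((PadicInt.toZModPow c z').val : ℤ_[p])‖ ≤ ((p : ℝ)⁻¹) ^ c :=
        (res_eq c z' _).2 rfl
      have h2 : ‖((PadicInt.toZModPow c z').val : ℤ_[p])‖ = 1 := by
        have h3 : ‖z' - ((PadicInt.toZModPow c z').val : ℤ_[p])‖ < ‖z'‖ := by
          rw [hz']
          refine lt_of_le_of_lt h1 ?_
          exact pow_lt_one₀ (pinv_pos p).le pinv_lt (by omega)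
        have h4 : ((PadicInt.toZModPow c z').val : ℤ_[p]) =
            -(z' - ((PadicInt.toZModPow c z').val : ℤ_[p])) + z' := by ring
        rw [h4, IsUltrametricDist.norm_add_eq_max_of_norm_ne_norm (by
          rw [norm_neg]
          exact h3.ne), norm_neg, max_eq_right h3.le, hz']
      rw [if_pos (close_mul.2 h1), if_pos ⟨hN0, h2⟩]
      have e1 : u * ((p : ℤ_[p]) ^ N0 * z') ^ k = (p : ℤ_[p]) ^ (k * N0) * (u * z' ^ k) := by
        rw [mul_pow, ← pow_mul, mul_comm N0 k]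
        ring
      rw [e1, Et_pmul, if_neg (by omega)]
      refine hc _ _ (by rw [norm_mul, norm_pow, hu, hz', one_pow, one_mul])
        (by rw [norm_mul, norm_pow, hu, h2, one_pow, one_mul]) ?_ _
      rw [← mul_sub, norm_mul, hu, one_mul]
      obtain ⟨r, hr⟩ := sub_dvd_pow_sub_pow z' ((PadicInt.toZModPow c z').val : ℤ_[p]) k
      rw [hr, norm_mul]
      exact (mul_le_of_le_one_right (norm_nonneg _) (PadicInt.norm_le_one r)).trans h1
    · intro w _ hw
      rw [if_neg]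
      intro h
      exact hw ((res_eq c z' w).1 (close_mul.1 h)).symm
    · intro h
      exact absurd (Finset.mem_univ _) h
    · intro N _ hN
      refine Finset.sum_eq_zero fun w _ => ?_
      split_ifs with h1 h2
      · exfalso
        have h3 := norm_of_close hc1 h2.2 h1
        rw [norm_mul, norm_p_pow, hz', mul_one] at h3
        have h4 := (pw_le_iff (p := p) N0 N).1 h3.le
        have h5 := (pw_le_iff (p := p) N N0).1 h3.ge
        exact hN (by omega)
      · rfl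
      · rfl
    · intro h
      exact absurd (Finset.mem_range.2 hN1) h

end gen

end Pool.Agent.T6.H26
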