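import Pool.Agent.T6.H26.FTForm

set_option autoImplicit false
set_option linter.unusedSectionVars false
set_option linter.unusedVariables false

/-! # Closure properties of the polynomials with good exponential sums -/

namespace Pool.Agent.T6.H26

open MeasureTheory MvPolynomial Pool.Agent.W427.SMC Pool.Agent.Y230.PS Pool.Agent.Y230.PT
open Pool.Agent.Y230.TH
open scoped ENNReal

attribute [local instance] msZ bsZ nz

variable {p : ℕ} [Fact p.Prime]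

theorem EP_of_sft {M : ℂ → ℕ∞} {c : ℕ → ℂ} (hc : sft c ∈ EP M) : c ∈ EP M := by
  obtain ⟨D, P, hD, h1, h2⟩ := EP_rat _ _ hc
  refine rat_EP _ D hD c (Polynomial.X * P + D * Polynomial.C (c 0)) ?_ h2
  have h3 := ser_sft c
  rw [Polynomial.coe_add, Polynomial.coe_mul, Polynomial.coe_mul, Polynomial.coe_X,
    Polynomial.coe_C, ← h1]
  linear_combination (-(D : PowerSeries ℂ)) * h3

theorem EP_shr {M : ℂ → ℕ∞} {c : ℕ → ℂ} (hc : c ∈ EP M) (r : ℕ) :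
    (fun m => if m < r then (1 : ℂ) else c (m - r)) ∈ EP M := by
  induction r with
  | zero => simpa using hc
  | succ r ih =>
    refine EP_of_sft ?_
    have e : sft (fun m => if m < r + 1 then (1 : ℂ) else c (m - (r + 1))) =
        fun m => if m < r then (1 : ℂ) else c (m - r) := by
      funext m
      rw [sft_apply]
      by_cases h : m < r
      · rw [if_pos (by omega), if_pos h]
      · rw [if_neg (by omega), if_neg h]
        congr 1
        omega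
    rw [e]
    exact ih

section gen

variable {Ω : Type} [MeasurableSpace Ω] (μ : Measure Ω) [IsProbabilityMeasure μ] (G : Ω → ℤ_[p])

theorem good_ppow {M : ℂ → ℕ∞} (h : GoodE p M (Et μ G)) (r : ℕ) :
    GoodE p M (Et μ (fun x => (p : ℤ_[p]) ^ r * G x)) := by
  obtain ⟨c, h1, h2⟩ := h
  have e : ∀ (u : ℤ_[p]) (m : ℕ), Et μ (fun x => (p : ℤ_[p]) ^ r * G x) u m =
      if m < r then 1 else Et μ G u (m - r) := by
    intro u m
    rw [← Et_pmul]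
    unfold Et
    refine integral_congr_ae (Filter.Eventually.of_forall fun x => ?_)
    beta_reduce
    congr 1
    ring
  refine ⟨c, fun u v hu hv huv m => ?_, fun u hu => ?_⟩
  · rw [e, e, h1 u v hu hv huv]
  · have e2 : Et μ (fun x => (p : ℤ_[p]) ^ r * G x) u =
        fun m => if m < r then (1 : ℂ) else Et μ G u (m - r) := funext fun m => e u m
    rw [e2]
    exact EP_shr (h2 u hu) r

theorem good_unit {M : ℂ → ℕ∞} (h : GoodE p M (Et μ G)) (c0 : ℤ_[p]) (hc : ‖c0‖ = 1) :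
    GoodE p M (Et μ (fun x => c0 * G x)) := by
  obtain ⟨c, h1, h2⟩ := h
  have e : ∀ (u : ℤ_[p]) (m : ℕ), Et μ (fun x => c0 * G x) u m = Et μ G (u * c0) m := by
    intro u m
    unfold Et
    refine integral_congr_ae (Filter.Eventually.of_forall fun x => ?_)
    beta_reduce
    congr 1
    ring
  refine ⟨c, fun u v hu hv huv m => ?_, fun u hu => ?_⟩
  · rw [e, e]
    refine h1 _ _ (by rw [norm_mul, hu, hc, one_mul]) (by rw [norm_mul, hv, hc, one_mul]) ?_ m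
    rw [← sub_mul, norm_mul, hc, mul_one]
    exact huv
  · have e2 : Et μ (fun x => c0 * G x) u = Et μ G (u * c0) := funext fun m => e u m
    rw [e2]
    exact h2 _ (by rw [norm_mul, hu, hc, one_mul])

end gen

section rep

variable {σ τ : Type} [Fintype σ] [Fintype τ]

theorem Rep.up {g : MvPolynomial σ ℚ_[p]} {K : ℕ} {G : (σ → ℤ_[p]) → ℤ_[p]} (h : Rep g K G)
    (r : ℕ) : Rep g (K + r) (fun x => (p : ℤ_[p]) ^ r * G x) := by
  intro x
  rw [inc_mul, h x, inc_pow, pow_add]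
  have : inc p (p : ℤ_[p]) = (p : ℚ_[p]) := by simp [inc]
  rw [this]
  ring

theorem XE.up {M : ℂ → ℕ∞} {g : MvPolynomial σ ℚ_[p]} (h : XE M g) : ∃ K0 : ℕ, ∀ K, K0 ≤ K →
    ∃ G : (σ → ℤ_[p]) → ℤ_[p], Rep g K G ∧
      GoodE p (Pool.Agent.Y230.PS.tr M) (Et (Measure.pi fun _ : σ => mu p) G) := by
  obtain ⟨K0, G, h1, h2⟩ := h
  refine ⟨K0, fun K hK => ?_⟩
  obtain ⟨r, rfl⟩ := Nat.exists_eq_add_of_le hK
  exact ⟨_, h1.up r, good_ppow _ G h2 r⟩

theorem XE.mono {M M' : ℂ → ℕ∞} {g : MvPolynomial σ ℚ_[p]} (h : XE M g)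
    (H : ∀ T, 1 < ‖T‖ → M T ≤ M' T) : XE M' g := by
  obtain ⟨K, G, h1, h2⟩ := h
  exact ⟨K, G, h1, h2.mono fun T _ => tr_mono H T⟩

/-- **Sums in disjoint variables.** -/
theorem XE.add {M1 M2 M3 : ℂ → ℕ∞} {g₁ : MvPolynomial σ ℚ_[p]} {g₂ : MvPolynomial τ ℚ_[p]}
    (h1 : XE M1 g₁) (h2 : XE M2 g₂) (H : ∀ T1 T2 : ℂ, 1 < ‖T1‖ → 1 < ‖T2‖ → ∀ a b : ℕ, 1 ≤ a →
      1 ≤ b → (a : ℕ∞) ≤ M1 T1 → (b : ℕ∞) ≤ M2 T2 → ((a + b - 1 : ℕ) : ℕ∞) ≤ M3 (T1 * T2)) :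
    XE M3 (rename Sum.inl g₁ + rename Sum.inr g₂ : MvPolynomial (σ ⊕ τ) ℚ_[p]) := by
  obtain ⟨K1, h1⟩ := h1.up
  obtain ⟨K2, h2⟩ := h2.up
  obtain ⟨G₁, hr1, hg1⟩ := h1 (max K1 K2) (le_max_left _ _)
  obtain ⟨G₂, hr2, hg2⟩ := h2 (max K1 K2) (le_max_right _ _)
  refine ⟨max K1 K2, fun z => G₁ (fun i => z (Sum.inl i)) + G₂ (fun i => z (Sum.inr i)),
    fun z => ?_, ?_⟩
  · have e : inc p (G₁ (fun i => z (Sum.inl i)) + G₂ (fun i => z (Sum.inr i))) =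
        inc p (G₁ (fun i => z (Sum.inl i))) + inc p (G₂ (fun i => z (Sum.inr i))) := by
      simp [inc]
    rw [e, hr1, hr2, map_add, eval_rename, eval_rename, mul_add]
    rfl
  · have h3 := good_add (Measure.pi fun _ : σ => mu p) (Measure.pi fun _ : τ => mu p) G₁ G₂
      (M1 := Pool.Agent.Y230.PS.tr M1) (M2 := Pool.Agent.Y230.PS.tr M2)
      (M3 := Pool.Agent.Y230.PS.tr M3) (fun T1 T2 _ _ a b ha hb h3 h4 => by
        have h5 : 1 < ‖T1‖ := by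
          by_contra hn
          rw [Pool.Agent.Y230.PS.tr, if_pos (not_lt.1 hn)] at h3
          have : (a : ℕ∞) = 0 := nonpos_iff_eq_zero.1 h3
          have : a = 0 := by exact_mod_cast this
          omega
        have h6 : 1 < ‖T2‖ := by
          by_contra hn
          rw [Pool.Agent.Y230.PS.tr, if_pos (not_lt.1 hn)] at h4
          have : (b : ℕ∞) = 0 := nonpos_iff_eq_zero.1 h4
          have : b = 0 := by exact_mod_cast this
          omega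
        rw [Pool.Agent.Y230.PS.tr, if_neg (not_le.2 h5)] at h3
        rw [Pool.Agent.Y230.PS.tr, if_neg (not_le.2 h6)] at h4
        rw [Pool.Agent.Y230.PS.tr, if_neg]
        · exact H T1 T2 h5 h6 a b ha hb h3 h4
        · rw [not_le, norm_mul]
          exact one_lt_mul_of_lt_of_le h5 h6.le) hg1 hg2
    exact h3.congr fun u _ m => (Et_sumpi (fun q : (σ → ℤ_[p]) × (τ → ℤ_[p]) =>
      G₁ q.1 + G₂ q.2) u m).symm

/-- **Products in disjoint variables.** -/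
theorem XE.mul {M1 M2 M3 : ℂ → ℕ∞} {g₁ : MvPolynomial σ ℚ_[p]} {g₂ : MvPolynomial τ ℚ_[p]}
    (h1 : XE M1 g₁) (h2 : XE M2 g₂)
    (H : ∀ T, 1 < ‖T‖ → M1 T + (dp p T : ℕ) + M2 T ≤ M3 T) :
    XE M3 (rename Sum.inl g₁ * rename Sum.inr g₂ : MvPolynomial (σ ⊕ τ) ℚ_[p]) := by
  obtain ⟨K1, G₁, hr1, hg1⟩ := h1
  obtain ⟨K2, G₂, hr2, hg2⟩ := h2
  refine ⟨K1 + K2, fun z => G₁ (fun i => z (Sum.inl i)) * G₂ (fun i => z (Sum.inr i)),
    fun z => ?_, ?_⟩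
  · rw [inc_mul, hr1, hr2, map_mul, eval_rename, eval_rename, pow_add]
    change _ = (p : ℚ_[p]) ^ K1 * (p : ℚ_[p]) ^ K2 *
      (eval (fun i => inc p (z (Sum.inl i))) g₁ * eval (fun i => inc p (z (Sum.inr i))) g₂)
    ring
  · have h3 := good_mul (Measure.pi fun _ : σ => mu p) (Measure.pi fun _ : τ => mu p) G₁ G₂
      hr1.cont.measurable hr2.cont.measurable hg1 hg2 H
    exact h3.congr fun u _ m => (Et_sumpi (fun q : (σ → ℤ_[p]) × (τ → ℤ_[p]) =>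
      G₁ q.1 * G₂ q.2) u m).symm

/-- **Powers.** -/
theorem XE.pow {M M' : ℂ → ℕ∞} {g : MvPolynomial σ ℚ_[p]} (h : XE M g) (k : ℕ) (hk : 1 ≤ k)
    (H : ∀ T, 1 < ‖T‖ → M (T ^ k) + (dp p (T ^ k) : ℕ) ≤ M' T) : XE M' (g ^ k) := by
  obtain ⟨K, G, h1, h2⟩ := h
  refine ⟨K * k, fun z => G z ^ k, fun z => ?_, ?_⟩
  · rw [inc_pow, h1, map_pow, mul_pow, pow_mul]
  · exact good_pow _ G h1.cont.measurable h2 k hk H

theorem unit_dec (c : ℚ_[p]) (hc : c ≠ 0) : ∃ (n : ℤ) (c0 : ℤ_[p]), ‖c0‖ = 1 ∧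
    c = (p : ℚ_[p]) ^ n * inc p c0 := by
  have hp0 : (p : ℚ_[p]) ≠ 0 := by exact_mod_cast (Fact.out : p.Prime).ne_zero
  have hnn : ‖c‖ = (p : ℝ) ^ (-c.valuation) := Padic.norm_eq_zpow_neg_valuation hc
  have hpn : ‖(p : ℚ_[p]) ^ c.valuation‖ = (p : ℝ) ^ (-c.valuation) := by
    rw [norm_zpow, Padic.norm_p, inv_zpow, zpow_neg]
  have hpp : (p : ℚ_[p]) ^ c.valuation ≠ 0 := zpow_ne_zero _ hp0
  have hpr : (p : ℝ) ^ (-c.valuation) ≠ 0 := by rw [← hpn]; exact norm_ne_zero_iff.2 hpp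
  have h1 : ‖c / (p : ℚ_[p]) ^ c.valuation‖ = 1 := by rw [norm_div, hnn, hpn, div_self hpr]
  refine ⟨c.valuation, ⟨c / (p : ℚ_[p]) ^ c.valuation, h1.le⟩, h1, ?_⟩
  change c = (p : ℚ_[p]) ^ c.valuation * (c / (p : ℚ_[p]) ^ c.valuation)
  rw [mul_div_cancel₀ _ hpp]

/-- **Constant factors.** -/
theorem XE.smul {M : ℂ → ℕ∞} {g : MvPolynomial σ ℚ_[p]} (h : XE M g) (c : ℚ_[p]) (hc : c ≠ 0) :
    XE M (C c * g) := by
  have hp0 : (p : ℚ_[p]) ≠ 0 := by exact_mod_cast (Fact.out : p.Prime).ne_zero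
  obtain ⟨K0, h0⟩ := h.up
  obtain ⟨n, c0, hc0, hcn⟩ := unit_dec c hc
  obtain ⟨K', K, hK, hK0⟩ : ∃ K' K : ℕ, (K' : ℤ) + n = K ∧ K0 ≤ K :=
    ⟨(K0 - n).toNat, (((K0 - n).toNat : ℤ) + n).toNat, by omega, by omega⟩
  obtain ⟨G, h3, h4⟩ := h0 K hK0
  refine ⟨K', fun z => c0 * G z, fun z => ?_, good_unit _ G h4 c0 hc0⟩
  have h6 : (p : ℚ_[p]) ^ K = (p : ℚ_[p]) ^ K' * (p : ℚ_[p]) ^ n := by
    rw [← zpow_natCast, ← zpow_natCast, ← zpow_add₀ hp0, hK]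
  rw [inc_mul, h3, map_mul, eval_C, hcn, h6]
  ring

theorem XE.equiv {M : ℂ → ℕ∞} {g : MvPolynomial σ ℚ_[p]} (h : XE M g) (i : σ ≃ τ) :
    XE M (rename i g) := by
  obtain ⟨K, G, h1, h2⟩ := h
  refine ⟨K, fun z => G (fun a => z (i a)), fun z => ?_, h2.congr fun u _ m => ?_⟩
  · rw [h1, eval_rename]
    rfl
  · have hmp := measurePreserving_piCongrLeft (fun _ : τ => mu p) i
    have h3 : ∀ x : σ → ℤ_[p], (fun a => (MeasurableEquiv.piCongrLeft (fun _ : τ => ℤ_[p]) i) x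
        (i a)) = x := by
      intro x
      funext a
      exact Equiv.piCongrLeft_apply_apply (fun _ : τ => ℤ_[p]) i x a
    have h4 := hmp.integral_comp' (fun x : τ → ℤ_[p] => ch p m (u * G (fun a => x (i a))))
    unfold Et
    rw [← h4]
    refine integral_congr_ae (Filter.Eventually.of_forall fun x => ?_)
    beta_reduce
    rw [h3 x]

/-- **The zeta functions.** -/
theorem XE.FR {M M' : ℂ → ℕ∞} {g : MvPolynomial σ ℚ_[p]} (h : XE M g)
    (H : ∀ T, 1 < ‖T‖ → M T + (dp p T : ℕ) ≤ M' T) :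
    Pool.Agent.Y230.PS.FR p M' (Pool.Agent.Y230.PS.FF fun _ : Fin 1 => g) := by
  obtain ⟨K, G, h1, h2⟩ := h
  have h3 := V_tr _ G h1.cont.measurable h2
  have h4 := FR_of_Vc _ (fun x => ‖G x‖) h1.cont.measurable.norm (fun x => val_norm G x) h3
  have e : (fun x => ‖G x‖) = fun x => ((p : ℝ)⁻¹) ^ K * sz (fun _ : Fin 1 => g) x := by
    funext x
    have h5 : ‖G x‖ = ‖inc p (G x)‖ := rfl
    rw [h5, h1 x, norm_mul, norm_pow, Padic.norm_p]
    unfold sz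
    rw [pi_norm_const]
  rw [e] at h4
  exact ((FR_scale (Measure.pi fun _ : σ => mu p) _ (sz_nonneg _) K).1 h4).mono H

end rep

end Pool.Agent.T6.H26
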