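import Pool.Agent.T6.H26.FTAlg
import Pool.Agent.T6.H26.FTXE

set_option autoImplicit false
set_option linter.unusedSectionVars false
set_option linter.unusedVariables false

/-! # The multiplicities of the poles of the exponential sums -/

namespace Pool.Agent.T6.H26

open MvPolynomial
open Pool.Agent.Y230.PT Pool.Agent.Y230.PS Pool.Agent.Y230.TH Pool.Agent.R852.PP
open Pool.Agent.W574.RO Pool.Agent.W574.CN
open Pool.Agent.H628R4.TP (IsBFunction)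

attribute [local instance] Pool.Agent.W427.SMC.msZ Pool.Agent.W427.SMC.bsZ nz

variable {p : ℕ} [Fact p.Prime]

section

variable {σ τ : Type} [Fintype σ] [Fintype τ]

/-- the poles of the exponential sums -/
noncomputable def mE (p : ℕ) [Fact p.Prime] (g : MvPolynomial σ ℚ) (T : ℂ) : ℕ∞ :=
  open Classical in if FK ⟨σ, Fin 1, fun _ => g⟩ ((rr p T : ℝ) : ℂ) (1 + dl ((rr p T : ℝ) : ℂ))
    then ⊤ else 0

theorem mE_top {g : MvPolynomial σ ℚ} {T : ℂ}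
    (h : FK ⟨σ, Fin 1, fun _ => g⟩ ((rr p T : ℝ) : ℂ) (1 + dl ((rr p T : ℝ) : ℂ))) :
    mE p g T = ⊤ := by
  unfold mE
  rw [if_pos h]

theorem mE_zero {g : MvPolynomial σ ℚ} {T : ℂ}
    (h : ¬ FK ⟨σ, Fin 1, fun _ => g⟩ ((rr p T : ℝ) : ℂ) (1 + dl ((rr p T : ℝ) : ℂ))) :
    mE p g T = 0 := by
  unfold mE
  rw [if_neg h]

theorem FK_of_mE {g : MvPolynomial σ ℚ} {T : ℂ} {a : ℕ} (ha : 1 ≤ a)
    (h : (a : ℕ∞) ≤ mE p g T) :
    FK ⟨σ, Fin 1, fun _ => g⟩ ((rr p T : ℝ) : ℂ) (1 + dl ((rr p T : ℝ) : ℂ)) := by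
  by_contra hn
  rw [mE_zero hn] at h
  have : (a : ℕ∞) = 0 := nonpos_iff_eq_zero.1 h
  have : a = 0 := by exact_mod_cast this
  omega

theorem H_add {g₁ : MvPolynomial σ ℚ} {g₂ : MvPolynomial τ ℚ} (h1 : WH g₁) (h2 : WH g₂)
    (T1 T2 : ℂ) (hT1 : 1 < ‖T1‖) (hT2 : 1 < ‖T2‖) (a b : ℕ) (ha : 1 ≤ a) (hb : 1 ≤ b)
    (h3 : (a : ℕ∞) ≤ mE p g₁ T1) (h4 : (b : ℕ∞) ≤ mE p g₂ T2) :
    ((a + b - 1 : ℕ) : ℕ∞) ≤
      mE p (rename Sum.inl g₁ + rename Sum.inr g₂ : MvPolynomial (σ ⊕ τ) ℚ) (T1 * T2) := by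
  rw [mE_top]
  · exact le_top
  · rw [rr_mul T1 T2 hT1 hT2, Complex.ofReal_add]
    exact FK_addE h1 h2 _ _ (FK_of_mE ha h3) (FK_of_mE hb h4)

theorem H_mul {g₁ : MvPolynomial σ ℚ} {g₂ : MvPolynomial τ ℚ} (h1 : WH g₁) (h2 : WH g₂)
    (T : ℂ) (hT : 1 < ‖T‖) : mE p g₁ T + (dp p T : ℕ) + mE p g₂ T ≤
      mE p (rename Sum.inl g₁ * rename Sum.inr g₂ : MvPolynomial (σ ⊕ τ) ℚ) T := by
  have hr : ∀ N : ℕ, (N : ℂ) ≠ ((rr p T : ℝ) : ℂ) := rr_ne T hT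
  by_cases c1 : FK ⟨σ, Fin 1, fun _ => g₁⟩ ((rr p T : ℝ) : ℂ) (1 + dl ((rr p T : ℝ) : ℂ))
  · have h3 := FK_mulE h1.1 h2.1 _ hr _ 0 c1 (FK_zero ⟨τ, Fin 1, fun _ => g₂⟩ _)
    rw [add_zero] at h3
    rw [mE_top h3]
    exact le_top
  · by_cases c2 : FK ⟨τ, Fin 1, fun _ => g₂⟩ ((rr p T : ℝ) : ℂ) (1 + dl ((rr p T : ℝ) : ℂ))
    · have h3 := FK_mulE h1.1 h2.1 _ hr 0 _ (FK_zero ⟨σ, Fin 1, fun _ => g₁⟩ _) c2
      rw [zero_add] at h3
      rw [mE_top h3]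
      exact le_top
    · rw [mE_zero c1, mE_zero c2, zero_add, add_zero, dp_eq]
      split_ifs with hTp
      · have h3 : ((rr p T : ℝ) : ℂ) = -1 := by rw [hTp, rr_self]; push_cast; rfl
        rw [mE_top]
        · exact le_top
        · rw [h3, dl_m1]
          rw [h3] at hr
          exact FK_mulE h1.1 h2.1 _ hr 1 1 (FK_m1 h1) (FK_m1 h2)
      · simp

theorem rr_powT (T : ℂ) (k : ℕ) : ((rr p (T ^ k) : ℝ) : ℂ) = (k : ℂ) * ((rr p T : ℝ) : ℂ) := by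
  rw [rr_pow]
  push_cast
  rfl

theorem H_pow {g : MvPolynomial σ ℚ} (h1 : WH g) (k : ℕ) (hk : 2 ≤ k) (T : ℂ) (hT : 1 < ‖T‖) :
    mE p g (T ^ k) + (dp p (T ^ k) : ℕ) ≤ mE p (g ^ k) T := by
  have hrr := rr_powT (p := p) T k
  by_cases c1 : FK ⟨σ, Fin 1, fun _ => g⟩ ((rr p (T ^ k) : ℝ) : ℂ)
      (1 + dl ((rr p (T ^ k) : ℝ) : ℂ))
  · have h3 : FK ⟨σ, Fin 1, fun _ => g⟩ ((k : ℂ) * ((rr p T : ℝ) : ℂ)) 1 := by
      rw [← hrr]
      exact c1.mono (by omega)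
    rw [mE_top (FK_powE h1 k hk _ h3)]
    exact le_top
  · rw [mE_zero c1, zero_add, dp_eq]
    split_ifs with hTp
    · have h3 : FK ⟨σ, Fin 1, fun _ => g⟩ ((k : ℂ) * ((rr p T : ℝ) : ℂ)) 1 := by
        rw [← hrr, hTp, rr_self]
        push_cast
        exact FK_m1 h1
      rw [mE_top (FK_powE h1 k hk _ h3)]
      exact le_top
    · simp

theorem H_smul (g : MvPolynomial σ ℚ) (c : ℚ) (hc : c ≠ 0) (T : ℂ) :
    mE p g T ≤ mE p (C c * g) T := by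
  by_cases c1 : FK ⟨σ, Fin 1, fun _ => g⟩ ((rr p T : ℝ) : ℂ) (1 + dl ((rr p T : ℝ) : ℂ))
  · rw [mE_top (FK_smulE g c hc _ _ c1)]
    exact le_top
  · rw [mE_zero c1]
    exact bot_le

theorem H_equiv (g : MvPolynomial σ ℚ) (i : σ ≃ τ) (T : ℂ) :
    mE p g T ≤ mE p (rename i g) T := by
  by_cases c1 : FK ⟨σ, Fin 1, fun _ => g⟩ ((rr p T : ℝ) : ℂ) (1 + dl ((rr p T : ℝ) : ℂ))
  · rw [mE_top (FK_equiv ⟨σ, Fin 1, fun _ => g⟩ ⟨τ, Fin 1, fun _ => rename i g⟩ i (Equiv.refl _)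
      (fun _ => rfl) _ _ c1)]
    exact le_top
  · rw [mE_zero c1]
    exact bot_le

/-- from the exponential sums to the zeta functions -/
theorem H_fin {g : MvPolynomial σ ℚ} (h1 : WH g) (T : ℂ) (hT : 1 < ‖T‖) :
    mE p g T + (dp p T : ℕ) ≤ rG p (wR p) ⟨σ, Fin 1, fun _ => g⟩ T := by
  by_cases c1 : FK ⟨σ, Fin 1, fun _ => g⟩ ((rr p T : ℝ) : ℂ) (1 + dl ((rr p T : ℝ) : ℂ))
  · have h2 := le_rG (w := wR p) (k := 1) c1
    unfold wR at h2
    rw [if_neg one_ne_zero] at h2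
    refine le_trans ?_ h2
    exact le_top
  · rw [mE_zero c1, zero_add]
    have h2 := le_rG (p := p) (w := wR p) (A := ⟨σ, Fin 1, fun _ => g⟩) (T := T) (k := 0) (by
      rw [zero_add]
      exact FK_dl h1 _)
    refine le_trans (le_of_eq ?_) h2
    unfold wR
    rw [if_pos rfl]

end

section form

variable {σ : Type} [Fintype σ]

theorem formP_WH {m : ℕ} {r : Fin m → ℕ} (a : Fin m → ℕ)
    (f : (t : Fin m) → Fin (r t) → MvPolynomial σ ℚ) (hm : 0 < m) (ha : ∀ t, 0 < a t)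
    (hA : ∃ J, genP a 1 f J ≠ 0) : WH (formP a 1 f) := by
  refine ⟨formP_ne a 1 f hA ha, Sum.elim (fun _ => 1) (fun _ => 0), ∑ t, ((a t : ℕ) : ℤ), ?_, ?_⟩
  · refine Finset.sum_pos (fun t _ => by exact_mod_cast ha t) ⟨⟨0, hm⟩, Finset.mem_univ _⟩
  · unfold formP
    rw [map_one, one_mul]
    have h1 : ∀ t, IsWeightedHomogeneous (Sum.elim (fun _ => (1 : ℤ)) (fun _ => 0) :
        (Σ t, Fin (r t)) ⊕ σ → ℤ) ((∑ j, X (Sum.inl ⟨t, j⟩) * rename Sum.inr (f t j) :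
          MvPolynomial ((Σ t, Fin (r t)) ⊕ σ) ℚ) ^ a t) ((a t : ℕ) : ℤ) := by
      intro t
      have h2 : IsWeightedHomogeneous (Sum.elim (fun _ => (1 : ℤ)) (fun _ => 0) :
          (Σ t, Fin (r t)) ⊕ σ → ℤ) (∑ j, X (Sum.inl ⟨t, j⟩) * rename Sum.inr (f t j) :
            MvPolynomial ((Σ t, Fin (r t)) ⊕ σ) ℚ) (1 : ℤ) := by
        refine (weightedHomogeneousSubmodule ℚ _ (1 : ℤ)).sum_mem fun j _ => ?_
        rw [mem_weightedHomogeneousSubmodule]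
        have h3 := (isWeightedHomogeneous_X ℚ (Sum.elim (fun _ => (1 : ℤ)) (fun _ => 0) :
          (Σ t, Fin (r t)) ⊕ σ → ℤ) (Sum.inl ⟨t, j⟩)).mul
            (wh_rename Sum.inr _ (f t j) 0 (wh_zero_weight (f t j)))
        simpa using h3
      have h4 := h2.pow (a t)
      rwa [nsmul_eq_mul, mul_one] at h4
    have h5 : ∀ S : Finset (Fin m), IsWeightedHomogeneous (Sum.elim (fun _ => (1 : ℤ))
        (fun _ => 0) : (Σ t, Fin (r t)) ⊕ σ → ℤ) (∏ t ∈ S, (∑ j, X (Sum.inl ⟨t, j⟩) *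
          rename Sum.inr (f t j) : MvPolynomial ((Σ t, Fin (r t)) ⊕ σ) ℚ) ^ a t)
            (∑ t ∈ S, ((a t : ℕ) : ℤ)) := by
      intro S
      classical
      induction S using Finset.induction_on with
      | empty => exact isWeightedHomogeneous_one ℚ _
      | insert t S ht ih =>
        rw [Finset.prod_insert ht, Finset.sum_insert ht]
        exact (h1 t).mul ih
    exact h5 Finset.univ

/-- all the strict transforms have the root `-1` -/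
theorem cntR_m1 {τ : Type} [Fintype τ] (a : τ → ℕ) (ha : ∀ t, 0 < a t) :
    cntR a (-1) = Fintype.card τ := by
  classical
  unfold cntR
  rw [Finset.filter_true_of_mem, Finset.card_univ]
  intro t _
  refine ⟨a t - 1, ?_, ?_⟩
  · rw [Finset.mem_range]
    have := ha t
    omega
  · rw [Nat.sub_add_cancel (ha t)]
    ring

theorem cnt2 {n : ℕ} (a : Fin (n + 1) → ℕ) (ha : ∀ t, 0 < a t) (T : ℂ) (hT : 1 < ‖T‖)
    (t : Fin (n + 1)) (ht : ¬ (t = 0 ∧ a t = 1)) (hTt : T ^ a t = (p : ℂ)) :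
    1 + dl ((rr p T : ℝ) : ℂ) ≤ cntR a ((rr p T : ℝ) : ℂ) := by
  classical
  by_cases hr : ((rr p T : ℝ) : ℂ) = -1
  · rw [hr, dl_m1, cntR_m1 a ha, Fintype.card_fin]
    have hp : (1 : ℝ) < p := by exact_mod_cast (Fact.out : p.Prime).one_lt
    have h1 := rr_norm T hT hr
    have h2 := congrArg (fun z : ℂ => ‖z‖) hTt
    beta_reduce at h2
    rw [norm_pow, h1, Complex.norm_natCast] at h2
    have h3 : a t = 1 := by
      have h3 : (p : ℝ) ^ a t = (p : ℝ) ^ 1 := by rw [h2, pow_one]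
      exact pow_right_injective₀ (by linarith) (by linarith) h3
    have h4 : t ≠ 0 := fun h => ht ⟨h, h3⟩
    have h5 : n ≠ 0 := by
      rintro rfl
      exact h4 (Fin.ext (by have := t.isLt; omega))
    omega
  · rw [dl_ne hr, add_zero]
    refine le_trans ?_ (cnt_le (p := p) a T)
    unfold cnt
    refine Finset.card_pos.2 ⟨t, ?_⟩
    rw [Finset.mem_filter]
    exact ⟨Finset.mem_univ _, hTt⟩

theorem H_form {n : ℕ} {r : Fin (n + 1) → ℕ} (a : Fin (n + 1) → ℕ)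
    (f : (t : Fin (n + 1)) → Fin (r t) → MvPolynomial σ ℚ) (ha : ∀ t, 0 < a t)
    (hA : ∃ J, genP a 1 f J ≠ 0) (T : ℂ) (hT : 1 < ‖T‖) :
    mR p (genQ a 1 f) T + (∑ t, if t = 0 ∧ a t = 1 then 0 else ma p (a t) T) ≤
      mE p (formP a 1 f) T := by
  classical
  by_cases hf : Forced (genQ a 1 f).toC ((rr p T : ℝ) : ℂ)
  · have h2 := FK_form a 1 f (Nat.succ_pos n) ha hA _ 1 (forced_FK hf)
    have h3 := dl_le_cntR a 0 (ha 0) ((rr p T : ℝ) : ℂ)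
    have h5 : FK (formQ a 1 f) ((rr p T : ℝ) : ℂ) (1 + dl ((rr p T : ℝ) : ℂ)) :=
      h2.mono (by omega)
    rw [mE_top h5]
    exact le_top
  · rw [mR_zero hf, zero_add]
    by_cases h0 : ∃ t : Fin (n + 1), ¬ (t = 0 ∧ a t = 1) ∧ T ^ a t = (p : ℂ)
    · obtain ⟨t, ht, hTt⟩ := h0
      have h1 := cnt2 a ha T hT t ht hTt
      have h2 := FK_form a 1 f (Nat.succ_pos n) ha hA _ 0 (FK_zero _ ((rr p T : ℝ) : ℂ))
      have h5 : FK (formQ a 1 f) ((rr p T : ℝ) : ℂ) (1 + dl ((rr p T : ℝ) : ℂ)) :=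
        h2.mono (by omega)
      rw [mE_top h5]
      exact le_top
    · push Not at h0
      rw [Finset.sum_eq_zero]
      · exact bot_le
      · intro t _
        split_ifs with h
        · rfl
        · unfold ma
          rw [if_neg (h0 t fun h1 h2 => h ⟨h1, h2⟩)]

end form

end Pool.Agent.T6.H26
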