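import Pool.Agent.T6.H26.FTXE

set_option autoImplicit false
set_option linter.unusedSectionVars false
set_option linter.unusedVariables false

/-! # The exponential sums of weighted homogeneous polynomials with an isolated critical point -/

namespace Pool.Agent.T6.H26

open MeasureTheory MvPolynomial Pool.Agent.W427.SMC Pool.Agent.Y230.PS Pool.Agent.Y230.PT
open Pool.Agent.Y230.TH
open scoped ENNReal

attribute [local instance] msZ bsZ nz

variable {p : ℕ} [Fact p.Prime]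

/-- Taylor's formula -/
theorem taylor {R σ : Type} [CommRing R] [Fintype σ] (P : MvPolynomial σ R) (x h : σ → R) (t : R) :
    ∃ r : R, eval (fun i => x i + t * h i) P =
      eval x P + t * (∑ i, h i * eval x (pderiv i P)) + t ^ 2 * r := by
  classical
  induction P using MvPolynomial.induction_on with
  | C a =>
    refine ⟨0, ?_⟩
    simp
  | add P Q hP hQ =>
    obtain ⟨r, hr⟩ := hP
    obtain ⟨s, hs⟩ := hQ
    refine ⟨r + s, ?_⟩
    rw [map_add, map_add, hr, hs]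
    have h1 : ∑ i, h i * eval x (pderiv i (P + Q)) = ∑ i, h i * eval x (pderiv i P) +
        ∑ i, h i * eval x (pderiv i Q) := by
      rw [← Finset.sum_add_distrib]
      refine Finset.sum_congr rfl fun i _ => ?_
      rw [map_add, map_add]
      ring
    rw [h1]
    ring
  | mul_X P j hP =>
    obtain ⟨r, hr⟩ := hP
    refine ⟨r * (x j + t * h j) + (∑ i, h i * eval x (pderiv i P)) * h j, ?_⟩
    rw [map_mul, map_mul, hr, eval_X, eval_X]
    have h1 : ∑ i, h i * eval x (pderiv i (P * X j)) = (∑ i, h i * eval x (pderiv i P)) * x j +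
        h j * eval x P := by
      have h2 : ∀ i, h i * eval x (pderiv i (P * X j)) = h i * eval x (pderiv i P) * x j +
          (if j = i then h j * eval x P else 0) := by
        intro i
        rw [Derivation.leibniz, smul_eq_mul, smul_eq_mul, map_add, map_mul, map_mul, eval_X,
          pderiv_X, Pi.single_apply]
        split_ifs with h3
        · rw [h3, map_one]
          ring
        · rw [map_zero]
          ring
      rw [Finset.sum_congr rfl fun i _ => h2 i, Finset.sum_add_distrib, Finset.sum_ite_eq,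
        if_pos (Finset.mem_univ _), Finset.sum_mul]
    rw [h1]
    ring

section meas

variable {σ : Type} [Fintype σ]

/-- the integral of a character -/
theorem lin_zero (m : ℕ) (c : σ → ℤ_[p]) (i0 : σ) (hi : ¬ ‖c i0‖ ≤ ((p : ℝ)⁻¹) ^ m) :
    ∫ y, ch p m (∑ i, y i * c i) ∂(Measure.pi fun _ : σ => mu p) = 0 := by
  classical
  set I := ∫ y, ch p m (∑ i, y i * c i) ∂(Measure.pi fun _ : σ => mu p) with hI
  have h1 : I = ch p m (c i0) * I := by
    rw [hI, ← integral_const_mul]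
    conv_lhs => rw [← integral_add_left_eq_self (μ := Measure.pi fun _ : σ => mu p)
      (fun y : σ → ℤ_[p] => ch p m (∑ i, y i * c i)) (Pi.single i0 1)]
    refine integral_congr_ae (Filter.Eventually.of_forall fun y => ?_)
    beta_reduce
    rw [← ch_add]
    congr 1
    have h2 : ∀ i, ((Pi.single i0 1 : σ → ℤ_[p]) + y) i * c i =
        (if i0 = i then c i0 else 0) + y i * c i := by
      intro i
      rw [Pi.add_apply, add_mul]
      congr 1
      split_ifs with h3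
      · subst h3
        rw [Pi.single_eq_same, one_mul]
      · rw [Pi.single_eq_of_ne (Ne.symm h3), zero_mul]
    rw [Finset.sum_congr rfl fun i _ => h2 i, Finset.sum_add_distrib, Finset.sum_ite_eq,
      if_pos (Finset.mem_univ _)]
  have h2 : ch p m (c i0) ≠ 1 := fun h3 => hi ((ch_one_iff p m _).1 h3)
  have h3 : (1 - ch p m (c i0)) * I = 0 := by
    rw [sub_mul, one_mul, ← h1, sub_self]
  rcases mul_eq_zero.1 h3 with h4 | h4
  · exact absurd (sub_eq_zero.1 h4).symm h2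
  · exact h4

/-- the multiplication by `p ^ l` -/
theorem mu_restrict (l : ℕ) : (mu p).restrict {z | ‖z‖ ≤ ((p : ℝ)⁻¹) ^ l} =
    (((p : ℝ≥0∞)⁻¹) ^ l) • (mu p).map (fun z => (p : ℤ_[p]) ^ l * z) := by
  classical
  have hB : MeasurableSet {z : ℤ_[p] | ‖z‖ ≤ ((p : ℝ)⁻¹) ^ l} :=
    measurableSet_le continuous_norm.measurable measurable_const
  have hm : Measurable (fun z : ℤ_[p] => (p : ℤ_[p]) ^ l * z) := by
    have := meas_aff p l 0
    simpa using this
  refine Measure.ext_of_lintegral _ fun f hf => ?_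
  rw [lintegral_smul_measure, lintegral_map hf hm, ← lintegral_indicator hB,
    lintegral_sm p l _ (hf.indicator hB), sm, smul_eq_mul]
  rw [Finset.sum_eq_single 0]
  · congr 1
    refine lintegral_congr fun z => ?_
    rw [ZMod.val_zero, Nat.cast_zero, zero_add, Set.indicator_of_mem]
    change ‖(p : ℤ_[p]) ^ l * z‖ ≤ _
    rw [norm_mul, norm_p_pow]
    exact mul_le_of_le_one_right (pow_nonneg (pinv_pos p).le _) (PadicInt.norm_le_one z)
  · intro w _ hw
    have h1 : ∀ z : ℤ_[p], Set.indicator {z : ℤ_[p] | ‖z‖ ≤ ((p : ℝ)⁻¹) ^ l} f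
        ((w.val : ℤ_[p]) + (p : ℤ_[p]) ^ l * z) = 0 := by
      intro z
      refine Set.indicator_of_notMem (fun h2 => hw ?_) _
      have h3 : ‖(w.val : ℤ_[p]) + (p : ℤ_[p]) ^ l * z‖ ≤ ((p : ℝ)⁻¹) ^ l := h2
      rw [le_iff_dvd, dvd_add_left (Dvd.intro _ rfl), ← Ideal.mem_span_singleton,
        ← PadicInt.ker_toZModPow, RingHom.mem_ker, map_natCast, ZMod.natCast_zmod_val] at h3
      exact h3
    simp only [h1, lintegral_zero, mul_zero]
  · intro h
    exact absurd (Finset.mem_univ _) h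

/-- the polydisc -/
theorem pi_restrict (w : σ → ℕ) : (Measure.pi fun _ : σ => mu p).restrict
    {x | ∀ i, ‖x i‖ ≤ ((p : ℝ)⁻¹) ^ w i} = (((p : ℝ≥0∞)⁻¹) ^ (∑ i, w i)) •
      (Measure.pi fun _ : σ => mu p).map (fun y i => (p : ℤ_[p]) ^ w i * y i) := by
  classical
  have hm : ∀ i, Measurable (fun z : ℤ_[p] => (p : ℤ_[p]) ^ w i * z) := by
    intro i
    have := meas_aff p (w i) 0
    simpa using this
  have hS : Measurable (fun (y : σ → ℤ_[p]) i => (p : ℤ_[p]) ^ w i * y i) :=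
    measurable_pi_lambda _ fun i => (hm i).comp (measurable_pi_apply i)
  have h1 : {x : σ → ℤ_[p] | ∀ i, ‖x i‖ ≤ ((p : ℝ)⁻¹) ^ w i} =
      Set.univ.pi fun i => {z : ℤ_[p] | ‖z‖ ≤ ((p : ℝ)⁻¹) ^ w i} := by
    ext x
    simp
  rw [h1, Measure.restrict_pi_pi]
  refine Measure.pi_eq fun s hs => ?_
  rw [Measure.smul_apply, Measure.map_apply hS (MeasurableSet.univ_pi hs), smul_eq_mul]
  have h2 : (fun (y : σ → ℤ_[p]) i => (p : ℤ_[p]) ^ w i * y i) ⁻¹' (Set.univ.pi s) =
      Set.univ.pi fun i => (fun z : ℤ_[p] => (p : ℤ_[p]) ^ w i * z) ⁻¹' (s i) := by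
    ext x
    simp
  rw [h2, Measure.pi_pi, ← Finset.prod_pow_eq_pow_sum, ← Finset.prod_mul_distrib]
  refine Finset.prod_congr rfl fun i _ => ?_
  rw [mu_restrict, Measure.smul_apply, Measure.map_apply (hm i) (hs i), smul_eq_mul]

/-- the integral over a polydisc -/
theorem int_disc (w : σ → ℕ) (f : (σ → ℤ_[p]) → ℂ) (hf : Measurable f) :
    ∫ x in {x | ∀ i, ‖x i‖ ≤ ((p : ℝ)⁻¹) ^ w i}, f x ∂(Measure.pi fun _ : σ => mu p) =
      ((p : ℂ)⁻¹) ^ (∑ i, w i) *
        ∫ y, f (fun i => (p : ℤ_[p]) ^ w i * y i) ∂(Measure.pi fun _ : σ => mu p) := by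
  have hm : ∀ i, Measurable (fun z : ℤ_[p] => (p : ℤ_[p]) ^ w i * z) := by
    intro i
    have := meas_aff p (w i) 0
    simpa using this
  have hS : Measurable (fun (y : σ → ℤ_[p]) i => (p : ℤ_[p]) ^ w i * y i) :=
    measurable_pi_lambda _ fun i => (hm i).comp (measurable_pi_apply i)
  rw [pi_restrict, integral_smul_measure, integral_map hS.aemeasurable hf.aestronglyMeasurable,
    ENNReal.toReal_pow, ENNReal.toReal_inv, ENNReal.toReal_natCast, Complex.real_smul]
  push_cast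
  rfl

end meas

section main

variable {σ : Type} [Fintype σ]

/-- the function of a polynomial -/
noncomputable def Gf (P : MvPolynomial σ ℤ_[p]) (x : σ → ℤ_[p]) : ℤ_[p] := eval x P

theorem Gf_meas (P : MvPolynomial σ ℤ_[p]) : Measurable (Gf P) :=
  (MvPolynomial.continuous_eval P).measurable

/-- far from the origin the gradient is large -/
theorem grad (P : MvPolynomial σ ℤ_[p]) (w : σ → ℕ) (N : ℕ)
    (hA : ∀ i, ∃ (M : ℕ) (A : σ → MvPolynomial σ ℤ_[p]),
      C ((p : ℤ_[p]) ^ M) * X i ^ N = ∑ l, A l * pderiv l P) :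
    ∃ v : ℕ, ∀ x : σ → ℤ_[p], (∃ i, ¬ ‖x i‖ ≤ ((p : ℝ)⁻¹) ^ w i) →
      ∃ l, ¬ ‖eval x (pderiv l P)‖ ≤ ((p : ℝ)⁻¹) ^ v := by
  classical
  choose M A hMA using hA
  refine ⟨∑ i, (M i + N * w i) + 1, fun x hx => ?_⟩
  obtain ⟨i, hi⟩ := hx
  by_contra h
  push Not at h
  have h1 := congrArg (eval x) (hMA i)
  rw [map_mul, eval_C, map_pow, eval_X, map_sum] at h1
  have h2 : (p : ℤ_[p]) ^ (∑ i, (M i + N * w i) + 1) ∣ (p : ℤ_[p]) ^ M i * x i ^ N := by
    rw [h1]
    refine Finset.dvd_sum fun l _ => ?_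
    rw [map_mul]
    exact Dvd.dvd.mul_left ((le_iff_dvd p _ _).1 (h l)) _
  rw [← le_iff_dvd, norm_mul, norm_p_pow, norm_pow] at h2
  have h3 : ((p : ℝ)⁻¹) ^ (M i + N * w i) ≤ ((p : ℝ)⁻¹) ^ M i * ‖x i‖ ^ N := by
    rw [pow_add, mul_comm N, pow_mul]
    exact mul_le_mul_of_nonneg_left (pow_le_pow_left₀ (pow_nonneg (pinv_pos p).le _)
      (not_le.1 hi).le N) (pow_nonneg (pinv_pos p).le _)
  have h4 := (pw_le_iff (p := p) _ _).1 (h3.trans h2)
  have h5 : M i + N * w i ≤ ∑ i, (M i + N * w i) :=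
    Finset.single_le_sum (f := fun i => M i + N * w i) (fun i _ => Nat.zero_le _)
      (Finset.mem_univ i)
  omega

/-- the part far from the origin -/
noncomputable def Df (P : MvPolynomial σ ℤ_[p]) (w : σ → ℕ) (u : ℤ_[p]) (m : ℕ) : ℂ :=
  ∫ x in {x : σ → ℤ_[p] | ∀ i, ‖x i‖ ≤ ((p : ℝ)⁻¹) ^ w i}ᶜ, ch p m (u * Gf P x)
    ∂(Measure.pi fun _ : σ => mu p)

theorem disc_meas (w : σ → ℕ) :
    MeasurableSet {x : σ → ℤ_[p] | ∀ i, ‖x i‖ ≤ ((p : ℝ)⁻¹) ^ w i} := by
  have h1 : {x : σ → ℤ_[p] | ∀ i, ‖x i‖ ≤ ((p : ℝ)⁻¹) ^ w i} =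
      ⋂ i, {x : σ → ℤ_[p] | ‖x i‖ ≤ ((p : ℝ)⁻¹) ^ w i} := by
    ext x
    simp
  rw [h1]
  exact MeasurableSet.iInter fun i => measurableSet_le (measurable_pi_apply i).norm
    measurable_const

theorem disc_shift (w : σ → ℕ) (j : ℕ) (hj : ∀ i, w i ≤ j) (x y : σ → ℤ_[p]) :
    (∀ i, ‖x i + (p : ℤ_[p]) ^ j * y i‖ ≤ ((p : ℝ)⁻¹) ^ w i) ↔
      ∀ i, ‖x i‖ ≤ ((p : ℝ)⁻¹) ^ w i := by
  refine forall_congr' fun i => ?_
  rw [le_iff_dvd, le_iff_dvd]
  exact dvd_add_left (Dvd.dvd.mul_right (pow_dvd_pow _ (hj i)) _)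

theorem Df_zero (P : MvPolynomial σ ℤ_[p]) (w : σ → ℕ) (v : ℕ)
    (hv : ∀ x : σ → ℤ_[p], (∃ i, ¬ ‖x i‖ ≤ ((p : ℝ)⁻¹) ^ w i) →
      ∃ l, ¬ ‖eval x (pderiv l P)‖ ≤ ((p : ℝ)⁻¹) ^ v) (m : ℕ) (hm : 2 * v + 1 ≤ m)
    (hm2 : ∀ i, 2 * w i ≤ m) (u : ℤ_[p]) (hu : ‖u‖ = 1) : Df P w u m = 0 := by
  classical
  set j := (m + 1) / 2 with hj
  have hjw : ∀ i, w i ≤ j := fun i => by have := hm2 i; omega
  have hj2 : m ≤ 2 * j := by omega
  have hj3 : j + v ≤ m := by omega
  set B : Set (σ → ℤ_[p]) := {x | ∀ i, ‖x i‖ ≤ ((p : ℝ)⁻¹) ^ w i} with hB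
  have hBm : MeasurableSet B := disc_meas w
  set F : (σ → ℤ_[p]) → ℂ := Bᶜ.indicator (fun x => ch p m (u * Gf P x)) with hF
  have hFm : Measurable F :=
    ((ch_meas p m).comp ((Gf_meas P).const_mul u)).indicator hBm.compl
  have hF1 : ∀ x, ‖F x‖ ≤ 1 := by
    intro x
    rw [hF]
    refine (norm_indicator_le_norm_self _ _).trans ?_
    exact (norm_ch p m _).le
  have h0 : Df P w u m = ∫ x, F x ∂(Measure.pi fun _ : σ => mu p) := by
    rw [hF, integral_indicator hBm.compl]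
    rfl
  have h1 : ∀ y : σ → ℤ_[p], ∫ x, F (fun i => x i + (p : ℤ_[p]) ^ j * y i)
      ∂(Measure.pi fun _ : σ => mu p) = ∫ x, F x ∂(Measure.pi fun _ : σ => mu p) := by
    intro y
    rw [← integral_add_right_eq_self (μ := Measure.pi fun _ : σ => mu p) F
      (fun i => (p : ℤ_[p]) ^ j * y i)]
    rfl
  have h2 : ∫ y, ∫ x, F (fun i => x i + (p : ℤ_[p]) ^ j * y i)
      ∂(Measure.pi fun _ : σ => mu p) ∂(Measure.pi fun _ : σ => mu p) = Df P w u m := by
    simp only [h1]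
    rw [integral_const, h0]
    simp
  rw [← h2, integral_integral_swap]
  · refine integral_eq_zero_of_ae (Filter.Eventually.of_forall fun x => ?_)
    beta_reduce
    by_cases hx : x ∈ B
    · have h3 : ∀ y : σ → ℤ_[p], F (fun i => x i + (p : ℤ_[p]) ^ j * y i) = 0 := by
        intro y
        have h4 : (fun i => x i + (p : ℤ_[p]) ^ j * y i) ∉ Bᶜ :=
          Set.notMem_compl_iff.2 ((disc_shift w j hjw x y).2 hx)
        exact Set.indicator_of_notMem h4 _
      simp only [h3]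
      simp
    · obtain ⟨l, hl⟩ := hv x (by
        by_contra h
        push Not at h
        exact hx h)
      have h3 : ∀ y : σ → ℤ_[p], F (fun i => x i + (p : ℤ_[p]) ^ j * y i) =
          ch p m (u * Gf P x) * ch p m (∑ i, y i * (u * ((p : ℤ_[p]) ^ j *
            eval x (pderiv i P)))) := by
        intro y
        rw [hF, Set.indicator_of_mem]
        · obtain ⟨r, hr⟩ := taylor P x y ((p : ℤ_[p]) ^ j)
          rw [← ch_add]
          refine ch_congr p m _ _ ?_
          rw [le_iff_dvd]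
          obtain ⟨i, hi⟩ : ∃ i, j * 2 = m + i := ⟨2 * j - m, by omega⟩
          refine ⟨u * (p : ℤ_[p]) ^ i * r, ?_⟩
          unfold Gf
          rw [hr, ← pow_mul, hi, pow_add]
          have h4 : ∑ i, y i * (u * ((p : ℤ_[p]) ^ j * eval x (pderiv i P))) =
              u * ((p : ℤ_[p]) ^ j * ∑ i, y i * eval x (pderiv i P)) := by
            rw [Finset.mul_sum, Finset.mul_sum]
            exact Finset.sum_congr rfl fun i _ => by ring
          rw [h4]
          ring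
        · exact fun h => hx ((disc_shift w j hjw x y).1 h)
      simp only [h3]
      rw [integral_const_mul, lin_zero m _ l, mul_zero]
      · rfl
      · intro h4
        apply hl
        rw [norm_mul, hu, one_mul, norm_mul, norm_p_pow] at h4
        have h5 : ((p : ℝ)⁻¹) ^ j * ‖eval x (pderiv l P)‖ ≤ ((p : ℝ)⁻¹) ^ j * ((p : ℝ)⁻¹) ^ v := by
          rw [← pow_add]
          exact h4.trans ((pw_le_iff _ _).2 hj3)
        exact le_of_mul_le_mul_left h5 (pow_pos (pinv_pos p) j)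
  · refine bdd_int _ _ ?_ 1 fun q => hF1 _
    refine hFm.comp ?_
    refine measurable_pi_lambda _ fun i => ?_
    exact ((measurable_pi_apply i).comp measurable_snd).add
      (((measurable_pi_apply i).comp measurable_fst).const_mul _)

theorem Df_loc (P : MvPolynomial σ ℤ_[p]) (w : σ → ℕ) (m : ℕ) (u v : ℤ_[p])
    (h : ‖u - v‖ ≤ ((p : ℝ)⁻¹) ^ m) : Df P w u m = Df P w v m := by
  unfold Df
  refine integral_congr_ae (Filter.Eventually.of_forall fun x => ?_)
  refine ch_congr p m _ _ ?_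
  rw [← sub_mul, norm_mul]
  exact (mul_le_of_le_one_right (norm_nonneg _) (PadicInt.norm_le_one _)).trans h

theorem Df_good (P : MvPolynomial σ ℤ_[p]) (w : σ → ℕ) (v : ℕ)
    (hv : ∀ x : σ → ℤ_[p], (∃ i, ¬ ‖x i‖ ≤ ((p : ℝ)⁻¹) ^ w i) →
      ∃ l, ¬ ‖eval x (pderiv l P)‖ ≤ ((p : ℝ)⁻¹) ^ v) : GoodE p (fun _ => 0) (Df P w) := by
  classical
  set m0 := 2 * v + 1 + 2 * ∑ i, w i with hm0
  have h1 : ∀ m, m0 ≤ m → ∀ i, 2 * w i ≤ m := by
    intro m hm i
    have := Finset.single_le_sum (f := w) (fun i _ => Nat.zero_le _) (Finset.mem_univ i)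
    omega
  refine ⟨m0, fun u z hu hz huz m => ?_, fun u hu => ?_⟩
  · by_cases hm : m0 ≤ m
    · rw [Df_zero P w v hv m (by omega) (h1 m hm) u hu, Df_zero P w v hv m (by omega) (h1 m hm) z hz]
    · exact Df_loc P w m u z (huz.trans ((pw_le_iff _ _).2 (by omega)))
  · exact N0_EP _ ⟨m0, fun m hm => Df_zero P w v hv m (by omega) (h1 m hm) u hu⟩

theorem eval_scale (P : MvPolynomial σ ℤ_[p]) (w : σ → ℕ) (d : ℕ)
    (hP : IsWeightedHomogeneous w P d) (y : σ → ℤ_[p]) :
    eval (fun i => (p : ℤ_[p]) ^ w i * y i) P = (p : ℤ_[p]) ^ d * eval y P := by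
  classical
  rw [eval_eq, eval_eq, Finset.mul_sum]
  refine Finset.sum_congr rfl fun s hs => ?_
  have h1 := hP (mem_support_iff.1 hs)
  rw [Finsupp.weight_apply, Finsupp.sum] at h1
  have h2 : ∏ i ∈ s.support, ((p : ℤ_[p]) ^ w i * y i) ^ s i =
      (p : ℤ_[p]) ^ d * ∏ i ∈ s.support, y i ^ s i := by
    rw [← h1, ← Finset.prod_pow_eq_pow_sum, ← Finset.prod_mul_distrib]
    refine Finset.prod_congr rfl fun i _ => ?_
    rw [mul_pow, ← pow_mul, smul_eq_mul, mul_comm (w i)]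
  rw [h2]
  ring

/-- the recursion -/
theorem Et_iso_rec (P : MvPolynomial σ ℤ_[p]) (w : σ → ℕ) (d : ℕ)
    (hP : IsWeightedHomogeneous w P d) (u : ℤ_[p]) (m : ℕ) :
    Et (Measure.pi fun _ : σ => mu p) (Gf P) u m = ((p : ℂ)⁻¹) ^ (∑ i, w i) *
      (if m < d then 1 else Et (Measure.pi fun _ : σ => mu p) (Gf P) u (m - d)) +
        Df P w u m := by
  have hm : Measurable (fun x => ch p m (u * Gf P x)) :=
    (ch_meas p m).comp ((Gf_meas P).const_mul u)
  rw [← Et_pmul]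
  unfold Et Df
  rw [← integral_add_compl (disc_meas w) (bdd_int _ _ hm 1 fun x => (norm_ch p m _).le),
    int_disc w _ hm]
  congr 3
  funext y
  unfold Gf
  rw [eval_scale P w d hP]
  congr 1
  ring

/-- the pole `T ^ a = p ^ S` -/
noncomputable def mS (p a S : ℕ) (T : ℂ) : ℕ∞ :=
  open Classical in if T ^ a = (p : ℂ) ^ S then 1 else 0

theorem mult_XS (a : ℕ) (ha : 1 ≤ a) (S : ℕ) (hS : 1 ≤ S) :
    (Polynomial.X ^ a - Polynomial.C ((p : ℂ) ^ S) : Polynomial ℂ) ≠ 0 ∧ ∀ T : ℂ, T ≠ 0 →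
      (((Polynomial.X ^ a - Polynomial.C ((p : ℂ) ^ S) : Polynomial ℂ).rootMultiplicity T : ℕ) :
        ℕ∞) ≤ mS p a S T := by
  classical
  have hp1 : (p : ℂ) ^ S ≠ 1 := by
    have h1 : (1 : ℕ) < p ^ S := Nat.one_lt_pow (by omega) (Fact.out : p.Prime).one_lt
    exact_mod_cast h1.ne'
  set D : Polynomial ℂ := Polynomial.X ^ a - Polynomial.C ((p : ℂ) ^ S) with hD
  have hD0 : D ≠ 0 := by
    intro h0
    have h1 := congrArg (fun P : Polynomial ℂ => P.eval 1) h0
    simp only [hD, Polynomial.eval_sub, Polynomial.eval_pow, Polynomial.eval_X, one_pow,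
      Polynomial.eval_C, Polynomial.eval_zero] at h1
    exact hp1 (sub_eq_zero.1 h1).symm
  refine ⟨hD0, fun T hT => ?_⟩
  unfold mS
  split_ifs with hTp
  · have h2 : ¬ 1 < D.rootMultiplicity T := by
      rw [Polynomial.one_lt_rootMultiplicity_iff_isRoot hD0]
      rintro ⟨-, h2⟩
      rw [Polynomial.IsRoot.def, hD] at h2
      simp only [Polynomial.derivative_sub, Polynomial.derivative_X_pow,
        Polynomial.derivative_C, sub_zero, Polynomial.eval_mul, Polynomial.eval_C,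
        Polynomial.eval_pow, Polynomial.eval_X] at h2
      rcases mul_eq_zero.1 h2 with h3 | h3
      · have : a = 0 := by exact_mod_cast h3
        omega
      · exact pow_ne_zero _ hT h3
    exact_mod_cast not_lt.1 h2
  · have h1 : D.rootMultiplicity T = 0 := by
      apply Polynomial.rootMultiplicity_eq_zero
      rw [Polynomial.IsRoot, hD]
      simp only [Polynomial.eval_sub, Polynomial.eval_C, Polynomial.eval_X,
        Polynomial.eval_pow]
      exact fun h => hTp (sub_eq_zero.1 h)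
    rw [h1]
    simp

/-- a recursion of step `a` -/
theorem EP_recS (M : ℂ → ℕ∞) (a : ℕ) (ha : 1 ≤ a) (S : ℕ) (hS : 1 ≤ S) (c d : ℕ → ℂ)
    (hd : d ∈ EP M)
    (h : ∀ m, c m = ((p : ℂ)⁻¹) ^ S * (if m < a then 1 else c (m - a)) + d m) :
    c ∈ EP (fun T => M T + mS p a S T) := by
  classical
  have hp0 : (p : ℂ) ^ S ≠ 0 := pow_ne_zero _ (by exact_mod_cast (Fact.out : p.Prime).ne_zero)
  obtain ⟨D, P, hD, h1, h2⟩ := EP_rat M d hd
  obtain ⟨h3, h4⟩ := mult_XS (p := p) a ha S hS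
  set R : Polynomial ℂ := ∑ i ∈ Finset.range a, Polynomial.X ^ i with hR
  have h5 : (((Polynomial.X ^ a - Polynomial.C ((p : ℂ) ^ S) : Polynomial ℂ) :
      PowerSeries ℂ)) * ser c =
      ((-R : Polynomial ℂ) : PowerSeries ℂ) - PowerSeries.C ((p : ℂ) ^ S) * ser d := by
    ext m
    rw [Polynomial.coe_sub, Polynomial.coe_pow, Polynomial.coe_X, Polynomial.coe_C, sub_mul,
      map_sub, map_sub, PowerSeries.coeff_C_mul, PowerSeries.coeff_C_mul, coeff_ser, coeff_ser,
      Polynomial.coeff_coe, Polynomial.coeff_neg, PowerSeries.coeff_X_pow_mul', coeff_ser, h m, hR,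
      Polynomial.finsetSum_coeff, inv_pow]
    simp only [Polynomial.coeff_X_pow]
    by_cases hm : m < a
    · rw [if_pos hm, if_neg (by omega), Finset.sum_ite_eq, if_pos (Finset.mem_range.2 hm)]
      field_simp
      ring
    · rw [if_neg hm, if_pos (by omega), Finset.sum_ite_eq, if_neg (by simpa using hm)]
      field_simp
      ring
  refine rat_EP _ (D * (Polynomial.X ^ a - Polynomial.C ((p : ℂ) ^ S))) (mul_ne_zero hD h3) c
    (-(D * R) - Polynomial.C ((p : ℂ) ^ S) * P) ?_ fun T hT => ?_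
  · rw [Polynomial.coe_mul, mul_assoc, h5, mul_sub, mul_left_comm, h1]
    rw [Polynomial.coe_sub, Polynomial.coe_neg, Polynomial.coe_neg, Polynomial.coe_mul,
      Polynomial.coe_mul, Polynomial.coe_C]
    ring
  · rw [Polynomial.rootMultiplicity_mul (mul_ne_zero hD h3)]
    push_cast
    exact add_le_add (h2 T hT) (h4 T hT)

theorem GoodE.recS {M : ℂ → ℕ∞} {E D : ℤ_[p] → ℕ → ℂ} (hD : GoodE p M D) (a : ℕ) (ha : 1 ≤ a)
    (S : ℕ) (hS : 1 ≤ S)
    (h : ∀ u, ‖u‖ = 1 → ∀ m, E u m = ((p : ℂ)⁻¹) ^ S * (if m < a then 1 else E u (m - a)) +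
      D u m) : GoodE p (fun T => M T + mS p a S T) E := by
  obtain ⟨c, hc, hEP⟩ := hD
  refine ⟨c, fun u v hu hv huv m => ?_, fun u hu =>
    EP_recS M a ha S hS (E u) (D u) (hEP u hu) (h u hu)⟩
  induction m using Nat.strong_induction_on with
  | _ m ih =>
    rw [h u hu, h v hv, hc u v hu hv huv m]
    congr 2
    split_ifs with hm
    · rfl
    · exact ih (m - a) (by omega)

/-- **The exponential sums**, integral coefficients. -/
theorem Gf_good (P : MvPolynomial σ ℤ_[p]) (w : σ → ℕ) (d : ℕ) (hd : 1 ≤ d)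
    (hw : 1 ≤ ∑ i, w i) (hP : IsWeightedHomogeneous w P d) (N : ℕ)
    (hA : ∀ i, ∃ (M : ℕ) (A : σ → MvPolynomial σ ℤ_[p]),
      C ((p : ℤ_[p]) ^ M) * X i ^ N = ∑ l, A l * pderiv l P) :
    GoodE p (mS p d (∑ i, w i)) (Et (Measure.pi fun _ : σ => mu p) (Gf P)) := by
  obtain ⟨v, hv⟩ := grad P w N hA
  have h1 := GoodE.recS (Df_good P w v hv) d hd (∑ i, w i) hw fun u _ m =>
    Et_iso_rec P w d hP u m
  simpa using h1

end main

section clear

variable {σ : Type} [Fintype σ]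

/-- the inclusion of the coefficients -/
noncomputable def mi (P : MvPolynomial σ ℤ_[p]) : MvPolynomial σ ℚ_[p] :=
  map (PadicInt.Coe.ringHom (p := p)) P

theorem mi_inj : Function.Injective (mi (p := p) (σ := σ)) :=
  map_injective _ fun x y h => Subtype.ext h

/-- clearing denominators -/
theorem clear (f : MvPolynomial σ ℚ_[p]) : ∃ K0 : ℕ, ∀ K, K0 ≤ K →
    ∃ P : MvPolynomial σ ℤ_[p], mi P = C ((p : ℚ_[p]) ^ K) * f := by
  have hp0 : (p : ℚ_[p]) ≠ 0 := by exact_mod_cast (Fact.out : p.Prime).ne_zero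
  induction f using MvPolynomial.induction_on with
  | C a =>
    have h1 : ∃ K0 : ℕ, ∀ K, K0 ≤ K → ‖(p : ℚ_[p]) ^ K * a‖ ≤ 1 := by
      have hp1 : (1 : ℝ) < p := by exact_mod_cast (Fact.out : p.Prime).one_lt
      obtain ⟨K0, hK0⟩ := pow_unbounded_of_one_lt ‖a‖ hp1
      refine ⟨K0, fun K hK => ?_⟩
      rw [norm_mul, norm_pow, Padic.norm_p, inv_pow, inv_mul_le_iff₀ (by positivity), mul_one]
      exact hK0.le.trans (pow_le_pow_right₀ hp1.le hK)
    obtain ⟨K0, hK0⟩ := h1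
    refine ⟨K0, fun K hK => ?_⟩
    obtain ⟨z, hz⟩ : ∃ z : ℤ_[p], PadicInt.Coe.ringHom z = (p : ℚ_[p]) ^ K * a :=
      ⟨⟨_, hK0 K hK⟩, rfl⟩
    refine ⟨C z, ?_⟩
    unfold mi
    rw [map_C, ← C_mul, hz]
  | add f g hf hg =>
    obtain ⟨K1, h1⟩ := hf
    obtain ⟨K2, h2⟩ := hg
    refine ⟨max K1 K2, fun K hK => ?_⟩
    obtain ⟨P, hP⟩ := h1 K (le_trans (le_max_left _ _) hK)
    obtain ⟨Q, hQ⟩ := h2 K (le_trans (le_max_right _ _) hK)
    refine ⟨P + Q, ?_⟩
    unfold mi at *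
    rw [map_add, hP, hQ]
    ring
  | mul_X f i hf =>
    obtain ⟨K1, h1⟩ := hf
    refine ⟨K1, fun K hK => ?_⟩
    obtain ⟨P, hP⟩ := h1 K hK
    refine ⟨P * X i, ?_⟩
    unfold mi at *
    rw [map_mul, hP, map_X]
    ring

theorem mi_pderiv (i : σ) (P : MvPolynomial σ ℤ_[p]) : mi (pderiv i P) = pderiv i (mi P) :=
  (pderiv_map).symm

/-- **The exponential sums of weighted homogeneous polynomials with an isolated critical point.** -/
theorem XE_iso (g : MvPolynomial σ ℚ_[p]) (w : σ → ℕ) (d : ℕ) (hd : 1 ≤ d) (hw : 1 ≤ ∑ i, w i)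
    (hg : IsWeightedHomogeneous w g d) (N : ℕ)
    (hN : ∀ i, X i ^ N ∈ Ideal.span (Set.range fun j => pderiv j g)) (M : ℂ → ℕ∞)
    (hM : ∀ T : ℂ, 1 < ‖T‖ → T ^ d = (p : ℂ) ^ (∑ i, w i) → 1 ≤ M T) : XE M g := by
  classical
  have hp0 : (p : ℚ_[p]) ≠ 0 := by exact_mod_cast (Fact.out : p.Prime).ne_zero
  obtain ⟨K, hK⟩ := clear g
  obtain ⟨P, hP⟩ := hK K le_rfl
  refine ⟨K, Gf P, fun x => ?_, ?_⟩
  · have h1 := congrArg (eval fun i => inc p (x i)) hP
    rw [map_mul, eval_C] at h1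
    rw [← h1]
    unfold mi Gf
    rw [eval_map]
    change PadicInt.Coe.ringHom (eval x P) = _
    rw [← eval₂_id, eval₂_comp_left, RingHom.comp_id]
    rfl
  · have hPw : IsWeightedHomogeneous w P d := by
      intro s hs
      refine hg fun h0 => hs ?_
      have h1 := congrArg (coeff s) hP
      unfold mi at h1
      rw [coeff_map, coeff_C_mul, h0, mul_zero] at h1
      exact Subtype.ext h1
    have hA : ∀ i, ∃ (M : ℕ) (A : σ → MvPolynomial σ ℤ_[p]),
        C ((p : ℤ_[p]) ^ M) * X i ^ N = ∑ l, A l * pderiv l P := by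
      intro i
      obtain ⟨a, ha⟩ := Ideal.mem_span_range_iff_exists_fun.1 (hN i)
      choose K1 hK1 using fun l => clear (a l)
      set K2 := ∑ l, K1 l with hK2
      have h1 : ∀ l, ∃ A : MvPolynomial σ ℤ_[p], mi A = C ((p : ℚ_[p]) ^ K2) * a l := fun l =>
        hK1 l K2 (Finset.single_le_sum (f := K1) (fun _ _ => Nat.zero_le _) (Finset.mem_univ l))
      choose A hA using h1
      refine ⟨K2 + K, A, mi_inj ?_⟩
      have h2 : mi (∑ l, A l * pderiv l P) = ∑ l, mi (A l) * pderiv l (mi P) := by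
        unfold mi
        rw [map_sum]
        refine Finset.sum_congr rfl fun l _ => ?_
        rw [map_mul, pderiv_map]
      rw [h2, hP]
      have h3 : mi (C ((p : ℤ_[p]) ^ (K2 + K)) * X i ^ N) =
          C ((p : ℚ_[p]) ^ K2) * C ((p : ℚ_[p]) ^ K) * X i ^ N := by
        have h4 : PadicInt.Coe.ringHom ((p : ℤ_[p]) ^ (K2 + K)) = (p : ℚ_[p]) ^ (K2 + K) := by
          rw [map_pow, map_natCast]
        have h5 : map (PadicInt.Coe.ringHom (p := p)) (X i ^ N : MvPolynomial σ ℤ_[p]) =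
            X i ^ N := by
          rw [map_pow, map_X]
        unfold mi
        rw [map_mul, map_C, h4, h5, ← C_mul, ← pow_add]
      rw [h3, ← ha, Finset.mul_sum]
      refine Finset.sum_congr rfl fun l _ => ?_
      rw [hA, pderiv_C_mul]
      ring
    refine (Gf_good P w d hd hw hPw N hA).mono fun T _ => ?_
    unfold mS Pool.Agent.Y230.PS.tr
    split_ifs with h1 h2 h2
    · exfalso
      have h3 := congrArg norm h1
      rw [norm_pow, norm_pow, Complex.norm_natCast] at h3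
      have h4 : ‖T‖ ^ d ≤ 1 := pow_le_one₀ (norm_nonneg _) h2
      have h5 : (1 : ℝ) < (p : ℝ) ^ (∑ i, w i) :=
        one_lt_pow₀ (by exact_mod_cast (Fact.out : p.Prime).one_lt) (by omega)
      linarith
    · exact hM T (not_le.1 h2) h1
    · exact le_rfl
    · exact bot_le

end clear

end Pool.Agent.T6.H26
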