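import Pool.Agent.T6.H26.ISGM
import Pool.Agent.T6.H26.ISExp
import Pool.Agent.T6.H26.FTMlt
import Pool.Agent.T6.H26.FTDefs

set_option autoImplicit false
set_option linter.unusedSectionVars false
set_option linter.unusedVariables false

/-! # Weighted homogeneous polynomials with an isolated critical point -/

namespace Pool.Agent.T6.H26

open MvPolynomial
open Pool.Agent.Y230.PT Pool.Agent.Y230.PS Pool.Agent.Y230.TH Pool.Agent.R852.PP
open Pool.Agent.W574.SM (weyl IsFunctionalEq)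
open Pool.Agent.W574.RO Pool.Agent.W574.CN
open Pool.Agent.W574.HS (minus_one)
open Pool.Agent.H628R4.TP (IsBFunction weylS)

attribute [local instance] Pool.Agent.W427.SMC.msZ Pool.Agent.W427.SMC.bsZ nz

/-- a functional equation, without the factor `s + 1` -/
theorem isB_W {σ : Type} (g : MvPolynomial σ ℂ) (hg : g ≠ 0) (hc : constantCoeff g = 0)
    (b : Polynomial ℂ) (hb : IsBFunction g b) : ∃ b' : Polynomial ℂ,
      b = (Polynomial.X + 1) * b' ∧ (fun k : ℕ => b'.eval (k : ℂ) • g ^ k) ∈ W g := by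
  classical
  obtain ⟨P, hP⟩ := hb
  have hm1 : b.eval (-1) = 0 := by
    refine minus_one g 1 hg ?_ b P fun s => ?_
    · rintro ⟨G, hG⟩
      have h1 := congrArg constantCoeff hG
      rw [map_one, map_mul, hc, zero_mul] at h1
      exact one_ne_zero h1
    · rw [one_mul]
      exact hP s
  obtain ⟨b', hb'⟩ : (Polynomial.X + 1 : Polynomial ℂ) ∣ b := by
    have := Polynomial.dvd_iff_isRoot.2 hm1
    rwa [Polynomial.C_neg, sub_neg_eq_add, Polynomial.C_1] at this
  refine ⟨b', hb', ?_⟩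
  have h1 : (fun k : ℕ => b'.eval (k : ℂ) • g ^ k) = ∑ m ∈ P.support, fun k : ℕ =>
      ((k : ℂ) ^ m * kf k 1) • (P m : Module.End ℂ (MvPolynomial σ ℂ)) (g ^ (k + 1)) := by
    funext k
    rw [Finset.sum_apply]
    have h2 := hP k
    rw [hb', Polynomial.eval_mul, Polynomial.eval_add, Polynomial.eval_X, Polynomial.eval_one,
      ← smul_eq_C_mul, Finsupp.sum] at h2
    have h3 : kf k 1 * ((k : ℂ) + 1) = 1 := by
      unfold kf
      rw [Nat.factorial_succ]
      push_cast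
      have h4 : (k.factorial : ℂ) ≠ 0 := by exact_mod_cast k.factorial_ne_zero
      have h5 : (k : ℂ) + 1 ≠ 0 := by exact_mod_cast Nat.succ_ne_zero k
      field_simp
    have h4 := congrArg (fun G => kf k 1 • G) h2
    beta_reduce at h4
    rw [smul_smul, ← mul_assoc, h3, one_mul, Finset.smul_sum] at h4
    rw [h4]
    refine Finset.sum_congr rfl fun m _ => ?_
    rw [smul_smul, mul_comm]
  rw [h1]
  exact (W g).sum_mem fun m _ => Submodule.subset_span ⟨m, 1, ⟨(P m).1, (P m).2⟩, le_rfl, rfl⟩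

/-- the powers of the variables, over `ℚ` -/
theorem pow_mem {n : ℕ} (g : MvPolynomial (Fin n) ℚ)
    (h : ∀ z : Fin n → ℂ, (∀ i, aeval z (pderiv i g) = 0) → z = 0) :
    ∃ N : ℕ, ∀ i, X i ^ N ∈ Ideal.span (Set.range fun j => pderiv j g) := by
  classical
  have h1 : ∀ i : Fin n, ∃ N : ℕ, X i ^ N ∈ Ideal.span (Set.range fun j => pderiv j g) := by
    intro i
    have h2 : (X i : MvPolynomial (Fin n) ℚ) ∈
        (Ideal.span (Set.range fun j => pderiv j g)).radical := by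
      rw [← vanishingIdeal_zeroLocus_eq_radical (K := ℂ), mem_vanishingIdeal_iff]
      intro z hz
      rw [mem_zeroLocus_iff] at hz
      have h3 : z = 0 := h z fun l => hz _ (Ideal.subset_span ⟨l, rfl⟩)
      rw [aeval_X, h3]
      rfl
    exact h2
  choose N hN using h1
  refine ⟨∑ i, N i, fun i => ?_⟩
  obtain ⟨k, hk⟩ := Nat.exists_eq_add_of_le
    (Finset.single_le_sum (f := N) (fun _ _ => Nat.zero_le _) (Finset.mem_univ i))
  rw [hk, pow_add]
  exact Ideal.mul_mem_right _ _ (hN i)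

theorem pow_mem_map {n : ℕ} {K : Type} [Field K] [Algebra ℚ K] (g : MvPolynomial (Fin n) ℚ) (N : ℕ)
    (h : ∀ i, X i ^ N ∈ Ideal.span (Set.range fun j => pderiv j g)) (i : Fin n) :
    X i ^ N ∈ Ideal.span (Set.range fun j => pderiv j (map (algebraMap ℚ K) g)) := by
  classical
  obtain ⟨a, ha⟩ := Ideal.mem_span_range_iff_exists_fun.1 (h i)
  refine Ideal.mem_span_range_iff_exists_fun.2 ⟨fun l => map (algebraMap ℚ K) (a l), ?_⟩
  have h1 := congrArg (map (algebraMap ℚ K)) ha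
  rw [map_sum, map_pow, map_X] at h1
  rw [← h1]
  refine Finset.sum_congr rfl fun l _ => ?_
  rw [map_mul, pderiv_map]

variable {n : ℕ}

theorem IsoCrit.ne {g : MvPolynomial (Fin (n + 1)) ℚ} {w : Fin (n + 1) → ℕ} {d : ℕ}
    (h : IsoCrit g w d) : g ≠ 0 := by
  rintro rfl
  have h1 := h.iso (fun _ => 1) fun i => by rw [map_zero, map_zero]
  have h2 := congrFun h1 0
  exact one_ne_zero h2

theorem IsoCrit.wh {g : MvPolynomial (Fin (n + 1)) ℚ} {w : Fin (n + 1) → ℕ} {d : ℕ}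
    (h : IsoCrit g w d) : WH g := by
  refine ⟨h.ne, fun i => (w i : ℤ), d, by exact_mod_cast (Nat.zero_le _).trans_lt (h.lt 0), ?_⟩
  intro s hs
  rw [← h.hom hs, Finsupp.weight_apply, Finsupp.weight_apply, Finsupp.sum, Finsupp.sum,
    Nat.cast_sum]
  refine Finset.sum_congr rfl fun i _ => ?_
  simp

theorem wh_mapN {R S : Type} [CommSemiring R] [CommSemiring S] {σ : Type} (φ : R →+* S)
    (w : σ → ℕ) (g : MvPolynomial σ R) (d : ℕ)
    (h : IsWeightedHomogeneous w g d) : IsWeightedHomogeneous w (map φ g) d := by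
  intro e he
  rw [coeff_map] at he
  exact h fun h0 => he (by rw [h0, map_zero])

/-- **The root.** -/
theorem FK_iso {g : MvPolynomial (Fin (n + 1)) ℚ} {w : Fin (n + 1) → ℕ} {d : ℕ}
    (h : IsoCrit g w d) : FK ⟨Fin (n + 1), Fin 1, fun _ => g⟩ (-((∑ i, w i : ℕ) : ℂ) / d)
      (1 + dl (-((∑ i, w i : ℕ) : ℂ) / d)) := by
  rw [FK_iff]
  intro b hb
  obtain ⟨N, hN⟩ := pow_mem g h.iso
  obtain ⟨b', e, h1⟩ := isB_W _ (map_ne h.ne) (map_const h.wh.const) b hb
  have h2 := RD (map (algebraMap ℚ ℂ) g) w d ((Nat.zero_le _).trans_lt (h.lt 0)) h.lt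
    (wh_mapN _ w g d h.hom) N (pow_mem_map g N hN) b' h1
  rw [e]
  refine dvd_dl _ 1 b' ?_
  rw [pow_one, Polynomial.dvd_iff_isRoot]
  exact h2

variable {p : ℕ} [Fact p.Prime]

/-- **The atoms.** -/
theorem XE_atom {g : MvPolynomial (Fin (n + 1)) ℚ} {w : Fin (n + 1) → ℕ} {d : ℕ}
    (h : IsoCrit g w d) : XE (mE p g) (map (algebraMap ℚ ℚ_[p]) g) := by
  obtain ⟨N, hN⟩ := pow_mem g h.iso
  have hd : 1 ≤ d := (Nat.zero_le _).trans_lt (h.lt 0)
  have hw : 1 ≤ ∑ i, w i := (h.pos 0).trans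
    (Finset.single_le_sum (f := w) (fun _ _ => Nat.zero_le _) (Finset.mem_univ 0))
  refine XE_iso _ w d hd hw (wh_mapN _ w g d h.hom) N (pow_mem_map g N hN) _ fun T hT hTd => ?_
  have h1 : ((rr p T : ℝ) : ℂ) = -((∑ i, w i : ℕ) : ℂ) / d := by
    obtain ⟨m, hm⟩ : ∃ m, ∑ i, w i = m + 1 := ⟨∑ i, w i - 1, by omega⟩
    rw [hm] at hTd ⊢
    rw [rr_cone m d hd T hTd]
    push_cast
    rfl
  rw [mE_top]
  · exact le_top
  · rw [h1]
    exact FK_iso h

end Pool.Agent.T6.H26
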