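import Pool.Agent.T6.H26.FTDefs
import Pool.Agent.T6.H26.FTMlt
import Pool.Agent.T6.H26.ISAtom
import Pool.Agent.T6.H26.TSC

set_option autoImplicit false
set_option linter.unusedSectionVars false
set_option linter.unusedVariables false

/-! # Sums, products and powers in disjoint variables: the zeta functions -/

namespace Pool.Agent.T6.H26

open MvPolynomial
open Pool.Agent.Y230.PT Pool.Agent.Y230.PS Pool.Agent.Y230.TH Pool.Agent.R852.PP
open Pool.Agent.W574.RO Pool.Agent.W574.CN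

attribute [local instance] Pool.Agent.W427.SMC.msZ Pool.Agent.W427.SMC.bsZ nz

variable {p : ℕ} [Fact p.Prime]

/-- the properties of the three kinds -/
def Mot (p : ℕ) [Fact p.Prime] : Kd → FamQ → Prop
  | Kd.idl, A => (∃ j, A.f j ≠ 0) ∧ FR p (mR p A) (Pool.Agent.Y230.PS.FF (A.toP p))
  | Kd.hyp, A => (∃ j, A.f j ≠ 0) ∧ FR p (rG p (wR p) A) (Pool.Agent.Y230.PS.FF (A.toP p))
  | Kd.exh, A => ∃ j0 : A.ι, (∀ j, j = j0) ∧ WH (A.f j0) ∧ XE (mE p (A.f j0)) (A.toP p j0)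

theorem mot_exh {A : FamQ} (h : Mot p Kd.exh A) : Mot p Kd.hyp A := by
  classical
  obtain ⟨j0, hj, hW, hX⟩ := h
  refine ⟨⟨j0, hW.1⟩, ?_⟩
  have h1 := hX.FR (M' := rG p (wR p) ⟨A.σ, Fin 1, fun _ => A.f j0⟩) (H_fin hW)
  set k : Fin 1 ≃ A.ι := ⟨fun _ => j0, fun _ => 0, fun _ => Subsingleton.elim _ _,
    fun j => (hj j).symm⟩ with hk
  have h2 : ∀ j : Fin 1, A.f (k j) = rename (Equiv.refl A.σ) (A.f j0) := by
    intro j
    rw [Equiv.coe_refl, rename_id_apply]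
    rfl
  have h3 : ∀ s : ℝ, Pool.Agent.Y230.PS.FF (fun _ : Fin 1 => A.toP p j0) s =
      Pool.Agent.Y230.PS.FF (A.toP p) s := fun s => by
    rw [FF_equiv (Equiv.refl A.σ) k (fun _ : Fin 1 => A.toP p j0) (A.toP p) (fun j => by
      rw [Equiv.coe_refl, rename_id_apply]
      rfl) s]
  refine (h1.mono fun T _ => ?_).congr fun s _ => h3 s
  exact rG_le_of fun m hm => FK_equiv ⟨A.σ, Fin 1, fun _ => A.f j0⟩ A (Equiv.refl _) k h2 _ m hm

section cases

variable {σ τ : Type} [Fintype σ] [Fintype τ]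

/-- the third class -/
def ME (p : ℕ) [Fact p.Prime] (g : MvPolynomial σ ℚ) : Prop :=
  WH g ∧ XE (mE p g) (map (algebraMap ℚ ℚ_[p]) g)

theorem ME.add {g₁ : MvPolynomial σ ℚ} {g₂ : MvPolynomial τ ℚ} (h1 : ME p g₁) (h2 : ME p g₂) :
    ME p (rename Sum.inl g₁ + rename Sum.inr g₂ : MvPolynomial (σ ⊕ τ) ℚ) := by
  refine ⟨h1.1.add h2.1, ?_⟩
  rw [map_add, map_rename, map_rename]
  exact XE.add h1.2 h2.2 (H_add h1.1 h2.1)

theorem ME.mul {g₁ : MvPolynomial σ ℚ} {g₂ : MvPolynomial τ ℚ} (h1 : ME p g₁) (h2 : ME p g₂) :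
    ME p (rename Sum.inl g₁ * rename Sum.inr g₂ : MvPolynomial (σ ⊕ τ) ℚ) := by
  refine ⟨h1.1.mul h2.1, ?_⟩
  rw [map_mul, map_rename, map_rename]
  exact XE.mul h1.2 h2.2 (H_mul h1.1 h2.1)

theorem ME.pow {g : MvPolynomial σ ℚ} (h : ME p g) (k : ℕ) (hk : k ≠ 0) : ME p (g ^ k) := by
  by_cases hk1 : k = 1
  · subst hk1
    have e : g ^ 1 = g := pow_one g
    rw [e]
    exact h
  · refine ⟨h.1.pow k hk, ?_⟩
    rw [map_pow]
    exact XE.pow h.2 k (by omega) (H_pow h.1 k (by omega))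

theorem ME.smul {g : MvPolynomial σ ℚ} (h : ME p g) (c : ℚ) (hc : c ≠ 0) : ME p (C c * g) := by
  refine ⟨h.1.smul c hc, ?_⟩
  rw [map_mul, map_C]
  refine (XE.smul h.2 _ ?_).mono fun T _ => H_smul g c hc T
  rw [Ne, map_eq_zero_iff _ (algebraMap ℚ ℚ_[p]).injective]
  exact hc

theorem ME.equiv {g : MvPolynomial σ ℚ} (h : ME p g) (i : σ ≃ τ) : ME p (rename i g) := by
  refine ⟨h.1.equiv i, ?_⟩
  rw [map_rename]
  exact (h.2.equiv i).mono fun T _ => H_equiv g i T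

theorem ME.form {m : ℕ} {r a : Fin m → ℕ} (hm : 0 < m) (ha : ∀ t, 0 < a t)
    (f : (t : Fin m) → Fin (r t) → MvPolynomial σ ℚ) (hne : ∃ J, genP a 1 f J ≠ 0)
    (h1 : FR p (mR p (genQ a 1 f)) (Pool.Agent.Y230.PS.FF ((genQ a 1 f).toP p))) :
    ME p (formP a 1 f) := by
  obtain ⟨n, rfl⟩ : ∃ n, m = n + 1 := ⟨m - 1, by omega⟩
  obtain ⟨hh, hf⟩ := genQ_ne a 1 f ha hne
  rw [genQ_toP, map_one] at h1
  refine ⟨formP_WH a f hm ha hne, ?_⟩
  rw [formP_P, map_one]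
  exact XE_form (fun t => ⟨(hf t).choose⟩) a ha _ h1 (H_form a f ha hne)

theorem mot_of {g : MvPolynomial σ ℚ} (h : ME p g) : Mot p Kd.exh ⟨σ, Fin 1, fun _ => g⟩ :=
  ⟨(0 : Fin 1), fun j => Subsingleton.elim _ _, h.1, h.2⟩

theorem of_mot {g : MvPolynomial σ ℚ} (h : Mot p Kd.exh ⟨σ, Fin 1, fun _ => g⟩) : ME p g := by
  obtain ⟨j1, -, hW1, hX1⟩ := h
  exact ⟨hW1, hX1⟩

end cases

/-- **The zeta functions of the class.** -/
theorem ro_main (c : Kd) (A : FamQ) (h : RO c A) : Mot p c A := by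
  classical
  have hM := isMltP_R (p := p)
  induction h with
  | ptsI A h =>
    have h1 := pts_main hM false A h
    simpa [Mot] using h1
  | ptsH A h =>
    have h1 := pts_main hM true A h
    simpa [Mot] using h1
  | ofHyp A h ih => exact ⟨ih.1, ih.2.mono (hM.base.hyp A)⟩
  | ofExh A h ih => exact mot_exh ih
  | pow σ g k hk h ih =>
    have hg : g ≠ 0 := by
      obtain ⟨j, hj⟩ := ih.1
      exact hj
    refine ⟨⟨(0 : Fin 1), pow_ne_zero k hg⟩, ?_⟩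
    exact pow_case hk (fun T => hM.pow σ g hg k hk T) (ih.2.mono (hM.base.hyp _))
  | sum A B hA hB ihA ihB =>
    refine ⟨sum_ne A B ihA.1, ?_⟩
    rw [toP_sum]
    exact FR_sumK _ _ _ _ _ (hM.base.base.sum A B) ihA.2 ihB.2
  | mulI A B hA hB ihA ihB =>
    refine ⟨mul_ne A B ihA.1 ihB.1, ?_⟩
    rw [toP_mul]
    refine (FR.mul ihA.2 ihB.2 (fun T hT => hM.base.base.mul A B T hT ihA.1 ihB.1)).congr
      fun s hs => ?_
    rw [FF_mulK]
  | mulH A B hA hB ihA ihB =>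
    refine ⟨mul_ne A B ihA.1 ihB.1, ?_⟩
    rw [toP_mul]
    refine (FR.mul ihA.2 ihB.2 (fun T hT => hM.base.mul A B T hT ihA.1 ihB.1)).congr
      fun s hs => ?_
    rw [FF_mulK]
  | univ A hA ihA =>
    refine ⟨univ_ne A ihA.1, ?_⟩
    rw [toP_univ]
    have hι : Nonempty A.ι := ⟨ihA.1.choose⟩
    exact FR_univK hι _ _ _ (fun T hT => hM.base.univ A T hT ihA.1) ihA.2
  | form σ m r a hm ha h f hA ihA =>
    have hne : ∃ J, genP a h f J ≠ 0 := ihA.1
    obtain ⟨hh, hf⟩ := genQ_ne a h f ha hne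
    refine ⟨⟨(0 : Fin 1), formP_ne a h f hne ha⟩, ?_⟩
    have h1 := ihA.2
    rw [genQ_toP] at h1
    rw [formQ_toP]
    exact FR_formK a (fun t => ⟨(hf t).choose⟩) _ _ _ _
      (fun T hT => hM.form σ m r a h f hm ha hne T hT) h1
  | ts A τ g hA hg ihA ihg =>
    have hg0 : g ≠ 0 := by
      obtain ⟨j, hj⟩ := ihg.1
      exact hj
    refine ⟨ts_ne A τ g hg0, ?_⟩
    rw [toP_ts]
    have hι : Nonempty A.ι := ⟨ihA.1.choose⟩
    exact FR_ts Pool.Agent.Y287.TH.tZ _ _ _ _ _ (hM.base.ts A τ g ihA.1 hg0)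
      (hM.base.one A τ g ihA.1 hg0) ihA.2 ihg.2
  | drop σ κ g h ih =>
    refine ⟨⟨(0 : Fin 1), fun h0 => ?_⟩, ?_⟩
    · obtain ⟨j, hj⟩ := ih.1
      apply hj
      have h1 : g = 0 := h0
      change rename Sum.inl g = 0
      rw [h1, map_zero]
    · refine (ih.2.mono (hM.base.drop σ κ g)).congr fun s hs => ?_
      have h2 := FF_drop (κ := κ) (map (algebraMap ℚ ℚ_[p]) g) s
      refine Eq.trans ?_ h2
      congr 1
      funext j
      exact map_rename _ _ _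
  | formE σ m r a hm ha f hA ihA => exact mot_of (ME.form hm ha f ihA.1 ihA.2)
  | isoE n g w d h => exact mot_of ⟨h.wh, XE_atom h⟩
  | addE σ τ g₁ g₂ h₁ h₂ ih₁ ih₂ => exact mot_of ((of_mot ih₁).add (of_mot ih₂))
  | mulE σ τ g₁ g₂ h₁ h₂ ih₁ ih₂ => exact mot_of ((of_mot ih₁).mul (of_mot ih₂))
  | powE σ g k hk h ih => exact mot_of ((of_mot ih).pow k hk)
  | smulE σ g c hc h ih => exact mot_of ((of_mot ih).smul c hc)
  | equiv c A B i k h hA ihA =>
    have h3 : ∀ s : ℝ, Pool.Agent.Y230.PS.FF (A.toP p) s = Pool.Agent.Y230.PS.FF (B.toP p) s :=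
      fun s => by
      rw [FF_equiv i k (A.toP p) (B.toP p) (fun j => ?_) s]
      change map (algebraMap ℚ ℚ_[p]) (B.f (k j)) = _
      rw [h, map_rename]
      rfl
    cases c with
    | idl =>
      refine ⟨equiv_ne A B i k h ihA.1, ?_⟩
      exact (ihA.2.mono fun T hT => hM.base.base.equiv A B i k h T hT).congr fun s hs => h3 s
    | hyp =>
      refine ⟨equiv_ne A B i k h ihA.1, ?_⟩
      exact (ihA.2.mono fun T hT => hM.base.equiv A B i k h T hT).congr fun s hs => h3 s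
    | exh =>
      obtain ⟨j0, hj, hW, hX⟩ := ihA
      refine ⟨k j0, fun j => ?_, ?_, ?_⟩
      · rw [← k.apply_symm_apply j]
        rw [hj (k.symm j)]
      · rw [h]
        exact hW.equiv i
      · have e : B.toP p (k j0) = rename i (A.toP p j0) := by
          change map (algebraMap ℚ ℚ_[p]) (B.f (k j0)) = _
          rw [h, map_rename]
          rfl
        rw [e, h]
        exact (hX.equiv i).mono fun T _ => H_equiv (A.f j0) i T

end Pool.Agent.T6.H26
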