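import Pool.Agent.T6.H26.FTLaw

set_option autoImplicit false
set_option linter.unusedSectionVars false
set_option linter.unusedVariables false

/-! # Exponential sums of sums, products and powers -/

namespace Pool.Agent.T6.H26

open MeasureTheory Pool.Agent.W427.SMC Pool.Agent.Y230.PS Pool.Agent.Y230.TH
open scoped ENNReal Polynomial

attribute [local instance] msZ bsZ nz

variable {p : ℕ} [Fact p.Prime]

section two

variable {Ω₁ Ω₂ : Type} [MeasurableSpace Ω₁] [MeasurableSpace Ω₂] (μ₁ : Measure Ω₁)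
  (μ₂ : Measure Ω₂) [IsProbabilityMeasure μ₁] [IsProbabilityMeasure μ₂] (G₁ : Ω₁ → ℤ_[p])
  (G₂ : Ω₂ → ℤ_[p])

/-- sums in disjoint variables -/
theorem Et_add (u : ℤ_[p]) (m : ℕ) :
    Et (μ₁.prod μ₂) (fun q => G₁ q.1 + G₂ q.2) u m = Et μ₁ G₁ u m * Et μ₂ G₂ u m := by
  unfold Et
  rw [← integral_prod_mul]
  refine integral_congr_ae (Filter.Eventually.of_forall fun q => ?_)
  beta_reduce
  rw [← ch_add, mul_add]

/-- **Sums in disjoint variables.** -/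
theorem good_add {M1 M2 M3 : ℂ → ℕ∞} (H : ∀ T1 T2 : ℂ, T1 ≠ 0 → T2 ≠ 0 → ∀ a b : ℕ, 1 ≤ a → 1 ≤ b →
    (a : ℕ∞) ≤ M1 T1 → (b : ℕ∞) ≤ M2 T2 → ((a + b - 1 : ℕ) : ℕ∞) ≤ M3 (T1 * T2))
    (h1 : GoodE p M1 (Et μ₁ G₁)) (h2 : GoodE p M2 (Et μ₂ G₂)) :
    GoodE p M3 (Et (μ₁.prod μ₂) (fun q => G₁ q.1 + G₂ q.2)) := by
  obtain ⟨c1, hc1, hE1⟩ := h1
  obtain ⟨c2, hc2, hE2⟩ := h2
  refine ⟨max c1 c2, fun u v hu hv huv m => ?_, fun u hu => ?_⟩
  · rw [Et_add, Et_add, hc1 u v hu hv (huv.trans ((pw_le_iff _ _).2 (le_max_left _ _))),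
      hc2 u v hu hv (huv.trans ((pw_le_iff _ _).2 (le_max_right _ _)))]
  · have e : Et (μ₁.prod μ₂) (fun q => G₁ q.1 + G₂ q.2) u = Et μ₁ G₁ u * Et μ₂ G₂ u := by
      funext m
      rw [Et_add, Pi.mul_apply]
    rw [e]
    exact had M1 M2 M3 H _ _ (hE1 u hu) (hE2 u hu)

theorem Et_mulk (h1 : Measurable G₁) (h2 : Measurable G₂) (k : ℕ) (u : ℤ_[p]) (m : ℕ) :
    Et (μ₁.prod μ₂) (fun q => G₁ q.1 ^ k * G₂ q.2) u m =
      ∫ x, Et μ₂ G₂ (u * G₁ x ^ k) m ∂μ₁ := by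
  unfold Et
  rw [integral_prod]
  · simp only [← mul_assoc]
  · refine bdd_int _ _ ?_ 1 fun x => (norm_ch p m _).le
    refine (ch_meas p m).comp ?_
    exact measurable_const.mul (((h1.comp measurable_fst).pow_const k).mul
      (h2.comp measurable_snd))

/-- **Products in disjoint variables.** -/
theorem good_mulk (h1 : Measurable G₁) (h2 : Measurable G₂) (k : ℕ) (hk : 1 ≤ k)
    {M1 M2 : ℂ → ℕ∞}
    (hV : (fun m => ((μ₁ {x | ‖G₁ x‖ ^ k ≤ ((p : ℝ)⁻¹) ^ m}).toReal : ℂ)) ∈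
      EP (fun T => M1 (T ^ k)))
    (hA : ∀ (c : ℕ) (w : ℤ_[p]), 1 ≤ c → ‖w‖ = 1 → Ab μ₁ G₁ c w ∈ EP M1)
    (hG : GoodE p M2 (Et μ₂ G₂)) :
    GoodE p (fun T => M1 (T ^ k) + M2 T)
      (Et (μ₁.prod μ₂) (fun q => G₁ q.1 ^ k * G₂ q.2)) := by
  obtain ⟨c0, hc0, hE⟩ := hG
  set c := c0 + 1 with hcd
  have hc1 : 1 ≤ c := by omega
  have hc : ∀ u v : ℤ_[p], ‖u‖ = 1 → ‖v‖ = 1 → ‖u - v‖ ≤ ((p : ℝ)⁻¹) ^ c → ∀ m,
      Et μ₂ G₂ u m = Et μ₂ G₂ v m := fun u v hu hv huv m =>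
    hc0 u v hu hv (huv.trans ((pw_le_iff _ _).2 (by omega))) m
  refine ⟨c, fun u v hu hv huv m => ?_, fun u hu => ?_⟩
  · rw [Et_mulk μ₁ μ₂ G₁ G₂ h1 h2, Et_mulk μ₁ μ₂ G₁ G₂ h1 h2]
    refine integral_congr_ae (Filter.Eventually.of_forall fun x => ?_)
    exact loc_ext μ₂ G₂ hc u v hu hv huv _ m
  · have hms : ∀ (N : ℕ) (w : ZMod (p ^ c)), MeasurableSet
        {x | ‖G₁ x - (p : ℤ_[p]) ^ N * (w.val : ℤ_[p])‖ ≤ ((p : ℝ)⁻¹) ^ (N + c)} := fun N w =>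
      measurableSet_le ((h1.sub_const _).norm) measurable_const
    have hms0 : ∀ m : ℕ, MeasurableSet {x | ‖G₁ x‖ ^ k ≤ ((p : ℝ)⁻¹) ^ m} := fun m =>
      measurableSet_le ((h1.norm).pow_const k) measurable_const
    have e : Et (μ₁.prod μ₂) (fun q => G₁ q.1 ^ k * G₂ q.2) u =
        (fun m => ((μ₁ {x | ‖G₁ x‖ ^ k ≤ ((p : ℝ)⁻¹) ^ m}).toReal : ℂ)) +
          ∑ w : ZMod (p ^ c), if ‖(w.val : ℤ_[p])‖ = 1 then (fun m =>
            ∑ N ∈ Finset.range m, if k * N < m then Ab μ₁ G₁ c (w.val : ℤ_[p]) N *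
              Et μ₂ G₂ (u * (w.val : ℤ_[p]) ^ k) (m - k * N) else 0) else 0 := by
      funext m
      rw [Et_mulk μ₁ μ₂ G₁ G₂ h1 h2, Pi.add_apply, Finset.sum_apply]
      simp only [dec μ₂ G₂ hc1 hc k hk u hu _ m]
      have hi1 : Integrable (fun x => if ‖G₁ x‖ ^ k ≤ ((p : ℝ)⁻¹) ^ m then (1 : ℂ) else 0) μ₁ := by
        refine bdd_int _ _ (Measurable.ite (hms0 m) measurable_const measurable_const) 1
          fun x => ?_
        split_ifs <;> simp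
      have hi2 : ∀ (N : ℕ) (w : ZMod (p ^ c)), Integrable (fun x =>
          if ‖G₁ x - (p : ℤ_[p]) ^ N * (w.val : ℤ_[p])‖ ≤ ((p : ℝ)⁻¹) ^ (N + c) then
            (if k * N < m ∧ ‖(w.val : ℤ_[p])‖ = 1 then
              Et μ₂ G₂ (u * (w.val : ℤ_[p]) ^ k) (m - k * N) else 0) else 0) μ₁ := by
        intro N w
        refine bdd_int _ _ (Measurable.ite (hms N w) measurable_const measurable_const) 1
          fun x => ?_
        split_ifs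
        · exact (Et_loc μ₂ G₂).bdd _ _
        · simp
        · simp
      rw [integral_add hi1 (integrable_finsetSum _ fun N _ => integrable_finsetSum _ fun w _ =>
        hi2 N w), integral_finsetSum _ (fun N _ => integrable_finsetSum _ fun w _ => hi2 N w),
        int_ite μ₁ _ (hms0 m)]
      congr 1
      rw [Finset.sum_congr rfl fun N _ => integral_finsetSum _ (fun w _ => hi2 N w),
        Finset.sum_comm]
      refine Finset.sum_congr rfl fun w _ => ?_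
      have h5 : ∀ N : ℕ, ∫ x, (if ‖G₁ x - (p : ℤ_[p]) ^ N * (w.val : ℤ_[p])‖ ≤
          ((p : ℝ)⁻¹) ^ (N + c) then (if k * N < m ∧ ‖(w.val : ℤ_[p])‖ = 1 then
            Et μ₂ G₂ (u * (w.val : ℤ_[p]) ^ k) (m - k * N) else 0) else 0) ∂μ₁ =
          Ab μ₁ G₁ c (w.val : ℤ_[p]) N * (if k * N < m ∧ ‖(w.val : ℤ_[p])‖ = 1 then
            Et μ₂ G₂ (u * (w.val : ℤ_[p]) ^ k) (m - k * N) else 0) := by
        intro N
        unfold Ab
        rw [← int_ite μ₁ _ (hms N w), ← integral_mul_const]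
        refine integral_congr_ae (Filter.Eventually.of_forall fun x => ?_)
        beta_reduce
        by_cases h : ‖G₁ x - (p : ℤ_[p]) ^ N * (w.val : ℤ_[p])‖ ≤ ((p : ℝ)⁻¹) ^ (N + c)
        · rw [if_pos h, if_pos h, one_mul]
        · rw [if_neg h, if_neg h, zero_mul]
      rw [Finset.sum_congr rfl fun N _ => h5 N]
      by_cases hw : ‖(w.val : ℤ_[p])‖ = 1
      · simp only [hw, and_true, if_true]
        refine Finset.sum_congr rfl fun N _ => ?_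
        split_ifs <;> simp
      · simp only [hw, and_false, if_false, mul_zero, Finset.sum_const_zero, Pi.zero_apply]
    rw [e]
    refine (EP _).add_mem (EP_mono (fun T _ => le_self_add) hV) ?_
    refine (EP _).sum_mem fun w _ => ?_
    split_ifs with hw
    · exact EP_sumk k (by omega) (hA c _ hc1 hw)
        (hE _ (by rw [norm_mul, norm_pow, hu, hw, one_pow, one_mul]))
    · exact (EP _).zero_mem

end two

section pow

variable {Ω : Type} [MeasurableSpace Ω] (μ : Measure Ω) [IsProbabilityMeasure μ] (G : Ω → ℤ_[p])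

theorem inv_ball (hG : Measurable G) {c : ℕ} (hc : ∀ u v : ℤ_[p], ‖u‖ = 1 → ‖v‖ = 1 →
    ‖u - v‖ ≤ ((p : ℝ)⁻¹) ^ c → ∀ m, Et μ G u m = Et μ G v m) (v : ℤ_[p]) (hv : ‖v‖ = 1)
    (hv1 : ‖v - 1‖ ≤ ((p : ℝ)⁻¹) ^ c) (n : ℕ) (z0 : ℤ_[p]) :
    ((μ {x | ‖v * G x - z0‖ ≤ ((p : ℝ)⁻¹) ^ n}).toReal : ℂ) =
      ((μ {x | ‖G x - z0‖ ≤ ((p : ℝ)⁻¹) ^ n}).toReal : ℂ) := by
  rw [← four μ G hG, ← four μ (fun x => v * G x) (hG.const_mul v)]
  refine integral_congr_ae (Filter.Eventually.of_forall fun t => ?_)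
  beta_reduce
  congr 1
  have h1 := loc_ext μ G hc v 1 hv norm_one hv1 t n
  rw [one_mul] at h1
  rw [← h1]
  unfold Et
  refine integral_congr_ae (Filter.Eventually.of_forall fun x => ?_)
  beta_reduce
  congr 1
  ring

/-- the law is invariant under the multiplications by units near `1` -/
theorem inv_int (hG : Measurable G) {c : ℕ} (hc : ∀ u v : ℤ_[p], ‖u‖ = 1 → ‖v‖ = 1 →
    ‖u - v‖ ≤ ((p : ℝ)⁻¹) ^ c → ∀ m, Et μ G u m = Et μ G v m) (v : ℤ_[p]) (hv : ‖v‖ = 1)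
    (hv1 : ‖v - 1‖ ≤ ((p : ℝ)⁻¹) ^ c) (n : ℕ) (h : ℤ_[p] → ℂ)
    (hh : ∀ x y, ‖x - y‖ ≤ ((p : ℝ)⁻¹) ^ n → h x = h y) (hb : ∀ x, ‖h x‖ ≤ 1) :
    ∫ x, h (v * G x) ∂μ = ∫ x, h (G x) ∂μ := by
  have key : ∀ z : ℤ_[p], h z = ∑ w : ZMod (p ^ n), (if ‖z - (w.val : ℤ_[p])‖ ≤
      ((p : ℝ)⁻¹) ^ n then 1 else 0) * h (w.val : ℤ_[p]) := by
    intro z
    rw [Finset.sum_eq_single (PadicInt.toZModPow n z)]
    · have h1 := (res_eq n z _).2 rfl
      rw [if_pos h1, one_mul]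
      exact hh _ _ h1
    · intro w _ hw
      rw [if_neg, zero_mul]
      intro h1
      exact hw ((res_eq n z w).1 h1).symm
    · intro h1
      exact absurd (Finset.mem_univ _) h1
  have gen : ∀ F : Ω → ℤ_[p], Measurable F → ∫ x, h (F x) ∂μ = ∑ w : ZMod (p ^ n),
      ((μ {x | ‖F x - (w.val : ℤ_[p])‖ ≤ ((p : ℝ)⁻¹) ^ n}).toReal : ℂ) * h (w.val : ℤ_[p]) := by
    intro F hF
    have hms : ∀ w : ZMod (p ^ n), MeasurableSet
        {x | ‖F x - (w.val : ℤ_[p])‖ ≤ ((p : ℝ)⁻¹) ^ n} := fun w =>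
      measurableSet_le ((hF.sub_const _).norm) measurable_const
    rw [integral_congr_ae (Filter.Eventually.of_forall fun x => key (F x)),
      integral_finsetSum]
    · refine Finset.sum_congr rfl fun w _ => ?_
      rw [integral_mul_const, int_ite μ _ (hms w)]
    · intro w _
      refine bdd_int _ _ ((Measurable.ite (hms w) measurable_const measurable_const).mul
        measurable_const) 1 fun x => ?_
      rw [norm_mul]
      refine mul_le_one₀ ?_ (norm_nonneg _) (hb _)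
      split_ifs <;> simp
  rw [gen _ (hG.const_mul v), gen _ hG]
  refine Finset.sum_congr rfl fun w _ => ?_
  rw [inv_ball μ G hG hc v hv hv1]

theorem unit_one (c : ℕ) (hc : 1 ≤ c) (y : ℤ_[p]) : ‖1 + (p : ℤ_[p]) ^ c * y‖ = 1 :=
  (unit_add c hc 1 y).2 norm_one

theorem Et_powk (hG : Measurable G) {c : ℕ} (hc1 : 1 ≤ c) (hc : ∀ u v : ℤ_[p], ‖u‖ = 1 →
    ‖v‖ = 1 → ‖u - v‖ ≤ ((p : ℝ)⁻¹) ^ c → ∀ m, Et μ G u m = Et μ G v m) (k : ℕ) (u : ℤ_[p])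
    (m : ℕ) : Et μ (fun x => G x ^ k) u m =
      Et (μ.prod (mu p)) (fun q => G q.1 ^ k * (1 + (p : ℤ_[p]) ^ c * q.2) ^ k) u m := by
  have hm : Measurable (fun q : Ω × ℤ_[p] => ch p m (u * (G q.1 ^ k *
      (1 + (p : ℤ_[p]) ^ c * q.2) ^ k))) := by
    refine (ch_meas p m).comp ?_
    exact measurable_const.mul (((hG.comp measurable_fst).pow_const k).mul
      ((measurable_const.add (measurable_snd.const_mul _)).pow_const k))
  unfold Et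
  rw [integral_prod_symm _ (bdd_int _ _ hm 1 fun x => (norm_ch p m _).le)]
  have h1 : ∀ y : ℤ_[p], ∫ x, ch p m (u * (G x ^ k * (1 + (p : ℤ_[p]) ^ c * y) ^ k)) ∂μ =
      ∫ x, ch p m (u * G x ^ k) ∂μ := by
    intro y
    have h2 := inv_int μ G hG hc (1 + (p : ℤ_[p]) ^ c * y) (unit_one c hc1 y) (by
      rw [add_sub_cancel_left, norm_mul, norm_p_pow]
      exact mul_le_of_le_one_right (pow_nonneg (pinv_pos p).le _) (PadicInt.norm_le_one y)) m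
      (fun z => ch p m (u * z ^ k)) (fun x y hxy => ch_congr p m _ _ (by
        rw [← mul_sub, norm_mul]
        obtain ⟨r, hr⟩ := sub_dvd_pow_sub_pow x y k
        rw [hr, norm_mul]
        have h4 : ‖u‖ * ‖r‖ ≤ 1 := mul_le_one₀ (PadicInt.norm_le_one u) (norm_nonneg _)
          (PadicInt.norm_le_one r)
        calc ‖u‖ * (‖x - y‖ * ‖r‖) = ‖x - y‖ * (‖u‖ * ‖r‖) := by ring
          _ ≤ ‖x - y‖ * 1 := mul_le_mul_of_nonneg_left h4 (norm_nonneg _)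
          _ ≤ _ := by rw [mul_one]; exact hxy)) (fun x => (norm_ch p m _).le)
    rw [← h2]
    refine integral_congr_ae (Filter.Eventually.of_forall fun x => ?_)
    beta_reduce
    congr 1
    rw [mul_pow]
    ring
  simp only [h1]
  rw [integral_const]
  simp

end pow

/-- the units near `1` -/
theorem base_one (c k : ℕ) (hc : 1 ≤ c) (hk : 1 ≤ k) : GoodE p (fun _ => 0)
    (Et (mu p) (fun y => (1 + (p : ℤ_[p]) ^ c * y) ^ k)) := by
  obtain ⟨v, hv⟩ := exists_val (p := p) (k : ℤ_[p]) (by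
    exact_mod_cast (show k ≠ 0 by omega))
  have hz : ∀ u : ℤ_[p], ‖u‖ = 1 → ∀ m, 2 * v + 2 * c + 2 ≤ m →
      Et (mu p) (fun y => (1 + (p : ℤ_[p]) ^ c * y) ^ k) u m = 0 := by
    intro u hu m hm
    set j := (m + 1) / 2 with hj
    have hj2 : m ≤ 2 * j := by omega
    have hj3 : v + j < m := by omega
    obtain ⟨l, hl⟩ : ∃ l, j = c + l := ⟨j - c, by omega⟩
    have hms : Measurable (fun z : ℤ_[p] => ch p m (u * (1 + (p : ℤ_[p]) ^ c * z) ^ k)) :=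
      (ch_meas p m).comp (measurable_const.mul ((measurable_const.add
        (measurable_id.const_mul _)).pow_const k))
    change ∫ z, ch p m (u * (1 + (p : ℤ_[p]) ^ c * z) ^ k) ∂(mu p) = 0
    rw [integral_sm p l _ hms 1 (fun x => (norm_ch p m _).le)]
    refine Finset.sum_eq_zero fun w _ => ?_
    set a : ℤ_[p] := 1 + (p : ℤ_[p]) ^ c * (w.val : ℤ_[p]) with ha
    have ha1 : ‖a‖ = 1 := unit_one c hc _
    have h1 : ∀ z : ℤ_[p], ch p m (u * (1 + (p : ℤ_[p]) ^ c * ((w.val : ℤ_[p]) +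
        (p : ℤ_[p]) ^ l * z)) ^ k) =
        ch p m (u * a ^ k) * ch p m (z * (u * ((k : ℤ_[p]) * a ^ (k - 1)) * (p : ℤ_[p]) ^ j)) := by
      intro z
      have e : (1 + (p : ℤ_[p]) ^ c * ((w.val : ℤ_[p]) + (p : ℤ_[p]) ^ l * z)) =
          a + (p : ℤ_[p]) ^ j * z := by
        rw [ha, hl, pow_add]
        ring
      rw [e]
      obtain ⟨r, hr⟩ := Polynomial.powAddExpansion a ((p : ℤ_[p]) ^ j * z) k
      rw [← ch_add]
      refine ch_congr p m _ _ ?_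
      rw [le_iff_dvd, hr]
      obtain ⟨i, hi⟩ : ∃ i, 2 * j = m + i := ⟨2 * j - m, by omega⟩
      refine ⟨u * r * ((p : ℤ_[p]) ^ i * z ^ 2), ?_⟩
      have h2 : ((p : ℤ_[p]) ^ j * z) ^ 2 = (p : ℤ_[p]) ^ m * (p : ℤ_[p]) ^ i * z ^ 2 := by
        rw [mul_pow, ← pow_mul, mul_comm j 2, hi, pow_add]
      rw [h2]
      ring
    simp only [h1]
    rw [integral_const_mul, ch_int, if_neg, mul_zero, mul_zero]
    rw [norm_mul, norm_mul, norm_mul, norm_pow, hu, hv, ha1, one_pow, mul_one, one_mul,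
      norm_p_pow, ← pow_add, pw_le_iff]
    omega
  refine ⟨2 * v + 2 * c + 2, fun u w hu hw huw m => ?_, fun u hu => ?_⟩
  · by_cases hm : 2 * v + 2 * c + 2 ≤ m
    · rw [hz u hu m hm, hz w hw m hm]
    · refine (Et_loc _ _).loc m u w (huw.trans ((pw_le_iff _ _).2 (by omega)))
  · exact N0_EP _ ⟨_, hz u hu⟩

section fin

variable {Ω₁ Ω₂ : Type} [MeasurableSpace Ω₁] [MeasurableSpace Ω₂] (μ₁ : Measure Ω₁)
  (μ₂ : Measure Ω₂) [IsProbabilityMeasure μ₁] [IsProbabilityMeasure μ₂] (G₁ : Ω₁ → ℤ_[p])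
  (G₂ : Ω₂ → ℤ_[p])

theorem one_lt_p : 1 < ‖(p : ℂ)‖ := by
  rw [Complex.norm_natCast]
  exact_mod_cast (Fact.out : p.Prime).one_lt

theorem tr_dp (M : ℂ → ℕ∞) (T : ℂ) : tr M T + (dp p T : ℕ) = tr (fun T => M T + (dp p T : ℕ)) T := by
  unfold Pool.Agent.Y230.PS.tr
  split_ifs with h
  · rw [dp_eq, if_neg]
    · simp
    · rintro rfl
      exact absurd (one_lt_p (p := p)) (not_lt.2 h)
  · rfl

theorem val_norm (x : Ω₁) : Val p ‖G₁ x‖ := by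
  by_cases h : G₁ x = 0
  · left
    rw [h, norm_zero]
  · right
    exact exists_val _ h

theorem V_tr (hG : Measurable G₁) {M : ℂ → ℕ∞} (h : GoodE p (tr M) (Et μ₁ G₁)) :
    Vc μ₁ (fun x => ‖G₁ x‖) p ∈ EP (tr fun T => M T + (dp p T : ℕ)) :=
  EP_mono (fun T _ => le_of_eq (tr_dp M T)) (V_mem μ₁ G₁ hG h)

theorem Ab_tr (hG : Measurable G₁) {M : ℂ → ℕ∞} (h : GoodE p (tr M) (Et μ₁ G₁)) (c : ℕ)
    (w : ℤ_[p]) : Ab μ₁ G₁ c w ∈ EP (tr fun T => M T + (dp p T : ℕ)) :=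
  Ab_mem μ₁ G₁ hG h (fun T => by
    rw [← tr_dp]
    exact le_self_add) (V_tr μ₁ G₁ hG h) w c

/-- the volumes of the powers -/
theorem V_pow (hG : Measurable G₁) {M : ℂ → ℕ∞} (h : Vc μ₁ (fun x => ‖G₁ x‖) p ∈ EP (tr M))
    (k : ℕ) (hk : 1 ≤ k) : (fun m => ((μ₁ {x | ‖G₁ x‖ ^ k ≤ ((p : ℝ)⁻¹) ^ m}).toReal : ℂ)) ∈
      EP (fun T => tr M (T ^ k)) := by
  have h1 := FR_of_Vc μ₁ (fun x => ‖G₁ x‖) hG.norm (fun x => val_norm G₁ x) h
  have h2 := Pool.Agent.R852.PP.FR_comp h1 k (by omega)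
  have h3 : FR p (fun T => M (T ^ k)) (FZ μ₁ fun x => ‖G₁ x‖ ^ k) := by
    refine h2.congr fun s hs => ?_
    unfold FZ
    congr 2
    refine lintegral_congr fun x => ?_
    rw [Real.rpow_mul (norm_nonneg _), Real.rpow_natCast]
  have h4 := Vc_mem μ₁ (fun x => ‖G₁ x‖ ^ k) (hG.norm.pow_const k) (fun x => by
    have := val_norm (fun x => G₁ x ^ k) x
    rwa [norm_pow] at this) h3
  refine EP_mono (fun T _ => le_of_eq ?_) h4
  unfold Pool.Agent.Y230.PS.tr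
  have h5 : ‖T ^ k‖ ≤ 1 ↔ ‖T‖ ≤ 1 := by
    rw [norm_pow]
    exact pow_le_one_iff_of_nonneg (norm_nonneg _) (by omega)
  simp only [h5]

theorem tr_mono {M M' : ℂ → ℕ∞} (h : ∀ T, 1 < ‖T‖ → M T ≤ M' T) (T : ℂ) : tr M T ≤ tr M' T := by
  unfold Pool.Agent.Y230.PS.tr
  split_ifs with h1
  · exact le_rfl
  · exact h T (not_le.1 h1)

/-- **Products.** -/
theorem good_mul (h1 : Measurable G₁) (h2 : Measurable G₂) {M1 M2 M3 : ℂ → ℕ∞}
    (hE1 : GoodE p (tr M1) (Et μ₁ G₁)) (hE2 : GoodE p (tr M2) (Et μ₂ G₂))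
    (H : ∀ T, 1 < ‖T‖ → M1 T + (dp p T : ℕ) + M2 T ≤ M3 T) :
    GoodE p (tr M3) (Et (μ₁.prod μ₂) (fun q => G₁ q.1 * G₂ q.2)) := by
  have h3 := good_mulk μ₁ μ₂ G₁ G₂ h1 h2 1 le_rfl (V_pow μ₁ G₁ h1 (V_tr μ₁ G₁ h1 hE1) 1 le_rfl)
    (fun c w _ _ => Ab_tr μ₁ G₁ h1 hE1 c w) hE2
  simp only [pow_one] at h3
  refine h3.mono fun T _ => ?_
  refine le_trans ?_ (tr_mono H T)
  unfold Pool.Agent.Y230.PS.tr
  split_ifs with h
  · simp
  · exact le_rfl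

/-- **Powers.** -/
theorem good_pow (h1 : Measurable G₁) {M M' : ℂ → ℕ∞} (hE : GoodE p (tr M) (Et μ₁ G₁)) (k : ℕ)
    (hk : 1 ≤ k) (H : ∀ T, 1 < ‖T‖ → M (T ^ k) + (dp p (T ^ k) : ℕ) ≤ M' T) :
    GoodE p (tr M') (Et μ₁ (fun x => G₁ x ^ k)) := by
  obtain ⟨c0, hc0, hEP⟩ := id hE
  set c := c0 + 1 with hcd
  have hc1 : 1 ≤ c := by omega
  have hc : ∀ u v : ℤ_[p], ‖u‖ = 1 → ‖v‖ = 1 → ‖u - v‖ ≤ ((p : ℝ)⁻¹) ^ c → ∀ m,
      Et μ₁ G₁ u m = Et μ₁ G₁ v m := fun u v hu hv huv m =>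
    hc0 u v hu hv (huv.trans ((pw_le_iff _ _).2 (by omega))) m
  have h3 := good_mulk μ₁ (mu p) G₁ (fun y => (1 + (p : ℤ_[p]) ^ c * y) ^ k) h1
    ((measurable_const.add (measurable_id.const_mul _)).pow_const k) k hk
    (V_pow μ₁ G₁ h1 (V_tr μ₁ G₁ h1 hE) k hk)
    (fun c w _ _ => Ab_tr μ₁ G₁ h1 hE c w) (base_one c k hc1 hk)
  refine (h3.congr fun u _ m => (Et_powk μ₁ G₁ h1 hc1 hc k u m).symm).mono fun T _ => ?_
  refine le_trans ?_ (tr_mono H T)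
  rw [add_zero]
  unfold Pool.Agent.Y230.PS.tr
  have h5 : ‖T ^ k‖ ≤ 1 ↔ ‖T‖ ≤ 1 := by
    rw [norm_pow]
    exact pow_le_one_iff_of_nonneg (norm_nonneg _) (by omega)
  simp only [h5]
  exact le_rfl

end fin

end Pool.Agent.T6.H26
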