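import Pool.Agent.T6.H26.FTSum
import Pool.Agent.R852.PP.Pow
import Pool.Agent.Y230.PS.ProdM

set_option autoImplicit false
set_option linter.unusedSectionVars false
set_option linter.unusedVariables false

/-! # The root `-1` of the functional equations of `g ^ k` -/

namespace Pool.Agent.T6.H26

open MvPolynomial
open Pool.Agent.W574.SM (weyl)
open Pool.Agent.W574.RO (Fr fr_add fr_mul fr_weyl)
open Pool.Agent.W574.HS (minus_one)
open Pool.Agent.R852.PP (fr_zero fr_sum fr_pol)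
open Pool.Agent.H628R4.TP (IsBFunction weylS)
open Pool.Agent.Y21.TH (ML PD ml_mem NN nn_weyl)
open Pool.Agent.Y230.PS (Sq Sq_mem Sq_mem0 Sq_poly isB_iff)

variable {σ : Type}

/-- the part of order zero of an operator -/
theorem comm_pow (g : MvPolynomial σ ℂ) (Q : Module.End ℂ (MvPolynomial σ ℂ)) (hQ : Q ∈ weyl σ) :
    ∃ A ∈ weyl σ, ∀ n : ℕ, Q (g ^ (n + 1)) = Q 1 * g ^ (n + 1) + ((n : ℂ) + 1) • A (g ^ n) := by
  have h := nn_weyl Q hQ
  clear hQ
  induction h using Submodule.span_induction with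
  | mem Q hQ =>
    rcases hQ with ⟨h, rfl⟩ | ⟨A, i, hA, rfl⟩
    · refine ⟨0, Subalgebra.zero_mem _, fun n => ?_⟩
      rw [LinearMap.zero_apply, smul_zero, add_zero]
      change h * g ^ (n + 1) = h * 1 * g ^ (n + 1)
      rw [mul_one]
    · refine ⟨A * ML (pderiv i g), Subalgebra.mul_mem _ hA (ml_mem _), fun n => ?_⟩
      change A (pderiv i (g ^ (n + 1))) = A (pderiv i 1) * g ^ (n + 1) +
        ((n : ℂ) + 1) • A (pderiv i g * g ^ n)
      have h1 : pderiv i (g ^ (n + 1)) = ((n : ℂ) + 1) • (pderiv i g * g ^ n) := by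
        rw [Derivation.leibniz_pow, Nat.add_sub_cancel, smul_eq_mul, ← Nat.cast_smul_eq_nsmul ℂ,
          mul_comm (g ^ n)]
        push_cast
        rfl
      rw [h1, map_smul, (pderiv i).map_one_eq_zero, map_zero, zero_mul, zero_add]
  | zero => exact ⟨0, Subalgebra.zero_mem _, fun n => by simp⟩
  | add Q Q' _ _ h h' =>
    obtain ⟨A, hA, h⟩ := h
    obtain ⟨A', hA', h'⟩ := h'
    refine ⟨A + A', Subalgebra.add_mem _ hA hA', fun n => ?_⟩
    rw [LinearMap.add_apply, LinearMap.add_apply, LinearMap.add_apply, h, h', smul_add]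
    ring
  | smul c Q _ h =>
    obtain ⟨A, hA, h⟩ := h
    refine ⟨c • A, Subalgebra.smul_mem _ hA c, fun n => ?_⟩
    rw [LinearMap.smul_apply, LinearMap.smul_apply, LinearMap.smul_apply, h, smul_add,
      smul_mul_assoc, smul_comm c]

theorem fr_Sq {g : MvPolynomial σ ℂ} {v : ℕ → MvPolynomial σ ℂ} (hv : v ∈ Sq g) : Fr g v := by
  induction hv using Submodule.span_induction with
  | mem v h =>
    obtain ⟨m, Q, rfl⟩ := h
    have hfrg : Fr g (fun n => g ^ (n + 1)) := ⟨0, Polynomial.C g, fun n => by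
      rw [Polynomial.eval_C]; ring⟩
    have h1 := fr_pol (fr_weyl (Q : Module.End ℂ (MvPolynomial σ ℂ)) Q.2 _ hfrg)
      (Polynomial.X ^ m)
    simp only [Polynomial.eval_pow, Polynomial.eval_X] at h1
    exact h1
  | zero => exact fr_zero g
  | add v w _ _ hv hw => exact fr_add hv hw
  | smul r v _ hv =>
    have h1 := fr_pol hv (Polynomial.C r)
    simp only [Polynomial.eval_C] at h1
    exact h1

/-- from the multiples of `k` to all integers -/
theorem ext_k (g : MvPolynomial σ ℂ) (hg : g ≠ 0) (k : ℕ) (hk : k ≠ 0) (c : Polynomial ℂ)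
    (v : ℕ → MvPolynomial σ ℂ) (hv : v ∈ Sq g)
    (h : ∀ n : ℕ, c.eval ((k * n : ℕ) : ℂ) • g ^ (k * n) = v (k * n)) : IsBFunction g c := by
  rw [isB_iff]
  have hfr0 : Fr g (fun n => g ^ n) := ⟨0, 1, fun n => by
    rw [Polynomial.eval_one]; ring⟩
  have h1 := fr_pol (fr_pol hfr0 c) (Polynomial.C (-1))
  simp only [Polynomial.eval_C] at h1
  obtain ⟨M, ρ, e⟩ := fr_add (fr_Sq hv) h1
  have hρ : ρ = 0 := by
    refine Polynomial.eq_zero_of_infinite_isRoot ρ ?_
    have hinj : Function.Injective (fun n : ℕ => ((k * n : ℕ) : MvPolynomial σ ℂ)) := by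
      intro n n' h
      have h1 : k * n = k * n' := Nat.cast_injective (R := MvPolynomial σ ℂ) h
      exact Nat.eq_of_mul_eq_mul_left (Nat.pos_of_ne_zero hk) h1
    refine (Set.infinite_range_of_injective hinj).mono ?_
    rintro _ ⟨n, rfl⟩
    have h1 := e (k * n)
    beta_reduce at h1
    rw [h n, neg_one_smul, add_neg_cancel, mul_zero] at h1
    exact (mul_eq_zero.1 h1.symm).resolve_right (pow_ne_zero _ hg)
  have hall : ∀ n, v n = c.eval (n : ℂ) • g ^ n := by
    intro n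
    have h1 := e n
    rw [hρ, Polynomial.eval_zero, zero_mul] at h1
    have h2 := (mul_eq_zero.1 h1).resolve_left (pow_ne_zero _ hg)
    beta_reduce at h2
    rw [neg_one_smul, ← sub_eq_add_neg, sub_eq_zero] at h2
    exact h2
  refine (congrArg (fun w => w ∈ Sq g) (funext fun s => ?_)).mp hv
  rw [hall, C_mul']

/-- the operator at `s = -1` -/
theorem at_minus (F : MvPolynomial σ ℂ) (hF : F ≠ 0) (P : ℕ →₀ weylS σ) (c : Polynomial ℂ)
    (h : ∀ n : ℕ, (((n : ℂ) + 1) * c.eval (n : ℂ)) • F ^ n = P.sum fun m Q =>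
      ((n : ℂ) ^ m) • (Q : Module.End ℂ (MvPolynomial σ ℂ)) (F ^ (n + 1))) :
    (∑ m ∈ P.support, ((-1 : ℂ) ^ m) • (P m : Module.End ℂ (MvPolynomial σ ℂ)) 1) = 0 := by
  classical
  set u : ℕ → MvPolynomial σ ℂ := fun n =>
    (∑ m ∈ P.support, ((Polynomial.X - 1 : Polynomial ℂ) ^ m).eval (n : ℂ) •
      (F * (P m : Module.End ℂ (MvPolynomial σ ℂ)) (F ^ n))) +
      (-(Polynomial.X * c.comp (Polynomial.X - 1)) : Polynomial ℂ).eval (n : ℂ) • F ^ n with hu
  have hfr0 : Fr F (fun n => F ^ n) := ⟨0, 1, fun n => by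
    rw [Polynomial.eval_one]; ring⟩
  have hfr : Fr F u := fr_add (fr_sum _ _ _ fun m _ => fr_pol (fr_mul (fr_weyl _ (P m).2 _ hfr0) F)
    ((Polynomial.X - 1) ^ m)) (fr_pol hfr0 _)
  have hzero : ∀ n : ℕ, u (n + 1) = 0 := by
    intro n
    rw [hu]
    beta_reduce
    have h1 := h n
    rw [Finsupp.sum] at h1
    have h2 : ∀ m ∈ P.support, ((Polynomial.X - 1 : Polynomial ℂ) ^ m).eval ((n + 1 : ℕ) : ℂ) •
        (F * (P m : Module.End ℂ (MvPolynomial σ ℂ)) (F ^ (n + 1))) =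
        F * (((n : ℂ) ^ m) • (P m : Module.End ℂ (MvPolynomial σ ℂ)) (F ^ (n + 1))) := by
      intro m _
      rw [Polynomial.eval_pow, Polynomial.eval_sub, Polynomial.eval_X, Polynomial.eval_one,
        mul_smul_comm]
      push_cast
      rw [add_sub_cancel_right]
    rw [Finset.sum_congr rfl h2, ← Finset.mul_sum, ← h1, Polynomial.eval_neg,
      Polynomial.eval_mul, Polynomial.eval_X, Polynomial.eval_comp, Polynomial.eval_sub,
      Polynomial.eval_X, Polynomial.eval_one]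
    push_cast
    rw [add_sub_cancel_right, mul_smul_comm, neg_smul, pow_succ', ← sub_eq_add_neg, sub_self]
  obtain ⟨M, ρ, e⟩ := hfr
  have hρ : ρ = 0 := by
    refine Polynomial.eq_zero_of_infinite_isRoot ρ ?_
    have hinj : Function.Injective (fun n : ℕ => ((n + 1 : ℕ) : MvPolynomial σ ℂ)) := by
      intro n n' h
      have h1 : n + 1 = n' + 1 := Nat.cast_injective (R := MvPolynomial σ ℂ) h
      omega
    refine (Set.infinite_range_of_injective hinj).mono ?_
    rintro _ ⟨n, rfl⟩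
    have h1 := e (n + 1)
    rw [hzero, mul_zero] at h1
    exact (mul_eq_zero.1 h1.symm).resolve_right (pow_ne_zero _ hF)
  have h0 := e 0
  rw [hρ, Polynomial.eval_zero, zero_mul] at h0
  have h1 := (mul_eq_zero.1 h0).resolve_left (pow_ne_zero _ hF)
  rw [hu] at h1
  beta_reduce at h1
  rw [Polynomial.eval_neg, Polynomial.eval_mul, Polynomial.eval_X, Nat.cast_zero, zero_mul,
    neg_zero, zero_smul, add_zero] at h1
  have h2 : ∀ m ∈ P.support, ((Polynomial.X - 1 : Polynomial ℂ) ^ m).eval (0 : ℂ) •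
      (F * (P m : Module.End ℂ (MvPolynomial σ ℂ)) (F ^ 0)) =
      F * (((-1 : ℂ) ^ m) • (P m : Module.End ℂ (MvPolynomial σ ℂ)) 1) := by
    intro m _
    rw [Polynomial.eval_pow, Polynomial.eval_sub, Polynomial.eval_X, Polynomial.eval_one,
      zero_sub, mul_smul_comm, pow_zero]
  rw [Finset.sum_congr rfl h2, ← Finset.mul_sum] at h1
  exact (mul_eq_zero.1 h1).resolve_left hF

theorem pow_sub_neg_one (m : ℕ) : ∃ q : Polynomial ℂ,
    (Polynomial.X ^ m : Polynomial ℂ) = Polynomial.C ((-1 : ℂ) ^ m) + (Polynomial.X + 1) * q := by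
  have h : (Polynomial.X + 1 : Polynomial ℂ) ∣ Polynomial.X ^ m - Polynomial.C ((-1 : ℂ) ^ m) := by
    have h1 : (Polynomial.X + 1 : Polynomial ℂ) = Polynomial.X - Polynomial.C (-1) := by
      rw [Polynomial.C_neg, sub_neg_eq_add, Polynomial.C_1]
    rw [h1, Polynomial.dvd_iff_isRoot, Polynomial.IsRoot.def, Polynomial.eval_sub,
      Polynomial.eval_pow, Polynomial.eval_X, Polynomial.eval_C, sub_self]
  obtain ⟨q, hq⟩ := h
  exact ⟨q, by rw [← hq]; ring⟩

/-- **The functional equations of `g ^ k`, `k ≥ 2`.** -/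
theorem isB_pow_strong (g : MvPolynomial σ ℂ) (hg : g ≠ 0) (hc : constantCoeff g = 0) (k : ℕ)
    (hk : 2 ≤ k) (b : Polynomial ℂ) (hb : IsBFunction (g ^ k) b) :
    ∃ b' : Polynomial ℂ, b = (Polynomial.X + 1) * b' ∧
      IsBFunction g (b'.comp (Polynomial.C ((k : ℂ)⁻¹) * Polynomial.X)) := by
  classical
  have hkC : (k : ℂ) ≠ 0 := by exact_mod_cast (by omega : k ≠ 0)
  set F := g ^ k with hF
  have hF0 : F ≠ 0 := pow_ne_zero _ hg
  have hFd : ¬ F ∣ 1 := by
    rintro ⟨G, hG⟩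
    have h1 := congrArg constantCoeff hG
    rw [map_one, map_mul, hF, map_pow, hc, zero_pow (by omega), zero_mul] at h1
    exact one_ne_zero h1
  obtain ⟨P, hP⟩ := hb
  have hm1 : b.eval (-1) = 0 := by
    refine minus_one F 1 hF0 hFd b P fun s => ?_
    rw [one_mul]
    exact hP s
  obtain ⟨b', hb'⟩ : (Polynomial.X + 1 : Polynomial ℂ) ∣ b := by
    have := Polynomial.dvd_iff_isRoot.2 hm1
    rwa [Polynomial.C_neg, sub_neg_eq_add, Polynomial.C_1] at this
  refine ⟨b', hb', ?_⟩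
  have hP1 : ∀ n : ℕ, (((n : ℂ) + 1) * b'.eval (n : ℂ)) • F ^ n = P.sum fun m Q =>
      ((n : ℂ) ^ m) • (Q : Module.End ℂ (MvPolynomial σ ℂ)) (F ^ (n + 1)) := by
    intro n
    rw [← hP n, hb', Polynomial.eval_mul, Polynomial.eval_add, Polynomial.eval_X,
      Polynomial.eval_one, C_mul']
  have h0 := at_minus F hF0 P b' hP1
  -- the operator of order at least one
  set R : Module.End ℂ (MvPolynomial σ ℂ) :=
    ∑ m ∈ P.support, ((-1 : ℂ) ^ m) • (P m : Module.End ℂ (MvPolynomial σ ℂ)) with hR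
  have hRw : R ∈ weyl σ := Subalgebra.sum_mem _ fun m _ => Subalgebra.smul_mem _ (P m).2 _
  have hR1 : R 1 = 0 := by
    rw [hR, LinearMap.sum_apply]
    exact h0
  obtain ⟨A, hA, hA1⟩ := comm_pow g R hRw
  choose q hq using pow_sub_neg_one
  -- the sequence
  set v : ℕ → MvPolynomial σ ℂ := (k : ℂ) • (fun s : ℕ => (A * ML (g ^ (k - 2))) (g ^ (s + 1))) +
    ∑ m ∈ P.support, fun s : ℕ => ((q m).comp (Polynomial.C ((k : ℂ)⁻¹) * Polynomial.X)).eval
      (s : ℂ) • ((P m : Module.End ℂ (MvPolynomial σ ℂ)) * ML (g ^ (k - 1))) (g ^ (s + 1)) with hv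
  have hvS : v ∈ Sq g := by
    refine (Sq g).add_mem ((Sq g).smul_mem _ ?_) ((Sq g).sum_mem fun m _ => ?_)
    · exact Sq_mem0 g ⟨A * ML (g ^ (k - 2)), Subalgebra.mul_mem _ hA (ml_mem _)⟩
    · exact Sq_poly _ (Sq_mem0 g ⟨(P m : Module.End ℂ (MvPolynomial σ ℂ)) * ML (g ^ (k - 1)),
        Subalgebra.mul_mem _ (P m).2 (ml_mem _)⟩)
  refine ext_k g hg k (by omega) _ v hvS fun n => ?_
  have hev : ∀ r : Polynomial ℂ, (r.comp (Polynomial.C ((k : ℂ)⁻¹) * Polynomial.X)).eval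
      ((k * n : ℕ) : ℂ) = r.eval (n : ℂ) := by
    intro r
    rw [Polynomial.eval_comp, Polynomial.eval_mul, Polynomial.eval_C, Polynomial.eval_X]
    congr 1
    push_cast
    rw [inv_mul_cancel_left₀ hkC]
  rw [hev]
  have hn1 : ((n : ℂ) + 1) ≠ 0 := by exact_mod_cast Nat.succ_ne_zero n
  have h2 := hP1 n
  rw [Finsupp.sum] at h2
  have h3 : ∀ m ∈ P.support, ((n : ℂ) ^ m) • (P m : Module.End ℂ (MvPolynomial σ ℂ))
      (F ^ (n + 1)) = ((-1 : ℂ) ^ m) • (P m : Module.End ℂ (MvPolynomial σ ℂ)) (F ^ (n + 1)) +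
        (((n : ℂ) + 1) * (q m).eval (n : ℂ)) • (P m : Module.End ℂ (MvPolynomial σ ℂ))
          (F ^ (n + 1)) := by
    intro m _
    rw [← add_smul]
    congr 1
    have h4 := congrArg (fun r : Polynomial ℂ => r.eval (n : ℂ)) (hq m)
    simp only [Polynomial.eval_pow, Polynomial.eval_X, Polynomial.eval_add, Polynomial.eval_mul,
      Polynomial.eval_C, Polynomial.eval_one] at h4
    exact h4
  rw [Finset.sum_congr rfl h3, Finset.sum_add_distrib] at h2
  have h4 : ∑ m ∈ P.support, ((-1 : ℂ) ^ m) • (P m : Module.End ℂ (MvPolynomial σ ℂ))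
      (F ^ (n + 1)) = R (F ^ (n + 1)) := by
    rw [hR, LinearMap.sum_apply]
    rfl
  have h5 : F ^ (n + 1) = g ^ ((k * n + (k - 1)) + 1) := by
    rw [hF, ← pow_mul]
    congr 1
    have : k - 1 + 1 = k := by omega
    rw [mul_add, mul_one]
    omega
  have h6 : R (F ^ (n + 1)) = ((n : ℂ) + 1) • ((k : ℂ) • A (g ^ (k * n + (k - 1)))) := by
    rw [h5, hA1, hR1, zero_mul, zero_add, smul_smul]
    congr 1
    have : ((k * n + (k - 1) : ℕ) : ℂ) + 1 = ((k * n + k : ℕ) : ℂ) := by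
      rw [← Nat.cast_succ]
      congr 1
      omega
    rw [this]
    push_cast
    ring
  rw [h4, h6] at h2
  have h7 : ∑ m ∈ P.support, (((n : ℂ) + 1) * (q m).eval (n : ℂ)) •
      (P m : Module.End ℂ (MvPolynomial σ ℂ)) (F ^ (n + 1)) =
      ((n : ℂ) + 1) • ∑ m ∈ P.support, (q m).eval (n : ℂ) •
        (P m : Module.End ℂ (MvPolynomial σ ℂ)) (F ^ (n + 1)) := by
    rw [Finset.smul_sum]
    exact Finset.sum_congr rfl fun m _ => by rw [smul_smul]
  rw [h7, ← smul_add, mul_smul] at h2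
  have h8 := smul_right_injective (MvPolynomial σ ℂ) hn1 h2
  have h9 : g ^ (k * n) = F ^ n := by rw [hF, ← pow_mul]
  rw [h9]
  beta_reduce at h8
  rw [h8, hv, Pi.add_apply, Pi.smul_apply, Finset.sum_apply]
  congr 1
  · congr 1
    change A (g ^ (k * n + (k - 1))) = A (g ^ (k - 2) * g ^ (k * n + 1))
    congr 1
    rw [← pow_add]
    congr 1
    omega
  · refine Finset.sum_congr rfl fun m _ => ?_
    rw [hev]
    congr 1
    change (P m : Module.End ℂ (MvPolynomial σ ℂ)) (F ^ (n + 1)) =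
      (P m : Module.End ℂ (MvPolynomial σ ℂ)) (g ^ (k - 1) * g ^ (k * n + 1))
    congr 1
    rw [h5, ← pow_add]
    congr 1
    omega

end Pool.Agent.T6.H26
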