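import Pool.Agent.T6.H26.FTMain

set_option autoImplicit false
set_option linter.unusedSectionVars false
set_option linter.unusedVariables false

/-! # Polynomials built with sums, products and powers -/

namespace Pool.Agent.T6.H26

open MvPolynomial
open Pool.Agent.Y230.PT Pool.Agent.Y230.PS Pool.Agent.Y230.TH Pool.Agent.R852.PP

/-- the unit ideal -/
theorem ro_one (σ ι : Type) [Fintype σ] [Fintype ι] [Nonempty ι] :
    RO Kd.idl ⟨σ, ι, fun _ => (1 : MvPolynomial σ ℚ)⟩ := by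
  classical
  refine RO.ptsI _ (PTS.good _ (Good.free _ (fun j => if j = Classical.arbitrary ι then 1 else 0)
    ?_))
  simp

/-- a variable -/
theorem ro_var (τ : Type) [Fintype τ] (t0 : τ) (ht : ∀ t, t = t0) :
    RO Kd.exh ⟨τ, Fin 1, fun _ => (X t0 : MvPolynomial τ ℚ)⟩ := by
  classical
  set f : (t : Fin 1) → Fin 1 → MvPolynomial (Fin 0) ℚ := fun _ _ => 1 with hf
  have h1 : RO Kd.idl (genQ (r := fun _ => 1) (fun _ : Fin 1 => 1) 1 f) := by
    have h2 := ro_one (Fin 0) ((q : Σ t : Fin 1, Fin 1) → Fin 1)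
    have e : genP (r := fun _ => 1) (fun _ : Fin 1 => 1) 1 f = fun _ => 1 := by
      funext J
      unfold genP
      rw [one_mul]
      exact Finset.prod_eq_one fun _ _ => rfl
    change RO Kd.idl ⟨Fin 0, _, genP (r := fun _ => 1) (fun _ : Fin 1 => 1) 1 f⟩
    rw [e]
    exact h2
  have h3 := RO.formE (Fin 0) 1 (fun _ => 1) (fun _ => 1) Nat.one_pos (fun _ => Nat.one_pos) f h1
  set i : (Σ t : Fin 1, Fin 1) ⊕ Fin 0 ≃ τ :=
    ⟨fun _ => t0, fun _ => Sum.inl ⟨0, 0⟩, fun z => by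
      rcases z with ⟨a, b⟩ | z
      · exact congrArg Sum.inl (by
          rw [Subsingleton.elim a 0, Subsingleton.elim b 0])
      · exact z.elim0, fun t => (ht t).symm⟩ with hi
  refine RO.equiv Kd.exh _ _ i (Equiv.refl (Fin 1)) (fun j => ?_) h3
  change X t0 = rename i (formP (r := fun _ => 1) (fun _ : Fin 1 => 1) 1 f)
  unfold formP
  rw [map_one, one_mul]
  simp only [pow_one, hf, map_one, mul_one]
  rw [map_prod]
  simp [hi]

/-- adding variables -/
theorem ro_extend {V : Type} [Fintype V] [DecidableEq V] (S : Finset V) (g : MvPolynomial S ℚ)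
    (h : RO Kd.exh ⟨S, Fin 1, fun _ => g⟩) :
    RO Kd.idl ⟨V, Fin 1, fun _ => rename Subtype.val g⟩ := by
  have h1 := RO.mulI _ _ (RO.ofHyp _ (RO.ofExh _ h)) (ro_one {i : V // ¬ i ∈ S} (Fin 1))
  refine RO.equiv Kd.idl _ _ (Equiv.sumCompl fun i : V => i ∈ S) (Equiv.prodUnique (Fin 1) (Fin 1))
    (fun j => ?_) h1
  change rename Subtype.val g = rename (Equiv.sumCompl fun i : V => i ∈ S)
    (rename Sum.inl g * rename Sum.inr 1)
  rw [map_one, mul_one, rename_rename]
  rfl

/-- every class is contained in the first one -/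
theorem ro_idl (c : Kd) (A : FamQ) (h : RO c A) : RO Kd.idl A := by
  cases c with
  | idl => exact h
  | hyp => exact RO.ofHyp _ h
  | exh => exact RO.ofHyp _ (RO.ofExh _ h)

/-- the powers of the universal polynomials of the ideals of `ℚ[x, y]` -/
theorem ro_plane (r a : ℕ) (ha : 0 < a) (f : Fin r → MvPolynomial (Fin 2) ℚ)
    (hf : ∃ j, f j ≠ 0) : RO Kd.exh ⟨Fin r ⊕ Fin 2, Fin 1, fun _ =>
      (∑ j, X (Sum.inl j) * rename Sum.inr (f j)) ^ a⟩ := by
  classical
  have h1 : RO Kd.idl (genQ (r := fun _ : Fin 1 => r) (fun _ => a) 1 fun _ => f) := by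
    set e := Fintype.equivFin ((q : Σ t : Fin 1, Fin a) → Fin r) with he
    have h2 : PTS false false ⟨Fin 2, Fin (Fintype.card ((q : Σ t : Fin 1, Fin a) → Fin r)),
        fun j => genP (r := fun _ : Fin 1 => r) (fun _ => a) 1 (fun _ => f) (e.symm j)⟩ := by
      refine PTS.good _ (Good.plane _ _ ?_)
      obtain ⟨j0, hj0⟩ := hf
      refine ⟨e fun _ => j0, ?_⟩
      rw [e.symm_apply_apply]
      unfold genP
      rw [one_mul]
      exact Finset.prod_ne_zero_iff.2 fun _ _ => hj0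
    refine RO.equiv Kd.idl _ _ (Equiv.refl (Fin 2)) e.symm (fun j => ?_) (RO.ptsI _ h2)
    rw [Equiv.coe_refl, rename_id_apply]
  have h3 := RO.formE (Fin 2) 1 (fun _ => r) (fun _ => a) Nat.one_pos (fun _ => ha)
    (fun _ => f) h1
  set i : (Σ t : Fin 1, Fin r) ⊕ Fin 2 ≃ Fin r ⊕ Fin 2 :=
    Equiv.sumCongr (Equiv.uniqueSigma fun _ : Fin 1 => Fin r) (Equiv.refl _) with hi
  refine RO.equiv Kd.exh _ _ i (Equiv.refl (Fin 1)) (fun j => ?_) h3
  change (∑ j, X (Sum.inl j) * rename Sum.inr (f j)) ^ a =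
    rename i (formP (r := fun _ : Fin 1 => r) (fun _ => a) 1 fun _ => f)
  unfold formP
  rw [map_one, one_mul, map_prod, Fin.prod_univ_one, map_pow, map_sum]
  congr 1
  refine Finset.sum_congr rfl fun j _ => ?_
  rw [map_mul, rename_X, rename_rename]
  rfl

/-- the pieces -/
theorem ro_leaf {V τ : Type} [DecidableEq V] [Fintype τ] (e : τ ↪ V) (g : MvPolynomial τ ℚ)
    (h : RO Kd.exh ⟨τ, Fin 1, fun _ => g⟩) :
    rename Subtype.val (rename (fun t : τ => (⟨e t, Finset.mem_map_of_mem e (Finset.mem_univ t)⟩ :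
      {x // x ∈ Finset.univ.map e})) g) = rename e g ∧
      RO Kd.exh ⟨{x // x ∈ Finset.univ.map e}, Fin 1, fun _ => rename (fun t : τ =>
        (⟨e t, Finset.mem_map_of_mem e (Finset.mem_univ t)⟩ : {x // x ∈ Finset.univ.map e})) g⟩ := by
  refine ⟨by rw [rename_rename]; rfl, ?_⟩
  have hb : Function.Bijective (fun t : τ => (⟨e t, Finset.mem_map_of_mem e (Finset.mem_univ t)⟩ :
      {x // x ∈ Finset.univ.map e})) := by
    refine ⟨fun a b hab => e.injective (congrArg Subtype.val hab), fun x => ?_⟩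
    obtain ⟨x, hx⟩ := x
    obtain ⟨t, -, rfl⟩ := Finset.mem_map.1 hx
    exact ⟨t, rfl⟩
  exact RO.equiv Kd.exh _ _ (Equiv.ofBijective _ hb) (Equiv.refl (Fin 1)) (fun j => rfl) h

theorem ro_built {V : Type} [DecidableEq V] (S : Finset V) (F : MvPolynomial V ℚ)
    (h : Built S F) : ∃ g : MvPolynomial S ℚ, rename Subtype.val g = F ∧
      RO Kd.exh ⟨S, Fin 1, fun _ => g⟩ := by
  induction h with
  | var i =>
    refine ⟨X ⟨i, Finset.mem_singleton_self i⟩, by rw [rename_X], ?_⟩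
    refine ro_var _ _ fun t => ?_
    exact Subtype.ext (Finset.mem_singleton.1 t.2)
  | iso n g w d h e =>
    exact ⟨_, ro_leaf e g (RO.isoE n g w d h)⟩
  | lin r f hf e =>
    have h1 := ro_plane r 1 Nat.one_pos f hf
    simp only [pow_one] at h1
    exact ⟨_, ro_leaf e _ h1⟩
  | add S T hST F G hF hG ihF ihG =>
    obtain ⟨f, rfl, hf⟩ := ihF
    obtain ⟨g, rfl, hg⟩ := ihG
    refine ⟨rename (Equiv.Finset.union S T hST) (rename Sum.inl f + rename Sum.inr g), ?_, ?_⟩
    · rw [map_add, map_add, rename_rename, rename_rename, rename_rename, rename_rename]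
      rfl
    · exact RO.equiv Kd.exh ⟨S ⊕ T, Fin 1, fun _ => rename Sum.inl f + rename Sum.inr g⟩
        ⟨_, Fin 1, fun _ => rename (Equiv.Finset.union S T hST)
          (rename Sum.inl f + rename Sum.inr g)⟩ (Equiv.Finset.union S T hST)
        (Equiv.refl (Fin 1)) (fun j => rfl) (RO.addE _ _ _ _ hf hg)
  | mul S T hST F G hF hG ihF ihG =>
    obtain ⟨f, rfl, hf⟩ := ihF
    obtain ⟨g, rfl, hg⟩ := ihG
    refine ⟨rename (Equiv.Finset.union S T hST) (rename Sum.inl f * rename Sum.inr g), ?_, ?_⟩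
    · rw [map_mul, map_mul, rename_rename, rename_rename, rename_rename, rename_rename]
      rfl
    · exact RO.equiv Kd.exh ⟨S ⊕ T, Fin 1, fun _ => rename Sum.inl f * rename Sum.inr g⟩
        ⟨_, Fin 1, fun _ => rename (Equiv.Finset.union S T hST)
          (rename Sum.inl f * rename Sum.inr g)⟩ (Equiv.Finset.union S T hST)
        (Equiv.refl (Fin 1)) (fun j => rfl) (RO.mulE _ _ _ _ hf hg)
  | pow S F k hk hF ih =>
    obtain ⟨f, rfl, hf⟩ := ih
    exact ⟨f ^ k, map_pow _ _ _, RO.powE _ _ k hk hf⟩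
  | smul S F c hc hF ih =>
    obtain ⟨f, rfl, hf⟩ := ih
    exact ⟨C c * f, by rw [map_mul, rename_C], RO.smulE _ _ c hc hf⟩

theorem built_idl {V : Type} [Fintype V] [DecidableEq V] (S : Finset V) (F : MvPolynomial V ℚ)
    (h : Built S F) : RO Kd.idl ⟨V, Fin 1, fun _ => F⟩ := by
  obtain ⟨g, rfl, hg⟩ := ro_built S F h
  exact ro_extend S g hg

end Pool.Agent.T6.H26
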