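import Pool.Agent.Y21.TH.JobA
import Pool.Agent.W574.RO.Tensor
import Pool.Agent.W574.HS.Minus

set_option autoImplicit false
set_option linter.unusedSectionVars false
set_option linter.unusedVariables false

/-! # Functional equations of `f(x) + g(z)` -/

namespace Pool.Agent.T6.H26

open MvPolynomial
open Pool.Agent.W574.SM (weyl)
open Pool.Agent.W574.RO (weyl_splits cof cof_mul)
open Pool.Agent.H628R4.TP (IsBFunction)
open Pool.Agent.Y230.TH (kf W StA)

section hom

variable {σ : Type} (w : σ → ℤ)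

/-- operators of weight `e` -/
def HomW (e : ℤ) (A : Module.End ℂ (MvPolynomial σ ℂ)) : Prop :=
  ∀ (n : ℤ) (u : MvPolynomial σ ℂ), IsWeightedHomogeneous w u n →
    IsWeightedHomogeneous w (A u) (n + e)

/-- the decomposition of operators into homogeneous ones -/
theorem weyl_homW (R : Module.End ℂ (MvPolynomial σ ℂ)) (hR : R ∈ weyl σ) :
    ∃ (m : ℕ) (Q : Fin m → weyl σ) (e : Fin m → ℤ), R = ∑ i, (Q i).1 ∧
      ∀ i, HomW w (e i) (Q i).1 := by
  classical
  induction hR using Algebra.adjoin_induction with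
  | mem R h =>
    rcases h with ⟨i, rfl⟩ | ⟨i, rfl⟩
    · refine ⟨1, fun _ => ⟨_, Algebra.subset_adjoin (Or.inl ⟨i, rfl⟩)⟩, fun _ => w i, ?_, ?_⟩
      · rw [Fin.sum_univ_one]
      · intro _ n u hu
        change IsWeightedHomogeneous w (X i * u) (n + w i)
        have h := (isWeightedHomogeneous_X ℂ w i).mul hu
        rwa [add_comm] at h
    · refine ⟨1, fun _ => ⟨_, Algebra.subset_adjoin (Or.inr ⟨i, rfl⟩)⟩, fun _ => -w i, ?_, ?_⟩
      · rw [Fin.sum_univ_one]
      · intro _ n u hu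
        change IsWeightedHomogeneous w (pderiv i u) (n + -w i)
        exact hu.pderiv (by ring)
  | algebraMap r =>
    refine ⟨1, fun _ => algebraMap ℂ _ r, fun _ => 0, ?_, ?_⟩
    · rw [Fin.sum_univ_one]
      rfl
    · intro _ n u hu
      change IsWeightedHomogeneous w (r • u) (n + 0)
      rw [add_zero]
      exact (weightedHomogeneousSubmodule ℂ w n).smul_mem r hu
  | add R R' _ _ h h' =>
    obtain ⟨m, Q, e, h1, h2⟩ := h
    obtain ⟨m', Q', e', h1', h2'⟩ := h'
    refine ⟨m + m', Fin.append Q Q', Fin.append e e', ?_, ?_⟩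
    · rw [Fin.sum_univ_add, h1, h1']
      congr 1
      · exact Finset.sum_congr rfl fun i _ => by rw [Fin.append_left]
      · exact Finset.sum_congr rfl fun i _ => by rw [Fin.append_right]
    · intro i
      induction i using Fin.addCases with
      | left i => rw [Fin.append_left, Fin.append_left]; exact h2 i
      | right i => rw [Fin.append_right, Fin.append_right]; exact h2' i
  | mul R R' _ _ h h' =>
    obtain ⟨m, Q, e, h1, h2⟩ := h
    obtain ⟨m', Q', e', h1', h2'⟩ := h'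
    refine ⟨m * m', fun k => Q (finProdFinEquiv.symm k).1 * Q' (finProdFinEquiv.symm k).2,
      fun k => e (finProdFinEquiv.symm k).1 + e' (finProdFinEquiv.symm k).2, ?_, ?_⟩
    · rw [h1, h1', Finset.sum_mul_sum, ← Fintype.sum_prod_type' (fun i j => (Q i).1 * (Q' j).1)]
      exact (finProdFinEquiv.symm.sum_comp (fun x : Fin m × Fin m' => (Q x.1).1 * (Q' x.2).1)).symm
    · intro k n u hu
      have h3 := h2 (finProdFinEquiv.symm k).1 _ _ (h2' (finProdFinEquiv.symm k).2 n u hu)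
      have h4 : n + e' (finProdFinEquiv.symm k).2 + e (finProdFinEquiv.symm k).1 =
        n + (e (finProdFinEquiv.symm k).1 + e' (finProdFinEquiv.symm k).2) := by ring
      rw [h4] at h3
      exact h3

end hom

/-- the functional: forced roots of `f` as values of functionals -/
theorem exists_fun {σ : Type} (f : MvPolynomial σ ℂ) (α : ℂ)
    (hα : ∀ q : Polynomial ℂ, (fun k : ℕ => q.eval (k : ℂ) • f ^ k) ∈ W f → q.eval α = 0) :
    ∃ lam : (ℕ → MvPolynomial σ ℂ) →ₗ[ℂ] ℂ, (∀ v ∈ W f, lam v = 0) ∧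
      ∀ q : Polynomial ℂ, lam (fun k : ℕ => q.eval (k : ℂ) • f ^ k) = q.eval α := by
  classical
  set T : Polynomial ℂ →ₗ[ℂ] ((ℕ → MvPolynomial σ ℂ) ⧸ W f) := (W f).mkQ ∘ₗ
    { toFun := fun q => fun k : ℕ => q.eval (k : ℂ) • f ^ k
      map_add' := fun q r => by funext k; rw [Polynomial.eval_add, add_smul]; rfl
      map_smul' := fun c q => by
        funext k
        rw [Polynomial.eval_smul, smul_assoc]
        rfl } with hT
  set φ : Polynomial ℂ →ₗ[ℂ] ℂ := Polynomial.leval α with hφ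
  have hker : LinearMap.ker T ≤ LinearMap.ker φ := by
    intro q hq
    rw [LinearMap.mem_ker] at hq ⊢
    have h1 : (fun k : ℕ => q.eval (k : ℂ) • f ^ k) ∈ W f := by
      rw [hT, LinearMap.comp_apply, Submodule.mkQ_apply, Submodule.Quotient.mk_eq_zero] at hq
      exact hq
    exact hα q h1
  obtain ⟨ψ, hψ⟩ : ∃ ψ : ((ℕ → MvPolynomial σ ℂ) ⧸ W f) →ₗ[ℂ] ℂ, ψ ∘ₗ T = φ := by
    have h1 : φ ∈ (LinearMap.ker T).dualAnnihilator := by
      rw [Submodule.mem_dualAnnihilator]
      intro q hq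
      exact hker hq
    rw [← LinearMap.range_dualMap_eq_dualAnnihilator_ker] at h1
    obtain ⟨ψ, hψ⟩ := h1
    exact ⟨ψ, hψ⟩
  refine ⟨ψ ∘ₗ (W f).mkQ, fun v hv => ?_, fun q => ?_⟩
  · rw [LinearMap.comp_apply, Submodule.mkQ_apply, (Submodule.Quotient.mk_eq_zero _).2 hv, map_zero]
  · have h1 := congrArg (fun L => L q) hψ
    exact h1

/-- `f ^ k / k!`, and `0` for `k < 0` -/
noncomputable def pz {σ : Type} (f : MvPolynomial σ ℂ) (k : ℤ) : MvPolynomial σ ℂ :=
  if k < 0 then 0 else ((k.toNat.factorial : ℂ))⁻¹ • f ^ k.toNat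

theorem pz_nat {σ : Type} (f : MvPolynomial σ ℂ) (k : ℕ) :
    pz f k = ((k.factorial : ℂ))⁻¹ • f ^ k := by
  unfold pz
  rw [if_neg (by omega), Int.toNat_natCast]

theorem pz_neg {σ : Type} (f : MvPolynomial σ ℂ) (k : ℤ) (hk : k < 0) : pz f k = 0 := by
  unfold pz
  rw [if_pos hk]

/-- the coefficient of a monomial in the second variables -/
noncomputable def cor {σ τ : Type} (n : τ →₀ ℕ) :
    MvPolynomial (σ ⊕ τ) ℂ →ₗ[ℂ] MvPolynomial σ ℂ :=
  cof n ∘ₗ (rename (R := ℂ) (Sum.swap : σ ⊕ τ → τ ⊕ σ)).toLinearMap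

theorem cor_mul {σ τ : Type} (n : τ →₀ ℕ) (u : MvPolynomial σ ℂ) (v : MvPolynomial τ ℂ) :
    cor n (rename Sum.inl u * rename Sum.inr v) = coeff n v • u := by
  change cof n (rename (Sum.swap : σ ⊕ τ → τ ⊕ σ) (rename Sum.inl u * rename Sum.inr v)) = _
  rw [map_mul, rename_rename, rename_rename]
  have h1 : (Sum.swap ∘ Sum.inl : σ → τ ⊕ σ) = Sum.inr := rfl
  have h2 : (Sum.swap ∘ Sum.inr : τ → τ ⊕ σ) = Sum.inl := rfl
  rw [h1, h2, mul_comm, cof_mul]

/-- powers of `f(x) + g(z)` -/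
theorem pow_add_pz {σ τ : Type} (f : MvPolynomial σ ℂ) (g : MvPolynomial τ ℂ) (N : ℕ) :
    pz (rename Sum.inl f + rename Sum.inr g : MvPolynomial (σ ⊕ τ) ℂ) N =
      ∑ k ∈ Finset.range (N + 1), rename Sum.inl (pz f k) *
        rename Sum.inr (pz g ((N : ℤ) - k)) := by
  rw [pz_nat, add_pow, Finset.smul_sum]
  refine Finset.sum_congr rfl fun k hk => ?_
  have hk' : k ≤ N := by
    have := Finset.mem_range.1 hk
    omega
  have h1 : ((N : ℤ) - k) = ((N - k : ℕ) : ℤ) := by omega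
  rw [h1, pz_nat, pz_nat, map_smul, map_smul, map_pow, map_pow, smul_mul_smul_comm]
  have h2 : ((N.choose k : ℕ) : MvPolynomial (σ ⊕ τ) ℂ) = C ((N.choose k : ℕ) : ℂ) := by simp
  rw [h2, mul_comm _ (C _), ← smul_eq_C_mul, smul_smul]
  congr 1
  have h3 := Nat.choose_mul_factorial_mul_factorial hk'
  have h4 : (N.factorial : ℂ) ≠ 0 := by exact_mod_cast N.factorial_ne_zero
  have h5 : (k.factorial : ℂ) ≠ 0 := by exact_mod_cast k.factorial_ne_zero
  have h6 : ((N - k).factorial : ℂ) ≠ 0 := by exact_mod_cast (N - k).factorial_ne_zero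
  have h7 : ((N.choose k : ℕ) : ℂ) * (k.factorial : ℂ) * ((N - k).factorial : ℂ) =
      (N.factorial : ℂ) := by exact_mod_cast h3
  rw [← h7] at h4 ⊢
  have h8 : ((N.choose k : ℕ) : ℂ) ≠ 0 := fun h => h4 (by rw [h]; ring)
  field_simp

end Pool.Agent.T6.H26
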