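import Pool.Agent.T6.H26.FTGood
import Pool.Agent.R852.PP.Inst

set_option autoImplicit false
set_option linter.unusedSectionVars false
set_option linter.unusedVariables false

/-! # Sequences: convolutions and expansions -/

namespace Pool.Agent.T6.H26

open Polynomial Pool.Agent.Y230.PS Pool.Agent.Y230.TH

/-- the convolution -/
def cnv (c d : ℕ → ℂ) (m : ℕ) : ℂ := ∑ ij ∈ Finset.HasAntidiagonal.antidiagonal m, c ij.1 * d ij.2

theorem ser_cnv (c d : ℕ → ℂ) : ser (cnv c d) = ser c * ser d := by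
  ext m
  rw [coeff_ser, PowerSeries.coeff_mul]
  simp only [coeff_ser]
  rfl

theorem EP_cnv {M1 M2 : ℂ → ℕ∞} {c d : ℕ → ℂ} (hc : c ∈ EP M1) (hd : d ∈ EP M2) :
    cnv c d ∈ EP (fun T => M1 T + M2 T) := by
  obtain ⟨D1, P1, h1, h2, h3⟩ := EP_rat _ _ hc
  obtain ⟨D2, P2, h4, h5, h6⟩ := EP_rat _ _ hd
  refine rat_EP _ (D1 * D2) (mul_ne_zero h1 h4) _ (P1 * P2) ?_ fun T hT => ?_
  · rw [ser_cnv, Polynomial.coe_mul, Polynomial.coe_mul, ← h2, ← h5]
    ring
  · rw [rootMultiplicity_mul (mul_ne_zero h1 h4)]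
    push_cast
    exact add_le_add (h3 T hT) (h6 T hT)

/-- the expansion -/
def upk (k : ℕ) (c : ℕ → ℂ) (n : ℕ) : ℂ := if k ∣ n then c (n / k) else 0

theorem ser_upk (k : ℕ) (hk : k ≠ 0) (c : ℕ → ℂ) : ser (upk k c) = (ser c).expand k hk := by
  ext n
  rw [coeff_ser, PowerSeries.coeff_expand, coeff_ser]
  rfl

theorem coe_expand (k : ℕ) (hk : k ≠ 0) (D : ℂ[X]) :
    ((D.comp (X ^ k) : ℂ[X]) : PowerSeries ℂ) = (D : PowerSeries ℂ).expand k hk := by
  ext n
  rw [PowerSeries.coeff_expand, Polynomial.coeff_coe, Polynomial.coeff_coe,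
    ← Polynomial.expand_eq_comp_X_pow, Polynomial.coeff_expand (Nat.pos_of_ne_zero hk)]

theorem EP_upk {M : ℂ → ℕ∞} {c : ℕ → ℂ} (k : ℕ) (hk : k ≠ 0) (hc : c ∈ EP M) :
    upk k c ∈ EP (fun T => M (T ^ k)) := by
  obtain ⟨D, P, hD, h2, h3⟩ := EP_rat _ _ hc
  have hD' : D.comp (X ^ k) ≠ 0 := by
    rw [← Polynomial.expand_eq_comp_X_pow]
    exact (Polynomial.expand_ne_zero (Nat.pos_of_ne_zero hk)).2 hD
  refine rat_EP _ (D.comp (X ^ k)) hD' _ (P.comp (X ^ k)) ?_ fun T hT => ?_
  · rw [ser_upk k hk, coe_expand k hk, coe_expand k hk, ← map_mul, h2]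
  · rw [Pool.Agent.R852.PP.rm_comp D hD T hT k hk]
    exact h3 _ (pow_ne_zero _ hT)

/-- the sum over `k N < m` -/
theorem EP_sumk {M1 M2 : ℂ → ℕ∞} {c d : ℕ → ℂ} (k : ℕ) (hk : k ≠ 0) (hc : c ∈ EP M1)
    (hd : d ∈ EP M2) : (fun m => ∑ N ∈ Finset.range m, if k * N < m then c N * d (m - k * N)
      else 0) ∈ EP (fun T => M1 (T ^ k) + M2 T) := by
  classical
  have h1 := EP_cnv (EP_upk k hk hc) hd
  have h2 : (d 0) • upk k c ∈ EP (fun T => M1 (T ^ k) + M2 T) :=
    (EP _).smul_mem _ (EP_mono (fun T _ => le_self_add) (EP_upk k hk hc))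
  have h3 : (fun m => ∑ N ∈ Finset.range m, if k * N < m then c N * d (m - k * N) else 0) =
      cnv (upk k c) d - (d 0) • upk k c := by
    funext m
    rw [Pi.sub_apply, Pi.smul_apply, smul_eq_mul]
    unfold cnv
    rw [Finset.Nat.sum_antidiagonal_eq_sum_range_succ (fun i j => upk k c i * d j),
      Finset.sum_range_succ, Nat.sub_self, mul_comm (upk k c m) (d 0), add_sub_cancel_right]
    have h4 : ∀ i ∈ Finset.range m, upk k c i * d (m - i) =
        ∑ N ∈ Finset.range m, if k * N = i then c N * d (m - k * N) else 0 := by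
      intro i hi
      rw [Finset.mem_range] at hi
      unfold upk
      split_ifs with h
      · obtain ⟨N, rfl⟩ := h
        have hk' := Nat.pos_of_ne_zero hk
        rw [Nat.mul_div_cancel_left _ hk', Finset.sum_eq_single N]
        · rw [if_pos rfl]
        · intro N' _ hN'
          rw [if_neg]
          intro h5
          exact hN' (Nat.eq_of_mul_eq_mul_left hk' h5)
        · intro h5
          exfalso
          apply h5
          rw [Finset.mem_range]
          exact lt_of_le_of_lt (Nat.le_mul_of_pos_left N hk') hi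
      · rw [zero_mul]
        symm
        refine Finset.sum_eq_zero fun N _ => ?_
        rw [if_neg]
        rintro rfl
        exact h ⟨N, rfl⟩
    rw [Finset.sum_congr rfl h4, Finset.sum_comm]
    refine Finset.sum_congr rfl fun N _ => ?_
    rw [Finset.sum_ite_eq]
    simp only [Finset.mem_range]
  rw [h3]
  exact (EP _).sub_mem h1 h2

end Pool.Agent.T6.H26
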