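import Pool.Agent.T6.H26.FTKey

set_option autoImplicit false
set_option linter.unusedSectionVars false
set_option linter.unusedVariables false

/-! # Functional equations of `f(x) + g(z)`: the roots -/

namespace Pool.Agent.T6.H26

open MvPolynomial
open Pool.Agent.W574.SM (weyl)
open Pool.Agent.W574.HS (minus_one)
open Pool.Agent.H628R4.TP (IsBFunction weylS)
open Pool.Agent.Y230.TH (kf W StA)

variable {σ τ : Type}

theorem W_poly (g : MvPolynomial τ ℂ) (e : ℕ) (he : 1 ≤ e) (Q : weyl τ) (r : Polynomial ℂ) :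
    (fun k : ℕ => (r.eval (k : ℂ) * kf k e) •
      (Q : Module.End ℂ (MvPolynomial τ ℂ)) (g ^ (k + e))) ∈ W g := by
  induction r using Polynomial.induction_on' with
  | add p q hp hq =>
    have h := (W g).add_mem hp hq
    refine (congrArg (· ∈ W g) (funext fun k => ?_)).mp h
    rw [Polynomial.eval_add, add_mul, add_smul]
    rfl
  | monomial n a =>
    have h := (W g).smul_mem a (Submodule.subset_span ⟨n, e, Q, he, rfl⟩)
    refine (congrArg (· ∈ W g) (funext fun k => ?_)).mp h
    rw [Polynomial.eval_monomial, mul_assoc, mul_smul]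
    rfl

/-- `(k + l) ^ m` -/
theorem shift_pow (k l m : ℕ) : (((k + l : ℕ) : ℂ)) ^ m =
    ∑ j ∈ Finset.range (m + 1), ((m.choose j : ℕ) : ℂ) * (l : ℂ) ^ (m - j) * (k : ℂ) ^ j := by
  rw [Nat.cast_add, add_pow]
  exact Finset.sum_congr rfl fun j _ => by ring

/-- **The functional equations of `f(x) + g(z)`**, `f` weighted homogeneous of positive degree. -/
theorem fe_sum (hA : StA) (w : σ → ℤ) (d : ℤ) (hd : 0 < d) (f : MvPolynomial σ ℂ)
    (g : MvPolynomial τ ℂ) (hf : IsWeightedHomogeneous w f d) (hf0 : f ≠ 0) (hg0 : g ≠ 0)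
    (hgc : constantCoeff g = 0) (b : Polynomial ℂ)
    (hb : IsBFunction (rename Sum.inl f + rename Sum.inr g : MvPolynomial (σ ⊕ τ) ℂ) b) :
    ∃ b' : Polynomial ℂ, b = (Polynomial.X + 1) * b' ∧ ∀ α : ℂ,
      (∀ q : Polynomial ℂ, (fun k : ℕ => q.eval (k : ℂ) • f ^ k) ∈ W f → q.eval α = 0) →
      IsBFunction g ((Polynomial.X + 1) * b'.comp (Polynomial.X + Polynomial.C α)) := by
  classical
  set F : MvPolynomial (σ ⊕ τ) ℂ := rename Sum.inl f + rename Sum.inr g with hF
  have hfc : constantCoeff f = 0 := by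
    by_contra h
    have h1 := hf (d := 0) (by rw [constantCoeff_eq] at h; exact h)
    simp only [map_zero] at h1
    omega
  have hFc : constantCoeff F = 0 := by
    rw [hF, map_add, constantCoeff_rename, constantCoeff_rename, hfc, hgc, add_zero]
  have hF0 : F ≠ 0 := by
    intro h0
    -- put `z = 0`
    have h1 : cor (0 : τ →₀ ℕ) F = f := by
      have h2 : F = rename Sum.inl f * rename Sum.inr 1 + rename Sum.inl 1 * rename Sum.inr g := by
        rw [hF, map_one, map_one, mul_one, one_mul]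
      rw [h2, map_add, cor_mul, cor_mul]
      have h3 : coeff 0 g = 0 := by rw [← constantCoeff_eq]; exact hgc
      rw [h3, zero_smul, add_zero]
      simp
    rw [h0, map_zero] at h1
    exact hf0 h1.symm
  have hFd : ¬ F ∣ 1 := by
    rintro ⟨G, hG⟩
    have h1 := congrArg constantCoeff hG
    rw [map_one, map_mul, hFc, zero_mul] at h1
    exact one_ne_zero h1
  obtain ⟨P, hP⟩ := hb
  have hm1 : b.eval (-1) = 0 := by
    refine minus_one F 1 hF0 hFd b P fun s => ?_
    rw [one_mul]
    exact hP s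
  obtain ⟨b', hb'⟩ : (Polynomial.X + 1 : Polynomial ℂ) ∣ b := by
    have := Polynomial.dvd_iff_isRoot.2 hm1
    rwa [Polynomial.C_neg, sub_neg_eq_add, Polynomial.C_1] at this
  refine ⟨b', hb', fun α hα => ?_⟩
  -- the normalized equation
  have hP' : ∀ N : ℕ, b'.eval (N : ℂ) • pz F N = P.sum fun m Q => ((N : ℂ) ^ m) •
      (Q : Module.End ℂ (MvPolynomial (σ ⊕ τ) ℂ)) (pz F ((N + 1 : ℕ) : ℤ)) := by
    intro N
    have h1 := hP N
    rw [hb', Polynomial.eval_mul, Polynomial.eval_add, Polynomial.eval_X, Polynomial.eval_one,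
      ← smul_eq_C_mul] at h1
    have h2 := congrArg (fun G => (((N + 1).factorial : ℂ))⁻¹ • G) h1
    beta_reduce at h2
    rw [smul_smul, Finsupp.smul_sum] at h2
    have h3 : (((N + 1).factorial : ℂ))⁻¹ * (((N : ℂ) + 1) * b'.eval (N : ℂ)) =
        b'.eval (N : ℂ) * ((N.factorial : ℂ))⁻¹ := by
      rw [Nat.factorial_succ]
      push_cast
      have h4 : (N.factorial : ℂ) ≠ 0 := by exact_mod_cast N.factorial_ne_zero
      have h5 : (N : ℂ) + 1 ≠ 0 := by exact_mod_cast Nat.succ_ne_zero N
      field_simp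
    rw [h3, mul_smul] at h2
    rw [pz_nat, h2]
    refine Finsupp.sum_congr fun m _ => ?_
    rw [pz_nat, map_smul, smul_comm]
  obtain ⟨K, hK, A, B, δ, m, hE⟩ := expansion w f g d hd hf b' P hP'
  obtain ⟨lam, hl1, hl2⟩ := exists_fun f α hα
  -- the functions of `k`
  set V : K → ℕ → ℕ → MvPolynomial σ ℂ := fun i j k =>
    ((k : ℂ) ^ j * (k.factorial : ℂ)) • (A i).1 (pz f (k - δ i)) with hV
  have hVneg : ∀ i j, δ i < 0 → lam (V i j) = 0 := by
    intro i j hi
    apply hl1
    obtain ⟨e, he⟩ : ∃ e : ℕ, δ i = -(e : ℤ) := ⟨(-δ i).toNat, by omega⟩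
    have he1 : 1 ≤ e := by omega
    refine Submodule.subset_span ⟨j, e, A i, he1, funext fun k => ?_⟩
    have h1 : (k : ℤ) - δ i = ((k + e : ℕ) : ℤ) := by omega
    simp only [hV]
    rw [h1, pz_nat, map_smul, smul_smul]
    congr 1
    unfold kf
    ring
  set ρ : K → Polynomial ℂ := fun i => ∑ j ∈ Finset.range (m i + 1),
    Polynomial.C (((m i).choose j : ℕ) * lam (V i j)) * Polynomial.X ^ (m i - j) with hρ
  have hρ0 : ∀ i, δ i < 0 → ρ i = 0 := by
    intro i hi
    rw [hρ]
    refine Finset.sum_eq_zero fun j _ => ?_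
    rw [hVneg i j hi, mul_zero, Polynomial.C_0, zero_mul]
  have hmain : ∀ l : ℕ, b'.eval (α + l) • pz g l =
      ∑ i, (ρ i).eval (l : ℂ) • (B i).1 (pz g (l + 1 + δ i)) := by
    intro l
    ext n
    rw [coeff_smul, coeff_sum]
    have h1 : (fun k : ℕ => ((Polynomial.C (coeff n (pz g l)) *
        b'.comp (Polynomial.X + Polynomial.C (l : ℂ))).eval (k : ℂ)) • f ^ k) =
        ∑ i, ∑ j ∈ Finset.range (m i + 1), (coeff n ((B i).1 (pz g (l + 1 + δ i))) *
          (((m i).choose j : ℕ) * (l : ℂ) ^ (m i - j))) • V i j := by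
      funext k
      have h2 := congrArg (fun G => (k.factorial : ℂ) • cor n G) (hE k l)
      beta_reduce at h2
      rw [map_smul, cor_mul, map_sum, Finset.smul_sum, pz_nat f k] at h2
      rw [Finset.sum_apply]
      have h3 : ((Polynomial.C (coeff n (pz g l)) *
          b'.comp (Polynomial.X + Polynomial.C (l : ℂ))).eval (k : ℂ)) • f ^ k =
          (k.factorial : ℂ) • Polynomial.eval ((k + l : ℕ) : ℂ) b' •
            coeff n (pz g l) • ((k.factorial : ℂ))⁻¹ • f ^ k := by
        rw [smul_smul, smul_smul, smul_smul]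
        congr 1
        rw [Polynomial.eval_mul, Polynomial.eval_C, Polynomial.eval_comp, Polynomial.eval_add,
          Polynomial.eval_X, Polynomial.eval_C, Nat.cast_add]
        have h4 : (k.factorial : ℂ) ≠ 0 := by exact_mod_cast k.factorial_ne_zero
        field_simp
      rw [h3, h2]
      refine Finset.sum_congr rfl fun i _ => ?_
      rw [map_smul, cor_mul, shift_pow, Finset.sum_smul, Finset.smul_sum, Finset.sum_apply]
      refine Finset.sum_congr rfl fun j _ => ?_
      simp only [hV, Pi.smul_apply]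
      rw [smul_smul, smul_smul, smul_smul]
      congr 1
      ring
    have h2 := congrArg lam h1
    rw [hl2, map_sum, Polynomial.eval_mul, Polynomial.eval_C, Polynomial.eval_comp,
      Polynomial.eval_add, Polynomial.eval_X, Polynomial.eval_C] at h2
    rw [smul_eq_mul, mul_comm, h2]
    refine Finset.sum_congr rfl fun i _ => ?_
    rw [map_sum, coeff_smul, smul_eq_mul, hρ, Polynomial.eval_finsetSum, Finset.sum_mul]
    refine Finset.sum_congr rfl fun j _ => ?_
    rw [map_smul, smul_eq_mul, Polynomial.eval_mul, Polynomial.eval_C, Polynomial.eval_pow,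
      Polynomial.eval_X]
    ring
  refine hA g hg0 _ ?_
  have h5 : (fun l : ℕ => (b'.comp (Polynomial.X + Polynomial.C α)).eval (l : ℂ) • g ^ l) =
      ∑ i, fun l : ℕ => ((ρ i).eval (l : ℂ) * (l.factorial : ℂ)) •
        (B i).1 (pz g (l + 1 + δ i)) := by
    funext l
    have h6 := congrArg (fun G => (l.factorial : ℂ) • G) (hmain l)
    beta_reduce at h6
    rw [pz_nat, Finset.smul_sum, smul_smul, smul_smul] at h6
    rw [Finset.sum_apply, Polynomial.eval_comp, Polynomial.eval_add, Polynomial.eval_X,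
      Polynomial.eval_C]
    have h7 : (l.factorial : ℂ) ≠ 0 := by exact_mod_cast l.factorial_ne_zero
    have h8 : (l.factorial : ℂ) * (b'.eval (α + l) * ((l.factorial : ℂ))⁻¹) =
        b'.eval ((l : ℂ) + α) := by
      rw [add_comm (l : ℂ) α]
      field_simp
    rw [mul_assoc, h8] at h6
    rw [h6]
    refine Finset.sum_congr rfl fun i _ => ?_
    rw [smul_smul, mul_comm]
  rw [h5]
  refine (W g).sum_mem fun i _ => ?_
  by_cases hi : δ i < 0
  · rw [hρ0 i hi]
    refine (congrArg (· ∈ W g) (funext fun l => ?_)).mp (W g).zero_mem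
    rw [Polynomial.eval_zero, zero_mul, zero_smul]
    rfl
  · obtain ⟨e, he⟩ : ∃ e : ℕ, 1 + δ i = (e : ℤ) := ⟨(1 + δ i).toNat, by omega⟩
    refine (congrArg (· ∈ W g) (funext fun l => ?_)).mp (W_poly g e (by omega) (B i) (ρ i))
    have h9 : (l : ℤ) + 1 + δ i = ((l + e : ℕ) : ℤ) := by omega
    rw [h9, pz_nat, map_smul, smul_smul]
    congr 1
    unfold kf
    ring

end Pool.Agent.T6.H26
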