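import Pool.Agent.T6.H26.FTRead
import Pool.Agent.T6.H26.DTSMain

set_option autoImplicit false
set_option linter.unusedSectionVars false
set_option linter.unusedVariables false

/-! # The poles of the zeta functions of the classes `RO` -/

namespace Pool.Agent.T6.H26

open MvPolynomial
open Pool.Agent.Y230.PT Pool.Agent.Y230.PS Pool.Agent.Y230.TH Pool.Agent.R852.PP
open Pool.Agent.H628R4.TP Pool.Agent.W427.SMC

variable {p : ℕ} [Fact p.Prime] {V : Type} [Fintype V]

/-- **The real parts of the poles are roots.** -/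
theorem ro_R (F : MvPolynomial V ℚ) (hF : RO Kd.idl (hyp F)) (b : Polynomial ℂ)
    (hb : Pool.Agent.H628R4.TP.IsBFunction (map (algebraMap ℚ ℂ) F) b)
    (Z : ℂ → ℂ) (hZ : MeromorphicOn Z Set.univ)
    (hZp : ∀ s : ℂ, 0 < s.re → Z s = zetaQ p F s) (s₀ : ℂ) (hs : meromorphicOrderAt Z s₀ < 0) :
    b.eval (s₀.re : ℂ) = 0 := by
  obtain ⟨-, h2⟩ := ro_main (p := p) Kd.idl (Pool.Agent.Y230.PS.hyp F) hF
  obtain ⟨D, P, hD0, h1, h4⟩ := h2.rat
  have h3 := mero_bound p D P hD0 Z hZ (fun s hs => by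
    rw [pw_real, hZp s (by simpa using hs), zetaQ_eq, ← FF_hyp]
    exact h1 s hs.le) s₀
  have h5 : rr p (pw p s₀) = s₀.re := pw_norm p s₀
  rw [← h5]
  refine root_of_tr F b hb _ (D.rootMultiplicity (pw p s₀)) (fun h0 => ?_)
    (h4 _ (pw_ne_zero p s₀))
  rw [h0] at h3
  exact absurd (lt_of_le_of_lt h3 hs) (by simp)

end Pool.Agent.T6.H26
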