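import Pool.Agent.TH192.PA.Spaces

set_option autoImplicit false
set_option linter.unusedSectionVars false
set_option linter.unusedVariables false

/-! # The reduction of Hankel matrices with an invertible leading minor -/

namespace Pool.Agent.T6.H26.HT

open Matrix Pool.Agent.TH192.PA

section

variable {R : Type} [CommRing R]

/-- The Hankel matrix `(x_{i + j})`. -/
def Hk (x : ℕ → R) (k m : ℕ) : Matrix (Fin k) (Fin m) R := Matrix.of fun i j => x (i + j)

/-- the coefficients of the functional dual to `X ^ (δ - 1)` -/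
noncomputable def cc (x : ℕ → R) (δ : ℕ) : Fin δ → R :=
  ((Hk x δ δ)⁻¹).mulVec fun i => if (i : ℕ) + 1 = δ then 1 else 0

/-- the coefficients of the recursion -/
noncomputable def qq (x : ℕ → R) (δ : ℕ) : Fin δ → R :=
  ((Hk x δ δ)⁻¹).mulVec fun i => x (δ + i)

noncomputable def kap (x : ℕ → R) (δ n : ℕ) : R := ∑ l : Fin δ, cc x δ l * x (n + l)

/-- the rows -/
noncomputable def Tr (x : ℕ → R) (δ : ℕ) : ℕ → ℕ → R
  | 0, n => x (n + δ) - ∑ l : Fin δ, qq x δ l * x (n + l)
  | i + 1, n => Tr x δ i (n + 1) - Tr x δ i δ * kap x δ n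

/-- the reduced sequence -/
noncomputable def red (x : ℕ → R) (δ i : ℕ) : R := Tr x δ i δ

theorem kap_lt (x : ℕ → R) (δ : ℕ) (hD : IsUnit (Hk x δ δ).det) (n : ℕ) (hn : n < δ) :
    kap x δ n = if n + 1 = δ then 1 else 0 := by
  have h1 : (Hk x δ δ).mulVec (cc x δ) =
      fun i : Fin δ => if (i : ℕ) + 1 = δ then (1 : R) else 0 := by
    unfold cc
    rw [Matrix.mulVec_mulVec, Matrix.mul_nonsing_inv _ hD, Matrix.one_mulVec]
  have h2 := congrFun h1 ⟨n, hn⟩
  simp only [Matrix.mulVec, dotProduct, Hk, Matrix.of_apply] at h2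
  rw [← h2]
  unfold kap
  exact Finset.sum_congr rfl fun l _ => mul_comm _ _

theorem Tr_zero_lt (x : ℕ → R) (δ : ℕ) (hD : IsUnit (Hk x δ δ).det) (n : ℕ) (hn : n < δ) :
    Tr x δ 0 n = 0 := by
  have h1 : (Hk x δ δ).mulVec (qq x δ) = fun i : Fin δ => x (δ + i) := by
    unfold qq
    rw [Matrix.mulVec_mulVec, Matrix.mul_nonsing_inv _ hD, Matrix.one_mulVec]
  have h2 := congrFun h1 ⟨n, hn⟩
  simp only [Matrix.mulVec, dotProduct, Hk, Matrix.of_apply] at h2
  rw [Tr, add_comm n δ, ← h2, sub_eq_zero]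
  exact Finset.sum_congr rfl fun l _ => mul_comm _ _

theorem Tr_lt (x : ℕ → R) (δ : ℕ) (hD : IsUnit (Hk x δ δ).det) (i : ℕ) :
    ∀ n, n < δ → Tr x δ i n = 0 := by
  induction i with
  | zero => exact Tr_zero_lt x δ hD
  | succ i ih =>
    intro n hn
    rw [Tr, kap_lt x δ hD n hn]
    by_cases h : n + 1 = δ
    · rw [if_pos h, h, mul_one, sub_self]
    · rw [if_neg h, mul_zero, sub_zero]
      exact ih _ (by omega)

/-- the rows are combinations of the shifted sequences -/
theorem Tr_comb (x : ℕ → R) (δ : ℕ) (i : ℕ) : ∃ u : ℕ → R, ∀ n,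
    Tr x δ i n = x (n + (δ + i)) + ∑ l ∈ Finset.range (δ + i), u l * x (n + l) := by
  induction i with
  | zero =>
    refine ⟨fun l => if h : l < δ then - qq x δ ⟨l, h⟩ else 0, fun n => ?_⟩
    rw [Tr, Nat.add_zero, sub_eq_add_neg, ← Finset.sum_neg_distrib, ← Fin.sum_univ_eq_sum_range
      (fun l => (if h : l < δ then - qq x δ ⟨l, h⟩ else 0) * x (n + l))]
    congr 1
    refine Finset.sum_congr rfl fun l _ => ?_
    rw [dif_pos l.2, neg_mul]
  | succ i ih =>
    obtain ⟨u, hu⟩ := ih
    refine ⟨fun l => (if l = 0 then 0 else u (l - 1)) -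
      (if h : l < δ then Tr x δ i δ * cc x δ ⟨l, h⟩ else 0), fun n => ?_⟩
    have h1 : Tr x δ i (n + 1) = x (n + (δ + (i + 1))) +
        ∑ l ∈ Finset.range (δ + (i + 1)), (if l = 0 then 0 else u (l - 1)) * x (n + l) := by
      rw [hu, show δ + (i + 1) = (δ + i) + 1 by ring, Finset.sum_range_succ']
      simp only [if_pos, zero_mul, add_zero, Nat.add_sub_cancel, Nat.succ_ne_zero, if_false]
      rw [show n + (δ + i + 1) = n + 1 + (δ + i) by ring]
      congr 1
      refine Finset.sum_congr rfl fun l _ => ?_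
      rw [show n + (l + 1) = n + 1 + l by ring]
    have h2 : Tr x δ i δ * kap x δ n = ∑ l ∈ Finset.range (δ + (i + 1)),
        (if h : l < δ then Tr x δ i δ * cc x δ ⟨l, h⟩ else 0) * x (n + l) := by
      unfold kap
      rw [Finset.mul_sum]
      have h3 := Fin.sum_univ_eq_sum_range
        (fun l => (if h : l < δ then Tr x δ i δ * cc x δ ⟨l, h⟩ else 0) * x (n + l)) δ
      have h4 : ∑ l ∈ Finset.range δ,
          (if h : l < δ then Tr x δ i δ * cc x δ ⟨l, h⟩ else 0) * x (n + l) =
          ∑ l ∈ Finset.range (δ + (i + 1)),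
          (if h : l < δ then Tr x δ i δ * cc x δ ⟨l, h⟩ else 0) * x (n + l) := by
        refine Finset.sum_subset (Finset.range_subset_range.2 (by omega)) fun l _ hl => ?_
        rw [Finset.mem_range] at hl
        rw [dif_neg hl, zero_mul]
      rw [← h4, ← h3]
      refine Finset.sum_congr rfl fun l _ => ?_
      rw [dif_pos l.2]
      ring
    rw [Tr, h1, h2, add_sub_assoc, ← Finset.sum_sub_distrib]
    congr 1
    exact Finset.sum_congr rfl fun l _ => by ring

/-- the columns are combinations of the shifted reduced sequences -/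
theorem Tr_col (x : ℕ → R) (δ : ℕ) (j : ℕ) : ∃ c : ℕ → R, ∀ i,
    Tr x δ i (δ + j) = red x δ (i + j) + ∑ l ∈ Finset.range j, c l * red x δ (i + l) := by
  induction j with
  | zero => exact ⟨fun _ => 0, fun i => by simp [red]⟩
  | succ j ih =>
    obtain ⟨c, hc⟩ := ih
    refine ⟨fun l => if l = 0 then kap x δ (δ + j) else c (l - 1), fun i => ?_⟩
    have h1 : Tr x δ i (δ + (j + 1)) = Tr x δ (i + 1) (δ + j) + red x δ i * kap x δ (δ + j) := by
      rw [Tr, red]
      ring_nf
    rw [h1, hc, Finset.sum_range_succ', show i + 1 + j = i + (j + 1) by ring, add_assoc]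
    congr 1
    simp only [if_pos, Nat.add_zero]
    rw [mul_comm (red x δ i)]
    congr 1
    refine Finset.sum_congr rfl fun l _ => ?_
    rw [if_neg (Nat.succ_ne_zero l), Nat.add_sub_cancel, show i + 1 + l = i + (l + 1) by ring]

theorem minI_unit_mul {I J : Type} [Fintype I] [DecidableEq I] {k : ℕ} (U : Matrix I I R)
    (hU : IsUnit U.det) (Y : Matrix I J R) : minI k (U * Y) = minI k Y := by
  refine le_antisymm (minI_mul_le U Y) ?_
  have h1 := minI_mul_le (k := k) U⁻¹ (U * Y)
  rwa [← Matrix.mul_assoc, Matrix.nonsing_inv_mul _ hU, Matrix.one_mul] at h1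

theorem minI_mul_unit {I J : Type} [Fintype J] [DecidableEq J] {k : ℕ} (V : Matrix J J R)
    (hV : IsUnit V.det) (Y : Matrix I J R) : minI k (Y * V) = minI k Y := by
  refine le_antisymm (minI_mul_le' Y V) ?_
  have h1 := minI_mul_le' (k := k) (Y * V) V⁻¹
  rwa [Matrix.mul_assoc, Matrix.mul_nonsing_inv _ hV, Matrix.mul_one] at h1

/-- the unitriangular matrix -/
def Uni (k : ℕ) (u : ℕ → ℕ → R) : Matrix (Fin k) (Fin k) R :=
  Matrix.of fun i l : Fin k => if (l : ℕ) = i then 1 else if (l : ℕ) < i then u i l else 0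

theorem det_uni (k : ℕ) (u : ℕ → ℕ → R) : (Uni k u).det = 1 := by
  rw [Matrix.det_of_isLowerTriangular]
  · simp [Uni]
  · intro i j h
    have h' : (i : ℕ) < j := h
    simp only [Uni, Matrix.of_apply]
    rw [if_neg (by omega), if_neg (by omega)]

theorem sum_uni (k : ℕ) (u : ℕ → ℕ → R) (i : Fin k) (y : ℕ → R) :
    ∑ l : Fin k, Uni k u i l * y l = y i + ∑ l ∈ Finset.range i, u i l * y l := by
  have h1 : ∀ l : Fin k, Uni k u i l * y l =
      (fun l : ℕ => (if l = i then 1 else if l < i then u i l else 0) * y l) l := fun l => rfl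
  rw [Finset.sum_congr rfl fun l _ => h1 l, Fin.sum_univ_eq_sum_range
    (fun l : ℕ => (if l = i then 1 else if l < i then u i l else 0) * y l)]
  have h2 : ∑ l ∈ Finset.range (i + 1), (if l = i then 1 else if l < i then u i l else 0) * y l =
      ∑ l ∈ Finset.range k, (if l = i then 1 else if l < i then u i l else 0) * y l := by
    refine Finset.sum_subset (Finset.range_subset_range.2 (by have := i.2; omega)) fun l _ hl => ?_
    rw [Finset.mem_range] at hl
    rw [if_neg (by omega), if_neg (by omega), zero_mul]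
  rw [← h2, Finset.sum_range_succ, if_pos rfl, one_mul, add_comm]
  congr 1
  refine Finset.sum_congr rfl fun l hl => ?_
  rw [Finset.mem_range] at hl
  rw [if_neg (by omega), if_pos hl]

/-- **The reduction.** -/
theorem minI_red (x : ℕ → R) (δ k m q : ℕ) (hD : IsUnit (Hk x δ δ).det) :
    minI (δ + q) (Hk x (δ + k) (δ + m)) = minI q (Hk (red x δ) k m) := by
  choose u hu using fun i => Tr_comb x δ i
  choose c hc using fun j => Tr_col x δ j
  set U : Matrix (Fin (δ + k)) (Fin (δ + k)) R :=
    Uni (δ + k) (fun i l => if i < δ then 0 else u (i - δ) l) with hU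
  set W : Matrix (Fin (δ + k)) (Fin (δ + m)) R :=
    Matrix.of fun i j => if (i : ℕ) < δ then x (i + j) else Tr x δ (i - δ) j with hW
  have hWU : U * Hk x (δ + k) (δ + m) = W := by
    ext i j
    rw [Matrix.mul_apply, hU]
    have h1 := sum_uni (δ + k) (fun i l => if i < δ then 0 else u (i - δ) l) i
      (fun l => x (l + j))
    refine h1.trans ?_
    rw [hW, Matrix.of_apply]
    by_cases hi : (i : ℕ) < δ
    · rw [if_pos hi, Finset.sum_eq_zero, add_zero]
      intro l _
      rw [if_pos hi, zero_mul]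
    · rw [if_neg hi, hu, show (j : ℕ) + (δ + ((i : ℕ) - δ)) = i + j by omega]
      congr 1
      rw [show δ + ((i : ℕ) - δ) = i by omega]
      refine Finset.sum_congr rfl fun l _ => ?_
      rw [if_neg hi, add_comm l]
  have hdet : IsUnit U.det := by
    rw [hU, det_uni]
    exact isUnit_one
  rw [← minI_unit_mul U hdet, hWU]
  have hpiv : piv W finSumFinEquiv finSumFinEquiv = Hk x δ δ := by
    ext i j
    simp [piv, hW, Hk, finSumFinEquiv]
  have hA : IsUnit (piv W (finSumFinEquiv (m := δ) (n := k)) (finSumFinEquiv (m := δ)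
      (n := m))).det := by
    rw [hpiv]
    exact hD
  rw [minI_schur W finSumFinEquiv finSumFinEquiv hA]
  have hS : schur W (finSumFinEquiv (m := δ) (n := k)) (finSumFinEquiv (m := δ) (n := m)) =
      Matrix.of fun (i : Fin k) (j : Fin m) => Tr x δ i (δ + j) := by
    have h0 : W.submatrix ((finSumFinEquiv (m := δ) (n := k)) ∘ Sum.inr)
        ((finSumFinEquiv (m := δ) (n := m)) ∘ Sum.inl) = 0 := by
      ext i j
      rw [Matrix.submatrix_apply, hW, Matrix.of_apply, if_neg (by simp)]
      simp only [Function.comp, finSumFinEquiv_apply_right, finSumFinEquiv_apply_left,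
        Fin.val_natAdd, Fin.val_castAdd, Matrix.zero_apply, Nat.add_sub_cancel_left]
      exact Tr_lt x δ hD i j j.2
    unfold schur
    rw [h0, Matrix.zero_mul, Matrix.zero_mul, sub_zero]
    ext i j
    rw [Matrix.submatrix_apply, hW, Matrix.of_apply, Matrix.of_apply, if_neg (by simp)]
    simp only [Function.comp, finSumFinEquiv_apply_right, Fin.val_natAdd, Nat.add_sub_cancel_left]
  have hV : (Matrix.of fun (i : Fin k) (j : Fin m) => Tr x δ i (δ + j)) =
      Hk (red x δ) k m * (Uni m c).transpose := by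
    ext i j
    rw [Matrix.mul_apply, Matrix.of_apply, hc]
    have h1 := sum_uni m c j (fun l => red x δ (i + l))
    rw [← h1]
    refine Finset.sum_congr rfl fun l _ => ?_
    rw [Matrix.transpose_apply, mul_comm]
    rfl
  rw [hS, hV]
  refine minI_mul_unit _ ?_ _
  rw [Matrix.det_transpose, det_uni]
  exact isUnit_one

theorem cc_congr (x y : ℕ → R) (δ : ℕ) (h : ∀ m < 2 * δ, x m = y m) : cc x δ = cc y δ := by
  have h1 : Hk x δ δ = Hk y δ δ := by
    ext i j
    exact h _ (by have := i.2; have := j.2; omega)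
  rw [cc, cc, h1]

theorem qq_congr (x y : ℕ → R) (δ : ℕ) (h : ∀ m < 2 * δ, x m = y m) : qq x δ = qq y δ := by
  have h1 : Hk x δ δ = Hk y δ δ := by
    ext i j
    exact h _ (by have := i.2; have := j.2; omega)
  have h2 : (fun i : Fin δ => x (δ + i)) = fun i : Fin δ => y (δ + i) := by
    funext i
    exact h _ (by have := i.2; omega)
  rw [qq, qq, h1, h2]

theorem kap_congr (x y : ℕ → R) (δ n : ℕ) (h : ∀ m < 2 * δ, x m = y m)
    (h' : ∀ m < n + δ, x m = y m) : kap x δ n = kap y δ n := by
  unfold kap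
  rw [cc_congr x y δ h]
  exact Finset.sum_congr rfl fun l _ => by rw [h' _ (by have := l.2; omega)]

/-- the reduction is triangular -/
theorem Tr_dep (δ : ℕ) (i : ℕ) : ∀ (n : ℕ), δ ≤ n → ∀ x y : ℕ → R,
    (∀ m < n + δ + i, x m = y m) →
    Tr x δ i n - x (n + δ + i) = Tr y δ i n - y (n + δ + i) := by
  induction i with
  | zero =>
    intro n hn x y h
    rw [Tr, Tr, Nat.add_zero, qq_congr x y δ fun m hm => h m (by omega)]
    have h1 : ∑ l : Fin δ, qq y δ l * x (n + l) = ∑ l : Fin δ, qq y δ l * y (n + l) :=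
      Finset.sum_congr rfl fun l _ => by rw [h _ (by have := l.2; omega)]
    rw [h1]
    ring
  | succ i ih =>
    intro n hn x y h
    have h1 := ih (n + 1) (by omega) x y fun m hm => h m (by omega)
    have h2 := ih δ le_rfl x y fun m hm => h m (by omega)
    have h3 := h (δ + δ + i) (by omega)
    have h4 : Tr x δ i δ = Tr y δ i δ := by
      rw [h3] at h2
      exact sub_left_injective h2
    have h5 := kap_congr x y δ n (fun m hm => h m (by omega)) fun m hm => h m (by omega)
    rw [Tr, Tr, h4, h5]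
    rw [show n + δ + (i + 1) = n + 1 + δ + i by ring]
    linear_combination h1

theorem red_dep (δ i : ℕ) (x y : ℕ → R) (h : ∀ m < 2 * δ + i, x m = y m) :
    red x δ i - x (2 * δ + i) = red y δ i - y (2 * δ + i) := by
  have h1 := Tr_dep δ i δ le_rfl x y fun m hm => h m (by omega)
  rw [show δ + δ + i = 2 * δ + i by ring] at h1
  exact h1

theorem map_Tr {S : Type} [CommRing S] (φ : R →+* S) (x : ℕ → R) (δ : ℕ)
    (hD : IsUnit (Hk x δ δ).det) (i : ℕ) : ∀ n, φ (Tr x δ i n) = Tr (fun m => φ (x m)) δ i n := by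
  have hH : (Hk x δ δ).map φ = Hk (fun m => φ (x m)) δ δ := rfl
  have hinv := map_inv_of_unit φ (Hk x δ δ) hD
  rw [hH] at hinv
  have hc : ∀ l, φ (cc x δ l) = cc (fun m => φ (x m)) δ l := by
    intro l
    rw [cc, cc, ← hinv]
    simp only [Matrix.mulVec, dotProduct, map_sum, map_mul, Matrix.map_apply]
    refine Finset.sum_congr rfl fun i _ => ?_
    congr 1
    split_ifs
    · exact map_one φ
    · exact map_zero φ
  have hq : ∀ l, φ (qq x δ l) = qq (fun m => φ (x m)) δ l := by
    intro l
    rw [qq, qq, ← hinv]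
    simp only [Matrix.mulVec, dotProduct, map_sum, map_mul, Matrix.map_apply]
  have hk : ∀ n, φ (kap x δ n) = kap (fun m => φ (x m)) δ n := by
    intro n
    rw [kap, kap, map_sum]
    exact Finset.sum_congr rfl fun l _ => by rw [map_mul, hc]
  induction i with
  | zero =>
    intro n
    rw [Tr, Tr, map_sub, map_sum]
    congr 1
    exact Finset.sum_congr rfl fun l _ => by rw [map_mul, hq]
  | succ i ih =>
    intro n
    rw [Tr, Tr, map_sub, map_mul, ih, ih, hk]

theorem map_red {S : Type} [CommRing S] (φ : R →+* S) (x : ℕ → R) (δ : ℕ)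
    (hD : IsUnit (Hk x δ δ).det) (i : ℕ) : φ (red x δ i) = red (fun m => φ (x m)) δ i :=
  map_Tr φ x δ hD i δ

/-- the determinant of a matrix which is triangular with respect to the antidiagonal -/
theorem det_anti {k : ℕ} (y : ℕ → R) (h : ∀ m, m + 1 < k → y m = 0)
    (hk : 0 < k → IsUnit (y (k - 1))) : IsUnit (Hk y k k).det := by
  classical
  have h1 : (Hk y k k).det =
      ((Equiv.Perm.sign (Fin.revPerm (n := k)) : ℤ) : R) *
        ((Hk y k k).submatrix (Fin.revPerm (n := k)) id).det := by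
    rw [Matrix.det_permute, ← mul_assoc, ← Int.cast_mul, ← Units.val_mul, Int.units_mul_self,
      Units.val_one, Int.cast_one, one_mul]
  rw [h1]
  refine IsUnit.mul ?_ ?_
  · exact (Int.isUnit_iff.1 (Units.isUnit _)).elim (fun h => by rw [h, Int.cast_one]; exact isUnit_one)
      (fun h => by rw [h, Int.cast_neg, Int.cast_one]; exact isUnit_one.neg)
  · rw [Matrix.det_of_isUpperTriangular]
    · refine IsUnit.prod_univ_iff.2 fun i => ?_
      rw [Matrix.submatrix_apply, Hk, Matrix.of_apply, id, Fin.revPerm_apply, Fin.val_rev]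
      have h2 : k - ((i : ℕ) + 1) + i = k - 1 := by have := i.2; omega
      rw [h2]
      exact hk (by have := i.2; omega)
    · intro i j hij
      have hij' : (j : ℕ) < i := hij
      rw [Matrix.submatrix_apply, Hk, Matrix.of_apply, id, Fin.revPerm_apply, Fin.val_rev]
      exact h _ (by have := i.2; omega)

end

end Pool.Agent.T6.H26.HT
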