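import Pool.Agent.TH192.PA.Tower

set_option autoImplicit false
set_option linter.unusedSectionVars false
set_option linter.unusedVariables false

/-! # The recursion for the zeta functions, with measure preserving reductions -/

namespace Pool.Agent.T6.H26.HT

open MeasureTheory Pool.Agent.W427.SMC Polynomial Pool.Agent.TH192.PA
open scoped ENNReal NNReal

attribute [local instance] msZ bsZ

variable {p : ℕ} [Fact p.Prime]

/-- The reduction of the residue class of `w` in the space `X` to the space `Y`. -/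
def PivRel2 (X Y : Sp p) (δ : ℕ) (w : X.ι → ℤ_[p]) : Prop :=
  0 < δ ∧ ∃ (Φ : (X.ι → ℤ_[p]) → (Y.ι → ℤ_[p])) (w' : Y.ι → ℤ_[p]),
    MeasurePreserving Φ (hm p X.ι) (hm p Y.ι) ∧
    ∀ k z, X.nrm k (fun i => w i + (p : ℤ_[p]) * z i) =
      Y.nrm (k - δ) (fun i => w' i + (p : ℤ_[p]) * Φ z i)

/-- A space which can be reduced to smaller ones in all non-zero residue classes; `ν d` is the
dimension. -/
inductive Tower2 (ν : ℕ → ℕ) : Sp p → ℕ → Prop
  | mk (X : Sp p) (d : ℕ) (hν : Fintype.card X.ι = ν d) (Y : (X.ι → ℤ_[p]) → Sp p)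
      (δ : (X.ι → ℤ_[p]) → ℕ)
      (h1 : ∀ w, (∃ i, ¬ (p : ℤ_[p]) ∣ w i) → Tower2 ν (Y w) (d + δ w))
      (h2 : ∀ w, (∃ i, ¬ (p : ℤ_[p]) ∣ w i) → PivRel2 X (Y w) (δ w) w) : Tower2 ν X d

theorem Tower2.mk' {ν : ℕ → ℕ} (X : Sp p) (d : ℕ) (hν : Fintype.card X.ι = ν d)
    (h : ∀ w : X.ι → ℤ_[p], (∃ i, ¬ (p : ℤ_[p]) ∣ w i) →
      ∃ (Y : Sp p) (δ : ℕ), Tower2 ν Y (d + δ) ∧ PivRel2 X Y δ w) : Tower2 ν X d := by
  classical
  have h1 : ∀ w : X.ι → ℤ_[p], ∃ (Y : Sp p) (δ : ℕ), (∃ i, ¬ (p : ℤ_[p]) ∣ w i) →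
      Tower2 ν Y (d + δ) ∧ PivRel2 X Y δ w := by
    intro w
    by_cases hw : ∃ i, ¬ (p : ℤ_[p]) ∣ w i
    · obtain ⟨Y, δ, h2⟩ := h w hw
      exact ⟨Y, δ, fun _ => h2⟩
    · exact ⟨X, 0, fun h3 => absurd h3 hw⟩
  choose Y δ h2 using h1
  exact Tower2.mk X d hν Y δ (fun w hw => (h2 w hw).1) (fun w hw => (h2 w hw).2)

variable {T : ℕ}

theorem HH_piv2 (X Y : Sp p) (δ : ℕ) (w : X.ι → ℤ_[p]) (h : PivRel2 X Y δ w) :
    ∃ w', ∀ (e a : Fin T → ℕ) (s : ℝ), HH X e a s w = HH Y (fun t => e t - δ) a s w' := by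
  classical
  obtain ⟨_, Φ, w', hm, hk⟩ := h
  refine ⟨w', fun e a s => ?_⟩
  unfold HH
  rw [← hm.lintegral_comp (f := fun y => FF Y (fun t => e t - δ) a s
    (fun i => w' i + (p : ℤ_[p]) * y i)) ((FF_meas Y _ a s).comp (meas_affV p w'))]
  refine lintegral_congr fun z => ?_
  unfold FF
  exact Finset.prod_congr rfl fun t _ => by rw [hk]

theorem tower_int2 {ν : ℕ → ℕ} {X : Sp p} {d : ℕ} (hT : Tower2 ν X d) (R : ℕ) (e a : Fin T → ℕ)
    (hR : ∀ d', R ≤ d' → ∑ t, a t * (e t - d') = 0) :
    ∀ w : X.ι → ℤ_[p], ∃ P : ℝ[X], ∀ s : ℝ, 0 < s →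
      (Dd p ν (fun d' => ∑ t, a t * (e t - d')) R d).eval (tr' p s) *
        (HH X (fun t => e t - d) a s w).toReal = P.eval (tr' p s) := by
  classical
  induction hT with
  | mk X d hν Y δ h1 h2 ih =>
    set N : ℕ → ℕ := fun d' => ∑ t, a t * (e t - d') with hN
    -- the non-zero classes
    have hnz : ∀ w : X.ι → ℤ_[p], (∃ i, ¬ (p : ℤ_[p]) ∣ w i) → ∃ P : ℝ[X], ∀ s : ℝ, 0 < s →
        (Dd p ν N R (d + 1)).eval (tr' p s) * (HH X (fun t => e t - d) a s w).toReal =
          P.eval (tr' p s) := by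
      intro w hw
      obtain ⟨w', hw'⟩ := HH_piv2 (T := T) X (Y w) (δ w) w (h2 w hw)
      obtain ⟨P, hP⟩ := ih w hw w'
      have hδ : 0 < δ w := (h2 w hw).1
      obtain ⟨Q, hQ⟩ := Dd_dvd p ν N R (show d + 1 ≤ d + δ w by omega)
      refine ⟨P * Q, fun s hs => ?_⟩
      rw [hw', eval_mul, ← hP s hs, hQ, eval_mul]
      have h3 : (fun t => e t - d - δ w) = fun t => e t - (d + δ w) := by
        funext t; omega
      rw [h3]
      ring
    by_cases hN0 : N d = 0
    · intro w
      refine ⟨Dd p ν N R d, fun s hs => ?_⟩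
      have h3 : HH X (fun t => e t - d) a s w = 1 := by
        unfold HH
        rw [lintegral_congr (g := fun _ => 1) fun z => FF_one X _ a s hN0 _, lintegral_one,
          measure_univ]
      rw [h3, ENNReal.toReal_one, mul_one]
    · have hdR : d < R := by
        by_contra h
        exact hN0 (hR d (by omega))
      -- the class of zero and the whole space
      have hG : ∃ P : ℝ[X], ∀ s : ℝ, 0 < s → (Dd p ν N R d).eval (tr' p s) *
          (GG X (fun t => e t - d) a s).toReal = P.eval (tr' p s) := by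
        set Z : Finset (X.ι → ZMod p) := Finset.univ.filter fun w => ∃ i, ¬ (p : ℤ_[p]) ∣
          (((w i).val : ℕ) : ℤ_[p]) with hZ
        have h3 : ∀ w : X.ι → ZMod p, ∃ P : ℝ[X], w ∈ Z → ∀ s : ℝ, 0 < s →
            (Dd p ν N R (d + 1)).eval (tr' p s) *
              (HH X (fun t => e t - d) a s (fun i => ((w i).val : ℤ_[p]))).toReal =
              P.eval (tr' p s) := by
          intro w
          by_cases hw : w ∈ Z
          · obtain ⟨P, hP⟩ := hnz _ (Finset.mem_filter.1 hw).2
            exact ⟨P, fun _ => hP⟩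
          · exact ⟨0, fun h => absurd h hw⟩
        choose P hP using h3
        refine ⟨∑ w ∈ Z, C (((p : ℝ)⁻¹) ^ ν d) * P w, fun s hs => ?_⟩
        have hfin : ∀ w, HH X (fun t => e t - d) a s w ≠ ⊤ := fun w =>
          ne_top_of_le_ne_top ENNReal.one_ne_top (HH_le X _ a s hs w)
        have hc : ((((p : ℝ≥0∞)⁻¹) ^ Fintype.card X.ι)).toReal = ((p : ℝ)⁻¹) ^ ν d := by
          rw [hν, ENNReal.toReal_pow, ENNReal.toReal_inv, ENNReal.toReal_natCast]
        -- the sum over the classes
        have h4 : (GG X (fun t => e t - d) a s).toReal =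
            ∑ w : X.ι → ZMod p, ((p : ℝ)⁻¹) ^ ν d *
              (HH X (fun t => e t - d) a s (fun i => ((w i).val : ℤ_[p]))).toReal := by
          rw [GG_eq, ENNReal.toReal_sum]
          · refine Finset.sum_congr rfl fun w _ => ?_
            rw [ENNReal.toReal_mul, hc]
          · intro w _
            refine ENNReal.mul_ne_top ?_ (hfin _)
            refine ENNReal.pow_ne_top ?_
            rw [Ne, ENNReal.inv_eq_top]
            exact_mod_cast (Fact.out : p.Prime).ne_zero
        have h5 : (Finset.univ.filter fun w : X.ι → ZMod p => ¬ ∃ i, ¬ (p : ℤ_[p]) ∣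
            (((w i).val : ℕ) : ℤ_[p])) = {0} := by
          ext w
          simp only [Finset.mem_filter, Finset.mem_univ, true_and, not_exists, not_not,
            Finset.mem_singleton]
          constructor
          · intro h
            funext i
            have h6 := h i
            rw [p_dvd_natCast] at h6
            have h7 : (w i).val < p := ZMod.val_lt (w i)
            have h8 : (w i).val = 0 := Nat.eq_zero_of_dvd_of_lt h6 h7
            exact (ZMod.val_eq_zero (w i)).1 h8
          · rintro rfl i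
            simp
        rw [← Finset.sum_filter_add_sum_filter_not Finset.univ
          (fun w : X.ι → ZMod p => ∃ i, ¬ (p : ℤ_[p]) ∣ (((w i).val : ℕ) : ℤ_[p])), h5,
          Finset.sum_singleton, HH_zero X _ a s hs _ (by intro i; simp), ENNReal.toReal_mul,
          ENNReal.toReal_pow, Tt_toReal] at h4
        have h9 : (GG X (fun t => e t - d) a s).toReal *
            (1 - ((p : ℝ)⁻¹) ^ ν d * tr' p s ^ N d) =
            ∑ w ∈ Z, ((p : ℝ)⁻¹) ^ ν d *
              (HH X (fun t => e t - d) a s (fun i => ((w i).val : ℤ_[p]))).toReal := by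
          have h10 : (∑ t, a t * (e t - d)) = N d := rfl
          rw [h10] at h4
          linear_combination h4
        rw [Dd_succ p ν N R hdR, eval_mul, eval_finsetSum]
        have h11 : (1 - C (((p : ℝ)⁻¹) ^ ν d) * Polynomial.X ^ N d : ℝ[X]).eval (tr' p s) =
            1 - ((p : ℝ)⁻¹) ^ ν d * tr' p s ^ N d := by simp
        rw [h11]
        have h12 : ∀ w ∈ Z, (C (((p : ℝ)⁻¹) ^ ν d) * P w).eval (tr' p s) =
            (Dd p ν N R (d + 1)).eval (tr' p s) * (((p : ℝ)⁻¹) ^ ν d *
              (HH X (fun t => e t - d) a s (fun i => ((w i).val : ℤ_[p]))).toReal) := by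
          intro w hw
          rw [eval_mul, eval_C, ← hP w hw s hs]
          ring
        rw [Finset.sum_congr rfl h12, ← Finset.mul_sum, ← h9]
        ring
      intro w
      by_cases hw : ∃ i, ¬ (p : ℤ_[p]) ∣ w i
      · obtain ⟨P, hP⟩ := hnz w hw
        obtain ⟨Q, hQ⟩ := Dd_dvd p ν N R (Nat.le_succ d)
        refine ⟨P * Q, fun s hs => ?_⟩
        rw [hQ, eval_mul, eval_mul, ← hP s hs]
        ring
      · push Not at hw
        obtain ⟨P, hP⟩ := hG
        refine ⟨Polynomial.X ^ N d * P, fun s hs => ?_⟩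
        rw [HH_zero X _ a s hs w hw, ENNReal.toReal_mul, ENNReal.toReal_pow, Tt_toReal, eval_mul,
          ← hP s hs, eval_pow, eval_X]
        have h10 : (∑ t, a t * (e t - d)) = N d := rfl
        rw [h10]
        ring

/-- the whole space -/
theorem tower_GG2 {ν : ℕ → ℕ} {X : Sp p} (hT : Tower2 ν X 0) (R : ℕ) (e a : Fin T → ℕ)
    (hR : ∀ d', R ≤ d' → ∑ t, a t * (e t - d') = 0) :
    ∃ P : ℝ[X], ∀ s : ℝ, 0 < s →
      (Dd p ν (fun d' => ∑ t, a t * (e t - d')) R 0).eval (tr' p s) *
        (GG X e a s).toReal = P.eval (tr' p s) := by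
  classical
  have h1 := tower_int2 hT R e a hR
  choose P hP using h1
  have hcard : Fintype.card X.ι = Fintype.card X.ι := rfl
  refine ⟨∑ w : X.ι → ZMod p, C (((p : ℝ)⁻¹) ^ Fintype.card X.ι) *
    P (fun i => ((w i).val : ℤ_[p])), fun s hs => ?_⟩
  have hfin : ∀ w, HH X e a s w ≠ ⊤ := fun w =>
    ne_top_of_le_ne_top ENNReal.one_ne_top (HH_le X _ a s hs w)
  rw [GG_eq, ENNReal.toReal_sum, Finset.mul_sum, eval_finsetSum]
  · refine Finset.sum_congr rfl fun w _ => ?_
    rw [eval_mul, eval_C, ← hP _ s hs, ENNReal.toReal_mul, ENNReal.toReal_pow,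
      ENNReal.toReal_inv, ENNReal.toReal_natCast]
    simp only [Nat.sub_zero]
    ring
  · intro w _
    refine ENNReal.mul_ne_top ?_ (hfin _)
    refine ENNReal.pow_ne_top ?_
    rw [Ne, ENNReal.inv_eq_top]
    exact_mod_cast (Fact.out : p.Prime).ne_zero

/-- the triangular map -/
noncomputable def triM (a : ℕ) (g : (j : ℕ) → (Fin (a + j) → ℤ_[p]) → ℤ_[p]) (M : ℕ)
    (z : Fin (a + M) → ℤ_[p]) (j : Fin M) : ℤ_[p] :=
  z (Fin.natAdd a j) + g j (fun i => z (Fin.castLE (by have := j.2; omega) i))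

/-- **Triangular maps preserve the measure.** -/
theorem tri_mp (a : ℕ) (g : (j : ℕ) → (Fin (a + j) → ℤ_[p]) → ℤ_[p]) (hg : ∀ j, Measurable (g j))
    (M : ℕ) : MeasurePreserving (triM a g M) (hm p (Fin (a + M))) (hm p (Fin M)) := by
  induction M with
  | zero =>
    have hmeas : Measurable (triM (p := p) a g 0) := measurable_pi_lambda _ fun j => j.elim0
    refine ⟨hmeas, ?_⟩
    have h1 : IsProbabilityMeasure ((hm p (Fin (a + 0))).map (triM a g 0)) :=
      Measure.isProbabilityMeasure_map hmeas.aemeasurable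
    refine Measure.ext fun s hs => ?_
    rcases s.eq_empty_or_nonempty with h | ⟨x, h⟩
    · rw [h, measure_empty, measure_empty]
    · have h2 : s = Set.univ := Set.eq_univ_of_forall fun y => by
        rw [Subsingleton.elim y x]
        exact h
      rw [h2, measure_univ, measure_univ]
  | succ M ih =>
    have hE1 := measurePreserving_piFinSuccAbove (fun _ : Fin (a + M + 1) => mu p)
      (Fin.last (a + M))
    have hE2 := (measurePreserving_piFinSuccAbove (fun _ : Fin (M + 1) => mu p)
      (Fin.last M)).symm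
    have hs : MeasurePreserving (fun q : (Fin (a + M) → ℤ_[p]) × ℤ_[p] =>
        (triM a g M q.1, q.2 + g M q.1)) ((hm p (Fin (a + M))).prod (mu p))
        ((hm p (Fin M)).prod (mu p)) := by
      refine ih.skew_product (g := fun u v => v + g M u) ?_ (ae_of_all _ fun u => ?_)
      · exact measurable_snd.add ((hg M).comp measurable_fst)
      · exact map_add_right_eq_self (mu p) (g M u)
    have ht := hE2.comp (Measure.measurePreserving_swap.comp
      (hs.comp (Measure.measurePreserving_swap.comp hE1)))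
    have he : (triM a g (M + 1)) = ((MeasurableEquiv.piFinSuccAbove (fun _ => ℤ_[p])
        (Fin.last M)).symm ∘ Prod.swap ∘ (fun q : (Fin (a + M) → ℤ_[p]) × ℤ_[p] =>
        (triM a g M q.1, q.2 + g M q.1)) ∘ Prod.swap ∘
        (MeasurableEquiv.piFinSuccAbove (fun _ => ℤ_[p]) (Fin.last (a + M)))) := by
      funext z
      symm
      simp only [Function.comp]
      rw [MeasurableEquiv.symm_apply_eq]
      refine Prod.ext ?_ ?_
      · refine congrArg₂ (· + ·) (congrArg z (Fin.ext rfl)) ?_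
        refine congrArg (g M) (funext fun i => congrArg z (Fin.ext ?_))
        change ((Fin.last (a + M)).succAbove i : ℕ) = i
        rw [Fin.succAbove_last, Fin.val_castSucc]
      · funext j
        change triM a g M (fun i => z ((Fin.last (a + M)).succAbove i)) j =
          triM a g (M + 1) z ((Fin.last M).succAbove j)
        simp only [Fin.succAbove_last]
        exact congrArg₂ (· + ·) (congrArg z (Fin.ext rfl))
          (congrArg (g j) (funext fun i => congrArg z (Fin.ext rfl)))
    rw [he]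
    exact ht

end Pool.Agent.T6.H26.HT
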