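import Pool.Agent.T6.H26.HTAlg
import Pool.Agent.T6.H26.HTTower

set_option autoImplicit false
set_option linter.unusedSectionVars false
set_option linter.unusedVariables false

/-! # The tower of the Hankel matrices -/

namespace Pool.Agent.T6.H26.HT

open MeasureTheory Pool.Agent.W427.SMC Matrix Pool.Agent.TH192.PA
open scoped ENNReal NNReal

attribute [local instance] msZ bsZ

variable {p : ℕ} [Fact p.Prime]

/-- the extension of a vector by zero -/
noncomputable def ext {N : ℕ} (z : Fin N → ℤ_[p]) (n : ℕ) : ℤ_[p] := if h : n < N then z ⟨n, h⟩ else 0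

theorem ext_lt {N : ℕ} (z : Fin N → ℤ_[p]) {n : ℕ} (h : n < N) : ext z n = z ⟨n, h⟩ := dif_pos h

theorem ext_ge {N : ℕ} (z : Fin N → ℤ_[p]) {n : ℕ} (h : ¬ n < N) : ext z n = 0 := dif_neg h

theorem cont_ext {α : Type} [TopologicalSpace α] {N : ℕ} (A : α → Fin N → ℤ_[p])
    (hA : Continuous A) (n : ℕ) : Continuous fun a => ext (A a) n := by
  unfold ext
  split_ifs with h
  · exact (continuous_apply _).comp hA
  · exact continuous_const

theorem cont_Hk {α : Type} [TopologicalSpace α] (A : α → ℕ → ℤ_[p])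
    (hA : ∀ n, Continuous fun a => A a n) (k m : ℕ) : Continuous fun a => Hk (A a) k m :=
  continuous_matrix fun i j => hA (i + j)

/-- The Hankel matrices. -/
noncomputable def HkS (p : ℕ) [Fact p.Prime] (N : ℕ) : Sp p where
  ι := Fin N
  fι := inferInstance
  nrm k z := mn k (Hk (ext z) k (N + 1 - k))
  meas k := ((continuous_mn k).comp (cont_Hk _ (fun n => cont_ext _ continuous_id n) k
    (N + 1 - k))).measurable
  zero z := mn_zero _
  le k z := mn_le_one k _
  smul k z := by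
    have h1 : Hk (ext fun i => (p : ℤ_[p]) * z i) k (N + 1 - k) =
        (p : ℤ_[p]) • Hk (ext z) k (N + 1 - k) := by
      ext i j
      simp only [Hk, Matrix.of_apply, Matrix.smul_apply, smul_eq_mul, ext]
      split_ifs with h
      · rfl
      · rw [mul_zero]
    rw [h1, mn_smul]
    congr 2
    exact Subtype.ext (by
      change ‖(p : ℤ_[p])‖ = ((p : ℝ≥0)⁻¹ : ℝ≥0)
      rw [PadicInt.norm_p]
      push_cast
      rfl)

theorem mn_zero_of_lt {I : Type} [Fintype I] {k m : ℕ} (h : m < k) (Y : Matrix I (Fin m) ℤ_[p]) :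
    mn k Y = 0 := by
  refine le_antisymm (mn_le fun r c => ?_) zero_le
  obtain ⟨a, b, hab, he⟩ := Fintype.exists_ne_map_eq_of_card_lt c (by simpa using h)
  rw [Matrix.det_zero_of_column_eq hab (fun i => by rw [Matrix.submatrix_apply,
    Matrix.submatrix_apply, he]), nnnorm_zero]

theorem unit_det (y : ℕ → ℤ_[p]) (k : ℕ) (h : ∀ m, m + 1 < k → (p : ℤ_[p]) ∣ y m)
    (hk : 0 < k → ¬ (p : ℤ_[p]) ∣ y (k - 1)) : IsUnit (Hk y k k).det := by
  rw [isUnit_iff_dvd]
  intro hd
  have hz : ∀ x : ℤ_[p], (p : ℤ_[p]) ∣ x → PadicInt.toZMod x = 0 := by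
    rintro x ⟨c, rfl⟩
    rw [map_mul, map_natCast, CharP.cast_eq_zero, zero_mul]
  have h1 := hz _ hd
  rw [RingHom.map_det] at h1
  have h2 : (PadicInt.toZMod : ℤ_[p] →+* ZMod p).mapMatrix (Hk y k k) =
      Hk (fun m => (PadicInt.toZMod (y m) : ZMod p)) k k := rfl
  rw [h2] at h1
  have h3 := det_anti (k := k) (fun m => (PadicInt.toZMod (y m) : ZMod p))
    (fun m hm => hz _ (h m hm)) (fun h0 => by
      refine isUnit_iff_ne_zero.2 fun h4 => hk h0 (dvd_of_toZMod p _ h4))
  rw [h1] at h3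
  exact not_isUnit_zero h3

/-- a unit minor -/
theorem nrm_one (x : ℕ → ℤ_[p]) (δ k m : ℕ) (hk : k ≤ δ) (hm : δ ≤ m)
    (h : ∀ l, l + 1 < δ → (p : ℤ_[p]) ∣ x l) (h1 : 0 < δ → ¬ (p : ℤ_[p]) ∣ x (δ - 1)) :
    mn k (Hk x k m) = 1 := by
  refine mn_top ?_
  have h2 := unit_det (fun l => x (δ - k + l)) k (fun l hl => h _ (by omega)) (fun h0 => by
    rw [show δ - k + (k - 1) = δ - 1 by omega]
    exact h1 (by omega))
  refine Ideal.eq_top_of_isUnit_mem _ (det_mem (Hk x k m) id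
    (fun j : Fin k => (⟨δ - k + j, by have := j.2; omega⟩ : Fin m))) ?_
  have h3 : (Hk x k m).submatrix id (fun j : Fin k => (⟨δ - k + j, by have := j.2; omega⟩ : Fin m))
      = Hk (fun l => x (δ - k + l)) k k := by
    ext i j
    simp only [Hk, Matrix.submatrix_apply, Matrix.of_apply, id]
    congr 1
    omega
  rw [h3]
  exact h2

theorem cont_Tr {α : Type} [TopologicalSpace α] (A : α → ℕ → ℤ_[p])
    (hA : ∀ n, Continuous fun a => A a n) (δ : ℕ) (hU : ∀ a, IsUnit (Hk (A a) δ δ).det) (i : ℕ) :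
    ∀ n, Continuous fun a => Tr (A a) δ i n := by
  have h1 := continuous_piv_inv (fun a => Hk (A a) δ δ) (cont_Hk A hA δ δ) hU
  have hc : ∀ l, Continuous fun a => cc (A a) δ l := by
    intro l
    have h2 := (Continuous.matrix_mulVec h1 (continuous_const (y := fun i : Fin δ =>
      if (i : ℕ) + 1 = δ then (1 : ℤ_[p]) else 0)))
    exact (continuous_apply l).comp h2
  have hq : ∀ l, Continuous fun a => qq (A a) δ l := by
    intro l
    have h2 := Continuous.matrix_mulVec h1 (continuous_pi fun i : Fin δ => hA (δ + i))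
    exact (continuous_apply l).comp h2
  have hk : ∀ n, Continuous fun a => kap (A a) δ n := fun n =>
    continuous_finsetSum _ fun l _ => (hc l).mul (hA _)
  induction i with
  | zero =>
    intro n
    exact (hA _).sub (continuous_finsetSum _ fun l _ => (hq l).mul (hA _))
  | succ i ih =>
    intro n
    exact (ih (n + 1)).sub ((ih δ).mul (hk n))

theorem toZ_dvd {x y : ℤ_[p]} (h : (p : ℤ_[p]) ∣ x - y) :
    (PadicInt.toZMod x : ZMod p) = PadicInt.toZMod y := by
  obtain ⟨c, hc⟩ := h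
  have h1 : x = y + p * c := by rw [← hc]; ring
  rw [h1, map_add, map_mul, map_natCast, CharP.cast_eq_zero, zero_mul, add_zero]

/-- the reduced sequence modulo `p` -/
theorem red_congr (δ i : ℕ) (x y : ℕ → ℤ_[p]) (hx : IsUnit (Hk x δ δ).det)
    (hy : IsUnit (Hk y δ δ).det) (h : ∀ m, (p : ℤ_[p]) ∣ x m - y m) :
    (p : ℤ_[p]) ∣ red x δ i - red y δ i := by
  refine dvd_of_toZMod p _ ?_
  rw [map_sub, map_red PadicInt.toZMod x δ hx, map_red PadicInt.toZMod y δ hy]
  have h1 : (fun m => (PadicInt.toZMod (x m) : ZMod p)) = fun m => PadicInt.toZMod (y m) :=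
    funext fun m => toZ_dvd (h m)
  rw [h1, sub_self]

theorem ext_aff {N : ℕ} (w z : Fin N → ℤ_[p]) (m : ℕ) :
    ext (fun i => w i + (p : ℤ_[p]) * z i) m = ext w m + (p : ℤ_[p]) * ext z m := by
  unfold ext
  split_ifs with h
  · rfl
  · rw [mul_zero, add_zero]

/-- the relation between the norms of the minors -/
theorem nrm_red (M δ k : ℕ) (x : ℕ → ℤ_[p]) (y : Fin M → ℤ_[p])
    (hx : ∀ l, l + 1 < δ → (p : ℤ_[p]) ∣ x l) (hx1 : 0 < δ → ¬ (p : ℤ_[p]) ∣ x (δ - 1))
    (hy : ∀ j : Fin M, y j = red x δ j) :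
    mn k (Hk x k (2 * δ + M + 1 - k)) = mn (k - δ) (Hk (ext y) (k - δ) (M + 1 - (k - δ))) := by
  rcases le_or_gt k δ with hk | hk
  · rw [Nat.sub_eq_zero_of_le hk, mn_zero]
    exact nrm_one x δ k _ hk (by omega) hx hx1
  · obtain ⟨q, rfl⟩ := Nat.exists_eq_add_of_lt hk
    rw [show δ + q + 1 - δ = q + 1 by omega]
    rcases le_or_gt (q + 1) (M + 1) with hq | hq
    · rw [show 2 * δ + M + 1 - (δ + q + 1) = δ + (M + 1 - (q + 1)) by omega]
      have h1 := minI_red x δ (q + 1) (M + 1 - (q + 1)) (q + 1) (unit_det x δ hx hx1)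
      have h2 : Hk (red x δ) (q + 1) (M + 1 - (q + 1)) =
          Hk (ext y) (q + 1) (M + 1 - (q + 1)) := by
        ext i j
        simp only [Hk, Matrix.of_apply]
        have h3 : (i : ℕ) + j < M := by
          have := i.2; have := j.2; omega
        rw [ext_lt y h3, hy]
      rw [h2] at h1
      exact mn_congr h1
    · rw [mn_zero_of_lt (by omega), mn_zero_of_lt (by omega)]

/-- **The pivots.** -/
theorem piv_hank (M δ : ℕ) (hδ : 0 < δ) (w : Fin (2 * δ + M) → ℤ_[p])
    (h : ∀ l, l + 1 < δ → (p : ℤ_[p]) ∣ ext w l) (h1 : ¬ (p : ℤ_[p]) ∣ ext w (δ - 1)) :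
    PivRel2 (HkS p (2 * δ + M)) (HkS p M) δ w := by
  obtain ⟨dp, hdp, hdp'⟩ := exists_divp p
  -- the sequences in the residue class
  have hU : ∀ x : ℕ → ℤ_[p], (∀ m < 2 * δ, (p : ℤ_[p]) ∣ x m - ext w m) →
      IsUnit (Hk x δ δ).det := by
    intro x hx
    refine unit_det x δ (fun m hm => ?_) fun _ hd => ?_
    · have h2 := dvd_add (hx m (by omega)) (h m hm)
      rwa [sub_add_cancel] at h2
    · refine h1 ?_
      have h2 := dvd_sub hd (hx (δ - 1) (by omega))
      rwa [sub_sub_cancel] at h2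
  have hdv : ∀ (j : ℕ) (v : Fin (2 * δ + j) → ℤ_[p]) (m : ℕ), (p : ℤ_[p]) ∣
      ext (fun i : Fin (2 * δ + j) => ext w i + (p : ℤ_[p]) * v i) m -
        ext (fun i : Fin (2 * δ + j) => ext w i) m := by
    intro j v m
    rw [ext_aff (fun i : Fin (2 * δ + j) => ext w i) v m, add_sub_cancel_left]
    exact dvd_mul_right _ _
  have hw0 : ∀ (j m : ℕ), m < 2 * δ + j →
      ext (fun i : Fin (2 * δ + j) => ext w i) m = ext w m := fun j m hm => ext_lt _ hm
  have hU2 : ∀ (j : ℕ) (v : Fin (2 * δ + j) → ℤ_[p]), IsUnit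
      (Hk (ext (fun i : Fin (2 * δ + j) => ext w i + (p : ℤ_[p]) * v i)) δ δ).det := by
    intro j v
    refine hU _ fun m hm => ?_
    rw [← hw0 j m (by omega)]
    exact hdv j v m
  have hU1 : ∀ j : ℕ, IsUnit (Hk (ext (fun i : Fin (2 * δ + j) => ext w i)) δ δ).det := by
    intro j
    refine hU _ fun m hm => ?_
    rw [hw0 j m (by omega), sub_self]
    exact dvd_zero _
  have hU3 : ∀ z : Fin (2 * δ + M) → ℤ_[p], IsUnit
      (Hk (ext (fun i => w i + (p : ℤ_[p]) * z i)) δ δ).det := by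
    intro z
    refine hU _ fun m _ => ?_
    rw [ext_aff, add_sub_cancel_left]
    exact dvd_mul_right _ _
  -- the triangular map
  set g : (j : ℕ) → (Fin (2 * δ + j) → ℤ_[p]) → ℤ_[p] := fun j v =>
    dp (red (ext (fun i : Fin (2 * δ + j) => ext w i + (p : ℤ_[p]) * v i)) δ j -
      red (ext (fun i : Fin (2 * δ + j) => ext w i)) δ j) with hg
  have hgm : ∀ j, Measurable (g j) := by
    intro j
    refine hdp.comp (Continuous.measurable ?_)
    refine (cont_Tr (fun v : Fin (2 * δ + j) → ℤ_[p] =>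
      ext (fun i : Fin (2 * δ + j) => ext w i + (p : ℤ_[p]) * v i)) (fun n => ?_) δ (hU2 j) j
        δ).sub continuous_const
    exact cont_ext _ (by fun_prop) n
  have hgp : ∀ (j : ℕ) (v : Fin (2 * δ + j) → ℤ_[p]), (p : ℤ_[p]) * g j v =
      red (ext (fun i : Fin (2 * δ + j) => ext w i + (p : ℤ_[p]) * v i)) δ j -
      red (ext (fun i : Fin (2 * δ + j) => ext w i)) δ j := by
    intro j v
    obtain ⟨c, hc⟩ := red_congr δ j _ _ (hU2 j v) (hU1 j) (hdv j v)
    rw [hg]
    simp only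
    rw [hc, hdp']
  have hmain : ∀ (z : Fin (2 * δ + M) → ℤ_[p]) (j : Fin M),
      red (ext w) δ j + (p : ℤ_[p]) * triM (2 * δ) g M z j =
        red (ext (fun i => w i + (p : ℤ_[p]) * z i)) δ j := by
    intro z j
    have hj : 2 * δ + (j : ℕ) < 2 * δ + M := by have := j.2; omega
    unfold triM
    rw [mul_add, hgp]
    have e1 := red_dep δ j (ext (fun i => w i + (p : ℤ_[p]) * z i))
      (ext (fun i : Fin (2 * δ + j) => ext w i + (p : ℤ_[p]) * z (Fin.castLE hj.le i)))
      fun m hm => by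
        rw [ext_lt _ hm, ext_lt _ (hm.trans hj), ext_lt w (hm.trans hj)]
        rfl
    have e2 := red_dep δ j (ext w) (ext (fun i : Fin (2 * δ + j) => ext w i))
      fun m hm => (hw0 j m hm).symm
    rw [ext_ge _ (lt_irrefl _), ext_lt _ hj] at e1
    rw [ext_ge (fun i : Fin (2 * δ + (j : ℕ)) => ext w i) (lt_irrefl _), ext_lt w hj] at e2
    have e3 : (Fin.natAdd (2 * δ) j : Fin (2 * δ + M)) = ⟨2 * δ + j, hj⟩ := rfl
    rw [e3]
    linear_combination e2 - e1
  have hfin : ∀ (k : ℕ) (z : Fin (2 * δ + M) → ℤ_[p]),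
      mn k (Hk (ext (fun i => w i + (p : ℤ_[p]) * z i)) k (2 * δ + M + 1 - k)) =
        mn (k - δ) (Hk (ext (fun j : Fin M => red (ext w) δ j +
          (p : ℤ_[p]) * triM (2 * δ) g M z j)) (k - δ) (M + 1 - (k - δ))) := by
    intro k z
    refine nrm_red M δ k (ext (fun i => w i + (p : ℤ_[p]) * z i)) _ (fun l hl => ?_)
      (fun _ hd => ?_) (fun j => hmain z j)
    · rw [ext_aff]
      exact dvd_add (h l hl) (dvd_mul_right _ _)
    · rw [ext_aff] at hd
      refine h1 ?_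
      have h2 := dvd_sub hd (dvd_mul_right (p : ℤ_[p]) (ext z (δ - 1)))
      rwa [add_sub_cancel_right] at h2
  exact ⟨hδ, triM (2 * δ) g M, fun j : Fin M => red (ext w) δ j, tri_mp (2 * δ) g hgm M, hfin⟩

end Pool.Agent.T6.H26.HT
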