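import Pool.Agent.T6.H26.HTSp

set_option autoImplicit false
set_option linter.unusedSectionVars false
set_option linter.unusedVariables false

/-! # The tower of the Hankel matrices: the last case and the reversal -/

namespace Pool.Agent.T6.H26.HT

open MeasureTheory Pool.Agent.W427.SMC Matrix Pool.Agent.TH192.PA
open scoped ENNReal NNReal

attribute [local instance] msZ bsZ

variable {p : ℕ} [Fact p.Prime]

theorem nrm_emp (k : ℕ) (z : Fin 0 → ℤ_[p]) (k' : ℕ) (hk : k' = k) :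
    mn k (Hk (ext z) k (0 + 1 - k)) = if k' = 0 then 1 else 0 := by
  subst hk
  split_ifs with h
  · subst h
    exact mn_zero _
  · exact mn_zero_of_lt (by omega) _

/-- the case of the middle position -/
theorem piv_mid (N δ : ℕ) (hN : N + 1 = 2 * δ) (w : Fin N → ℤ_[p])
    (h : ∀ l, l + 1 < δ → (p : ℤ_[p]) ∣ ext w l) (h1 : ¬ (p : ℤ_[p]) ∣ ext w (δ - 1)) :
    PivRel2 (HkS p N) (HkS p 0) δ w := by
  have hmp : MeasurePreserving (fun (_ : Fin N → ℤ_[p]) => (0 : Fin 0 → ℤ_[p])) (hm p (Fin N))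
      (hm p (Fin 0)) := by
    refine ⟨measurable_const, ?_⟩
    have h1 : IsProbabilityMeasure ((hm p (Fin N)).map fun _ => (0 : Fin 0 → ℤ_[p])) :=
      Measure.isProbabilityMeasure_map measurable_const.aemeasurable
    refine Measure.ext fun s hs => ?_
    rcases s.eq_empty_or_nonempty with h | ⟨x, h⟩
    · rw [h, measure_empty, measure_empty]
    · have h2 : s = Set.univ := Set.eq_univ_of_forall fun y => by
        rw [Subsingleton.elim y x]
        exact h
      rw [h2, measure_univ, measure_univ]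
  have hfin : ∀ (k : ℕ) (z : Fin N → ℤ_[p]),
      mn k (Hk (ext (fun i => w i + (p : ℤ_[p]) * z i)) k (N + 1 - k)) =
        mn (k - δ) (Hk (ext (fun j : Fin 0 => (0 : Fin 0 → ℤ_[p]) j +
          (p : ℤ_[p]) * (0 : Fin 0 → ℤ_[p]) j)) (k - δ) (0 + 1 - (k - δ))) := by
    intro k z
    rw [nrm_emp (k - δ) _ (k - δ) rfl]
    split_ifs with hk
    · refine nrm_one _ δ k _ (by omega) (by omega) (fun l hl => ?_) fun _ hd => ?_
      · rw [ext_aff]
        exact dvd_add (h l hl) (dvd_mul_right _ _)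
      · rw [ext_aff] at hd
        refine h1 ?_
        have h2 := dvd_sub hd (dvd_mul_right (p : ℤ_[p]) (ext z (δ - 1)))
        rwa [add_sub_cancel_right] at h2
    · exact mn_zero_of_lt (by omega) _
  have hδ : 0 < δ := by omega
  exact ⟨hδ, fun _ => (0 : Fin 0 → ℤ_[p]), (0 : Fin 0 → ℤ_[p]), hmp, hfin⟩

/-- the reversed vector -/
theorem nrm_rev (N k : ℕ) (z : Fin N → ℤ_[p]) :
    mn k (Hk (ext fun i => z (Fin.rev i)) k (N + 1 - k)) = mn k (Hk (ext z) k (N + 1 - k)) := by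
  rcases le_or_gt k (N + 1) with hk | hk
  · have h1 : Hk (ext fun i => z (Fin.rev i)) k (N + 1 - k) =
        (Hk (ext z) k (N + 1 - k)).submatrix (Fin.revPerm (n := k))
          (Fin.revPerm (n := N + 1 - k)) := by
      ext i j
      have hi := i.2
      have hj := j.2
      simp only [Hk, Matrix.submatrix_apply, Matrix.of_apply, Fin.revPerm_apply, Fin.val_rev]
      rw [ext_lt _ (show (i : ℕ) + j < N by omega),
        ext_lt _ (show k - ((i : ℕ) + 1) + (N + 1 - k - ((j : ℕ) + 1)) < N by omega)]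
      congr 1
      refine Fin.ext ?_
      simp only [Fin.val_rev]
      omega
    rw [h1]
    exact mn_congr (minI_reindex _ _ _)
  · rw [mn_zero_of_lt (by omega), mn_zero_of_lt (by omega)]

theorem rev_mp (N : ℕ) : MeasurePreserving (fun (z : Fin N → ℤ_[p]) (i : Fin N) => z (Fin.rev i))
    (hm p (Fin N)) (hm p (Fin N)) := by
  have h1 := measurePreserving_piCongrLeft (fun _ : Fin N => mu p) (Fin.revPerm (n := N))
  have h2 : (MeasurableEquiv.piCongrLeft (fun _ : Fin N => ℤ_[p]) (Fin.revPerm (n := N)) :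
      (Fin N → ℤ_[p]) → (Fin N → ℤ_[p])) = fun z i => z (Fin.rev i) := by
    funext z i
    have h3 := Equiv.piCongrLeft_apply_apply (fun _ : Fin N => ℤ_[p]) (Fin.revPerm (n := N)) z
      (Fin.rev i)
    have h4 : (Fin.revPerm (n := N)) (Fin.rev i) = i := Fin.rev_rev i
    rw [h4] at h3
    exact h3
  rw [h2] at h1
  exact h1

theorem piv_rev (N : ℕ) (Y : Sp p) (δ : ℕ) (w : Fin N → ℤ_[p])
    (h : PivRel2 (HkS p N) Y δ (fun i : Fin N => w (Fin.rev i))) :
    PivRel2 (HkS p N) Y δ w := by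
  obtain ⟨hδ, Φ, w', hm, hk⟩ := h
  refine ⟨hδ, fun z : Fin N → ℤ_[p] => Φ (fun i : Fin N => z (Fin.rev i)), w',
    hm.comp (rev_mp N), fun k (z : Fin N → ℤ_[p]) => ?_⟩
  have h1 := hk k (fun i : Fin N => z (Fin.rev i))
  rw [← h1]
  exact (nrm_rev N k (fun i : Fin N => w i + (p : ℤ_[p]) * z i)).symm

/-- the pivots for the first half -/
theorem piv_half (N : ℕ) (w : Fin N → ℤ_[p]) (i0 : ℕ) (hi : 2 * (i0 + 1) ≤ N + 1)
    (h : ∀ l, l < i0 → (p : ℤ_[p]) ∣ ext w l) (h1 : ¬ (p : ℤ_[p]) ∣ ext w i0) :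
    PivRel2 (HkS p N) (HkS p (N - 2 * (i0 + 1))) (i0 + 1) w := by
  rcases Nat.lt_or_ge N (2 * (i0 + 1)) with h2 | h2
  · rw [show N - 2 * (i0 + 1) = 0 by omega]
    exact piv_mid N (i0 + 1) (by omega) w (fun l hl => h l (by omega)) h1
  · obtain ⟨M, rfl⟩ := Nat.exists_eq_add_of_le h2
    rw [show 2 * (i0 + 1) + M - 2 * (i0 + 1) = M by omega]
    exact piv_hank M (i0 + 1) (by omega) w (fun l hl => h l (by omega)) h1

theorem piv_all (N : ℕ) (w : Fin N → ℤ_[p]) (hw : ∃ i, ¬ (p : ℤ_[p]) ∣ w i) :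
    ∃ δ, 0 < δ ∧ PivRel2 (HkS p N) (HkS p (N - 2 * δ)) δ w := by
  classical
  have hex : ∀ v : Fin N → ℤ_[p], (∃ i, ¬ (p : ℤ_[p]) ∣ v i) → ∃ i0 < N,
      (∀ l, l < i0 → (p : ℤ_[p]) ∣ ext v l) ∧ ¬ (p : ℤ_[p]) ∣ ext v i0 := by
    intro v hv
    obtain ⟨i, hi⟩ := hv
    have h2 : ∃ n, ¬ (p : ℤ_[p]) ∣ ext v n := ⟨i, by rw [ext_lt v i.2]; exact hi⟩
    refine ⟨Nat.find h2, ?_, fun l hl => not_not.1 (Nat.find_min h2 hl), Nat.find_spec h2⟩
    refine lt_of_le_of_lt (Nat.find_min' h2 (m := i) ?_) i.2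
    rw [ext_lt v i.2]
    exact hi
  obtain ⟨i0, hi0, h1, h2⟩ := hex w hw
  rcases le_or_gt (2 * (i0 + 1)) (N + 1) with h3 | h3
  · exact ⟨i0 + 1, Nat.succ_pos _, piv_half N w i0 h3 h1 h2⟩
  · have hw' : ∃ i, ¬ (p : ℤ_[p]) ∣ (fun i : Fin N => w (Fin.rev i)) i := by
      obtain ⟨i, hi⟩ := hw
      exact ⟨Fin.rev i, by simpa using hi⟩
    obtain ⟨i1, hi1, h4, h5⟩ := hex _ hw'
    have h6 : i1 ≤ N - 1 - i0 := by
      by_contra hc
      have h7 := h4 (N - 1 - i0) (by omega)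
      rw [ext_lt _ (show N - 1 - i0 < N by omega)] at h7
      refine h2 ?_
      rw [ext_lt _ hi0]
      have h8 : Fin.rev (⟨N - 1 - i0, by omega⟩ : Fin N) = ⟨i0, hi0⟩ := by
        refine Fin.ext ?_
        simp only [Fin.val_rev]
        omega
      simpa [h8] using h7
    exact ⟨i1 + 1, Nat.succ_pos _, piv_rev N _ _ w (piv_half N _ i1 (by omega) h4 h5)⟩

/-- **The tower.** -/
theorem tower_hank (N0 : ℕ) : ∀ (l N d : ℕ), N ≤ l → N = N0 - 2 * d →
    Tower2 (fun d => N0 - 2 * d) (HkS p N) d := by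
  intro l
  induction l with
  | zero =>
    intro N d hN hd
    have hN0 : N = 0 := by omega
    subst hN0
    refine Tower2.mk' _ _ ?_ fun w hw => ?_
    · change Fintype.card (Fin 0) = _
      rw [Fintype.card_fin]
      exact hd
    · obtain ⟨i, _⟩ := hw
      exact (show Fin 0 from i).elim0
  | succ l ih =>
    intro N d hN hd
    refine Tower2.mk' _ _ ?_ fun w hw => ?_
    · change Fintype.card (Fin N) = _
      rw [Fintype.card_fin]
      exact hd
    · obtain ⟨δ, hδ, h1⟩ := piv_all N w hw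
      have hNpos : 0 < N := by
        obtain ⟨i, _⟩ := hw
        have hi : (show Fin N from i).1 < N := (show Fin N from i).2
        omega
      exact ⟨_, δ, ih _ _ (by omega) (by omega), h1⟩

end Pool.Agent.T6.H26.HT
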