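import Mathlib

set_option autoImplicit false
set_option linter.unusedSectionVars false
set_option linter.unusedVariables false

/-! # Syzygies of sequences which generate an ideal containing a long regular sequence -/

namespace Pool.Agent.T6.H26

open ExteriorAlgebra CliffordAlgebra

section koszul

variable {R : Type} [CommRing R]

theorem smul_top_reg {E κ : Type} [AddCommGroup E] [Module R E] (B : Module.Basis κ R E)
    (I : Ideal R) (y : R) (hy : ∀ r, y * r ∈ I → r ∈ I) (v : E)
    (hv : y • v ∈ (I • ⊤ : Submodule R E)) : v ∈ (I • ⊤ : Submodule R E) := by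
  classical
  have key : ∀ x : E, x ∈ (I • ⊤ : Submodule R E) ↔ ∀ i, B.repr x i ∈ I := by
    intro x
    constructor
    · intro hx i
      refine Submodule.smul_induction_on hx (fun r hr m _ => ?_) (fun a b ha hb => ?_)
      · rw [map_smul, Finsupp.smul_apply, smul_eq_mul]
        exact I.mul_mem_right _ hr
      · rw [map_add, Finsupp.add_apply]
        exact I.add_mem ha hb
    · intro h
      rw [← B.linearCombination_repr x, Finsupp.linearCombination_apply]
      exact Submodule.sum_mem _ fun i _ => Submodule.smul_mem_smul (h i) Submodule.mem_top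
  rw [key] at hv ⊢
  intro i
  have h1 := hv i
  rw [map_smul, Finsupp.smul_apply, smul_eq_mul] at h1
  exact hy _ h1

theorem lin_smul_top {E : Type} [AddCommGroup E] [Module R E] (I : Ideal R) (L : E →ₗ[R] E) (v : E)
    (hv : v ∈ (I • ⊤ : Submodule R E)) : L v ∈ (I • ⊤ : Submodule R E) := by
  refine Submodule.smul_induction_on hv (fun r hr m _ => ?_) (fun a b ha hb => ?_)
  · rw [map_smul]
    exact Submodule.smul_mem_smul hr Submodule.mem_top
  · rw [map_add]
    exact Submodule.add_mem _ ha hb

variable {n : ℕ}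

/-- the basis -/
noncomputable def eaB (R : Type) [CommRing R] (n : ℕ) :
    Module.Basis (Finset (Fin n)) R (ExteriorAlgebra R (Fin n → R)) :=
  (Pi.basisFun R (Fin n)).ExteriorAlgebra

theorem top_zero (x : ExteriorAlgebra R (Fin n → R)) (hx : x ∈ ⋀[R]^(n + 1) (Fin n → R)) :
    x = 0 := by
  classical
  have B := (Pi.basisFun R (Fin n)).exteriorPower (n + 1)
  have hE : IsEmpty (Set.powersetCard (Fin n) (n + 1)) := by
    refine ⟨fun s => ?_⟩
    have h1 : (s : Finset (Fin n)).card = n + 1 := s.2
    have h2 := (s : Finset (Fin n)).card_le_univ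
    rw [Fintype.card_fin] at h2
    omega
  have h1 : (⟨x, hx⟩ : ⋀[R]^(n + 1) (Fin n → R)) = 0 := by
    refine B.ext_elem fun i => ?_
    exact hE.elim i
  exact congrArg Subtype.val h1

/-- **Syzygies.** -/
theorem koszul (h a : Fin n → R) (y : ℕ → R) (A : ℕ → Fin n → R)
    (hA : ∀ k, k < n → ∑ l, h l * A k l = y k)
    (hreg : ∀ k, k < n → ∀ r, y k * r ∈ Ideal.span (y '' {i | i < k}) →
      r ∈ Ideal.span (y '' {i | i < k}))
    (ha : ∑ l, h l * a l = 0) :
    ∃ c : Fin n → Fin n → R, (∀ i j, c i j = -c j i) ∧ ∀ i, a i = ∑ l, h l * c i l := by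
  classical
  set Q : QuadraticForm R (Fin n → R) := 0 with hQ
  set hh : Module.Dual R (Fin n → R) := ∑ l, h l • LinearMap.proj l with hhh
  have hhv : ∀ v : Fin n → R, hh v = ∑ l, h l * v l := by
    intro v
    rw [hhh, LinearMap.sum_apply]
    rfl
  set I : ℕ → Ideal R := fun k => Ideal.span (y '' {i | i < k}) with hI
  have hImono : ∀ k, I k ≤ I (k + 1) := fun k =>
    Ideal.span_mono (Set.image_mono fun i (hi : i < k) => (show i < k + 1 by omega))
  have hyI : ∀ k, y k ∈ I (k + 1) := fun k =>
    Ideal.subset_span ⟨k, (show k < k + 1 by omega), rfl⟩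
  have hIs : ∀ k, I (k + 1) ≤ I k ⊔ Ideal.span {y k} := by
    intro k
    rw [hI]
    refine Ideal.span_le.2 ?_
    rintro _ ⟨i, hi, rfl⟩
    have hi' : i < k + 1 := hi
    by_cases h1 : i < k
    · exact Submodule.mem_sup_left (Ideal.subset_span ⟨i, h1, rfl⟩)
    · have h2 : i = k := by omega
      rw [h2]
      exact Submodule.mem_sup_right (Ideal.subset_span rfl)
  let d : ExteriorAlgebra R (Fin n → R) →ₗ[R] ExteriorAlgebra R (Fin n → R) := contractLeft hh
  let z : ℕ → ExteriorAlgebra R (Fin n → R) := fun k =>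
    Nat.rec (ExteriorAlgebra.ι R a) (fun k zk => ExteriorAlgebra.ι R (A k) * zk) k
  have hz0 : z 0 = ExteriorAlgebra.ι R a := rfl
  have hzs : ∀ k, z (k + 1) = ExteriorAlgebra.ι R (A k) * z k := fun k => rfl
  have hdz0 : d (z 0) = 0 := by
    rw [hz0]
    change contractLeft hh (CliffordAlgebra.ι Q a) = 0
    rw [contractLeft_ι, hhv, ha, map_zero]
  have hdzs : ∀ k, k < n → d (z (k + 1)) = y k • z k - ExteriorAlgebra.ι R (A k) * d (z k) := by
    intro k hk
    rw [hzs]
    change contractLeft hh (CliffordAlgebra.ι Q (A k) * z k) = _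
    rw [contractLeft_ι_mul, hhv, hA k hk]
  have hmul : ∀ (k j : ℕ) (v : ExteriorAlgebra R (Fin n → R)), v ∈ (I j • ⊤ : Submodule R _) →
      ExteriorAlgebra.ι R (A k) * v ∈ (I j • ⊤ : Submodule R _) := fun k j v hv =>
    lin_smul_top (I j) (LinearMap.mulLeft R (ExteriorAlgebra.ι R (A k))) v hv
  have hdI : ∀ (j : ℕ) (v : ExteriorAlgebra R (Fin n → R)), v ∈ (I j • ⊤ : Submodule R _) →
      d v ∈ (I j • ⊤ : Submodule R _) := fun j v hv => lin_smul_top (I j) d v hv
  have hmonoT : ∀ (j : ℕ), (I j • ⊤ : Submodule R (ExteriorAlgebra R (Fin n → R))) ≤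
      I (j + 1) • ⊤ := fun j => Submodule.smul_mono_left (hImono j)
  have c1 : ∀ k, k ≤ n → d (z k) ∈ (I k • ⊤ : Submodule R _) := by
    intro k
    induction k with
    | zero =>
      intro _
      rw [hdz0]
      exact Submodule.zero_mem _
    | succ k ih =>
      intro hk
      rw [hdzs k (by omega)]
      refine Submodule.sub_mem _ (Submodule.smul_mem_smul (hyI k) Submodule.mem_top) ?_
      exact hmonoT k (hmul k k _ (ih (by omega)))
  have c2 : ∀ k, z k ∈ ⋀[R]^(k + 1) (Fin n → R) := by
    intro k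
    induction k with
    | zero =>
      rw [hz0]
      change _ ∈ (LinearMap.range (ExteriorAlgebra.ι R)) ^ (0 + 1)
      rw [zero_add, pow_one]
      exact ⟨a, rfl⟩
    | succ k ih =>
      rw [hzs]
      change _ ∈ (LinearMap.range (ExteriorAlgebra.ι R)) ^ (k + 1 + 1)
      rw [pow_succ']
      exact Submodule.mul_mem_mul ⟨A k, rfl⟩ ih
  have c3 : ∀ j, j ≤ n → ∃ v, z (n - j) - d v ∈ (I (n - j) • ⊤ : Submodule R _) := by
    intro j
    induction j with
    | zero =>
      intro _
      refine ⟨0, ?_⟩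
      rw [Nat.sub_zero, top_zero (z n) (c2 n), map_zero, sub_zero]
      exact Submodule.zero_mem _
    | succ j ih =>
      intro hj
      obtain ⟨v', hv'⟩ := ih (by omega)
      obtain ⟨k, hk⟩ : ∃ k, n - j = k + 1 := ⟨n - (j + 1), by omega⟩
      have hk' : n - (j + 1) = k := by omega
      have hkn : k < n := by omega
      rw [hk] at hv'
      rw [hk']
      -- `z (k+1) - d v' = i + y k • v`
      have h1 : (I (k + 1) • ⊤ : Submodule R (ExteriorAlgebra R (Fin n → R))) ≤
          (I k • ⊤) ⊔ (Ideal.span {y k} • ⊤) := by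
        refine (Submodule.smul_mono_left (hIs k)).trans ?_
        rw [Submodule.sup_smul]
      obtain ⟨i, hi, w, hw, hiw⟩ := Submodule.mem_sup.1 (h1 hv')
      obtain ⟨v, hv⟩ : ∃ v, w = y k • v := by
        refine Submodule.smul_induction_on hw (fun r hr m _ => ?_) (fun a b ha hb => ?_)
        · obtain ⟨s, rfl⟩ := Ideal.mem_span_singleton'.1 hr
          exact ⟨s • m, by rw [smul_smul, mul_comm]⟩
        · obtain ⟨v1, rfl⟩ := ha
          obtain ⟨v2, rfl⟩ := hb
          exact ⟨v1 + v2, by rw [smul_add]⟩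
      refine ⟨v, ?_⟩
      refine smul_top_reg (eaB R n) (I k) (y k) (hreg k hkn) _ ?_
      have h2 := congrArg d hiw
      rw [map_sub, hv, map_add, map_smul, hdzs k hkn] at h2
      have h3 : d (d v') = 0 := contractLeft_contractLeft (d := hh) v'
      rw [h3, sub_zero] at h2
      have h4 : y k • (z k - d v) = d i + ExteriorAlgebra.ι R (A k) * d (z k) := by
        have h5 := sub_eq_iff_eq_add.1 h2.symm
        rw [smul_sub, h5]
        abel
      rw [h4]
      exact Submodule.add_mem _ (hdI k i hi) (hmul k k _ (c1 k (by omega)))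
  obtain ⟨v, hv⟩ := c3 n le_rfl
  have hI0 : I (n - n) = ⊥ := by
    rw [Nat.sub_self, hI]
    refine Ideal.span_eq_bot.2 ?_
    rintro _ ⟨i, hi, rfl⟩
    exact absurd hi (Nat.not_lt_zero i)
  rw [hI0, Submodule.bot_smul, Submodule.mem_bot, Nat.sub_self, sub_eq_zero, hz0] at hv
  refine ⟨fun i j => algebraMapInv (contractLeft (Q := Q) (LinearMap.proj i)
    (contractLeft (Q := Q) (LinearMap.proj j) v)), fun i j => ?_, fun i => ?_⟩
  · beta_reduce
    rw [contractLeft_comm, map_neg]
  · have h1 := congrArg (fun w => algebraMapInv (contractLeft (Q := Q)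
      (LinearMap.proj i : Module.Dual R (Fin n → R)) w)) hv
    beta_reduce at h1
    have h2 : contractLeft (Q := Q) (LinearMap.proj i : Module.Dual R (Fin n → R))
        (CliffordAlgebra.ι Q a) = algebraMap R _ (a i) := contractLeft_ι _ _ _
    have h3 : algebraMapInv (R := R) (M := Fin n → R) (algebraMap R _ (a i)) = a i :=
      algebraMap_leftInverse (M := Fin n → R) (a i)
    change algebraMapInv (contractLeft (Q := Q) (LinearMap.proj i : Module.Dual R (Fin n → R))
        (CliffordAlgebra.ι Q a)) = algebraMapInv (contractLeft (Q := Q)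
          (LinearMap.proj i : Module.Dual R (Fin n → R)) (contractLeft (Q := Q) hh v)) at h1
    rw [h2, h3] at h1
    rw [h1, hhh, map_sum, LinearMap.sum_apply, map_sum, map_sum]
    refine Finset.sum_congr rfl fun l _ => ?_
    rw [map_smul, LinearMap.smul_apply, map_smul, map_smul, smul_eq_mul]

end koszul

end Pool.Agent.T6.H26
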