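import Pool.Agent.T6.H26.ISKos
import Pool.Agent.Y230.PS.ProdR

set_option autoImplicit false
set_option linter.unusedSectionVars false
set_option linter.unusedVariables false

/-! # Partial derivatives of polynomials with an isolated critical point -/

namespace Pool.Agent.T6.H26

open MvPolynomial

variable {n : ℕ}

/-- the powers of the variables -/
noncomputable def ypow (n N : ℕ) (k : ℕ) : MvPolynomial (Fin n) ℂ :=
  if h : k < n then X ⟨k, h⟩ ^ N else 0

theorem ypow_span (N k : ℕ) (hk : k ≤ n) : Ideal.span (ypow n N '' {i | i < k}) =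
    Ideal.span ((fun s => monomial s (1 : ℂ)) ''
      {s : Fin n →₀ ℕ | ∃ i : Fin n, (i : ℕ) < k ∧ s = Finsupp.single i N}) := by
  congr 1
  ext z
  constructor
  · rintro ⟨i, hi, rfl⟩
    have hi' : i < k := hi
    refine ⟨Finsupp.single ⟨i, by omega⟩ N, ⟨⟨i, by omega⟩, hi', rfl⟩, ?_⟩
    unfold ypow
    rw [dif_pos (by omega), X_pow_eq_monomial]
  · rintro ⟨s, ⟨i, hi, rfl⟩, rfl⟩
    refine ⟨i, hi, ?_⟩
    unfold ypow
    rw [dif_pos i.isLt, X_pow_eq_monomial]

theorem ypow_reg (N k : ℕ) (hk : k < n) (r : MvPolynomial (Fin n) ℂ)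
    (hr : ypow n N k * r ∈ Ideal.span (ypow n N '' {i | i < k})) :
    r ∈ Ideal.span (ypow n N '' {i | i < k}) := by
  classical
  rw [ypow_span N k hk.le, mem_ideal_span_monomial_image] at hr ⊢
  intro m hm
  have h1 : m + Finsupp.single ⟨k, hk⟩ N ∈ (ypow n N k * r).support := by
    rw [mem_support_iff] at hm ⊢
    unfold ypow
    rw [dif_pos hk, X_pow_eq_monomial, mul_comm, coeff_mul_monomial, mul_one]
    exact hm
  obtain ⟨s, ⟨i, hi, rfl⟩, hs⟩ := hr _ h1
  refine ⟨Finsupp.single i N, ⟨i, hi, rfl⟩, ?_⟩
  rw [Finsupp.single_le_iff] at hs ⊢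
  rw [Finsupp.add_apply, Finsupp.single_apply, if_neg, add_zero] at hs
  · exact hs
  · intro h
    rw [← h] at hi
    exact absurd hi (lt_irrefl _)

/-- the syzygies of the partial derivatives -/
theorem syz (g : MvPolynomial (Fin n) ℂ) (N : ℕ)
    (hN : ∀ i, X i ^ N ∈ Ideal.span (Set.range fun j => pderiv j g))
    (a : Fin n → MvPolynomial (Fin n) ℂ) (ha : ∑ l, pderiv l g * a l = 0) :
    ∃ c : Fin n → Fin n → MvPolynomial (Fin n) ℂ, (∀ i j, c i j = -c j i) ∧
      ∀ i, a i = ∑ l, pderiv l g * c i l := by
  classical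
  have h1 : ∀ k : ℕ, ∃ A : Fin n → MvPolynomial (Fin n) ℂ,
      k < n → ∑ l, pderiv l g * A l = ypow n N k := by
    intro k
    by_cases hk : k < n
    · obtain ⟨A, hA⟩ := Ideal.mem_span_range_iff_exists_fun.1 (hN ⟨k, hk⟩)
      refine ⟨A, fun _ => ?_⟩
      unfold ypow
      rw [dif_pos hk, ← hA]
      exact Finset.sum_congr rfl fun l _ => mul_comm _ _
    · exact ⟨0, fun h => absurd h hk⟩
  choose A hA using h1
  exact koszul (fun l => pderiv l g) a (ypow n N) A hA (fun k hk r hr => ypow_reg N k hk r hr) ha

theorem antisym_sum {R : Type} [CommRing R] [NoZeroDivisors R] [CharZero R] {n : ℕ}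
    (s : Fin n → Fin n → R) (hs : ∀ i j, s i j = -s j i) : ∑ i, ∑ l, s i l = 0 := by
  have h1 : ∑ i, ∑ l, s i l = -∑ i, ∑ l, s i l := by
    conv_lhs => rw [Finset.sum_comm]
    rw [← Finset.sum_neg_distrib]
    refine Finset.sum_congr rfl fun i _ => ?_
    rw [← Finset.sum_neg_distrib]
    exact Finset.sum_congr rfl fun l _ => hs l i
  have h2 : (2 : R) * ∑ i, ∑ l, s i l = 0 := by
    rw [two_mul]
    nth_rewrite 1 [h1]
    rw [neg_add_cancel]
  exact (mul_eq_zero.1 h2).resolve_left two_ne_zero

theorem pd_comm (i l : Fin n) (f : MvPolynomial (Fin n) ℂ) :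
    pderiv i (pderiv l f) = pderiv l (pderiv i f) := Pool.Agent.Y230.PS.pderiv_comm' i l f

/-- **The class of `1` is not zero.** -/
theorem noexact (g : MvPolynomial (Fin n) ℂ) (N : ℕ)
    (hN : ∀ i, X i ^ N ∈ Ideal.span (Set.range fun j => pderiv j g))
    (hc : ∀ i, constantCoeff (pderiv i g) = 0) (J : ℕ) :
    ∀ a : ℕ → Fin n → MvPolynomial (Fin n) ℂ, (∀ j, J < j → a j = 0) →
      (∀ j, ∑ i, (pderiv i (a (j + 1) i) + pderiv i g * a j i) = 0) →
      constantCoeff (∑ i, pderiv i (a 0 i)) = 0 := by
  classical
  induction J with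
  | zero =>
    intro a ha h
    have h1 := h 0
    rw [zero_add, ha 1 (by omega)] at h1
    simp only [Pi.zero_apply, map_zero, zero_add] at h1
    obtain ⟨c, hc1, hc2⟩ := syz g N hN (a 0) h1
    have h2 : ∑ i, pderiv i (a 0 i) = ∑ i, ∑ l, pderiv l g * pderiv i (c i l) := by
      have h3 : ∑ i, ∑ l, pderiv i (pderiv l g) * c i l = 0 := by
        refine antisym_sum _ fun i l => ?_
        rw [hc1 i l, pd_comm i l]
        ring
      rw [← add_zero (∑ i, ∑ l, pderiv l g * pderiv i (c i l)), ← h3, ← Finset.sum_add_distrib]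
      refine Finset.sum_congr rfl fun i _ => ?_
      rw [← Finset.sum_add_distrib, hc2 i, map_sum]
      refine Finset.sum_congr rfl fun l _ => ?_
      rw [Derivation.leibniz, smul_eq_mul, smul_eq_mul]
      ring
    rw [h2, map_sum]
    refine Finset.sum_eq_zero fun i _ => ?_
    rw [map_sum]
    refine Finset.sum_eq_zero fun l _ => ?_
    rw [map_mul, hc l, zero_mul]
  | succ J ih =>
    intro a ha h
    have h1 := h (J + 1)
    rw [ha (J + 1 + 1) (by omega)] at h1
    simp only [Pi.zero_apply, map_zero, zero_add] at h1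
    obtain ⟨c, hc1, hc2⟩ := syz g N hN (a (J + 1)) h1
    set T : ℕ → Fin n → MvPolynomial (Fin n) ℂ := fun j i =>
      (if j = J + 1 then ∑ l, pderiv l g * c i l else 0) +
        (if j = J then ∑ l, pderiv l (c i l) else 0) with hT
    have e1 : ∑ i, ∑ l, pderiv i g * (pderiv l g * c i l) = 0 := by
      refine antisym_sum _ fun i l => ?_
      rw [hc1 i l]
      ring
    have e2 : ∑ i, ∑ l, pderiv i (pderiv l (c i l)) = 0 := by
      refine antisym_sum _ fun i l => ?_
      rw [hc1 i l, map_neg, map_neg, pd_comm i l]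
    have e3 : ∑ i, (pderiv i (∑ l, pderiv l g * c i l) + pderiv i g * ∑ l, pderiv l (c i l)) =
        0 := by
      have h3 : ∑ i, ∑ l, pderiv i (pderiv l g) * c i l = 0 := by
        refine antisym_sum _ fun i l => ?_
        rw [hc1 i l, pd_comm i l]
        ring
      have h4 : ∑ i, ∑ l, (pderiv l g * pderiv i (c i l) + pderiv i g * pderiv l (c i l)) = 0 := by
        refine antisym_sum _ fun i l => ?_
        rw [hc1 i l, map_neg, map_neg]
        ring
      rw [← add_zero (0 : MvPolynomial (Fin n) ℂ)]
      nth_rewrite 1 [← h3]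
      rw [← h4, ← Finset.sum_add_distrib]
      refine Finset.sum_congr rfl fun i _ => ?_
      rw [← Finset.sum_add_distrib, map_sum, Finset.mul_sum, ← Finset.sum_add_distrib]
      refine Finset.sum_congr rfl fun l _ => ?_
      rw [Derivation.leibniz, smul_eq_mul, smul_eq_mul]
      ring
    have hT1 : ∀ j, ∑ i, (pderiv i (T (j + 1) i) + pderiv i g * T j i) = 0 := by
      intro j
      by_cases h2 : j = J + 1
      · have : ∀ i, pderiv i (T (j + 1) i) + pderiv i g * T j i =
            ∑ l, pderiv i g * (pderiv l g * c i l) := by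
          intro i
          simp only [hT]
          rw [if_neg (by omega), if_neg (by omega), if_pos h2, if_neg (by omega), add_zero,
            add_zero, map_zero, zero_add, Finset.mul_sum]
        rw [Finset.sum_congr rfl fun i _ => this i, e1]
      · by_cases h3 : j = J
        · have : ∀ i, pderiv i (T (j + 1) i) + pderiv i g * T j i =
              pderiv i (∑ l, pderiv l g * c i l) + pderiv i g * ∑ l, pderiv l (c i l) := by
            intro i
            simp only [hT]
            rw [if_pos (by omega), if_neg (by omega), if_neg h2, if_pos h3, add_zero, zero_add]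
          rw [Finset.sum_congr rfl fun i _ => this i, e3]
        · by_cases h4 : j + 1 = J
          · have : ∀ i, pderiv i (T (j + 1) i) + pderiv i g * T j i =
                ∑ l, pderiv i (pderiv l (c i l)) := by
              intro i
              simp only [hT]
              rw [if_neg (by omega), if_pos h4, if_neg h2, if_neg h3, zero_add, add_zero, mul_zero,
                add_zero, map_sum]
            rw [Finset.sum_congr rfl fun i _ => this i, e2]
          · refine Finset.sum_eq_zero fun i _ => ?_
            simp only [hT]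
            rw [if_neg (by omega), if_neg h4, if_neg h2, if_neg h3, add_zero, map_zero, mul_zero,
              add_zero]
    have hT0 : ∑ i, pderiv i (T 0 i) = 0 := by
      by_cases h4 : 0 = J
      · have : ∀ i, pderiv i (T 0 i) = ∑ l, pderiv i (pderiv l (c i l)) := by
          intro i
          simp only [hT]
          rw [if_neg (by omega), if_pos h4, zero_add, map_sum]
        rw [Finset.sum_congr rfl fun i _ => this i, e2]
      · refine Finset.sum_eq_zero fun i _ => ?_
        simp only [hT]
        rw [if_neg (by omega), if_neg h4, add_zero, map_zero]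
    have h5 := ih (fun j i => a j i - T j i) (fun j hj => ?_) (fun j => ?_)
    · have h6 : ∑ i, pderiv i (a 0 i - T 0 i) = ∑ i, pderiv i (a 0 i) := by
        rw [← sub_zero (∑ i, pderiv i (a 0 i)), ← hT0, ← Finset.sum_sub_distrib]
        exact Finset.sum_congr rfl fun i _ => map_sub _ _ _
      beta_reduce at h5
      rwa [h6] at h5
    · funext i
      by_cases h2 : j = J + 1
      · simp only [hT]
        rw [if_pos h2, if_neg (by omega), add_zero, h2, hc2 i, sub_self]
        rfl
      · simp only [hT]
        rw [if_neg h2, if_neg (by omega), add_zero, ha j (by omega), sub_zero]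
    · have h7 : ∑ i, (pderiv i (a (j + 1) i - T (j + 1) i) + pderiv i g * (a j i - T j i)) =
          ∑ i, (pderiv i (a (j + 1) i) + pderiv i g * a j i) -
            ∑ i, (pderiv i (T (j + 1) i) + pderiv i g * T j i) := by
        rw [← Finset.sum_sub_distrib]
        refine Finset.sum_congr rfl fun i _ => ?_
        rw [map_sub]
        ring
      rw [h7, h j, hT1 j, sub_zero]

end Pool.Agent.T6.H26
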