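import Pool.Agent.R852.TL.Defs

set_option autoImplicit false

/-! # Germs of ideals at the origin: weighted cones and determinantal ideals -/

namespace Pool.Agent.T6.H26

open MvPolynomial Pool.Agent.W574.SM Pool.Agent.W574.RO Pool.Agent.Y229
open Pool.Agent.TH192.DT Pool.Agent.R852.TL
open Pool.Agent.Y230.RS (topZeta)

/-- The substitution `x_i = a_i`, `x_t = a_t + y_t` for the other variables: the restriction to the
hyperplane `x_i = a_i`, in the coordinates centred at the point `a`. -/
noncomputable def slc {n : ℕ} (i : Fin (n + 1)) (a : Fin (n + 1) → ℂ) :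
    MvPolynomial (Fin (n + 1)) ℂ →ₐ[ℂ] MvPolynomial (Fin n) ℂ :=
  aeval (Fin.insertNth i (C (a i) : MvPolynomial (Fin n) ℂ)
    fun t => X t + C (a (i.succAbove t)))

/-- The points `a ≠ 0` of the linear subspace on which the coordinates of weight zero vanish. -/
def Adm {n : ℕ} (w : Fin (n + 1) → ℕ) (a : Fin (n + 1) → ℂ) : Prop :=
  a ≠ 0 ∧ ∀ i, w i = 0 → a i = 0

/-- The germ of the ideal `(f_j)` at a point `a` (whose coordinates of weight zero are zero) is *tame*:
some `f_j` does not vanish at `a`, or, on some hyperplane `x_i = a_i`, `w_i > 0`, `a_i ≠ 0`, in the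
coordinates `y_t` centred at `a`, all `f_j` are weighted homogeneous for some weights `v_t` which are
congruent to the weights `w_t` modulo the order `g` of the stabiliser of `a` for the action
`c • a = (c ^ w_i a_i)_i` of the multiplicative group (`g` is the greatest common divisor of the weights
`w_i` with `a_i ≠ 0`): so the action of the stabiliser on the hyperplane extends to an action of the
multiplicative group which preserves the ideal. If the stabiliser is trivial, then this holds with
`v = 0`. -/
def Tame {n r : ℕ} (w : Fin (n + 1) → ℕ) (f : Fin r → MvPolynomial (Fin (n + 1)) ℂ)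
    (a : Fin (n + 1) → ℂ) : Prop :=
  (∃ j, eval a (f j) ≠ 0) ∨ ∃ i, w i ≠ 0 ∧ a i ≠ 0 ∧ ∃ v : Fin n → ℕ,
    (∀ g : ℕ, (∀ l, a l ≠ 0 → g ∣ w l) → ∀ t, v t ≡ w (i.succAbove t) [MOD g]) ∧
    ∀ j, ∃ e, (slc i a (f j)).IsWeightedHomogeneous v e

/-- **Weighted cones.** `WCone Cl A Z`: the family `A` consists of weighted homogeneous polynomials
`f_1, ..., f_r` of the same degree `d > 0` in `x_0, ..., x_n`, for weights `w_i ≥ 0` which are not all zero
(the variables of weight zero are parameters), such that the functions `f_{e(i)}` for `w_i > 0` and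
the variables `x_i` with `w_i = 0` are algebraically independent (their Jacobian determinant is not
zero). For every point `a ≠ 0`, whose coordinates of weight zero are zero, the germ at `a` of the ideal
on some hyperplane `x_i = a_i`, `w_i > 0`, `a_i ≠ 0`, which is transversal to the orbit of `a` under the
action `c • a = (c ^ w_i a_i)_i` of the multiplicative group, is in the class `Cl`, with the local
topological zeta function `Z (κ a)`, where `κ` is constant on the orbits. All these germs are tame
(which holds automatically if all weights are `0` or `1`). Let `χ q` be the orbifold Euler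
characteristic of the set of the orbits with `κ = q`: each orbit is counted with the order of its
stabiliser. The weighted blow-up of the zero set of the variables of positive weight gives
`(d s + ∑ w_i) Z_A(s) = ∑_q χ q Z_q(s)` for the local topological zeta function `Z_A` of the ideal
`(f_1, ..., f_r)` at the origin. -/
inductive WCone (Cl : Fam → RatFunc ℂ → Prop) : Fam → RatFunc ℂ → Prop
  | mk (n r d : ℕ) (hd : 0 < d) (w : Fin (n + 1) → ℕ) (hw : ∃ i, w i ≠ 0)
      (f : Fin r → MvPolynomial (Fin (n + 1)) ℂ)
      (hf : ∀ j, (f j).IsWeightedHomogeneous w d) (e : Fin (n + 1) → Fin r)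
      (he : (Matrix.of fun s t => pderiv s (if w t = 0 then X t else f (e t))).det ≠ 0)
      (m : ℕ) (κ : (Fin (n + 1) → ℂ) → Fin m) (Z : Fin m → RatFunc ℂ) (χ : Fin m → ℤ)
      (hκ : ∀ a (c : ℂ), c ≠ 0 → Adm w a → κ (fun i => c ^ w i * a i) = κ a)
      (hχ : ∀ q, χ q ≠ 0 → ∃ a, Adm w a ∧ κ a = q) (ht : ∀ a, Adm w a → Tame w f a)
      (h : ∀ a, Adm w a → ∃ i, w i ≠ 0 ∧ a i ≠ 0 ∧
        Cl ⟨Fin n, Fin r, fun j => slc i a (f j)⟩ (Z (κ a))) :
      WCone Cl ⟨Fin (n + 1), Fin r, f⟩ ((∑ q, (χ q : RatFunc ℂ) * Z q) * fac d (∑ i, w i))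

/-- The generic `m × n` matrix: its entries are the variables. -/
noncomputable def genM (m n : ℕ) : Matrix (Fin m) (Fin n) (MvPolynomial (Fin m × Fin n) ℂ) :=
  Matrix.of fun i j => X (i, j)

/-- The generic symmetric `n × n` matrix. -/
noncomputable def symM (n : ℕ) : Matrix (Fin n) (Fin n) (MvPolynomial (Sym2 (Fin n)) ℂ) :=
  Matrix.of fun i j => X s(i, j)

/-- The generic skew symmetric `n × n` matrix. -/
noncomputable def skewM (n : ℕ) :
    Matrix (Fin n) (Fin n) (MvPolynomial {q : Fin n × Fin n // q.1 < q.2} ℂ) :=
  Matrix.of fun i j => if h : i < j then X ⟨(i, j), h⟩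
    else if h : j < i then - X ⟨(j, i), h⟩ else 0

/-- The Pfaffian of a matrix, by expansion along the first row. -/
def pfC {R : Type*} [CommRing R] : (n : ℕ) → Matrix (Fin n) (Fin n) R → R
  | 0, _ => 1
  | 1, _ => 0
  | (n + 2), A => ∑ j : Fin (n + 1), (-1) ^ (j : ℕ) * A 0 j.succ *
      pfC n (A.submatrix (fun k => (j.succAbove k).succ) (fun k => (j.succAbove k).succ))

/-- The minor of the `p × (N + 1 - p)` Hankel matrix `(x_{i + j})` with the columns `J 0, …,
J (p - 1)`. -/
noncomputable def hankM (N : ℕ) {p : ℕ} (J : Fin p ↪o Fin (N + 1 - p)) : MvPolynomial (Fin N) ℂ :=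
  (Matrix.of fun i j : Fin p => (X (⟨(i : ℕ) + J j, by
    have := i.2; have := (J j).2; omega⟩ : Fin N) : MvPolynomial (Fin N) ℂ)).det

/-- Germs at the origin of determinantal ideals, with their local topological zeta functions. In the
first three cases the zeta function is computed on the blow-up of the loci of the matrices of rank at
most `0`, `1`, `2`, …, (`0`, `2`, `4`, … in the skew symmetric case), in this order, with the exceptional
divisors `E_d`, `N_d = ∑ t, max (p t - d, 0)`, `ν_d` the codimension of the locus, and `χ` the Euler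
characteristics of the parts of the strata over the origin. -/
inductive DetL : Fam → RatFunc ℂ → Prop
  /-- The products of one minor of each of the sizes `p t < m, n` of the generic `m × n` matrix:
  generators of the product of the determinantal ideals. -/
  | gen (m n T : ℕ) (p : Fin T → ℕ) (hp : ∀ t, p t < m ∧ p t < n) (χ : Finset (Fin (min m n)) → ℤ) :
      DetL ⟨Fin m × Fin n, (t : Fin T) → (Fin (p t) ↪o Fin m) × (Fin (p t) ↪o Fin n),
          fun J => ∏ t, ((genM m n).submatrix (J t).1 (J t).2).det⟩
        (topZeta (fun d : Fin (min m n) => ∑ t, (p t - (d : ℕ)))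
          (fun d => (m - d) * (n - d) - 1) χ)
  /-- The products of one minor of each of the sizes `p t < n` of the generic symmetric `n × n`
  matrix. -/
  | sym (n T : ℕ) (p : Fin T → ℕ) (hp : ∀ t, p t < n) (χ : Finset (Fin n) → ℤ) :
      DetL ⟨Sym2 (Fin n), (t : Fin T) → (Fin (p t) ↪o Fin n) × (Fin (p t) ↪o Fin n),
          fun J => ∏ t, ((symM n).submatrix (J t).1 (J t).2).det⟩
        (topZeta (fun d : Fin n => ∑ t, (p t - (d : ℕ)))
          (fun d => (n - d) * (n - d + 1) / 2 - 1) χ)
  /-- The products of one Pfaffian of each of the sizes `2 (p t)`, `2 (p t) + 1 < n`, of the generic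
  skew symmetric `n × n` matrix. -/
  | skew (n T : ℕ) (p : Fin T → ℕ) (hp : ∀ t, 2 * p t + 1 < n) (χ : Finset (Fin (n / 2)) → ℤ) :
      DetL ⟨{q : Fin n × Fin n // q.1 < q.2}, (t : Fin T) → (Fin (2 * p t) ↪o Fin n),
          fun J => ∏ t, pfC (2 * p t) ((skewM n).submatrix (J t) (J t))⟩
        (topZeta (fun d : Fin (n / 2) => ∑ t, (p t - (d : ℕ)))
          (fun d => (n - 2 * d) * (n - 2 * d - 1) / 2 - 1) χ)
  /-- The products of one maximal minor of each of the Hankel matrices `(x_{i + j})` of the sizes
  `p t × (N + 1 - p t)`, `2 (p t) < N`, in the variables `x_0, …, x_{N - 1}`: generators of the product of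
  the ideals of the cones over the secant varieties of the rational normal curve. The zeta function
  is computed on the blow-up of the loci of the Hankel matrices of rank at most `0`, `1`, `2`, …, in this
  order, with the exceptional divisors `E_d`, `N_d = ∑ t, max (p t - d, 0)`, `ν_d = N - 2 d`, and `χ` the
  Euler characteristics of the parts of the strata over the origin. -/
  | hankel (N T : ℕ) (p : Fin T → ℕ) (hp : ∀ t, 2 * p t < N)
      (χ : Finset (Fin ((N + 1) / 2)) → ℤ) :
      DetL ⟨Fin N, (t : Fin T) → (Fin (p t) ↪o Fin (N + 1 - p t)), fun J => ∏ t, hankM N (J t)⟩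
        (topZeta (fun d : Fin ((N + 1) / 2) => ∑ t, (p t - (d : ℕ)))
          (fun d => N - 2 * (d : ℕ) - 1) χ)

/-- The germs in `StrongL` or `DetL`. -/
inductive StrongD : Fam → RatFunc ℂ → Prop
  /-- the germs in `StrongL` -/
  | lib (A : Fam) (Z : RatFunc ℂ) (h : StrongL A Z) : StrongD A Z
  /-- the determinantal germs -/
  | det (A : Fam) (Z : RatFunc ℂ) (h : DetL A Z) : StrongD A Z

/-- The germs in `WeakL` or `DetL`. -/
inductive WeakD : Fam → RatFunc ℂ → Prop
  /-- the germs in `WeakL` -/
  | lib (A : Fam) (Z : RatFunc ℂ) (h : WeakL A Z) : WeakD A Z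
  /-- the determinantal germs -/
  | det (A : Fam) (Z : RatFunc ℂ) (h : DetL A Z) : WeakD A Z

/-- The germs which are obtained from the germs of ideals in the class `At` and of hypersurfaces in
the class `HAt` by the operations of `TQ` (sums and products in disjoint sets of variables, `∑ y_j f_j(x)`,
`∑ y_j f_j(x) + g(z)`, products of powers of forms, powers, dropping variables) and by weighted cones
(`WCone`), which are nested at most `k` times: `TW At HAt k false A Z` for ideals and
`TW At HAt k true A Z` for hypersurfaces, with their local topological zeta functions `Z`. -/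
def TW (At HAt : Fam → RatFunc ℂ → Prop) : ℕ → Bool → Fam → RatFunc ℂ → Prop
  | 0 => TQ At HAt
  | k + 1 => TQ (fun A Z => TW At HAt k false A Z ∨ WCone (TW At HAt k false) A Z)
      (TW At HAt k true)

end Pool.Agent.T6.H26
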