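import Pool.Agent.T6.H26.WDeh
import Pool.Agent.T6.H26.LCDefs

set_option autoImplicit false
set_option linter.unusedSectionVars false

/-! # Functional equations with coefficients `B(x, s)`: restriction of weighted homogeneous ideals to
hyperplanes, translations -/

namespace Pool.Agent.T6.H26

open MvPolynomial Pool.Agent.W574.SM Pool.Agent.W574.HS Pool.Agent.W574.CN Pool.Agent.W574.RO
open Pool.Agent.Y229 (mulB SF)

section comp

variable {σ : Type} {w : σ → ℕ}

/-- no components of weight at least `E` -/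
def Bd (w : σ → ℕ) (E : ℕ) (q : MvPolynomial σ ℂ) : Prop :=
  ∀ m, E ≤ m → weightedHomogeneousComponent w m q = 0

theorem bd_mono {E E' : ℕ} (h : E ≤ E') {q : MvPolynomial σ ℂ} (hq : Bd w E q) : Bd w E' q :=
  fun m hm => hq m (h.trans hm)

theorem bd_exists (q : MvPolynomial σ ℂ) : ∃ E, Bd w E q := by
  classical
  refine ⟨(q.support.sup fun m => Finsupp.weight w m) + 1, fun m hm => ?_⟩
  ext k
  rw [coeff_weightedHomogeneousComponent, coeff_zero]
  split_ifs with h
  · by_contra h0
    have h1 : Finsupp.weight w k ≤ q.support.sup fun m => Finsupp.weight w m :=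
      Finset.le_sup (f := fun m => Finsupp.weight w m) (mem_support_iff.2 h0)
    omega
  · rfl

theorem bd_sum {E : ℕ} {q : MvPolynomial σ ℂ} (hq : Bd w E q) :
    q = ∑ e ∈ Finset.range E, weightedHomogeneousComponent w e q := by
  classical
  ext k
  rw [coeff_sum]
  simp only [coeff_weightedHomogeneousComponent]
  by_cases hk : Finsupp.weight w k < E
  · rw [Finset.sum_eq_single (Finsupp.weight w k)]
    · rw [if_pos rfl]
    · intro e _ he
      rw [if_neg (Ne.symm he)]
    · intro h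
      exact absurd (Finset.mem_range.2 hk) h
  · have h1 := congrArg (coeff k) (hq (Finsupp.weight w k) (not_lt.1 hk))
    rw [coeff_weightedHomogeneousComponent, if_pos rfl, coeff_zero] at h1
    rw [h1]
    symm
    refine Finset.sum_eq_zero fun e _ => ?_
    split_ifs <;> rfl

theorem bd_eval (B : Polynomial (MvPolynomial σ ℂ)) :
    ∃ E, ∀ a : ℂ, Bd w E (B.eval (C a)) := by
  classical
  induction B using Polynomial.induction_on with
  | C u =>
    obtain ⟨E, hE⟩ := bd_exists (w := w) u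
    exact ⟨E, fun a => by rw [Polynomial.eval_C]; exact hE⟩
  | add p q hp hq =>
    obtain ⟨E, hE⟩ := hp
    obtain ⟨E', hE'⟩ := hq
    refine ⟨max E E', fun a m hm => ?_⟩
    rw [Polynomial.eval_add, map_add, hE a m ((le_max_left _ _).trans hm),
      hE' a m ((le_max_right _ _).trans hm), add_zero]
  | monomial n u h =>
    obtain ⟨E, hE⟩ := bd_exists (w := w) u
    refine ⟨E, fun a m hm => ?_⟩
    have h1 : (Polynomial.C u * Polynomial.X ^ (n + 1)).eval (C a : MvPolynomial σ ℂ) =
        C (a ^ (n + 1)) * u := by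
      rw [Polynomial.eval_mul, Polynomial.eval_C, Polynomial.eval_pow, Polynomial.eval_X,
        ← map_pow, mul_comm]
    rw [h1, weightedHomogeneousComponent_C_mul, hE m hm, mul_zero]

end comp

section Slice

variable {n : ℕ} {ι : Type} [Fintype ι] [DecidableEq ι]

theorem gterm_homW {w : Fin (n + 1) → ℕ} (f : ι → MvPolynomial (Fin (n + 1)) ℂ) (d : ℕ)
    (hf : ∀ j, (f j).IsWeightedHomogeneous w d) (c : ι → ℤ) (hc : ∑ j, c j = 1) (s : ι → ℕ) :
    HomW w ((d * (∑ j, s j + 1) : ℕ) : ℤ) (gterm f c s) := by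
  classical
  unfold gterm
  set m : ℕ := ∏ j, (if c j < 0 then (s j).choose (-c j).toNat else 1) with hm
  by_cases hpos : ∀ j, 0 ≤ (s j : ℤ) + c j
  · have hsum : ∑ j, ((s j : ℤ) + c j).toNat = ∑ j, s j + 1 := by
      have : ((∑ j, ((s j : ℤ) + c j).toNat : ℕ) : ℤ) = ((∑ j, s j + 1 : ℕ) : ℤ) := by
        push_cast
        rw [← hc, ← Finset.sum_add_distrib]
        refine Finset.sum_congr rfl fun j _ => ?_
        exact Int.toNat_of_nonneg (hpos j)
      exact_mod_cast this
    refine Or.inr ⟨_, rfl, ?_⟩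
    rw [C_mul']
    apply (weightedHomogeneousSubmodule _ _ _).smul_mem
    rw [← hsum]
    exact isWHom_prod_pow f d hf _
  · push Not at hpos
    obtain ⟨j, hj⟩ := hpos
    have : m = 0 := by
      refine Finset.prod_eq_zero (Finset.mem_univ j) ?_
      rw [if_pos (by omega), Nat.choose_eq_zero_iff]
      omega
    left
    rw [this, Nat.cast_zero, C_0, zero_mul]

theorem dehw_gterm (i : Fin (n + 1)) (c₀ : ℂ) (f : ι → MvPolynomial (Fin (n + 1)) ℂ)
    (c : ι → ℤ) (s : ι → ℕ) :
    dehw i c₀ (gterm f c s) = gterm (fun j => dehw i c₀ (f j)) c s := by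
  unfold gterm
  rw [map_mul, algHom_C, algebraMap_eq, map_prod]
  simp only [map_pow]

/-- **The graded pieces.** -/
theorem comp_dehw_V {w : Fin (n + 1) → ℕ} (i : Fin (n + 1)) (hi : w i ≠ 0) (c₀ : ℂ)
    (hc₀ : c₀ ≠ 0) (f : ι → MvPolynomial (Fin (n + 1)) ℂ) (d : ℕ)
    (hf : ∀ j, (f j).IsWeightedHomogeneous w d) (F : AF (Fin (n + 1)) ι) (hF : F ∈ V f 1)
    (e : ℕ) :
    (fun s => dehw i c₀ (weightedHomogeneousComponent w (d * ∑ j, s j + e) (F s))) ∈
      V (fun j => dehw i c₀ (f j)) 1 := by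
  classical
  obtain ⟨S, P, hS, hP⟩ := std_of_mem f 1 F hF
  choose κ hκ v Φ hΦ hq using fun (c : ι → ℤ) (β : ι →₀ ℕ) =>
    grw_weyl (w := w) i hi c₀ hc₀ (P c β).1 (P c β).2
  choose PP hPP using fun (c : ι → ℤ) (β : ι →₀ ℕ) (k : κ c β) =>
    applyAt_po (hΦ c β k) β d
  refine mem_of_std _ 1 _ ⟨S, fun c => ∑ β ∈ (P c).support,
    ∑ k ∈ (Finset.univ : Finset (κ c β)).filter
    (fun k => v c β k = (e : ℤ) - d), PP c β k, hS, fun s => ?_⟩
  change dehw i c₀ (weightedHomogeneousComponent w (d * ∑ j, s j + e) (F s)) = _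
  rw [hP s, map_sum, map_sum]
  refine Finset.sum_congr rfl fun c hc => ?_
  rw [Pool.Agent.W574.RO.gen, Pool.Agent.W574.RO.gen, applyAt_sum, applyAt, Finsupp.sum, map_sum,
    map_sum]
  refine Finset.sum_congr rfl fun β _ => ?_
  rw [applyAt_sum]
  obtain ⟨q, hq1, hq2⟩ := hq c β _ _ (gterm_homW f d hf c (hS c hc) s)
  rw [map_smul, map_smul, hq1, map_sum, map_sum, Finset.smul_sum, Finset.sum_filter]
  refine Finset.sum_congr rfl fun k _ => ?_
  rw [comp_homW (hq2 k).1, hPP, ← dehw_gterm, ← (hq2 k).2]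
  by_cases hw : v c β k = (e : ℤ) - d
  · rw [if_pos hw, if_pos (by rw [hw]; push_cast; ring)]
  · rw [if_neg hw, if_neg, map_zero, smul_zero]
    intro h
    apply hw
    push_cast at h
    linarith

theorem eval_mapH {σ τ : Type} (φ : MvPolynomial σ ℂ →ₐ[ℂ] MvPolynomial τ ℂ)
    (B : Polynomial (MvPolynomial σ ℂ)) (a : ℂ) :
    (B.map (φ : MvPolynomial σ ℂ →+* MvPolynomial τ ℂ)).eval (C a) = φ (B.eval (C a)) := by
  have h5 : (C a : MvPolynomial τ ℂ) = (φ : MvPolynomial σ ℂ →+* MvPolynomial τ ℂ) (C a) := by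
    change _ = φ (C a)
    rw [algHom_C, algebraMap_eq]
  rw [Polynomial.eval_map, h5, Polynomial.eval₂_at_apply]
  rfl

/-- **Restriction** of a functional equation with coefficients `B(x, s)` to `x_i = c₀`. -/
theorem mulB_dehw {w : Fin (n + 1) → ℕ} (i : Fin (n + 1)) (hi : w i ≠ 0) (c₀ : ℂ)
    (hc₀ : c₀ ≠ 0) (f : ι → MvPolynomial (Fin (n + 1)) ℂ) (d : ℕ)
    (hf : ∀ j, (f j).IsWeightedHomogeneous w d) (B : Polynomial (MvPolynomial (Fin (n + 1)) ℂ))
    (hB : mulB B (G0 f) ∈ V f 1) :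
    mulB (B.map (dehw i c₀ : MvPolynomial (Fin (n + 1)) ℂ →+* MvPolynomial (Fin n) ℂ))
      (G0 fun j => dehw i c₀ (f j)) ∈ V (fun j => dehw i c₀ (f j)) 1 := by
  classical
  obtain ⟨E, hE⟩ := bd_eval (w := w) B
  have h1 : mulB (B.map (dehw i c₀ : MvPolynomial (Fin (n + 1)) ℂ →+* MvPolynomial (Fin n) ℂ))
      (G0 fun j => dehw i c₀ (f j)) = ∑ e ∈ Finset.range E, fun s =>
        dehw i c₀ (weightedHomogeneousComponent w (d * ∑ j, s j + e) (mulB B (G0 f) s)) := by
    funext s
    rw [Finset.sum_apply, ← map_sum]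
    unfold mulB
    have h2 : G0 (fun j => dehw i c₀ (f j)) s = dehw i c₀ (G0 f s) := by
      unfold G0
      rw [map_prod]
      simp only [map_pow]
    rw [eval_mapH, h2, ← map_mul]
    congr 1
    have hG : (G0 f s).IsWeightedHomogeneous w (d * ∑ j, s j) := isWHom_prod_pow f d hf s
    have h3 : B.eval (C ((∑ j, s j : ℕ) : ℂ)) * G0 f s = ∑ e ∈ Finset.range E,
        weightedHomogeneousComponent w e (B.eval (C ((∑ j, s j : ℕ) : ℂ))) * G0 f s := by
      rw [← Finset.sum_mul, ← bd_sum (hE _)]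
    have h4 : ∀ e, (weightedHomogeneousComponent w e (B.eval (C ((∑ j, s j : ℕ) : ℂ))) *
        G0 f s).IsWeightedHomogeneous w (d * ∑ j, s j + e) := by
      intro e
      rw [add_comm (d * ∑ j, s j) e]
      exact (weightedHomogeneousComponent_isWeightedHomogeneous e _).mul hG
    conv_lhs => rw [h3]
    refine Finset.sum_congr rfl fun e he => ?_
    rw [h3, map_sum, Finset.sum_eq_single e]
    · rw [weightedHomogeneousComponent_of_mem (h4 e), if_pos rfl]
    · intro e' _ hne
      rw [weightedHomogeneousComponent_of_mem (h4 e'), if_neg (by omega)]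
    · intro h
      exact absurd he h
  rw [h1]
  exact Submodule.sum_mem _ fun e _ => comp_dehw_V i hi c₀ hc₀ f d hf _ hB e

end Slice

section Trans

variable {σ ι : Type} [Fintype ι] [DecidableEq ι]

/-- the translation `x ↦ x + p` -/
noncomputable def trn (p : σ → ℂ) : MvPolynomial σ ℂ →ₐ[ℂ] MvPolynomial σ ℂ :=
  aeval fun t => X t + C (p t)

theorem trn_pderiv (p : σ → ℂ) (t : σ) (g : MvPolynomial σ ℂ) :
    trn p (pderiv t g) = pderiv t (trn p g) := by
  classical
  induction g using MvPolynomial.induction_on with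
  | C a => rw [pderiv_C, map_zero, algHom_C, algebraMap_eq, pderiv_C]
  | add p q hp hq => rw [map_add, map_add, hp, hq, map_add, map_add]
  | mul_X q k hq =>
    rw [Derivation.leibniz, smul_eq_mul, smul_eq_mul, map_add, map_mul, map_mul, map_mul, hq,
      Derivation.leibniz, smul_eq_mul, smul_eq_mul]
    congr 2
    have h1 : trn p (X k) = X k + C (p k) := aeval_X _ _
    rw [h1, map_add, pderiv_C, add_zero]
    by_cases h : k = t
    · subst h
      rw [pderiv_X_self, map_one]
    · rw [pderiv_X_of_ne h, map_zero]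

theorem trn_weyl (p : σ → ℂ) (Q : Module.End ℂ (MvPolynomial σ ℂ)) (hQ : Q ∈ weyl σ) :
    ∃ Q' : weyl σ, ∀ g, trn p (Q g) = (Q' : Module.End ℂ (MvPolynomial σ ℂ)) (trn p g) := by
  induction hQ using Algebra.adjoin_induction with
  | mem Q hQ =>
    rcases hQ with ⟨k, rfl⟩ | ⟨k, rfl⟩
    · refine ⟨⟨_, weyl_X k⟩ + algebraMap ℂ (weyl σ) (p k), fun g => ?_⟩
      have h1 : trn p (X k) = X k + C (p k) := aeval_X _ _
      rw [LinearMap.mulLeft_apply, map_mul, h1, add_mul, C_mul']
      rfl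
    · exact ⟨⟨_, weyl_d k⟩, fun g => trn_pderiv p k g⟩
  | algebraMap r =>
    refine ⟨algebraMap ℂ (weyl σ) r, fun g => ?_⟩
    rw [Module.algebraMap_end_apply, map_smul]
    rfl
  | add Q1 Q2 _ _ h1 h2 =>
    obtain ⟨R1, h1⟩ := h1
    obtain ⟨R2, h2⟩ := h2
    refine ⟨R1 + R2, fun g => ?_⟩
    rw [LinearMap.add_apply, map_add, h1, h2]
    rfl
  | mul Q1 Q2 _ _ h1 h2 =>
    obtain ⟨R1, h1⟩ := h1
    obtain ⟨R2, h2⟩ := h2
    refine ⟨R1 * R2, fun g => ?_⟩
    rw [Module.End.mul_apply, h1, h2]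
    rfl

theorem trn_V (p : σ → ℂ) (f : ι → MvPolynomial σ ℂ) (F : AF σ ι) (hF : F ∈ V f 1) :
    (fun s => trn p (F s)) ∈ V (fun j => trn p (f j)) 1 := by
  classical
  obtain ⟨S, P, hS, hP⟩ := std_of_mem f 1 F hF
  choose Q hQ using fun (c : ι → ℤ) (β : ι →₀ ℕ) => trn_weyl p (P c β).1 (P c β).2
  refine mem_of_std _ 1 _ ⟨S, fun c => Finsupp.onFinset (P c).support (fun β =>
    if β ∈ (P c).support then Q c β else 0) (fun β hβ => by
      by_contra h
      exact hβ (if_neg h)), hS, fun s => ?_⟩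
  change trn p (F s) = _
  rw [hP s, map_sum]
  refine Finset.sum_congr rfl fun c hc => ?_
  have hg : trn p (gterm f c s) = gterm (fun j => trn p (f j)) c s := by
    unfold gterm
    rw [map_mul, algHom_C, algebraMap_eq, map_prod]
    simp only [map_pow]
  rw [Pool.Agent.W574.RO.gen, Pool.Agent.W574.RO.gen, applyAt, applyAt, Finsupp.sum, map_sum,
    Finsupp.onFinset_sum]
  · refine Finset.sum_congr rfl fun β hβ => ?_
    rw [map_smul, if_pos hβ, ← hg]
    congr 1
    exact hQ c β _
  · intro β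
    simp

theorem eval_trn (p q : σ → ℂ) (g : MvPolynomial σ ℂ) :
    eval q (trn p g) = eval (fun t => q t + p t) g := by
  induction g using MvPolynomial.induction_on with
  | C a => rw [algHom_C, algebraMap_eq, eval_C, eval_C]
  | add p q hp hq => rw [map_add, map_add, hp, hq, map_add]
  | mul_X q k hq =>
    have h1 : trn p (X k) = X k + C (p k) := aeval_X _ _
    rw [map_mul, map_mul, hq, h1, map_add, eval_X, eval_C, map_mul, eval_X]

theorem mulB_trn (p : σ → ℂ) (f : ι → MvPolynomial σ ℂ) (B : Polynomial (MvPolynomial σ ℂ))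
    (hB : mulB B (G0 f) ∈ V f 1) :
    mulB (B.map (trn p : MvPolynomial σ ℂ →+* MvPolynomial σ ℂ)) (G0 fun j => trn p (f j)) ∈
      V (fun j => trn p (f j)) 1 := by
  have h := trn_V p f _ hB
  have h1 : (fun s => trn p (mulB B (G0 f) s)) =
      mulB (B.map (trn p : MvPolynomial σ ℂ →+* MvPolynomial σ ℂ)) (G0 fun j => trn p (f j)) := by
    funext s
    unfold mulB G0
    rw [eval_mapH, map_mul, map_prod]
    simp only [map_pow]
  rwa [h1] at h

end Trans

section Main

variable {n : ℕ} {ι : Type} [Fintype ι] [DecidableEq ι]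

theorem slc_eq (i : Fin (n + 1)) (a : Fin (n + 1) → ℂ) (g : MvPolynomial (Fin (n + 1)) ℂ) :
    slc i a g = trn (fun t => a (i.succAbove t)) (dehw i (a i) g) := by
  have h : slc i a = (trn (fun t => a (i.succAbove t))).comp (dehw i (a i)) := by
    apply MvPolynomial.algHom_ext
    intro k
    rw [AlgHom.comp_apply, slc, aeval_X]
    rcases Fin.eq_self_or_eq_succAbove i k with rfl | ⟨t, rfl⟩
    · rw [Fin.insertNth_apply_same, dehw_self, algHom_C, algebraMap_eq]
    · rw [Fin.insertNth_apply_succAbove, dehw_succAbove, trn, aeval_X]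
  rw [h]
  rfl

theorem eval_dehw (i : Fin (n + 1)) (c : ℂ) (q : Fin n → ℂ) (g : MvPolynomial (Fin (n + 1)) ℂ) :
    eval q (dehw i c g) = eval (Fin.insertNth i c q : Fin (n + 1) → ℂ) g := by
  induction g using MvPolynomial.induction_on with
  | C a => rw [algHom_C, algebraMap_eq, eval_C, eval_C]
  | add p q hp hq => rw [map_add, map_add, hp, hq, map_add]
  | mul_X g k hg =>
    rw [map_mul, map_mul, hg, map_mul, eval_X]
    congr 1
    rcases Fin.eq_self_or_eq_succAbove i k with rfl | ⟨t, rfl⟩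
    · rw [Fin.insertNth_apply_same, dehw_self, eval_C]
    · rw [Fin.insertNth_apply_succAbove, dehw_succAbove, eval_X]

/-- **Forced roots of the slices.** -/
theorem sf_slice {w : Fin (n + 1) → ℕ} (i : Fin (n + 1)) (hi : w i ≠ 0) (a : Fin (n + 1) → ℂ)
    (ha : a i ≠ 0) (f : ι → MvPolynomial (Fin (n + 1)) ℂ) (d : ℕ)
    (hf : ∀ j, (f j).IsWeightedHomogeneous w d) (α : ℂ)
    (h : SF (fun j => slc i a (f j)) 0 α) (B : Polynomial (MvPolynomial (Fin (n + 1)) ℂ))
    (hB : mulB B (G0 f) ∈ V f 1) : eval a (B.eval (C α)) = 0 := by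
  have h1 := mulB_trn (fun t => a (i.succAbove t)) _ _ (mulB_dehw i hi (a i) ha f d hf B hB)
  have e : (fun j => trn (fun t => a (i.succAbove t)) (dehw i (a i) (f j))) =
      fun j => slc i a (f j) := by
    funext j
    exact (slc_eq i a (f j)).symm
  rw [e] at h1
  have h2 := h _ h1
  rw [eval_mapH, eval_mapH, eval_trn, eval_dehw] at h2
  have h3 : (Fin.insertNth i (a i) (fun t => (0 : Fin n → ℂ) t + a (i.succAbove t)) :
      Fin (n + 1) → ℂ) = a := by
    funext k
    rcases Fin.eq_self_or_eq_succAbove i k with rfl | ⟨t, rfl⟩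
    · rw [Fin.insertNth_apply_same]
    · rw [Fin.insertNth_apply_succAbove, Pi.zero_apply, zero_add]
  rwa [h3] at h2

/-- **Forced roots at the vertex of a weighted cone**, from the ones at infinitely many points of an
orbit. -/
theorem sf_orbit {w : Fin (n + 1) → ℕ} (a : Fin (n + 1) → ℂ) (ha : ∀ i, w i = 0 → a i = 0)
    (S : Set ℂ) (hS : S.Infinite) (f : ι → MvPolynomial (Fin (n + 1)) ℂ) (α : ℂ)
    (h : ∀ c ∈ S, ∀ B : Polynomial (MvPolynomial (Fin (n + 1)) ℂ), mulB B (G0 f) ∈ V f 1 →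
      eval (fun i => c ^ w i * a i) (B.eval (C α)) = 0) : SF f 0 α := by
  classical
  intro B hB
  set g := B.eval (C α) with hg
  set q : Polynomial ℂ := aeval (fun i => Polynomial.X ^ w i * Polynomial.C (a i)) g with hq
  have h1 : ∀ c : ℂ, q.eval c = eval (fun i => c ^ w i * a i) g := by
    intro c
    have h2 : ∀ g : MvPolynomial (Fin (n + 1)) ℂ,
        (aeval (fun i => (Polynomial.X : Polynomial ℂ) ^ w i * Polynomial.C (a i)) g).eval c =
          eval (fun i => c ^ w i * a i) g := by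
      intro g
      induction g using MvPolynomial.induction_on with
      | C a => rw [algHom_C, eval_C]; exact Polynomial.eval_C
      | add p q hp hq => rw [map_add, Polynomial.eval_add, hp, hq, map_add]
      | mul_X g k hg =>
        rw [map_mul, Polynomial.eval_mul, hg, map_mul, eval_X, aeval_X, Polynomial.eval_mul,
          Polynomial.eval_pow, Polynomial.eval_X, Polynomial.eval_C]
    exact h2 g
  have h3 : q = 0 := by
    refine Polynomial.eq_zero_of_infinite_isRoot q (hS.mono fun c hc => ?_)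
    change q.eval c = 0
    rw [h1]
    exact h c hc B hB
  have h4 := h1 0
  rw [h3, Polynomial.eval_zero] at h4
  have h5 : (fun i => (0 : ℂ) ^ w i * a i) = 0 := by
    funext i
    by_cases hi : w i = 0
    · rw [ha i hi, mul_zero]
      rfl
    · rw [zero_pow hi, zero_mul]
      rfl
  rw [h5] at h4
  exact h4.symm

end Main

end Pool.Agent.T6.H26
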