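import Pool.Agent.R852.PP.Mono

set_option autoImplicit false
set_option linter.unusedSectionVars false
set_option linter.unusedVariables false

/-! # Zero sets of polynomials are null sets; the value at `s = 0` -/

namespace Pool.Agent.T6.H26

open MeasureTheory Polynomial Pool.Agent.Y230.PT Pool.Agent.Y230.PS Filter
open Pool.Agent.W427.SMC (mu msZ bsZ tr' phi_eq tau tr'_pos)

attribute [local instance] msZ bsZ

variable {p : ℕ} [Fact p.Prime]

theorem nullSing : NullSingletonClass (mu p) := by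
  have e : mu p = Pool.Agent.W195.PZ.lam p := rfl
  rw [e]
  infer_instance

theorem inc_inj : Function.Injective (inc p) := fun x y h => Subtype.ext h

theorem poly_null (q : ℚ_[p][X]) (hq : q ≠ 0) : (mu p) {x : ℤ_[p] | q.eval (inc p x) = 0} = 0 := by
  have := nullSing (p := p)
  have hf : {x : ℤ_[p] | q.eval (inc p x) = 0}.Finite := by
    refine Set.Finite.preimage inc_inj.injOn (s := {y : ℚ_[p] | q.eval y = 0}) ?_
    exact (q.rootSet_finite ℚ_[p]).subset (fun y hy => by
      rw [Polynomial.mem_rootSet]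
      exact ⟨hq, by simpa using hy⟩)
  exact hf.measure_zero _

theorem meas_eval {n : ℕ} (q : MvPolynomial (Fin n) ℚ_[p]) :
    MeasurableSet {x : Fin n → ℤ_[p] | MvPolynomial.eval (fun i => inc p (x i)) q = 0} := by
  have h := sz_meas (p := p) (fun _ : Fin 1 => q)
  have e : {x : Fin n → ℤ_[p] | MvPolynomial.eval (fun i => inc p (x i)) q = 0} =
      {x | sz (fun _ : Fin 1 => q) x = 0} := by
    ext x
    simp only [Set.mem_ofPred_eq]
    unfold sz
    rw [norm_eq_zero]
    constructor
    · intro h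
      funext j
      exact h
    · intro h
      exact congrFun h 0
  rw [e]
  exact measurableSet_eq_fun h measurable_const

theorem null_fin : ∀ (n : ℕ) (q : MvPolynomial (Fin n) ℚ_[p]), q ≠ 0 →
    (Measure.pi fun _ : Fin n => mu p)
      {x | MvPolynomial.eval (fun i => inc p (x i)) q = 0} = 0 := by
  intro n
  induction n with
  | zero =>
    intro q hq
    rw [MvPolynomial.eq_C_of_isEmpty q] at hq ⊢
    have h0 : MvPolynomial.coeff 0 q ≠ 0 := fun h => hq (by rw [h, MvPolynomial.C_0])
    have : {x : Fin 0 → ℤ_[p] | MvPolynomial.eval (fun i => inc p (x i))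
        (MvPolynomial.C (MvPolynomial.coeff 0 q) : MvPolynomial (Fin 0) ℚ_[p]) = 0} = ∅ := by
      ext x
      simp only [Set.mem_ofPred_eq, Set.mem_empty_iff_false, iff_false, MvPolynomial.eval_C]
      exact h0
    rw [this, measure_empty]
  | succ n ih =>
    intro q hq
    set Q := MvPolynomial.finSuccEquiv ℚ_[p] n q with hQ
    have hQ0 : Q ≠ 0 := by
      intro h
      exact hq ((MvPolynomial.finSuccEquiv ℚ_[p] n).injective (by rw [← hQ, h, map_zero]))
    have hl : Q.leadingCoeff ≠ 0 := leadingCoeff_ne_zero.2 hQ0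
    have h1 := ih _ hl
    have hmp := measurePreserving_piFinSuccAbove (fun _ : Fin (n + 1) => mu p) 0
    set S : Set (Fin (n + 1) → ℤ_[p]) :=
      {x | MvPolynomial.eval (fun i => inc p (x i)) q = 0} with hS
    have hSm : MeasurableSet S := meas_eval q
    have e : MeasurableEquiv.piFinSuccAbove (fun _ : Fin (n + 1) => ℤ_[p]) 0 =
      MeasurableEquiv.piFinSuccAbove (fun _ : Fin (n + 1) => ℤ_[p]) 0 := rfl
    set E := MeasurableEquiv.piFinSuccAbove (fun _ : Fin (n + 1) => ℤ_[p]) 0 with hE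
    have h2 : (Measure.pi fun _ : Fin (n + 1) => mu p) S =
        ((mu p).prod (Measure.pi fun _ : Fin n => mu p)) (E.symm ⁻¹' S) := by
      rw [← hmp.measure_preimage (E.symm.measurable hSm).nullMeasurableSet]
      congr 1
      ext x
      simp [hE]
    set S' : Set ((Fin n → ℤ_[p]) × ℤ_[p]) := Prod.swap ⁻¹' (E.symm ⁻¹' S) with hS'
    have hS'm : MeasurableSet S' := measurable_swap (E.symm.measurable hSm)
    have h3 : ((mu p).prod (Measure.pi fun _ : Fin n => mu p)) (E.symm ⁻¹' S) =
        ((Measure.pi fun _ : Fin n => mu p).prod (mu p)) S' := by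
      rw [← (Measure.measurePreserving_swap (μ := Measure.pi fun _ : Fin n => mu p)
        (ν := mu p)).measure_preimage (E.symm.measurable hSm).nullMeasurableSet]
    rw [h2, h3]
    refine Measure.measure_prod_null_of_ae_null hS'm ?_
    have h4 : ∀ᵐ w ∂(Measure.pi fun _ : Fin n => mu p),
        MvPolynomial.eval (fun i => inc p (w i)) Q.leadingCoeff ≠ 0 := by
      rw [ae_iff]
      simpa using h1
    filter_upwards [h4] with w hw
    have h5 : Q.map (MvPolynomial.eval (fun i => inc p (w i))) ≠ 0 := by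
      intro h
      apply hw
      have := congrArg (fun P => P.coeff Q.natDegree) h
      simpa [Polynomial.coeff_map] using this
    have h6 := poly_null _ h5
    refine measure_mono_null ?_ h6
    intro a ha
    have ha' : (E.symm (a, w) : Fin (n + 1) → ℤ_[p]) ∈ S := ha
    have ha2 : MvPolynomial.eval (fun i => inc p ((E.symm (a, w) : Fin (n + 1) → ℤ_[p]) i)) q = 0 :=
      ha'
    have h7 : (fun i => inc p ((E.symm (a, w) : Fin (n + 1) → ℤ_[p]) i)) =
        Fin.cons (inc p a) (fun i => inc p (w i)) := by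
      funext i
      refine Fin.cases ?_ (fun i => ?_) i
      · rfl
      · rfl
    rw [h7, MvPolynomial.eval_eq_eval_mv_eval'] at ha2
    exact ha2

theorem null_mv {σ : Type} [Fintype σ] (q : MvPolynomial σ ℚ_[p]) (hq : q ≠ 0) :
    (Measure.pi fun _ : σ => mu p)
      {x | MvPolynomial.eval (fun i => inc p (x i)) q = 0} = 0 := by
  classical
  set e := Fintype.equivFin σ with he
  set n := Fintype.card σ with hn
  set q' : MvPolynomial (Fin n) ℚ_[p] := MvPolynomial.rename e q with hq'
  have hq'0 : q' ≠ 0 := by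
    rw [hq', Ne, map_eq_zero_iff _ (MvPolynomial.rename_injective _ e.injective)]
    exact hq
  have h1 := null_fin n q' hq'0
  have hmp := measurePreserving_piCongrLeft (fun _ : Fin n => mu p) e
  rw [← hmp.measure_preimage (meas_eval q').nullMeasurableSet] at h1
  refine measure_mono_null ?_ h1
  intro x hx
  have hx' : MvPolynomial.eval (fun i => inc p (x i)) q = 0 := hx
  change MvPolynomial.eval (fun i => inc p ((MeasurableEquiv.piCongrLeft
    (fun _ : Fin n => ℤ_[p]) e) x i)) q' = 0
  rw [hq', MvPolynomial.eval_rename]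
  have h3 : ((fun i => inc p ((MeasurableEquiv.piCongrLeft
      (fun _ : Fin n => ℤ_[p]) e) x i)) ∘ e) = fun i => inc p (x i) := by
    funext a
    rw [Function.comp_apply]
    congr 1
    exact Equiv.piCongrLeft_apply_apply (fun _ : Fin n => ℤ_[p]) e x a
  rw [h3]
  exact hx'

theorem null_fam {σ ι : Type} [Fintype σ] [Fintype ι] (f : ι → MvPolynomial σ ℚ_[p])
    (hf : ∃ j, f j ≠ 0) : (Measure.pi fun _ : σ => mu p) {x | sz f x = 0} = 0 := by
  obtain ⟨j, hj⟩ := hf
  refine measure_mono_null ?_ (null_mv (f j) hj)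
  intro x hx
  have hx' : sz f x = 0 := hx
  unfold sz at hx'
  rw [norm_eq_zero] at hx'
  exact congrFun hx' j

/-- the limit at `s = 0` -/
theorem FF_tendsto {σ ι : Type} [Fintype σ] [Fintype ι] (f : ι → MvPolynomial σ ℚ_[p])
    (hf : ∃ j, f j ≠ 0) : Tendsto (FF f) (nhdsWithin 0 (Set.Ioi 0)) (nhds (FF f 0)) := by
  have hz : FF f 0 = 1 := FZ_zero _ _
  obtain ⟨B, hB⟩ := (isCompact_range (sz_cont f)).bddAbove
  have hBx : ∀ x, sz f x ≤ B := fun x => hB ⟨x, rfl⟩
  set C : ℝ := max B 1 with hC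
  have h1 : Tendsto (fun s : ℝ => ∫⁻ x, ENNReal.ofReal (sz f x ^ s)
      ∂(Measure.pi fun _ : σ => mu p)) (nhdsWithin 0 (Set.Ioi 0))
      (nhds (∫⁻ x, 1 ∂(Measure.pi fun _ : σ => mu p))) := by
    refine tendsto_lintegral_filter_of_dominated_convergence (fun _ => ENNReal.ofReal C) ?_ ?_ ?_ ?_
    · exact Eventually.of_forall fun s =>
        ENNReal.measurable_ofReal.comp ((sz_meas f).pow_const s)
    · have h2 : ∀ᶠ s : ℝ in nhdsWithin 0 (Set.Ioi 0), s ∈ Set.Ioo (0 : ℝ) 1 :=
        Ioo_mem_nhdsGT one_pos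
      filter_upwards [h2] with s hs
      refine Eventually.of_forall fun x => ENNReal.ofReal_le_ofReal ?_
      have hC1 : 1 ≤ C := le_max_right _ _
      calc sz f x ^ s ≤ C ^ s := Real.rpow_le_rpow (sz_nonneg f x) ((hBx x).trans (le_max_left _ _))
            hs.1.le
        _ ≤ C ^ (1 : ℝ) := Real.rpow_le_rpow_of_exponent_le hC1 hs.2.le
        _ = C := Real.rpow_one C
    · rw [lintegral_const]
      exact ENNReal.mul_ne_top ENNReal.ofReal_ne_top (measure_ne_top _ _)
    · have h3 : ∀ᵐ x ∂(Measure.pi fun _ : σ => mu p), sz f x ≠ 0 := by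
        rw [ae_iff]
        simpa using null_fam f hf
      filter_upwards [h3] with x hx
      have h4 : ContinuousAt (fun s : ℝ => ENNReal.ofReal (sz f x ^ s)) 0 :=
        ENNReal.continuous_ofReal.continuousAt.comp
          (continuousAt_const.rpow continuousAt_id (Or.inl hx))
      have h5 := h4.tendsto
      simp only [Real.rpow_zero, ENNReal.ofReal_one] at h5
      exact h5.mono_left nhdsWithin_le_nhds
  rw [lintegral_one, measure_univ] at h1
  have h6 := (ENNReal.tendsto_toReal ENNReal.one_ne_top).comp h1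
  have h7 := (Complex.continuous_ofReal.tendsto (1 : ENNReal).toReal).comp h6
  rw [hz]
  rw [ENNReal.toReal_one, Complex.ofReal_one] at h7
  exact h7

/-- an identity for `s > 0` holds for `s = 0` -/
theorem ext_zero {σ ι : Type} [Fintype σ] [Fintype ι] (f : ι → MvPolynomial σ ℚ_[p])
    (hf : ∃ j, f j ≠ 0) (D P : ℂ[X]) (h : ∀ s : ℝ, 0 < s →
      D.eval ((tr' p s : ℝ) : ℂ) * FF f s = P.eval ((tr' p s : ℝ) : ℂ)) (s : ℝ) (hs : 0 ≤ s) :
    D.eval ((tr' p s : ℝ) : ℂ) * FF f s = P.eval ((tr' p s : ℝ) : ℂ) := by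
  rcases hs.lt_or_eq with hs | rfl
  · exact h s hs
  have hp : (0 : ℝ) < p := by exact_mod_cast (Fact.out : p.Prime).pos
  have ht : Tendsto (fun s : ℝ => ((tr' p s : ℝ) : ℂ)) (nhdsWithin 0 (Set.Ioi 0))
      (nhds ((tr' p 0 : ℝ) : ℂ)) := by
    have h1 : ContinuousAt (fun s : ℝ => ((tr' p s : ℝ) : ℂ)) 0 := by
      refine Complex.continuous_ofReal.continuousAt.comp ?_
      unfold tr'
      exact (continuousAt_const.rpow (continuousAt_id.neg) (Or.inl hp.ne'))
    exact h1.tendsto.mono_left nhdsWithin_le_nhds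
  have h1 := ((D.continuous.tendsto _).comp ht).mul (FF_tendsto f hf)
  have h2 := ((P.continuous.tendsto _).comp ht)
  have h3 : Tendsto (fun s : ℝ => D.eval ((tr' p s : ℝ) : ℂ) * FF f s) (nhdsWithin 0 (Set.Ioi 0))
      (nhds (P.eval ((tr' p 0 : ℝ) : ℂ))) := by
    refine h2.congr' ?_
    filter_upwards [self_mem_nhdsWithin] with s hs
    exact (h s hs).symm
  exact tendsto_nhds_unique h1 h3

/-- It is enough to know a rational expression for `s > 0` and the poles outside of the closed
unit disc. -/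
theorem FR_of_pos {σ ι : Type} [Fintype σ] [Fintype ι] (f : ι → MvPolynomial σ ℚ_[p])
    (hf : ∃ j, f j ≠ 0) (m : ℂ → ℕ∞) (D P : ℂ[X]) (hD : D ≠ 0)
    (hm : ∀ T0 : ℂ, 1 < ‖T0‖ → (D.rootMultiplicity T0 : ℕ∞) ≤ m T0)
    (h : ∀ s : ℝ, 0 < s → D.eval ((tr' p s : ℝ) : ℂ) * FF f s = P.eval ((tr' p s : ℝ) : ℂ)) :
    FR p m (FF f) :=
  Pool.Agent.R852.PP.FR_of_out f (null_fam f hf) m fun T0 hT0 =>
    ⟨D, P, hD, hm T0 hT0, ext_zero f hf D P h⟩

end Pool.Agent.T6.H26
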