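import Pool.Agent.Y230.PT.OneDim

set_option autoImplicit false
set_option linter.unusedSectionVars false
set_option linter.unusedVariables false

/-! # Multiplicative characters of `ℚ_p` and integrals in one variable -/

namespace Pool.Agent.T6.H26.PX

open MeasureTheory Set Pool.Agent.W427.SMC Pool.Agent.Y230.PT
open scoped ENNReal

variable {p : ℕ} [Fact p.Prime]

attribute [local instance] msK bsK

/-- a character of the units of `ℤ_p`, trivial on `1 + p ^ e ℤ_p`, extended to `ℚ_p` by `χ p = 1`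
and `χ 0 = 0` -/
structure IsCh (χ : ℚ_[p] → ℂ) (e : ℕ) : Prop where
  mul : ∀ x y, χ (x * y) = χ x * χ y
  one : χ 1 = 1
  prm : χ (p : ℚ_[p]) = 1
  zer : χ 0 = 0
  loc : ∀ x, ‖x - 1‖ ≤ qr p ^ e → χ x = 1
  bdd : ∀ x, ‖χ x‖ ≤ 1
  pos : 1 ≤ e

variable {χ : ℚ_[p] → ℂ} {e : ℕ}

theorem IsCh.ne (h : IsCh χ e) {x : ℚ_[p]} (hx : x ≠ 0) : χ x ≠ 0 := by
  intro h0
  have h1 := h.mul x x⁻¹
  rw [mul_inv_cancel₀ hx, h.one, h0, zero_mul] at h1
  exact one_ne_zero h1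

theorem IsCh.near (h : IsCh χ e) {x y : ℚ_[p]} (hy : y ≠ 0) (hxy : ‖x - y‖ ≤ qr p ^ e * ‖y‖) :
    χ x = χ y := by
  have h1 : χ (x * y⁻¹) = 1 := by
    refine h.loc _ ?_
    have h2 : x * y⁻¹ - 1 = (x - y) * y⁻¹ := by
      rw [sub_mul, mul_inv_cancel₀ hy]
    rw [h2, norm_mul, norm_inv]
    have h3 : 0 < ‖y‖ := norm_pos_iff.2 hy
    rw [← div_eq_mul_inv, div_le_iff₀ h3]
    exact hxy
  have h4 : x = (x * y⁻¹) * y := by
    rw [mul_assoc, inv_mul_cancel₀ hy, mul_one]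
  rw [h4, h.mul, h1, one_mul]

theorem IsCh.cont (h : IsCh χ e) : ContinuousOn χ {0}ᶜ := by
  intro x hx
  have hx0 : x ≠ 0 := hx
  refine ContinuousAt.continuousWithinAt ?_
  have h1 : χ =ᶠ[nhds x] fun _ => χ x := by
    have h2 : 0 < qr p ^ e * ‖x‖ := mul_pos (pow_pos qr_pos e) (norm_pos_iff.2 hx0)
    filter_upwards [Metric.ball_mem_nhds x h2] with y hy
    rw [Metric.mem_ball, dist_eq_norm] at hy
    exact h.near hx0 hy.le
  exact (continuousAt_const).congr h1.symm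

theorem IsCh.meas (h : IsCh χ e) : Measurable χ :=
  measurable_of_continuousOn_compl_singleton 0 h.cont

/-- the quasicharacter `χ(x) ‖x‖ ^ s` -/
noncomputable def NN (χ : ℚ_[p] → ℂ) (s : ℝ) (x : ℚ_[p]) : ℂ := χ x * ((‖x‖ ^ s : ℝ) : ℂ)

theorem NN_mul (h : IsCh χ e) (s : ℝ) (x y : ℚ_[p]) : NN χ s (x * y) = NN χ s x * NN χ s y := by
  unfold NN
  rw [h.mul, norm_mul, Real.mul_rpow (norm_nonneg _) (norm_nonneg _)]
  push_cast
  ring

theorem NN_one (h : IsCh χ e) (s : ℝ) : NN χ s 1 = 1 := by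
  unfold NN
  rw [h.one, norm_one, Real.one_rpow]
  simp

theorem NN_pow (h : IsCh χ e) (s : ℝ) (x : ℚ_[p]) (n : ℕ) : NN χ s (x ^ n) = NN χ s x ^ n := by
  induction n with
  | zero => simp [NN_one h]
  | succ n ih => rw [pow_succ, pow_succ, NN_mul h, ih]

theorem NN_near (h : IsCh χ e) (s : ℝ) {x y : ℚ_[p]} (hy : y ≠ 0)
    (hxy : ‖x - y‖ ≤ qr p ^ e * ‖y‖) : NN χ s x = NN χ s y := by
  unfold NN
  have h1 : ‖x - y‖ < ‖y‖ := by
    refine lt_of_le_of_lt hxy ?_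
    have h2 : qr p ^ e < 1 := pow_lt_one₀ qr_pos.le qr_lt_one (by have := h.pos; omega)
    calc qr p ^ e * ‖y‖ < 1 * ‖y‖ := mul_lt_mul_of_pos_right h2 (norm_pos_iff.2 hy)
      _ = ‖y‖ := one_mul _
  have h3 : ‖x‖ = ‖y‖ := by
    have h4 : x = (x - y) + y := by ring
    rw [h4, Padic.add_eq_max_of_ne h1.ne, max_eq_right h1.le]
  rw [h.near hy hxy, h3]

theorem NN_le {s : ℝ} (h : IsCh χ e) (hs : 0 ≤ s) {x : ℚ_[p]} {R : ℝ} (hx : ‖x‖ ≤ R) :
    ‖NN χ s x‖ ≤ R ^ s := by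
  unfold NN
  rw [norm_mul, Complex.norm_real, Real.norm_of_nonneg (Real.rpow_nonneg (norm_nonneg _) _)]
  calc ‖χ x‖ * ‖x‖ ^ s ≤ 1 * ‖x‖ ^ s :=
        mul_le_mul_of_nonneg_right (h.bdd x) (Real.rpow_nonneg (norm_nonneg _) _)
    _ ≤ R ^ s := by
      rw [one_mul]
      exact Real.rpow_le_rpow (norm_nonneg _) hx hs

theorem NN_meas (h : IsCh χ e) (s : ℝ) : Measurable (NN χ s) := by
  unfold NN
  exact h.meas.mul (Complex.measurable_ofReal.comp (continuous_norm.measurable.pow_const s))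

theorem NN_p (h : IsCh χ e) (s : ℝ) : NN χ s (p : ℚ_[p]) = ((tr' p s : ℝ) : ℂ) := by
  unfold NN
  rw [h.prm, one_mul]
  congr 1
  have h1 := N_p (p := p) s
  have h2 := congrArg ENNReal.toReal h1
  rw [N_toReal, Tt_toReal] at h2
  exact h2

/-- the weight of a pair `(a, n)` -/
noncomputable def ww (χ : ℚ_[p] → ℂ) (s : ℝ) (a n : ℕ) (x : ℚ_[p]) : ℂ :=
  NN χ s x ^ a * ((‖x‖ : ℝ) : ℂ) ^ (n - 1)

theorem ww01 (s : ℝ) (x : ℚ_[p]) : ww χ s 0 1 x = 1 := by simp [ww]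

theorem ww_mul (h : IsCh χ e) (s : ℝ) (a n : ℕ) (x y : ℚ_[p]) :
    ww χ s a n (x * y) = ww χ s a n x * ww χ s a n y := by
  unfold ww
  rw [NN_mul h, norm_mul]
  push_cast
  rw [mul_pow, mul_pow]
  ring

theorem ww_near (h : IsCh χ e) (s : ℝ) (a n : ℕ) {x y : ℚ_[p]} (hy : y ≠ 0)
    (hxy : ‖x - y‖ ≤ qr p ^ e * ‖y‖) : ww χ s a n x = ww χ s a n y := by
  unfold ww
  have h1 : ‖x - y‖ < ‖y‖ := by
    refine lt_of_le_of_lt hxy ?_
    have h2 : qr p ^ e < 1 := pow_lt_one₀ qr_pos.le qr_lt_one (by have := h.pos; omega)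
    calc qr p ^ e * ‖y‖ < 1 * ‖y‖ := mul_lt_mul_of_pos_right h2 (norm_pos_iff.2 hy)
      _ = ‖y‖ := one_mul _
  have h3 : ‖x‖ = ‖y‖ := by
    have h4 : x = (x - y) + y := by ring
    rw [h4, Padic.add_eq_max_of_ne h1.ne, max_eq_right h1.le]
  rw [NN_near h s hy hxy, h3]

theorem ww_meas (h : IsCh χ e) (s : ℝ) (a n : ℕ) : Measurable (ww χ s a n) :=
  ((NN_meas h s).pow_const a).mul ((Complex.measurable_ofReal.comp
    continuous_norm.measurable).pow_const (n - 1))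

theorem ww_le {s : ℝ} (h : IsCh χ e) (hs : 0 ≤ s) (a n : ℕ) {x : ℚ_[p]} {R : ℝ} (hx : ‖x‖ ≤ R) :
    ‖ww χ s a n x‖ ≤ (R ^ s) ^ a * R ^ (n - 1) := by
  unfold ww
  rw [norm_mul, norm_pow, norm_pow, Complex.norm_real, norm_norm]
  have h1 := NN_le h hs hx
  exact mul_le_mul (pow_le_pow_left₀ (norm_nonneg _) h1 a) (pow_le_pow_left₀ (norm_nonneg _) hx _)
    (pow_nonneg (norm_nonneg _) _) (pow_nonneg ((norm_nonneg _).trans h1) _)

/-- the values are regular -/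
theorem reg_NN (h : IsCh χ e) {T0 : ℂ} (hT0 : T0 ≠ 0) (x : ℚ_[p]) :
    Reg p T0 0 (fun s => NN χ s x) := by
  by_cases hx : x = 0
  · subst hx
    refine Reg.zero.congr fun s _ => ?_
    unfold NN
    rw [h.zer, zero_mul]
  · refine ((Reg.const (χ x)).mul0 (reg_N hT0 x hx)).congr fun s _ => ?_
    rw [N_toReal]
    rfl

theorem reg_ww (h : IsCh χ e) {T0 : ℂ} (hT0 : T0 ≠ 0) (a n : ℕ) (x : ℚ_[p]) :
    Reg p T0 0 (fun s => ww χ s a n x) :=
  (((reg_NN h hT0 x).pow a).mul0 (Reg.const _)).congr fun s _ => rfl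

/-- scaling -/
theorem int_scale (a : ℚ_[p]) (ha : a ≠ 0) (G : ℚ_[p] → ℂ) :
    ((‖a‖ : ℝ) : ℂ) * ∫ x, G (a * x) ∂(nu p) = ∫ x, G x ∂(nu p) := by
  have h1 := integral_map_equiv (μ := nu p) (mulE p a ha) G
  rw [map_smul_eq] at h1
  have h2 : Measure.map (mulE p a ha) (nu p) (K0 p) = (N p 1 a)⁻¹ := sc_eq p a ha
  rw [h2, integral_smul_measure, ENNReal.toReal_inv, N_toReal, Real.rpow_one] at h1
  have h3 : ∫ x, G (a * x) ∂(nu p) = ∫ x, G ((mulE p a ha) x) ∂(nu p) := rfl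
  rw [h3, ← h1, Complex.real_smul]
  have h4 : ((‖a‖ : ℝ) : ℂ) ≠ 0 := by
    exact_mod_cast (norm_pos_iff.2 ha).ne'
  push_cast
  rw [← mul_assoc, mul_inv_cancel₀ h4, one_mul]

/-- the pair `(a, n)` is critical at `T0` for the character `χ` -/
def CritX (χ : ℚ_[p] → ℂ) (T0 : ℂ) (a n : ℕ) : Prop :=
  Crit p T0 a n ∧ ∀ x : ℚ_[p], x ≠ 0 → χ x ^ a = 1

/-- the integral over a ball centered at the origin -/
noncomputable def JJ (χ : ℚ_[p] → ℂ) (s : ℝ) (a n k : ℕ) : ℂ :=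
  ∫ x in bl (0 : ℚ_[p]) k, ww χ s a n x ∂(nu p)

theorem JJ_triv (h : IsCh χ e) {s : ℝ} (hs : 0 ≤ s) (a n k : ℕ)
    (hχ : ∀ x : ℚ_[p], x ≠ 0 → χ x ^ a = 1) :
    JJ χ s a n k = ((J (p := p) s a n k).toReal : ℂ) := by
  have h1 : ∫ x in bl (0 : ℚ_[p]) k, (w s a n x).toReal ∂(nu p) = (J (p := p) s a n k).toReal := by
    unfold J
    refine integral_toReal (w_meas s a n).aemeasurable ?_
    exact Filter.Eventually.of_forall fun x => lt_top_iff_ne_top.2 (w_ne_top s a n x)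
  rw [← h1, JJ, ← integral_complex_ofReal]
  refine integral_congr_ae ?_
  have hne : ∀ᵐ x ∂(Pool.Agent.Y230.PT.nu p).restrict (bl (0 : ℚ_[p]) k), x ≠ (0 : ℚ_[p]) := by
    refine ae_restrict_of_ae ?_
    rw [ae_iff]
    have : {a : ℚ_[p] | ¬ a ≠ 0} = {0} := by ext x; simp
    rw [this]
    have h1 : ∀ k : ℕ, nu p ({0} : Set ℚ_[p]) ≤ ((p : ℝ≥0∞)⁻¹) ^ k := by
      intro k
      rw [← nu_bl (0 : ℚ_[p]) k]
      refine measure_mono ?_
      rw [Set.singleton_subset_iff, mem_bl, sub_zero, norm_zero]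
      exact pow_nonneg qr_pos.le _
    have h2 : Filter.Tendsto (fun k : ℕ => ((p : ℝ≥0∞)⁻¹) ^ k) Filter.atTop (nhds 0) := by
      refine ENNReal.tendsto_pow_atTop_nhds_zero_of_lt_one ?_
      rw [ENNReal.inv_lt_one]
      exact_mod_cast (Fact.out : p.Prime).one_lt
    exact le_antisymm (ge_of_tendsto' h2 h1) zero_le
  filter_upwards [hne] with x hx
  unfold ww NN w
  rw [mul_pow, hχ x hx, one_mul, ENNReal.toReal_mul, ENNReal.toReal_pow, ENNReal.toReal_pow,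
    N_toReal, N_toReal, Real.rpow_one]
  push_cast
  rfl

theorem JJ_zero (h : IsCh χ e) (s : ℝ) (a n k : ℕ) (x0 : ℚ_[p]) (hx0 : x0 ≠ 0)
    (hχ : χ x0 ^ a ≠ 1) : JJ χ s a n k = 0 := by
  -- a unit
  obtain ⟨v, hv⟩ : ∃ v : ℤ, ‖x0‖ = (p : ℝ) ^ (-v) :=
    ⟨x0.valuation, Padic.norm_eq_zpow_neg_valuation hx0⟩
  have hp0 : (p : ℚ_[p]) ≠ 0 := by exact_mod_cast (Fact.out : p.Prime).ne_zero
  have hpr : (p : ℝ) ≠ 0 := by exact_mod_cast (Fact.out : p.Prime).ne_zero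
  have hpz : ∀ v : ℤ, χ ((p : ℚ_[p]) ^ v) = 1 := by
    intro v
    have h1 : ∀ k : ℕ, χ ((p : ℚ_[p]) ^ k) = 1 := by
      intro k
      induction k with
      | zero => rw [pow_zero]; exact h.one
      | succ k ih => rw [pow_succ, h.mul, ih, h.prm, one_mul]
    rcases le_total 0 v with hv | hv
    · obtain ⟨k, rfl⟩ := Int.eq_ofNat_of_zero_le hv
      rw [zpow_natCast]
      exact h1 k
    · obtain ⟨k, hk⟩ := Int.eq_ofNat_of_zero_le (neg_nonneg.2 hv)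
      have h2 := h.mul ((p : ℚ_[p]) ^ v) ((p : ℚ_[p]) ^ k)
      rw [h1 k, mul_one, ← zpow_natCast, ← zpow_add₀ hp0] at h2
      have h3 : v + (k : ℤ) = 0 := by omega
      rw [h3, zpow_zero, h.one] at h2
      exact h2.symm
  set u : ℚ_[p] := x0 * (p : ℚ_[p]) ^ (-v) with hu
  have hu0 : u ≠ 0 := mul_ne_zero hx0 (zpow_ne_zero _ hp0)
  have hun : ‖u‖ = 1 := by
    rw [hu, norm_mul, norm_zpow, Padic.norm_p, hv, inv_zpow, ← zpow_neg, ← zpow_add₀ hpr]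
    simp
  have huχ : χ u = χ x0 := by rw [hu, h.mul, hpz, mul_one]
  have h1 : JJ χ s a n k = χ x0 ^ a * JJ χ s a n k := by
    conv_lhs => rw [JJ, ← integral_indicator (bl_meas _ _), ← int_scale u hu0, hun]
    rw [Complex.ofReal_one, one_mul, JJ, ← integral_indicator (bl_meas _ _), ← integral_const_mul]
    refine integral_congr_ae (Filter.Eventually.of_forall fun x => ?_)
    beta_reduce
    have h2 : u * x ∈ bl (0 : ℚ_[p]) k ↔ x ∈ bl (0 : ℚ_[p]) k := by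
      rw [mem_bl, mem_bl, sub_zero, sub_zero, norm_mul, hun, one_mul]
    by_cases hx : x ∈ bl (0 : ℚ_[p]) k
    · rw [Set.indicator_of_mem hx, Set.indicator_of_mem (h2.2 hx), ww_mul h]
      congr 1
      unfold ww NN
      rw [hun, huχ]
      simp
    · rw [Set.indicator_of_notMem hx, Set.indicator_of_notMem (fun h => hx (h2.1 h)), mul_zero]
  have h2 : (1 - χ x0 ^ a) * JJ χ s a n k = 0 := by
    linear_combination h1
  rcases mul_eq_zero.1 h2 with h3 | h3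
  · exact absurd (sub_eq_zero.1 h3).symm hχ
  · exact h3

/-- integrals over arbitrary balls -/
noncomputable def II (χ : ℚ_[p] → ℂ) (s : ℝ) (a n : ℕ) (b : ℚ_[p]) (k : ℕ) : ℂ :=
  ∫ x in bl b k, ww χ s a n x ∂(nu p)

theorem reg_JJ (h : IsCh χ e) {T0 : ℂ} (a n k : ℕ) (hn : 1 ≤ n) (hc : ¬ CritX χ T0 a n) :
    Reg p T0 0 (fun s => JJ χ s a n k) := by
  by_cases hχ : ∀ x : ℚ_[p], x ≠ 0 → χ x ^ a = 1
  · have hc' : ¬ Crit p T0 a n := fun h => hc ⟨h, hχ⟩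
    exact (reg_J a n k hn hc').congr fun s hs => (JJ_triv h hs a n k hχ).symm
  · push Not at hχ
    obtain ⟨x0, hx0, h1⟩ := hχ
    exact Reg.zero.congr fun s _ => (JJ_zero h s a n k x0 hx0 h1).symm

theorem II_near (s : ℝ) (a n : ℕ) (b : ℚ_[p]) (k : ℕ) (hb : ‖b‖ ≤ qr p ^ k) :
    II χ s a n b k = JJ χ s a n k := by
  unfold II JJ
  have h1 : bl b k = bl 0 k := by
    refine IsUltrametricDist.closedBall_eq_of_mem ?_
    rw [Metric.mem_closedBall, dist_eq_norm, zero_sub, norm_neg]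
    exact hb
  rw [h1]

/-- away from the origin -/
theorem II_far (h : IsCh χ e) (s : ℝ) (a n : ℕ) (b : ℚ_[p]) (k : ℕ) (hb : qr p ^ k < ‖b‖) :
    II χ s a n b k = (((‖b‖ ^ s : ℝ) : ℂ)) ^ a *
      ∫ x in bl b k, χ x ^ a * ((‖b‖ : ℝ) : ℂ) ^ (n - 1) ∂(nu p) := by
  unfold II
  rw [← integral_const_mul]
  refine setIntegral_congr_fun (bl_meas _ _) fun x hx => ?_
  rw [mem_bl] at hx
  have h2 : ‖x - b‖ < ‖b‖ := hx.trans_lt hb
  have h3 : ‖x‖ = ‖b‖ := by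
    have h3 : x = (x - b) + b := by ring
    rw [h3, Padic.add_eq_max_of_ne h2.ne, max_eq_right h2.le]
  beta_reduce
  unfold ww NN
  rw [h3]
  ring

theorem reg_II_far (h : IsCh χ e) {T0 : ℂ} (hT0 : T0 ≠ 0) (a n : ℕ) (b : ℚ_[p]) (k : ℕ)
    (hb : qr p ^ k < ‖b‖) : Reg p T0 0 (fun s => II χ s a n b k) := by
  have hb0 : b ≠ 0 := by
    rintro rfl
    rw [norm_zero] at hb
    exact absurd hb (not_lt.2 (pow_nonneg qr_pos.le _))
  refine (((reg_N hT0 b hb0).pow a).mul0 (Reg.const (∫ x in bl b k, χ x ^ a *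
    ((‖b‖ : ℝ) : ℂ) ^ (n - 1) ∂(nu p)))).congr fun s _ => ?_
  rw [II_far h s a n b k hb, N_toReal]

theorem reg_II (h : IsCh χ e) {T0 : ℂ} (hT0 : T0 ≠ 0) (a n : ℕ) (hn : 1 ≤ n)
    (hc : ¬ CritX χ T0 a n) (b : ℚ_[p]) (k : ℕ) : Reg p T0 0 (fun s => II χ s a n b k) := by
  rcases lt_or_ge (qr p ^ k) ‖b‖ with hb | hb
  · exact reg_II_far h hT0 a n b k hb
  · simp only [II_near _ a n b k hb]
    exact reg_JJ h a n k hn hc

end Pool.Agent.T6.H26.PX
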