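import Pool.Agent.T6.H26.PXA
import Pool.Agent.Y230.PT.LReg
import Pool.Agent.Y230.PT.Leaf2

set_option autoImplicit false
set_option linter.unusedSectionVars false
set_option linter.unusedVariables false

/-! # Integrals of complex functions over compact open subsets of `ℚ_p ^ 2` -/

namespace Pool.Agent.T6.H26.PX

open MeasureTheory Set Pool.Agent.W427.SMC Pool.Agent.Y230.PT
open scoped ENNReal

variable {p : ℕ} [Fact p.Prime]

attribute [local instance] msK bsK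

/-- the integrands: bounded on the compact sets -/
def OkC (H : ℝ → ℚ_[p] × ℚ_[p] → ℂ) : Prop :=
  ∀ s : ℝ, 0 ≤ s → Measurable (H s) ∧ ∀ C : Set (ℚ_[p] × ℚ_[p]), IsCompact C →
    ∃ B : ℝ, ∀ x ∈ C, ‖H s x‖ ≤ B

/-- the integral over a set -/
noncomputable def ZX (H : ℝ → ℚ_[p] × ℚ_[p] → ℂ) (C : Set (ℚ_[p] × ℚ_[p])) (s : ℝ) : ℂ :=
  ∫ x in C, H s x ∂(nu2 p)

theorem OkC.int {H : ℝ → ℚ_[p] × ℚ_[p] → ℂ} (hH : OkC H) {C : Set (ℚ_[p] × ℚ_[p])} (hC : CO C)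
    {s : ℝ} (hs : 0 ≤ s) : IntegrableOn (H s) C (nu2 p) := by
  obtain ⟨B, hB⟩ := (hH s hs).2 C hC.cpt
  refine Measure.integrableOn_of_bounded (M := B) hC.cpt.measure_lt_top.ne
    (hH s hs).1.aestronglyMeasurable ?_
  rw [ae_restrict_iff' hC.meas]
  exact Filter.Eventually.of_forall hB

theorem ZX_union {H : ℝ → ℚ_[p] × ℚ_[p] → ℂ} (hH : OkC H) {A B : Set (ℚ_[p] × ℚ_[p])}
    (hA : CO A) (hB : CO B) (hd : Disjoint A B) {s : ℝ} (hs : 0 ≤ s) :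
    ZX H (A ∪ B) s = ZX H A s + ZX H B s := by
  unfold ZX
  exact setIntegral_union hd hB.meas (hH.int hA hs) (hH.int hB hs)

theorem ZX_empty (H : ℝ → ℚ_[p] × ℚ_[p] → ℂ) (s : ℝ) : ZX H ∅ s = 0 := by
  simp [ZX]

theorem ZX_congr {H G : ℝ → ℚ_[p] × ℚ_[p] → ℂ} {C : Set (ℚ_[p] × ℚ_[p])} (hC : CO C) {s : ℝ}
    (h : ∀ x ∈ C, H s x = G s x) : ZX H C s = ZX G C s := by
  unfold ZX
  exact setIntegral_congr_fun hC.meas h

theorem addF_ZX {H : ℝ → ℚ_[p] × ℚ_[p] → ℂ} (hH : OkC H) : AddF (ZX H) :=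
  ⟨fun s _ => ZX_empty H s, fun _ _ hA hB hd _ hs => ZX_union hH hA hB hd hs⟩

/-- the product formula -/
theorem box_prodC (f g : ℚ_[p] → ℂ) (κ : ℕ) (y : ℚ_[p] × ℚ_[p]) (k : ℕ) :
    ∫ x in bx κ y k, f x.1 * g x.2 ∂(nu2 p) =
      (∫ u in bl y.1 (k + κ), f u ∂(nu p)) * ∫ v in bl y.2 k, g v ∂(nu p) := by
  rw [bx, nu2]
  exact setIntegral_prod_mul f g _ _

theorem OkC.mul {H G : ℝ → ℚ_[p] × ℚ_[p] → ℂ} (hH : OkC H) (hG : OkC G) :
    OkC (fun s x => H s x * G s x) := by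
  intro s hs
  refine ⟨(hH s hs).1.mul (hG s hs).1, fun C hC => ?_⟩
  obtain ⟨B, h1⟩ := (hH s hs).2 C hC
  obtain ⟨B', h2⟩ := (hG s hs).2 C hC
  refine ⟨B * B', fun x hx => ?_⟩
  rw [norm_mul]
  exact mul_le_mul (h1 x hx) (h2 x hx) (norm_nonneg _) ((norm_nonneg _).trans (h1 x hx))

theorem okC_const (c : ℝ → ℂ) : OkC (fun s (_ : ℚ_[p] × ℚ_[p]) => c s) := by
  intro s _
  exact ⟨measurable_const, fun C _ => ⟨‖c s‖, fun _ _ => le_rfl⟩⟩

theorem okC_norm (f : ℚ_[p] × ℚ_[p] → ℚ_[p]) (hf : Continuous f) (n : ℕ) :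
    OkC (fun _ x => ((‖f x‖ : ℝ) : ℂ) ^ n) := by
  intro s _
  have h1 : Continuous (fun x => ((‖f x‖ : ℝ) : ℂ) ^ n) := by fun_prop
  refine ⟨h1.measurable, fun C hC => ?_⟩
  obtain ⟨B, hB⟩ := hC.exists_bound_of_continuousOn h1.continuousOn
  exact ⟨B, hB⟩

variable {χ : ℚ_[p] → ℂ} {e : ℕ}

theorem okC_NN (h : IsCh χ e) (f : ℚ_[p] × ℚ_[p] → ℚ_[p]) (hf : Continuous f) :
    OkC (fun s x => NN χ s (f x)) := by
  intro s hs
  refine ⟨(NN_meas h s).comp hf.measurable, fun C hC => ?_⟩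
  obtain ⟨R, hR⟩ := hC.exists_bound_of_continuousOn hf.continuousOn
  exact ⟨R ^ s, fun x hx => NN_le h hs (hR x hx)⟩

theorem okC_ww (h : IsCh χ e) (f : ℚ_[p] × ℚ_[p] → ℚ_[p]) (hf : Continuous f) (a n : ℕ) :
    OkC (fun s x => ww χ s a n (f x)) := by
  intro s hs
  refine ⟨(ww_meas h s a n).comp hf.measurable, fun C hC => ?_⟩
  obtain ⟨R, hR⟩ := hC.exists_bound_of_continuousOn hf.continuousOn
  exact ⟨_, fun x hx => ww_le h hs a n (hR x hx)⟩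

/-- the monomial integrands -/
noncomputable def monC (χ : ℚ_[p] → ℂ) (γ : ℚ_[p]) (a0 n0 a1 n1 : ℕ) (s : ℝ)
    (x : ℚ_[p] × ℚ_[p]) : ℂ := NN χ s γ * (ww χ s a0 n0 x.1 * ww χ s a1 n1 x.2)

theorem okC_mon (h : IsCh χ e) (γ : ℚ_[p]) (a0 n0 a1 n1 : ℕ) : OkC (monC χ γ a0 n0 a1 n1) :=
  (okC_const fun s => NN χ s γ).mul ((okC_ww h (fun x => x.1) continuous_fst a0 n0).mul
    (okC_ww h (fun x => x.2) continuous_snd a1 n1))

theorem monC_box (γ : ℚ_[p]) (a0 n0 a1 n1 : ℕ) (κ : ℕ) (y : ℚ_[p] × ℚ_[p]) (k : ℕ) (s : ℝ) :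
    ZX (monC χ γ a0 n0 a1 n1) (bx κ y k) s = NN χ s γ *
      (II χ s a0 n0 y.1 (k + κ) * II χ s a1 n1 y.2 k) := by
  unfold ZX monC
  rw [integral_const_mul, box_prodC]
  rfl

theorem regC_of_boxes {T0 : ℂ} {M : ℕ} {H : ℝ → ℚ_[p] × ℚ_[p] → ℂ} (hH : OkC H) (κ : ℕ)
    (C : Set (ℚ_[p] × ℚ_[p])) (hC : CO C)
    (hloc : ∀ x ∈ C, ∃ U, IsOpen U ∧ x ∈ U ∧ ∀ y k, bx κ y k ⊆ U → Reg p T0 M (ZX H (bx κ y k))) :
    Reg p T0 M (ZX H C) := by
  refine ball_ind κ (fun C => Reg p T0 M (ZX H C)) ?_ ?_ C hC hloc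
  · exact Reg.zero.congr fun s _ => (ZX_empty H s).symm
  · intro A B hA hB hd h1 h2
    exact (h1.add h2).congr fun s hs => (ZX_union hH hA hB hd hs).symm

theorem regC_mon (h : IsCh χ e) {T0 : ℂ} (hT0 : T0 ≠ 0) (γ : ℚ_[p]) (a0 n0 a1 n1 : ℕ)
    (hn0 : 1 ≤ n0) (hn1 : 1 ≤ n1) (h0 : ¬ CritX χ T0 a0 n0) (h1 : ¬ CritX χ T0 a1 n1)
    (C : Set (ℚ_[p] × ℚ_[p])) (hC : CO C) : Reg p T0 0 (ZX (monC χ γ a0 n0 a1 n1) C) := by
  refine regC_of_boxes (okC_mon h _ _ _ _ _) 0 C hC fun x _ => ⟨Set.univ, isOpen_univ, trivial,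
    fun y k _ => ?_⟩
  refine ((reg_NN h hT0 γ).mul0 ((reg_II h hT0 a0 n0 hn0 h0 y.1 (k + 0)).mul0
    (reg_II h hT0 a1 n1 hn1 h1 y.2 k))).congr fun s _ => (monC_box _ _ _ _ _ _ _ _ _).symm

theorem not_critX01 {T0 : ℂ} : ¬ CritX χ T0 0 1 := fun h => not_crit01 h.1

/-! ### The blow-up -/

/-- the density of the first chart -/
noncomputable def d1 (L : ℕ) : Measure (ℚ_[p] × ℚ_[p]) :=
  ((nu2 p).restrict {x : ℚ_[p] × ℚ_[p] | ‖x.2‖ * qr p ^ L ≤ 1}).withDensity (fun x => N p 1 x.1)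

/-- the density of the second chart -/
noncomputable def d2 (L : ℕ) : Measure (ℚ_[p] × ℚ_[p]) :=
  ((nu2 p).restrict {x : ℚ_[p] × ℚ_[p] | ‖x.1‖ < qr p ^ L}).withDensity (fun x => N p 1 x.2)

theorem B1_meas (L : ℕ) : MeasurableSet {x : ℚ_[p] × ℚ_[p] | ‖x.2‖ * qr p ^ L ≤ 1} :=
  (isClosed_le (by fun_prop) (by fun_prop)).measurableSet

theorem B2_meas (L : ℕ) : MeasurableSet {x : ℚ_[p] × ℚ_[p] | ‖x.1‖ < qr p ^ L} :=
  (isOpen_lt (by fun_prop) (by fun_prop)).measurableSet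

theorem nu2_blow (L : ℕ) : nu2 p = (d1 L).map c1 + (d2 L).map c2 := by
  refine Measure.ext_of_lintegral _ fun Φ hΦ => ?_
  have m1 : Measurable (fun x : ℚ_[p] × ℚ_[p] => N p 1 x.1) := (N_meas 1).comp measurable_fst
  have m2 : Measurable (fun x : ℚ_[p] × ℚ_[p] => N p 1 x.2) := (N_meas 1).comp measurable_snd
  have m3 : Measurable (fun x : ℚ_[p] × ℚ_[p] => Φ (c1 x)) := hΦ.comp c1_cont.measurable
  have m4 : Measurable (fun x : ℚ_[p] × ℚ_[p] => Φ (c2 x)) := hΦ.comp c2_cont.measurable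
  rw [lint_blow L Φ hΦ, lintegral_add_measure, lintegral_map hΦ c1_cont.measurable,
    lintegral_map hΦ c2_cont.measurable, d1, d2]
  rw [lintegral_withDensity_eq_lintegral_mul _ m1 m3,
    lintegral_withDensity_eq_lintegral_mul _ m2 m4, lintegral_indicator (B1_meas L),
    lintegral_indicator (B2_meas L)]
  rfl

theorem int_d1 (L : ℕ) (G : ℚ_[p] × ℚ_[p] → ℂ) :
    ∫ x, G x ∂(d1 L) = ∫ x in {x : ℚ_[p] × ℚ_[p] | ‖x.2‖ * qr p ^ L ≤ 1},
      ((‖x.1‖ : ℝ) : ℂ) * G x ∂(nu2 p) := by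
  have m1 : Measurable (fun x : ℚ_[p] × ℚ_[p] => N p 1 x.1) := (N_meas 1).comp measurable_fst
  unfold d1
  rw [integral_withDensity_eq_integral_toReal_smul m1
    (Filter.Eventually.of_forall fun x => lt_top_iff_ne_top.2 (N_ne_top 1 x.1))]
  refine integral_congr_ae (Filter.Eventually.of_forall fun x => ?_)
  beta_reduce
  rw [N_toReal, Real.rpow_one, Complex.real_smul]

theorem int_d2 (L : ℕ) (G : ℚ_[p] × ℚ_[p] → ℂ) :
    ∫ x, G x ∂(d2 L) = ∫ x in {x : ℚ_[p] × ℚ_[p] | ‖x.1‖ < qr p ^ L},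
      ((‖x.2‖ : ℝ) : ℂ) * G x ∂(nu2 p) := by
  have m1 : Measurable (fun x : ℚ_[p] × ℚ_[p] => N p 1 x.2) := (N_meas 1).comp measurable_snd
  unfold d2
  rw [integral_withDensity_eq_integral_toReal_smul m1
    (Filter.Eventually.of_forall fun x => lt_top_iff_ne_top.2 (N_ne_top 1 x.2))]
  refine integral_congr_ae (Filter.Eventually.of_forall fun x => ?_)
  beta_reduce
  rw [N_toReal, Real.rpow_one, Complex.real_smul]

/-- the integrand in the first chart -/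
noncomputable def G1 (H : ℝ → ℚ_[p] × ℚ_[p] → ℂ) (s : ℝ) (x : ℚ_[p] × ℚ_[p]) : ℂ :=
  ((‖x.1‖ : ℝ) : ℂ) * H s (c1 x)

/-- the integrand in the second chart -/
noncomputable def G2 (H : ℝ → ℚ_[p] × ℚ_[p] → ℂ) (s : ℝ) (x : ℚ_[p] × ℚ_[p]) : ℂ :=
  ((‖x.2‖ : ℝ) : ℂ) * H s (c2 x)

theorem OkC.comp {H : ℝ → ℚ_[p] × ℚ_[p] → ℂ} (hH : OkC H)
    (f : ℚ_[p] × ℚ_[p] → ℚ_[p] × ℚ_[p]) (hf : Continuous f) : OkC (fun s x => H s (f x)) := by
  intro s hs
  refine ⟨(hH s hs).1.comp hf.measurable, fun C hC => ?_⟩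
  obtain ⟨B, hle⟩ := (hH s hs).2 (f '' C) (hC.image hf)
  exact ⟨B, fun x hx => hle _ (Set.mem_image_of_mem f hx)⟩

theorem OkC.G1 {H : ℝ → ℚ_[p] × ℚ_[p] → ℂ} (hH : OkC H) : OkC (G1 H) := by
  have h := (okC_norm (fun x : ℚ_[p] × ℚ_[p] => x.1) continuous_fst 1).mul (hH.comp c1 c1_cont)
  simp only [pow_one] at h
  exact h

theorem OkC.G2 {H : ℝ → ℚ_[p] × ℚ_[p] → ℂ} (hH : OkC H) : OkC (G2 H) := by
  have h := (okC_norm (fun x : ℚ_[p] × ℚ_[p] => x.2) continuous_snd 1).mul (hH.comp c2 c2_cont)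
  simp only [pow_one] at h
  exact h

/-- **The blow-up formula.** -/
theorem ZX_blow (L : ℕ) {H : ℝ → ℚ_[p] × ℚ_[p] → ℂ} (hH : OkC H) {C : Set (ℚ_[p] × ℚ_[p])}
    (hC : CO C) {s : ℝ} (hs : 0 ≤ s) :
    ZX H C s = ZX (G1 H) (S1 L C) s + ZX (G2 H) (S2 L C) s := by
  have hm : Measurable (C.indicator (H s)) := (hH s hs).1.indicator hC.meas
  have hi : Integrable (C.indicator (H s)) (nu2 p) := (hH.int hC hs).integrable_indicator hC.meas
  unfold ZX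
  have hi' : Integrable (C.indicator (H s)) ((d1 L).map c1 + (d2 L).map c2) := by
    rw [← nu2_blow L]
    exact hi
  have key : ∫ x, C.indicator (H s) x ∂(nu2 p) =
      ∫ x in {x : ℚ_[p] × ℚ_[p] | ‖x.2‖ * qr p ^ L ≤ 1}, ((‖x.1‖ : ℝ) : ℂ) *
        C.indicator (H s) (c1 x) ∂(nu2 p) +
      ∫ x in {x : ℚ_[p] × ℚ_[p] | ‖x.1‖ < qr p ^ L}, ((‖x.2‖ : ℝ) : ℂ) *
        C.indicator (H s) (c2 x) ∂(nu2 p) := by
    conv_lhs => rw [nu2_blow L]
    rw [integral_add_measure (hi'.mono_measure (Measure.le_add_right le_rfl))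
      (hi'.mono_measure (Measure.le_add_left le_rfl)),
      integral_map c1_cont.measurable.aemeasurable hm.aestronglyMeasurable,
      integral_map c2_cont.measurable.aemeasurable hm.aestronglyMeasurable, int_d1, int_d2]
  rw [← integral_indicator hC.meas, key, ← integral_indicator (B1_meas L),
    ← integral_indicator (B2_meas L), ← integral_indicator (CO_S1 L hC).meas,
    ← integral_indicator (CO_S2 L hC).meas]
  congr 1
  · refine integral_congr_ae (Filter.Eventually.of_forall fun x => ?_)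
    beta_reduce
    by_cases h2 : x ∈ {x : ℚ_[p] × ℚ_[p] | ‖x.2‖ * qr p ^ L ≤ 1}
    · rw [Set.indicator_of_mem h2]
      by_cases h3 : c1 x ∈ C
      · rw [Set.indicator_of_mem h3, Set.indicator_of_mem (show x ∈ S1 L C from ⟨h2, h3⟩)]
        rfl
      · rw [Set.indicator_of_notMem h3, mul_zero,
          Set.indicator_of_notMem (show x ∉ S1 L C from fun h => h3 h.2)]
    · rw [Set.indicator_of_notMem h2,
        Set.indicator_of_notMem (show x ∉ S1 L C from fun h => h2 h.1)]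
  · refine integral_congr_ae (Filter.Eventually.of_forall fun x => ?_)
    beta_reduce
    by_cases h2 : x ∈ {x : ℚ_[p] × ℚ_[p] | ‖x.1‖ < qr p ^ L}
    · rw [Set.indicator_of_mem h2]
      by_cases h3 : c2 x ∈ C
      · rw [Set.indicator_of_mem h3, Set.indicator_of_mem (show x ∈ S2 L C from ⟨h2, h3⟩)]
        rfl
      · rw [Set.indicator_of_notMem h3, mul_zero,
          Set.indicator_of_notMem (show x ∉ S2 L C from fun h => h3 h.2)]
    · rw [Set.indicator_of_notMem h2,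
        Set.indicator_of_notMem (show x ∉ S2 L C from fun h => h2 h.1)]

/-! ### Shears -/

theorem mp_shV (f : ℚ_[p] → ℚ_[p]) (hf : Continuous f) :
    MeasurePreserving (fun x : ℚ_[p] × ℚ_[p] => (x.1, f x.1 + x.2)) (nu2 p) (nu2 p) := by
  have hcont : Continuous (fun x : ℚ_[p] × ℚ_[p] => ((x.1, f x.1 + x.2) : ℚ_[p] × ℚ_[p])) := by
    fun_prop
  refine ⟨hcont.measurable, ?_⟩
  refine Measure.ext_of_lintegral _ fun Φ hΦ => ?_
  have m1 : Measurable (fun x : ℚ_[p] × ℚ_[p] => Φ (x.1, f x.1 + x.2)) := hΦ.comp hcont.measurable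
  rw [lintegral_map hΦ hcont.measurable, nu2, lintegral_prod _ hΦ.aemeasurable,
    lintegral_prod _ m1.aemeasurable]
  refine lintegral_congr fun x => ?_
  exact lintegral_shift p (f x) (fun y => Φ (x, y))

theorem ZX_shearV (H : ℝ → ℚ_[p] × ℚ_[p] → ℂ) (hH : OkC H) (f : ℚ_[p] → ℚ_[p])
    (hf : Continuous f) {C : Set (ℚ_[p] × ℚ_[p])} (hC : CO C) {s : ℝ} (hs : 0 ≤ s) :
    ZX H C s = ZX (fun s x => H s (x.1, f x.1 + x.2)) ((fun x => (x.1, f x.1 + x.2)) ⁻¹' C) s := by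
  unfold ZX
  have h1 := (mp_shV (p := p) f hf).setIntegral_preimage_emb
    (shV f hf).measurableEmbedding (H s) C
  exact h1.symm

theorem ZX_swap (H : ℝ → ℚ_[p] × ℚ_[p] → ℂ) (C : Set (ℚ_[p] × ℚ_[p])) (s : ℝ) :
    ZX H C s = ZX (fun s x => H s x.swap) (Prod.swap ⁻¹' C) s := by
  unfold ZX
  have h1 : MeasurePreserving (Prod.swap : ℚ_[p] × ℚ_[p] → ℚ_[p] × ℚ_[p]) (nu2 p) (nu2 p) :=
    Measure.measurePreserving_swap
  have h2 := h1.setIntegral_preimage_emb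
    (MeasurableEquiv.prodComm (α := ℚ_[p]) (β := ℚ_[p])).measurableEmbedding (H s) C
  exact h2.symm

/-- scaling in the first variable -/
theorem ZX_scale (H : ℝ → ℚ_[p] × ℚ_[p] → ℂ) (hH : OkC H) (α : ℚ_[p]) (hα : α ≠ 0)
    {C : Set (ℚ_[p] × ℚ_[p])} (hC : CO C) {s : ℝ} (hs : 0 ≤ s) :
    ZX H C s = ((‖α‖ : ℝ) : ℂ) * ZX (fun s x => H s (α * x.1, x.2))
      ((fun x => (α * x.1, x.2)) ⁻¹' C) s := by
  have hcont : Continuous (fun x : ℚ_[p] × ℚ_[p] => ((α * x.1, x.2) : ℚ_[p] × ℚ_[p])) := by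
    fun_prop
  have hm : MeasurableSet ((fun x : ℚ_[p] × ℚ_[p] => ((α * x.1, x.2) : ℚ_[p] × ℚ_[p])) ⁻¹' C) :=
    hC.meas.preimage hcont.measurable
  have h0 : nu2 p = (N p 1 α) • (nu2 p).map (fun x => (α * x.1, x.2)) := by
    refine Measure.ext_of_lintegral _ fun Φ hΦ => ?_
    have m1 : Measurable (fun x : ℚ_[p] × ℚ_[p] => Φ (α * x.1, x.2)) := hΦ.comp hcont.measurable
    rw [lintegral_smul_measure, lintegral_map hΦ hcont.measurable, nu2,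
      lintegral_prod_symm _ hΦ.aemeasurable,
      lintegral_prod_symm _ m1.aemeasurable, smul_eq_mul,
      ← lintegral_const_mul' _ _ (N_ne_top _ _)]
    refine lintegral_congr fun y => ?_
    exact (lintegral_scale p α hα (fun x => Φ (x, y))).symm
  have hmI : Measurable (C.indicator (H s)) := (hH s hs).1.indicator hC.meas
  unfold ZX
  rw [← integral_indicator hC.meas, ← integral_indicator hm]
  conv_lhs => rw [h0]
  rw [integral_smul_measure, integral_map hcont.measurable.aemeasurable hmI.aestronglyMeasurable,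
    N_toReal, Real.rpow_one, Complex.real_smul]
  rfl

end Pool.Agent.T6.H26.PX
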