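import Pool.Agent.T6.H26.PXB

set_option autoImplicit false
set_option linter.unusedSectionVars false
set_option linter.unusedVariables false

/-! # The integrands at the nodes of the tree, and isometries -/

namespace Pool.Agent.T6.H26.PX

open MeasureTheory Set Pool.Agent.W427.SMC Pool.Agent.Y230.PT
open scoped ENNReal
open Pool.Agent.Y230.RE

variable {p : ℕ} [Fact p.Prime]

attribute [local instance] msK bsK

/-! ### Isometries preserve the measure -/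

/-- the balls and the empty set -/
def Bls (p : ℕ) [Fact p.Prime] : Set (Set ℚ_[p]) := {S | S = ∅ ∨ ∃ (c : ℚ_[p]) (j : ℕ), S = bl c j}

theorem bl_sub {b c : ℚ_[p]} {j k : ℕ} (hjk : k ≤ j) (h : (bl b k ∩ bl c j).Nonempty) :
    bl c j ⊆ bl b k := by
  obtain ⟨x, hx1, hx2⟩ := h
  have e1 : bl b k = bl x k := bl_eq (b := b) (c := x) (x := x) hx1 (by
    rw [mem_bl, sub_self, norm_zero]; exact pow_nonneg qr_pos.le _)
  have e2 : bl c j = bl x j := bl_eq (b := c) (c := x) (x := x) hx2 (by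
    rw [mem_bl, sub_self, norm_zero]; exact pow_nonneg qr_pos.le _)
  rw [e1, e2]
  exact Metric.closedBall_subset_closedBall (pow_le_pow_of_le_one qr_pos.le qr_lt_one.le hjk)

theorem bls_pi : IsPiSystem (Bls p) := by
  rintro S hS T hT hne
  rcases hS with rfl | ⟨b, k, rfl⟩
  · simp at hne
  rcases hT with rfl | ⟨c, j, rfl⟩
  · simp at hne
  rcases le_total k j with h | h
  · rw [Set.inter_eq_self_of_subset_right (bl_sub h hne)]
    exact Or.inr ⟨c, j, rfl⟩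
  · rw [Set.inter_comm] at hne ⊢
    rw [Set.inter_eq_self_of_subset_right (bl_sub h hne)]
    exact Or.inr ⟨b, k, rfl⟩

theorem bls_gen : borel ℚ_[p] = MeasurableSpace.generateFrom (Bls p) := by
  refine TopologicalSpace.IsTopologicalBasis.borel_eq_generateFrom ?_
  refine TopologicalSpace.isTopologicalBasis_of_isOpen_of_nhds ?_ ?_
  · rintro S (rfl | ⟨c, j, rfl⟩)
    · exact isOpen_empty
    · exact bl_open c j
  · intro a U ha hU
    obtain ⟨ε, hε, hε2⟩ := Metric.isOpen_iff.1 hU a ha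
    obtain ⟨k, hk⟩ := exists_pow_lt_of_lt_one hε (qr_lt_one (p := p))
    refine ⟨bl a k, Or.inr ⟨a, k, rfl⟩, ?_, ?_⟩
    · rw [mem_bl, sub_self, norm_zero]; exact pow_nonneg qr_pos.le _
    · intro x hx
      rw [mem_bl] at hx
      apply hε2
      rw [Metric.mem_ball, dist_eq_norm]
      exact hx.trans_lt hk

theorem self_bl (b : ℚ_[p]) (k : ℕ) : b ∈ bl b k := by
  rw [mem_bl, sub_self, norm_zero]; exact pow_nonneg qr_pos.le _

/-- **Isometries of balls preserve the measure.** -/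
theorem iso_map (φ : ℚ_[p] → ℚ_[p]) (hc : Continuous φ) (b : ℚ_[p]) (k : ℕ)
    (hφ : ∀ v ∈ bl b k, ∀ v' ∈ bl b k, ‖φ v - φ v'‖ = ‖v - v'‖) :
    ((Pool.Agent.Y230.PT.nu p).restrict (bl b k)).map φ =
      (Pool.Agent.Y230.PT.nu p).restrict (bl (φ b) k) := by
  have hbb := self_bl b k
  -- surjectivity
  have hsurj : ∀ y ∈ bl (φ b) k, ∃ t ∈ bl b k, φ t = y := by
    intro y hy
    have : CompactSpace (bl b k) := isCompact_iff_compactSpace.1 (bl_cpt b k)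
    have hmem : ∀ v : bl b k, φ v.1 - y + b ∈ bl b k := by
      intro v
      rw [mem_bl, add_sub_cancel_right]
      have h3 : φ v.1 - y = (φ v.1 - φ b) + (φ b - y) := by ring
      rw [h3]
      refine (Padic.nonarchimedean _ _).trans (max_le ?_ ?_)
      · rw [hφ v.1 v.2 b hbb]
        exact (mem_bl _ _ _).1 v.2
      · rw [← norm_neg, neg_sub]
        exact (mem_bl _ _ _).1 hy
    obtain ⟨⟨t0, htb⟩, ht0⟩ := isom_surj (fun v : bl b k => (⟨φ v.1 - y + b, hmem v⟩ : bl b k)) (by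
      refine Isometry.of_dist_eq fun v v' => ?_
      rw [Subtype.dist_eq, Subtype.dist_eq, dist_eq_norm, dist_eq_norm, add_sub_add_right_eq_sub,
        sub_sub_sub_cancel_right]
      exact hφ v.1 v.2 v'.1 v'.2) ⟨b, hbb⟩
    refine ⟨t0, htb, ?_⟩
    have := congrArg Subtype.val ht0
    simp only [add_eq_right] at this
    exact sub_eq_zero.1 this
  have hmaps : ∀ v ∈ bl b k, φ v ∈ bl (φ b) k := by
    intro v hv
    rw [mem_bl, hφ v hv b hbb]
    exact (mem_bl _ _ _).1 hv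
  have hmφ : Measurable φ := hc.measurable
  have hfin : IsFiniteMeasure ((Pool.Agent.Y230.PT.nu p).restrict (bl b k)) :=
    ⟨by rw [Measure.restrict_apply_univ]; exact lt_top_iff_ne_top.2 (nu_bl_ne_top _ _)⟩
  have hfin' : IsFiniteMeasure (((Pool.Agent.Y230.PT.nu p).restrict (bl b k)).map φ) :=
    Measure.isFiniteMeasure_map _ _
  refine ext_of_generate_finite (Bls p) (by rw [← bls_gen]) bls_pi ?_ ?_
  · rintro S (rfl | ⟨c, j, rfl⟩)
    · simp
    rw [Measure.map_apply hmφ (bl_meas _ _), Measure.restrict_apply (hmφ (bl_meas _ _)),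
      Measure.restrict_apply (bl_meas _ _)]
    by_cases hne : (bl (φ b) k ∩ bl c j).Nonempty
    · obtain ⟨y, hy1, hy2⟩ := hne
      obtain ⟨t, ht, rfl⟩ := hsurj y hy1
      have e1 : bl c j = bl (φ t) j := bl_eq (b := c) (c := φ t) (x := φ t) hy2 (self_bl _ _)
      have e2 : bl (φ b) k = bl (φ t) k := bl_eq (x := φ t) hy1 (self_bl _ _)
      have e3 : bl b k = bl t k := bl_eq (x := t) ht (self_bl _ _)
      have e4 : φ ⁻¹' (bl c j) ∩ bl b k = bl t j ∩ bl t k := by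
        ext v
        rw [Set.mem_inter_iff, Set.mem_inter_iff, Set.mem_preimage, e1, e3]
        constructor
        · rintro ⟨h1, h2⟩
          refine ⟨?_, h2⟩
          rw [mem_bl] at h1 ⊢
          rwa [hφ v (by rw [e3]; exact h2) t ht] at h1
        · rintro ⟨h1, h2⟩
          refine ⟨?_, h2⟩
          rw [mem_bl] at h1 ⊢
          rwa [hφ v (by rw [e3]; exact h2) t ht]
      rw [e4, e2, e1]
      rcases le_total k j with h | h
      · rw [Set.inter_eq_self_of_subset_left (bl_sub h ⟨t, self_bl _ _, self_bl _ _⟩),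
          Set.inter_eq_self_of_subset_left (bl_sub h ⟨φ t, self_bl _ _, self_bl _ _⟩), nu_bl, nu_bl]
      · rw [Set.inter_eq_self_of_subset_right (bl_sub h ⟨t, self_bl _ _, self_bl _ _⟩),
          Set.inter_eq_self_of_subset_right (bl_sub h ⟨φ t, self_bl _ _, self_bl _ _⟩),
          nu_bl, nu_bl]
    · have e1 : bl c j ∩ bl (φ b) k = ∅ := by
        rw [Set.inter_comm]
        exact Set.not_nonempty_iff_eq_empty.1 hne
      have e2 : φ ⁻¹' (bl c j) ∩ bl b k = ∅ := by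
        rw [Set.eq_empty_iff_forall_notMem]
        rintro v ⟨h1, h2⟩
        exact hne ⟨φ v, hmaps v h2, h1⟩
      rw [e1, e2]
  · rw [Measure.map_apply hmφ MeasurableSet.univ, Set.preimage_univ, Measure.restrict_apply_univ,
      Measure.restrict_apply_univ, nu_bl, nu_bl]

theorem iso_int (φ : ℚ_[p] → ℚ_[p]) (hc : Continuous φ) (b : ℚ_[p]) (k : ℕ)
    (hφ : ∀ v ∈ bl b k, ∀ v' ∈ bl b k, ‖φ v - φ v'‖ = ‖v - v'‖) (G : ℚ_[p] → ℂ)
    (hG : Measurable G) : ∫ v in bl b k, G (φ v) ∂(Pool.Agent.Y230.PT.nu p) =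
      ∫ x in bl (φ b) k, G x ∂(Pool.Agent.Y230.PT.nu p) := by
  rw [← iso_map φ hc b k hφ, integral_map hc.measurable.aemeasurable hG.aestronglyMeasurable]

variable {χ : ℚ_[p] → ℂ} {e : ℕ}

theorem II_ball (s : ℝ) (a n : ℕ) {b b' : ℚ_[p]} (k : ℕ) (h : b' ∈ bl b k) :
    II χ s a n b' k = II χ s a n b k := by
  unfold II
  rw [bl_eq (self_bl b' k) h]

/-- close centres -/
theorem II_close (h : IsCh χ e) (s : ℝ) (a n : ℕ) {b b' : ℚ_[p]} (k : ℕ)
    (hb : ‖b' - b‖ ≤ qr p ^ e * ‖b‖) : II χ s a n b' k = II χ s a n b k := by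
  by_cases h1 : ‖b' - b‖ ≤ qr p ^ k
  · exact II_ball s a n k ((mem_bl _ _ _).2 h1)
  · push Not at h1
    have hb0 : b ≠ 0 := by
      rintro rfl
      rw [norm_zero, mul_zero] at hb
      exact absurd (h1.trans_le hb) (not_lt.2 (pow_nonneg qr_pos.le _))
    have h2 : qr p ^ k < qr p ^ e * ‖b‖ := h1.trans_le hb
    have hle : qr p ^ e ≤ 1 := pow_le_one₀ qr_pos.le qr_lt_one.le
    have key : ∀ c : ℚ_[p], c ≠ 0 → qr p ^ k < qr p ^ e * ‖c‖ →
        II χ s a n c k = ww χ s a n c * ((qr p ^ k : ℝ) : ℂ) := by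
      intro c hc hk
      unfold II
      have h3 : ∀ x ∈ bl c k, ww χ s a n x = ww χ s a n c := by
        intro x hx
        rw [mem_bl] at hx
        exact ww_near h s a n hc (hx.trans hk.le)
      rw [setIntegral_congr_fun (bl_meas _ _) h3, setIntegral_const]
      unfold Measure.real
      rw [nu_bl, ENNReal.toReal_pow, toReal_pinv, Complex.real_smul]
      ring
    have hlt : qr p ^ e < 1 := pow_lt_one₀ qr_pos.le qr_lt_one (by have := h.pos; omega)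
    have h4 : ‖b' - b‖ < ‖b‖ := by
      refine lt_of_le_of_lt hb ?_
      calc qr p ^ e * ‖b‖ < 1 * ‖b‖ := mul_lt_mul_of_pos_right hlt (norm_pos_iff.2 hb0)
        _ = ‖b‖ := one_mul _
    have h5 : ‖b'‖ = ‖b‖ := by
      have h6 : b' = (b' - b) + b := by ring
      rw [h6, Padic.add_eq_max_of_ne h4.ne, max_eq_right h4.le]
    have hb0' : b' ≠ 0 := by
      rw [← norm_pos_iff, h5]
      exact norm_pos_iff.2 hb0
    rw [key b' hb0' (by rw [h5]; exact h2), key b hb0 h2, ww_near h s a n hb0 hb]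

/-! ### The integrands -/

/-- the integrand at a node -/
noncomputable def HX (χ : ℚ_[p] → ℂ) (g : A ℚ_[p]) (a0 n0 a1 n1 : ℕ) (s : ℝ)
    (x : ℚ_[p] × ℚ_[p]) : ℂ := NN χ s (ev x g) * (ww χ s a0 n0 x.1 * ww χ s a1 n1 x.2)

theorem okC_HX (h : IsCh χ e) (g : A ℚ_[p]) (a0 n0 a1 n1 : ℕ) : OkC (HX χ g a0 n0 a1 n1) :=
  (okC_NN h _ (ev_cont g)).mul ((okC_ww h (fun x => x.1) continuous_fst a0 n0).mul
    (okC_ww h (fun x => x.2) continuous_snd a1 n1))

theorem ww_add (s : ℝ) (a b n : ℕ) (x : ℚ_[p]) :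
    ww χ s (a + b) n x = NN χ s x ^ b * ww χ s a n x := by
  unfold ww
  rw [pow_add]
  ring

theorem ww_add' (s : ℝ) (a b n k : ℕ) (hn : 1 ≤ n) (hk : 1 ≤ k) (x : ℚ_[p]) :
    ww χ s (a + b) (n + k) x = ((‖x‖ : ℝ) : ℂ) * (ww χ s a n x * ww χ s b k x) := by
  unfold ww
  have h : n + k - 1 = (n - 1) + (k - 1) + 1 := by omega
  rw [h, pow_succ, pow_add, pow_add]
  ring

theorem HX_c1 (h : IsCh χ e) (g g0 : A ℚ_[p]) (m : ℕ)
    (hg : MvPolynomial.aeval (ch 0) g = MvPolynomial.X 0 ^ m * g0)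
    (a0 n0 a1 n1 : ℕ) (hn0 : 1 ≤ n0) (hn1 : 1 ≤ n1) (s : ℝ) (x : ℚ_[p] × ℚ_[p]) :
    G1 (HX χ g a0 n0 a1 n1) s x = HX χ g0 (a0 + a1 + m) (n0 + n1) a1 n1 s x := by
  unfold G1 HX
  rw [ev_c1 x g g0 m hg, NN_mul h, ww_add, ww_add' s a0 a1 n0 n1 hn0 hn1, NN_pow h]
  change ((‖x.1‖ : ℝ) : ℂ) * (_ * (ww χ s a0 n0 x.1 * ww χ s a1 n1 (x.1 * x.2))) = _
  rw [ww_mul h]
  ring

theorem HX_c2 (h : IsCh χ e) (g gI : A ℚ_[p]) (m : ℕ)
    (hg : MvPolynomial.aeval chI g = MvPolynomial.X 1 ^ m * gI)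
    (a0 n0 a1 n1 : ℕ) (hn0 : 1 ≤ n0) (hn1 : 1 ≤ n1) (s : ℝ) (x : ℚ_[p] × ℚ_[p]) :
    G2 (HX χ g a0 n0 a1 n1) s x = HX χ gI a0 n0 (a0 + a1 + m) (n0 + n1) s x := by
  unfold G2 HX
  rw [ev_c2 x g gI m hg, NN_mul h, ww_add, ww_add' s a0 a1 n0 n1 hn0 hn1, NN_pow h]
  change ((‖x.2‖ : ℝ) : ℂ) * (_ * (ww χ s a0 n0 (x.1 * x.2) * ww χ s a1 n1 x.2)) = _
  rw [ww_mul h]
  ring

theorem monC_c1 (h : IsCh χ e) (γ : ℚ_[p]) (a0 n0 a1 n1 : ℕ) (hn0 : 1 ≤ n0) (hn1 : 1 ≤ n1)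
    (s : ℝ) (x : ℚ_[p] × ℚ_[p]) :
    G1 (monC χ γ a0 n0 a1 n1) s x = monC χ γ (a0 + a1) (n0 + n1) a1 n1 s x := by
  unfold G1 monC
  rw [ww_add' s a0 a1 n0 n1 hn0 hn1]
  change ((‖x.1‖ : ℝ) : ℂ) * (_ * (ww χ s a0 n0 x.1 * ww χ s a1 n1 (x.1 * x.2))) = _
  rw [ww_mul h]
  ring

theorem monC_c2 (h : IsCh χ e) (γ : ℚ_[p]) (a0 n0 a1 n1 : ℕ) (hn0 : 1 ≤ n0) (hn1 : 1 ≤ n1)
    (s : ℝ) (x : ℚ_[p] × ℚ_[p]) :
    G2 (monC χ γ a0 n0 a1 n1) s x = monC χ γ a0 n0 (a0 + a1) (n0 + n1) s x := by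
  unfold G2 monC
  rw [ww_add' s a0 a1 n0 n1 hn0 hn1]
  change ((‖x.2‖ : ℝ) : ℂ) * (_ * (ww χ s a0 n0 (x.1 * x.2) * ww χ s a1 n1 x.2)) = _
  rw [ww_mul h]
  ring

/-- near a value different from `0` -/
theorem near_const {X : Type} [TopologicalSpace X] (f : X → ℚ_[p]) (hf : Continuous f)
    (x0 : X) (h : f x0 ≠ 0) (e : ℕ) : ∃ U, IsOpen U ∧ x0 ∈ U ∧
      ∀ x ∈ U, ‖f x - f x0‖ ≤ qr p ^ e * ‖f x0‖ := by
  have h1 : 0 < qr p ^ e * ‖f x0‖ := mul_pos (pow_pos qr_pos e) (norm_pos_iff.2 h)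
  refine ⟨f ⁻¹' Metric.ball (f x0) (qr p ^ e * ‖f x0‖), Metric.isOpen_ball.preimage hf,
    Metric.mem_ball_self h1, fun x hx => ?_⟩
  rw [Set.mem_preimage, Metric.mem_ball, dist_eq_norm] at hx
  exact hx.le

/-- translation to a point of the exceptional curve -/
theorem HX_shift (h : IsCh χ e) (g0 gc : A ℚ_[p]) (c : ℚ_[p]) (hc : c ≠ 0)
    (hg : gc = MvPolynomial.aeval ![MvPolynomial.X 0, MvPolynomial.X 1 +
      MvPolynomial.C c] g0) (a n a1 n1 : ℕ) (s : ℝ) (x : ℚ_[p] × ℚ_[p])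
    (hx : ‖(c + x.2) - c‖ ≤ qr p ^ e * ‖c‖) :
    HX χ g0 a n a1 n1 s (x.1, c + x.2) = ww χ s a1 n1 c * HX χ gc a n 0 1 s x := by
  unfold HX
  have h1 : ev (x.1, c + x.2) g0 = ev x gc := by
    rw [hg, ev_shift]
  rw [h1, ww01]
  simp only
  rw [ww_near h s a1 n1 hc hx]
  ring

end Pool.Agent.T6.H26.PX
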