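import Pool.Agent.T6.H26.PXC
import Pool.Agent.Y230.PT.Node

set_option autoImplicit false
set_option linter.unusedSectionVars false
set_option linter.unusedVariables false

/-! # The leaves -/

namespace Pool.Agent.T6.H26.PX

open MeasureTheory Set Pool.Agent.W427.SMC Pool.Agent.Y230.PT
open scoped ENNReal
open Pool.Agent.Y230.RE

variable {p : ℕ} [Fact p.Prime]

attribute [local instance] msK bsK

variable {χ : ℚ_[p] → ℂ} {e : ℕ} {T0 : ℂ}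

/-- the order of a polynomial -/
def Is1 (P : Polynomial ℚ_[p]) (ρ : ℕ) : Prop := (∀ i < ρ, P.coeff i = 0) ∧ P.coeff ρ ≠ 0

theorem Is1.unique {P : Polynomial ℚ_[p]} {ρ ρ' : ℕ} (h1 : Is1 P ρ) (h2 : Is1 P ρ') : ρ = ρ' := by
  rcases lt_trichotomy ρ ρ' with h | h | h
  · exact absurd (h2.1 ρ h) h1.2
  · exact h
  · exact absurd (h1.1 ρ' h) h2.2

/-- the integral over a box near a smooth curve -/
theorem curve_boxC (hχ : IsCh χ e) (h : A ℚ_[p]) {s : ℝ} (hs : 0 ≤ s) (a0 n0 m : ℕ) (ε : ℝ)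
    (κ : ℕ)
    (hv : ∀ u v v' : ℚ_[p], ‖u‖ < ε → ‖v‖ < ε → ‖v'‖ < ε →
        ‖ev (u, v) h - ev (u, v') h‖ = ‖v - v'‖)
    (hu : ∀ u u' v : ℚ_[p], ‖u‖ < ε → ‖u'‖ < ε → ‖v‖ < ε →
        ‖ev (u, v) h - ev (u', v) h‖ * qr p ^ κ ≤ ‖u - u'‖) (y : ℚ_[p] × ℚ_[p]) (k : ℕ)
    (hy : bx κ y k ⊆ Metric.ball 0 ε ×ˢ Metric.ball 0 ε) :
    ∫ x in bx κ y k, ww χ s a0 n0 x.1 * ww χ s m 1 (ev x h) ∂(nu2 p) =
      II χ s a0 n0 y.1 (k + κ) * II χ s m 1 (ev y h) k := by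
  have hyy := hy (self_mem_bx κ y k)
  have hmem : ∀ u ∈ bl y.1 (k + κ), ∀ v ∈ bl y.2 k, ‖u‖ < ε ∧ ‖v‖ < ε := by
    intro u hu v hv
    have := hy (show (u, v) ∈ bx κ y k from ⟨hu, hv⟩)
    rw [Set.mem_prod, Metric.mem_ball, Metric.mem_ball, dist_zero_right, dist_zero_right] at this
    exact this
  have hy1 : y.1 ∈ bl y.1 (k + κ) := self_bl _ _
  have hy2 : y.2 ∈ bl y.2 k := self_bl _ _
  have hint : IntegrableOn (fun x : ℚ_[p] × ℚ_[p] => ww χ s a0 n0 x.1 * ww χ s m 1 (ev x h))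
      (bl y.1 (k + κ) ×ˢ bl y.2 k) ((Pool.Agent.Y230.PT.nu p).prod (Pool.Agent.Y230.PT.nu p)) :=
    ((okC_ww hχ (fun x => x.1) continuous_fst a0 n0).mul
      (okC_ww hχ (fun x => ev x h) (ev_cont h) m 1)).int (CO_bx κ y k) hs
  rw [bx, nu2, setIntegral_prod _ hint]
  have h1 : ∀ u ∈ bl y.1 (k + κ),
      ∫ v in bl y.2 k, ww χ s a0 n0 u * ww χ s m 1 (ev (u, v) h) ∂(Pool.Agent.Y230.PT.nu p) =
      ww χ s a0 n0 u * II χ s m 1 (ev y h) k := by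
    intro u hu'
    rw [integral_const_mul]
    congr 1
    have hcu : Continuous (fun v : ℚ_[p] => ev (u, v) h) := (ev_cont h).comp (by fun_prop)
    rw [iso_int (fun v => ev (u, v) h) hcu y.2 k (fun v hv1 v' hv2 =>
      hv u v v' (hmem u hu' v hv1).1 (hmem u hu' v hv1).2 (hmem u hu' v' hv2).2)
      (ww χ s m 1) (ww_meas hχ s m 1)]
    refine II_ball s m 1 k ?_
    rw [mem_bl]
    have h2 := hu u y.1 y.2 (hmem u hu' _ hy2).1 (hmem _ hy1 _ hy2).1 (hmem _ hy1 _ hy2).2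
    have h3 := (mem_bl _ _ _).1 hu'
    rw [pow_add] at h3
    exact le_of_mul_le_mul_right (h2.trans h3) (pow_pos qr_pos κ)
  rw [setIntegral_congr_fun (bl_meas _ _) h1, integral_mul_const]
  rfl

theorem HX_unit (hχ : IsCh χ e) (g : A ℚ_[p]) (hj : MvPolynomial.constantCoeff g ≠ 0)
    (a0 n0 a1 n1 : ℕ) : ∃ U, IsOpen U ∧ ((0, 0) : ℚ_[p] × ℚ_[p]) ∈ U ∧ ∀ C, CO C → C ⊆ U →
      ∀ s : ℝ, 0 ≤ s → ZX (HX χ g a0 n0 a1 n1) C s =
        ZX (monC χ (MvPolynomial.constantCoeff g) a0 n0 a1 n1) C s := by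
  have h0 : ev (0, 0) g ≠ 0 := by rw [ev_zero]; exact hj
  obtain ⟨U, hU, h0U, hU2⟩ := near_const (fun x => ev x g) (ev_cont g) (0, 0) h0 e
  refine ⟨U, hU, h0U, fun C hC hCU s hs => ZX_congr hC fun x hx => ?_⟩
  unfold HX monC
  rw [NN_near hχ s h0 (hU2 x (hCU hx)), ev_zero]

/-- near a point of `u = 0` other than the origin -/
theorem monC_lreg (hχ : IsCh χ e) (hT0 : T0 ≠ 0) (γ : ℚ_[p]) {a0 n0 a1 n1 : ℕ}
    (hn0 : 1 ≤ n0) (h0 : ¬ CritX χ T0 a0 n0) (c : ℚ_[p]) (hc : c ≠ 0) :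
    LReg T0 0 (ZX (monC χ γ a0 n0 a1 n1)) (0, c) := by
  obtain ⟨U, hU, hcU, hU2⟩ := near_const (fun x : ℚ_[p] × ℚ_[p] => x.2) continuous_snd (0, c) hc e
  refine (LReg.mul (c := fun s => ww χ s a1 n1 c) (LReg.of_all (0, c) (fun C hC =>
    regC_mon hχ hT0 γ a0 n0 0 1 hn0 le_rfl h0 not_critX01 C hC))
    (reg_ww hχ hT0 a1 n1 c)).congr hU hcU ?_
  intro C hC hCU s hs
  unfold ZX
  rw [← integral_const_mul]
  refine setIntegral_congr_fun hC.meas fun x hx => ?_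
  beta_reduce
  unfold monC
  rw [ww01, ww_near hχ s a1 n1 hc (hU2 x (hCU hx))]
  ring

theorem HX_curve (hχ : IsCh χ e) (g : A ℚ_[p]) (m : ℕ) (h : A ℚ_[p]) (k : A ℚ_[p])
    (hg : g = h ^ m * k) (h0 : MvPolynomial.constantCoeff h = 0)
    (h1 : MvPolynomial.constantCoeff (MvPolynomial.pderiv 1 h) ≠ 0)
    (hj : MvPolynomial.constantCoeff k ≠ 0) (a0 n0 : ℕ) :
    ∃ (κ : ℕ) (U : Set (ℚ_[p] × ℚ_[p])) (B : ℚ_[p] × ℚ_[p] → ℚ_[p]), IsOpen U ∧ (0, 0) ∈ U ∧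
      Is1 (r0 g) m ∧
      ∀ y l, bx κ y l ⊆ U → (∀ s : ℝ, 0 ≤ s → ZX (HX χ g a0 n0 0 1) (bx κ y l) s =
        NN χ s ((r0 g).coeff m) * (II χ s a0 n0 y.1 (l + κ) * II χ s m 1 (B y) l)) ∧
        (‖y.1‖ ≤ qr p ^ (l + κ) → ∀ s : ℝ, II χ s m 1 (B y) l = II χ s m 1 y.2 l) := by
  set δ := MvPolynomial.constantCoeff (MvPolynomial.pderiv 1 h) with hδ
  set h' : A ℚ_[p] := MvPolynomial.C δ⁻¹ * h with hh'
  set k' : A ℚ_[p] := MvPolynomial.C (δ ^ m) * k with hk'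
  have hg' : g = h' ^ m * k' := by
    rw [hg, hh', hk', mul_pow, ← map_pow]
    have : (MvPolynomial.C (δ⁻¹ ^ m) : A ℚ_[p]) * MvPolynomial.C (δ ^ m) = 1 := by
      rw [← map_mul, inv_pow, inv_mul_cancel₀ (pow_ne_zero _ h1), map_one]
    linear_combination (-(h ^ m * k)) * this
  have h0' : MvPolynomial.constantCoeff h' = 0 := by rw [hh', map_mul, h0, mul_zero]
  have h1' : MvPolynomial.constantCoeff (MvPolynomial.pderiv 1 h') = 1 := by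
    rw [hh', MvPolynomial.pderiv_C_mul, map_mul, MvPolynomial.constantCoeff_C, ← hδ,
      inv_mul_cancel₀ h1]
  have hj' : MvPolynomial.constantCoeff k' ≠ 0 := by
    rw [hk', map_mul, MvPolynomial.constantCoeff_C]
    exact mul_ne_zero (pow_ne_zero _ h1) hj
  obtain ⟨q, hq⟩ : Polynomial.X ∣ r0 h' := by
    rw [Polynomial.X_dvd_iff, r0_coeff, ← cc_eq, h0']
  have hq0 : q.coeff 0 = 1 := by
    have h2 := r0_pderiv h'
    rw [h1', hq] at h2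
    have h3 := Polynomial.coeff_X_mul q 0
    rw [zero_add] at h3
    rw [← h3, h2]
  have hres : r0 g = (Polynomial.X * q) ^ m * r0 k' := by
    rw [hg', map_mul, map_pow, hq]
  have hcm : (r0 g).coeff m = ev (0, 0) k' := by
    rw [hres, (pow_coeff q _ m).2, hq0, one_pow, one_mul, ev_zero, r0_coeff, cc_eq]
  have hIsO : Is1 (r0 g) m := by
    refine ⟨fun d hd => ?_, ?_⟩
    · rw [hres]
      exact (pow_coeff q _ m).1 d hd
    · rw [hcm, ev_zero]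
      exact hj'
  have hk0 : ev (0, 0) k' ≠ 0 := by rw [ev_zero]; exact hj'
  obtain ⟨U1, hU1, h0U1, hU12⟩ := near_const (fun x => ev x k') (ev_cont k') (0, 0) hk0 e
  obtain ⟨ε, κ, hε, hv, hu⟩ := curve_local h' h1'
  obtain ⟨Q, hQ1, hQ2, hQ3⟩ := exists_dq1 h'
  have hQ0 : Q (0, 0, 0) = 1 := by rw [hQ3, ev_zero, h1']
  obtain ⟨V, hV, h0V, hV2⟩ := near_const (fun v : ℚ_[p] => Q (0, v, 0)) (hQ1.comp (by fun_prop)) 0
    (by rw [hQ0]; exact one_ne_zero) e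
  refine ⟨κ, (U1 ∩ (Metric.ball 0 ε ×ˢ Metric.ball 0 ε)) ∩ (Prod.snd ⁻¹' V), fun y => ev y h',
    (hU1.inter (Metric.isOpen_ball.prod Metric.isOpen_ball)).inter (hV.preimage continuous_snd),
    ⟨⟨h0U1, ⟨Metric.mem_ball_self hε, Metric.mem_ball_self hε⟩⟩, h0V⟩, hIsO,
    fun y l hy => ⟨?_, ?_⟩⟩
  · intro s hs
    have h2 : ∀ x ∈ bx κ y l, HX χ g a0 n0 0 1 s x = NN χ s ((r0 g).coeff m) *
        (ww χ s a0 n0 x.1 * ww χ s m 1 (ev x h')) := by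
      intro x hx
      unfold HX
      have h3 : ev x g = ev x h' ^ m * ev x k' := by
        rw [hg', map_mul, map_pow]
      rw [h3, NN_mul hχ, NN_near hχ s hk0 (hU12 x (hy hx).1.1), ww01, hcm]
      have h5 : ww χ s m 1 (ev x h') = NN χ s (ev x h' ^ m) := by
        rw [ww, NN_pow hχ, Nat.sub_self, pow_zero, mul_one]
      rw [h5]
      ring
    unfold ZX
    rw [setIntegral_congr_fun (CO_bx κ y l).meas h2, integral_const_mul,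
      curve_boxC hχ h' hs a0 n0 m ε κ hv hu y l
        (hy.trans (Set.inter_subset_left.trans Set.inter_subset_right))]
  · intro hy1 s
    have hmem : ∀ x ∈ bx κ y l, ‖x.1‖ < ε ∧ ‖x.2‖ < ε := by
      intro x hx
      have := (hy hx).1.2
      rw [Set.mem_prod, Metric.mem_ball, Metric.mem_ball, dist_zero_right, dist_zero_right] at this
      exact this
    have hyB := hmem y (self_mem_bx κ y l)
    have h0B : ‖(0 : ℚ_[p])‖ < ε := by rw [norm_zero]; exact hε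
    have h2 := hu y.1 0 y.2 hyB.1 h0B hyB.2
    rw [sub_zero] at h2
    have h3 : ‖ev y h' - ev (0, y.2) h'‖ ≤ qr p ^ l := by
      rw [pow_add] at hy1
      exact le_of_mul_le_mul_right (h2.trans hy1) (pow_pos qr_pos κ)
    rw [II_ball s m 1 l (b := ev (0, y.2) h') (b' := ev y h') (by rw [mem_bl]; exact h3)]
    refine II_close hχ s m 1 l ?_
    have h4 := hQ2 0 y.2 0
    rw [ev_zero, h0', sub_zero, sub_zero] at h4
    have h5 := hV2 y.2 (hy (self_mem_bx κ y l)).2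
    rw [hQ0, norm_one, mul_one] at h5
    have h6 : ev (0, y.2) h' - y.2 = y.2 * (Q (0, y.2, 0) - 1) := by
      rw [h4]; ring
    rw [h6, norm_mul, mul_comm]
    exact mul_le_mul_of_nonneg_right h5 (norm_nonneg _)

/-! ### Regularity with corrections -/

/-- regularity with the corrections -/
def CX (χ : ℚ_[p] → ℂ) (T0 : ℂ) (g : A ℚ_[p]) (a0 n0 a1 n1 : ℕ) : Prop :=
  ∀ ρ0 ρ1 : ℕ, (CritX χ T0 a0 n0 → Is1 (r0 g) ρ0) → (CritX χ T0 a1 n1 → Is1 (r1 g) ρ1) →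
    LReg T0 0 (fun C s => ZX (HX χ g a0 n0 a1 n1) C s
      - crr (CritX χ T0 a0 n0) (ZX (monC χ ((r0 g).coeff ρ0) a0 n0 (a1 + ρ0) n1)) C s
      - crr (CritX χ T0 a1 n1) (ZX (monC χ ((r1 g).coeff ρ1) (a0 + ρ1) n0 a1 n1)) C s)
      (0, 0)

theorem HX_sw (g : A ℚ_[p]) (a0 n0 a1 n1 : ℕ) (s : ℝ) (x : ℚ_[p] × ℚ_[p]) :
    HX χ (sw g) a1 n1 a0 n0 s x = HX χ g a0 n0 a1 n1 s x.swap := by
  unfold HX
  rw [ev_sw, mul_comm (ww χ s a1 n1 x.1)]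
  rfl

theorem monC_sw (γ : ℚ_[p]) (a0 n0 a1 n1 : ℕ) (s : ℝ) (x : ℚ_[p] × ℚ_[p]) :
    monC χ γ a1 n1 a0 n0 s x = monC χ γ a0 n0 a1 n1 s x.swap := by
  unfold monC
  rw [mul_comm (ww χ s a1 n1 x.1)]
  rfl

theorem ZX_HX_sw (g : A ℚ_[p]) (a0 n0 a1 n1 : ℕ) (C : Set (ℚ_[p] × ℚ_[p])) (s : ℝ) :
    ZX (HX χ g a0 n0 a1 n1) C s = ZX (HX χ (sw g) a1 n1 a0 n0) (Prod.swap ⁻¹' C) s := by
  rw [ZX_swap]
  unfold ZX
  simp only [HX_sw]

theorem ZX_monC_sw (γ : ℚ_[p]) (a0 n0 a1 n1 : ℕ) (C : Set (ℚ_[p] × ℚ_[p])) (s : ℝ) :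
    ZX (monC χ γ a0 n0 a1 n1) C s = ZX (monC χ γ a1 n1 a0 n0) (Prod.swap ⁻¹' C) s := by
  rw [ZX_swap]
  unfold ZX
  have : ∀ x, monC χ γ a1 n1 a0 n0 s x = monC χ γ a0 n0 a1 n1 s x.swap :=
    monC_sw γ a0 n0 a1 n1 s
  simp only [this]

theorem CX.swap {g : A ℚ_[p]} {a0 n0 a1 n1 : ℕ} (h : CX χ T0 (sw g) a1 n1 a0 n0) :
    CX χ T0 g a0 n0 a1 n1 := by
  intro ρ0 ρ1 h0 h1
  have h2 := h ρ1 ρ0 (by simpa only [r0_sw] using h1) (by simpa only [r1_sw] using h0)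
  refine lreg_swap (x := (0, 0)) ?_ h2
  intro C hC s hs
  simp only [r0_sw, r1_sw]
  rw [ZX_HX_sw]
  have e0 : crr (CritX χ T0 a0 n0) (ZX (monC χ ((r0 g).coeff ρ0) a0 n0 (a1 + ρ0) n1)) C s =
      crr (CritX χ T0 a0 n0) (ZX (monC χ ((r0 g).coeff ρ0) (a1 + ρ0) n1 a0 n0))
        (Prod.swap ⁻¹' C) s := by
    by_cases hc : CritX χ T0 a0 n0
    · rw [crr_true hc, crr_true hc, ZX_monC_sw]
    · rw [crr_false hc, crr_false hc]
  have e1 : crr (CritX χ T0 a1 n1) (ZX (monC χ ((r1 g).coeff ρ1) (a0 + ρ1) n0 a1 n1)) C s =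
      crr (CritX χ T0 a1 n1) (ZX (monC χ ((r1 g).coeff ρ1) a1 n1 (a0 + ρ1) n0))
        (Prod.swap ⁻¹' C) s := by
    by_cases hc : CritX χ T0 a1 n1
    · rw [crr_true hc, crr_true hc, ZX_monC_sw]
    · rw [crr_false hc, crr_false hc]
  rw [e0, e1]
  ring

theorem CX_unit (hχ : IsCh χ e) (hT0 : T0 ≠ 0) (g : A ℚ_[p])
    (hj : MvPolynomial.constantCoeff g ≠ 0) {a0 n0 a1 n1 : ℕ} (hn0 : 1 ≤ n0) (hn1 : 1 ≤ n1)
    (hcr : ¬ (CritX χ T0 a0 n0 ∧ CritX χ T0 a1 n1)) : CX χ T0 g a0 n0 a1 n1 := by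
  intro ρ0 ρ1 h0 h1
  obtain ⟨U, hU, h0U, hU2⟩ := HX_unit hχ g hj a0 n0 a1 n1
  have hr0 : Is1 (r0 g) 0 := ⟨fun k hk => absurd hk (Nat.not_lt_zero k), by
    rw [r0_coeff, ← cc_eq]; exact hj⟩
  have hr1 : Is1 (r1 g) 0 := ⟨fun k hk => absurd hk (Nat.not_lt_zero k), by
    rw [r1_coeff, ← cc_eq]; exact hj⟩
  by_cases hc0 : CritX χ T0 a0 n0
  · have hc1 : ¬ CritX χ T0 a1 n1 := fun h => hcr ⟨hc0, h⟩
    have hρ : ρ0 = 0 := (h0 hc0).unique hr0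
    subst hρ
    refine LReg.zero.congr hU h0U fun C hC hCU s hs => ?_
    rw [crr_true hc0, crr_false hc1, hU2 C hC hCU s hs, add_zero, sub_zero]
    simp only [r0_coeff, ← cc_eq, sub_self]
  · by_cases hc1 : CritX χ T0 a1 n1
    · have hρ : ρ1 = 0 := (h1 hc1).unique hr1
      subst hρ
      refine LReg.zero.congr hU h0U fun C hC hCU s hs => ?_
      rw [crr_true hc1, crr_false hc0, hU2 C hC hCU s hs, add_zero, sub_zero]
      simp only [r1_coeff, ← cc_eq, sub_self]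
    · refine (LReg.of_all (0, 0) (fun C hC => regC_mon hχ hT0
        (MvPolynomial.constantCoeff g) a0 n0 a1 n1 hn0 hn1 hc0 hc1 C hC)).congr hU h0U
        fun C hC hCU s hs => ?_
      rw [crr_false hc0, crr_false hc1, hU2 C hC hCU s hs, sub_zero, sub_zero]

theorem CX_curveV (hχ : IsCh χ e) (hT0 : T0 ≠ 0) (g : A ℚ_[p]) (m : ℕ) (h : A ℚ_[p])
    (k : A ℚ_[p]) (hg : g = h ^ m * k) (h0 : MvPolynomial.constantCoeff h = 0)
    (h1 : MvPolynomial.constantCoeff (MvPolynomial.pderiv 1 h) ≠ 0)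
    (hj : MvPolynomial.constantCoeff k ≠ 0) {a0 n0 : ℕ} (hn0 : 1 ≤ n0)
    (hcr : ¬ CritX χ T0 m 1) : CX χ T0 g a0 n0 0 1 := by
  intro ρ0 ρ1 hρ0 hρ1
  obtain ⟨κ, U, B, hU, h0U, hO, hbox⟩ := HX_curve hχ g m h k hg h0 h1 hj a0 n0
  have hreg : Reg p T0 0 (fun s => NN χ s ((r0 g).coeff m)) := reg_NN hχ hT0 _
  refine LReg.of_boxes ?_ κ hU h0U fun y l hy => ?_
  · exact ((addF_ZX (okC_HX hχ _ _ _ _ _)).sub ((addF_ZX (okC_mon hχ _ _ _ _ _)).crr _)).sub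
      ((addF_ZX (okC_mon hχ _ _ _ _ _)).crr _)
  rw [crr_false not_critX01]
  by_cases hc0 : CritX χ T0 a0 n0
  · have hρ : ρ0 = m := (hρ0 hc0).unique hO
    subst hρ
    rw [crr_true hc0]
    have hM : ∀ s : ℝ, 0 ≤ s → ZX (monC χ ((r0 g).coeff ρ0) a0 n0 (0 + ρ0) 1) (bx κ y l) s =
        NN χ s ((r0 g).coeff ρ0) * (II χ s a0 n0 y.1 (l + κ) * II χ s ρ0 1 y.2 l) := by
      intro s hs
      rw [zero_add]
      exact monC_box _ a0 n0 ρ0 1 κ y l s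
    by_cases hy1 : ‖y.1‖ ≤ qr p ^ (l + κ)
    · refine Reg.zero.congr fun s hs => ?_
      rw [(hbox y l hy).1 s hs, hM s hs, (hbox y l hy).2 hy1 s, sub_self, sub_zero]
    · have hfar := reg_II_far hχ (T0 := T0) hT0 a0 n0 y.1 (l + κ) (not_le.1 hy1)
      refine ((hreg.mul0 (hfar.mul0 (reg_II hχ hT0 ρ0 1 le_rfl hcr (B y) l))).sub
        (hreg.mul0 (hfar.mul0 (reg_II hχ hT0 ρ0 1 le_rfl hcr y.2 l)))).congr fun s hs => ?_
      rw [(hbox y l hy).1 s hs, hM s hs, sub_zero]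
  · rw [crr_false hc0]
    refine (hreg.mul0 ((reg_II hχ hT0 a0 n0 hn0 hc0 y.1 (l + κ)).mul0
      (reg_II hχ hT0 m 1 le_rfl hcr (B y) l))).congr fun s hs => ?_
    rw [(hbox y l hy).1 s hs, sub_zero, sub_zero]

theorem CX_curveU (hχ : IsCh χ e) (hT0 : T0 ≠ 0) (g : A ℚ_[p]) (m : ℕ) (h : A ℚ_[p])
    (k : A ℚ_[p]) (hg : g = h ^ m * k) (h0 : MvPolynomial.constantCoeff h = 0)
    (h1 : MvPolynomial.constantCoeff (MvPolynomial.pderiv 0 h) ≠ 0)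
    (hj : MvPolynomial.constantCoeff k ≠ 0) {a1 n1 : ℕ} (hn1 : 1 ≤ n1)
    (hcr : ¬ CritX χ T0 m 1) : CX χ T0 g 0 1 a1 n1 := by
  refine CX.swap (CX_curveV hχ hT0 (sw g) m (sw h) (sw k) ?_ ?_ ?_ ?_ hn1 hcr)
  · rw [hg, map_mul, map_pow]
  · rw [cc_sw, h0]
  · rw [pderiv_sw, cc_sw]; exact h1
  · rw [cc_sw]; exact hj

/-- passing to a point of the exceptional curve -/
theorem lreg_chartC (hχ : IsCh χ e) (hT0 : T0 ≠ 0) (c : ℚ_[p]) (hc : c ≠ 0) (a1 n1 : ℕ)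
    (H H' G G' : ℝ → ℚ_[p] × ℚ_[p] → ℂ) (hH : OkC H) (hG : OkC G) (δ : Prop)
    {V : Set (ℚ_[p] × ℚ_[p])} (hV : IsOpen V) (h0V : (0, 0) ∈ V)
    (h1 : ∀ x ∈ V, ∀ s : ℝ, 0 ≤ s → H s (x.1, c + x.2) = ww χ s a1 n1 c * H' s x)
    (h2 : δ → ∀ x ∈ V, ∀ s : ℝ, 0 ≤ s → G s (x.1, c + x.2) = ww χ s a1 n1 c * G' s x)
    (h : LReg T0 0 (fun C s => ZX H' C s - crr δ (ZX G') C s) (0, 0)) :
    LReg T0 0 (fun C s => ZX H C s - crr δ (ZX G) C s) (0, c) := by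
  have h3 : LReg T0 0 (fun C s => ZX (fun s x => H s (x.1, c + x.2)) C s -
      crr δ (ZX (fun s x => G s (x.1, c + x.2))) C s) (0, 0) := by
    refine (h.mul (reg_ww hχ hT0 a1 n1 c)).congr hV h0V fun C hC hCV s hs => ?_
    have hmul : ∀ (F F' : ℝ → ℚ_[p] × ℚ_[p] → ℂ),
        (∀ x ∈ V, ∀ s : ℝ, 0 ≤ s → F s (x.1, c + x.2) = ww χ s a1 n1 c * F' s x) →
        ww χ s a1 n1 c * ZX F' C s = ZX (fun s x => F s (x.1, c + x.2)) C s := by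
      intro F F' hF
      unfold ZX
      rw [← integral_const_mul]
      exact setIntegral_congr_fun hC.meas fun x hx => (hF x (hCV hx) s hs).symm
    by_cases hδ : δ
    · rw [crr_true hδ, crr_true hδ, mul_sub, hmul H H' h1, hmul G G' (h2 hδ)]
    · rw [crr_false hδ, crr_false hδ, sub_zero, sub_zero, hmul H H' h1]
  have h4 := LReg.homeo (F := fun C s => ZX H C s - crr δ (ZX G) C s) (shV (fun _ => c)
    continuous_const) (fun C hC s hs => ?_) h3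
  · have h5 : (shV (fun _ : ℚ_[p] => c) continuous_const) ((0, 0) : ℚ_[p] × ℚ_[p]) = (0, c) := by
      change ((0 : ℚ_[p]), c + 0) = (0, c)
      rw [add_zero]
    rwa [h5] at h4
  · have e1 := ZX_shearV H hH (fun _ => c) continuous_const hC hs
    by_cases hδ : δ
    · have e2 := ZX_shearV G hG (fun _ => c) continuous_const hC hs
      rw [crr_true hδ, crr_true hδ, e1, e2]
      rfl
    · rw [crr_false hδ, crr_false hδ, e1]
      rfl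

end Pool.Agent.T6.H26.PX
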