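import Pool.Agent.T6.H26.PXD
import Pool.Agent.Y230.PT.Lines

set_option autoImplicit false
set_option linter.unusedSectionVars false
set_option linter.unusedVariables false

/-! # The global model at a critical exceptional curve -/

namespace Pool.Agent.T6.H26.PX

open MeasureTheory Set Pool.Agent.W427.SMC Pool.Agent.Y230.PT
open scoped ENNReal
open Pool.Agent.Y230.RE

variable {p : ℕ} [Fact p.Prime]

attribute [local instance] msK bsK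

variable {χ : ℚ_[p] → ℂ} {e : ℕ} {T0 : ℂ}

/-- two linear forms -/
noncomputable def LfX (χ : ℚ_[p] → ℂ) (β : ℚ_[p]) (a0 n0 a1 n1 : ℕ)
    (l0 l1 : ℚ_[p] × ℚ_[p] → ℚ_[p]) (s : ℝ) (x : ℚ_[p] × ℚ_[p]) : ℂ :=
  NN χ s β * (ww χ s a0 n0 (l0 x) * ww χ s a1 n1 (l1 x))

theorem ok_LfX (hχ : IsCh χ e) (β : ℚ_[p]) (a0 n0 a1 n1 : ℕ) (l0 l1 : ℚ_[p] × ℚ_[p] → ℚ_[p])
    (h0 : Continuous l0) (h1 : Continuous l1) : OkC (LfX χ β a0 n0 a1 n1 l0 l1) :=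
  (okC_const fun s => NN χ s β).mul ((okC_ww hχ l0 h0 a0 n0).mul (okC_ww hχ l1 h1 a1 n1))

/-- `x` and `y - c x` -/
theorem LfX_xc (hχ : IsCh χ e) (hT0 : T0 ≠ 0) (β : ℚ_[p]) {a0 n0 a1 n1 : ℕ} (hn0 : 1 ≤ n0)
    (hn1 : 1 ≤ n1) (h0 : ¬ CritX χ T0 a0 n0) (h1 : ¬ CritX χ T0 a1 n1) (c : ℚ_[p])
    {C : Set (ℚ_[p] × ℚ_[p])} (hC : CO C) :
    Reg p T0 0 (ZX (LfX χ β a0 n0 a1 n1 (fun x => x.1) (fun x => x.2 - c * x.1)) C) := by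
  have hf : Continuous (fun x : ℚ_[p] => c * x) := by fun_prop
  refine (regC_mon hχ hT0 β a0 n0 a1 n1 hn0 hn1 h0 h1 _
    (hC.preimage (shV (fun x => c * x) hf))).congr fun s hs => ?_
  rw [ZX_shearV _ (ok_LfX hχ _ _ _ _ _ _ _ (by fun_prop) (by fun_prop)) (fun x => c * x) hf hC hs]
  change ZX _ ((fun x : ℚ_[p] × ℚ_[p] => (x.1, c * x.1 + x.2)) ⁻¹' C) s = _
  unfold ZX
  congr 1
  funext x
  unfold monC LfX
  simp only [add_sub_cancel_left]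

/-- the affine maps in the first variable -/
theorem ZX_shearU (H : ℝ → ℚ_[p] × ℚ_[p] → ℂ) (hH : OkC H) (α : ℚ_[p]) (hα : α ≠ 0)
    (f : ℚ_[p] → ℚ_[p]) (hf : Continuous f) {C : Set (ℚ_[p] × ℚ_[p])} (hC : CO C) {s : ℝ}
    (hs : 0 ≤ s) :
    ZX H C s = ((‖α‖ : ℝ) : ℂ) * ZX (fun s x => H s (f x.2 + α * x.1, x.2))
      ((fun x => (f x.2 + α * x.1, x.2)) ⁻¹' C) s := by
  have hcont : Continuous (fun x : ℚ_[p] × ℚ_[p] => ((f x.2 + α * x.1, x.2) : ℚ_[p] × ℚ_[p])) := by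
    fun_prop
  have hm : MeasurableSet ((fun x : ℚ_[p] × ℚ_[p] =>
    ((f x.2 + α * x.1, x.2) : ℚ_[p] × ℚ_[p])) ⁻¹' C) := hC.meas.preimage hcont.measurable
  have h0 : nu2 p = (N p 1 α) • (nu2 p).map (fun x => (f x.2 + α * x.1, x.2)) := by
    refine Measure.ext_of_lintegral _ fun Φ hΦ => ?_
    have m1 : Measurable (fun x : ℚ_[p] × ℚ_[p] => Φ (f x.2 + α * x.1, x.2)) :=
      hΦ.comp hcont.measurable
    rw [lintegral_smul_measure, lintegral_map hΦ hcont.measurable, nu2,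
      lintegral_prod_symm _ hΦ.aemeasurable,
      lintegral_prod_symm _ m1.aemeasurable, smul_eq_mul,
      ← lintegral_const_mul' _ _ (N_ne_top _ _)]
    refine lintegral_congr fun y => ?_
    rw [lintegral_scale p α hα (fun x => Φ (f y + x, y))]
    exact (lintegral_shift p (f y) (fun x => Φ (x, y))).symm
  have hmI : Measurable (C.indicator (H s)) := (hH s hs).1.indicator hC.meas
  unfold ZX
  rw [← integral_indicator hC.meas, ← integral_indicator hm]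
  conv_lhs => rw [h0]
  rw [integral_smul_measure, integral_map hcont.measurable.aemeasurable hmI.aestronglyMeasurable,
    N_toReal, Real.rpow_one, Complex.real_smul]
  rfl

/-- `y` and `y - c x` -/
theorem LfX_yc (hχ : IsCh χ e) (hT0 : T0 ≠ 0) (β : ℚ_[p]) {a0 n0 a1 n1 : ℕ} (hn0 : 1 ≤ n0)
    (hn1 : 1 ≤ n1) (h0 : ¬ CritX χ T0 a0 n0) (h1 : ¬ CritX χ T0 a1 n1) (c : ℚ_[p]) (hc : c ≠ 0)
    {C : Set (ℚ_[p] × ℚ_[p])} (hC : CO C) :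
    Reg p T0 0 (ZX (LfX χ β a0 n0 a1 n1 (fun x => x.2) (fun x => x.2 - c * x.1)) C) := by
  have hf : Continuous (fun y : ℚ_[p] => c⁻¹ * y) := by fun_prop
  have hα : -c⁻¹ ≠ 0 := neg_ne_zero.2 (inv_ne_zero hc)
  refine ((Reg.const ((‖-c⁻¹‖ : ℝ) : ℂ)).mul0 (regC_mon hχ hT0 β a1 n1 a0 n0 hn1 hn0 h1 h0 _
    (hC.preimage (shU (-c⁻¹) hα (fun y => c⁻¹ * y) hf)))).congr fun s hs => ?_
  rw [ZX_shearU _ (ok_LfX hχ _ _ _ _ _ _ _ (by fun_prop) (by fun_prop)) (-c⁻¹) hα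
    (fun y => c⁻¹ * y) hf hC hs]
  congr 1
  change ZX _ ((fun x : ℚ_[p] × ℚ_[p] => (c⁻¹ * x.2 + -c⁻¹ * x.1, x.2)) ⁻¹' C) s = _
  unfold ZX
  congr 1
  funext x
  unfold monC LfX
  have e : x.2 - c * (c⁻¹ * x.2 + -c⁻¹ * x.1) = x.1 := by field_simp; ring
  simp only [e]
  ring

/-- `y - c x` and `y - c' x` -/
theorem LfX_cc (hχ : IsCh χ e) (hT0 : T0 ≠ 0) (β : ℚ_[p]) {a0 n0 a1 n1 : ℕ} (hn0 : 1 ≤ n0)
    (hn1 : 1 ≤ n1) (h0 : ¬ CritX χ T0 a0 n0) (h1 : ¬ CritX χ T0 a1 n1) (c c' : ℚ_[p]) (hc : c ≠ c')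
    {C : Set (ℚ_[p] × ℚ_[p])} (hC : CO C) :
    Reg p T0 0 (ZX (LfX χ β a0 n0 a1 n1 (fun x => x.2 - c * x.1) (fun x => x.2 - c' * x.1)) C) := by
  have hf : Continuous (fun x : ℚ_[p] => c * x) := by fun_prop
  refine (LfX_yc hχ hT0 β hn0 hn1 h0 h1 (c' - c) (sub_ne_zero.2 hc.symm)
    (hC.preimage (shV (fun x => c * x) hf))).congr fun s hs => ?_
  rw [ZX_shearV _ (ok_LfX hχ _ _ _ _ _ _ _ (by fun_prop) (by fun_prop)) (fun x => c * x) hf hC hs]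
  change ZX _ ((fun x : ℚ_[p] × ℚ_[p] => (x.1, c * x.1 + x.2)) ⁻¹' C) s = _
  unfold ZX
  congr 1
  funext x
  unfold LfX
  have e : c * x.1 + x.2 - c' * x.1 = x.2 - (c' - c) * x.1 := by ring
  simp only [add_sub_cancel_left, e]

/-- The lines at a critical exceptional curve. -/
structure SpX (χ : ℚ_[p] → ℂ) (T0 : ℂ) (P : Polynomial ℚ_[p]) (m a0 n0 a1 n1 : ℕ) (γ : ℚ_[p])
    (μ0 : ℕ) (T : Finset ℚ_[p]) (μ : ℚ_[p] → ℕ) : Prop where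
  hγ : γ ≠ 0
  hP : P = Polynomial.C γ * (Polynomial.X ^ μ0 * ∏ c ∈ T, (Polynomial.X - Polynomial.C c) ^ μ c)
  h0T : 0 ∉ T
  hdeg : μ0 + ∑ c ∈ T, μ c ≤ m
  hI : ¬ CritX χ T0 (a0 + (m - (μ0 + ∑ c ∈ T, μ c))) n0
  h0 : ¬ CritX χ T0 (a1 + μ0) n1
  hc : ∀ c ∈ T, ¬ CritX χ T0 (μ c) 1
  hcard : T.card ≤ 2
  h1 : T.card = 1 → (a0 + (m - (μ0 + ∑ c ∈ T, μ c)) = 0 ∧ n0 = 1) ∨ (a1 + μ0 = 0 ∧ n1 = 1)
  h2 : T.card = 2 → (a0 + (m - (μ0 + ∑ c ∈ T, μ c)) = 0 ∧ n0 = 1) ∧ (a1 + μ0 = 0 ∧ n1 = 1)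

theorem SpX.of_spec {P : Polynomial ℚ_[p]} {m a0 n0 a1 n1 : ℕ} {γ : ℚ_[p]} {μ0 : ℕ}
    {T : Finset ℚ_[p]} {μ : ℚ_[p] → ℕ} (h : Spec T0 P m a0 n0 a1 n1 γ μ0 T μ) :
    SpX χ T0 P m a0 n0 a1 n1 γ μ0 T μ where
  hγ := h.hγ
  hP := h.hP
  h0T := h.h0T
  hdeg := h.hdeg
  hI := fun h' => h.hI h'.1
  h0 := fun h' => h.h0 h'.1
  hc := fun c hc h' => h.hc c hc h'.1
  hcard := h.hcard
  h1 := h.h1
  h2 := h.h2

/-- the global model -/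
noncomputable def PhX (χ : ℚ_[p] → ℂ) (β : ℚ_[p]) (aI n0 a0 n1 : ℕ) (T : Finset ℚ_[p])
    (μ : ℚ_[p] → ℕ) (s : ℝ) (x : ℚ_[p] × ℚ_[p]) : ℂ :=
  NN χ s β * (ww χ s aI n0 x.1 * ww χ s a0 n1 x.2 * NN χ s (Pool.Agent.Y230.PT.Lp T μ x))

theorem ok_PhX (hχ : IsCh χ e) (β : ℚ_[p]) (aI n0 a0 n1 : ℕ) (T : Finset ℚ_[p])
    (μ : ℚ_[p] → ℕ) : OkC (PhX χ β aI n0 a0 n1 T μ) :=
  (okC_const fun s => NN χ s β).mul (((okC_ww hχ (fun x => x.1) continuous_fst aI n0).mul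
    (okC_ww hχ (fun x => x.2) continuous_snd a0 n1)).mul (okC_NN hχ _ (Lp_cont T μ)))

theorem ww1_eq (hχ : IsCh χ e) (s : ℝ) (m : ℕ) (x : ℚ_[p]) : ww χ s m 1 x = NN χ s (x ^ m) := by
  rw [ww, NN_pow hχ, Nat.sub_self, pow_zero, mul_one]

/-- **The global model is regular.** -/
theorem PhX_reg (hχ : IsCh χ e) (hT0 : T0 ≠ 0) {P : Polynomial ℚ_[p]} {m a0 n0 a1 n1 : ℕ}
    (hn0 : 1 ≤ n0) (hn1 : 1 ≤ n1) {γ : ℚ_[p]} {μ0 : ℕ} {T : Finset ℚ_[p]} {μ : ℚ_[p] → ℕ}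
    (hS : SpX χ T0 P m a0 n0 a1 n1 γ μ0 T μ) (β : ℚ_[p])
    {C : Set (ℚ_[p] × ℚ_[p])} (hC : CO C) :
    Reg p T0 0 (ZX (PhX χ β (a0 + (m - (μ0 + ∑ c ∈ T, μ c))) n0 (a1 + μ0) n1 T μ) C) := by
  classical
  have hcard := hS.hcard
  have hcase : T.card = 0 ∨ T.card = 1 ∨ T.card = 2 := by omega
  rcases hcase with h | h | h
  · rw [Finset.card_eq_zero] at h
    subst h
    refine (regC_mon hχ hT0 β _ _ _ _ hn0 hn1 hS.hI hS.h0 C hC).congr fun s hs => ?_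
    unfold ZX
    congr 1
    funext x
    unfold monC PhX Pool.Agent.Y230.PT.Lp
    rw [Finset.prod_empty, NN_one hχ, mul_one]
  · have hh := hS.h1 h
    obtain ⟨c, rfl⟩ := Finset.card_eq_one.1 h
    have hcT := hS.hc c (Finset.mem_singleton_self c)
    have hc0 : c ≠ 0 := by
      rintro rfl
      exact hS.h0T (Finset.mem_singleton_self _)
    rcases hh with hh | hh
    · obtain ⟨e1, e2⟩ := hh
      refine (LfX_yc hχ hT0 β hn1 le_rfl hS.h0 hcT c hc0 hC).congr fun s hs => ?_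
      unfold ZX
      congr 1
      funext x
      unfold LfX PhX Pool.Agent.Y230.PT.Lp
      rw [e1, e2, ww01, one_mul, Finset.prod_singleton, ww1_eq hχ s (μ c)]
    · obtain ⟨e1, e2⟩ := hh
      refine (LfX_xc hχ hT0 β hn0 le_rfl hS.hI hcT c hC).congr fun s hs => ?_
      unfold ZX
      congr 1
      funext x
      unfold LfX PhX Pool.Agent.Y230.PT.Lp
      rw [e1, e2, ww01, mul_one, Finset.prod_singleton, ww1_eq hχ s (μ c)]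
  · obtain ⟨⟨e1, e2⟩, e3, e4⟩ := hS.h2 h
    have hTc := hS.hc
    obtain ⟨c, c', hcc, rfl⟩ := Finset.card_eq_two.1 h
    refine (LfX_cc hχ hT0 β le_rfl le_rfl (hTc c (by simp)) (hTc c' (by simp)) c c' hcc hC).congr
      fun s hs => ?_
    unfold ZX
    congr 1
    funext x
    unfold LfX PhX Pool.Agent.Y230.PT.Lp
    rw [e1, e2, e3, e4, ww01, ww01, one_mul, one_mul, Finset.prod_pair hcc, ww1_eq hχ, ww1_eq hχ,
      NN_mul hχ]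

theorem PhX_c1 (hχ : IsCh χ e) (β : ℚ_[p]) (aI n0 a0 n1 : ℕ) (hn0 : 1 ≤ n0) (hn1 : 1 ≤ n1)
    (T : Finset ℚ_[p]) (μ : ℚ_[p] → ℕ) (s : ℝ) (x : ℚ_[p] × ℚ_[p]) :
    G1 (PhX χ β aI n0 a0 n1 T μ) s x = NN χ s β * (ww χ s (aI + a0 + ∑ c ∈ T, μ c) (n0 + n1) x.1 *
      ww χ s a0 n1 x.2 * NN χ s (∏ c ∈ T, (x.2 - c) ^ μ c)) := by
  unfold G1 PhX
  have h1 : Lp T μ (c1 x) = x.1 ^ (∑ c ∈ T, μ c) * ∏ c ∈ T, (x.2 - c) ^ μ c := by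
    unfold Pool.Agent.Y230.PT.Lp
    rw [← Finset.prod_pow_eq_pow_sum, ← Finset.prod_mul_distrib]
    refine Finset.prod_congr rfl fun c _ => ?_
    change (x.1 * x.2 - c * x.1) ^ μ c = _
    rw [← mul_pow]
    congr 1
    ring
  rw [h1, NN_mul hχ, NN_pow hχ, ww_add, ww_add' s aI a0 n0 n1 hn0 hn1]
  change ((‖x.1‖ : ℝ) : ℂ) * (_ * (ww χ s aI n0 x.1 * ww χ s a0 n1 (x.1 * x.2) * _)) = _
  rw [ww_mul hχ]
  ring

theorem PhX_c2 (hχ : IsCh χ e) (β : ℚ_[p]) (aI n0 a0 n1 : ℕ) (hn0 : 1 ≤ n0) (hn1 : 1 ≤ n1)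
    (T : Finset ℚ_[p]) (μ : ℚ_[p] → ℕ) (s : ℝ) (x : ℚ_[p] × ℚ_[p]) :
    G2 (PhX χ β aI n0 a0 n1 T μ) s x = NN χ s β * (ww χ s aI n0 x.1 *
      ww χ s (aI + a0 + ∑ c ∈ T, μ c) (n0 + n1) x.2 * NN χ s (∏ c ∈ T, (1 - c * x.1) ^ μ c)) := by
  unfold G2 PhX
  have h1 : Lp T μ (c2 x) = x.2 ^ (∑ c ∈ T, μ c) * ∏ c ∈ T, (1 - c * x.1) ^ μ c := by
    unfold Pool.Agent.Y230.PT.Lp
    rw [← Finset.prod_pow_eq_pow_sum, ← Finset.prod_mul_distrib]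
    refine Finset.prod_congr rfl fun c _ => ?_
    change (x.2 - c * (x.1 * x.2)) ^ μ c = _
    rw [← mul_pow]
    congr 1
    ring
  rw [h1, NN_mul hχ, NN_pow hχ, ww_add, ww_add' s aI a0 n0 n1 hn0 hn1]
  change ((‖x.2‖ : ℝ) : ℂ) * (_ * (ww χ s aI n0 (x.1 * x.2) * ww χ s a0 n1 x.2 * _)) = _
  rw [ww_mul hχ]
  ring

/-- the order of a polynomial at a point -/
theorem poly_nearX (hχ : IsCh χ e) (P : Polynomial ℚ_[p]) (hP : P ≠ 0) (c : ℚ_[p]) :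
    ∃ (ρ : ℕ) (κ : ℚ_[p]) (V : Set ℚ_[p]), κ ≠ 0 ∧ IsOpen V ∧ 0 ∈ V ∧
      (∀ i < ρ, (P.comp (Polynomial.X + Polynomial.C c)).coeff i = 0) ∧
      (P.comp (Polynomial.X + Polynomial.C c)).coeff ρ = κ ∧
      ∀ v ∈ V, ∀ s : ℝ, NN χ s (P.eval (c + v)) = NN χ s κ * NN χ s v ^ ρ := by
  obtain ⟨Q, hQ1, hQ2⟩ := P.exists_eq_pow_rootMultiplicity_mul_and_not_dvd hP c
  rw [Polynomial.dvd_iff_isRoot, Polynomial.IsRoot] at hQ2
  set ρ := P.rootMultiplicity c with hρ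
  have hcomp : P.comp (Polynomial.X + Polynomial.C c) = Polynomial.X ^ ρ *
      Q.comp (Polynomial.X + Polynomial.C c) := by
    rw [hQ1, Polynomial.mul_comp, Polynomial.pow_comp, Polynomial.sub_comp, Polynomial.X_comp,
      Polynomial.C_comp, add_sub_cancel_right]
  have hQc : Q.eval (c + 0) ≠ 0 := by simpa using hQ2
  obtain ⟨V, hV, h0V, hV2⟩ := near_const (fun v : ℚ_[p] => Q.eval (c + v))
    (Q.continuous.comp (by fun_prop)) 0 hQc e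
  refine ⟨ρ, Q.eval c, V, hQ2, hV, h0V, ?_, ?_, fun v hv s => ?_⟩
  · intro i hi
    rw [hcomp, Polynomial.coeff_X_pow_mul', if_neg (by omega)]
  · rw [hcomp, Polynomial.coeff_X_pow_mul', if_pos le_rfl, Nat.sub_self,
      Polynomial.coeff_zero_eq_eval_zero, Polynomial.eval_comp]
    simp
  · have h1 : P.eval (c + v) = v ^ ρ * Q.eval (c + v) := by
      rw [hQ1, Polynomial.eval_mul, Polynomial.eval_pow, Polynomial.eval_sub, Polynomial.eval_X,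
        Polynomial.eval_C, add_sub_cancel_left]
    have h2 := hV2 v hv
    rw [h1, NN_mul hχ, NN_pow hχ, NN_near hχ s hQc h2, add_zero, mul_comm]

theorem Is1.shift {h h' : Polynomial ℚ_[p]} {m ρ : ℕ}
    (hh : h = Polynomial.X ^ m * h') (hρ : Is1 h ρ) : ∃ ρ', ρ = m + ρ' ∧ Is1 h' ρ' := by
  obtain ⟨hlo, hj⟩ := hρ
  have hm : m ≤ ρ := by
    by_contra hlt
    apply hj
    rw [hh, Polynomial.coeff_X_pow_mul', if_neg hlt]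
  obtain ⟨ν, rfl⟩ := Nat.exists_eq_add_of_le hm
  refine ⟨ν, rfl, ?_, ?_⟩
  · intro k hk
    have := hlo (m + k) (by omega)
    rwa [hh, Polynomial.coeff_X_pow_mul', if_pos (by omega), Nat.add_sub_cancel_left] at this
  · rwa [hh, Polynomial.coeff_X_pow_mul', if_pos (by omega), Nat.add_sub_cancel_left] at hj

theorem critX_add (a0 n0 b k : ℕ) (h : CritX χ T0 a0 n0) :
    CritX χ T0 (a0 + b) (n0 + k) ↔ CritX χ T0 b k := by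
  have h1 : (∀ x : ℚ_[p], x ≠ 0 → χ x ^ (a0 + b) = 1) ↔ ∀ x : ℚ_[p], x ≠ 0 → χ x ^ b = 1 := by
    refine forall_congr' fun x => forall_congr' fun hx => ?_
    rw [pow_add, h.2 x hx, one_mul]
  have hp : (p : ℂ) ≠ 0 := by exact_mod_cast (Fact.out : p.Prime).ne_zero
  have h2 : Crit p T0 (a0 + b) (n0 + k) ↔ Crit p T0 b k := by
    have h3 := h.1
    unfold Crit at *
    rw [pow_add, pow_add, h3]
    exact mul_right_inj' (pow_ne_zero _ hp)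
  unfold CritX
  rw [h1, h2]

end Pool.Agent.T6.H26.PX
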