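import Pool.Agent.T6.H26.PXE
import Pool.Agent.Y230.PT.MainC

set_option autoImplicit false
set_option linter.unusedSectionVars false
set_option linter.unusedVariables false

/-! # The induction over the tree, without poles, for characters -/

namespace Pool.Agent.T6.H26.PX

open MeasureTheory Set Pool.Agent.W427.SMC Pool.Agent.Y230.PT
open scoped ENNReal
open Pool.Agent.Y230.RE

variable {p : ℕ} [Fact p.Prime]

attribute [local instance] msK bsK

variable {χ : ℚ_[p] → ℂ} {e : ℕ} {T0 : ℂ}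

theorem spX_deg {P : Polynomial ℚ_[p]} {m a0 n0 a1 n1 : ℕ} {γ : ℚ_[p]} {μ0 : ℕ}
    {T : Finset ℚ_[p]} {μ : ℚ_[p] → ℕ} (hS : SpX χ T0 P m a0 n0 a1 n1 γ μ0 T μ) :
    P.natDegree = μ0 + ∑ c ∈ T, μ c ∧ P.leadingCoeff = γ := by
  have hm1 : (∏ c ∈ T, (Polynomial.X - Polynomial.C c) ^ μ c).Monic :=
    Polynomial.monic_prod_of_monic _ _ fun c _ => (Polynomial.monic_X_sub_C c).pow _
  have hm2 : (Polynomial.X ^ μ0 * ∏ c ∈ T, (Polynomial.X - Polynomial.C c) ^ μ c).Monic :=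
    (Polynomial.monic_X_pow μ0).mul hm1
  constructor
  · rw [hS.hP, Polynomial.natDegree_C_mul hS.hγ, (Polynomial.monic_X_pow μ0).natDegree_mul hm1,
      Polynomial.natDegree_X_pow, Polynomial.natDegree_prod_of_monic _ _
      (fun c _ => (Polynomial.monic_X_sub_C c).pow _)]
    congr 1
    refine Finset.sum_congr rfl fun c _ => ?_
    rw [(Polynomial.monic_X_sub_C c).natDegree_pow, Polynomial.natDegree_X_sub_C, mul_one]
  · rw [hS.hP, Polynomial.leadingCoeff_mul, Polynomial.leadingCoeff_C, hm2.leadingCoeff, mul_one]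

theorem ch_shift1 {g gc g0 : A ℚ_[p]} {c : ℚ_[p]} {m : ℕ}
    (h0 : MvPolynomial.aeval (ch 0) g = MvPolynomial.X 0 ^ m * g0)
    (hc : MvPolynomial.aeval (ch c) g = MvPolynomial.X 0 ^ m * gc) :
    gc = MvPolynomial.aeval ![MvPolynomial.X 0, MvPolynomial.X 1 + MvPolynomial.C c] g0 :=
  ch_shift h0 hc

/-- **No poles.** -/
theorem main_CX (hχ : IsCh χ e) (hT0 : T0 ≠ 0)
    (Cx : (Unit → A ℚ_[p]) → Bool → Bool → ℕ → ℕ → ℕ → ℕ → Prop) (hCx : Closed Cx)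
    (hunit : ∀ (g : Unit → A ℚ_[p]) (d0 d1 : Bool) (a0 n0 a1 n1 : ℕ), Cx g d0 d1 a0 n0 a1 n1 →
      MvPolynomial.constantCoeff (g ()) ≠ 0 → ¬ (CritX χ T0 a0 n0 ∧ CritX χ T0 a1 n1))
    (hV : ∀ (g : Unit → A ℚ_[p]) (d0 : Bool) (a0 n0 m : ℕ), 1 ≤ m → Cx g d0 false a0 n0 0 1 →
      ∀ (h : A ℚ_[p]) (κ : A ℚ_[p]), (g () = h ^ m * κ) →
      MvPolynomial.constantCoeff h = 0 → MvPolynomial.constantCoeff (MvPolynomial.pderiv 1 h) ≠ 0 →
      MvPolynomial.constantCoeff κ ≠ 0 → ¬ CritX χ T0 m 1)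
    (hU : ∀ (g : Unit → A ℚ_[p]) (d1 : Bool) (a1 n1 m : ℕ), 1 ≤ m → Cx g false d1 0 1 a1 n1 →
      ∀ (h : A ℚ_[p]) (κ : A ℚ_[p]), (g () = h ^ m * κ) →
      MvPolynomial.constantCoeff h = 0 → MvPolynomial.constantCoeff (MvPolynomial.pderiv 0 h) ≠ 0 →
      MvPolynomial.constantCoeff κ ≠ 0 → ¬ CritX χ T0 m 1)
    (hE : ∀ (g : Unit → A ℚ_[p]) (d0 d1 : Bool) (a0 n0 a1 n1 m : ℕ) (gc : ℚ_[p] → Unit → A ℚ_[p])
      (gI : Unit → A ℚ_[p]), 1 ≤ m →
      (∀ c j, MvPolynomial.aeval (ch c) (g j) = MvPolynomial.X 0 ^ m * gc c j) →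
      (∀ j, MvPolynomial.aeval chI (g j) = MvPolynomial.X 1 ^ m * gI j) →
      (∃ j, r0 (gc 0 j) ≠ 0) → Cx g d0 d1 a0 n0 a1 n1 → CritX χ T0 (a0 + a1 + m) (n0 + n1) →
      ∃ (γ : ℚ_[p]) (μ0 : ℕ) (T : Finset ℚ_[p]) (μ : ℚ_[p] → ℕ),
        SpX χ T0 (r0 (gc 0 ())) m a0 n0 a1 n1 γ μ0 T μ)
    (hH0 : ∀ (g : Unit → A ℚ_[p]) (d0 d1 : Bool) (a0 n0 a1 n1 : ℕ), Cx g d0 d1 a0 n0 a1 n1 →
      CritX χ T0 a0 n0 → ∀ ρ, Is1 (r0 (g ())) ρ → ¬ CritX χ T0 (a1 + ρ) n1)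
    (hH1 : ∀ (g : Unit → A ℚ_[p]) (d0 d1 : Bool) (a0 n0 a1 n1 : ℕ), Cx g d0 d1 a0 n0 a1 n1 →
      CritX χ T0 a1 n1 → ∀ ρ, Is1 (r1 (g ())) ρ → ¬ CritX χ T0 (a0 + ρ) n0)
    {g : Unit → A ℚ_[p]} {d0 d1 : Bool} (hT : KT g d0 d1) : ∀ a0 n0 a1 n1 : ℕ,
    Cx g d0 d1 a0 n0 a1 n1 → CX χ T0 (g ()) a0 n0 a1 n1 := by
  induction hT with
  | unit g d0 d1 j hj =>
    intro a0 n0 a1 n1 hc
    obtain ⟨hn0, hn1⟩ := hCx.pos _ _ _ _ _ _ _ hc
    exact CX_unit hχ hT0 (g ()) hj hn0 hn1 (hunit _ _ _ _ _ _ _ hc hj)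
  | curveV g d0 m hm h κ hg h0 h1 j hj =>
    intro a0 n0 a1 n1 hc
    obtain ⟨hn0, hn1⟩ := hCx.pos _ _ _ _ _ _ _ hc
    obtain ⟨rfl, rfl⟩ := hCx.ty1 _ _ _ _ _ _ hc
    exact CX_curveV hχ hT0 (g ()) m h (κ ()) (hg ()) h0 h1 hj hn0
      (hV g d0 a0 n0 m hm hc h (κ ()) (hg ()) h0 h1 hj)
  | curveU g d1 m hm h κ hg h0 h1 j hj =>
    intro a0 n0 a1 n1 hc
    obtain ⟨hn0, hn1⟩ := hCx.pos _ _ _ _ _ _ _ hc
    obtain ⟨rfl, rfl⟩ := hCx.ty0 _ _ _ _ _ _ hc
    exact CX_curveU hχ hT0 (g ()) m h (κ ()) (hg ()) h0 h1 hj hn1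
      (hU g d1 a1 n1 m hm hc h (κ ()) (hg ()) h0 h1 hj)
  | blowup g d0 d1 m hm gc gI hgc hgI hne h0 hcc hI ih0 ihc ihI =>
    intro a0 n0 a1 n1 hc
    obtain ⟨hn0, hn1⟩ := hCx.pos _ _ _ _ _ _ _ hc
    obtain ⟨c0, cc, cI⟩ := hCx.child g d0 d1 a0 n0 a1 n1 m gc gI hm hgc hgI hne hc
    intro ρ0 ρ1 hρ0 hρ1
    have e1 : G1 (HX χ (g ()) a0 n0 a1 n1) = HX χ (gc 0 ()) (a0 + a1 + m) (n0 + n1) a1 n1 := by
      funext s x
      exact HX_c1 hχ (g ()) (gc 0 ()) m (hgc 0 ()) a0 n0 a1 n1 hn0 hn1 s x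
    have e2 : G2 (HX χ (g ()) a0 n0 a1 n1) = HX χ (gI ()) a0 n0 (a0 + a1 + m) (n0 + n1) := by
      funext s x
      exact HX_c2 hχ (g ()) (gI ()) m (hgI ()) a0 n0 a1 n1 hn0 hn1 s x
    have hr0 : r0 (g ()) = Polynomial.X ^ m * r0 (gI ()) := r0_chI (hgI ())
    have hr1 : r1 (g ()) = Polynomial.X ^ m * r1 (gc 0 ()) := r1_ch (hgc 0 ())
    have hne1 : r0 (gc 0 ()) ≠ 0 := by
      obtain ⟨j, hj⟩ := hne
      exact hj
    -- the correction terms of the children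
    obtain ⟨ρ0', hρ0'⟩ : ∃ ρ0', CritX χ T0 a0 n0 → ρ0 = m + ρ0' ∧ Is1 (r0 (gI ())) ρ0' := by
      by_cases h : CritX χ T0 a0 n0
      · obtain ⟨ρ', h1, h2⟩ := (hρ0 h).shift hr0
        exact ⟨ρ', fun _ => ⟨h1, h2⟩⟩
      · exact ⟨0, fun h' => absurd h' h⟩
    obtain ⟨ρ1', hρ1'⟩ : ∃ ρ1', CritX χ T0 a1 n1 → ρ1 = m + ρ1' ∧ Is1 (r1 (gc 0 ())) ρ1' := by
      by_cases h : CritX χ T0 a1 n1
      · obtain ⟨ρ', h1, h2⟩ := (hρ1 h).shift hr1
        exact ⟨ρ', fun _ => ⟨h1, h2⟩⟩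
      · exact ⟨0, fun h' => absurd h' h⟩
    -- the model
    set P := r0 (gc 0 ()) with hPdef
    obtain ⟨γ, μ0, T, μ, hE'⟩ : ∃ (γ : ℚ_[p]) (μ0 : ℕ) (T : Finset ℚ_[p]) (μ : ℚ_[p] → ℕ),
        CritX χ T0 (a0 + a1 + m) (n0 + n1) → SpX χ T0 P m a0 n0 a1 n1 γ μ0 T μ := by
      by_cases h : CritX χ T0 (a0 + a1 + m) (n0 + n1)
      · obtain ⟨γ, μ0, T, μ, h2⟩ := hE g d0 d1 a0 n0 a1 n1 m gc gI hm hgc hgI hne hc h
        exact ⟨γ, μ0, T, μ, fun _ => h2⟩
      · exact ⟨0, 0, ∅, fun _ => 0, fun h' => absurd h' h⟩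
    set M0 := monC χ ((r0 (g ())).coeff ρ0) a0 n0 (a1 + ρ0) n1 with hM0
    set M1 := monC χ ((r1 (g ())).coeff ρ1) (a0 + ρ1) n0 a1 n1 with hM1
    set Φ := PhX χ γ (a0 + (m - (μ0 + ∑ c ∈ T, μ c))) n0 (a1 + μ0) n1 T μ with hΦ
    have okH : OkC (HX χ (g ()) a0 n0 a1 n1) := okC_HX hχ (g ()) a0 n0 a1 n1
    have okM0 : OkC M0 := okC_mon hχ _ _ _ _ _
    have okM1 : OkC M1 := okC_mon hχ _ _ _ _ _
    have okΦ : OkC Φ := ok_PhX hχ _ _ _ _ _ _ _
    have hΦreg : ∀ C, CO C → Reg p T0 0 (crr (CritX χ T0 (a0 + a1 + m) (n0 + n1)) (ZX Φ) C) := by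
      intro C hC
      by_cases h : CritX χ T0 (a0 + a1 + m) (n0 + n1)
      · rw [crr_true h]
        exact PhX_reg hχ hT0 hn0 hn1 (hE' h) _ hC
      · rw [crr_false h]
        exact Reg.zero
    have hexp : CritX χ T0 (a0 + a1 + m) (n0 + n1) → a0 + (m - (μ0 + ∑ c ∈ T, μ c)) + (a1 + μ0) +
        ∑ c ∈ T, μ c = a0 + a1 + m := by
      intro h
      have := (hE' h).hdeg
      omega
    -- the pullback of the model to the first chart
    have hΦ1 : CritX χ T0 (a0 + a1 + m) (n0 + n1) → ∀ s x, G1 Φ s x =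
        NN χ s (P.eval x.2) * (ww χ s (a0 + a1 + m) (n0 + n1) x.1 * ww χ s a1 n1 x.2) := by
      intro h s x
      rw [hΦ, PhX_c1 hχ _ _ _ _ _ hn0 hn1, hexp h, ww_add s a1 μ0 n1, (hE' h).hP]
      simp only [Polynomial.eval_mul, Polynomial.eval_C, Polynomial.eval_pow, Polynomial.eval_X,
        Polynomial.eval_prod, Polynomial.eval_sub]
      rw [NN_mul hχ, NN_mul hχ, NN_pow hχ]
      ring
    -- regularity of the pullback of `M0`
    have hM0reg : ∀ C, CO C → Reg p T0 0 (crr (CritX χ T0 a0 n0) (ZX (G1 M0)) C) := by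
      intro C hC
      by_cases h : CritX χ T0 a0 n0
      · rw [crr_true h]
        have h3 := hH0 _ _ _ _ _ _ _ hc h ρ0 (hρ0 h)
        have e : G1 M0 = monC χ ((r0 (g ())).coeff ρ0) (a0 + (a1 + ρ0)) (n0 + n1)
            (a1 + ρ0) n1 := by
          funext s x
          exact monC_c1 hχ _ _ _ _ _ hn0 hn1 s x
        rw [e]
        exact regC_mon hχ hT0 _ _ _ _ _ (by omega) hn1 (by rwa [critX_add a0 n0 _ _ h]) h3 C hC
      · rw [crr_false h]
        exact Reg.zero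
    have hM1reg : ∀ C, CO C → Reg p T0 0 (crr (CritX χ T0 a1 n1) (ZX (G2 M1)) C) := by
      intro C hC
      by_cases h : CritX χ T0 a1 n1
      · rw [crr_true h]
        have h3 := hH1 _ _ _ _ _ _ _ hc h ρ1 (hρ1 h)
        have e : G2 M1 = monC χ ((r1 (g ())).coeff ρ1) (a0 + ρ1) n0 (a0 + ρ1 + a1)
            (n0 + n1) := by
          funext s x
          exact monC_c2 hχ _ _ _ _ _ hn0 hn1 s x
        rw [e]
        refine regC_mon hχ hT0 _ _ _ _ _ hn0 (by omega) h3 ?_ C hC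
        rwa [add_comm (a0 + ρ1) a1, add_comm n0 n1, critX_add a1 n1 _ _ h]
      · rw [crr_false h]
        exact Reg.zero
    -- the other pullbacks
    have eM1 : CritX χ T0 a1 n1 → G1 M1 = monC χ ((r1 (gc 0 ())).coeff ρ1')
        (a0 + a1 + m + ρ1') (n0 + n1) a1 n1 := by
      intro h
      funext s x
      rw [hM1, monC_c1 hχ _ _ _ _ _ hn0 hn1, (hρ1' h).1]
      have h3 : (r1 (g ())).coeff (m + ρ1') = (r1 (gc 0 ())).coeff ρ1' := coeff_up _ _ _ _ hr1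
      rw [h3]
      congr 1
      ring
    have eM0 : CritX χ T0 a0 n0 → G2 M0 = monC χ ((r0 (gI ())).coeff ρ0') a0 n0
        (a0 + a1 + m + ρ0') (n0 + n1) := by
      intro h
      funext s x
      rw [hM0, monC_c2 hχ _ _ _ _ _ hn0 hn1, (hρ0' h).1]
      have h3 : (r0 (g ())).coeff (m + ρ0') = (r0 (gI ())).coeff ρ0' := coeff_up _ _ _ _ hr0
      rw [h3]
      congr 1
      ring
    -- the first chart
    have hF1 : ∀ c : ℚ_[p], LReg T0 0 (fun C s => ZX (G1 (HX χ (g ()) a0 n0 a1 n1)) C s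
        - crr (CritX χ T0 a0 n0) (ZX (G1 M0)) C s - crr (CritX χ T0 a1 n1) (ZX (G1 M1)) C s
        - crr (CritX χ T0 (a0 + a1 + m) (n0 + n1)) (ZX (G1 Φ)) C s) (0, c) := by
      intro c
      obtain ⟨ρE, κE, V, hVo, h0V, hVE⟩ : ∃ (ρE : ℕ) (κE : ℚ_[p]) (V : Set ℚ_[p]), IsOpen V ∧
          (0 : ℚ_[p]) ∈ V ∧ (CritX χ T0 (a0 + a1 + m) (n0 + n1) →
            Is1 (r0 (gc c ())) ρE ∧ ((r0 (gc c ())).coeff ρE = κE) ∧
            ∀ v ∈ V, ∀ s : ℝ, NN χ s (P.eval (c + v)) = NN χ s κE * NN χ s v ^ ρE) := by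
        by_cases h : CritX χ T0 (a0 + a1 + m) (n0 + n1)
        · have hP0 : P ≠ 0 := hne1
          obtain ⟨ρE, κE, V, hκ, hVo, h0V, h3, h4, h5⟩ := poly_nearX hχ P hP0 c
          have hcomp : r0 (gc c ()) = P.comp (Polynomial.X + Polynomial.C c) := by
            rw [ch_shift1 (hgc 0 ()) (hgc c ()), r0_shift]
          have hco : (r0 (gc c ())).coeff ρE = κE := by
            rw [hcomp, h4]
          refine ⟨ρE, κE, V, hVo, h0V, fun _ => ⟨⟨?_, ?_⟩, hco, h5⟩⟩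
          · intro i hi
            rw [hcomp, h3 i hi]
          · rw [hco]
            exact hκ
        · exact ⟨0, 0, Set.univ, isOpen_univ, trivial, fun h' => absurd h' h⟩
      by_cases hc0 : c = 0
      · subst hc0
        have hIH := ih0 _ _ _ _ c0 ρE ρ1' (fun h => (hVE h).1) (fun h => (hρ1' h).2)
        refine (hIH.sub (LReg.of_all _ hM0reg)).congr (hVo.preimage continuous_snd) h0V
          fun C hC hCV s hs => ?_
        have e3 : crr (CritX χ T0 a1 n1) (ZX (G1 M1)) C s = crr (CritX χ T0 a1 n1)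
            (ZX (monC χ ((r1 (gc 0 ())).coeff ρ1') (a0 + a1 + m + ρ1') (n0 + n1) a1 n1)) C s := by
          by_cases h : CritX χ T0 a1 n1
          · rw [crr_true h, crr_true h, eM1 h]
          · rw [crr_false h, crr_false h]
        have e4 : crr (CritX χ T0 (a0 + a1 + m) (n0 + n1)) (ZX (G1 Φ)) C s =
            crr (CritX χ T0 (a0 + a1 + m) (n0 + n1)) (ZX (monC χ ((r0 (gc 0 ())).coeff ρE)
              (a0 + a1 + m) (n0 + n1) (a1 + ρE) n1)) C s := by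
          by_cases h : CritX χ T0 (a0 + a1 + m) (n0 + n1)
          · rw [crr_true h, crr_true h]
            refine ZX_congr hC fun x hx => ?_
            have h6 := (hVE h).2.2 x.2 (hCV hx) s
            rw [zero_add] at h6
            rw [hΦ1 h, h6]
            unfold monC
            rw [(hVE h).2.1, ww_add s a1 ρE n1]
            ring
          · rw [crr_false h, crr_false h]
        rw [e1, e3, e4]
        ring
      · have hIH := ihc c hc0 _ _ _ _ (cc c hc0) ρE 0 (fun h => (hVE h).1)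
          (fun h => absurd h not_critX01)
        rw [crr_false not_critX01] at hIH
        have hcc0 : c + ((0 : ℚ_[p]), (0 : ℚ_[p])).2 ≠ 0 := by simpa using hc0
        obtain ⟨V', hV', h0V', hV2'⟩ := near_const (fun x : ℚ_[p] × ℚ_[p] => c + x.2)
          (by fun_prop) ((0 : ℚ_[p]), (0 : ℚ_[p])) hcc0 e
        have hV3 : ∀ x ∈ V', ‖(c + x.2) - c‖ ≤ qr p ^ e * ‖c‖ := by
          intro x hx
          have := hV2' x hx
          simpa using this
        have h5 := lreg_chartC hχ hT0 c hc0 a1 n1 (G1 (HX χ (g ()) a0 n0 a1 n1))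
          (HX χ (gc c ()) (a0 + a1 + m) (n0 + n1) 0 1) (G1 Φ)
          (monC χ ((r0 (gc c ())).coeff ρE) (a0 + a1 + m) (n0 + n1) (0 + ρE) 1)
          okH.G1 okΦ.G1 (CritX χ T0 (a0 + a1 + m) (n0 + n1))
          (hV'.inter (hVo.preimage continuous_snd)) ⟨h0V', h0V⟩ (by
            intro x hx s _
            rw [e1]
            exact HX_shift hχ (gc 0 ()) (gc c ()) c hc0 (ch_shift1 (hgc 0 ()) (hgc c ())) _ _ _ _ s x
              (hV3 x hx.1)) (by
            intro h x hx s _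
            have h6 := (hVE h).2.2 x.2 hx.2 s
            rw [hΦ1 h]
            simp only
            rw [h6, ww_near hχ s a1 n1 hc0 (hV3 x hx.1)]
            unfold monC
            rw [(hVE h).2.1, ww_add s 0 ρE 1, ww01]
            ring) (by
            refine hIH.congr isOpen_univ trivial fun C _ _ s _ => ?_
            rw [sub_zero])
        have h6 : LReg T0 0 (fun C s => crr (CritX χ T0 a1 n1) (ZX (G1 M1)) C s) (0, c) := by
          by_cases h : CritX χ T0 a1 n1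
          · rw [crr_true h, eM1 h]
            refine monC_lreg hχ hT0 _ (by omega) ?_ c hc0
            have h7 := hH1 _ _ _ _ _ _ _ hc h ρ1 (hρ1 h)
            have h8 : a0 + a1 + m + ρ1' = a1 + (a0 + ρ1) := by
              rw [(hρ1' h).1]; ring
            rw [h8, add_comm n0 n1, critX_add a1 n1 _ _ h]
            exact h7
          · rw [crr_false h]
            exact LReg.zero
        refine ((h5.sub h6).sub (LReg.of_all _ hM0reg)).congr isOpen_univ trivial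
          fun C _ _ s _ => ?_
        ring
    have hF2 : LReg T0 0 (fun C s => ZX (G2 (HX χ (g ()) a0 n0 a1 n1)) C s
        - crr (CritX χ T0 a0 n0) (ZX (G2 M0)) C s - crr (CritX χ T0 a1 n1) (ZX (G2 M1)) C s
        - crr (CritX χ T0 (a0 + a1 + m) (n0 + n1)) (ZX (G2 Φ)) C s) (0, 0) := by
      set ρI := m - (μ0 + ∑ c ∈ T, μ c) with hρI
      have hcoI : CritX χ T0 (a0 + a1 + m) (n0 + n1) → (r1 (gI ())).coeff ρI = γ := by
        intro h
        have hdeg := (hE' h).hdeg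
        obtain ⟨h7, h8⟩ := spX_deg (hE' h)
        rw [r1_lead' (hgc 0 ()) (hgI ()) ρI (Nat.sub_le _ _)]
        have h9 : m - ρI = P.natDegree := by omega
        rw [h9]
        exact h8
      have hIsI : CritX χ T0 (a0 + a1 + m) (n0 + n1) → Is1 (r1 (gI ())) ρI := by
        intro h
        obtain ⟨h7, h8⟩ := spX_deg (hE' h)
        refine ⟨fun i hi => ?_, ?_⟩
        · have hdeg := (hE' h).hdeg
          have h7' : (r0 (gc 0 ())).natDegree = μ0 + ∑ c ∈ T, μ c := h7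
          rw [r1_lead' (hgc 0 ()) (hgI ()) i (by omega)]
          exact Polynomial.coeff_eq_zero_of_natDegree_lt (by omega)
        · rw [hcoI h]
          exact (hE' h).hγ
      have hIH := ihI _ _ _ _ cI ρ0' ρI (fun h => (hρ0' h).2) hIsI
      have h10 : (∏ c ∈ T, (1 - c * ((0 : ℚ_[p]), (0 : ℚ_[p])).1) ^ μ c) ≠ 0 := by simp
      obtain ⟨V, hVo, h0V, hV2⟩ := near_const
        (fun x : ℚ_[p] × ℚ_[p] => ∏ c ∈ T, (1 - c * x.1) ^ μ c)
        (continuous_finsetProd _ fun c _ => by fun_prop) ((0 : ℚ_[p]), (0 : ℚ_[p])) h10 e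
      refine (hIH.sub (LReg.of_all _ hM1reg)).congr hVo h0V fun C hC hCV s hs => ?_
      have e3 : crr (CritX χ T0 a0 n0) (ZX (G2 M0)) C s = crr (CritX χ T0 a0 n0)
          (ZX (monC χ ((r0 (gI ())).coeff ρ0') a0 n0 (a0 + a1 + m + ρ0') (n0 + n1))) C s := by
        by_cases h : CritX χ T0 a0 n0
        · rw [crr_true h, crr_true h, eM0 h]
        · rw [crr_false h, crr_false h]
      have e4 : crr (CritX χ T0 (a0 + a1 + m) (n0 + n1)) (ZX (G2 Φ)) C s =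
          crr (CritX χ T0 (a0 + a1 + m) (n0 + n1)) (ZX (monC χ ((r1 (gI ())).coeff ρI)
            (a0 + ρI) n0 (a0 + a1 + m) (n0 + n1))) C s := by
        by_cases h : CritX χ T0 (a0 + a1 + m) (n0 + n1)
        · rw [crr_true h, crr_true h]
          refine ZX_congr hC fun x hx => ?_
          have h6 : NN χ s (∏ c ∈ T, (1 - c * x.1) ^ μ c) = 1 := by
            rw [NN_near hχ s h10 (hV2 x (hCV hx))]
            simp [NN_one hχ]
          rw [hΦ, PhX_c2 hχ _ _ _ _ _ hn0 hn1, hexp h, h6, hcoI h]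
          unfold monC
          ring
        · rw [crr_false h, crr_false h]
      rw [e2, e3, e4]
      ring
    have hblow : ∀ (δ : Prop) (F : ℝ → ℚ_[p] × ℚ_[p] → ℂ), OkC F → ∀ L C, CO C →
        ∀ s : ℝ, 0 ≤ s → crr δ (ZX F) C s = crr δ (ZX (G1 F)) (S1 L C) s +
          crr δ (ZX (G2 F)) (S2 L C) s := by
      intro δ F hF L C hC s hs
      by_cases h : δ
      · rw [crr_true h, crr_true h, crr_true h, ZX_blow L hF hC hs]
      · rw [crr_false h, crr_false h, crr_false h, add_zero]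
    have hF := LReg.blow (F := fun C s => ZX (HX χ (g ()) a0 n0 a1 n1) C s
        - crr (CritX χ T0 a0 n0) (ZX M0) C s - crr (CritX χ T0 a1 n1) (ZX M1) C s
        - crr (CritX χ T0 (a0 + a1 + m) (n0 + n1)) (ZX Φ) C s)
      ((((addF_ZX okH.G1).sub ((addF_ZX okM0.G1).crr _)).sub ((addF_ZX okM1.G1).crr _)).sub
        ((addF_ZX okΦ.G1).crr _)) (by
        intro L C hC s hs
        beta_reduce
        rw [ZX_blow L okH hC hs, hblow _ M0 okM0 L C hC s hs, hblow _ M1 okM1 L C hC s hs,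
          hblow _ Φ okΦ L C hC s hs]
        ring) hF1 hF2
    refine (hF.add (LReg.of_all (0, 0) hΦreg)).congr isOpen_univ trivial fun C _ _ s _ => ?_
    ring

end Pool.Agent.T6.H26.PX
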