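import Pool.Agent.T6.H26.PXF
import Pool.Agent.Y230.PT.Global

set_option autoImplicit false
set_option linter.unusedSectionVars false
set_option linter.unusedVariables false

/-! # No pole at a point, for characters -/

namespace Pool.Agent.T6.H26.PX

open MeasureTheory Set Pool.Agent.W427.SMC Pool.Agent.Y230.PT
open scoped ENNReal
open Pool.Agent.W574.SM Pool.Agent.Y230.RE Pool.Agent.Y230.PL Polynomial

variable {p : ℕ} [Fact p.Prime]

attribute [local instance] msK bsK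

variable {χ : ℚ_[p] → ℂ} {e : ℕ} {T0 : ℂ}

theorem isO_of_Is1 {g : Unit → A ℚ_[p]} {ρ : ℕ} (h : Is1 (r0 (g ())) ρ) :
    IsO (fun j => r0 (g j)) ρ := ⟨fun _ i hi => h.1 i hi, (), h.2⟩

theorem isO_of_Is1' {g : Unit → A ℚ_[p]} {ρ : ℕ} (h : Is1 (r1 (g ())) ρ) :
    IsO (fun j => r1 (g j)) ρ := ⟨fun _ i hi => h.1 i hi, (), h.2⟩

theorem main_CX0 (hχ : IsCh χ e) (hT0 : T0 ≠ 0) (g : A ℚ_[p])
    (h : CX χ T0 g 0 1 0 1) : LReg T0 0 (ZX (HX χ g 0 1 0 1)) (0, 0) := by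
  refine (h 0 0 (fun h => absurd h not_critX01) (fun h => absurd h not_critX01)).congr
    isOpen_univ trivial fun C _ _ s _ => ?_
  rw [crr_false not_critX01, crr_false not_critX01, sub_zero, sub_zero]

/-- **No pole at a point.** -/
theorem local_CX (hχ : IsCh χ e) (φ : ℚ_[p] →+* ℂ) (f : Unit → A ℚ_[p]) (b : ℂ[X])
    (hb : IsFunctionalEq (fun j => mp φ (f j)) b) {T0 : ℂ} (hT0 : T0 ≠ 0)
    (hr : b.eval ((rr p T0 : ℝ) : ℂ) ≠ 0) (P : Fin 2 → ℚ_[p]) (hne : ∃ j, f j ≠ 0) :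
    LReg T0 0 (ZX (HX χ (nd f P ()) 0 1 0 1)) (0, 0) := by
  set r : ℂ := ((rr p T0 : ℝ) : ℂ) with hrdef
  set g : Unit → A ℚ_[p] := nd f P with hg
  have hgne : ∃ j, g j ≠ 0 := tr_ne_zero f P hne
  have hT : KT g false false := exists_KT g false false hgne (by simp) (by simp)
  have hcr : ∀ a n : ℕ, Crit p T0 a n → (n : ℂ) + r * (a : ℂ) = 0 := fun a n h => crit_r hT0 a n h
  have hcr' : ∀ a n : ℕ, Crit p T0 a n → (n : ℂ) + (a : ℂ) * r = 0 := fun a n h => by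
    rw [mul_comm]
    exact hcr a n h
  have hcurve : ∀ m : ℕ, 1 ≤ m → b.eval (-1 / (m : ℂ)) = 0 → ¬ Crit p T0 m 1 := by
    intro m hm h1 h2
    apply hr
    have hmc : (m : ℂ) ≠ 0 := Nat.cast_ne_zero.2 (by omega)
    have h3 : r = -1 / (m : ℂ) := by
      rw [eq_div_iff hmc]
      have := hcr _ _ h2
      push_cast at this
      linear_combination this
    rw [h3]
    exact h1
  have hCC := main_CX hχ hT0 (IC φ f r) (closed_IC φ f b hb r hr)
    (fun g d0 d1 a0 n0 a1 n1 hc hj ⟨h1, h2⟩ => by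
      have ho : Ord0 (fun j => mp φ (g j)) 0 := ⟨fun i k hk => absurd hk (Nat.not_lt_zero k), (), by
        rw [coeff_res0, mp_cc]
        exact fun h => hj ((map_eq_zero φ).1 h)⟩
      have h3 := hc.2.hH0 (hcr' _ _ h1.1) 0 ho
      rw [add_zero] at h3
      exact h3 (hcr _ _ h2.1))
    (fun g d0 a0 n0 m hm hc h κ hgj h0 h1 hj hcx => by
      refine hcurve m hm ?_ hcx.1
      obtain ⟨ξ, W, W', hW, hW', hf, hJ⟩ := hc.2.geom
      refine node_curveV _ b hb ξ W W' hW hW' a0 n0 m (by omega) (mp φ h) (fun _ => mp φ κ)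
        ?_ ?_ (by rw [mp_cc, h0, map_zero]) (by
          rw [mp_pderiv, mp_cc]
          exact fun h => h1 ((map_eq_zero φ).1 h)) () (by
          rw [mp_cc]
          exact fun h => hj ((map_eq_zero φ).1 h))
      · intro i
        rw [hf]
        beta_reduce
        rw [show g i = h ^ m * κ from hgj, pow_zero, mul_one, mp_mul, mp_pow]
      · rw [hJ, Nat.sub_self, pow_zero, mul_one])
    (fun g d1 a1 n1 m hm hc h κ hgj h0 h1 hj hcx => by
      refine hcurve m hm ?_ hcx.1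
      obtain ⟨ξ, W, W', hW, hW', hf, hJ⟩ := hc.2.geom
      refine node_curveU _ b hb ξ W W' hW hW' a1 n1 m (by omega) (mp φ h) (fun _ => mp φ κ)
        ?_ ?_ (by rw [mp_cc, h0, map_zero]) (by
          rw [mp_pderiv, mp_cc]
          exact fun h => h1 ((map_eq_zero φ).1 h)) () (by
          rw [mp_cc]
          exact fun h => hj ((map_eq_zero φ).1 h))
      · intro i
        rw [hf]
        beta_reduce
        rw [show g i = h ^ m * κ from hgj, pow_zero, one_mul, mp_mul, mp_pow]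
      · rw [hJ, Nat.sub_self, pow_zero, one_mul])
    (fun g d0 d1 a0 n0 a1 n1 m gc gI hm hgc hgI hne' hc hcrit => by
      have hj0 : r0 (gc 0 ()) ≠ 0 := by
        obtain ⟨j0, hj0⟩ := hne'
        exact hj0
      have hI := hc.2
      have hP0 : res0 (gcC φ (gc 0) 0 ()) ≠ 0 := by
        rw [gcC_0 φ hgc, ← mp_r0, Ne, Polynomial.map_eq_zero]
        exact hj0
      have hmult : IsMult (fun j => mp φ (g j)) m :=
        ⟨⟨fun j => gcC φ (gc 0) 0 j, fun j => gcC_eq φ (hgc 0) 0 j⟩,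
          ⟨fun j => mp φ (gI j), fun j => chI_mp φ hgI j⟩⟩
      obtain ⟨hlam, hdeg, hA0, hAI, hAc, T, hT, hcard, h1, h2, hsum, hrel⟩ :=
        crit_struct (fun j => mp φ (f j)) b hb (fun j => mp φ (g j)) a0 n0 a1 n1 hI.hn0 hI.hn1
          hI.geom m hm (fun c j => gcC φ (gc 0) c j) (fun j => mp φ (gI j))
          (fun c j => gcC_eq φ (hgc 0) c j) (chI_mp φ hgI) () hP0 (hI.hJ1 m hmult) hI.hJ2 hI.hJ2'
          hI.hz0 hI.hz1 r hr (hcr' _ _ hcrit.1)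
      have hPP : res0 (gcC φ (gc 0) 0 ()) = (r0 (gc 0 ())).map φ := by
        rw [gcC_0 φ hgc, ← mp_r0]
      rw [hPP] at hdeg hA0 hAI hsum hrel h1 h2
      simp only [hPP] at hAc hT hsum hrel
      obtain ⟨γ, μ0, T', μ, hS⟩ := spec_of φ T0 r hcr (r0 (gc 0 ())) hj0 m a0 n0 a1 n1 hdeg hA0 hAI
        hAc T hT hcard h1 h2 hsum hrel
      exact ⟨γ, μ0, T', μ, SpX.of_spec hS⟩)
    (fun g d0 d1 a0 n0 a1 n1 hc hcrit ρ hρ h => by
      have h3 := hc.2.hH0 (hcr' _ _ hcrit.1) ρ (ord0_mp φ (isO_of_Is1 hρ))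
      exact h3 (hcr _ _ h.1))
    (fun g d0 d1 a0 n0 a1 n1 hc hcrit ρ hρ h => by
      have h3 := hc.2.hH1 (hcr' _ _ hcrit.1) ρ (ord1_mp φ (isO_of_Is1' hρ))
      exact h3 (hcr _ _ h.1))
    hT 0 1 0 1 ⟨⟨le_rfl, le_rfl, fun _ => ⟨rfl, rfl⟩, fun _ => ⟨rfl, rfl⟩⟩, by
      have h1 : (fun j => mp φ (g j)) = fun j => W574.SM.translate (fun i => φ (P i))
          (mp φ (f j)) := by
        funext j
        exact mp_tr φ P (f j)
      rw [h1]
      exact inv_initial _ r _⟩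
  exact main_CX0 hχ hT0 _ hCC

/-- no pole if no pair is critical -/
theorem local_nc (hχ : IsCh χ e) (hT0 : T0 ≠ 0) (f : Unit → A ℚ_[p]) (hne : ∃ j, f j ≠ 0)
    (P : Fin 2 → ℚ_[p]) (hnc : ∀ a n : ℕ, 1 ≤ n → ¬ CritX χ T0 a n) :
    LReg T0 0 (ZX (HX χ (nd f P ()) 0 1 0 1)) (0, 0) := by
  set g : Unit → A ℚ_[p] := nd f P with hg
  have hgne : ∃ j, g j ≠ 0 := tr_ne_zero f P hne
  have hT : KT g false false := exists_KT g false false hgne (by simp) (by simp)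
  have hCC := main_CX hχ hT0 (TC (p := p) (ι := Unit)) closed_TC
    (fun g d0 d1 a0 n0 a1 n1 hc hj ⟨h1, h2⟩ => hnc _ _ hc.1 h1)
    (fun g d0 a0 n0 m hm hc h κ hgj h0 h1 hj hcx => hnc _ _ le_rfl hcx)
    (fun g d1 a1 n1 m hm hc h κ hgj h0 h1 hj hcx => hnc _ _ le_rfl hcx)
    (fun g d0 d1 a0 n0 a1 n1 m gc gI hm hgc hgI hne' hc hcrit => absurd hcrit
      (hnc _ _ (by have := hc.1; omega)))
    (fun g d0 d1 a0 n0 a1 n1 hc hcrit ρ hρ h => hnc _ _ hc.1 hcrit)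
    (fun g d0 d1 a0 n0 a1 n1 hc hcrit ρ hρ h => hnc _ _ hc.2.1 hcrit)
    hT 0 1 0 1 ⟨le_rfl, le_rfl, fun _ => ⟨rfl, rfl⟩, fun _ => ⟨rfl, rfl⟩⟩
  exact main_CX0 hχ hT0 _ hCC

/-- no poles in the closed unit disc -/
theorem local_sm (hχ : IsCh χ e) (hT0 : T0 ≠ 0) (hT1 : ‖T0‖ ≤ 1) (f : Unit → A ℚ_[p])
    (hne : ∃ j, f j ≠ 0) (P : Fin 2 → ℚ_[p]) :
    LReg T0 0 (ZX (HX χ (nd f P ()) 0 1 0 1)) (0, 0) :=
  local_nc hχ hT0 f hne P fun a n hn h => not_crit_small hT1 a n hn h.1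

end Pool.Agent.T6.H26.PX
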