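import Pool.Agent.T6.H26.PXG

set_option autoImplicit false
set_option linter.unusedSectionVars false
set_option linter.unusedVariables false

/-! # The points with a simple root at `-1`: the classification of the nodes -/

namespace Pool.Agent.T6.H26.PX

open MeasureTheory Set Pool.Agent.W427.SMC Pool.Agent.Y230.PT
open scoped ENNReal
open Pool.Agent.W574.SM Pool.Agent.Y230.RE Pool.Agent.Y230.PL Polynomial

variable {p : ℕ} [Fact p.Prime]

attribute [local instance] msK bsK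

variable {χ : ℚ_[p] → ℂ} {e : ℕ} {T0 : ℂ}

/-! ### Blow-ups -/

section Blow

variable {g g0 gI : A ℚ_[p]} {m : ℕ}

theorem bl_deg (h0 : MvPolynomial.aeval (ch 0) g = MvPolynomial.X 0 ^ m * g0) :
    (r0 g0).natDegree ≤ m := by
  rw [r0_lead h0]
  exact om_deg _ _

theorem bl_low0 (hI : MvPolynomial.aeval chI g = MvPolynomial.X 1 ^ m * gI) (i : ℕ) (hi : i < m) :
    (r0 g).coeff i = 0 := by
  rw [r0_chI hI, coeff_X_pow_mul', if_neg (by omega)]

theorem bl_low1 (h0 : MvPolynomial.aeval (ch 0) g = MvPolynomial.X 0 ^ m * g0) (i : ℕ)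
    (hi : i < m) : (r1 g).coeff i = 0 := by
  rw [r1_ch h0, coeff_X_pow_mul', if_neg (by omega)]

theorem bl_ccI (h0 : MvPolynomial.aeval (ch 0) g = MvPolynomial.X 0 ^ m * g0)
    (hI : MvPolynomial.aeval chI g = MvPolynomial.X 1 ^ m * gI) :
    MvPolynomial.constantCoeff gI = (r0 g0).coeff m := by
  have h := r1_lead' h0 hI 0 (Nat.zero_le _)
  rw [Nat.sub_zero, r1_coeff, ← cc_eq] at h
  exact h

theorem bl_cc0 : MvPolynomial.constantCoeff g0 = (r0 g0).coeff 0 := by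
  rw [r0_coeff, ← cc_eq]

theorem bl_top (h0 : MvPolynomial.aeval (ch 0) g = MvPolynomial.X 0 ^ m * g0)
    (hI : MvPolynomial.aeval chI g = MvPolynomial.X 1 ^ m * gI) :
    (r0 g).coeff m = (r0 g0).coeff m := by
  have h := coeff_up _ _ m 0 (r0_chI hI)
  rw [add_zero] at h
  rw [h, r0_coeff, ← cc_eq, bl_ccI h0 hI]

theorem bl_bot (h0 : MvPolynomial.aeval (ch 0) g = MvPolynomial.X 0 ^ m * g0) :
    (r1 g).coeff m = (r0 g0).coeff 0 := by
  have h := coeff_up _ _ m 0 (r1_ch h0)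
  rw [add_zero] at h
  rw [h, r1_coeff, ← cc_eq, bl_cc0]

theorem bl_sh {gc : A ℚ_[p]} {c : ℚ_[p]}
    (h0 : MvPolynomial.aeval (ch 0) g = MvPolynomial.X 0 ^ m * g0)
    (hc : MvPolynomial.aeval (ch c) g = MvPolynomial.X 0 ^ m * gc) :
    r0 gc = (r0 g0).comp (X + C c) := by
  rw [ch_shift h0 hc, r0_shift]

theorem bl_ccc {gc : A ℚ_[p]} {c : ℚ_[p]}
    (h0 : MvPolynomial.aeval (ch 0) g = MvPolynomial.X 0 ^ m * g0)
    (hc : MvPolynomial.aeval (ch c) g = MvPolynomial.X 0 ^ m * gc) :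
    MvPolynomial.constantCoeff gc = (r0 g0).eval c := by
  rw [cc_eq, ← r0_coeff, bl_sh h0 hc, coeff_zero_eq_eval_zero, eval_comp]
  simp

theorem bl_cc (h0 : MvPolynomial.aeval (ch 0) g = MvPolynomial.X 0 ^ m * g0) (hm : 1 ≤ m) :
    MvPolynomial.constantCoeff g = 0 := by
  rw [cc_eq, ← r1_coeff]
  exact bl_low1 h0 0 hm

end Blow

theorem is1_small {P : ℚ_[p][X]} (hP : P ≠ 0) (hd : P.natDegree ≤ 1) : ∃ ρ ≤ 1, Is1 P ρ := by
  by_cases h0 : P.coeff 0 = 0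
  · refine ⟨1, le_rfl, ⟨fun i hi => ?_, fun h1 => hP ?_⟩⟩
    · have : i = 0 := by omega
      rw [this]
      exact h0
    · ext i
      rw [coeff_zero]
      rcases Nat.lt_or_ge 1 i with h | h
      · exact coeff_eq_zero_of_natDegree_lt (by omega)
      · interval_cases i
        · exact h0
        · exact h1
  · exact ⟨0, by omega, ⟨fun i hi => absurd hi (Nat.not_lt_zero i), h0⟩⟩

theorem comp_ne' (P : ℚ_[p][X]) (c : ℚ_[p]) (hP : P ≠ 0) : P.comp (X + C c) ≠ 0 :=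
  comp_ne _ c hP

theorem comp_deg' (P : ℚ_[p][X]) (c : ℚ_[p]) : (P.comp (X + C c)).natDegree = P.natDegree := by
  rw [natDegree_comp, natDegree_X_add_C, mul_one]

/-! ### The critical pairs on the circle -/

theorem crit_eq (hN : ‖T0‖ = (p : ℝ)) {a n : ℕ} (h : CritX χ T0 a n) : a = n := by
  have h1 := congrArg norm h.1
  rw [norm_pow, norm_pow, Complex.norm_natCast, hN] at h1
  exact Nat.pow_right_injective (Fact.out : p.Prime).two_le (by exact_mod_cast h1)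

theorem crit_23 (hT0 : T0 ≠ 0) (h2 : CritX χ T0 2 2) (h3 : CritX χ T0 3 3) : CritX χ T0 1 1 := by
  have hp : (p : ℂ) ≠ 0 := by exact_mod_cast (Fact.out : p.Prime).ne_zero
  refine ⟨?_, fun x hx => ?_⟩
  · have e2 : T0 ^ 2 = (p : ℂ) ^ 2 := h2.1
    have e3 : T0 ^ 3 = (p : ℂ) ^ 3 := h3.1
    change T0 ^ 1 = (p : ℂ) ^ 1
    have : (p : ℂ) ^ 2 * T0 = (p : ℂ) ^ 2 * p := by
      rw [← e2]
      calc T0 ^ 2 * T0 = T0 ^ 3 := by ring
        _ = (p : ℂ) ^ 3 := e3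
        _ = (p : ℂ) ^ 2 * p := by ring
        _ = T0 ^ 2 * p := by rw [e2]
    rw [pow_one, pow_one]
    exact mul_left_cancel₀ (pow_ne_zero 2 hp) this
  · have e2 := h2.2 x hx
    have e3 := h3.2 x hx
    rw [pow_one]
    calc χ x = χ x ^ 2 * χ x := by rw [e2, one_mul]
      _ = χ x ^ 3 := by ring
      _ = 1 := e3

/-! ### The nodes -/

/-- the nodes over a point with a simple root at `-1` -/
inductive QN (φ : ℚ_[p] →+* ℂ) (χ : ℚ_[p] → ℂ) (T0 : ℂ) :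
    (Unit → A ℚ_[p]) → Bool → Bool → ℕ → ℕ → ℕ → ℕ → Prop
  | unit (g : Unit → A ℚ_[p]) (d0 d1 : Bool) (a0 n0 a1 n1 : ℕ)
      (hg : MvPolynomial.constantCoeff (g ()) ≠ 0)
      (h : ¬ (CritX χ T0 a0 n0 ∧ CritX χ T0 a1 n1)) : QN φ χ T0 g d0 d1 a0 n0 a1 n1
  | big (g : Unit → A ℚ_[p]) (d0 d1 : Bool) (a0 n0 a1 n1 : ℕ) (h0 : d0 = true → n0 < a0)
      (h1 : d1 = true → n1 < a1) (h : d0 = true ∨ d1 = true) : QN φ χ T0 g d0 d1 a0 n0 a1 n1
  | root (g : Unit → A ℚ_[p]) (h : DC φ (-1) g false false 0 1 0 1) :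
      QN φ χ T0 g false false 0 1 0 1
  | sm0 (g : Unit → A ℚ_[p]) (k : ℕ) (hk : 1 ≤ k) (h : ∃ ρ ≤ 1, Is1 (r0 (g ())) ρ) :
      QN φ χ T0 g true false k (k + 1) 0 1
  | sm1 (g : Unit → A ℚ_[p]) (k : ℕ) (hk : 1 ≤ k) (h : ∃ ρ ≤ 1, Is1 (r1 (g ())) ρ) :
      QN φ χ T0 g false true 0 1 k (k + 1)
  | s0 (g : Unit → A ℚ_[p]) (h : Is1 (r0 (g ())) 2) : QN φ χ T0 g true false 2 2 0 1
  | s1 (g : Unit → A ℚ_[p]) (h : Is1 (r1 (g ())) 2) : QN φ χ T0 g false true 0 1 2 2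
  | s3 (g : Unit → A ℚ_[p]) (h0 : Is1 (r0 (g ())) 1) (h1 : Is1 (r1 (g ())) 1) :
      QN φ χ T0 g true true 2 2 3 3
  | s3' (g : Unit → A ℚ_[p]) (h0 : Is1 (r0 (g ())) 1) (h1 : Is1 (r1 (g ())) 1) :
      QN φ χ T0 g true true 3 3 2 2

/-- the nodes, with their types -/
def QT (φ : ℚ_[p] →+* ℂ) (χ : ℚ_[p] → ℂ) (T0 : ℂ) (g : Unit → A ℚ_[p]) (d0 d1 : Bool)
    (a0 n0 a1 n1 : ℕ) : Prop := TC g d0 d1 a0 n0 a1 n1 ∧ QN φ χ T0 g d0 d1 a0 n0 a1 n1

theorem is1_cc {P : ℚ_[p][X]} {ρ : ℕ} (h : Is1 P ρ) (h0 : P.coeff 0 ≠ 0) : ρ = 0 := by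
  by_contra hne
  exact h0 (h.1 0 (by omega))

theorem poly_lin {P : ℚ_[p][X]} (hd : P.natDegree ≤ 1) : P = C (P.coeff 0) + C (P.coeff 1) * X := by
  ext i
  rcases Nat.lt_or_ge 1 i with h | h
  · rw [coeff_eq_zero_of_natDegree_lt (by omega)]
    simp only [coeff_add, coeff_C, coeff_C_mul, coeff_X]
    rw [if_neg (by omega), if_neg (by omega)]
    simp
  · interval_cases i <;> simp

theorem poly_quad {P : ℚ_[p][X]} (hd : P.natDegree ≤ 2) :
    P = C (P.coeff 0) + C (P.coeff 1) * X + C (P.coeff 2) * X ^ 2 := by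
  ext i
  rcases Nat.lt_or_ge 2 i with h | h
  · rw [coeff_eq_zero_of_natDegree_lt (by omega)]
    simp only [coeff_add, coeff_C, coeff_C_mul, coeff_X, coeff_X_pow]
    rw [if_neg (by omega), if_neg (by omega), if_neg (by omega)]
    simp
  · interval_cases i <;> simp [coeff_X, coeff_X_pow]

theorem r0_pderivC (h : A ℂ) : (r0 (k := ℂ) h).coeff 1 =
    MvPolynomial.constantCoeff (MvPolynomial.pderiv 1 h) := by
  rw [MvPolynomial.constantCoeff_eq, MvPolynomial.coeff_pderiv, r0_coeff]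
  simp [ex]

/-- the tangent cone of a double point with a simple root at `-1` -/
theorem double_cone (φ : ℚ_[p] →+* ℂ) (g : Unit → A ℚ_[p]) (h : DC φ (-1) g false false 0 1 0 1)
    (gc : ℚ_[p] → Unit → A ℚ_[p]) (gI : Unit → A ℚ_[p])
    (hgc : ∀ c j, MvPolynomial.aeval (ch c) (g j) = MvPolynomial.X 0 ^ 2 * gc c j)
    (hgI : ∀ j, MvPolynomial.aeval chI (g j) = MvPolynomial.X 1 ^ 2 * gI j)
    (hj0 : r0 (gc 0 ()) ≠ 0) :
    (∃ γ : ℚ_[p], γ ≠ 0 ∧ r0 (gc 0 ()) = C γ) ∨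
      ∃ γ c : ℚ_[p], γ ≠ 0 ∧ r0 (gc 0 ()) = C γ * (X - C c) ^ 2 := by
  obtain ⟨hT, hD, hgne, -, -⟩ := h
  have hP0 : res0 (gcC φ (gc 0) 0 ()) ≠ 0 := by
    rw [gcC_0 φ hgc, ← mp_r0, Ne, Polynomial.map_eq_zero]
    exact hj0
  have hshC : ∀ c, res0 (gcC φ (gc 0) c ()) = (res0 (gcC φ (gc 0) 0 ())).comp (X + C c) := fun c =>
    res0_chart (mp φ (g ())) (gcC φ (gc 0) 0 ()) (gcC φ (gc 0) c ()) 2 c
      (gcC_eq φ (hgc 0) 0 ()) (gcC_eq φ (hgc 0) c ())
  have qI1 : r1 (gI ()) ≠ 0 := by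
    intro h
    apply hj0
    ext i
    rw [coeff_zero]
    have hd : (r0 (gc 0 ())).natDegree ≤ 2 := bl_deg (hgc 0 ())
    by_cases hi : i ≤ 2
    · have h2 := r1_lead' (hgc 0 ()) (hgI ()) (2 - i) (Nat.sub_le _ _)
      rw [h, coeff_zero] at h2
      have h3 : 2 - (2 - i) = i := by omega
      rw [h3] at h2
      exact h2.symm
    · exact coeff_eq_zero_of_natDegree_lt (by omega)
  have mpne : ∀ q : A ℚ_[p], q ≠ 0 → mp φ q ≠ 0 := fun q hq h => hq
    (MvPolynomial.map_injective φ φ.injective (by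
      rw [map_zero]; exact h))
  have mp1 : ∀ q : A ℚ_[p], r1 q ≠ 0 → r1 (k := ℂ) (mp φ q) ≠ 0 := fun q hq h => hq (by
    have h2 : res1 (mp φ q) = 0 := h
    rw [← mp_r1, Polynomial.map_eq_zero] at h2
    exact h2)
  have hne : ∀ c, res0 (gcC φ (gc 0) c ()) ≠ 0 := fun c => by
    rw [hshC]
    exact comp_ne _ c hP0
  have TT : ∀ c, ∃ Λ, LT (fun j => gcC φ (gc 0) c j) (0 + 0 + 2) (1 + 1) 0 1 Λ := by
    intro c
    exact exists_LT (exists_KT (k := ℂ) (fun j => gcC φ (gc 0) c j) true false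
      ⟨(), fun h => hne c (by rw [h, map_zero])⟩ (fun _ => ⟨(), hne c⟩) (by simp)) _ _ _ _ (by simp)
      (fun _ => ⟨rfl, rfl⟩)
  have TI : ∃ Λ, LT (fun j => mp φ (gI j)) 0 1 (0 + 0 + 2) (1 + 1) Λ := by
    refine exists_LT (exists_KT (k := ℂ) (fun j => mp φ (gI j)) false true
      ⟨(), mpne _ (fun h => qI1 (by rw [h, map_zero]))⟩ (by simp) (fun _ => ⟨(), mp1 _ qI1⟩))
      _ _ _ _ (fun _ => ⟨rfl, rfl⟩) (by simp)
  have hpar := DZ_parent (-1) (fun j => mp φ (g j)) 0 1 0 1 2 (by norm_num)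
    (fun c j => gcC φ (gc 0) c j)
    (fun j => mp φ (gI j)) (fun c j => gcC_eq φ (hgc 0) c j) (chI_mp φ hgI) () hP0 (TT 0)
      (fun c _ => TT c) TI
  -- no simple root
  have hsimple : ∀ c : ℂ, (res0 (gcC φ (gc 0) 0 ())).eval c = 0 →
      (derivative (res0 (gcC φ (gc 0) 0 ()))).eval c = 0 := by
    intro c h1
    by_contra h2
    apply hD
    have h3 : DZ (-1) (fun j => gcC φ (gc 0) c j) (0 + 0 + 2) (1 + 1) 0 1 := by
      refine ⟨_, LT.curveV _ _ _ 1 le_rfl (gcC φ (gc 0) c ()) (fun _ => 1) (fun j => by simp)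
        ?_ ?_ () (by simp), _, rfl, ?_, ?_⟩
      · rw [← coeff_res0, hshC, coeff_zero_eq_eval_zero, eval_comp]
        simpa using h1
      · have h4 : MvPolynomial.constantCoeff (MvPolynomial.pderiv 1 (gcC φ (gc 0) c ())) =
            (derivative (res0 (gcC φ (gc 0) c ()))).eval 0 := by
          have h6 : (r0 (k := ℂ) (gcC φ (gc 0) c ())).coeff 1 =
              MvPolynomial.constantCoeff (MvPolynomial.pderiv 1 (gcC φ (gc 0) c ())) :=
            r0_pderivC _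
          rw [← h6, ← coeff_zero_eq_eval_zero, coeff_derivative]
          simp
          rfl
        rw [h4, hshC, derivative_comp, eval_mul, eval_comp]
        simpa using h2
      · norm_num
      · norm_num
    by_cases hc : c = 0
    · subst hc
      exact hpar (Or.inl h3)
    · exact hpar (Or.inr (Or.inl ⟨c, hc, h3⟩))
  have hPP : res0 (gcC φ (gc 0) 0 ()) = (r0 (gc 0 ())).map φ := by
    rw [gcC_0 φ hgc, ← mp_r0]
  rw [hPP] at hsimple
  have hd : (r0 (gc 0 ())).natDegree ≤ 2 := bl_deg (hgc 0 ())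
  set P := r0 (gc 0 ()) with hPdef
  have hPq := poly_quad hd
  set α := P.coeff 0 with hα
  set β := P.coeff 1 with hβ
  set γ := P.coeff 2 with hγ
  clear_value α β γ
  have hev : ∀ c : ℂ, (P.map φ).eval c = φ α + φ β * c + φ γ * c ^ 2 := by
    intro c
    rw [hPq]
    simp
  have hev' : ∀ c : ℂ, (derivative (P.map φ)).eval c = φ β + φ γ * (2 * c) := by
    intro c
    rw [hPq]
    simp
    norm_num
  by_cases hγ0 : γ = 0
  · left
    by_cases hβ0 : β = 0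
    · refine ⟨α, fun h => hj0 ?_, ?_⟩
      · rw [hPq, h, hβ0, hγ0]
        simp
      · rw [hPq, hβ0, hγ0]
        simp
    · exfalso
      have h1 : φ β ≠ 0 := (map_ne_zero φ).2 hβ0
      have h2 := hsimple (-(φ α) / φ β) (by
        rw [hev, hγ0, map_zero]
        field_simp
        ring)
      rw [hev', hγ0, map_zero, zero_mul, add_zero] at h2
      exact h1 h2
  · right
    have hγC : φ γ ≠ 0 := (map_ne_zero φ).2 hγ0
    have hdeg : (P.map φ).degree ≠ 0 := by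
      rw [degree_map]
      intro h
      have h2 : P.natDegree = 0 := natDegree_eq_of_degree_eq_some h
      have h3 : P.coeff 2 = 0 := coeff_eq_zero_of_natDegree_lt (by omega)
      rw [hPq] at h3
      simp at h3
      exact hγ0 h3
    obtain ⟨c, hc⟩ := IsAlgClosed.exists_root (P.map φ) hdeg
    have hc1 : φ α + φ β * c + φ γ * c ^ 2 = 0 := by
      rw [← hev]
      exact hc
    have hc2 : φ β + φ γ * (2 * c) = 0 := by
      rw [← hev']
      exact hsimple c hc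
    refine ⟨γ, -β / (2 * γ), hγ0, ?_⟩
    have h4 : β ^ 2 = 4 * α * γ := by
      apply φ.injective
      rw [map_pow, map_mul, map_mul, map_ofNat]
      linear_combination (φ β - 2 * φ γ * c + 0) * hc2 - 4 * φ γ * hc1 + 4 * φ γ * c * hc2
    rw [hPq]
    have h5 : α = γ * (-β / (2 * γ)) ^ 2 := by
      field_simp
      linear_combination -h4
    have h6 : β = γ * (-(2 * (-β / (2 * γ)))) := by
      field_simp
    have h7 : C γ * (X - C (-β / (2 * γ))) ^ 2 = C (γ * (-β / (2 * γ)) ^ 2) +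
        C (γ * (-(2 * (-β / (2 * γ))))) * X + C γ * X ^ 2 := by
      simp only [map_mul, map_pow, map_neg, map_ofNat]
      have h2 : (C (2 : ℚ_[p]) : ℚ_[p][X]) = 2 := rfl
      ring
    rw [h7, ← h5, ← h6]

end Pool.Agent.T6.H26.PX
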