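import Pool.Agent.T6.H26.PXH

set_option autoImplicit false
set_option linter.unusedSectionVars false
set_option linter.unusedVariables false

/-! # The points with a simple root at `-1`: no pole -/

namespace Pool.Agent.T6.H26.PX

open MeasureTheory Set Pool.Agent.W427.SMC Pool.Agent.Y230.PT
open scoped ENNReal
open Pool.Agent.W574.SM Pool.Agent.Y230.RE Pool.Agent.Y230.PL Polynomial

variable {p : ℕ} [Fact p.Prime]

attribute [local instance] msK bsK

variable {χ : ℚ_[p] → ℂ} {e : ℕ} {T0 : ℂ}

theorem is1_le {P : ℚ_[p][X]} {m ρ : ℕ} (h : Is1 P ρ) (hl : ∀ i < m, P.coeff i = 0) : m ≤ ρ := by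
  by_contra hlt
  exact h.2 (hl ρ (by omega))

theorem is1_of_natDegree {P : ℚ_[p][X]} (hP : P ≠ 0) (hd : P.natDegree ≤ 1) (c : ℚ_[p]) :
    ∃ ρ ≤ 1, Is1 (P.comp (X + C c)) ρ :=
  is1_small (comp_ne' P c hP) (by rw [comp_deg']; exact hd)

theorem big_lt {d0 d1 : Bool} {a0 n0 a1 n1 m : ℕ} (hm : 1 ≤ m)
    (t0 : d0 = false → a0 = 0 ∧ n0 = 1) (t1 : d1 = false → a1 = 0 ∧ n1 = 1)
    (h0 : d0 = true → n0 < a0) (h1 : d1 = true → n1 < a1) (h : d0 = true ∨ d1 = true) :
    n0 + n1 < a0 + a1 + m := by
  rcases Bool.eq_false_or_eq_true d0 with hd0 | hd0 <;>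
  rcases Bool.eq_false_or_eq_true d1 with hd1 | hd1
  · have := h0 hd0
    have := h1 hd1
    omega
  · have := h0 hd0
    have := t1 hd1
    omega
  · have := t0 hd0
    have := h1 hd1
    omega
  · rw [hd0, hd1] at h
    simp at h

theorem closed_QT (hN : ‖T0‖ = (p : ℝ)) (φ : ℚ_[p] →+* ℂ) : Closed (QT φ χ T0) where
  pos _ _ _ _ _ _ _ h := ⟨h.1.1, h.1.2.1⟩
  ty0 _ _ _ _ _ _ h := h.1.2.2.1 rfl
  ty1 _ _ _ _ _ _ h := h.1.2.2.2 rfl
  child g d0 d1 a0 n0 a1 n1 m gc gI hm hgc hgI hne h := by
    obtain ⟨hT, hQ⟩ := h
    have hP : r0 (gc 0 ()) ≠ 0 := by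
      obtain ⟨j0, hj0⟩ := hne
      exact hj0
    obtain ⟨t0, tc, tI⟩ := closed_TC.child g d0 d1 a0 n0 a1 n1 m gc gI hm hgc hgI hne hT
    have nc01 : ¬ CritX χ T0 0 1 := not_critX01
    have hcc := bl_cc (hgc 0 ()) hm
    have hdeg := bl_deg (hgc 0 ())
    have hlow0 := bl_low0 (hgI ())
    have hlow1 := bl_low1 (hgc 0 ())
    have htop := bl_top (hgc 0 ()) (hgI ())
    have hbot := bl_bot (hgc 0 ())
    have hccI := bl_ccI (hgc 0 ()) (hgI ())
    have hcc0 : MvPolynomial.constantCoeff (gc 0 ()) = (r0 (gc 0 ())).coeff 0 := bl_cc0
    have hccc : ∀ c, MvPolynomial.constantCoeff (gc c ()) = (r0 (gc 0 ())).eval c := fun c =>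
      bl_ccc (hgc 0 ()) (hgc c ())
    have hsh : ∀ c, r0 (gc c ()) = (r0 (gc 0 ())).comp (X + C c) := fun c =>
      bl_sh (hgc 0 ()) (hgc c ())
    have hrI : ∀ i ≤ m, (r1 (gI ())).coeff i = (r0 (gc 0 ())).coeff (m - i) := fun i hi =>
      r1_lead' (hgc 0 ()) (hgI ()) i hi
    have hr0 := r0_chI (hgI ())
    have hr1 := r1_ch (hgc 0 ())
    have hsmC : m = 1 → ∀ c, ∃ ρ ≤ 1, Is1 (r0 (gc c ())) ρ := by
      intro h c
      rw [hsh c]
      exact is1_of_natDegree hP (by omega) c
    have hsmI : m = 1 → ∃ ρ ≤ 1, Is1 (r1 (gI ())) ρ := by
      intro h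
      subst h
      by_cases h1 : (r0 (gc 0 ())).coeff 1 = 0
      · refine ⟨1, le_rfl, fun i hi => ?_, ?_⟩
        · have : i = 0 := by omega
          rw [this, hrI 0 (by omega)]
          exact h1
        · rw [hrI 1 le_rfl]
          intro h2
          apply hP
          ext i
          rw [coeff_zero]
          rcases Nat.lt_or_ge 1 i with h | h
          · exact coeff_eq_zero_of_natDegree_lt (by omega)
          · interval_cases i
            · exact h2
            · exact h1
      · exact ⟨0, by omega, fun i hi => absurd hi (Nat.not_lt_zero i), by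
          rw [hrI 0 (by omega)]; exact h1⟩
    refine ⟨⟨t0, ?_⟩, fun c hc => ⟨tc c hc, ?_⟩, ⟨tI, ?_⟩⟩
    -- the chart at the origin
    · cases hQ with
      | unit _ _ _ _ _ _ hg _ => exact absurd hcc hg
      | big _ _ _ _ _ _ h0 h1 h =>
        refine QN.big _ _ _ _ _ _ _ (fun _ => ?_) h1 (Or.inl rfl)
        exact big_lt hm hT.2.2.1 hT.2.2.2 h0 h1 h
      | root h =>
        rcases Nat.lt_or_ge 2 m with h3 | h3
        · refine QN.big _ _ _ _ _ _ _ (fun _ => by omega) (by simp) (Or.inl rfl)
        · interval_cases m
          · exact QN.sm0 _ 1 le_rfl (hsmC rfl 0)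
          · have h2 := double_cone φ g h gc gI hgc hgI hP
            rcases h2 with ⟨γ, hγ, h2⟩ | ⟨γ, c, hγ, h2⟩
            · refine QN.unit _ _ _ _ _ _ _ ?_ (fun h => nc01 h.2)
              rw [hcc0, h2]
              simpa using hγ
            · by_cases hc : c = 0
              · subst hc
                refine QN.s0 _ ?_
                rw [h2, map_zero, sub_zero]
                exact ⟨fun i hi => by
                  rw [coeff_C_mul, coeff_X_pow, if_neg (by omega), mul_zero], by
                  rw [coeff_C_mul, coeff_X_pow, if_pos rfl, mul_one]; exact hγ⟩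
              · refine QN.unit _ _ _ _ _ _ _ ?_ (fun h => nc01 h.2)
                rw [hcc0, h2, coeff_zero_eq_eval_zero]
                simp [hγ, hc]
      | sm0 k hk h =>
        obtain ⟨ρ, hρ, h⟩ := h
        have hm1 : m = 1 := by
          have := is1_le h hlow0
          omega
        subst hm1
        exact QN.sm0 _ (a0 + 1) (by omega) (hsmC rfl 0)
      | sm1 k hk h =>
        obtain ⟨ρ, hρ, h⟩ := h
        have hm1 : m = 1 := by
          have := is1_le h hlow1
          omega
        subst hm1
        refine QN.unit _ _ _ _ _ _ _ ?_ (fun h => by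
          have := crit_eq hN h.2
          omega)
        rw [hcc0, ← hbot]
        have : ρ = 1 := by
          have := is1_le h hlow1
          omega
        rw [← this]
        exact h.2
      | s0 h =>
        have hm2 : m = 1 ∨ m = 2 := by
          have := is1_le h hlow0
          omega
        rcases hm2 with rfl | rfl
        · refine QN.unit _ _ _ _ _ _ _ ?_ (fun h => nc01 h.2)
          rw [hcc0]
          intro h2
          apply hP
          have h3 : (r0 (gc 0 ())).coeff 1 = 0 := by
            rw [← htop]
            exact h.1 1 (by omega)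
          rw [poly_lin hdeg, h2, h3]
          simp
        · exact QN.big _ _ _ _ _ _ _ (fun _ => by omega) (by simp) (Or.inl rfl)
      | s1 h =>
        have hm2 : m = 1 ∨ m = 2 := by
          have := is1_le h hlow1
          omega
        rcases hm2 with rfl | rfl
        · have h0 : (r0 (gc 0 ())).coeff 0 = 0 := by
            rw [← hbot]
            exact h.1 1 (by omega)
          obtain ⟨ρ', h2, h3⟩ := h.shift hr1
          have h4 : ρ' = 1 := by omega
          subst h4
          refine QN.s3' _ ⟨fun i hi => ?_, ?_⟩ h3
          · have : i = 0 := by omega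
            rw [this]
            exact h0
          · intro h5
            apply hP
            rw [poly_lin hdeg, h0, h5]
            simp
        · refine QN.unit _ _ _ _ _ _ _ ?_ (fun h => by
            have := crit_eq hN h.1
            omega)
          rw [hcc0, ← hbot]
          exact h.2
      | s3 h0 h1 =>
        have hm1 : m = 1 := by
          have := is1_le h0 hlow0
          omega
        subst hm1
        refine QN.unit _ _ _ _ _ _ _ ?_ (fun h => by
            have := crit_eq hN h.1
            omega)
        rw [hcc0, ← hbot]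
        exact h1.2
      | s3' h0 h1 =>
        have hm1 : m = 1 := by
          have := is1_le h0 hlow0
          omega
        subst hm1
        refine QN.unit _ _ _ _ _ _ _ ?_ (fun h => by
            have := crit_eq hN h.1
            omega)
        rw [hcc0, ← hbot]
        exact h1.2
    -- the other points
    · cases hQ with
      | unit _ _ _ _ _ _ hg _ => exact absurd hcc hg
      | big _ _ _ _ _ _ h0 h1 h =>
        refine QN.big _ _ _ _ _ _ _ (fun _ => ?_) (by simp) (Or.inl rfl)
        exact big_lt hm hT.2.2.1 hT.2.2.2 h0 h1 h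
      | root h =>
        rcases Nat.lt_or_ge 2 m with h3 | h3
        · refine QN.big _ _ _ _ _ _ _ (fun _ => by omega) (by simp) (Or.inl rfl)
        · interval_cases m
          · exact QN.sm0 _ 1 le_rfl (hsmC rfl c)
          · have h2 := double_cone φ g h gc gI hgc hgI hP
            rcases h2 with ⟨γ, hγ, h2⟩ | ⟨γ, c', hγ, h2⟩
            · refine QN.unit _ _ _ _ _ _ _ ?_ (fun h => nc01 h.2)
              rw [hccc c, h2]
              simpa using hγ
            · by_cases hcc' : c = c'
              · subst hcc'
                refine QN.s0 _ ?_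
                rw [hsh c, h2]
                have h5 : (C γ * (X - C c) ^ 2 : ℚ_[p][X]).comp (X + C c) = C γ * X ^ 2 := by
                  rw [mul_comp, pow_comp, sub_comp, C_comp, X_comp, C_comp, add_sub_cancel_right]
                rw [h5]
                exact ⟨fun i hi => by
                  rw [coeff_C_mul, coeff_X_pow, if_neg (by omega), mul_zero], by
                  rw [coeff_C_mul, coeff_X_pow, if_pos rfl, mul_one]; exact hγ⟩
              · refine QN.unit _ _ _ _ _ _ _ ?_ (fun h => nc01 h.2)
                rw [hccc c, h2]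
                simp [hγ, sub_ne_zero.2 hcc']
      | sm0 k hk h =>
        obtain ⟨ρ, hρ, h⟩ := h
        have hm1 : m = 1 := by
          have := is1_le h hlow0
          omega
        subst hm1
        exact QN.sm0 _ (a0 + 1) (by omega) (hsmC rfl c)
      | sm1 k hk h =>
        obtain ⟨ρ, hρ, h⟩ := h
        have hm1 : m = 1 := by
          have := is1_le h hlow1
          omega
        subst hm1
        have e1 : 0 + a1 + 1 = a1 + 1 := by omega
        have e2 : 1 + (a1 + 1) = a1 + 1 + 1 := by omega
        rw [e1, e2]
        exact QN.sm0 _ (a1 + 1) (by omega) (hsmC rfl c)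
      | s0 h =>
        have hm2 : m = 1 ∨ m = 2 := by
          have := is1_le h hlow0
          omega
        rcases hm2 with rfl | rfl
        · refine QN.unit _ _ _ _ _ _ _ ?_ (fun h => nc01 h.2)
          have h3 : (r0 (gc 0 ())).coeff 1 = 0 := by
            rw [← htop]
            exact h.1 1 (by omega)
          rw [hccc c, poly_lin hdeg, h3]
          intro h2
          apply hP
          simp at h2
          rw [poly_lin hdeg, h2, h3]
          simp
        · exact QN.big _ _ _ _ _ _ _ (fun _ => by omega) (by simp) (Or.inl rfl)
      | s1 h =>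
        have hm2 : m = 1 ∨ m = 2 := by
          have := is1_le h hlow1
          omega
        rcases hm2 with rfl | rfl
        · have h0 : (r0 (gc 0 ())).coeff 0 = 0 := by
            rw [← hbot]
            exact h.1 1 (by omega)
          refine QN.unit _ _ _ _ _ _ _ ?_ (fun h => nc01 h.2)
          rw [hccc c, poly_lin hdeg, h0]
          intro h2
          apply hP
          simp [hc] at h2
          rw [poly_lin hdeg, h2, h0]
          simp
        · exact QN.big _ _ _ _ _ _ _ (fun _ => by omega) (by simp) (Or.inl rfl)
      | s3 h0 h1 =>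
        have hm1 : m = 1 := by
          have := is1_le h0 hlow0
          omega
        subst hm1
        exact QN.big _ _ _ _ _ _ _ (fun _ => by omega) (by simp) (Or.inl rfl)
      | s3' h0 h1 =>
        have hm1 : m = 1 := by
          have := is1_le h0 hlow0
          omega
        subst hm1
        exact QN.big _ _ _ _ _ _ _ (fun _ => by omega) (by simp) (Or.inl rfl)
    -- the chart at infinity
    · cases hQ with
      | unit _ _ _ _ _ _ hg _ => exact absurd hcc hg
      | big _ _ _ _ _ _ h0 h1 h =>
        refine QN.big _ _ _ _ _ _ _ h0 (fun _ => ?_) (Or.inr rfl)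
        exact big_lt hm hT.2.2.1 hT.2.2.2 h0 h1 h
      | root h =>
        rcases Nat.lt_or_ge 2 m with h3 | h3
        · refine QN.big _ _ _ _ _ _ _ (by simp) (fun _ => by omega) (Or.inr rfl)
        · interval_cases m
          · exact QN.sm1 _ 1 le_rfl (hsmI rfl)
          · have h2 := double_cone φ g h gc gI hgc hgI hP
            rcases h2 with ⟨γ, hγ, h2⟩ | ⟨γ, c', hγ, h2⟩
            · refine QN.s1 _ ⟨fun i hi => ?_, ?_⟩
              · rw [hrI i (by omega), h2, coeff_C, if_neg (by omega)]
              · rw [hrI 2 le_rfl, h2, coeff_C, if_pos rfl]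
                exact hγ
            · refine QN.unit _ _ _ _ _ _ _ ?_ (fun h => nc01 h.1)
              rw [hccI, h2, coeff_C_mul]
              refine mul_ne_zero hγ ?_
              have h5 : ((X - C c' : ℚ_[p][X]) ^ 2).coeff 2 = 1 := by
                have h6 : ((X - C c' : ℚ_[p][X]) ^ 2).natDegree = 2 := by
                  rw [(monic_X_sub_C c').natDegree_pow, natDegree_X_sub_C]
                have h7 := ((monic_X_sub_C c').pow 2).coeff_natDegree
                rwa [h6] at h7
              rw [h5]
              exact one_ne_zero
      | sm0 k hk h =>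
        obtain ⟨ρ, hρ, h⟩ := h
        have hm1 : m = 1 := by
          have := is1_le h hlow0
          omega
        subst hm1
        refine QN.unit _ _ _ _ _ _ _ ?_ (fun h => by
          have := crit_eq hN h.1
          omega)
        rw [hccI, ← htop]
        have : ρ = 1 := by
          have := is1_le h hlow0
          omega
        rw [← this]
        exact h.2
      | sm1 k hk h =>
        obtain ⟨ρ, hρ, h⟩ := h
        have hm1 : m = 1 := by
          have := is1_le h hlow1
          omega
        subst hm1
        have e1 : 0 + a1 + 1 = a1 + 1 := by omega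
        have e2 : 1 + (a1 + 1) = a1 + 1 + 1 := by omega
        rw [e1, e2]
        exact QN.sm1 _ (a1 + 1) (by omega) (hsmI rfl)
      | s0 h =>
        have hm2 : m = 1 ∨ m = 2 := by
          have := is1_le h hlow0
          omega
        rcases hm2 with rfl | rfl
        · have h3 : (r0 (gc 0 ())).coeff 1 = 0 := by
            rw [← htop]
            exact h.1 1 (by omega)
          obtain ⟨ρ', h2, h4⟩ := h.shift hr0
          have h5 : ρ' = 1 := by omega
          subst h5
          refine QN.s3 _ h4 ⟨fun i hi => ?_, ?_⟩
          · have : i = 0 := by omega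
            rw [this, hrI 0 (by omega)]
            exact h3
          · rw [hrI 1 le_rfl]
            intro h6
            apply hP
            have h7 : (r0 (gc 0 ())).coeff 0 = 0 := h6
            rw [poly_lin hdeg, h7, h3]
            simp
        · refine QN.unit _ _ _ _ _ _ _ ?_ (fun h => by
            have := crit_eq hN h.2
            omega)
          rw [hccI, ← htop]
          exact h.2
      | s1 h =>
        have hm2 : m = 1 ∨ m = 2 := by
          have := is1_le h hlow1
          omega
        rcases hm2 with rfl | rfl
        · have h0 : (r0 (gc 0 ())).coeff 0 = 0 := by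
            rw [← hbot]
            exact h.1 1 (by omega)
          refine QN.unit _ _ _ _ _ _ _ ?_ (fun h => nc01 h.1)
          rw [hccI]
          intro h2
          apply hP
          rw [poly_lin hdeg, h2, h0]
          simp
        · exact QN.big _ _ _ _ _ _ _ (by simp) (fun _ => by omega) (Or.inr rfl)
      | s3 h0 h1 =>
        have hm1 : m = 1 := by
          have := is1_le h0 hlow0
          omega
        subst hm1
        refine QN.unit _ _ _ _ _ _ _ ?_ (fun h => by
            have := crit_eq hN h.2
            omega)
        rw [hccI, ← htop]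
        exact h0.2
      | s3' h0 h1 =>
        have hm1 : m = 1 := by
          have := is1_le h0 hlow0
          omega
        subst hm1
        refine QN.unit _ _ _ _ _ _ _ ?_ (fun h => by
            have := crit_eq hN h.2
            omega)
        rw [hccI, ← htop]
        exact h0.2

end Pool.Agent.T6.H26.PX
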