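import Pool.Agent.T6.H26.PXI

set_option autoImplicit false
set_option linter.unusedSectionVars false
set_option linter.unusedVariables false

/-! # The points with a simple root at `-1`: no pole -/

namespace Pool.Agent.T6.H26.PX

open MeasureTheory Set Pool.Agent.W427.SMC Pool.Agent.Y230.PT
open scoped ENNReal
open Pool.Agent.W574.SM Pool.Agent.Y230.RE Pool.Agent.Y230.PL Polynomial

variable {p : ℕ} [Fact p.Prime]

attribute [local instance] msK bsK

variable {χ : ℚ_[p] → ℂ} {e : ℕ} {T0 : ℂ}

/-- the model of a constant -/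
theorem spX_const (hN : ‖T0‖ = (p : ℝ)) {P : ℚ_[p][X]} {γ : ℚ_[p]} (hγ : γ ≠ 0) (hP : P = C γ)
    {m a0 n0 a1 n1 : ℕ} (h1 : ¬ CritX χ T0 (a0 + m) n0) (h2 : ¬ CritX χ T0 a1 n1) :
    SpX χ T0 P m a0 n0 a1 n1 γ 0 ∅ (fun _ => 0) where
  hγ := hγ
  hP := by rw [hP]; simp
  h0T := by simp
  hdeg := by simp
  hI := by simpa using h1
  h0 := by simpa using h2
  hc := by simp
  hcard := by simp
  h1 := by simp
  h2 := by simp

/-- the model of a power of the variable -/
theorem spX_pow (hN : ‖T0‖ = (p : ℝ)) {P : ℚ_[p][X]} {γ : ℚ_[p]} (hγ : γ ≠ 0)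
    {m a0 n0 a1 n1 : ℕ} (hP : P = C γ * X ^ m) (h1 : ¬ CritX χ T0 a0 n0)
    (h2 : ¬ CritX χ T0 (a1 + m) n1) :
    SpX χ T0 P m a0 n0 a1 n1 γ m ∅ (fun _ => 0) where
  hγ := hγ
  hP := by rw [hP]; simp
  h0T := by simp
  hdeg := by simp
  hI := by simpa using h1
  h0 := h2
  hc := by simp
  hcard := by simp
  h1 := by simp
  h2 := by simp

theorem ncx_of_ne (hN : ‖T0‖ = (p : ℝ)) {a n : ℕ} (h : a ≠ n) : ¬ CritX χ T0 a n :=
  fun h' => h (crit_eq hN h')

/-- **No pole at a point with a simple root at `-1`.** -/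
theorem local_m1 (hχ : IsCh χ e) (φ : ℚ_[p] →+* ℂ) (f : Unit → A ℚ_[p]) (b : ℂ[X]) (hb0 : b ≠ 0)
    (hb : IsFunctionalEq (fun j => mp φ (f j)) b) {T0 : ℂ} (hT0 : T0 ≠ 0)
    (hN : ‖T0‖ = (p : ℝ)) (hr : b.rootMultiplicity (-1) ≤ 1) (h11 : ¬ CritX χ T0 1 1)
    (P : Fin 2 → ℚ_[p]) (hne : ∃ j, f j ≠ 0) :
    LReg T0 0 (ZX (HX χ (nd f P ()) 0 1 0 1)) (0, 0) := by
  have hgne := tr_ne_zero f P hne
  have hT : KT (nd f P) false false := exists_KT (nd f P) false false hgne (by simp) (by simp)
  have htc : TC (nd f P) false false 0 1 0 1 := ⟨le_rfl, le_rfl, fun _ => ⟨rfl, rfl⟩,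
    fun _ => ⟨rfl, rfl⟩⟩
  have hDZ : ¬ DZ (-1) (fun j => mp φ (nd f P j)) 0 1 0 1 := by
    rintro ⟨Λ, hΛ, hz⟩
    have h4 : (fun j => mp φ (nd f P j)) = fun j => W574.SM.translate (fun i => φ (P i))
        (mp φ (f j)) := by
      funext j
      exact mp_tr φ P (f j)
    rw [h4] at hΛ
    have h5 := zc_root (fun j => mp φ (f j)) b hb (fun i => φ (P i)) (-1) hΛ hz
    have h6 := (le_rootMultiplicity_iff hb0).2 h5
    omega
  have hm11 : ∀ m : ℕ, 1 ≤ m → ¬ CritX χ T0 m 1 := by
    intro m hm h
    have := crit_eq hN h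
    subst this
    exact h11 h
  have hCC := main_CX hχ hT0 (QT φ χ T0) (closed_QT hN φ)
    (fun g d0 d1 a0 n0 a1 n1 hc hj ⟨h1, h2⟩ => by
      obtain ⟨hT, hQ⟩ := hc
      cases hQ with
      | unit _ _ _ _ _ _ hg h => exact h ⟨h1, h2⟩
      | big _ _ _ _ _ _ g0 g1 h =>
        rcases Bool.eq_false_or_eq_true d0 with hd0 | hd0
        · have := g0 hd0
          have := crit_eq hN h1
          omega
        · obtain ⟨rfl, rfl⟩ := hT.2.2.1 hd0
          exact not_critX01 h1
      | root h => exact not_critX01 h1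
      | sm0 k hk h => exact not_critX01 h2
      | sm1 k hk h => exact not_critX01 h1
      | s0 h => exact not_critX01 h2
      | s1 h => exact not_critX01 h1
      | s3 g0 g1 => exact h11 (crit_23 hT0 h1 h2)
      | s3' g0 g1 => exact h11 (crit_23 hT0 h2 h1))
    (fun g d0 a0 n0 m hm hc h κ hgj h0 h1 hj => hm11 m hm)
    (fun g d1 a1 n1 m hm hc h κ hgj h0 h1 hj => hm11 m hm)
    (fun g d0 d1 a0 n0 a1 n1 m gc gI hm hgc hgI hne' hc hcrit => by
      have hP : r0 (gc 0 ()) ≠ 0 := by
        obtain ⟨j0, hj0⟩ := hne'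
        exact hj0
      have hcc := bl_cc (hgc 0 ()) hm
      have hdeg := bl_deg (hgc 0 ())
      have hlow0 := bl_low0 (hgI ())
      have hlow1 := bl_low1 (hgc 0 ())
      have htop := bl_top (hgc 0 ()) (hgI ())
      have hbot := bl_bot (hgc 0 ())
      have heq := crit_eq hN hcrit
      obtain ⟨hT, hQ⟩ := hc
      cases hQ with
      | unit _ _ _ _ _ _ hg _ => exact absurd hcc hg
      | big _ _ _ _ _ _ g0 g1 h =>
        exfalso
        have := big_lt hm hT.2.2.1 hT.2.2.2 g0 g1 h
        omega
      | root h =>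
        have hm2 : m = 2 := by omega
        subst hm2
        rcases double_cone φ g h gc gI hgc hgI hP with ⟨γ, hγ, h2⟩ | ⟨γ, c, hγ, h2⟩
        · exact ⟨γ, 0, ∅, fun _ => 0, spX_const hN hγ h2 (ncx_of_ne hN (by norm_num))
            (ncx_of_ne hN (by norm_num))⟩
        · by_cases hc : c = 0
          · subst hc
            rw [map_zero, sub_zero] at h2
            exact ⟨γ, 2, ∅, fun _ => 0, spX_pow hN hγ h2 (ncx_of_ne hN (by norm_num))
              (ncx_of_ne hN (by norm_num))⟩
          · refine ⟨γ, 0, {c}, fun _ => 2, ⟨hγ, ?_, by simpa using fun h => hc h.symm, by simp,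
              ?_, ?_, ?_, by simp, ?_, by simp⟩⟩
            · rw [h2]
              simp
            · exact ncx_of_ne hN (by simp)
            · exact ncx_of_ne hN (by norm_num)
            · intro c' _
              exact ncx_of_ne hN (by norm_num)
            · intro _
              simp
      | sm0 k hk h =>
        obtain ⟨ρ, hρ, h⟩ := h
        have := is1_le h hlow0
        exact absurd heq (by omega)
      | sm1 k hk h =>
        obtain ⟨ρ, hρ, h⟩ := h
        have := is1_le h hlow1
        exact absurd heq (by omega)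
      | s0 h =>
        have hm2 : m = 1 := by omega
        subst hm2
        have h3 : (r0 (gc 0 ())).coeff 1 = 0 := by
          rw [← htop]
          exact h.1 1 (by omega)
        have h4 : r0 (gc 0 ()) = C ((r0 (gc 0 ())).coeff 0) := by
          conv_lhs => rw [poly_lin hdeg, h3]
          simp
        refine ⟨(r0 (gc 0 ())).coeff 0, 0, ∅, fun _ => 0, spX_const hN (fun h5 => hP ?_) h4
          (ncx_of_ne hN (by norm_num)) (ncx_of_ne hN (by norm_num))⟩
        rw [h4, h5, map_zero]
      | s1 h =>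
        have hm2 : m = 1 := by omega
        subst hm2
        have h3 : (r0 (gc 0 ())).coeff 0 = 0 := by
          rw [← hbot]
          exact h.1 1 (by omega)
        have h4 : r0 (gc 0 ()) = C ((r0 (gc 0 ())).coeff 1) * X ^ 1 := by
          conv_lhs => rw [poly_lin hdeg, h3]
          simp
        refine ⟨(r0 (gc 0 ())).coeff 1, 1, ∅, fun _ => 0, spX_pow hN (fun h5 => hP ?_) h4
          (ncx_of_ne hN (by norm_num)) (ncx_of_ne hN (by norm_num))⟩
        rw [h4, h5, map_zero, zero_mul]
      | s3 g0 g1 =>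
        have := is1_le g0 hlow0
        exact absurd heq (by omega)
      | s3' g0 g1 =>
        have := is1_le g0 hlow0
        exact absurd heq (by omega))
    (fun g d0 d1 a0 n0 a1 n1 hc hcrit ρ hρ h => by
      obtain ⟨hT, hQ⟩ := hc
      cases hQ with
      | unit _ _ _ _ _ _ hg h' =>
        have : ρ = 0 := is1_cc hρ (by rw [r0_coeff, ← cc_eq]; exact hg)
        subst this
        exact h' ⟨hcrit, h⟩
      | big _ _ _ _ _ _ g0 g1 h' =>
        rcases Bool.eq_false_or_eq_true d0 with hd0 | hd0
        · have := g0 hd0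
          have := crit_eq hN hcrit
          omega
        · obtain ⟨rfl, rfl⟩ := hT.2.2.1 hd0
          exact not_critX01 hcrit
      | root h' => exact not_critX01 hcrit
      | sm0 k hk h' =>
        have := crit_eq hN hcrit
        omega
      | sm1 k hk h' => exact not_critX01 hcrit
      | s0 h' =>
        have := hρ.unique h'
        subst this
        exact ncx_of_ne hN (by norm_num) h
      | s1 h' => exact not_critX01 hcrit
      | s3 g0 g1 =>
        have := hρ.unique g0
        subst this
        exact ncx_of_ne hN (by norm_num) h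
      | s3' g0 g1 =>
        have := hρ.unique g0
        subst this
        exact ncx_of_ne hN (by norm_num) h)
    (fun g d0 d1 a0 n0 a1 n1 hc hcrit ρ hρ h => by
      obtain ⟨hT, hQ⟩ := hc
      cases hQ with
      | unit _ _ _ _ _ _ hg h' =>
        have : ρ = 0 := is1_cc hρ (by rw [r1_coeff, ← cc_eq]; exact hg)
        subst this
        exact h' ⟨h, hcrit⟩
      | big _ _ _ _ _ _ g0 g1 h' =>
        rcases Bool.eq_false_or_eq_true d1 with hd1 | hd1
        · have := g1 hd1
          have := crit_eq hN hcrit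
          omega
        · obtain ⟨rfl, rfl⟩ := hT.2.2.2 hd1
          exact not_critX01 hcrit
      | root h' => exact not_critX01 hcrit
      | sm0 k hk h' => exact not_critX01 hcrit
      | sm1 k hk h' =>
        have := crit_eq hN hcrit
        omega
      | s0 h' => exact not_critX01 hcrit
      | s1 h' =>
        have := hρ.unique h'
        subst this
        exact ncx_of_ne hN (by norm_num) h
      | s3 g0 g1 =>
        have := hρ.unique g1
        subst this
        exact ncx_of_ne hN (by norm_num) h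
      | s3' g0 g1 =>
        have := hρ.unique g1
        subst this
        exact ncx_of_ne hN (by norm_num) h)
    hT 0 1 0 1 ⟨htc, QN.root _ ⟨htc, hDZ, hgne, by simp, by simp⟩⟩
  exact main_CX0 hχ hT0 _ hCC

end Pool.Agent.T6.H26.PX
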