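import Pool.Agent.T6.H26.PXJ

set_option autoImplicit false
set_option linter.unusedSectionVars false
set_option linter.unusedVariables false

/-! # The zeta functions of plane curves with characters -/

namespace Pool.Agent.T6.H26.PX

open MeasureTheory Set Pool.Agent.W427.SMC Pool.Agent.Y230.PT
open scoped ENNReal
open Pool.Agent.W574.SM Pool.Agent.Y230.RE Pool.Agent.Y230.PL Polynomial

variable {p : ℕ} [Fact p.Prime]

attribute [local instance] msK bsK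

variable {χ : ℚ_[p] → ℂ} {e : ℕ} {T0 : ℂ} {M : ℕ}

theorem HX_nd (f : Unit → A ℚ_[p]) (P : ℚ_[p] × ℚ_[p]) (s : ℝ) (x : ℚ_[p] × ℚ_[p]) :
    HX χ (f ()) 0 1 0 1 s (P.1 + x.1, P.2 + x.2) = HX χ (nd f ![P.1, P.2] ()) 0 1 0 1 s x := by
  unfold HX
  rw [ww01, ww01, ww01, ww01]
  congr 2
  unfold nd
  rw [ev_aeval]
  simp only [Matrix.cons_val_zero, Matrix.cons_val_one]
  rw [map_add, map_add, ev_X0, ev_X1, ev_C, ev_C, add_comm x.1, add_comm x.2]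

theorem lregX_shV {H : ℝ → ℚ_[p] × ℚ_[p] → ℂ} (hH : OkC H) (f : ℚ_[p] → ℚ_[p])
    (hf : Continuous f) {x : ℚ_[p] × ℚ_[p]}
    (h : LReg T0 M (ZX (fun s x => H s (x.1, f x.1 + x.2))) x) :
    LReg T0 M (ZX H) (x.1, f x.1 + x.2) :=
  LReg.homeo (shV f hf) (fun C hC s hs => ZX_shearV H hH f hf hC hs) h

theorem lregX_shU {H : ℝ → ℚ_[p] × ℚ_[p] → ℂ} (hH : OkC H)
    (f : ℚ_[p] → ℚ_[p]) (hf : Continuous f) {x : ℚ_[p] × ℚ_[p]}
    (h : LReg T0 M (ZX (fun s x => H s (f x.2 + 1 * x.1, x.2))) x) :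
    LReg T0 M (ZX H) (f x.2 + 1 * x.1, x.2) :=
  LReg.homeo (shU 1 one_ne_zero f hf) (fun C hC s hs => by
    rw [ZX_shearU H hH 1 one_ne_zero f hf hC hs, norm_one, Complex.ofReal_one, one_mul]
    rfl) h

theorem lregX_pt (hχ : IsCh χ e) (f : Unit → A ℚ_[p]) (P : ℚ_[p] × ℚ_[p])
    (h : LReg T0 M (ZX (HX χ (nd f ![P.1, P.2] ()) 0 1 0 1)) (0, 0)) :
    LReg T0 M (ZX (HX χ (f ()) 0 1 0 1)) P := by
  have h1 : LReg T0 M (ZX (fun s x => (fun s (x : ℚ_[p] × ℚ_[p]) =>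
      HX χ (f ()) 0 1 0 1 s (x.1, P.2 + x.2)) s ((fun _ => P.1) x.2 + 1 * x.1, x.2))) (0, 0) := by
    refine h.congr isOpen_univ trivial fun C _ _ s _ => ?_
    unfold ZX
    congr 1
    funext x
    have h2 := HX_nd (χ := χ) f P s x
    simp only [one_mul]
    exact h2.symm
  have hok : OkC (fun s (x : ℚ_[p] × ℚ_[p]) => HX χ (f ()) 0 1 0 1 s (x.1, P.2 + x.2)) :=
    (okC_HX hχ (f ()) 0 1 0 1).comp (fun x => (x.1, P.2 + x.2)) (by fun_prop)
  have h2 := lregX_shU hok (fun _ => P.1) continuous_const h1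
  simp only [mul_zero, add_zero] at h2
  have h4 := lregX_shV (okC_HX hχ (f ()) 0 1 0 1) (fun _ => P.2) continuous_const (x := (P.1, 0)) h2
  simpa using h4

/-- the zeta function of a plane curve, with a character -/
noncomputable def FX (χ : ℚ_[p] → ℂ) (g : A ℚ_[p]) (s : ℝ) : ℂ := ZX (HX χ g 0 1 0 1) ub s

theorem reg_FX_C (hχ : IsCh χ e) (φ : ℚ_[p] →+* ℂ) (g : A ℚ_[p]) (hg : g ≠ 0) (b : ℂ[X])
    (hb : IsFunctionalEq (fun _ : Unit => mp φ g) b) {T0 : ℂ} (hT0 : T0 ≠ 0)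
    (hr : b.eval ((rr p T0 : ℝ) : ℂ) ≠ 0) : Reg p T0 0 (FX χ g) :=
  LReg.glue (addF_ZX (okC_HX hχ g 0 1 0 1)) CO_ub fun x _ => lregX_pt hχ (fun _ => g) x
    (local_CX hχ φ (fun _ => g) b hb hT0 hr ![x.1, x.2] ⟨(), hg⟩)

theorem reg_FX_sm (hχ : IsCh χ e) (g : A ℚ_[p]) (hg : g ≠ 0) {T0 : ℂ} (hT0 : T0 ≠ 0)
    (hT1 : ‖T0‖ ≤ 1) : Reg p T0 0 (FX χ g) :=
  LReg.glue (addF_ZX (okC_HX hχ g 0 1 0 1)) CO_ub fun x _ => lregX_pt hχ (fun _ => g) x
    (local_sm hχ hT0 hT1 (fun _ => g) ⟨(), hg⟩ ![x.1, x.2])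

theorem reg_FX_m1 (hχ : IsCh χ e) (φ : ℚ_[p] →+* ℂ) (g : A ℚ_[p]) (hg : g ≠ 0) (b : ℂ[X])
    (hb0 : b ≠ 0) (hb : IsFunctionalEq (fun _ : Unit => mp φ g) b) {T0 : ℂ} (hT0 : T0 ≠ 0)
    (hN : ‖T0‖ = (p : ℝ)) (hr : b.rootMultiplicity (-1) ≤ 1) (h11 : ¬ CritX χ T0 1 1) :
    Reg p T0 0 (FX χ g) :=
  LReg.glue (addF_ZX (okC_HX hχ g 0 1 0 1)) CO_ub fun x _ => lregX_pt hχ (fun _ => g) x
    (local_m1 hχ φ (fun _ => g) b hb0 hb hT0 hN hr h11 ![x.1, x.2] ⟨(), hg⟩)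

/-- rationality, with the orders of the poles -/
theorem exists_ratX (F : ℝ → ℂ) (h0 : ∀ T0, T0 ≠ 0 → ‖T0‖ ≤ 1 → Reg p T0 0 F) :
    ∃ D P : ℂ[X], D ≠ 0 ∧ (∀ s : ℝ, 0 ≤ s →
      D.eval ((tr' p s : ℝ) : ℂ) * F s = P.eval ((tr' p s : ℝ) : ℂ)) ∧
      ∀ T0, T0 ≠ 0 → ∀ m : ℕ, Reg p T0 m F → D.rootMultiplicity T0 ≤ m := by
  classical
  obtain ⟨D1, P1, hD1, h1⟩ := h0 1 one_ne_zero (by simp)
  simp only [pow_zero, one_mul] at h1
  have hD10 : D1 ≠ 0 := by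
    rintro rfl
    simp at hD1
  set g := EuclideanDomain.gcd D1 P1 with hg
  have hg0 : g ≠ 0 := fun h => hD10 (EuclideanDomain.gcd_eq_zero_iff.1 h).1
  have hgD : g ∣ D1 := EuclideanDomain.gcd_dvd_left D1 P1
  have hgP : g ∣ P1 := EuclideanDomain.gcd_dvd_right D1 P1
  obtain ⟨a, b, hab⟩ : ∃ a b : ℂ[X], g = D1 * a + P1 * b :=
    ⟨_, _, EuclideanDomain.gcd_eq_gcd_ab D1 P1⟩
  clear_value g
  obtain ⟨D, hD⟩ := hgD
  obtain ⟨P, hP⟩ := hgP
  have hcop : IsCoprime D P := by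
    refine ⟨a, b, ?_⟩
    apply mul_left_cancel₀ hg0
    linear_combination -hab - a * hD - b * hP
  have hD0 : D ≠ 0 := by
    rintro rfl
    rw [mul_zero] at hD
    exact hD10 hD
  -- comparison of the fractions
  have hcmp : ∀ D' P' : ℂ[X], (∀ s : ℝ, 0 ≤ s → D'.eval ((tr' p s : ℝ) : ℂ) * F s =
      P'.eval ((tr' p s : ℝ) : ℂ)) → D' * P = P' * D := by
    intro D' P' h2
    apply mul_left_cancel₀ hg0
    have h3 : D' * P1 = P' * D1 := by
      refine poly_eq_of_tr (p := p) _ _ fun s hs => ?_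
      rw [eval_mul, eval_mul, ← h2 s hs, ← h1 s hs]
      ring
    linear_combination h3 - D' * hP + P' * hD
  refine ⟨D, P, hD0, ?_, ?_⟩
  · intro s hs
    obtain ⟨D', P', hD', h2⟩ := h0 ((tr' p s : ℝ) : ℂ) (tr_ne s) (by
      rw [Complex.norm_real, Real.norm_of_nonneg (tr'_pos p s).le]
      exact tr'_le_one' hs)
    simp only [pow_zero, one_mul] at h2
    have h3 := hcmp D' P' h2
    have h4 := congrArg (fun Q : ℂ[X] => Q.eval ((tr' p s : ℝ) : ℂ)) h3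
    simp only [eval_mul] at h4
    rw [← h2 s hs] at h4
    apply mul_left_cancel₀ hD'
    rw [h4]
    ring
  · intro T0 hT0 m hm
    obtain ⟨D', P', hD', h2⟩ := hm
    have h3 := hcmp _ P' h2
    have h4 : D ∣ (X - C T0) ^ m * D' := by
      refine hcop.dvd_of_dvd_mul_right ?_
      rw [h3]
      exact dvd_mul_left _ _
    have hD'0 : D' ≠ 0 := by
      rintro rfl
      simp at hD'
    have hne : (X - C T0) ^ m * D' ≠ 0 :=
      mul_ne_zero (pow_ne_zero _ (X_sub_C_ne_zero T0)) hD'0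
    have h5 := rootMultiplicity_le_rootMultiplicity_of_dvd hne h4 T0
    rw [rootMultiplicity_mul hne, rootMultiplicity_X_sub_C_pow,
      rootMultiplicity_eq_zero (show ¬ IsRoot D' T0 from hD'), add_zero] at h5
    exact h5

/-- the trivial character -/
noncomputable def ch1 (p : ℕ) [Fact p.Prime] (x : ℚ_[p]) : ℂ := open Classical in
  if x = 0 then 0 else 1

theorem isCh_one : IsCh (ch1 p) 1 where
  mul x y := by
    unfold ch1
    by_cases hx : x = 0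
    · simp [hx]
    · by_cases hy : y = 0
      · simp [hy]
      · rw [if_neg hx, if_neg hy, if_neg (mul_ne_zero hx hy), one_mul]
  one := by
    unfold ch1
    rw [if_neg one_ne_zero]
  prm := by
    unfold ch1
    rw [if_neg]
    exact_mod_cast (Fact.out : p.Prime).ne_zero
  zer := by
    unfold ch1
    rw [if_pos rfl]
  loc x hx := by
    unfold ch1
    rw [if_neg]
    rintro rfl
    rw [zero_sub, norm_neg, norm_one, pow_one] at hx
    exact absurd hx (not_le.2 qr_lt_one)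
  bdd x := by
    unfold ch1
    split_ifs <;> simp
  pos := le_rfl

end Pool.Agent.T6.H26.PX
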