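import Pool.Agent.T6.H26.PXK
import Pool.Agent.T6.H26.FTXE

set_option autoImplicit false
set_option linter.unusedSectionVars false
set_option linter.unusedVariables false

/-! # The sequences of the values, with characters -/

namespace Pool.Agent.T6.H26.PX

open MeasureTheory Set Pool.Agent.W427.SMC Pool.Agent.Y230.PT Pool.Agent.Y230.PS
open Pool.Agent.Y230.TH
open scoped ENNReal
open Pool.Agent.W574.SM Pool.Agent.Y230.RE Polynomial

variable {p : ℕ} [Fact p.Prime]

attribute [local instance] msZ bsZ msK bsK nz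

variable {χ : ℚ_[p] → ℂ} {e : ℕ}

theorem inc_cont : Continuous (inc p) := (inc_emb p).continuous

section seq

variable {Ω : Type} [MeasurableSpace Ω] (μ : Measure Ω) [IsProbabilityMeasure μ] (G : Ω → ℤ_[p])

/-- the part where the values have the norm `p ^ (-N)` -/
noncomputable def Sx (χ : ℚ_[p] → ℂ) (N : ℕ) : ℂ :=
  ∫ x, (if ‖G x‖ = ((p : ℝ)⁻¹) ^ N then χ (inc p (G x)) else 0) ∂μ

/-- the zeta function with a character -/
noncomputable def Zx (χ : ℚ_[p] → ℂ) (s : ℝ) : ℂ :=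
  ∫ x, χ (inc p (G x)) * ((‖G x‖ ^ s : ℝ) : ℂ) ∂μ

theorem meas_chi (hχ : IsCh χ e) (hG : Measurable G) : Measurable (fun x => χ (inc p (G x))) :=
  hχ.meas.comp (inc_cont.measurable.comp hG)

theorem meas_set (hG : Measurable G) (N : ℕ) : MeasurableSet {x | ‖G x‖ = ((p : ℝ)⁻¹) ^ N} :=
  measurableSet_eq_fun hG.norm measurable_const

theorem Sx_bdd (hχ : IsCh χ e) (N : ℕ) : ‖Sx μ G χ N‖ ≤ 1 := by
  unfold Sx
  have h := norm_integral_le_of_norm_le_const (μ := μ)
    (f := fun x => if ‖G x‖ = ((p : ℝ)⁻¹) ^ N then χ (inc p (G x)) else 0) (C := 1)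
    (Filter.Eventually.of_forall fun x => by
      split_ifs
      · exact hχ.bdd _
      · simp)
  simpa using h

theorem pinv_inj (p : ℕ) [Fact p.Prime] : Function.Injective fun N : ℕ => ((p : ℝ)⁻¹) ^ N := by
  intro a b h
  have h1 : ((p : ℝ)⁻¹) ^ a = ((p : ℝ)⁻¹) ^ b := h
  have h2 := (pw_le_iff (p := p) a b).1 h1.le
  have h3 := (pw_le_iff (p := p) b a).1 h1.ge
  omega

theorem pinv_s (N : ℕ) (s : ℝ) : ((((p : ℝ)⁻¹) ^ N) ^ s : ℝ) = tr' p s ^ N := by
  have hp : (0 : ℝ) < (p : ℝ)⁻¹ := pinv_pos p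
  rw [← Real.rpow_natCast, ← Real.rpow_mul hp.le, mul_comm, Real.rpow_mul hp.le, Real.rpow_natCast]
  congr 1
  unfold tr'
  rw [Real.inv_rpow (by positivity), Real.rpow_neg (by positivity)]

/-- the values at a point -/
theorem pt_sum (hχ : IsCh χ e) (s : ℝ) (z : ℤ_[p]) :
    HasSum (fun N : ℕ => (if ‖z‖ = ((p : ℝ)⁻¹) ^ N then χ (inc p z) else 0) *
      ((tr' p s : ℝ) : ℂ) ^ N) (χ (inc p z) * ((‖z‖ ^ s : ℝ) : ℂ)) := by
  by_cases hz : z = 0
  · subst hz
    have h1 : χ (inc p 0) = 0 := by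
      have : inc p (0 : ℤ_[p]) = 0 := by simp [inc]
      rw [this, hχ.zer]
    rw [h1, zero_mul]
    simp only [ite_self, zero_mul]
    exact hasSum_zero
  · obtain ⟨N, hN⟩ := exists_val z hz
    have h1 := hasSum_single (f := fun N : ℕ => (if ‖z‖ = ((p : ℝ)⁻¹) ^ N then χ (inc p z) else 0) *
      ((tr' p s : ℝ) : ℂ) ^ N) N (fun N' hN' => by
        rw [if_neg, zero_mul]
        intro h
        exact hN' (pinv_inj p (h.symm.trans hN)))
    rw [if_pos hN] at h1
    have h2 : ((‖z‖ ^ s : ℝ) : ℂ) = ((tr' p s : ℝ) : ℂ) ^ N := by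
      rw [hN, pinv_s]
      push_cast
      rfl
    rw [h2]
    exact h1

theorem Zx_sum (hχ : IsCh χ e) (hG : Measurable G) (s : ℝ) (hs : 0 < s) :
    HasSum (fun N : ℕ => Sx μ G χ N * ((tr' p s : ℝ) : ℂ) ^ N) (Zx μ G χ s) := by
  have ht0 := tr'_pos p s
  have ht1 := tr'_lt p s hs
  set F : ℕ → Ω → ℂ := fun N x => (if ‖G x‖ = ((p : ℝ)⁻¹) ^ N then χ (inc p (G x)) else 0) *
    ((tr' p s : ℝ) : ℂ) ^ N with hF
  have hFm : ∀ N, Measurable (F N) := fun N =>
    (Measurable.ite (meas_set G hG N) (meas_chi G hχ hG) measurable_const).mul measurable_const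
  have hFb : ∀ N x, ‖F N x‖ ≤ tr' p s ^ N := by
    intro N x
    rw [hF]
    beta_reduce
    rw [norm_mul, norm_pow, Complex.norm_real, Real.norm_of_nonneg ht0.le]
    refine mul_le_of_le_one_left (pow_nonneg ht0.le N) ?_
    split_ifs
    · exact hχ.bdd _
    · simp
  have h1 := hasSum_integral_of_summable_integral_norm (μ := μ) (F := F)
    (fun N => bdd_int μ _ (hFm N) _ (hFb N)) (by
      refine Summable.of_nonneg_of_le (fun N => integral_nonneg fun x => norm_nonneg _)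
        (fun N => ?_) (summable_geometric_of_lt_one ht0.le ht1)
      have h2 := norm_integral_le_of_norm_le_const (μ := μ) (f := fun x => ‖F N x‖)
        (C := tr' p s ^ N) (Filter.Eventually.of_forall fun x => by
          rw [norm_norm]
          exact hFb N x)
      rw [Real.norm_of_nonneg (integral_nonneg fun x => norm_nonneg _)] at h2
      simpa using h2)
  have h2 : ∀ x, ∑' N, F N x = χ (inc p (G x)) * ((‖G x‖ ^ s : ℝ) : ℂ) := fun x =>
    (pt_sum hχ s (G x)).tsum_eq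
  simp only [h2] at h1
  have h3 : ∀ N, ∫ x, F N x ∂μ = Sx μ G χ N * ((tr' p s : ℝ) : ℂ) ^ N := by
    intro N
    rw [hF]
    exact integral_mul_const _ _
  simp only [h3] at h1
  exact h1

theorem Sx_conv (hχ : IsCh χ e) (hG : Measurable G) :
    Conv (ser (Sx μ G χ)) (fun t => ∑' m : ℕ, Sx μ G χ m * (t : ℂ) ^ m) := by
  intro t h0 h1
  have hc : ∀ m, PowerSeries.coeff m (ser (Sx μ G χ)) = Sx μ G χ m := fun m => coeff_ser _ m
  have h2 : Summable (fun m => ‖PowerSeries.coeff m (ser (Sx μ G χ))‖ * t ^ m) := by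
    refine Summable.of_nonneg_of_le (fun m => by positivity) (fun m => ?_)
      (summable_geometric_of_lt_one h0.le h1)
    rw [hc]
    have := mul_le_mul_of_nonneg_right (Sx_bdd μ G hχ m) (pow_nonneg h0.le m)
    rwa [one_mul] at this
  refine ⟨h2, ?_⟩
  have h3 : Summable (fun m => PowerSeries.coeff m (ser (Sx μ G χ)) * (t : ℂ) ^ m) := by
    refine Summable.of_norm (h2.congr fun m => ?_)
    rw [norm_mul, norm_pow, Complex.norm_real, Real.norm_of_nonneg h0.le]
  have h4 := h3.hasSum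
  simp only [hc] at h4 ⊢
  exact h4

/-- from the zeta functions to the sequences -/
theorem Sx_mem (hχ : IsCh χ e) (hG : Measurable G) {M : ℂ → ℕ∞} (D P : ℂ[X]) (hD : D ≠ 0)
    (h : ∀ s : ℝ, 0 < s → D.eval ((tr' p s : ℝ) : ℂ) * Zx μ G χ s = P.eval ((tr' p s : ℝ) : ℂ))
    (hM : ∀ T, T ≠ 0 → (D.rootMultiplicity T : ℕ∞) ≤ M T) : Sx μ G χ ∈ EP M := by
  refine rat_EP _ D hD _ P ?_ hM
  rw [← sub_eq_zero]
  refine Conv.zero_of ?_
  have h4 := ((Sx_conv μ G hχ hG).poly_mul D).add ((Conv.poly P).C_mul (-1))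
  have h5 : ((D : ℂ[X]) : PowerSeries ℂ) * ser (Sx μ G χ) - (P : PowerSeries ℂ) =
      ((D : ℂ[X]) : PowerSeries ℂ) * ser (Sx μ G χ) +
        PowerSeries.C (-1) * (P : PowerSeries ℂ) := by
    rw [map_neg, map_one]; ring
  rw [h5]
  refine h4.congr fun t h0 h1' => ?_
  obtain ⟨s, hs, rfl⟩ := exists_s p t h0 h1'
  have h7 := h s hs
  have h8 := (Zx_sum μ G hχ hG s hs).tsum_eq
  rw [h8, h7]
  ring

end seq

section plane

theorem res_bl : (Y230.PT.nu p).restrict (bl 0 0) = (mu p).map (inc p) := by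
  refine Measure.ext_of_lintegral _ fun g hg => ?_
  rw [lintegral_map hg inc_cont.measurable, ← lintegral_unit]
  unfold bl
  rw [pow_zero]

theorem res_ub : (nu2 p).restrict ub =
    ((mu p).prod (mu p)).map (fun z : ℤ_[p] × ℤ_[p] => (inc p z.1, inc p z.2)) := by
  unfold ub bx nu2
  have h1 : (mu p).map (inc p) = (Y230.PT.nu p).restrict (bl 0 0) := res_bl.symm
  have h2 := Measure.map_prod_map (mu p) (mu p) (inc_cont (p := p)).measurable
    (inc_cont (p := p)).measurable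
  rw [← Measure.prod_restrict]
  change ((Y230.PT.nu p).restrict (bl 0 (0 + 0))).prod ((Y230.PT.nu p).restrict (bl 0 0)) = _
  rw [add_zero, res_bl, h2]
  rfl

/-- the zeta function as an integral over `ℤ_p ^ 2` -/
theorem FX_eq (hχ : IsCh χ e) (g : A ℚ_[p]) (s : ℝ) : FX χ g s =
    ∫ x : Fin 2 → ℤ_[p], NN χ s (ev (inc p (x 0), inc p (x 1)) g)
      ∂(Measure.pi fun _ : Fin 2 => mu p) := by
  unfold FX ZX
  have hH : ∀ x, HX χ g 0 1 0 1 s x = NN χ s (ev x g) := by
    intro x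
    unfold HX
    rw [ww01, ww01, mul_one, mul_one]
  simp only [hH]
  have hmeas : Measurable (fun x => NN χ s (ev x g)) :=
    (NN_meas hχ s).comp (ev_cont g).measurable
  have hinc : Measurable (inc p) := inc_cont.measurable
  have hm2 : Measurable (fun z : ℤ_[p] × ℤ_[p] => (inc p z.1, inc p z.2)) :=
    (hinc.comp measurable_fst).prodMk (hinc.comp measurable_snd)
  rw [res_ub, integral_map hm2.aemeasurable hmeas.aestronglyMeasurable]
  have hmp := measurePreserving_finTwoArrow (mu p)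
  rw [← hmp.integral_comp' (fun z : ℤ_[p] × ℤ_[p] => NN χ s (ev (inc p z.1, inc p z.2) g))]
  rfl

/-- the zeta function of the curve, with integral values -/
theorem Zx_curve (hχ : IsCh χ e) (g : A ℚ_[p]) (K : ℕ) (G : (Fin 2 → ℤ_[p]) → ℤ_[p])
    (hr : Rep g K G) (s : ℝ) : Zx (Measure.pi fun _ : Fin 2 => mu p) G χ s =
      ((tr' p s : ℝ) : ℂ) ^ K * FX χ g s := by
  rw [FX_eq hχ, ← integral_const_mul]
  unfold Zx
  refine integral_congr_ae (Filter.Eventually.of_forall fun x => ?_)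
  beta_reduce
  have h1 := hr x
  have h2 : MvPolynomial.eval (fun i => inc p (x i)) g = ev (inc p (x 0), inc p (x 1)) g := by
    unfold ev
    congr 1
    congr 1
    funext i
    fin_cases i <;> rfl
  rw [h2] at h1
  have h3 : ‖G x‖ = ‖inc p (G x)‖ := rfl
  rw [h3, h1, ← NN_p hχ, ← NN_pow hχ, ← NN_mul hχ]
  rfl

end plane

end Pool.Agent.T6.H26.PX
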