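import Pool.Agent.T6.H26.PXL

set_option autoImplicit false
set_option linter.unusedSectionVars false
set_option linter.unusedVariables false

/-! # Dirichlet characters as characters of `ℚ_p` -/

namespace Pool.Agent.T6.H26.PX

open MeasureTheory Set Pool.Agent.W427.SMC Pool.Agent.Y230.PT Pool.Agent.Y230.PS
open Pool.Agent.Y230.TH
open scoped ENNReal

variable {p : ℕ} [Fact p.Prime]

attribute [local instance] msZ bsZ msK bsK nz

/-- the unit part -/
noncomputable def up (x : ℚ_[p]) : ℤ_[p] := open Classical in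
  if h : ∃ z : ℤ_[p], inc p z = x * (p : ℚ_[p]) ^ (-x.valuation) then h.choose else 0

theorem p0 : (p : ℚ_[p]) ≠ 0 := by exact_mod_cast (Fact.out : p.Prime).ne_zero

theorem up_norm' {x : ℚ_[p]} (hx : x ≠ 0) : ‖x * (p : ℚ_[p]) ^ (-x.valuation)‖ = 1 := by
  have hp : (p : ℝ) ≠ 0 := by exact_mod_cast (Fact.out : p.Prime).ne_zero
  rw [norm_mul, Padic.norm_eq_zpow_neg_valuation hx, norm_zpow, Padic.norm_p, inv_zpow', neg_neg,
    ← zpow_add₀ hp, neg_add_cancel, zpow_zero]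

theorem up_coe {x : ℚ_[p]} (hx : x ≠ 0) : inc p (up x) = x * (p : ℚ_[p]) ^ (-x.valuation) := by
  have h : ∃ z : ℤ_[p], inc p z = x * (p : ℚ_[p]) ^ (-x.valuation) :=
    ⟨⟨x * (p : ℚ_[p]) ^ (-x.valuation), (up_norm' hx).le⟩, rfl⟩
  unfold up
  rw [dif_pos h]
  exact h.choose_spec

theorem up_norm {x : ℚ_[p]} (hx : x ≠ 0) : ‖up x‖ = 1 := by
  have h : ‖up x‖ = ‖inc p (up x)‖ := rfl
  rw [h, up_coe hx, up_norm' hx]

theorem inc_inj : Function.Injective (inc p) := fun a b h => Subtype.ext h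

theorem inc_mul' (a b : ℤ_[p]) : inc p (a * b) = inc p a * inc p b := by simp [inc]

theorem up_mul {x y : ℚ_[p]} (hx : x ≠ 0) (hy : y ≠ 0) : up (x * y) = up x * up y := by
  apply inc_inj
  rw [inc_mul', up_coe hx, up_coe hy, up_coe (mul_ne_zero hx hy), Padic.valuation_mul hx hy,
    neg_add, zpow_add₀ p0]
  ring

theorem up_eq {N : ℕ} {z' : ℤ_[p]} (hz' : ‖z'‖ = 1) : up (inc p ((p : ℤ_[p]) ^ N * z')) = z' := by
  have hp : (1 : ℝ) < p := by exact_mod_cast (Fact.out : p.Prime).one_lt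
  have hz0 : z' ≠ 0 := by
    rintro rfl
    rw [norm_zero] at hz'
    exact zero_ne_one hz'
  have e1 : inc p ((p : ℤ_[p]) ^ N * z') = (p : ℚ_[p]) ^ N * inc p z' := by
    rw [inc_mul']
    congr 1
  have hne : inc p ((p : ℤ_[p]) ^ N * z') ≠ 0 := by
    rw [e1]
    refine mul_ne_zero (pow_ne_zero _ p0) fun h => hz0 (inc_inj ?_)
    rw [h]
    simp [inc]
  have hv : (inc p ((p : ℤ_[p]) ^ N * z')).valuation = N := by
    have h1 := Padic.norm_eq_zpow_neg_valuation hne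
    have h2 : ‖inc p ((p : ℤ_[p]) ^ N * z')‖ = (p : ℝ) ^ (-(N : ℤ)) := by
      rw [e1, norm_mul, norm_pow, Padic.norm_p]
      have : ‖inc p z'‖ = 1 := hz'
      rw [this, mul_one, inv_pow, zpow_neg, zpow_natCast]
    rw [h2] at h1
    have h3 := zpow_right_injective₀ (by linarith) hp.ne' h1
    omega
  apply inc_inj
  rw [up_coe hne, hv, e1, zpow_neg, zpow_natCast]
  have := pow_ne_zero N (p0 (p := p))
  field_simp

section dir

variable {c : ℕ} (θ : DirichletCharacter ℂ (p ^ c))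

/-- the character on `ℤ_p` -/
noncomputable def cv (v : ℤ_[p]) : ℂ := θ (PadicInt.toZModPow c v)

theorem cv_mul (u v : ℤ_[p]) : cv θ (u * v) = cv θ u * cv θ v := by
  unfold cv
  rw [map_mul, map_mul]

theorem cv_bdd (v : ℤ_[p]) : ‖cv θ v‖ ≤ 1 := DirichletCharacter.norm_le_one θ _

theorem toZ_congr {u v : ℤ_[p]} (h : ‖u - v‖ ≤ ((p : ℝ)⁻¹) ^ c) :
    PadicInt.toZModPow c u = PadicInt.toZModPow c v := by
  rw [← sub_eq_zero, ← map_sub, ← RingHom.mem_ker, PadicInt.ker_toZModPow,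
    Ideal.mem_span_singleton, ← le_iff_dvd]
  exact h

theorem cv_congr {u v : ℤ_[p]} (h : ‖u - v‖ ≤ ((p : ℝ)⁻¹) ^ c) : cv θ u = cv θ v := by
  unfold cv
  rw [toZ_congr h]

theorem cv_one : cv θ 1 = 1 := by
  unfold cv
  rw [map_one, map_one]

theorem not_unit_of_lt (hc : 1 ≤ c) {v : ℤ_[p]} (hv : ‖v‖ < 1) :
    ¬ IsUnit (PadicInt.toZModPow c v) := by
  obtain ⟨w, rfl⟩ := (PadicInt.norm_lt_one_iff_dvd v).1 hv
  rw [map_mul, map_natCast]
  intro h
  have h1 : IsUnit (p : ZMod (p ^ c)) := isUnit_of_mul_isUnit_left h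
  have h2 : IsUnit ((p : ZMod (p ^ c)) ^ c) := h1.pow c
  have h3 : ((p : ZMod (p ^ c)) ^ c) = 0 := by
    rw [← Nat.cast_pow, ZMod.natCast_self]
  rw [h3] at h2
  have : Nontrivial (ZMod (p ^ c)) := by
    have : Fact (1 < p ^ c) := ⟨Nat.one_lt_pow (by omega) (Fact.out : p.Prime).one_lt⟩
    exact ZMod.nontrivial _
  exact not_isUnit_zero h2

theorem cv_nonunit (hc : 1 ≤ c) {v : ℤ_[p]} (hv : ‖v‖ < 1) : cv θ v = 0 :=
  θ.map_nonunit (not_unit_of_lt hc hv)

theorem unit_of_one {v : ℤ_[p]} (hv : ‖v‖ = 1) : IsUnit (PadicInt.toZModPow c v) :=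
  (PadicInt.isUnit_iff.2 hv).map _

/-- the character on `ℚ_p` -/
noncomputable def chD (x : ℚ_[p]) : ℂ := open Classical in if x = 0 then 0 else cv θ (up x)

theorem chD_zero : chD θ 0 = 0 := by
  unfold chD
  rw [if_pos rfl]

theorem chD_ne {x : ℚ_[p]} (hx : x ≠ 0) : chD θ x = cv θ (up x) := by
  unfold chD
  rw [if_neg hx]

theorem isCh_chD (hc : 1 ≤ c) : IsCh (chD θ) c where
  mul x y := by
    by_cases hx : x = 0
    · rw [hx, zero_mul, chD_zero, zero_mul]
    · by_cases hy : y = 0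
      · rw [hy, mul_zero, chD_zero, mul_zero]
      · rw [chD_ne θ hx, chD_ne θ hy, chD_ne θ (mul_ne_zero hx hy), up_mul hx hy, cv_mul]
  one := by
    have h1 := up_eq (p := p) (N := 0) (z' := 1) norm_one
    rw [pow_zero, mul_one] at h1
    have h2 : inc p (1 : ℤ_[p]) = 1 := by simp [inc]
    rw [h2] at h1
    rw [chD_ne θ one_ne_zero, h1, cv_one]
  prm := by
    have h1 := up_eq (p := p) (N := 1) (z' := 1) norm_one
    rw [pow_one, mul_one] at h1
    have h2 : inc p (p : ℤ_[p]) = p := by simp [inc]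
    rw [h2] at h1
    rw [chD_ne θ p0, h1, cv_one]
  zer := chD_zero θ
  loc x hx := by
    have hx1 : ‖x‖ = 1 := by
      have h1 : ‖x - 1‖ < 1 := lt_of_le_of_lt hx (pow_lt_one₀ qr_pos.le qr_lt_one (by omega))
      have h4 : x = (x - 1) + 1 := by ring
      rw [h4, Padic.add_eq_max_of_ne (by rw [norm_one]; exact h1.ne), norm_one,
        max_eq_right h1.le]
    have hx0 : x ≠ 0 := by
      rintro rfl
      rw [norm_zero] at hx1
      exact zero_ne_one hx1
    set z : ℤ_[p] := ⟨x, hx1.le⟩ with hz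
    have h1 := up_eq (p := p) (N := 0) (z' := z) hx1
    rw [pow_zero, one_mul] at h1
    have h2 : inc p z = x := rfl
    rw [h2] at h1
    rw [chD_ne θ hx0, h1, ← cv_one θ]
    exact cv_congr θ hx
  bdd x := by
    by_cases hx : x = 0
    · rw [hx, chD_zero, norm_zero]
      exact zero_le_one
    · rw [chD_ne θ hx]
      exact cv_bdd θ _
  pos := hc

theorem chD_val {N : ℕ} {z' : ℤ_[p]} (hz' : ‖z'‖ = 1) :
    chD θ (inc p ((p : ℤ_[p]) ^ N * z')) = cv θ z' := by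
  have hz0 : z' ≠ 0 := by
    rintro rfl
    rw [norm_zero] at hz'
    exact zero_ne_one hz'
  rw [chD_ne, up_eq hz']
  intro h
  have h1 : (p : ℤ_[p]) ^ N * z' = 0 := by
    apply inc_inj
    rw [h]
    simp [inc]
  rcases mul_eq_zero.1 h1 with h2 | h2
  · have h3 := norm_p_pow p N
    rw [h2, norm_zero] at h3
    exact (pow_pos (pinv_pos p) N).ne h3
  · exact hz0 h2

/-- nontrivial characters -/
theorem chD_ncrit (hc : 1 ≤ c) (hθ : θ ≠ 1) (T0 : ℂ) : ¬ CritX (chD θ) T0 1 1 := by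
  intro h
  apply hθ
  refine MulChar.ext fun a => ?_
  rw [MulChar.one_apply_coe]
  set z : ℤ_[p] := ((a : ZMod (p ^ c)).val : ℤ_[p]) with hz
  have h1 : PadicInt.toZModPow c z = (a : ZMod (p ^ c)) := by
    rw [hz, map_natCast, ZMod.natCast_zmod_val]
  have hz1 : ‖z‖ = 1 := by
    by_contra hne
    have h2 : ‖z‖ < 1 := lt_of_le_of_ne (PadicInt.norm_le_one z) hne
    apply not_unit_of_lt hc h2
    rw [h1]
    exact a.isUnit
  have h2 := h.2 (inc p ((p : ℤ_[p]) ^ 0 * z)) (by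
    rw [pow_zero, one_mul]
    intro h3
    have h4 : z = 0 := inc_inj (by rw [h3]; simp [inc])
    rw [h4, norm_zero] at hz1
    exact zero_ne_one hz1)
  rw [pow_one, chD_val θ hz1] at h2
  unfold cv at h2
  rwa [h1] at h2

theorem cv_meas : Measurable (cv θ) := meas_loc c _ fun _ _ h => cv_congr θ h

theorem cv_int (hθ : θ ≠ 1) : ∫ v, cv θ v ∂(mu p) = 0 := by
  rw [integral_sm p c _ (cv_meas θ) 1 (cv_bdd θ)]
  have h1 : ∀ (w : ZMod (p ^ c)) (z : ℤ_[p]), cv θ ((w.val : ℤ_[p]) + (p : ℤ_[p]) ^ c * z) =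
      θ w := by
    intro w z
    unfold cv
    rw [map_add, map_natCast, ZMod.natCast_zmod_val, map_mul, map_pow, map_natCast,
      ← Nat.cast_pow, ZMod.natCast_self, zero_mul, add_zero]
  simp only [h1]
  rw [← Finset.mul_sum]
  have h2 : ∀ w : ZMod (p ^ c), ∫ z : ℤ_[p], θ w ∂(mu p) = θ w := by
    intro w
    rw [integral_const]
    simp
  simp only [h2]
  have h3 : ∑ w : ZMod (p ^ c), θ w = 0 := MulChar.sum_eq_zero_of_ne_one hθ
  rw [h3, mul_zero]

end dir

/-! ### Invariance -/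

theorem mul_int (u : ℤ_[p]) (hu : ‖u‖ = 1) (f : ℤ_[p] → ℂ) (hf : Measurable f) :
    ∫ v, f (u * v) ∂(mu p) = ∫ v, f v ∂(mu p) := by
  have hs : Function.Surjective (AddMonoidHom.mulLeft u) := by
    intro z
    obtain ⟨w, hw⟩ := PadicInt.isUnit_iff.2 hu
    refine ⟨((w⁻¹ : ℤ_[p]ˣ) : ℤ_[p]) * z, ?_⟩
    change u * (((w⁻¹ : ℤ_[p]ˣ) : ℤ_[p]) * z) = z
    rw [← hw, ← mul_assoc, Units.mul_inv, one_mul]
  have hcont : Continuous (AddMonoidHom.mulLeft u) := continuous_const.mul continuous_id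
  have h1 := Measure.isAddHaarMeasure_map_of_isFiniteMeasure (mu p) (AddMonoidHom.mulLeft u)
    hcont hs
  have h2 : IsProbabilityMeasure (Measure.map (AddMonoidHom.mulLeft u) (mu p)) :=
    Measure.isProbabilityMeasure_map hcont.measurable.aemeasurable
  have h3 : Measure.map (AddMonoidHom.mulLeft u) (mu p) = mu p :=
    Measure.isAddHaarMeasure_eq_of_isProbabilityMeasure _ _
  conv_rhs => rw [← h3]
  rw [integral_map hcont.measurable.aemeasurable hf.aestronglyMeasurable]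
  rfl

theorem add_int (a : ℤ_[p]) (f : ℤ_[p] → ℂ) :
    ∫ v, f (a + v) ∂(mu p) = ∫ v, f v ∂(mu p) :=
  integral_add_left_eq_self (μ := mu p) f a

end Pool.Agent.T6.H26.PX
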