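import Pool.Agent.T6.H26.PXM

set_option autoImplicit false
set_option linter.unusedSectionVars false
set_option linter.unusedVariables false

/-! # The Fourier transform on the units -/

namespace Pool.Agent.T6.H26.PX

open MeasureTheory Set Pool.Agent.W427.SMC Pool.Agent.Y230.PT Pool.Agent.Y230.PS
open Pool.Agent.Y230.TH
open scoped ENNReal

variable {p : ℕ} [Fact p.Prime]

attribute [local instance] msZ bsZ msK bsK nz

section gauss

variable {c : ℕ} (θ : DirichletCharacter ℂ (p ^ c))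

/-- the Gauss sums -/
noncomputable def gm (j : ℕ) : ℂ := ∫ v, cv θ v * ch p j v ∂(mu p)

theorem gm_zero {j : ℕ} (hj : c < j) : gm θ j = 0 := by
  unfold gm
  have hm : Measurable (fun v => cv θ v * ch p j v) := (cv_meas θ).mul (ch_meas p j)
  rw [integral_sm p c _ hm 1 (fun x => by
    rw [norm_mul, norm_ch, mul_one]
    exact cv_bdd θ x)]
  refine Finset.sum_eq_zero fun w _ => ?_
  have h1 : ∀ z : ℤ_[p], cv θ ((w.val : ℤ_[p]) + (p : ℤ_[p]) ^ c * z) *
      ch p j ((w.val : ℤ_[p]) + (p : ℤ_[p]) ^ c * z) =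
      (θ w * ch p j (w.val : ℤ_[p])) * ch p j (z * (p : ℤ_[p]) ^ c) := by
    intro z
    rw [ch_add]
    have h2 : cv θ ((w.val : ℤ_[p]) + (p : ℤ_[p]) ^ c * z) = θ w := by
      unfold cv
      rw [map_add, map_natCast, ZMod.natCast_zmod_val, map_mul, map_pow, map_natCast,
        ← Nat.cast_pow, ZMod.natCast_self, zero_mul, add_zero]
    rw [h2, mul_comm ((p : ℤ_[p]) ^ c) z]
    ring
  simp only [h1]
  rw [integral_const_mul, ch_int, if_neg, mul_zero, mul_zero]
  rw [norm_p_pow, pw_le_iff]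
  omega

/-- the transform of an additive character -/
noncomputable def gs (m : ℕ) (z : ℤ_[p]) : ℂ := ∫ v, cv θ v * ch p m (v * z) ∂(mu p)

theorem cv_inv {z z2 : ℤ_[p]} (h : z * z2 = 1) : cv θ z2 = cv θ⁻¹ z := by
  unfold cv
  have h1 : PadicInt.toZModPow c z * PadicInt.toZModPow c z2 = 1 := by
    rw [← map_mul, h, map_one]
  have hu : IsUnit (PadicInt.toZModPow c z) := IsUnit.of_mul_eq_one _ h1
  rw [MulChar.inv_apply_eq_inv']
  have h2 := congrArg θ h1
  rw [map_mul, map_one] at h2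
  exact eq_inv_of_mul_eq_one_right h2

theorem gs_val (m N : ℕ) (z' : ℤ_[p]) (hz' : ‖z'‖ = 1) (hN : N ≤ m) :
    gs θ m ((p : ℤ_[p]) ^ N * z') = chD θ⁻¹ (inc p ((p : ℤ_[p]) ^ N * z')) * gm θ (m - N) := by
  obtain ⟨k, rfl⟩ := Nat.exists_eq_add_of_le' hN
  rw [Nat.add_sub_cancel, chD_val _ hz']
  obtain ⟨u, hu⟩ := PadicInt.isUnit_iff.2 hz'
  have hinv : z' * ((u⁻¹ : ℤ_[p]ˣ) : ℤ_[p]) = 1 := by
    rw [← hu, Units.mul_inv]
  have hn : ‖((u⁻¹ : ℤ_[p]ˣ) : ℤ_[p])‖ = 1 := PadicInt.isUnit_iff.1 (u⁻¹).isUnit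
  unfold gs gm
  have h1 : ∀ v : ℤ_[p], ch p (k + N) (v * ((p : ℤ_[p]) ^ N * z')) = ch p k (v * z') := by
    intro v
    rw [← ch_pow p k N (v * z')]
    congr 1
    ring
  simp only [h1]
  rw [← mul_int ((u⁻¹ : ℤ_[p]ˣ) : ℤ_[p]) hn (fun v => cv θ v * ch p k (v * z'))
    ((cv_meas θ).mul ((ch_meas p k).comp (measurable_id.mul_const z'))), ← integral_const_mul]
  refine integral_congr_ae (Filter.Eventually.of_forall fun v => ?_)
  beta_reduce
  rw [cv_mul, cv_inv θ hinv]
  have h2 : ((u⁻¹ : ℤ_[p]ˣ) : ℤ_[p]) * v * z' = v := by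
    rw [mul_comm _ v, mul_assoc, mul_comm _ z', hinv, mul_one]
  rw [h2]
  ring

theorem gs_small (hθ : θ ≠ 1) (m : ℕ) (z : ℤ_[p]) (h : ‖z‖ ≤ ((p : ℝ)⁻¹) ^ m) :
    gs θ m z = 0 := by
  unfold gs
  rw [← cv_int θ hθ]
  refine integral_congr_ae (Filter.Eventually.of_forall fun v => ?_)
  beta_reduce
  rw [(ch_one_iff p m (v * z)).2, mul_one]
  rw [norm_mul]
  calc ‖v‖ * ‖z‖ ≤ 1 * ‖z‖ := mul_le_mul_of_nonneg_right (PadicInt.norm_le_one v) (norm_nonneg _)
    _ ≤ _ := by rw [one_mul]; exact h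

/-- the transform as a finite sum -/
theorem gs_sum (hθ : θ ≠ 1) (m : ℕ) (z : ℤ_[p]) :
    gs θ m z = ∑ j ∈ Finset.Icc 1 c, if j ≤ m then
      gm θ j * (if ‖z‖ = ((p : ℝ)⁻¹) ^ (m - j) then chD θ⁻¹ (inc p z) else 0) else 0 := by
  by_cases h : ‖z‖ ≤ ((p : ℝ)⁻¹) ^ m
  · rw [gs_small θ hθ m z h, Finset.sum_eq_zero]
    intro j hj
    rw [Finset.mem_Icc] at hj
    split_ifs with h1 h2
    · exfalso
      rw [h2, pw_le_iff] at h
      omega
    · rw [mul_zero]
    · rfl
  · have hz0 : z ≠ 0 := by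
      rintro rfl
      apply h
      rw [norm_zero]
      exact pow_nonneg (pinv_pos p).le _
    obtain ⟨N, z', hz', rfl⟩ := val_dec z hz0
    have hnz : ‖(p : ℤ_[p]) ^ N * z'‖ = ((p : ℝ)⁻¹) ^ N := by
      rw [norm_mul, norm_p_pow, hz', mul_one]
    rw [hnz, pw_le_iff] at h
    rw [gs_val θ m N z' hz' (by omega)]
    by_cases hc : m - N ≤ c
    · rw [Finset.sum_eq_single (m - N)]
      · rw [if_pos (by omega), if_pos (by
          rw [hnz]
          congr 1
          omega)]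
        ring
      · intro j hj hne
        rw [Finset.mem_Icc] at hj
        split_ifs with h1 h2
        · exfalso
          rw [hnz] at h2
          have := pinv_inj p h2
          omega
        · rw [mul_zero]
        · rfl
      · intro h1
        exfalso
        apply h1
        rw [Finset.mem_Icc]
        omega
    · rw [gm_zero θ (by omega), mul_zero, Finset.sum_eq_zero]
      intro j hj
      rw [Finset.mem_Icc] at hj
      split_ifs with h1 h2
      · exfalso
        rw [hnz] at h2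
        have := pinv_inj p h2
        omega
      · rw [mul_zero]
      · rfl

end gauss

section four

variable {Ω : Type} [MeasurableSpace Ω] (μ : Measure Ω) [IsProbabilityMeasure μ] (G : Ω → ℤ_[p])
variable {c : ℕ}

/-- the coefficients of the exponential sums -/
noncomputable def Af (θ : DirichletCharacter ℂ (p ^ c)) (m : ℕ) : ℂ :=
  ∫ v, cv θ v * Et μ G v m ∂(mu p)

theorem Af_eq (hG : Measurable G) (θ : DirichletCharacter ℂ (p ^ c)) (m : ℕ) :
    Af μ G θ m = ∫ x, gs θ m (G x) ∂μ := by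
  unfold Af gs Et
  have h1 : ∀ v : ℤ_[p], cv θ v * ∫ x, ch p m (v * G x) ∂μ = ∫ x, cv θ v * ch p m (v * G x) ∂μ :=
    fun v => (integral_const_mul _ _).symm
  simp only [h1]
  rw [integral_integral_swap]
  refine bdd_int _ _ ?_ 1 fun x => ?_
  · exact ((cv_meas θ).comp measurable_fst).mul ((ch_meas p m).comp
      (measurable_fst.mul (hG.comp measurable_snd)))
  · change ‖cv θ x.1 * ch p m (x.1 * G x.2)‖ ≤ 1
    rw [norm_mul, norm_ch, mul_one]
    exact cv_bdd θ _

theorem Af_sum (hG : Measurable G) (θ : DirichletCharacter ℂ (p ^ c)) (hc : 1 ≤ c) (hθ : θ ≠ 1)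
    (m : ℕ) : Af μ G θ m = ∑ j ∈ Finset.Icc 1 c, if j ≤ m then
      gm θ j * Sx μ G (chD θ⁻¹) (m - j) else 0 := by
  have hχ := isCh_chD θ⁻¹ hc
  rw [Af_eq μ G hG]
  simp only [gs_sum θ hθ m]
  have hint : ∀ j, Integrable (fun x => if ‖G x‖ = ((p : ℝ)⁻¹) ^ (m - j) then
      chD θ⁻¹ (inc p (G x)) else 0) μ := fun j =>
    bdd_int μ _ (Measurable.ite (meas_set G hG _) (meas_chi G hχ hG) measurable_const) 1
      (fun x => by
        split_ifs
        · exact hχ.bdd _
        · simp)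
  rw [integral_finsetSum]
  · refine Finset.sum_congr rfl fun j _ => ?_
    split_ifs with h
    · exact integral_const_mul _ _
    · exact integral_zero _ _
  · intro j _
    split_ifs with h
    · exact (hint j).const_mul _
    · exact integrable_zero _ _ _

theorem EP_of_sftk {M : ℂ → ℕ∞} {a : ℕ → ℂ} (k : ℕ) (h : (fun n => a (n + k)) ∈ EP M) :
    a ∈ EP M := by
  induction k with
  | zero => exact h
  | succ k ih =>
    refine ih (EP_of_sft ?_)
    have e : sft (fun n => a (n + k)) = fun n => a (n + (k + 1)) := by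
      funext n
      rw [sft_apply]
      congr 1
      omega
    rw [e]
    exact h

theorem Af_mem (hG : Measurable G) (θ : DirichletCharacter ℂ (p ^ c)) (hc : 1 ≤ c) (hθ : θ ≠ 1)
    {M : ℂ → ℕ∞} (hS : Sx μ G (chD θ⁻¹) ∈ EP M) : Af μ G θ ∈ EP M := by
  refine EP_of_sftk c ?_
  have h1 : (fun n => Af μ G θ (n + c)) = ∑ j ∈ Finset.Icc 1 c,
      (gm θ j) • (fun n => Sx μ G (chD θ⁻¹) (n + (c - j))) := by
    funext n
    rw [Af_sum μ G hG θ hc hθ, Finset.sum_apply]
    refine Finset.sum_congr rfl fun j hj => ?_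
    rw [Finset.mem_Icc] at hj
    rw [if_pos (by omega), Pi.smul_apply, smul_eq_mul]
    congr 2
    omega
  rw [h1]
  exact (EP M).sum_mem fun j _ => (EP M).smul_mem _ (EP_sftk hS _)

/-- the trivial character -/
theorem Af_one (hG : Measurable G) (hc : 1 ≤ c) {M M1 : ℂ → ℕ∞}
    (hV : Vc μ (fun x => ‖G x‖) p ∈ EP M1)
    (hM : ∀ T, T ≠ 0 → (if T = (p : ℂ) then M1 T - 1 else M1 T) ≤ M T) :
    Af μ G (1 : DirichletCharacter ℂ (p ^ c)) ∈ EP M := by
  have h1 : op (p : ℂ)⁻¹ (Vc μ (fun x => ‖G x‖) p) =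
      sft (Af μ G (1 : DirichletCharacter ℂ (p ^ c))) := by
    funext n
    rw [op_apply, sft_apply, V_eq μ G hG, V_eq μ G hG,
      split_p _ (Et_meas μ G (n + 1)) (fun x => (Et_loc μ G).bdd x _)]
    simp only [Et_p1]
    have h2 : Af μ G (1 : DirichletCharacter ℂ (p ^ c)) (n + 1) =
        ∫ z, (if ‖z‖ = 1 then Et μ G z (n + 1) else 0) ∂(mu p) := by
      refine integral_congr_ae (Filter.Eventually.of_forall fun v => ?_)
      beta_reduce
      split_ifs with h
      · have h3 : cv (1 : DirichletCharacter ℂ (p ^ c)) v = 1 := by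
          unfold cv
          exact MulChar.one_apply (unit_of_one h)
        rw [h3, one_mul]
      · rw [cv_nonunit _ hc (lt_of_le_of_ne (PadicInt.norm_le_one v) h), zero_mul]
    rw [h2]
    ring
  refine EP_of_sft ?_
  rw [← h1]
  exact EP_mono hM (EP_op M1 (p : ℂ) _ hV)

/-- the averaged exponential sums -/
noncomputable def Ea (c : ℕ) (u : ℤ_[p]) (m : ℕ) : ℂ := ∫ y, Et μ G (u + (p : ℤ_[p]) ^ c * y) m ∂(mu p)

theorem Ea_eq (hG : Measurable G) (hc : 1 ≤ c) (u : ℤ_[p]) (hu : ‖u‖ = 1) (m : ℕ) :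
    Ea μ G c u m = ((p : ℂ) ^ c * ((p ^ c).totient : ℂ)⁻¹) *
      ∑ θ : DirichletCharacter ℂ (p ^ c), θ (PadicInt.toZModPow c u)⁻¹ * Af μ G θ m := by
  have hp0 : (p : ℂ) ≠ 0 := by exact_mod_cast (Fact.out : p.Prime).ne_zero
  have htot : ((p ^ c).totient : ℂ) ≠ 0 := by
    have := Nat.totient_pos.2 (pow_pos (Fact.out : p.Prime).pos c)
    exact_mod_cast this.ne'
  have hE := Et_meas μ G m
  set a := PadicInt.toZModPow c u with ha
  have hau : IsUnit a := unit_of_one hu
  have h1 : ∑ θ : DirichletCharacter ℂ (p ^ c), θ a⁻¹ * Af μ G θ m =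
      ∫ v, (∑ θ : DirichletCharacter ℂ (p ^ c), θ a⁻¹ * cv θ v) * Et μ G v m ∂(mu p) := by
    have h2 : ∀ v, (∑ θ : DirichletCharacter ℂ (p ^ c), θ a⁻¹ * cv θ v) * Et μ G v m =
        ∑ θ : DirichletCharacter ℂ (p ^ c), θ a⁻¹ * (cv θ v * Et μ G v m) := by
      intro v
      rw [Finset.sum_mul]
      exact Finset.sum_congr rfl fun θ _ => by ring
    simp only [h2]
    rw [integral_finsetSum]
    · refine Finset.sum_congr rfl fun θ _ => ?_
      rw [integral_const_mul]
      rfl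
    · intro θ _
      refine Integrable.const_mul (bdd_int _ (fun v => cv θ v * Et μ G v m)
        ((cv_meas θ).mul hE) 1 fun x => ?_) _
      rw [norm_mul]
      exact mul_le_one₀ (cv_bdd θ x) (norm_nonneg _) ((Et_loc μ G).bdd x m)
  have h3 : ∀ v : ℤ_[p], (∑ θ : DirichletCharacter ℂ (p ^ c), θ a⁻¹ * cv θ v) =
      if PadicInt.toZModPow c v = a then ((p ^ c).totient : ℂ) else 0 := by
    intro v
    have h4 := DirichletCharacter.sum_char_inv_mul_char_eq ℂ hau (PadicInt.toZModPow c v)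
    unfold cv
    rw [h4]
    by_cases h : a = PadicInt.toZModPow c v
    · rw [if_pos h, if_pos h.symm]
    · rw [if_neg h, if_neg (Ne.symm h)]
  rw [h1]
  simp only [h3]
  have hF : Measurable (fun v : ℤ_[p] => (if PadicInt.toZModPow c v = a then
      ((p ^ c).totient : ℂ) else 0) * Et μ G v m) := by
    refine Measurable.mul (Measurable.ite (meas_res p c a) measurable_const measurable_const) hE
  rw [integral_sm p c _ hF (((p ^ c).totient : ℝ)) (fun x => by
    rw [norm_mul]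
    split_ifs
    · rw [Complex.norm_natCast]
      exact mul_le_of_le_one_right (Nat.cast_nonneg _) ((Et_loc μ G).bdd x m)
    · rw [norm_zero, zero_mul]
      exact Nat.cast_nonneg _)]
  have h5 : ∀ (w : ZMod (p ^ c)) (z : ℤ_[p]), PadicInt.toZModPow c
      ((w.val : ℤ_[p]) + (p : ℤ_[p]) ^ c * z) = w := by
    intro w z
    rw [map_add, map_natCast, ZMod.natCast_zmod_val, map_mul, map_pow, map_natCast,
      ← Nat.cast_pow, ZMod.natCast_self, zero_mul, add_zero]
  simp only [h5]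
  rw [Finset.sum_eq_single a]
  · simp only [if_true]
    rw [integral_const_mul]
    have h6 : ∃ b : ℤ_[p], ((a.val : ℕ) : ℤ_[p]) = u + (p : ℤ_[p]) ^ c * b := by
      have h7 := (res_eq c u a).2 rfl
      rw [← norm_neg, neg_sub] at h7
      obtain ⟨b, hb⟩ := (le_iff_dvd p c _).1 h7
      exact ⟨b, by rw [← hb]; ring⟩
    obtain ⟨b, hb⟩ := h6
    have h8 : ∫ z, Et μ G (((a.val : ℕ) : ℤ_[p]) + (p : ℤ_[p]) ^ c * z) m ∂(mu p) =
        Ea μ G c u m := by
      unfold Ea
      rw [hb, ← add_int b (fun y => Et μ G (u + (p : ℤ_[p]) ^ c * y) m)]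
      refine integral_congr_ae (Filter.Eventually.of_forall fun z => ?_)
      beta_reduce
      congr 1
      ring
    rw [h8]
    rw [inv_pow]
    field_simp
  · intro w _ hw
    simp only [if_neg hw, zero_mul, integral_zero, mul_zero]
  · intro h
    exact absurd (Finset.mem_univ _) h

end four

end Pool.Agent.T6.H26.PX
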