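import Pool.Agent.T6.H26.PXN

set_option autoImplicit false
set_option linter.unusedSectionVars false
set_option linter.unusedVariables false

/-! # Averaged exponential sums: closure properties -/

namespace Pool.Agent.T6.H26.PX

open MeasureTheory Set Pool.Agent.W427.SMC Pool.Agent.Y230.PT Pool.Agent.Y230.PS
open Pool.Agent.Y230.TH
open scoped ENNReal

variable {p : ℕ} [Fact p.Prime]

attribute [local instance] msZ bsZ msK bsK nz

/-- the units near `1` -/
noncomputable def uo (c : ℕ) (y : ℤ_[p]) : ℤ_[p] := 1 + (p : ℤ_[p]) ^ c * y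

theorem uo_norm {c : ℕ} (hc : 1 ≤ c) (y : ℤ_[p]) : ‖uo c y‖ = 1 := unit_one c hc y

theorem uo_near (c : ℕ) (y : ℤ_[p]) : ‖uo c y - 1‖ ≤ ((p : ℝ)⁻¹) ^ c := by
  unfold uo
  rw [add_sub_cancel_left, norm_mul, norm_p_pow]
  exact mul_le_of_le_one_right (pow_nonneg (pinv_pos p).le _) (PadicInt.norm_le_one y)

theorem uo_cont (c : ℕ) : Continuous (uo (p := p) c) := by
  unfold uo
  fun_prop

/-- **Invariance.** -/
theorem inv_uo {c : ℕ} (w : ℤ_[p]) (hw : ‖w‖ = 1) (hw1 : ‖w - 1‖ ≤ ((p : ℝ)⁻¹) ^ c)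
    (f : ℤ_[p] → ℂ) (hf : Measurable f) :
    ∫ y, f (w * uo c y) ∂(mu p) = ∫ y, f (uo c y) ∂(mu p) := by
  obtain ⟨b, hb⟩ := (le_iff_dvd p c _).1 hw1
  have hwb : w = 1 + (p : ℤ_[p]) ^ c * b := by rw [← hb]; ring
  rw [← add_int b (fun y => f (uo c y)), ← mul_int w hw (fun y => f (uo c (b + y)))
    (hf.comp ((uo_cont c).measurable.comp (measurable_const.add measurable_id)))]
  refine integral_congr_ae (Filter.Eventually.of_forall fun y => ?_)
  beta_reduce
  congr 1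
  unfold uo
  linear_combination hb

section gen

variable {Ω : Type} [MeasurableSpace Ω] (μ : Measure Ω) [IsProbabilityMeasure μ] (G : Ω → ℤ_[p])

/-- the averaged function -/
noncomputable def hat (c : ℕ) (q : Ω × ℤ_[p]) : ℤ_[p] := G q.1 * uo c q.2

theorem hat_meas (hG : Measurable G) (c : ℕ) : Measurable (hat G c) :=
  (hG.comp measurable_fst).mul ((uo_cont c).measurable.comp measurable_snd)

/-- the averaged exponential sums -/
noncomputable def Eb (c : ℕ) (u : ℤ_[p]) (m : ℕ) : ℂ := ∫ y, Et μ G (u * uo c y) m ∂(mu p)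

theorem hat_E (hG : Measurable G) (c : ℕ) (u : ℤ_[p]) (m : ℕ) :
    Et (μ.prod (mu p)) (hat G c) u m = Eb μ G c u m := by
  have hm : Measurable (fun q : Ω × ℤ_[p] => ch p m (u * hat G c q)) :=
    (ch_meas p m).comp (measurable_const.mul (hat_meas G hG c))
  unfold Et Eb
  rw [integral_prod_symm _ (bdd_int _ _ hm 1 fun x => (norm_ch p m _).le)]
  unfold Et
  refine integral_congr_ae (Filter.Eventually.of_forall fun y => ?_)
  refine integral_congr_ae (Filter.Eventually.of_forall fun x => ?_)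
  beta_reduce
  congr 1
  unfold hat
  ring

theorem Eb_eq_Ea (c : ℕ) (u : ℤ_[p]) (hu : ‖u‖ = 1) (m : ℕ) : Eb μ G c u m = Ea μ G c u m := by
  unfold Eb Ea
  rw [← mul_int u hu (fun y => Et μ G (u + (p : ℤ_[p]) ^ c * y) m)
    ((Et_meas μ G m).comp ((measurable_const.add (measurable_id.const_mul _))))]
  refine integral_congr_ae (Filter.Eventually.of_forall fun y => ?_)
  beta_reduce
  congr 1
  unfold uo
  ring

theorem Eb_inv (c : ℕ) (u w : ℤ_[p]) (hw : ‖w‖ = 1) (hw1 : ‖w - 1‖ ≤ ((p : ℝ)⁻¹) ^ c) (m : ℕ) :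
    Eb μ G c (u * w) m = Eb μ G c u m := by
  unfold Eb
  have h := inv_uo (c := c) w hw hw1 (fun z => Et μ G (u * z) m)
    ((Et_meas μ G m).comp (measurable_id.const_mul u))
  simp only [← mul_assoc] at h
  exact h

theorem Eb_loc (hG : Measurable G) (c : ℕ) : LocE p (Eb μ G c) := by
  have h := Et_loc (μ.prod (mu p)) (hat G c)
  constructor
  · intro m u v huv
    rw [← hat_E μ G hG, ← hat_E μ G hG]
    exact h.loc m u v huv
  · intro u m
    rw [← hat_E μ G hG]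
    exact h.bdd u m

end gen

/-- averages over the units near `1` -/
theorem GoodE.avgc {M : ℂ → ℕ∞} {E : ℤ_[p] → ℕ → ℂ} (hL : LocE p E) (hE : GoodE p M E) {c : ℕ}
    (hc1 : 1 ≤ c) : GoodE p M (fun u m => ∫ y, E (u * uo c y) m ∂(mu p)) := by
  obtain ⟨c0, hc, hEP⟩ := hE
  refine ⟨c0, fun u v hu hv huv m => ?_, fun u hu => ?_⟩
  · refine integral_congr_ae (Filter.Eventually.of_forall fun y => ?_)
    beta_reduce
    refine hc _ _ (by rw [norm_mul, hu, uo_norm hc1, one_mul])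
      (by rw [norm_mul, hv, uo_norm hc1, one_mul]) ?_ m
    rw [← sub_mul, norm_mul, uo_norm hc1, mul_one]
    exact huv
  · have h1 : (fun m => ∫ y, E (u * uo c y) m ∂(mu p)) =
        ∑ w : ZMod (p ^ c0), (((p : ℂ)⁻¹) ^ c0) • E (u * uo c (w.val : ℤ_[p])) := by
      funext m
      have hm : Measurable (fun y : ℤ_[p] => E (u * uo c y) m) := by
        refine meas_loc m _ fun x y hxy => hL.loc m _ _ ?_
        rw [← mul_sub, norm_mul, hu, one_mul]
        unfold uo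
        rw [add_sub_add_left_eq_sub, ← mul_sub, norm_mul, norm_p_pow]
        refine le_trans (mul_le_of_le_one_left (norm_nonneg _) ?_) hxy
        exact pow_le_one₀ (pinv_pos p).le pinv_lt.le
      rw [integral_sm p c0 _ hm 1 (fun x => hL.bdd _ _), Finset.sum_apply]
      refine Finset.sum_congr rfl fun w _ => ?_
      rw [Pi.smul_apply, smul_eq_mul]
      congr 1
      have h2 : ∀ z : ℤ_[p], E (u * uo c ((w.val : ℤ_[p]) + (p : ℤ_[p]) ^ c0 * z)) m =
          E (u * uo c (w.val : ℤ_[p])) m := by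
        intro z
        refine hc _ _ (by rw [norm_mul, hu, uo_norm hc1, one_mul])
          (by rw [norm_mul, hu, uo_norm hc1, one_mul]) ?_ m
        rw [← mul_sub, norm_mul, hu, one_mul]
        unfold uo
        rw [add_sub_add_left_eq_sub, ← mul_sub, norm_mul, norm_p_pow, add_sub_cancel_left,
          norm_mul, norm_p_pow]
        have h3 : ((p : ℝ)⁻¹) ^ c ≤ 1 := pow_le_one₀ (pinv_pos p).le pinv_lt.le
        have h4 : ((p : ℝ)⁻¹) ^ c0 * ‖z‖ ≤ ((p : ℝ)⁻¹) ^ c0 :=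
          mul_le_of_le_one_right (pow_nonneg (pinv_pos p).le _) (PadicInt.norm_le_one z)
        exact le_trans (mul_le_of_le_one_left (mul_nonneg (pow_nonneg (pinv_pos p).le _)
          (norm_nonneg _)) h3) h4
      simp only [h2]
      rw [integral_const]
      simp
    beta_reduce
    rw [h1]
    exact (EP M).sum_mem fun w _ => (EP M).smul_mem _
      (hEP _ (by rw [norm_mul, hu, uo_norm hc1, one_mul]))

section cl

variable {Ω : Type} [MeasurableSpace Ω] (μ : Measure Ω) [IsProbabilityMeasure μ] (G : Ω → ℤ_[p])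

/-- from finer to coarser averages -/
theorem Eb_down (hG : Measurable G) {c c' : ℕ} (hc1 : 1 ≤ c) (hcc : c ≤ c') (u : ℤ_[p]) (m : ℕ) :
    ∫ y, Eb μ G c' (u * uo c y) m ∂(mu p) = Eb μ G c u m := by
  have hE := Et_meas μ G m
  unfold Eb
  rw [integral_integral_swap]
  · have h1 : ∀ y' : ℤ_[p], ∫ y, Et μ G (u * uo c y * uo c' y') m ∂(mu p) =
        ∫ y, Et μ G (u * uo c y) m ∂(mu p) := by
      intro y'
      have h2 := inv_uo (c := c) (uo c' y') (uo_norm (hc1.trans hcc) y')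
        ((uo_near c' y').trans ((pw_le_iff _ _).2 hcc)) (fun z => Et μ G (u * z) m)
        (hE.comp (measurable_id.const_mul u))
      beta_reduce at h2
      rw [← h2]
      refine integral_congr_ae (Filter.Eventually.of_forall fun y => ?_)
      beta_reduce
      congr 1
      ring
    simp only [h1]
    rw [integral_const]
    simp
  · refine bdd_int _ _ ?_ 1 fun x => (Et_loc μ G).bdd _ _
    refine hE.comp ?_
    exact ((measurable_const.mul ((uo_cont c).measurable.comp measurable_fst)).mul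
      ((uo_cont c').measurable.comp measurable_snd))

theorem good_down (hG : Measurable G) {M : ℂ → ℕ∞} {c c' : ℕ} (hc1 : 1 ≤ c) (hcc : c ≤ c')
    (h : GoodE p M (Eb μ G c')) : GoodE p M (Eb μ G c) :=
  (GoodE.avgc (Eb_loc μ G hG c') h hc1).congr fun u _ m => Eb_down μ G hG hc1 hcc u m

/-- the functions without averages -/
theorem good_of_Et {M : ℂ → ℕ∞} {c : ℕ} (hc1 : 1 ≤ c) (h : GoodE p M (Et μ G)) :
    GoodE p M (Eb μ G c) := GoodE.avgc (Et_loc μ G) h hc1

/-- **Powers.** -/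
theorem goodb_pow (hG : Measurable G) {M M' : ℂ → ℕ∞} (k : ℕ) (hk : 1 ≤ k)
    (H : ∀ T, 1 < ‖T‖ → M (T ^ k) + (dp p (T ^ k) : ℕ) ≤ M' T) {c : ℕ} (hc1 : 1 ≤ c)
    (h : GoodE p (tr M) (Eb μ G c)) : GoodE p (tr M') (Eb μ (fun x => G x ^ k) c) := by
  have h1 : GoodE p (tr M) (Et (μ.prod (mu p)) (hat G c)) :=
    h.congr fun u _ m => (hat_E μ G hG c u m).symm
  have h2 := good_pow (μ.prod (mu p)) (hat G c) (hat_meas G hG c) h1 k hk H
  have h3 := GoodE.avgc (Et_loc _ _) h2 hc1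
  refine h3.congr fun u _ m => ?_
  have hE := Et_meas μ (fun x => G x ^ k) m
  -- the exponential sums of the powers
  have h4 : ∀ v : ℤ_[p], Et (μ.prod (mu p)) (fun x => hat G c x ^ k) v m =
      ∫ y, Et μ (fun x => G x ^ k) (v * uo c y ^ k) m ∂(mu p) := by
    intro v
    have hm : Measurable (fun q : Ω × ℤ_[p] => ch p m (v * hat G c q ^ k)) :=
      (ch_meas p m).comp (measurable_const.mul ((hat_meas G hG c).pow_const k))
    unfold Et
    rw [integral_prod_symm _ (bdd_int _ _ hm 1 fun x => (norm_ch p m _).le)]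
    refine integral_congr_ae (Filter.Eventually.of_forall fun y => ?_)
    refine integral_congr_ae (Filter.Eventually.of_forall fun x => ?_)
    beta_reduce
    congr 1
    unfold hat
    rw [mul_pow]
    ring
  simp only [h4]
  rw [integral_integral_swap]
  · have h5 : ∀ y' : ℤ_[p], ∫ y, Et μ (fun x => G x ^ k) (u * uo c y * uo c y' ^ k) m ∂(mu p) =
        Eb μ (fun x => G x ^ k) c u m := by
      intro y'
      have hw : ‖uo c y' ^ k‖ = 1 := by rw [norm_pow, uo_norm hc1, one_pow]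
      have hw1 : ‖uo c y' ^ k - 1‖ ≤ ((p : ℝ)⁻¹) ^ c := by
        have h6 := sub_dvd_pow_sub_pow (uo c y') 1 k
        rw [one_pow] at h6
        obtain ⟨r, hr⟩ := h6
        rw [hr, norm_mul]
        exact (mul_le_of_le_one_right (norm_nonneg _) (PadicInt.norm_le_one r)).trans
          (uo_near c y')
      have h2 := inv_uo (c := c) (uo c y' ^ k) hw hw1
        (fun z => Et μ (fun x => G x ^ k) (u * z) m) (hE.comp (measurable_id.const_mul u))
      beta_reduce at h2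
      unfold Eb
      rw [← h2]
      refine integral_congr_ae (Filter.Eventually.of_forall fun y => ?_)
      beta_reduce
      congr 1
      ring
    simp only [h5]
    rw [integral_const]
    simp
  · refine bdd_int _ _ ?_ 1 fun x => (Et_loc μ _).bdd _ _
    refine hE.comp ?_
    exact ((measurable_const.mul ((uo_cont c).measurable.comp measurable_fst)).mul
      (((uo_cont c).measurable.comp measurable_snd).pow_const k))

end cl

section two

variable {Ω₁ Ω₂ : Type} [MeasurableSpace Ω₁] [MeasurableSpace Ω₂] (μ₁ : Measure Ω₁)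
  (μ₂ : Measure Ω₂) [IsProbabilityMeasure μ₁] [IsProbabilityMeasure μ₂] (G₁ : Ω₁ → ℤ_[p])
  (G₂ : Ω₂ → ℤ_[p])

theorem Et_mul1 (h1 : Measurable G₁) (h2 : Measurable G₂) (u : ℤ_[p]) (m : ℕ) :
    Et (μ₁.prod μ₂) (fun q => G₁ q.1 * G₂ q.2) u m = ∫ x, Et μ₂ G₂ (u * G₁ x) m ∂μ₁ := by
  have h := Et_mulk μ₁ μ₂ G₁ G₂ h1 h2 1 u m
  simp only [pow_one] at h
  exact h

/-- **Products.** -/
theorem goodb_mul (h1 : Measurable G₁) (h2 : Measurable G₂) {M1 M2 M3 : ℂ → ℕ∞}
    (H : ∀ T, 1 < ‖T‖ → M1 T + (dp p T : ℕ) + M2 T ≤ M3 T) {c : ℕ} (hc1 : 1 ≤ c)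
    (hE1 : GoodE p (tr M1) (Eb μ₁ G₁ c)) (hE2 : GoodE p (tr M2) (Eb μ₂ G₂ c)) :
    GoodE p (tr M3) (Eb (μ₁.prod μ₂) (fun q => G₁ q.1 * G₂ q.2) c) := by
  have e1 : GoodE p (tr M1) (Et (μ₁.prod (mu p)) (hat G₁ c)) :=
    hE1.congr fun u _ m => (hat_E μ₁ G₁ h1 c u m).symm
  have e2 : GoodE p (tr M2) (Et (μ₂.prod (mu p)) (hat G₂ c)) :=
    hE2.congr fun u _ m => (hat_E μ₂ G₂ h2 c u m).symm
  have h3 := good_mul (μ₁.prod (mu p)) (μ₂.prod (mu p)) (hat G₁ c) (hat G₂ c)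
    (hat_meas G₁ h1 c) (hat_meas G₂ h2 c) e1 e2 H
  refine h3.congr fun u _ m => ?_
  have hE := Et_meas μ₂ G₂ m
  have hEb : Measurable (fun v => Eb μ₂ G₂ c v m) := by
    have h := (Eb_loc μ₂ G₂ h2 c)
    exact meas_loc m _ fun x y hxy => h.loc m x y hxy
  rw [Et_mul1 _ _ _ _ (hat_meas G₁ h1 c) (hat_meas G₂ h2 c)]
  have h4 : ∀ q : Ω₁ × ℤ_[p], Et (μ₂.prod (mu p)) (hat G₂ c) (u * hat G₁ c q) m =
      Eb μ₂ G₂ c (u * G₁ q.1) m := by
    intro q
    rw [hat_E μ₂ G₂ h2]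
    unfold hat
    rw [← mul_assoc]
    exact Eb_inv μ₂ G₂ c _ _ (uo_norm hc1 _) (uo_near c _) m
  simp only [h4]
  have h5 : ∫ q : Ω₁ × ℤ_[p], Eb μ₂ G₂ c (u * G₁ q.1) m ∂(μ₁.prod (mu p)) =
      ∫ x, Eb μ₂ G₂ c (u * G₁ x) m ∂μ₁ := by
    have hm : Measurable (fun q : Ω₁ × ℤ_[p] => Eb μ₂ G₂ c (u * G₁ q.1) m) :=
      hEb.comp (measurable_const.mul (h1.comp measurable_fst))
    rw [integral_prod _ (bdd_int _ _ hm 1 fun x => (Eb_loc μ₂ G₂ h2 c).bdd _ _)]
    refine integral_congr_ae (Filter.Eventually.of_forall fun x => ?_)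
    change ∫ y : ℤ_[p], Eb μ₂ G₂ c (u * G₁ x) m ∂(mu p) = Eb μ₂ G₂ c (u * G₁ x) m
    rw [integral_const]
    simp
  rw [h5]
  unfold Eb
  rw [integral_integral_swap]
  · refine integral_congr_ae (Filter.Eventually.of_forall fun y => ?_)
    beta_reduce
    rw [Et_mul1 _ _ _ _ h1 h2]
    refine integral_congr_ae (Filter.Eventually.of_forall fun x => ?_)
    beta_reduce
    congr 1
    ring
  · refine bdd_int _ _ ?_ 1 fun x => (Et_loc μ₂ G₂).bdd _ _
    refine hE.comp ?_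
    exact (measurable_const.mul (h1.comp measurable_fst)).mul
      ((uo_cont c).measurable.comp measurable_snd)

/-- **Sums.** -/
theorem goodb_add (h1 : Measurable G₁) (h2 : Measurable G₂) {M1 M2 M3 : ℂ → ℕ∞}
    (H : ∀ T1 T2 : ℂ, T1 ≠ 0 → T2 ≠ 0 → ∀ a b : ℕ, 1 ≤ a → 1 ≤ b →
    (a : ℕ∞) ≤ M1 T1 → (b : ℕ∞) ≤ M2 T2 → ((a + b - 1 : ℕ) : ℕ∞) ≤ M3 (T1 * T2))
    (hE1 : GoodE p M1 (Et μ₁ G₁)) (hE2 : ∀ c, 1 ≤ c → GoodE p M2 (Eb μ₂ G₂ c)) {c : ℕ}
    (hc1 : 1 ≤ c) : GoodE p M3 (Eb (μ₁.prod μ₂) (fun q => G₁ q.1 + G₂ q.2) c) := by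
  obtain ⟨c0, hc0, hEP1⟩ := hE1
  have hm : Measurable (fun q : Ω₁ × Ω₂ => G₁ q.1 + G₂ q.2) :=
    (h1.comp measurable_fst).add (h2.comp measurable_snd)
  refine good_down (μ₁.prod μ₂) _ hm hc1 (le_max_left c c0) ?_
  set c' := max c c0 with hc'
  have hc1' : 1 ≤ c' := hc1.trans (le_max_left _ _)
  obtain ⟨c2, hc2, hEP2⟩ := hE2 c' hc1'
  have key : ∀ u : ℤ_[p], ‖u‖ = 1 → ∀ m, Eb (μ₁.prod μ₂) (fun q => G₁ q.1 + G₂ q.2) c' u m =
      Et μ₁ G₁ u m * Eb μ₂ G₂ c' u m := by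
    intro u hu m
    unfold Eb
    rw [← integral_const_mul]
    refine integral_congr_ae (Filter.Eventually.of_forall fun y => ?_)
    beta_reduce
    rw [Et_add]
    congr 1
    refine hc0 _ _ (by rw [norm_mul, hu, uo_norm hc1', one_mul]) hu ?_ m
    have e : u * uo c' y - u = u * (uo c' y - 1) := by ring
    rw [e, norm_mul, hu, one_mul]
    exact (uo_near c' y).trans ((pw_le_iff _ _).2 (le_max_right _ _))
  refine ⟨max c0 c2, fun u v hu hv huv m => ?_, fun u hu => ?_⟩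
  · rw [key u hu, key v hv, hc0 u v hu hv (huv.trans ((pw_le_iff _ _).2 (le_max_left _ _))),
      hc2 u v hu hv (huv.trans ((pw_le_iff _ _).2 (le_max_right _ _)))]
  · have e : Eb (μ₁.prod μ₂) (fun q => G₁ q.1 + G₂ q.2) c' u = Et μ₁ G₁ u * Eb μ₂ G₂ c' u := by
      funext m
      rw [key u hu, Pi.mul_apply]
    rw [e]
    exact had M1 M2 M3 H _ _ (hEP1 u hu) (hEP2 u hu)

end two

end Pool.Agent.T6.H26.PX
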