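import Pool.Agent.T6.H26.PXO

set_option autoImplicit false
set_option linter.unusedSectionVars false
set_option linter.unusedVariables false

/-! # Polynomials with good averaged exponential sums -/

namespace Pool.Agent.T6.H26.PX

open MeasureTheory MvPolynomial Pool.Agent.W427.SMC Pool.Agent.Y230.PS Pool.Agent.Y230.PT
open Pool.Agent.Y230.TH
open scoped ENNReal

variable {p : ℕ} [Fact p.Prime]

attribute [local instance] msZ bsZ nz

section gen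

variable {Ω : Type} [MeasurableSpace Ω] (μ : Measure Ω) [IsProbabilityMeasure μ] (G : Ω → ℤ_[p])

theorem goodb_ppow {M : ℂ → ℕ∞} (hG : Measurable G) {c : ℕ} (h : GoodE p M (Eb μ G c)) (r : ℕ) :
    GoodE p M (Eb μ (fun x => (p : ℤ_[p]) ^ r * G x) c) := by
  have h1 : GoodE p M (Et (μ.prod (mu p)) (hat G c)) :=
    h.congr fun u _ m => (hat_E μ G hG c u m).symm
  have h2 := good_ppow (μ.prod (mu p)) (hat G c) h1 r
  refine h2.congr fun u _ m => ?_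
  rw [← hat_E μ (fun x => (p : ℤ_[p]) ^ r * G x) (hG.const_mul _)]
  congr 1
  funext q
  unfold hat
  ring

theorem goodb_unit {M : ℂ → ℕ∞} (hG : Measurable G) {c : ℕ} (h : GoodE p M (Eb μ G c))
    (c0 : ℤ_[p]) (hc : ‖c0‖ = 1) : GoodE p M (Eb μ (fun x => c0 * G x) c) := by
  have h1 : GoodE p M (Et (μ.prod (mu p)) (hat G c)) :=
    h.congr fun u _ m => (hat_E μ G hG c u m).symm
  have h2 := good_unit (μ.prod (mu p)) (hat G c) h1 c0 hc
  refine h2.congr fun u _ m => ?_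
  rw [← hat_E μ (fun x => c0 * G x) (hG.const_mul _)]
  congr 1
  funext q
  unfold hat
  ring

end gen

section rep

variable {σ τ : Type} [Fintype σ] [Fintype τ]

/-- the averaged exponential sums of `p ^ K g` have poles of order at most `M` -/
def XG (M : ℂ → ℕ∞) (g : MvPolynomial σ ℚ_[p]) : Prop :=
  ∃ (K : ℕ) (G : (σ → ℤ_[p]) → ℤ_[p]), Rep g K G ∧ ∀ c, 1 ≤ c →
    GoodE p (Pool.Agent.Y230.PS.tr M) (Eb (Measure.pi fun _ : σ => mu p) G c)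

theorem XG.of_XE {M : ℂ → ℕ∞} {g : MvPolynomial σ ℚ_[p]} (h : XE M g) : XG M g := by
  obtain ⟨K, G, h1, h2⟩ := h
  exact ⟨K, G, h1, fun c hc => good_of_Et _ G hc h2⟩

theorem XG.up {M : ℂ → ℕ∞} {g : MvPolynomial σ ℚ_[p]} (h : XG M g) : ∃ K0 : ℕ, ∀ K, K0 ≤ K →
    ∃ G : (σ → ℤ_[p]) → ℤ_[p], Rep g K G ∧ ∀ c, 1 ≤ c →
      GoodE p (Pool.Agent.Y230.PS.tr M) (Eb (Measure.pi fun _ : σ => mu p) G c) := by
  obtain ⟨K0, G, h1, h2⟩ := h
  refine ⟨K0, fun K hK => ?_⟩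
  obtain ⟨r, rfl⟩ := Nat.exists_eq_add_of_le hK
  exact ⟨_, h1.up r, fun c hc => goodb_ppow _ G h1.cont.measurable (h2 c hc) r⟩

theorem XG.mono {M M' : ℂ → ℕ∞} {g : MvPolynomial σ ℚ_[p]} (h : XG M g)
    (H : ∀ T, 1 < ‖T‖ → M T ≤ M' T) : XG M' g := by
  obtain ⟨K, G, h1, h2⟩ := h
  exact ⟨K, G, h1, fun c hc => (h2 c hc).mono fun T _ => tr_mono H T⟩

theorem Eb_sumpi (F : (σ → ℤ_[p]) × (τ → ℤ_[p]) → ℤ_[p]) (c : ℕ) (u : ℤ_[p]) (m : ℕ) :
    Eb (Measure.pi fun _ : σ ⊕ τ => mu p)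
      (fun x => F (fun i => x (Sum.inl i), fun i => x (Sum.inr i))) c u m =
    Eb ((Measure.pi fun _ : σ => mu p).prod (Measure.pi fun _ : τ => mu p)) F c u m := by
  unfold Eb
  refine integral_congr_ae (Filter.Eventually.of_forall fun y => ?_)
  exact Et_sumpi F _ m

/-- **Sums in disjoint variables.** -/
theorem XG.add {M1 M2 M3 : ℂ → ℕ∞} {g₁ : MvPolynomial σ ℚ_[p]} {g₂ : MvPolynomial τ ℚ_[p]}
    (h1 : XE M1 g₁) (h2 : XG M2 g₂) (H : ∀ T1 T2 : ℂ, 1 < ‖T1‖ → 1 < ‖T2‖ → ∀ a b : ℕ, 1 ≤ a →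
      1 ≤ b → (a : ℕ∞) ≤ M1 T1 → (b : ℕ∞) ≤ M2 T2 → ((a + b - 1 : ℕ) : ℕ∞) ≤ M3 (T1 * T2)) :
    XG M3 (rename Sum.inl g₁ + rename Sum.inr g₂ : MvPolynomial (σ ⊕ τ) ℚ_[p]) := by
  obtain ⟨K1, h1⟩ := h1.up
  obtain ⟨K2, h2⟩ := h2.up
  obtain ⟨G₁, hr1, hg1⟩ := h1 (max K1 K2) (le_max_left _ _)
  obtain ⟨G₂, hr2, hg2⟩ := h2 (max K1 K2) (le_max_right _ _)
  refine ⟨max K1 K2, fun z => G₁ (fun i => z (Sum.inl i)) + G₂ (fun i => z (Sum.inr i)),
    fun z => ?_, fun c hc => ?_⟩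
  · have e : inc p (G₁ (fun i => z (Sum.inl i)) + G₂ (fun i => z (Sum.inr i))) =
        inc p (G₁ (fun i => z (Sum.inl i))) + inc p (G₂ (fun i => z (Sum.inr i))) := by
      simp [inc]
    rw [e, hr1, hr2, map_add, eval_rename, eval_rename, mul_add]
    rfl
  · have h3 := goodb_add (Measure.pi fun _ : σ => mu p) (Measure.pi fun _ : τ => mu p) G₁ G₂
      hr1.cont.measurable hr2.cont.measurable
      (M1 := Pool.Agent.Y230.PS.tr M1) (M2 := Pool.Agent.Y230.PS.tr M2)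
      (M3 := Pool.Agent.Y230.PS.tr M3) (fun T1 T2 _ _ a b ha hb h3 h4 => by
        have h5 : 1 < ‖T1‖ := by
          by_contra hn
          rw [Pool.Agent.Y230.PS.tr, if_pos (not_lt.1 hn)] at h3
          have : (a : ℕ∞) = 0 := nonpos_iff_eq_zero.1 h3
          have : a = 0 := by exact_mod_cast this
          omega
        have h6 : 1 < ‖T2‖ := by
          by_contra hn
          rw [Pool.Agent.Y230.PS.tr, if_pos (not_lt.1 hn)] at h4
          have : (b : ℕ∞) = 0 := nonpos_iff_eq_zero.1 h4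
          have : b = 0 := by exact_mod_cast this
          omega
        rw [Pool.Agent.Y230.PS.tr, if_neg (not_le.2 h5)] at h3
        rw [Pool.Agent.Y230.PS.tr, if_neg (not_le.2 h6)] at h4
        rw [Pool.Agent.Y230.PS.tr, if_neg]
        · exact H T1 T2 h5 h6 a b ha hb h3 h4
        · rw [not_le, norm_mul]
          exact one_lt_mul_of_lt_of_le h5 h6.le) hg1 hg2 hc
    exact h3.congr fun u _ m => (Eb_sumpi (fun q : (σ → ℤ_[p]) × (τ → ℤ_[p]) =>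
      G₁ q.1 + G₂ q.2) c u m).symm

/-- **Products in disjoint variables.** -/
theorem XG.mul {M1 M2 M3 : ℂ → ℕ∞} {g₁ : MvPolynomial σ ℚ_[p]} {g₂ : MvPolynomial τ ℚ_[p]}
    (h1 : XG M1 g₁) (h2 : XG M2 g₂)
    (H : ∀ T, 1 < ‖T‖ → M1 T + (dp p T : ℕ) + M2 T ≤ M3 T) :
    XG M3 (rename Sum.inl g₁ * rename Sum.inr g₂ : MvPolynomial (σ ⊕ τ) ℚ_[p]) := by
  obtain ⟨K1, G₁, hr1, hg1⟩ := h1
  obtain ⟨K2, G₂, hr2, hg2⟩ := h2
  refine ⟨K1 + K2, fun z => G₁ (fun i => z (Sum.inl i)) * G₂ (fun i => z (Sum.inr i)),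
    fun z => ?_, fun c hc => ?_⟩
  · rw [Pool.Agent.T6.H26.inc_mul, hr1, hr2, map_mul, eval_rename, eval_rename, pow_add]
    change _ = (p : ℚ_[p]) ^ K1 * (p : ℚ_[p]) ^ K2 *
      (eval (fun i => inc p (z (Sum.inl i))) g₁ * eval (fun i => inc p (z (Sum.inr i))) g₂)
    ring
  · have h3 := goodb_mul (Measure.pi fun _ : σ => mu p) (Measure.pi fun _ : τ => mu p) G₁ G₂
      hr1.cont.measurable hr2.cont.measurable H hc (hg1 c hc) (hg2 c hc)
    exact h3.congr fun u _ m => (Eb_sumpi (fun q : (σ → ℤ_[p]) × (τ → ℤ_[p]) =>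
      G₁ q.1 * G₂ q.2) c u m).symm

/-- **Powers.** -/
theorem XG.pow {M M' : ℂ → ℕ∞} {g : MvPolynomial σ ℚ_[p]} (h : XG M g) (k : ℕ) (hk : 1 ≤ k)
    (H : ∀ T, 1 < ‖T‖ → M (T ^ k) + (dp p (T ^ k) : ℕ) ≤ M' T) : XG M' (g ^ k) := by
  obtain ⟨K, G, h1, h2⟩ := h
  refine ⟨K * k, fun z => G z ^ k, fun z => ?_, fun c hc => ?_⟩
  · rw [Pool.Agent.T6.H26.inc_pow, h1, map_pow, mul_pow, pow_mul]
  · exact goodb_pow _ G h1.cont.measurable k hk H hc (h2 c hc)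

/-- **Constant factors.** -/
theorem XG.smul {M : ℂ → ℕ∞} {g : MvPolynomial σ ℚ_[p]} (h : XG M g) (c : ℚ_[p]) (hc : c ≠ 0) :
    XG M (C c * g) := by
  have hp0 : (p : ℚ_[p]) ≠ 0 := by exact_mod_cast (Fact.out : p.Prime).ne_zero
  obtain ⟨K0, h0⟩ := h.up
  obtain ⟨n, c0, hc0, hcn⟩ := unit_dec c hc
  obtain ⟨K', K, hK, hK0⟩ : ∃ K' K : ℕ, (K' : ℤ) + n = K ∧ K0 ≤ K :=
    ⟨(K0 - n).toNat, (((K0 - n).toNat : ℤ) + n).toNat, by omega, by omega⟩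
  obtain ⟨G, h3, h4⟩ := h0 K hK0
  refine ⟨K', fun z => c0 * G z, fun z => ?_, fun c' hc' =>
    goodb_unit _ G h3.cont.measurable (h4 c' hc') c0 hc0⟩
  have h6 : (p : ℚ_[p]) ^ K = (p : ℚ_[p]) ^ K' * (p : ℚ_[p]) ^ n := by
    rw [← zpow_natCast, ← zpow_natCast, ← zpow_add₀ hp0, hK]
  rw [Pool.Agent.T6.H26.inc_mul, h3, map_mul, eval_C, hcn, h6]
  ring

theorem Et_equiv (G : (σ → ℤ_[p]) → ℤ_[p]) (i : σ ≃ τ) (u : ℤ_[p]) (m : ℕ) :
    Et (Measure.pi fun _ : σ => mu p) G u m =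
      Et (Measure.pi fun _ : τ => mu p) (fun z => G (fun a => z (i a))) u m := by
  have hmp := measurePreserving_piCongrLeft (fun _ : τ => mu p) i
  have h3 : ∀ x : σ → ℤ_[p], (fun a => (MeasurableEquiv.piCongrLeft (fun _ : τ => ℤ_[p]) i) x
      (i a)) = x := by
    intro x
    funext a
    exact Equiv.piCongrLeft_apply_apply (fun _ : τ => ℤ_[p]) i x a
  have h4 := hmp.integral_comp' (fun x : τ → ℤ_[p] => ch p m (u * G (fun a => x (i a))))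
  unfold Et
  rw [← h4]
  refine integral_congr_ae (Filter.Eventually.of_forall fun x => ?_)
  beta_reduce
  rw [h3 x]

theorem XG.equiv {M : ℂ → ℕ∞} {g : MvPolynomial σ ℚ_[p]} (h : XG M g) (i : σ ≃ τ) :
    XG M (rename i g) := by
  obtain ⟨K, G, h1, h2⟩ := h
  refine ⟨K, fun z => G (fun a => z (i a)), fun z => ?_, fun c hc => (h2 c hc).congr
    fun u _ m => ?_⟩
  · rw [h1, eval_rename]
    rfl
  · unfold Eb
    refine integral_congr_ae (Filter.Eventually.of_forall fun y => ?_)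
    exact Et_equiv G i _ m

theorem hat_V {Ω : Type} [MeasurableSpace Ω] (μ : Measure Ω) [IsProbabilityMeasure μ]
    (G : Ω → ℤ_[p]) {c : ℕ} (hc : 1 ≤ c) :
    Vc (μ.prod (mu p)) (fun q => ‖hat G c q‖) p = Vc μ (fun x => ‖G x‖) p := by
  funext e
  unfold Vc
  congr 1
  unfold Vo
  congr 1
  have h1 : ({q | ‖hat G c q‖ ≤ ((p : ℝ)⁻¹) ^ e} : Set (Ω × ℤ_[p])) =
      {x | ‖G x‖ ≤ ((p : ℝ)⁻¹) ^ e} ×ˢ Set.univ := by
    ext q
    rw [Set.mem_prod, Set.mem_ofPred_eq, Set.mem_ofPred_eq]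
    unfold hat
    rw [norm_mul, uo_norm hc, mul_one]
    simp
  rw [h1, Measure.prod_prod, measure_univ, mul_one]

/-- **The zeta functions.** -/
theorem XG.FR {M M' : ℂ → ℕ∞} {g : MvPolynomial σ ℚ_[p]} (h : XG M g)
    (H : ∀ T, 1 < ‖T‖ → M T + (dp p T : ℕ) ≤ M' T) :
    Pool.Agent.Y230.PS.FR p M' (Pool.Agent.Y230.PS.FF fun _ : Fin 1 => g) := by
  obtain ⟨K, G, h1, h2⟩ := h
  have h2' : GoodE p (Pool.Agent.Y230.PS.tr M)
      (Et ((Measure.pi fun _ : σ => mu p).prod (mu p)) (hat G 1)) :=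
    (h2 1 le_rfl).congr fun u _ m => (hat_E _ G h1.cont.measurable 1 u m).symm
  have h3 := V_tr ((Measure.pi fun _ : σ => mu p).prod (mu p)) (hat G 1)
    (hat_meas G h1.cont.measurable 1) h2'
  rw [hat_V _ G le_rfl] at h3
  have h4 := FR_of_Vc _ (fun x => ‖G x‖) h1.cont.measurable.norm (fun x => val_norm G x) h3
  have e : (fun x => ‖G x‖) = fun x => ((p : ℝ)⁻¹) ^ K * sz (fun _ : Fin 1 => g) x := by
    funext x
    have h5 : ‖G x‖ = ‖inc p (G x)‖ := rfl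
    rw [h5, h1 x, norm_mul, norm_pow, Padic.norm_p]
    unfold sz
    rw [pi_norm_const]
  rw [e] at h4
  exact ((FR_scale (Measure.pi fun _ : σ => mu p) _ (sz_nonneg _) K).1 h4).mono H

end rep

end Pool.Agent.T6.H26.PX
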