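import Pool.Agent.T6.H26.PXP
import Pool.Agent.T6.H26.ISExp
import Pool.Agent.T6.H26.FTMlt
import Pool.Agent.Y465.TH.R

set_option autoImplicit false
set_option linter.unusedSectionVars false
set_option linter.unusedVariables false

/-! # The averaged exponential sums of all plane curves -/

namespace Pool.Agent.T6.H26.PX

open MeasureTheory MvPolynomial Pool.Agent.W427.SMC Pool.Agent.Y230.PS Pool.Agent.Y230.PT
open Pool.Agent.Y230.TH
open Pool.Agent.W574.SM (IsFunctionalEq)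
open Pool.Agent.W574.RO Pool.Agent.W574.CN Pool.Agent.Y230.RE Pool.Agent.Y230.PL
open scoped ENNReal

variable {p : ℕ} [Fact p.Prime]

attribute [local instance] msZ bsZ nz

theorem rep_Gf {σ : Type} [Fintype σ] (g : MvPolynomial σ ℚ_[p]) {K : ℕ}
    {P : MvPolynomial σ ℤ_[p]} (hP : mi P = C ((p : ℚ_[p]) ^ K) * g) : Rep g K (Gf P) := by
  intro x
  have h1 := congrArg (eval fun i => inc p (x i)) hP
  rw [map_mul, eval_C] at h1
  rw [← h1]
  unfold mi Gf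
  rw [eval_map]
  change PadicInt.Coe.ringHom (eval x P) = _
  rw [← eval₂_id, eval₂_comp_left, RingHom.comp_id]
  rfl

/-- the regularity for the non-trivial characters -/
theorem reg_nt (g : MvPolynomial (Fin 2) ℚ) (hg : g ≠ 0) {c : ℕ} (hc : 1 ≤ c)
    (θ : DirichletCharacter ℂ (p ^ c)) (hθ : θ ≠ 1) (T : ℂ) (hT : T ≠ 0)
    (hM : ‖T‖ ≤ 1 ∨ ¬ FK ⟨Fin 2, Fin 1, fun _ => g⟩ ((rr p T : ℝ) : ℂ)
      (1 + dl ((rr p T : ℝ) : ℂ))) :
    Reg p T 0 (FX (chD θ) (MvPolynomial.map (algebraMap ℚ ℚ_[p]) g)) := by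
  obtain ⟨φ⟩ := exists_emb p
  have hφ : φ.comp (algebraMap ℚ ℚ_[p]) = algebraMap ℚ ℂ := RingHom.ext_rat _ _
  have hgK : MvPolynomial.map (algebraMap ℚ ℚ_[p]) g ≠ 0 := fun h0 => hg
    (MvPolynomial.map_injective _ (algebraMap ℚ ℚ_[p]).injective (by rw [map_zero]; exact h0))
  have hχ := isCh_chD θ hc
  by_cases hT1 : ‖T‖ ≤ 1
  · exact reg_FX_sm hχ _ hgK hT hT1
  · have hN := hM.resolve_left hT1
    unfold FK at hN
    push Not at hN
    obtain ⟨b, hb, hnd⟩ := hN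
    have hb' : IsFunctionalEq
        (fun _ : Unit => mp φ (MvPolynomial.map (algebraMap ℚ ℚ_[p]) g)) b := by
      refine functionalEq_equiv (Equiv.refl (Fin 2)) (Equiv.ofUnique Unit (Fin 1)) _ _
        (fun j => ?_) b hb
      unfold mp
      rw [MvPolynomial.map_map, hφ, Equiv.coe_refl, rename_id_apply]
      rfl
    by_cases hr : ((rr p T : ℝ) : ℂ) = -1
    · rw [hr, dl_m1] at hnd
      have hb0 : b ≠ 0 := by
        rintro rfl
        exact hnd (dvd_zero _)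
      refine reg_FX_m1 hχ φ _ hgK b hb0 hb' hT (rr_norm T (not_le.1 hT1) hr) ?_
        (chD_ncrit θ hc hθ T)
      by_contra h
      exact hnd ((Polynomial.le_rootMultiplicity_iff hb0).1 (by omega))
    · rw [dl_ne hr, add_zero, pow_one, Polynomial.dvd_iff_isRoot] at hnd
      exact reg_FX_C hχ φ _ hgK b hb' hT hnd

theorem Sx_curve (g : MvPolynomial (Fin 2) ℚ) (hg : g ≠ 0) (K : ℕ)
    (G : (Fin 2 → ℤ_[p]) → ℤ_[p]) (hr : Rep (MvPolynomial.map (algebraMap ℚ ℚ_[p]) g) K G)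
    (hG : Measurable G) {c : ℕ} (hc : 1 ≤ c) (θ : DirichletCharacter ℂ (p ^ c)) (hθ : θ ≠ 1) :
    Sx (Measure.pi fun _ : Fin 2 => mu p) G (chD θ) ∈ EP (Pool.Agent.Y230.PS.tr (mE p g)) := by
  have hχ := isCh_chD θ hc
  obtain ⟨D, P, hD, h1, h2⟩ := exists_ratX (FX (chD θ) (MvPolynomial.map (algebraMap ℚ ℚ_[p]) g))
    (fun T0 hT0 hT1 => reg_nt g hg hc θ hθ T0 hT0 (Or.inl hT1))
  refine Sx_mem _ G hχ hG D (Polynomial.X ^ K * P) hD (fun s hs => ?_) (fun T hT => ?_)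
  · rw [Zx_curve hχ _ K G hr s, Polynomial.eval_mul, Polynomial.eval_pow, Polynomial.eval_X,
      ← h1 s hs.le]
    ring
  · unfold Pool.Agent.Y230.PS.tr
    split_ifs with hT1
    · have h3 := h2 T hT 0 (reg_nt g hg hc θ hθ T hT (Or.inl hT1))
      exact_mod_cast h3
    · by_cases hF : FK ⟨Fin 2, Fin 1, fun _ => g⟩ ((rr p T : ℝ) : ℂ)
          (1 + dl ((rr p T : ℝ) : ℂ))
      · rw [mE_top hF]
        exact le_top
      · rw [mE_zero hF]
        have h3 := h2 T hT 0 (reg_nt g hg hc θ hθ T hT (Or.inr hF))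
        exact_mod_cast h3

theorem Vc_curve (g : MvPolynomial (Fin 2) ℚ) (hg : g ≠ 0) (K : ℕ)
    (G : (Fin 2 → ℤ_[p]) → ℤ_[p]) (hr : Rep (MvPolynomial.map (algebraMap ℚ ℚ_[p]) g) K G)
    (hG : Measurable G) : Vc (Measure.pi fun _ : Fin 2 => mu p) (fun x => ‖G x‖) p ∈
      EP (Pool.Agent.Y230.PS.tr (rG p (wM p) ⟨Fin 2, Fin 1, fun _ => g⟩)) := by
  refine Vc_mem _ _ hG.norm (fun x => val_norm G x) ?_
  have e : (fun x => ‖G x‖) = fun x => ((p : ℝ)⁻¹) ^ K *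
      sz (fun _ : Fin 1 => MvPolynomial.map (algebraMap ℚ ℚ_[p]) g) x := by
    funext x
    have h5 : ‖G x‖ = ‖inc p (G x)‖ := rfl
    rw [h5, hr x, norm_mul, norm_pow, Padic.norm_p]
    unfold sz
    rw [pi_norm_const]
  rw [e]
  exact (FR_scale (Measure.pi fun _ : Fin 2 => mu p) _ (sz_nonneg _) K).2
    (curve_M Pool.Agent.Y465.TH.tR g hg)

theorem rG_mE {σ : Type} [Fintype σ] (g : MvPolynomial σ ℚ) (T : ℂ) (hT : T ≠ 0) :
    (if T = (p : ℂ) then Pool.Agent.Y230.PS.tr (rG p (wM p) ⟨σ, Fin 1, fun _ => g⟩) T - 1 else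
      Pool.Agent.Y230.PS.tr (rG p (wM p) ⟨σ, Fin 1, fun _ => g⟩) T) ≤
      Pool.Agent.Y230.PS.tr (mE p g) T := by
  unfold Pool.Agent.Y230.PS.tr
  by_cases hT1 : ‖T‖ ≤ 1
  · simp only [if_pos hT1]
    split_ifs <;> simp
  · simp only [if_neg hT1]
    by_cases hF : FK ⟨σ, Fin 1, fun _ => g⟩ ((rr p T : ℝ) : ℂ) (1 + dl ((rr p T : ℝ) : ℂ))
    · rw [mE_top hF]
      exact le_top
    · have h1 : rG p (wM p) ⟨σ, Fin 1, fun _ => g⟩ T ≤ ((dp p T : ℕ) : ℕ∞) := iSup_le fun k => by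
        have hk : (k : ℕ) = 0 := by
          by_contra hk
          exact hF (k.2.mono (by omega))
        unfold wM
        rw [hk, zero_add]
      rw [mE_zero hF]
      rw [dp_eq] at h1
      split_ifs with h2
      · rw [if_pos h2] at h1
        refine tsub_le_iff_right.2 (h1.trans ?_)
        simp
      · rw [if_neg h2] at h1
        simpa using h1

/-- **All plane curves.** -/
theorem XG_curve (g : MvPolynomial (Fin 2) ℚ) (hg : g ≠ 0) :
    XG (mE p g) (MvPolynomial.map (algebraMap ℚ ℚ_[p]) g) := by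
  obtain ⟨K, hK⟩ := clear (MvPolynomial.map (algebraMap ℚ ℚ_[p]) g)
  obtain ⟨P, hP⟩ := hK K le_rfl
  have hr := rep_Gf _ hP
  have hG := Gf_meas P
  have hA : ∀ c, 1 ≤ c → ∀ θ : DirichletCharacter ℂ (p ^ c),
      Af (Measure.pi fun _ : Fin 2 => mu p) (Gf P) θ ∈ EP (Pool.Agent.Y230.PS.tr (mE p g)) := by
    intro c hc θ
    by_cases hθ : θ = 1
    · subst hθ
      exact Af_one _ _ hG hc (Vc_curve g hg K _ hr hG) (rG_mE g)
    · exact Af_mem _ _ hG θ hc hθ (Sx_curve g hg K _ hr hG hc θ⁻¹ (inv_ne_one.2 hθ))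
  refine ⟨K, Gf P, hr, fun c hc => ⟨c, fun u v hu hv huv m => ?_, fun u hu => ?_⟩⟩
  · rw [Eb_eq_Ea _ _ c u hu, Eb_eq_Ea _ _ c v hv, Ea_eq _ _ hG hc u hu, Ea_eq _ _ hG hc v hv,
      toZ_congr huv]
  · have e : Eb (Measure.pi fun _ : Fin 2 => mu p) (Gf P) c u =
        ((p : ℂ) ^ c * ((p ^ c).totient : ℂ)⁻¹) • ∑ θ : DirichletCharacter ℂ (p ^ c),
          (θ (PadicInt.toZModPow c u)⁻¹) • Af (Measure.pi fun _ : Fin 2 => mu p) (Gf P) θ := by
      funext m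
      rw [Eb_eq_Ea _ _ c u hu, Ea_eq _ _ hG hc u hu, Pi.smul_apply, Finset.sum_apply]
      rfl
    rw [e]
    exact Submodule.smul_mem _ _ (Submodule.sum_mem _ fun θ _ =>
      Submodule.smul_mem _ _ (hA c hc θ))

end Pool.Agent.T6.H26.PX
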