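import Pool.Agent.T6.H26.PXQ

set_option autoImplicit false
set_option linter.unusedSectionVars false
set_option linter.unusedVariables false

/-! # The averages of the exponential sums of weighted homogeneous polynomials -/

namespace Pool.Agent.T6.H26.PX

open MeasureTheory MvPolynomial Pool.Agent.W427.SMC Pool.Agent.Y230.PS Pool.Agent.Y230.PT
open Pool.Agent.Y230.TH
open scoped ENNReal

variable {p : ℕ} [Fact p.Prime]

attribute [local instance] msZ bsZ nz

/-- units close to one are powers -/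
theorem exists_pow_eq (d : ℕ) (hd : 1 ≤ d) : ∃ c : ℕ, 1 ≤ c ∧ ∀ y : ℤ_[p], ∃ t : ℤ_[p],
    ‖t‖ = 1 ∧ t ^ d = uo c y := by
  have hd0 : (d : ℤ_[p]) ≠ 0 := by
    have : d ≠ 0 := by omega
    exact_mod_cast this
  have hd1 : 0 < ‖(d : ℤ_[p])‖ ^ 2 := pow_pos (norm_pos_iff.2 hd0) 2
  have hp1 : ((p : ℝ)⁻¹) < 1 := inv_lt_one_of_one_lt₀ (by
    exact_mod_cast (Fact.out : p.Prime).one_lt)
  obtain ⟨c, hc⟩ := exists_pow_lt_of_lt_one hd1 hp1
  refine ⟨c + 1, by omega, fun y => ?_⟩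
  have h1 : ‖Polynomial.aeval (1 : ℤ_[p]) (Polynomial.X ^ d - Polynomial.C (uo (c + 1) y) :
      Polynomial ℤ_[p])‖ < ‖Polynomial.aeval (1 : ℤ_[p]) (Polynomial.derivative
        (Polynomial.X ^ d - Polynomial.C (uo (c + 1) y) : Polynomial ℤ_[p]))‖ ^ 2 := by
    have e1 : Polynomial.aeval (1 : ℤ_[p]) (Polynomial.X ^ d - Polynomial.C (uo (c + 1) y) :
        Polynomial ℤ_[p]) = 1 - uo (c + 1) y := by
      simp
    have e2 : Polynomial.aeval (1 : ℤ_[p]) (Polynomial.derivative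
        (Polynomial.X ^ d - Polynomial.C (uo (c + 1) y) : Polynomial ℤ_[p])) = (d : ℤ_[p]) := by
      simp [Polynomial.derivative_X_pow]
    rw [e1, e2, norm_sub_rev]
    refine (uo_near (c + 1) y).trans_lt (lt_of_le_of_lt ?_ hc)
    exact pow_le_pow_of_le_one (pinv_pos p).le hp1.le (by omega)
  obtain ⟨t, ht, -⟩ := hensels_lemma h1
  have h2 : t ^ d = uo (c + 1) y := by
    have h3 : Polynomial.aeval t (Polynomial.X ^ d - Polynomial.C (uo (c + 1) y) :
        Polynomial ℤ_[p]) = t ^ d - uo (c + 1) y := by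
      simp
    rw [h3] at ht
    exact sub_eq_zero.1 ht
  refine ⟨t, ?_, h2⟩
  have h4 := congrArg norm h2
  rw [norm_pow, uo_norm (by omega)] at h4
  exact (pow_eq_one_iff_of_nonneg (norm_nonneg _) (by omega)).1 h4

section meas

variable {σ : Type} [Fintype σ]

theorem mp_mul (v : ℤ_[p]) (hv : ‖v‖ = 1) : MeasurePreserving (fun z => v * z) (mu p) (mu p) := by
  have hm : Measurable (fun z : ℤ_[p] => v * z) := (continuous_const.mul continuous_id).measurable
  refine ⟨hm, ?_⟩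
  refine Measure.ext fun s hs => ?_
  have hms : MeasurableSet ((fun z => v * z) ⁻¹' s) := hm hs
  have h1 := mul_int v hv (s.indicator fun _ => (1 : ℂ)) (measurable_const.indicator hs)
  have h2 : ∫ z, s.indicator (fun _ => (1 : ℂ)) (v * z) ∂(mu p) =
      ∫ z, ((fun z => v * z) ⁻¹' s).indicator (fun _ => (1 : ℂ)) z ∂(mu p) := rfl
  rw [h2, integral_indicator hms, integral_indicator hs, setIntegral_const, setIntegral_const,
    Complex.real_smul, Complex.real_smul, mul_one, mul_one] at h1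
  have h3 : (mu p).real ((fun z => v * z) ⁻¹' s) = (mu p).real s := by exact_mod_cast h1
  rw [Measure.map_apply hm hs]
  unfold Measure.real at h3
  exact (ENNReal.toReal_eq_toReal_iff' (measure_ne_top _ _) (measure_ne_top _ _)).1 h3

theorem int_diag (v : σ → ℤ_[p]) (hv : ∀ i, ‖v i‖ = 1) (f : (σ → ℤ_[p]) → ℂ)
    (hf : Measurable f) : ∫ x, f (fun i => v i * x i) ∂(Measure.pi fun _ : σ => mu p) =
      ∫ x, f x ∂(Measure.pi fun _ : σ => mu p) := by
  have h1 := measurePreserving_pi (fun _ : σ => mu p) (fun _ : σ => mu p)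
    (f := fun i z => v i * z) fun i => mp_mul (v i) (hv i)
  conv_rhs => rw [← h1.map_eq]
  rw [integral_map h1.measurable.aemeasurable hf.aestronglyMeasurable]

end meas

theorem eval_zw {K σ : Type} [Field K] [Fintype σ] (g : MvPolynomial σ K) (w : σ → ℤ) (d : ℤ)
    (hg : IsWeightedHomogeneous w g d) (t : K) (ht : t ≠ 0) (x : σ → K) :
    eval (fun i => t ^ w i * x i) g = t ^ d * eval x g := by
  classical
  rw [eval_eq, eval_eq, Finset.mul_sum]
  refine Finset.sum_congr rfl fun s hs => ?_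
  have h1 := hg (mem_support_iff.1 hs)
  rw [Finsupp.weight_apply, Finsupp.sum] at h1
  have h2 : ∏ i ∈ s.support, (t ^ w i * x i) ^ s i = t ^ d * ∏ i ∈ s.support, x i ^ s i := by
    have h3 : ∀ S : Finset σ, ∏ i ∈ S, (t ^ w i * x i) ^ s i =
        t ^ (∑ i ∈ S, s i • w i) * ∏ i ∈ S, x i ^ s i := by
      intro S
      induction S using Finset.induction_on with
      | empty => simp
      | insert i S hi ih =>
        rw [Finset.prod_insert hi, Finset.prod_insert hi, Finset.sum_insert hi, ih, zpow_add₀ ht,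
          mul_pow, ← zpow_natCast (t ^ w i), ← zpow_mul, nsmul_eq_mul, mul_comm (w i)]
        ring
    rw [h3, h1]
  rw [h2]
  ring

section main

variable {σ : Type} [Fintype σ]

theorem inc_zpow (t : ℤ_[p]ˣ) (n : ℤ) : inc p ((t ^ n : ℤ_[p]ˣ) : ℤ_[p]) =
    (inc p (t : ℤ_[p])) ^ n := by
  have h1 := map_zpow (Units.map (PadicInt.Coe.ringHom (p := p)).toMonoidHom) t n
  have h2 := congrArg (fun u : ℚ_[p]ˣ => (u : ℚ_[p])) h1
  beta_reduce at h2
  rw [Units.val_zpow_eq_zpow_val] at h2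
  exact h2

/-- the exponential sums of a weighted homogeneous polynomial are invariant -/
theorem Et_pow_inv {g : MvPolynomial σ ℚ_[p]} {K : ℕ} {G : (σ → ℤ_[p]) → ℤ_[p]}
    (hr : Rep g K G) (w : σ → ℤ) (d : ℕ) (hg : IsWeightedHomogeneous w g (d : ℤ)) (t : ℤ_[p])
    (ht : ‖t‖ = 1) (u : ℤ_[p]) (m : ℕ) :
    Et (Measure.pi fun _ : σ => mu p) G (u * t ^ d) m =
      Et (Measure.pi fun _ : σ => mu p) G u m := by
  obtain ⟨t, rfl⟩ := PadicInt.isUnit_iff.2 ht
  have hG : Measurable G := hr.cont.measurable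
  have hv : ∀ i, ‖((t ^ w i : ℤ_[p]ˣ) : ℤ_[p])‖ = 1 := fun i =>
    PadicInt.isUnit_iff.1 (Units.isUnit _)
  have ht0 : inc p (t : ℤ_[p]) ≠ 0 := by
    intro h
    have h1 : ‖inc p (t : ℤ_[p])‖ = ‖(t : ℤ_[p])‖ := rfl
    rw [h, norm_zero, ht] at h1
    exact zero_ne_one h1
  have h1 : ∀ x : σ → ℤ_[p], G (fun i => ((t ^ w i : ℤ_[p]ˣ) : ℤ_[p]) * x i) =
      (t : ℤ_[p]) ^ d * G x := by
    intro x
    apply inc_inj
    rw [hr, Pool.Agent.T6.H26.inc_mul, Pool.Agent.T6.H26.inc_pow, hr]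
    have h2 : (fun i => inc p (((t ^ w i : ℤ_[p]ˣ) : ℤ_[p]) * x i)) =
        fun i => (inc p (t : ℤ_[p])) ^ w i * inc p (x i) := by
      funext i
      rw [Pool.Agent.T6.H26.inc_mul, inc_zpow]
    rw [h2, eval_zw g w d hg _ ht0, zpow_natCast]
    ring
  unfold Et
  rw [← int_diag _ hv (fun x => ch p m (u * G x)) ((ch_meas p m).comp (hG.const_mul u))]
  refine integral_congr_ae (Filter.Eventually.of_forall fun x => ?_)
  beta_reduce
  rw [h1, mul_assoc]

/-- **Weighted homogeneous polynomials.** -/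
theorem XE_of_wh {M : ℂ → ℕ∞} {g : MvPolynomial σ ℚ_[p]} (h : XG M g) (w : σ → ℤ) (d : ℤ)
    (hd : 0 < d) (hg : IsWeightedHomogeneous w g d) : XE M g := by
  obtain ⟨K, G, hr, h1⟩ := h
  obtain ⟨n, rfl⟩ := Int.eq_ofNat_of_zero_le hd.le
  obtain ⟨c, hc, h2⟩ := exists_pow_eq (p := p) n (by omega)
  refine ⟨K, G, hr, (h1 c hc).congr fun u _ m => ?_⟩
  unfold Eb
  have h3 : ∀ y : ℤ_[p], Et (Measure.pi fun _ : σ => mu p) G (u * uo c y) m =
      Et (Measure.pi fun _ : σ => mu p) G u m := by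
    intro y
    obtain ⟨t, ht, hty⟩ := h2 y
    rw [← hty]
    exact Et_pow_inv hr w n hg t ht u m
  simp only [h3]
  rw [integral_const]
  simp

end main

end Pool.Agent.T6.H26.PX
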