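import Pool.Agent.T6.H26.FTMlt

set_option autoImplicit false
set_option linter.unusedSectionVars false
set_option linter.unusedVariables false

/-! # Functional equations of sums and powers, for polynomials with a constant term -/

namespace Pool.Agent.T6.H26.PX

open MvPolynomial
open Pool.Agent.W574.SM (weyl)
open Pool.Agent.W574.RO (Fr fr_add fr_mul fr_weyl)
open Pool.Agent.W574.HS (minus_one)
open Pool.Agent.R852.PP (fr_zero fr_sum fr_pol)
open Pool.Agent.H628R4.TP (IsBFunction weylS)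
open Pool.Agent.Y21.TH (ML PD ml_mem NN nn_weyl)
open Pool.Agent.Y230.PS (Sq Sq_mem Sq_mem0 Sq_poly isB_iff)
open Pool.Agent.Y230.TH (kf W StA)

section units

variable {σ τ K : Type} [Field K]

theorem exists_co (f : MvPolynomial σ K) (hf0 : f ≠ 0) (hc : constantCoeff f = 0) :
    ∃ e : σ →₀ ℕ, e ≠ 0 ∧ coeff e f ≠ 0 := by
  by_contra h
  push Not at h
  refine hf0 (MvPolynomial.ext _ _ fun e => ?_)
  rw [coeff_zero]
  by_cases he : e = 0
  · rw [he, ← constantCoeff_eq]
    exact hc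
  · exact h e he

/-- the value at `z = 0` -/
theorem th_sum (f : MvPolynomial σ K) (g : MvPolynomial τ K) :
    aeval (Sum.elim X (fun _ => 0) : σ ⊕ τ → MvPolynomial σ K)
      (rename Sum.inl f + rename Sum.inr g : MvPolynomial (σ ⊕ τ) K) =
        f + C (constantCoeff g) := by
  rw [map_add, aeval_rename, aeval_rename, Sum.elim_comp_inl, Sum.elim_comp_inr,
    aeval_X_left_apply]
  congr 1
  exact aeval_zero (S₁ := MvPolynomial σ K) g

theorem co_sum (f : MvPolynomial σ K) (c : K) (e : σ →₀ ℕ) (he : e ≠ 0) :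
    coeff e (f + C c) = coeff e f := by
  classical
  rw [coeff_add, coeff_C, if_neg (Ne.symm he), add_zero]

theorem sum_ne (f : MvPolynomial σ K) (g : MvPolynomial τ K) (e : σ →₀ ℕ) (he : e ≠ 0)
    (hfe : coeff e f ≠ 0) : (rename Sum.inl f + rename Sum.inr g : MvPolynomial (σ ⊕ τ) K) ≠ 0 := by
  intro h
  have h1 := th_sum f g
  rw [h, map_zero] at h1
  have h2 := congrArg (coeff e) h1
  rw [co_sum f _ e he, coeff_zero] at h2
  exact hfe h2.symm

theorem nu_sum (f : MvPolynomial σ K) (g : MvPolynomial τ K) (e : σ →₀ ℕ) (he : e ≠ 0)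
    (hfe : coeff e f ≠ 0) :
    ¬ IsUnit (rename Sum.inl f + rename Sum.inr g : MvPolynomial (σ ⊕ τ) K) := by
  intro h
  have h1 := h.map (aeval (Sum.elim X (fun _ => 0) : σ ⊕ τ → MvPolynomial σ K))
  rw [th_sum f g] at h1
  have h2 := (isUnit_iff.1 h1).2 e he
  rw [co_sum f _ e he] at h2
  exact hfe h2.eq_zero

theorem nu_mul (f : MvPolynomial σ K) (g : MvPolynomial τ K) (hf : ¬ IsUnit f) :
    ¬ IsUnit (rename Sum.inl f * rename Sum.inr g : MvPolynomial (σ ⊕ τ) K) := by
  intro h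
  have h1 := isUnit_of_mul_isUnit_left h
  have h2 := h1.map (aeval (Sum.elim X (fun _ => 0) : σ ⊕ τ → MvPolynomial σ K))
  rw [aeval_rename, Sum.elim_comp_inl, aeval_X_left_apply] at h2
  exact hf h2

theorem nu_equiv (f : MvPolynomial σ K) (i : σ ≃ τ) (hf : ¬ IsUnit f) :
    ¬ IsUnit (rename i f) := by
  intro h
  have h2 := h.map (rename i.symm)
  rw [rename_rename, Equiv.symm_comp_self, rename_id_apply] at h2
  exact hf h2

theorem nu_map {L : Type} [Field L] (φ : K →+* L) (f : MvPolynomial σ K)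
    (h : IsUnit (map φ f)) : IsUnit f := by
  rw [isUnit_iff] at h ⊢
  refine ⟨?_, fun i hi => ?_⟩
  · have h1 := h.1
    rw [coeff_map, isUnit_iff_ne_zero] at h1
    rw [isUnit_iff_ne_zero]
    intro h2
    rw [h2, map_zero] at h1
    exact h1 rfl
  · have h1 := (h.2 i hi).eq_zero
    rw [coeff_map, map_eq_zero_iff φ φ.injective] at h1
    rw [h1]
    exact IsNilpotent.zero

end units

variable {σ τ : Type}

/-- **The functional equations of `f(x) + g(z)`**, `f` weighted homogeneous of positive degree. -/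
theorem fe_sum' (hA : StA) (w : σ → ℤ) (d : ℤ) (hd : 0 < d) (f : MvPolynomial σ ℂ)
    (g : MvPolynomial τ ℂ) (hf : IsWeightedHomogeneous w f d) (hf0 : f ≠ 0) (hg0 : g ≠ 0)
    (b : Polynomial ℂ)
    (hb : IsBFunction (rename Sum.inl f + rename Sum.inr g : MvPolynomial (σ ⊕ τ) ℂ) b) :
    ∃ b' : Polynomial ℂ, b = (Polynomial.X + 1) * b' ∧ ∀ α : ℂ,
      (∀ q : Polynomial ℂ, (fun k : ℕ => q.eval (k : ℂ) • f ^ k) ∈ W f → q.eval α = 0) →
      IsBFunction g ((Polynomial.X + 1) * b'.comp (Polynomial.X + Polynomial.C α)) := by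
  classical
  set F : MvPolynomial (σ ⊕ τ) ℂ := rename Sum.inl f + rename Sum.inr g with hF
  have hfc : constantCoeff f = 0 := by
    by_contra h
    have h1 := hf (d := 0) (by rw [constantCoeff_eq] at h; exact h)
    simp only [map_zero] at h1
    omega
  obtain ⟨e0, he0, hfe⟩ := exists_co f hf0 hfc
  have hF0 : F ≠ 0 := sum_ne f g e0 he0 hfe
  have hFd : ¬ F ∣ 1 := fun h => nu_sum f g e0 he0 hfe (isUnit_iff_dvd_one.2 h)
  obtain ⟨P, hP⟩ := hb
  have hm1 : b.eval (-1) = 0 := by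
    refine minus_one F 1 hF0 hFd b P fun s => ?_
    rw [one_mul]
    exact hP s
  obtain ⟨b', hb'⟩ : (Polynomial.X + 1 : Polynomial ℂ) ∣ b := by
    have := Polynomial.dvd_iff_isRoot.2 hm1
    rwa [Polynomial.C_neg, sub_neg_eq_add, Polynomial.C_1] at this
  refine ⟨b', hb', fun α hα => ?_⟩
  -- the normalized equation
  have hP' : ∀ N : ℕ, b'.eval (N : ℂ) • pz F N = P.sum fun m Q => ((N : ℂ) ^ m) •
      (Q : Module.End ℂ (MvPolynomial (σ ⊕ τ) ℂ)) (pz F ((N + 1 : ℕ) : ℤ)) := by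
    intro N
    have h1 := hP N
    rw [hb', Polynomial.eval_mul, Polynomial.eval_add, Polynomial.eval_X, Polynomial.eval_one,
      ← smul_eq_C_mul] at h1
    have h2 := congrArg (fun G => (((N + 1).factorial : ℂ))⁻¹ • G) h1
    beta_reduce at h2
    rw [smul_smul, Finsupp.smul_sum] at h2
    have h3 : (((N + 1).factorial : ℂ))⁻¹ * (((N : ℂ) + 1) * b'.eval (N : ℂ)) =
        b'.eval (N : ℂ) * ((N.factorial : ℂ))⁻¹ := by
      rw [Nat.factorial_succ]
      push_cast
      have h4 : (N.factorial : ℂ) ≠ 0 := by exact_mod_cast N.factorial_ne_zero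
      have h5 : (N : ℂ) + 1 ≠ 0 := by exact_mod_cast Nat.succ_ne_zero N
      field_simp
    rw [h3, mul_smul] at h2
    rw [pz_nat, h2]
    refine Finsupp.sum_congr fun m _ => ?_
    rw [pz_nat, map_smul, smul_comm]
  obtain ⟨K, hK, A, B, δ, m, hE⟩ := expansion w f g d hd hf b' P hP'
  obtain ⟨lam, hl1, hl2⟩ := exists_fun f α hα
  -- the functions of `k`
  set V : K → ℕ → ℕ → MvPolynomial σ ℂ := fun i j k =>
    ((k : ℂ) ^ j * (k.factorial : ℂ)) • (A i).1 (pz f (k - δ i)) with hV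
  have hVneg : ∀ i j, δ i < 0 → lam (V i j) = 0 := by
    intro i j hi
    apply hl1
    obtain ⟨e, he⟩ : ∃ e : ℕ, δ i = -(e : ℤ) := ⟨(-δ i).toNat, by omega⟩
    have he1 : 1 ≤ e := by omega
    refine Submodule.subset_span ⟨j, e, A i, he1, funext fun k => ?_⟩
    have h1 : (k : ℤ) - δ i = ((k + e : ℕ) : ℤ) := by omega
    simp only [hV]
    rw [h1, pz_nat, map_smul, smul_smul]
    congr 1
    unfold kf
    ring
  set ρ : K → Polynomial ℂ := fun i => ∑ j ∈ Finset.range (m i + 1),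
    Polynomial.C (((m i).choose j : ℕ) * lam (V i j)) * Polynomial.X ^ (m i - j) with hρ
  have hρ0 : ∀ i, δ i < 0 → ρ i = 0 := by
    intro i hi
    rw [hρ]
    refine Finset.sum_eq_zero fun j _ => ?_
    rw [hVneg i j hi, mul_zero, Polynomial.C_0, zero_mul]
  have hmain : ∀ l : ℕ, b'.eval (α + l) • pz g l =
      ∑ i, (ρ i).eval (l : ℂ) • (B i).1 (pz g (l + 1 + δ i)) := by
    intro l
    ext n
    rw [coeff_smul, coeff_sum]
    have h1 : (fun k : ℕ => ((Polynomial.C (coeff n (pz g l)) *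
        b'.comp (Polynomial.X + Polynomial.C (l : ℂ))).eval (k : ℂ)) • f ^ k) =
        ∑ i, ∑ j ∈ Finset.range (m i + 1), (coeff n ((B i).1 (pz g (l + 1 + δ i))) *
          (((m i).choose j : ℕ) * (l : ℂ) ^ (m i - j))) • V i j := by
      funext k
      have h2 := congrArg (fun G => (k.factorial : ℂ) • cor n G) (hE k l)
      beta_reduce at h2
      rw [map_smul, cor_mul, map_sum, Finset.smul_sum, pz_nat f k] at h2
      rw [Finset.sum_apply]
      have h3 : ((Polynomial.C (coeff n (pz g l)) *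
          b'.comp (Polynomial.X + Polynomial.C (l : ℂ))).eval (k : ℂ)) • f ^ k =
          (k.factorial : ℂ) • Polynomial.eval ((k + l : ℕ) : ℂ) b' •
            coeff n (pz g l) • ((k.factorial : ℂ))⁻¹ • f ^ k := by
        rw [smul_smul, smul_smul, smul_smul]
        congr 1
        rw [Polynomial.eval_mul, Polynomial.eval_C, Polynomial.eval_comp, Polynomial.eval_add,
          Polynomial.eval_X, Polynomial.eval_C, Nat.cast_add]
        have h4 : (k.factorial : ℂ) ≠ 0 := by exact_mod_cast k.factorial_ne_zero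
        field_simp
      rw [h3, h2]
      refine Finset.sum_congr rfl fun i _ => ?_
      rw [map_smul, cor_mul, shift_pow, Finset.sum_smul, Finset.smul_sum, Finset.sum_apply]
      refine Finset.sum_congr rfl fun j _ => ?_
      simp only [hV, Pi.smul_apply]
      rw [smul_smul, smul_smul, smul_smul]
      congr 1
      ring
    have h2 := congrArg lam h1
    rw [hl2, map_sum, Polynomial.eval_mul, Polynomial.eval_C, Polynomial.eval_comp,
      Polynomial.eval_add, Polynomial.eval_X, Polynomial.eval_C] at h2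
    rw [smul_eq_mul, mul_comm, h2]
    refine Finset.sum_congr rfl fun i _ => ?_
    rw [map_sum, coeff_smul, smul_eq_mul, hρ, Polynomial.eval_finsetSum, Finset.sum_mul]
    refine Finset.sum_congr rfl fun j _ => ?_
    rw [map_smul, smul_eq_mul, Polynomial.eval_mul, Polynomial.eval_C, Polynomial.eval_pow,
      Polynomial.eval_X]
    ring
  refine hA g hg0 _ ?_
  have h5 : (fun l : ℕ => (b'.comp (Polynomial.X + Polynomial.C α)).eval (l : ℂ) • g ^ l) =
      ∑ i, fun l : ℕ => ((ρ i).eval (l : ℂ) * (l.factorial : ℂ)) •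
        (B i).1 (pz g (l + 1 + δ i)) := by
    funext l
    have h6 := congrArg (fun G => (l.factorial : ℂ) • G) (hmain l)
    beta_reduce at h6
    rw [pz_nat, Finset.smul_sum, smul_smul, smul_smul] at h6
    rw [Finset.sum_apply, Polynomial.eval_comp, Polynomial.eval_add, Polynomial.eval_X,
      Polynomial.eval_C]
    have h7 : (l.factorial : ℂ) ≠ 0 := by exact_mod_cast l.factorial_ne_zero
    have h8 : (l.factorial : ℂ) * (b'.eval (α + l) * ((l.factorial : ℂ))⁻¹) =
        b'.eval ((l : ℂ) + α) := by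
      rw [add_comm (l : ℂ) α]
      field_simp
    rw [mul_assoc, h8] at h6
    rw [h6]
    refine Finset.sum_congr rfl fun i _ => ?_
    rw [smul_smul, mul_comm]
  rw [h5]
  refine (W g).sum_mem fun i _ => ?_
  by_cases hi : δ i < 0
  · rw [hρ0 i hi]
    refine (congrArg (· ∈ W g) (funext fun l => ?_)).mp (W g).zero_mem
    rw [Polynomial.eval_zero, zero_mul, zero_smul]
    rfl
  · obtain ⟨e, he⟩ : ∃ e : ℕ, 1 + δ i = (e : ℤ) := ⟨(1 + δ i).toNat, by omega⟩
    refine (congrArg (· ∈ W g) (funext fun l => ?_)).mp (W_poly g e (by omega) (B i) (ρ i))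
    have h9 : (l : ℤ) + 1 + δ i = ((l + e : ℕ) : ℤ) := by omega
    rw [h9, pz_nat, map_smul, smul_smul]
    congr 1
    unfold kf
    ring

/-- **The functional equations of `g ^ k`, `k ≥ 2`.** -/
theorem isB_pow_strong' (g : MvPolynomial σ ℂ) (hg : g ≠ 0) (hc : ¬ g ∣ 1) (k : ℕ)
    (hk : 2 ≤ k) (b : Polynomial ℂ) (hb : IsBFunction (g ^ k) b) :
    ∃ b' : Polynomial ℂ, b = (Polynomial.X + 1) * b' ∧
      IsBFunction g (b'.comp (Polynomial.C ((k : ℂ)⁻¹) * Polynomial.X)) := by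
  classical
  have hkC : (k : ℂ) ≠ 0 := by exact_mod_cast (by omega : k ≠ 0)
  set F := g ^ k with hF
  have hF0 : F ≠ 0 := pow_ne_zero _ hg
  have hFd : ¬ F ∣ 1 := fun h => hc ((dvd_pow_self g (by omega)).trans h)
  obtain ⟨P, hP⟩ := hb
  have hm1 : b.eval (-1) = 0 := by
    refine minus_one F 1 hF0 hFd b P fun s => ?_
    rw [one_mul]
    exact hP s
  obtain ⟨b', hb'⟩ : (Polynomial.X + 1 : Polynomial ℂ) ∣ b := by
    have := Polynomial.dvd_iff_isRoot.2 hm1
    rwa [Polynomial.C_neg, sub_neg_eq_add, Polynomial.C_1] at this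
  refine ⟨b', hb', ?_⟩
  have hP1 : ∀ n : ℕ, (((n : ℂ) + 1) * b'.eval (n : ℂ)) • F ^ n = P.sum fun m Q =>
      ((n : ℂ) ^ m) • (Q : Module.End ℂ (MvPolynomial σ ℂ)) (F ^ (n + 1)) := by
    intro n
    rw [← hP n, hb', Polynomial.eval_mul, Polynomial.eval_add, Polynomial.eval_X,
      Polynomial.eval_one, C_mul']
  have h0 := at_minus F hF0 P b' hP1
  -- the operator of order at least one
  set R : Module.End ℂ (MvPolynomial σ ℂ) :=
    ∑ m ∈ P.support, ((-1 : ℂ) ^ m) • (P m : Module.End ℂ (MvPolynomial σ ℂ)) with hR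
  have hRw : R ∈ weyl σ := Subalgebra.sum_mem _ fun m _ => Subalgebra.smul_mem _ (P m).2 _
  have hR1 : R 1 = 0 := by
    rw [hR, LinearMap.sum_apply]
    exact h0
  obtain ⟨A, hA, hA1⟩ := comm_pow g R hRw
  choose q hq using pow_sub_neg_one
  -- the sequence
  set v : ℕ → MvPolynomial σ ℂ := (k : ℂ) • (fun s : ℕ => (A * ML (g ^ (k - 2))) (g ^ (s + 1))) +
    ∑ m ∈ P.support, fun s : ℕ => ((q m).comp (Polynomial.C ((k : ℂ)⁻¹) * Polynomial.X)).eval
      (s : ℂ) • ((P m : Module.End ℂ (MvPolynomial σ ℂ)) * ML (g ^ (k - 1))) (g ^ (s + 1)) with hv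
  have hvS : v ∈ Sq g := by
    refine (Sq g).add_mem ((Sq g).smul_mem _ ?_) ((Sq g).sum_mem fun m _ => ?_)
    · exact Sq_mem0 g ⟨A * ML (g ^ (k - 2)), Subalgebra.mul_mem _ hA (ml_mem _)⟩
    · exact Sq_poly _ (Sq_mem0 g ⟨(P m : Module.End ℂ (MvPolynomial σ ℂ)) * ML (g ^ (k - 1)),
        Subalgebra.mul_mem _ (P m).2 (ml_mem _)⟩)
  refine ext_k g hg k (by omega) _ v hvS fun n => ?_
  have hev : ∀ r : Polynomial ℂ, (r.comp (Polynomial.C ((k : ℂ)⁻¹) * Polynomial.X)).eval
      ((k * n : ℕ) : ℂ) = r.eval (n : ℂ) := by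
    intro r
    rw [Polynomial.eval_comp, Polynomial.eval_mul, Polynomial.eval_C, Polynomial.eval_X]
    congr 1
    push_cast
    rw [inv_mul_cancel_left₀ hkC]
  rw [hev]
  have hn1 : ((n : ℂ) + 1) ≠ 0 := by exact_mod_cast Nat.succ_ne_zero n
  have h2 := hP1 n
  rw [Finsupp.sum] at h2
  have h3 : ∀ m ∈ P.support, ((n : ℂ) ^ m) • (P m : Module.End ℂ (MvPolynomial σ ℂ))
      (F ^ (n + 1)) = ((-1 : ℂ) ^ m) • (P m : Module.End ℂ (MvPolynomial σ ℂ)) (F ^ (n + 1)) +
        (((n : ℂ) + 1) * (q m).eval (n : ℂ)) • (P m : Module.End ℂ (MvPolynomial σ ℂ))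
          (F ^ (n + 1)) := by
    intro m _
    rw [← add_smul]
    congr 1
    have h4 := congrArg (fun r : Polynomial ℂ => r.eval (n : ℂ)) (hq m)
    simp only [Polynomial.eval_pow, Polynomial.eval_X, Polynomial.eval_add, Polynomial.eval_mul,
      Polynomial.eval_C, Polynomial.eval_one] at h4
    exact h4
  rw [Finset.sum_congr rfl h3, Finset.sum_add_distrib] at h2
  have h4 : ∑ m ∈ P.support, ((-1 : ℂ) ^ m) • (P m : Module.End ℂ (MvPolynomial σ ℂ))
      (F ^ (n + 1)) = R (F ^ (n + 1)) := by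
    rw [hR, LinearMap.sum_apply]
    rfl
  have h5 : F ^ (n + 1) = g ^ ((k * n + (k - 1)) + 1) := by
    rw [hF, ← pow_mul]
    congr 1
    have : k - 1 + 1 = k := by omega
    rw [mul_add, mul_one]
    omega
  have h6 : R (F ^ (n + 1)) = ((n : ℂ) + 1) • ((k : ℂ) • A (g ^ (k * n + (k - 1)))) := by
    rw [h5, hA1, hR1, zero_mul, zero_add, smul_smul]
    congr 1
    have : ((k * n + (k - 1) : ℕ) : ℂ) + 1 = ((k * n + k : ℕ) : ℂ) := by
      rw [← Nat.cast_succ]
      congr 1
      omega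
    rw [this]
    push_cast
    ring
  rw [h4, h6] at h2
  have h7 : ∑ m ∈ P.support, (((n : ℂ) + 1) * (q m).eval (n : ℂ)) •
      (P m : Module.End ℂ (MvPolynomial σ ℂ)) (F ^ (n + 1)) =
      ((n : ℂ) + 1) • ∑ m ∈ P.support, (q m).eval (n : ℂ) •
        (P m : Module.End ℂ (MvPolynomial σ ℂ)) (F ^ (n + 1)) := by
    rw [Finset.smul_sum]
    exact Finset.sum_congr rfl fun m _ => by rw [smul_smul]
  rw [h7, ← smul_add, mul_smul] at h2
  have h8 := smul_right_injective (MvPolynomial σ ℂ) hn1 h2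
  have h9 : g ^ (k * n) = F ^ n := by rw [hF, ← pow_mul]
  rw [h9]
  beta_reduce at h8
  rw [h8, hv, Pi.add_apply, Pi.smul_apply, Finset.sum_apply]
  congr 1
  · congr 1
    change A (g ^ (k * n + (k - 1))) = A (g ^ (k - 2) * g ^ (k * n + 1))
    congr 1
    rw [← pow_add]
    congr 1
    omega
  · refine Finset.sum_congr rfl fun m _ => ?_
    rw [hev]
    congr 1
    change (P m : Module.End ℂ (MvPolynomial σ ℂ)) (F ^ (n + 1)) =
      (P m : Module.End ℂ (MvPolynomial σ ℂ)) (g ^ (k - 1) * g ^ (k * n + 1))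
    congr 1
    rw [h5, ← pow_add]
    congr 1
    omega

end Pool.Agent.T6.H26.PX
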