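import Pool.Agent.T6.H26.PXR
import Pool.Agent.T6.H26.PXS

set_option autoImplicit false
set_option linter.unusedSectionVars false
set_option linter.unusedVariables false

/-! # Roots of the functional equations and averaged exponential sums: closure properties -/

namespace Pool.Agent.T6.H26.PX

open MvPolynomial
open Pool.Agent.Y230.PT Pool.Agent.Y230.PS Pool.Agent.Y230.TH Pool.Agent.R852.PP
open Pool.Agent.W574.SM (weyl IsFunctionalEq)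
open Pool.Agent.W574.RO Pool.Agent.W574.CN
open Pool.Agent.W574.HS (minus_one)
open Pool.Agent.H628R4.TP (IsBFunction weylS)

attribute [local instance] Pool.Agent.W427.SMC.msZ Pool.Agent.W427.SMC.bsZ nz

/-- not constant -/
def NC {σ : Type} (g : MvPolynomial σ ℚ) : Prop := g ≠ 0 ∧ ¬ IsUnit g

section NC

variable {σ τ : Type}

theorem NC.of_WH {g : MvPolynomial σ ℚ} (h : WH g) : NC g := by
  refine ⟨h.1, fun h1 => ?_⟩
  obtain ⟨e, he, hfe⟩ := exists_co g h.1 h.const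
  exact hfe ((isUnit_iff.1 h1).2 e he).eq_zero

theorem NC.add {g₁ : MvPolynomial σ ℚ} (h1 : WH g₁) (g₂ : MvPolynomial τ ℚ) :
    NC (rename Sum.inl g₁ + rename Sum.inr g₂ : MvPolynomial (σ ⊕ τ) ℚ) := by
  obtain ⟨e, he, hfe⟩ := exists_co g₁ h1.1 h1.const
  exact ⟨sum_ne g₁ g₂ e he hfe, nu_sum g₁ g₂ e he hfe⟩

theorem NC.mul {g₁ : MvPolynomial σ ℚ} {g₂ : MvPolynomial τ ℚ} (h1 : NC g₁) (h2 : NC g₂) :
    NC (rename Sum.inl g₁ * rename Sum.inr g₂ : MvPolynomial (σ ⊕ τ) ℚ) := by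
  refine ⟨mul_ne_zero (fun h0 => h1.1 ?_) (fun h0 => h2.1 ?_), nu_mul g₁ g₂ h1.2⟩
  · exact rename_injective _ Sum.inl_injective (by rw [h0, map_zero])
  · exact rename_injective _ Sum.inr_injective (by rw [h0, map_zero])

theorem NC.pow {g : MvPolynomial σ ℚ} (h : NC g) (k : ℕ) (hk : k ≠ 0) : NC (g ^ k) :=
  ⟨pow_ne_zero k h.1, fun h1 => h.2 ((isUnit_pow_iff hk).1 h1)⟩

theorem NC.smul {g : MvPolynomial σ ℚ} (h : NC g) (c : ℚ) (hc : c ≠ 0) : NC (C c * g) :=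
  ⟨mul_ne_zero (by rwa [Ne, C_eq_zero]) h.1, fun h1 => h.2 (isUnit_of_mul_isUnit_right h1)⟩

theorem NC.equiv {g : MvPolynomial σ ℚ} (h : NC g) (i : σ ≃ τ) : NC (rename i g) :=
  ⟨fun h1 => h.1 (rename_injective _ i.injective (by rw [h1, map_zero])), nu_equiv g i h.2⟩

theorem NC.nd {g : MvPolynomial σ ℚ} (h : NC g) : ¬ map (algebraMap ℚ ℂ) g ∣ 1 := fun h1 =>
  h.2 (nu_map _ g (isUnit_iff_dvd_one.2 h1))

end NC

section FK

variable {σ τ : Type} [Fintype σ] [Fintype τ]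

/-- `-1` is a root -/
theorem FK_m1' {g : MvPolynomial σ ℚ} (h : NC g) : FK ⟨σ, Fin 1, fun _ => g⟩ (-1) 1 := by
  rw [FK_iff]
  intro b hb
  obtain ⟨P, hP⟩ := hb
  rw [pow_one, Polynomial.dvd_iff_isRoot]
  refine minus_one (map (algebraMap ℚ ℂ) g) 1 (map_ne h.1) h.nd b P fun s => ?_
  rw [one_mul]
  exact hP s

theorem FK_dl' {g : MvPolynomial σ ℚ} (h : NC g) (r : ℂ) : FK ⟨σ, Fin 1, fun _ => g⟩ r (dl r) := by
  by_cases hr : r = -1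
  · rw [hr, dl_m1]
    exact FK_m1' h
  · rw [dl_ne hr]
    exact FK_zero _ _

/-- **Sums.** -/
theorem FK_addE' {g₁ : MvPolynomial σ ℚ} {g₂ : MvPolynomial τ ℚ} (h1 : WH g₁) (h2 : g₂ ≠ 0)
    (α β : ℂ) (hα : FK ⟨σ, Fin 1, fun _ => g₁⟩ α (1 + dl α))
    (hβ : FK ⟨τ, Fin 1, fun _ => g₂⟩ β (1 + dl β)) :
    FK ⟨σ ⊕ τ, Fin 1, fun _ => rename Sum.inl g₁ + rename Sum.inr g₂⟩ (α + β)
      (1 + dl (α + β)) := by
  obtain ⟨h01, w, d, hd, hw⟩ := h1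
  rw [FK_iff] at hα hβ ⊢
  intro b hb
  rw [map_add, map_rename, map_rename] at hb
  obtain ⟨b', e, h3⟩ := fe_sum' Pool.Agent.Y21.TH.tA w d hd (map (algebraMap ℚ ℂ) g₁)
    (map (algebraMap ℚ ℂ) g₂) (wh_map _ w g₁ d hw) (map_ne h01) (map_ne h2) b hb
  have h4 := h3 α fun q hq => root_red α q (hα _ (Pool.Agent.Y21.TH.tA _ (map_ne h01) q hq))
  have h5 := root_red β _ (hβ _ h4)
  rw [Polynomial.eval_comp, Polynomial.eval_add, Polynomial.eval_X, Polynomial.eval_C,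
    add_comm β α] at h5
  rw [e]
  refine dvd_dl (α + β) 1 b' ?_
  rw [pow_one, Polynomial.dvd_iff_isRoot]
  exact h5

/-- **Powers.** -/
theorem FK_powE' {g : MvPolynomial σ ℚ} (hg : NC g) (k : ℕ) (hk : 2 ≤ k) (r : ℂ)
    (h : FK ⟨σ, Fin 1, fun _ => g⟩ ((k : ℂ) * r) 1) :
    FK ⟨σ, Fin 1, fun _ => g ^ k⟩ r (1 + dl r) := by
  have hkC : (k : ℂ) ≠ 0 := by exact_mod_cast (by omega : k ≠ 0)
  by_cases hr : r = -1
  · rw [FK_iff] at h ⊢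
    intro b hb
    rw [map_pow] at hb
    obtain ⟨b', e, h1⟩ := isB_pow_strong' _ (map_ne hg.1) hg.nd k hk b hb
    have h2 := dvd_of_comp b' (k : ℂ) hkC r 1 (h _ h1)
    rw [e]
    exact dvd_dl r 1 b' h2
  · rw [dl_ne hr]
    exact FK_pow g hg.1 k (by omega) r 1 h

end FK

variable {p : ℕ} [Fact p.Prime]

section mlt

variable {σ τ : Type} [Fintype σ] [Fintype τ]

theorem H_add' {g₁ : MvPolynomial σ ℚ} {g₂ : MvPolynomial τ ℚ} (h1 : WH g₁) (h2 : g₂ ≠ 0)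
    (T1 T2 : ℂ) (hT1 : 1 < ‖T1‖) (hT2 : 1 < ‖T2‖) (a b : ℕ) (ha : 1 ≤ a) (hb : 1 ≤ b)
    (h3 : (a : ℕ∞) ≤ mE p g₁ T1) (h4 : (b : ℕ∞) ≤ mE p g₂ T2) :
    ((a + b - 1 : ℕ) : ℕ∞) ≤
      mE p (rename Sum.inl g₁ + rename Sum.inr g₂ : MvPolynomial (σ ⊕ τ) ℚ) (T1 * T2) := by
  rw [mE_top]
  · exact le_top
  · rw [rr_mul T1 T2 hT1 hT2, Complex.ofReal_add]
    exact FK_addE' h1 h2 _ _ (FK_of_mE ha h3) (FK_of_mE hb h4)

theorem H_mul' {g₁ : MvPolynomial σ ℚ} {g₂ : MvPolynomial τ ℚ} (h1 : NC g₁) (h2 : NC g₂)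
    (T : ℂ) (hT : 1 < ‖T‖) : mE p g₁ T + (dp p T : ℕ) + mE p g₂ T ≤
      mE p (rename Sum.inl g₁ * rename Sum.inr g₂ : MvPolynomial (σ ⊕ τ) ℚ) T := by
  have hr : ∀ N : ℕ, (N : ℂ) ≠ ((rr p T : ℝ) : ℂ) := rr_ne T hT
  by_cases c1 : FK ⟨σ, Fin 1, fun _ => g₁⟩ ((rr p T : ℝ) : ℂ) (1 + dl ((rr p T : ℝ) : ℂ))
  · have h3 := FK_mulE h1.1 h2.1 _ hr _ 0 c1 (FK_zero ⟨τ, Fin 1, fun _ => g₂⟩ _)
    rw [add_zero] at h3
    rw [mE_top h3]
    exact le_top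
  · by_cases c2 : FK ⟨τ, Fin 1, fun _ => g₂⟩ ((rr p T : ℝ) : ℂ) (1 + dl ((rr p T : ℝ) : ℂ))
    · have h3 := FK_mulE h1.1 h2.1 _ hr 0 _ (FK_zero ⟨σ, Fin 1, fun _ => g₁⟩ _) c2
      rw [zero_add] at h3
      rw [mE_top h3]
      exact le_top
    · rw [mE_zero c1, mE_zero c2, zero_add, add_zero, dp_eq]
      split_ifs with hTp
      · have h3 : ((rr p T : ℝ) : ℂ) = -1 := by rw [hTp, rr_self]; push_cast; rfl
        rw [mE_top]
        · exact le_top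
        · rw [h3, dl_m1]
          rw [h3] at hr
          exact FK_mulE h1.1 h2.1 _ hr 1 1 (FK_m1' h1) (FK_m1' h2)
      · simp

theorem H_pow' {g : MvPolynomial σ ℚ} (h1 : NC g) (k : ℕ) (hk : 2 ≤ k) (T : ℂ) (hT : 1 < ‖T‖) :
    mE p g (T ^ k) + (dp p (T ^ k) : ℕ) ≤ mE p (g ^ k) T := by
  have hrr := rr_powT (p := p) T k
  by_cases c1 : FK ⟨σ, Fin 1, fun _ => g⟩ ((rr p (T ^ k) : ℝ) : ℂ)
      (1 + dl ((rr p (T ^ k) : ℝ) : ℂ))
  · have h3 : FK ⟨σ, Fin 1, fun _ => g⟩ ((k : ℂ) * ((rr p T : ℝ) : ℂ)) 1 := by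
      rw [← hrr]
      exact c1.mono (by omega)
    rw [mE_top (FK_powE' h1 k hk _ h3)]
    exact le_top
  · rw [mE_zero c1, zero_add, dp_eq]
    split_ifs with hTp
    · have h3 : FK ⟨σ, Fin 1, fun _ => g⟩ ((k : ℂ) * ((rr p T : ℝ) : ℂ)) 1 := by
        rw [← hrr, hTp, rr_self]
        push_cast
        exact FK_m1' h1
      rw [mE_top (FK_powE' h1 k hk _ h3)]
      exact le_top
    · simp

/-- from the exponential sums to the zeta functions -/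
theorem H_fin' {g : MvPolynomial σ ℚ} (h1 : NC g) (T : ℂ) (hT : 1 < ‖T‖) :
    mE p g T + (dp p T : ℕ) ≤ rG p (wR p) ⟨σ, Fin 1, fun _ => g⟩ T := by
  by_cases c1 : FK ⟨σ, Fin 1, fun _ => g⟩ ((rr p T : ℝ) : ℂ) (1 + dl ((rr p T : ℝ) : ℂ))
  · have h2 := le_rG (w := wR p) (k := 1) c1
    unfold wR at h2
    rw [if_neg one_ne_zero] at h2
    refine le_trans ?_ h2
    exact le_top
  · rw [mE_zero c1, zero_add]
    have h2 := le_rG (p := p) (w := wR p) (A := ⟨σ, Fin 1, fun _ => g⟩) (T := T) (k := 0) (by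
      rw [zero_add]
      exact FK_dl' h1 _)
    refine le_trans (le_of_eq ?_) h2
    unfold wR
    rw [if_pos rfl]

end mlt

section MG

variable {σ τ : Type} [Fintype σ] [Fintype τ]

/-- the averaged exponential sums are controlled by the roots -/
def MG (p : ℕ) [Fact p.Prime] (g : MvPolynomial σ ℚ) : Prop :=
  NC g ∧ XG (mE p g) (map (algebraMap ℚ ℚ_[p]) g)

theorem MG.curve (g : MvPolynomial (Fin 2) ℚ) (hg : NC g) : MG p g := ⟨hg, XG_curve g hg.1⟩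

theorem MG.of_E {g : MvPolynomial σ ℚ} (h1 : WH g)
    (h2 : XE (mE p g) (map (algebraMap ℚ ℚ_[p]) g)) : MG p g := ⟨NC.of_WH h1, XG.of_XE h2⟩

theorem MG.wh {g : MvPolynomial σ ℚ} (h : MG p g) (hw : WH g) :
    XE (mE p g) (map (algebraMap ℚ ℚ_[p]) g) := by
  obtain ⟨-, w, d, hd, hw1⟩ := hw
  exact XE_of_wh h.2 w d hd (wh_map _ w g d hw1)

theorem MG.add {g₁ : MvPolynomial σ ℚ} {g₂ : MvPolynomial τ ℚ} (h1 : MG p g₁) (hw : WH g₁)
    (h2 : MG p g₂) :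
    MG p (rename Sum.inl g₁ + rename Sum.inr g₂ : MvPolynomial (σ ⊕ τ) ℚ) := by
  refine ⟨NC.add hw g₂, ?_⟩
  rw [map_add, map_rename, map_rename]
  exact XG.add (h1.wh hw) h2.2 (H_add' hw h2.1.1)

theorem MG.mul {g₁ : MvPolynomial σ ℚ} {g₂ : MvPolynomial τ ℚ} (h1 : MG p g₁) (h2 : MG p g₂) :
    MG p (rename Sum.inl g₁ * rename Sum.inr g₂ : MvPolynomial (σ ⊕ τ) ℚ) := by
  refine ⟨h1.1.mul h2.1, ?_⟩
  rw [map_mul, map_rename, map_rename]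
  exact XG.mul h1.2 h2.2 (H_mul' h1.1 h2.1)

theorem MG.pow {g : MvPolynomial σ ℚ} (h : MG p g) (k : ℕ) (hk : k ≠ 0) : MG p (g ^ k) := by
  by_cases hk1 : k = 1
  · subst hk1
    have e : g ^ 1 = g := pow_one g
    rw [e]
    exact h
  · refine ⟨h.1.pow k hk, ?_⟩
    rw [map_pow]
    exact XG.pow h.2 k (by omega) (H_pow' h.1 k (by omega))

theorem MG.smul {g : MvPolynomial σ ℚ} (h : MG p g) (c : ℚ) (hc : c ≠ 0) : MG p (C c * g) := by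
  refine ⟨h.1.smul c hc, ?_⟩
  rw [map_mul, map_C]
  refine (XG.smul h.2 _ ?_).mono fun T _ => H_smul g c hc T
  rw [Ne, map_eq_zero_iff _ (algebraMap ℚ ℚ_[p]).injective]
  exact hc

theorem MG.equiv {g : MvPolynomial σ ℚ} (h : MG p g) (i : σ ≃ τ) : MG p (rename i g) := by
  refine ⟨h.1.equiv i, ?_⟩
  rw [map_rename]
  exact (h.2.equiv i).mono fun T _ => H_equiv g i T

end MG

end Pool.Agent.T6.H26.PX
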