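import Pool.Agent.T6.H26.PXT
import Pool.Agent.Y230.PT.Final

set_option autoImplicit false
set_option linter.unusedSectionVars false
set_option linter.unusedVariables false

/-! # More variables, and the zeta functions with characters -/

namespace Pool.Agent.T6.H26.PX

open MeasureTheory MvPolynomial
open Pool.Agent.W427.SMC
open Pool.Agent.Y230.PT Pool.Agent.Y230.PS Pool.Agent.Y230.TH Pool.Agent.R852.PP
open Pool.Agent.W574.RO Pool.Agent.W574.CN
open Pool.Agent.H628R4.TP (IsBFunction weylS)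
open scoped ENNReal

attribute [local instance] msZ bsZ nz

variable {p : ℕ} [Fact p.Prime]

section ext

variable {σ τ : Type} [Fintype σ] [Fintype τ]

theorem Et_fst {Ω₁ Ω₂ : Type} [MeasurableSpace Ω₁] [MeasurableSpace Ω₂] (μ₁ : Measure Ω₁)
    (μ₂ : Measure Ω₂) [IsProbabilityMeasure μ₁] [IsProbabilityMeasure μ₂]
    (f : Ω₁ → ℂ) (hf : Measurable f) (hb : ∀ x, ‖f x‖ ≤ 1) :
    ∫ q, f q.1 ∂(μ₁.prod μ₂) = ∫ x, f x ∂μ₁ := by
  rw [integral_prod (fun q : Ω₁ × Ω₂ => f q.1)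
    (bdd_int (μ₁.prod μ₂) (fun q : Ω₁ × Ω₂ => f q.1) (hf.comp measurable_fst) 1 fun q => hb q.1)]
  refine integral_congr_ae (Filter.Eventually.of_forall fun x => ?_)
  change ∫ y : Ω₂, f x ∂μ₂ = f x
  rw [integral_const]
  simp

theorem XG.ext {M : ℂ → ℕ∞} {g : MvPolynomial σ ℚ_[p]} (h : XG M g) :
    XG M (rename Sum.inl g : MvPolynomial (σ ⊕ τ) ℚ_[p]) := by
  obtain ⟨K, G, hr, h1⟩ := h
  have hG := hr.cont.measurable
  refine ⟨K, fun z => G (fun i => z (Sum.inl i)), fun z => ?_, fun c hc => (h1 c hc).congr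
    fun u _ m => ?_⟩
  · rw [hr, eval_rename]
    rfl
  · rw [Eb_sumpi (fun q : (σ → ℤ_[p]) × (τ → ℤ_[p]) => G q.1) c u m]
    unfold Eb
    refine integral_congr_ae (Filter.Eventually.of_forall fun y => ?_)
    beta_reduce
    unfold Et
    exact (Et_fst _ _ (fun x => ch p m (u * uo c y * G x))
      ((ch_meas p m).comp (hG.const_mul _)) fun x => (norm_ch p m _).le).symm

theorem H_ext {g : MvPolynomial σ ℚ} (hg : g ≠ 0) (T : ℂ) (hT : 1 < ‖T‖) :
    mE p g T ≤ mE p (rename Sum.inl g : MvPolynomial (σ ⊕ τ) ℚ) T := by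
  by_cases c1 : FK ⟨σ, Fin 1, fun _ => g⟩ ((rr p T : ℝ) : ℂ) (1 + dl ((rr p T : ℝ) : ℂ))
  · have h3 := FK_mulE hg (one_ne_zero : (1 : MvPolynomial τ ℚ) ≠ 0) _ (rr_ne T hT) _ 0 c1
      (FK_zero _ _)
    rw [map_one, mul_one, add_zero] at h3
    rw [mE_top h3]
    exact le_top
  · rw [mE_zero c1]
    exact bot_le

theorem MG.ext {g : MvPolynomial σ ℚ} (h : MG p g) :
    MG p (rename Sum.inl g : MvPolynomial (σ ⊕ τ) ℚ) := by
  refine ⟨⟨fun h0 => h.1.1 (rename_injective _ Sum.inl_injective (by rw [h0, map_zero])), ?_⟩, ?_⟩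
  · have h1 := nu_mul g (1 : MvPolynomial τ ℚ) h.1.2
    rwa [map_one, mul_one] at h1
  · rw [map_rename]
    exact h.2.ext.mono fun T hT => H_ext h.1.1 T hT

end ext

section tw

variable {c : ℕ} (θ : DirichletCharacter ℂ (p ^ c))

/-- the decomposition of the character -/
theorem tw_pt (hc : 1 ≤ c) (z : ℤ_[p]) (N : ℕ) :
    (if ‖z‖ = ((p : ℝ)⁻¹) ^ N then chD θ (inc p z) else 0) = ∑ w : ZMod (p ^ c), θ w *
      (if ‖z - (p : ℤ_[p]) ^ N * (w.val : ℤ_[p])‖ ≤ ((p : ℝ)⁻¹) ^ (N + c) then 1 else 0) := by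
  have hnu : ∀ w : ZMod (p ^ c), ¬ ‖(w.val : ℤ_[p])‖ = 1 → θ w = 0 := by
    intro w hw
    have h1 : ‖(w.val : ℤ_[p])‖ < 1 := lt_of_le_of_ne (PadicInt.norm_le_one _) hw
    have h2 := not_unit_of_lt hc h1
    rw [map_natCast, ZMod.natCast_zmod_val] at h2
    exact θ.map_nonunit h2
  by_cases hz : ‖z‖ = ((p : ℝ)⁻¹) ^ N
  · rw [if_pos hz]
    obtain ⟨z', hz'⟩ := (le_iff_dvd p N z).1 hz.le
    have hz1 : ‖z'‖ = 1 := by
      have h1 := congrArg norm hz'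
      rw [norm_mul, norm_p_pow, hz] at h1
      have h2 : ((p : ℝ)⁻¹) ^ N ≠ 0 := (pow_pos (pinv_pos p) N).ne'
      exact mul_left_cancel₀ h2 (by rw [mul_one]; exact h1.symm)
    rw [hz', chD_val θ hz1, Finset.sum_eq_single (PadicInt.toZModPow c z')]
    · rw [if_pos (close_mul.2 ((res_eq c z' _).2 rfl)), mul_one]
      rfl
    · intro w _ hw
      rw [if_neg, mul_zero]
      intro h
      exact hw ((res_eq c z' w).1 (close_mul.1 h)).symm
    · intro h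
      exact absurd (Finset.mem_univ _) h
  · rw [if_neg hz, Finset.sum_eq_zero]
    intro w _
    by_cases hw : ‖(w.val : ℤ_[p])‖ = 1
    · rw [if_neg, mul_zero]
      intro h
      exact hz (norm_of_close hc hw h)
    · rw [hnu w hw, zero_mul]

variable {Ω : Type} [MeasurableSpace Ω] (μ : Measure Ω) [IsProbabilityMeasure μ] (G : Ω → ℤ_[p])

theorem Sx_Ab (hG : Measurable G) (hc : 1 ≤ c) (N : ℕ) :
    Sx μ G (chD θ) N = ∑ w : ZMod (p ^ c), θ w * Ab μ G c (w.val : ℤ_[p]) N := by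
  unfold Sx
  simp only [tw_pt θ hc]
  have hset : ∀ w : ZMod (p ^ c), MeasurableSet
      {x | ‖G x - (p : ℤ_[p]) ^ N * (w.val : ℤ_[p])‖ ≤ ((p : ℝ)⁻¹) ^ (N + c)} := fun w =>
    measurableSet_le (hG.sub_const _).norm measurable_const
  have hm : ∀ w : ZMod (p ^ c), Measurable (fun x => (if ‖G x - (p : ℤ_[p]) ^ N *
      (w.val : ℤ_[p])‖ ≤ ((p : ℝ)⁻¹) ^ (N + c) then (1 : ℂ) else 0)) := fun w =>
    Measurable.ite (hset w) measurable_const measurable_const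
  rw [integral_finsetSum _ fun w _ => ((bdd_int μ _ (hm w) 1 fun x => by
    split_ifs <;> simp).const_mul (θ w))]
  refine Finset.sum_congr rfl fun w _ => ?_
  rw [integral_const_mul]
  congr 1
  unfold Ab
  have e : (fun x => (if ‖G x - (p : ℤ_[p]) ^ N * (w.val : ℤ_[p])‖ ≤ ((p : ℝ)⁻¹) ^ (N + c) then
      (1 : ℂ) else 0)) = Set.indicator {x | ‖G x - (p : ℤ_[p]) ^ N * (w.val : ℤ_[p])‖ ≤
        ((p : ℝ)⁻¹) ^ (N + c)} (fun _ => (1 : ℂ)) := by
    funext x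
    by_cases hx : ‖G x - (p : ℤ_[p]) ^ N * (w.val : ℤ_[p])‖ ≤ ((p : ℝ)⁻¹) ^ (N + c)
    · rw [if_pos hx, Set.indicator_of_mem (by exact hx)]
    · rw [if_neg hx, Set.indicator_of_notMem (by exact hx)]
  rw [e, integral_indicator (hset w), setIntegral_const, Complex.real_smul, mul_one]
  rfl

theorem chD_uo (hc : 1 ≤ c) (y : ℤ_[p]) : chD θ (inc p (uo c y)) = 1 := by
  have h := chD_val θ (N := 0) (uo_norm hc y)
  rw [pow_zero, one_mul] at h
  rw [h, cv_congr θ (v := 1) (uo_near c y), cv_one]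

theorem Sx_hatt (hG : Measurable G) (hc : 1 ≤ c) (N : ℕ) :
    Sx (μ.prod (mu p)) (hat G c) (chD θ) N = Sx μ G (chD θ) N := by
  have hχ := isCh_chD θ hc
  unfold Sx
  have h1 : ∀ q : Ω × ℤ_[p], (if ‖hat G c q‖ = ((p : ℝ)⁻¹) ^ N then chD θ (inc p (hat G c q))
      else 0) = (if ‖G q.1‖ = ((p : ℝ)⁻¹) ^ N then chD θ (inc p (G q.1)) else 0) := by
    intro q
    unfold hat
    rw [norm_mul, uo_norm hc, mul_one, inc_mul', hχ.mul, chD_uo θ hc, mul_one]
  simp only [h1]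
  exact Et_fst μ (mu p) (fun x => if ‖G x‖ = ((p : ℝ)⁻¹) ^ N then chD θ (inc p (G x)) else 0)
    (Measurable.ite (meas_set G hG N) (meas_chi G hχ hG) measurable_const) fun x => by
      split_ifs
      · exact hχ.bdd _
      · simp

/-- from the averaged exponential sums to the values of the characters -/
theorem Sx_good (hG : Measurable G) (hc : 1 ≤ c) {M : ℂ → ℕ∞} (h : GoodE p (tr M) (Eb μ G c)) :
    Sx μ G (chD θ) ∈ EP (tr fun T => M T + (dp p T : ℕ)) := by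
  have h1 : GoodE p (tr M) (Et (μ.prod (mu p)) (hat G c)) :=
    h.congr fun u _ m => (hat_E μ G hG c u m).symm
  have h2 := Ab_tr (μ.prod (mu p)) (hat G c) (hat_meas G hG c) h1 c
  have e : Sx μ G (chD θ) = ∑ w : ZMod (p ^ c), (θ w) •
      Ab (μ.prod (mu p)) (hat G c) c (w.val : ℤ_[p]) := by
    funext N
    rw [← Sx_hatt θ μ G hG hc N, Sx_Ab θ _ _ (hat_meas G hG c) hc, Finset.sum_apply]
    rfl
  rw [e]
  exact Submodule.sum_mem _ fun w _ => Submodule.smul_mem _ _ (h2 _)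

/-- the zeta function as a rational function -/
theorem Zx_rat (hG : Measurable G) (hc : 1 ≤ c) {M : ℂ → ℕ∞} (h : Sx μ G (chD θ) ∈ EP M) :
    ∃ D P : Polynomial ℂ, D ≠ 0 ∧ (∀ s : ℝ, 0 < s → D.eval ((tr' p s : ℝ) : ℂ) *
      Zx μ G (chD θ) s = P.eval ((tr' p s : ℝ) : ℂ)) ∧
      ∀ T, T ≠ 0 → (D.rootMultiplicity T : ℕ∞) ≤ M T := by
  have hχ := isCh_chD θ hc
  obtain ⟨D, P, hD, h1, h2⟩ := EP_rat _ _ h
  refine ⟨D, P, hD, fun s hs => ?_, h2⟩
  have h3 := (Sx_conv μ G hχ hG).poly_mul D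
  rw [h1] at h3
  have h4 := Conv.poly P
  have h5 := (h3 _ (tr'_pos p s) (tr'_lt p s hs)).2.unique
    (h4 _ (tr'_pos p s) (tr'_lt p s hs)).2
  beta_reduce at h5
  rw [← h5, (Zx_sum μ G hχ hG s hs).tsum_eq]

end tw

end Pool.Agent.T6.H26.PX
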