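import Pool.Agent.T6.H26.FTDefs
import Pool.Agent.T6.H26.FTAlg
import Pool.Agent.T6.H26.PXM

set_option autoImplicit false
set_option linter.unusedSectionVars false
set_option linter.unusedVariables false

/-! # Suspensions of plane curves: the definitions -/

namespace Pool.Agent.T6.H26.PX

open MvPolynomial MeasureTheory Pool.Agent.Y230.PS Pool.Agent.Y230.TH Pool.Agent.R852.PP
open Pool.Agent.T6.H26

/-- The three kinds of families of polynomials: ideals, hypersurfaces, and hypersurfaces for which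
the zeta functions with characters and the averaged exponential sums are controlled. -/
inductive Ks
  /-- ideals, given by generators -/
  | idl
  /-- hypersurfaces, that is, principal ideals -/
  | hyp
  /-- hypersurfaces with controlled averaged exponential sums -/
  | gen

/-- Three classes of families of polynomials with rational coefficients: `RS Ks.idl A` for ideals,
`RS Ks.hyp A` for hypersurfaces, and the class `RS Ks.gen A` of hypersurfaces which contains **all
plane curves** and is also closed under the sums `g₁(x) + g₂(z)` in disjoint sets of variables where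
`g₁` is weighted homogeneous. They are the smallest classes with the following properties. (`WH g₁`
means that `g₁ ≠ 0` is weighted homogeneous of positive degree for some integral weights.) -/
inductive RS : Ks → FamQ → Prop
  /-- the ideals of the starting class `PTS` (monomial ideals, ideals of `ℚ[x, y]`, ...) -/
  | ptsI (A : FamQ) (h : PTS false false A) : RS Ks.idl A
  /-- the hypersurfaces of the starting class `PTS` -/
  | ptsH (A : FamQ) (h : PTS false true A) : RS Ks.hyp A
  /-- a hypersurface is a principal ideal -/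
  | ofHyp (A : FamQ) (h : RS Ks.hyp A) : RS Ks.idl A
  /-- the third class is contained in the second one -/
  | ofGen (A : FamQ) (h : RS Ks.gen A) : RS Ks.hyp A
  /-- the powers of a hypersurface are principal ideals -/
  | pow (σ : Type) [Fintype σ] (g : MvPolynomial σ ℚ) (k : ℕ) (hk : k ≠ 0)
      (h : RS Ks.hyp ⟨σ, Fin 1, fun _ => g⟩) : RS Ks.idl ⟨σ, Fin 1, fun _ => g ^ k⟩
  /-- the sum of two ideals in disjoint sets of variables -/
  | sum (A A' : FamQ) (hA : RS Ks.idl A) (hA' : RS Ks.idl A') : RS Ks.idl (A.sum A')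
  /-- the product of two ideals in disjoint sets of variables -/
  | mulI (A A' : FamQ) (hA : RS Ks.idl A) (hA' : RS Ks.idl A') : RS Ks.idl (A.mul A')
  /-- the product of two polynomials in disjoint sets of variables -/
  | mulH (A A' : FamQ) (hA : RS Ks.hyp A) (hA' : RS Ks.hyp A') : RS Ks.hyp (A.mul A')
  /-- the polynomial `∑ y_j f_j(x)` -/
  | univ (A : FamQ) (hA : RS Ks.idl A) : RS Ks.hyp A.univ
  /-- the products of powers `h(x) ∏_t (∑_j y_{t, j} f_{t, j}(x)) ^ a_t`, if the ideal
  `h ∏_t (f_{t, j})_j ^ a_t` is in the class -/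
  | form (σ : Type) [Fintype σ] (m : ℕ) (r a : Fin m → ℕ) (hm : 0 < m) (ha : ∀ t, 0 < a t)
      (h : MvPolynomial σ ℚ)
      (f : (t : Fin m) → Fin (r t) → MvPolynomial σ ℚ)
      (hA : RS Ks.idl (genQ a h f)) : RS Ks.hyp (formQ a h f)
  /-- the Thom-Sebastiani sum `∑ y_j f_j(x) + g(z)`, `g` a hypersurface in the second class -/
  | ts (A : FamQ) (τ : Type) [Fintype τ] (g : MvPolynomial τ ℚ) (hA : RS Ks.idl A)
      (hg : RS Ks.hyp ⟨τ, Fin 1, fun _ => g⟩) : RS Ks.hyp (tsum A τ g)
  /-- variables which do not occur may be dropped -/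
  | drop (σ κ : Type) [Fintype σ] [Fintype κ] (g : MvPolynomial σ ℚ)
      (h : RS Ks.hyp ⟨σ ⊕ κ, Fin 1, fun _ => rename Sum.inl g⟩) :
      RS Ks.hyp ⟨σ, Fin 1, fun _ => g⟩
  /-- third class: **all** nonconstant polynomials in two variables -/
  | curve (g : MvPolynomial (Fin 2) ℚ) (hg : ∀ c, g ≠ C c) : RS Ks.gen ⟨Fin 2, Fin 1, fun _ => g⟩
  /-- third class: the products of powers `∏_t (∑_j y_{t, j} f_{t, j}(x)) ^ a_t`, if the ideal
  `∏_t (f_{t, j})_j ^ a_t` is in the first class -/
  | formG (σ : Type) [Fintype σ] (m : ℕ) (r a : Fin m → ℕ) (hm : 0 < m) (ha : ∀ t, 0 < a t)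
      (f : (t : Fin m) → Fin (r t) → MvPolynomial σ ℚ)
      (hA : RS Ks.idl (genQ a 1 f)) : RS Ks.gen (formQ a 1 f)
  /-- third class: the weighted homogeneous polynomials with an isolated critical point -/
  | isoG (n : ℕ) (g : MvPolynomial (Fin (n + 1)) ℚ) (w : Fin (n + 1) → ℕ) (d : ℕ)
      (h : IsoCrit g w d) : RS Ks.gen ⟨Fin (n + 1), Fin 1, fun _ => g⟩
  /-- third class: **sums** `g₁(x) + g₂(z)` in disjoint sets of variables, `g₁` weighted
  homogeneous -/
  | addG (σ τ : Type) [Fintype σ] [Fintype τ] (g₁ : MvPolynomial σ ℚ) (g₂ : MvPolynomial τ ℚ)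
      (h₁ : RS Ks.gen ⟨σ, Fin 1, fun _ => g₁⟩) (hw : WH g₁)
      (h₂ : RS Ks.gen ⟨τ, Fin 1, fun _ => g₂⟩) :
      RS Ks.gen ⟨σ ⊕ τ, Fin 1, fun _ => rename Sum.inl g₁ + rename Sum.inr g₂⟩
  /-- third class: products `g₁(x) g₂(z)` in disjoint sets of variables -/
  | mulG (σ τ : Type) [Fintype σ] [Fintype τ] (g₁ : MvPolynomial σ ℚ) (g₂ : MvPolynomial τ ℚ)
      (h₁ : RS Ks.gen ⟨σ, Fin 1, fun _ => g₁⟩) (h₂ : RS Ks.gen ⟨τ, Fin 1, fun _ => g₂⟩) :
      RS Ks.gen ⟨σ ⊕ τ, Fin 1, fun _ => rename Sum.inl g₁ * rename Sum.inr g₂⟩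
  /-- third class: powers -/
  | powG (σ : Type) [Fintype σ] (g : MvPolynomial σ ℚ) (k : ℕ) (hk : k ≠ 0)
      (h : RS Ks.gen ⟨σ, Fin 1, fun _ => g⟩) : RS Ks.gen ⟨σ, Fin 1, fun _ => g ^ k⟩
  /-- third class: constant factors -/
  | smulG (σ : Type) [Fintype σ] (g : MvPolynomial σ ℚ) (c : ℚ) (hc : c ≠ 0)
      (h : RS Ks.gen ⟨σ, Fin 1, fun _ => g⟩) : RS Ks.gen ⟨σ, Fin 1, fun _ => C c * g⟩
  /-- third class: variables may be added -/
  | extG (σ κ : Type) [Fintype σ] [Fintype κ] (g : MvPolynomial σ ℚ)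
      (h : RS Ks.gen ⟨σ, Fin 1, fun _ => g⟩) :
      RS Ks.gen ⟨σ ⊕ κ, Fin 1, fun _ => rename Sum.inl g⟩
  /-- the variables and the generators may be indexed differently -/
  | equiv (c : Ks) (A A' : FamQ) (i : A.σ ≃ A'.σ) (k : A.ι ≃ A'.ι)
      (h : ∀ j, A'.f (k j) = rename i (A.f j)) (hA : RS c A) : RS c A'

/-- The polynomials which are built from the following pieces in disjoint sets of variables with
products, powers (with exponent at least 1), nonzero constant factors, and **the sums `F + G` for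
which `F` is weighted homogeneous** (of positive degree, for some integral weights);
`Susp S F` means that `S` is the set of the variables of such an expression of `F`. -/
inductive Susp {V : Type} [DecidableEq V] : Finset V → MvPolynomial V ℚ → Prop
  /-- a variable -/
  | var (i : V) : Susp {i} (X i)
  /-- **any** nonconstant polynomial in two variables -/
  | curve (g : MvPolynomial (Fin 2) ℚ) (hg : ∀ c, g ≠ C c) (e : Fin 2 ↪ V) :
      Susp (Finset.univ.map e) (rename e g)
  /-- a weighted homogeneous polynomial with an isolated critical point -/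
  | iso (n : ℕ) (g : MvPolynomial (Fin (n + 1)) ℚ) (w : Fin (n + 1) → ℕ) (d : ℕ)
      (h : IsoCrit g w d) (e : Fin (n + 1) ↪ V) : Susp (Finset.univ.map e) (rename e g)
  /-- `∑_j y_j f_j(x₁, x₂)` for a nonzero ideal `(f_j)` of `ℚ[x₁, x₂]` and variables `y_j` -/
  | lin (r : ℕ) (f : Fin r → MvPolynomial (Fin 2) ℚ) (hf : ∃ j, f j ≠ 0)
      (e : Fin r ⊕ Fin 2 ↪ V) : Susp (Finset.univ.map e)
        (rename e (∑ j, X (Sum.inl j) * rename Sum.inr (f j)))
  /-- the sum of two polynomials with disjoint sets of variables, the first one weighted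
  homogeneous -/
  | add (S T : Finset V) (hST : Disjoint S T) (F G : MvPolynomial V ℚ) (hF : Susp S F)
      (hw : WH F) (hG : Susp T G) : Susp (S ∪ T) (F + G)
  /-- the product of two polynomials with disjoint sets of variables -/
  | mul (S T : Finset V) (hST : Disjoint S T) (F G : MvPolynomial V ℚ) (hF : Susp S F)
      (hG : Susp T G) : Susp (S ∪ T) (F * G)
  /-- powers -/
  | pow (S : Finset V) (F : MvPolynomial V ℚ) (k : ℕ) (hk : k ≠ 0) (hF : Susp S F) :
      Susp S (F ^ k)
  /-- constant factors -/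
  | smul (S : Finset V) (F : MvPolynomial V ℚ) (c : ℚ) (hc : c ≠ 0) (hF : Susp S F) :
      Susp S (C c * F)

/-- Igusa's zeta function with a character, `∫_{ℤ_p ^ V} χ(f(x)) |f(x)| ^ s dx`, of a polynomial
with rational coefficients in the variables `V`. Here `θ` is a Dirichlet character modulo `p ^ c`,
`χ(z) = chD θ z = θ(z p ^ (-ord z) mod p ^ c)` for `z ≠ 0` and `χ(0) = 0`. -/
noncomputable def zetaT (p : ℕ) [Fact p.Prime] {c : ℕ} (θ : DirichletCharacter ℂ (p ^ c))
    {V : Type} [Fintype V] (f : MvPolynomial V ℚ) (s : ℂ) : ℂ :=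
  letI : MeasurableSpace (V → ℤ_[p]) := borel _
  haveI : BorelSpace (V → ℤ_[p]) := ⟨rfl⟩
  ∫ x : V → ℤ_[p], chD θ (eval₂ (algebraMap ℚ ℚ_[p]) (fun i => ((x i : ℤ_[p]) : ℚ_[p])) f) *
      ((‖eval₂ (algebraMap ℚ ℚ_[p]) (fun i => ((x i : ℤ_[p]) : ℚ_[p])) f‖ : ℝ) : ℂ) ^ s
    ∂(Measure.addHaarMeasure (⊤ : TopologicalSpace.PositiveCompacts (V → ℤ_[p])))

end Pool.Agent.T6.H26.PX
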