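import Pool.Agent.T6.H26.PXV
import Pool.Agent.T6.H26.PXU
import Pool.Agent.T6.H26.FTZeta

set_option autoImplicit false
set_option linter.unusedSectionVars false
set_option linter.unusedVariables false

/-! # The zeta functions of the classes `RS` -/

namespace Pool.Agent.T6.H26.PX

open MvPolynomial MeasureTheory
open Pool.Agent.W427.SMC
open Pool.Agent.Y230.PT Pool.Agent.Y230.PS Pool.Agent.Y230.TH Pool.Agent.R852.PP
open Pool.Agent.W574.RO Pool.Agent.W574.CN
open Pool.Agent.T6.H26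
open Pool.Agent.H628R4.TP (IsBFunction weylS)

attribute [local instance] msZ bsZ nz

variable {p : ℕ} [Fact p.Prime]

/-- the properties of the three kinds -/
def Mos (p : ℕ) [Fact p.Prime] : Ks → FamQ → Prop
  | Ks.idl, A => (∃ j, A.f j ≠ 0) ∧ FR p (mR p A) (Pool.Agent.Y230.PS.FF (A.toP p))
  | Ks.hyp, A => (∃ j, A.f j ≠ 0) ∧ FR p (rG p (wR p) A) (Pool.Agent.Y230.PS.FF (A.toP p))
  | Ks.gen, A => ∃ j0 : A.ι, (∀ j, j = j0) ∧ MG p (A.f j0)

theorem mos_gen {A : FamQ} (h : Mos p Ks.gen A) : Mos p Ks.hyp A := by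
  classical
  obtain ⟨j0, hj, hX⟩ := h
  refine ⟨⟨j0, hX.1.1⟩, ?_⟩
  have h1 := hX.2.FR (M' := rG p (wR p) ⟨A.σ, Fin 1, fun _ => A.f j0⟩) (H_fin' hX.1)
  set k : Fin 1 ≃ A.ι := ⟨fun _ => j0, fun _ => 0, fun _ => Subsingleton.elim _ _,
    fun j => (hj j).symm⟩ with hk
  have h2 : ∀ j : Fin 1, A.f (k j) = rename (Equiv.refl A.σ) (A.f j0) := by
    intro j
    rw [Equiv.coe_refl, rename_id_apply]
    rfl
  have h3 : ∀ s : ℝ, Pool.Agent.Y230.PS.FF (fun _ : Fin 1 => A.toP p j0) s =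
      Pool.Agent.Y230.PS.FF (A.toP p) s := fun s => by
    rw [FF_equiv (Equiv.refl A.σ) k (fun _ : Fin 1 => A.toP p j0) (A.toP p) (fun j => by
      rw [Equiv.coe_refl, rename_id_apply]
      rfl) s]
  refine (h1.mono fun T _ => ?_).congr fun s _ => h3 s
  exact rG_le_of fun m hm => FK_equiv ⟨A.σ, Fin 1, fun _ => A.f j0⟩ A (Equiv.refl _) k h2 _ m hm

theorem nc_of {σ : Type} {g : MvPolynomial σ ℚ} (hg : ∀ c, g ≠ C c) : NC g := by
  refine ⟨fun h => hg 0 (by rw [h, C_0]), fun h => ?_⟩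
  obtain ⟨c, -, h2⟩ := isUnit_iff_eq_C_of_isReduced.1 h
  exact hg c h2

section cases

variable {σ τ : Type} [Fintype σ] [Fintype τ]

theorem mos_of {g : MvPolynomial σ ℚ} (h : MG p g) : Mos p Ks.gen ⟨σ, Fin 1, fun _ => g⟩ :=
  ⟨(0 : Fin 1), fun j => Subsingleton.elim _ _, h⟩

theorem of_mos {g : MvPolynomial σ ℚ} (h : Mos p Ks.gen ⟨σ, Fin 1, fun _ => g⟩) : MG p g := by
  obtain ⟨j1, -, hX1⟩ := h
  exact hX1

end cases

/-- **The zeta functions of the class.** -/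
theorem rs_main (c : Ks) (A : FamQ) (h : RS c A) : Mos p c A := by
  classical
  have hM := isMltP_R (p := p)
  induction h with
  | ptsI A h =>
    have h1 := pts_main hM false A h
    simpa [Mos] using h1
  | ptsH A h =>
    have h1 := pts_main hM true A h
    simpa [Mos] using h1
  | ofHyp A h ih => exact ⟨ih.1, ih.2.mono (hM.base.hyp A)⟩
  | ofGen A h ih => exact mos_gen ih
  | pow σ g k hk h ih =>
    have hg : g ≠ 0 := by
      obtain ⟨j, hj⟩ := ih.1
      exact hj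
    refine ⟨⟨(0 : Fin 1), pow_ne_zero k hg⟩, ?_⟩
    exact pow_case hk (fun T => hM.pow σ g hg k hk T) (ih.2.mono (hM.base.hyp _))
  | sum A B hA hB ihA ihB =>
    refine ⟨Pool.Agent.Y230.PS.sum_ne A B ihA.1, ?_⟩
    rw [toP_sum]
    exact FR_sumK _ _ _ _ _ (hM.base.base.sum A B) ihA.2 ihB.2
  | mulI A B hA hB ihA ihB =>
    refine ⟨mul_ne A B ihA.1 ihB.1, ?_⟩
    rw [toP_mul]
    refine (FR.mul ihA.2 ihB.2 (fun T hT => hM.base.base.mul A B T hT ihA.1 ihB.1)).congr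
      fun s hs => ?_
    rw [FF_mulK]
  | mulH A B hA hB ihA ihB =>
    refine ⟨mul_ne A B ihA.1 ihB.1, ?_⟩
    rw [toP_mul]
    refine (FR.mul ihA.2 ihB.2 (fun T hT => hM.base.mul A B T hT ihA.1 ihB.1)).congr
      fun s hs => ?_
    rw [FF_mulK]
  | univ A hA ihA =>
    refine ⟨univ_ne A ihA.1, ?_⟩
    rw [toP_univ]
    have hι : Nonempty A.ι := ⟨ihA.1.choose⟩
    exact FR_univK hι _ _ _ (fun T hT => hM.base.univ A T hT ihA.1) ihA.2
  | form σ m r a hm ha h f hA ihA =>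
    have hne : ∃ J, genP a h f J ≠ 0 := ihA.1
    obtain ⟨hh, hf⟩ := genQ_ne a h f ha hne
    refine ⟨⟨(0 : Fin 1), formP_ne a h f hne ha⟩, ?_⟩
    have h1 := ihA.2
    rw [genQ_toP] at h1
    rw [formQ_toP]
    exact FR_formK a (fun t => ⟨(hf t).choose⟩) _ _ _ _
      (fun T hT => hM.form σ m r a h f hm ha hne T hT) h1
  | ts A τ g hA hg ihA ihg =>
    have hg0 : g ≠ 0 := by
      obtain ⟨j, hj⟩ := ihg.1
      exact hj
    refine ⟨ts_ne A τ g hg0, ?_⟩
    rw [toP_ts]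
    have hι : Nonempty A.ι := ⟨ihA.1.choose⟩
    exact FR_ts Pool.Agent.Y287.TH.tZ _ _ _ _ _ (hM.base.ts A τ g ihA.1 hg0)
      (hM.base.one A τ g ihA.1 hg0) ihA.2 ihg.2
  | drop σ κ g h ih =>
    refine ⟨⟨(0 : Fin 1), fun h0 => ?_⟩, ?_⟩
    · obtain ⟨j, hj⟩ := ih.1
      apply hj
      have h1 : g = 0 := h0
      change rename Sum.inl g = 0
      rw [h1, map_zero]
    · refine (ih.2.mono (hM.base.drop σ κ g)).congr fun s hs => ?_
      have h2 := FF_drop (κ := κ) (map (algebraMap ℚ ℚ_[p]) g) s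
      refine Eq.trans ?_ h2
      congr 1
      funext j
      exact map_rename _ _ _
  | curve g hg => exact mos_of (MG.curve g (nc_of hg))
  | formG σ m r a hm ha f hA ihA =>
    have h1 := ME.form hm ha f ihA.1 ihA.2
    exact mos_of (MG.of_E h1.1 h1.2)
  | isoG n g w d h => exact mos_of (MG.of_E h.wh (XE_atom h))
  | addG σ τ g₁ g₂ h₁ hw h₂ ih₁ ih₂ => exact mos_of ((of_mos ih₁).add hw (of_mos ih₂))
  | mulG σ τ g₁ g₂ h₁ h₂ ih₁ ih₂ => exact mos_of ((of_mos ih₁).mul (of_mos ih₂))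
  | powG σ g k hk h ih => exact mos_of ((of_mos ih).pow k hk)
  | smulG σ g c hc h ih => exact mos_of ((of_mos ih).smul c hc)
  | extG σ κ g h ih => exact mos_of ((of_mos ih).ext)
  | equiv c A B i k h hA ihA =>
    have h3 : ∀ s : ℝ, Pool.Agent.Y230.PS.FF (A.toP p) s = Pool.Agent.Y230.PS.FF (B.toP p) s :=
      fun s => by
      rw [FF_equiv i k (A.toP p) (B.toP p) (fun j => ?_) s]
      change map (algebraMap ℚ ℚ_[p]) (B.f (k j)) = _
      rw [h, map_rename]
      rfl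
    cases c with
    | idl =>
      refine ⟨equiv_ne A B i k h ihA.1, ?_⟩
      exact (ihA.2.mono fun T hT => hM.base.base.equiv A B i k h T hT).congr fun s hs => h3 s
    | hyp =>
      refine ⟨equiv_ne A B i k h ihA.1, ?_⟩
      exact (ihA.2.mono fun T hT => hM.base.equiv A B i k h T hT).congr fun s hs => h3 s
    | gen =>
      obtain ⟨j0, hj, hX⟩ := ihA
      refine ⟨k j0, fun j => ?_, ?_⟩
      · rw [← k.apply_symm_apply j]
        rw [hj (k.symm j)]
      · rw [h]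
        exact hX.equiv i

/-- every class is contained in the first one -/
theorem rs_idl (c : Ks) (A : FamQ) (h : RS c A) : RS Ks.idl A := by
  cases c with
  | idl => exact h
  | hyp => exact RS.ofHyp _ h
  | gen => exact RS.ofHyp _ (RS.ofGen _ h)

/-- **The real parts of the poles are roots.** -/
theorem rs_R {V : Type} [Fintype V] (F : MvPolynomial V ℚ) (c : Ks)
    (hF : RS c ⟨V, Fin 1, fun _ => F⟩) (b : Polynomial ℂ)
    (hb : Pool.Agent.H628R4.TP.IsBFunction (map (algebraMap ℚ ℂ) F) b)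
    (Z : ℂ → ℂ) (hZ : MeromorphicOn Z Set.univ)
    (hZp : ∀ s : ℂ, 0 < s.re → Z s = zetaQ p F s) (s₀ : ℂ) (hs : meromorphicOrderAt Z s₀ < 0) :
    b.eval (s₀.re : ℂ) = 0 := by
  obtain ⟨-, h2⟩ := rs_main (p := p) Ks.idl _ (rs_idl c _ hF)
  obtain ⟨D, P, hD0, h1, h4⟩ := h2.rat
  have h3 := mero_bound p D P hD0 Z hZ (fun s hs => by
    rw [pw_real, hZp s (by simpa using hs), zetaQ_eq, ← FF_hyp]
    exact h1 s hs.le) s₀
  have h5 : rr p (pw p s₀) = s₀.re := pw_norm p s₀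
  rw [← h5]
  refine root_of_tr F b hb _ (D.rootMultiplicity (pw p s₀)) (fun h0 => ?_)
    (h4 _ (pw_ne_zero p s₀))
  rw [h0] at h3
  exact absurd (lt_of_le_of_lt h3 hs) (by simp)

section chars

variable {c : ℕ} (θ : DirichletCharacter ℂ (p ^ c)) {V : Type} [Fintype V]

theorem zetaT_eq (hc : 1 ≤ c) (f : MvPolynomial V ℚ) (s : ℝ) :
    zetaT p θ f (s : ℂ) = ∫ x : V → ℤ_[p], chD θ (eval (fun i => inc p (x i))
      (map (algebraMap ℚ ℚ_[p]) f)) * ((‖eval (fun i => inc p (x i))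
      (map (algebraMap ℚ ℚ_[p]) f)‖ ^ s : ℝ) : ℂ) ∂(Measure.pi fun _ : V => mu p) := by
  unfold zetaT
  have hms : (borel (V → ℤ_[p])) = MeasurableSpace.pi := (Pi.borelSpace).measurable_eq.symm
  have key : ∀ (ms : MeasurableSpace (V → ℤ_[p])) (_ : ms = MeasurableSpace.pi)
      (hb : @BorelSpace _ _ ms),
      (@integral _ _ _ _ ms (@Measure.addHaarMeasure _ _ _ _ ms hb
        (⊤ : TopologicalSpace.PositiveCompacts (V → ℤ_[p])))
        (fun x => chD θ (eval₂ (algebraMap ℚ ℚ_[p]) (fun i => ((x i : ℤ_[p]) : ℚ_[p])) f) *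
          ((‖eval₂ (algebraMap ℚ ℚ_[p]) (fun i => ((x i : ℤ_[p]) : ℚ_[p])) f‖ : ℝ) : ℂ) ^
          (s : ℂ))) = ∫ x : V → ℤ_[p], chD θ (eval (fun i => inc p (x i))
      (map (algebraMap ℚ ℚ_[p]) f)) * ((‖eval (fun i => inc p (x i))
      (map (algebraMap ℚ ℚ_[p]) f)‖ ^ s : ℝ) : ℂ) ∂(Measure.pi fun _ : V => mu p) := by
    intro ms h hb
    subst h
    have h1 : (Measure.pi fun _ : V => mu p) =
        Measure.addHaarMeasure (⊤ : TopologicalSpace.PositiveCompacts (V → ℤ_[p])) := by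
      have h2 := Measure.addHaarMeasure_unique (Measure.pi fun _ : V => mu p)
        (⊤ : TopologicalSpace.PositiveCompacts (V → ℤ_[p]))
      rw [h2]
      have : (Measure.pi fun _ : V => mu p)
          ((⊤ : TopologicalSpace.PositiveCompacts (V → ℤ_[p])) : Set (V → ℤ_[p])) = 1 :=
        measure_univ
      rw [this, one_smul]
    rw [← h1]
    refine integral_congr_ae (Filter.Eventually.of_forall fun x => ?_)
    beta_reduce
    rw [← Complex.ofReal_cpow (norm_nonneg _) s, eval_map]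
    rfl
  exact key (borel _) hms (@BorelSpace.mk _ _ (borel _) rfl)

/-- the zeta function with integral values -/
theorem Zx_zetaT (hc : 1 ≤ c) (f : MvPolynomial V ℚ) (K : ℕ) (G : (V → ℤ_[p]) → ℤ_[p])
    (hr : Rep (map (algebraMap ℚ ℚ_[p]) f) K G) (s : ℝ) :
    Zx (Measure.pi fun _ : V => mu p) G (chD θ) s =
      ((tr' p s : ℝ) : ℂ) ^ K * zetaT p θ f (s : ℂ) := by
  have hχ := isCh_chD θ hc
  rw [zetaT_eq θ hc, ← integral_const_mul]
  unfold Zx
  refine integral_congr_ae (Filter.Eventually.of_forall fun x => ?_)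
  beta_reduce
  have h3 : ‖G x‖ = ‖inc p (G x)‖ := rfl
  rw [h3, hr x, norm_mul, norm_pow, Padic.norm_p, hχ.mul]
  have h4 : ∀ n : ℕ, chD θ ((p : ℚ_[p]) ^ n) = 1 := by
    intro n
    induction n with
    | zero => rw [pow_zero, hχ.one]
    | succ n ih => rw [pow_succ, hχ.mul, ih, hχ.prm, one_mul]
  rw [h4, one_mul, Real.mul_rpow (pow_nonneg (pinv_pos p).le K) (norm_nonneg _), pinv_s]
  push_cast
  ring

theorem root_tw {g : MvPolynomial V ℚ} (hg : NC g) (b : Polynomial ℂ)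
    (hb : IsBFunction (map (algebraMap ℚ ℂ) g) b) (T : ℂ) (n : ℕ) (hn : n ≠ 0)
    (h : (n : ℕ∞) ≤ Pool.Agent.Y230.PS.tr (fun T => mE p g T + (dp p T : ℕ)) T) :
    b.eval ((rr p T : ℝ) : ℂ) = 0 := by
  have key : ∀ m, 1 ≤ m → FK ⟨V, Fin 1, fun _ => g⟩ ((rr p T : ℝ) : ℂ) m →
      b.eval ((rr p T : ℝ) : ℂ) = 0 := by
    intro m hm h1
    have h2 := (FK_iff g _ _).1 (h1.mono hm) b hb
    rwa [pow_one, Polynomial.dvd_iff_isRoot] at h2
  unfold Pool.Agent.Y230.PS.tr at h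
  split_ifs at h with h1
  · exact absurd (by exact_mod_cast le_antisymm h bot_le : n = 0) hn
  · beta_reduce at h
    by_cases c1 : FK ⟨V, Fin 1, fun _ => g⟩ ((rr p T : ℝ) : ℂ) (1 + dl ((rr p T : ℝ) : ℂ))
    · exact key _ (by omega) c1
    · rw [mE_zero c1, zero_add, dp_eq] at h
      by_cases hT : T = (p : ℂ)
      · refine key 1 le_rfl ?_
        have h3 : ((rr p T : ℝ) : ℂ) = -1 := by rw [hT, rr_self]; push_cast; rfl
        rw [h3]
        exact FK_m1' hg
      · rw [if_neg hT] at h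
        exact absurd (by exact_mod_cast le_antisymm h bot_le : n = 0) hn

/-- **The zeta functions with characters: the real parts of the poles are roots.** -/
theorem rs_T (hc : 1 ≤ c) (F : MvPolynomial V ℚ)
    (hF : RS Ks.gen ⟨V, Fin 1, fun _ => F⟩) (b : Polynomial ℂ)
    (hb : IsBFunction (map (algebraMap ℚ ℂ) F) b)
    (Z : ℂ → ℂ) (hZ : MeromorphicOn Z Set.univ)
    (hZp : ∀ s : ℂ, 0 < s.re → Z s = zetaT p θ F s) (s₀ : ℂ)
    (hs : meromorphicOrderAt Z s₀ < 0) : b.eval (s₀.re : ℂ) = 0 := by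
  obtain ⟨hNC, K, G, hr, hE⟩ := of_mos (rs_main (p := p) Ks.gen _ hF)
  have hG := hr.cont.measurable
  obtain ⟨D, P, hD0, h1, h2⟩ := Zx_rat θ _ G hG hc (Sx_good θ _ G hG hc (hE c hc))
  have hD1 : Polynomial.X ^ K * D ≠ 0 := mul_ne_zero (pow_ne_zero _ Polynomial.X_ne_zero) hD0
  have h3 := mero_bound p (Polynomial.X ^ K * D) P hD1 Z hZ (fun s hs => by
    rw [pw_real, hZp s (by simpa using hs), ← h1 s hs, Zx_zetaT θ hc F K G hr s,
      Polynomial.eval_mul, Polynomial.eval_pow, Polynomial.eval_X]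
    ring) s₀
  have h5 : rr p (pw p s₀) = s₀.re := pw_norm p s₀
  rw [← h5]
  have h6 : (Polynomial.X ^ K * D).rootMultiplicity (pw p s₀) =
      D.rootMultiplicity (pw p s₀) := by
    rw [Polynomial.rootMultiplicity_mul hD1, Polynomial.rootMultiplicity_eq_zero, zero_add]
    rw [Polynomial.IsRoot, Polynomial.eval_pow, Polynomial.eval_X]
    exact pow_ne_zero _ (pw_ne_zero p s₀)
  rw [h6] at h3
  refine root_tw hNC b hb _ (D.rootMultiplicity (pw p s₀)) (fun h0 => ?_)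
    (h2 _ (pw_ne_zero p s₀))
  rw [h0] at h3
  exact absurd (lt_of_le_of_lt h3 hs) (by simp)

end chars

/-! ### The polynomials `Susp` -/

/-- the kinds -/
def kk : Kd → Ks
  | Kd.idl => Ks.idl
  | Kd.hyp => Ks.hyp
  | Kd.exh => Ks.gen

/-- the classes `RO` -/
theorem rs_of_ro (c : Kd) (A : FamQ) (h : RO c A) : RS (kk c) A := by
  induction h with
  | ptsI A h => exact RS.ptsI A h
  | ptsH A h => exact RS.ptsH A h
  | ofHyp A h ih => exact RS.ofHyp A ih
  | ofExh A h ih => exact RS.ofGen A ih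
  | pow σ g k hk h ih => exact RS.pow σ g k hk ih
  | sum A B hA hB ihA ihB => exact RS.sum A B ihA ihB
  | mulI A B hA hB ihA ihB => exact RS.mulI A B ihA ihB
  | mulH A B hA hB ihA ihB => exact RS.mulH A B ihA ihB
  | univ A hA ihA => exact RS.univ A ihA
  | form σ m r a hm ha h f hA ihA => exact RS.form σ m r a hm ha h f ihA
  | ts A τ g hA hg ihA ihg => exact RS.ts A τ g ihA ihg
  | drop σ κ g h ih => exact RS.drop σ κ g ih
  | formE σ m r a hm ha f hA ihA => exact RS.formG σ m r a hm ha f ihA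
  | isoE n g w d h => exact RS.isoG n g w d h
  | addE σ τ g₁ g₂ h₁ h₂ ih₁ ih₂ =>
    obtain ⟨j, -, hW, -⟩ := ro_main (p := 2) Kd.exh _ h₁
    exact RS.addG σ τ g₁ g₂ ih₁ hW ih₂
  | mulE σ τ g₁ g₂ h₁ h₂ ih₁ ih₂ => exact RS.mulG σ τ g₁ g₂ ih₁ ih₂
  | powE σ g k hk h ih => exact RS.powG σ g k hk ih
  | smulE σ g c hc h ih => exact RS.smulG σ g c hc ih
  | equiv c A B i k h hA ihA => exact RS.equiv _ A B i k h ihA

theorem wh_unrename {σ τ R : Type} [CommSemiring R] (f : σ → τ) (hf : Function.Injective f)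
    (W : τ → ℤ) (g : MvPolynomial σ R) (d : ℤ) (h : IsWeightedHomogeneous W (rename f g) d) :
    IsWeightedHomogeneous (fun i => W (f i)) g d := by
  classical
  intro e he
  have h1 : coeff (e.mapDomain f) (rename f g) ≠ 0 := by
    rwa [coeff_rename_mapDomain f hf]
  rw [← h h1, Finsupp.weight_apply, Finsupp.weight_apply, Finsupp.sum_mapDomain_index]
  · intro i
    rw [zero_smul]
  · intro i a b
    rw [add_smul]

theorem WH.unrename {σ τ : Type} (f : σ → τ) (hf : Function.Injective f) {g : MvPolynomial σ ℚ}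
    (h : WH (rename f g)) : WH g := by
  obtain ⟨h0, w, d, hd, hw⟩ := h
  exact ⟨fun h1 => h0 (by rw [h1, map_zero]), _, d, hd, wh_unrename f hf w g d hw⟩

/-- the pieces -/
theorem rs_leaf {V τ : Type} [DecidableEq V] [Fintype τ] (e : τ ↪ V) (g : MvPolynomial τ ℚ)
    (h : RS Ks.gen ⟨τ, Fin 1, fun _ => g⟩) :
    rename Subtype.val (rename (fun t : τ => (⟨e t, Finset.mem_map_of_mem e (Finset.mem_univ t)⟩ :
      {x // x ∈ Finset.univ.map e})) g) = rename e g ∧
      RS Ks.gen ⟨{x // x ∈ Finset.univ.map e}, Fin 1, fun _ => rename (fun t : τ =>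
        (⟨e t, Finset.mem_map_of_mem e (Finset.mem_univ t)⟩ : {x // x ∈ Finset.univ.map e})) g⟩ := by
  refine ⟨by rw [rename_rename]; rfl, ?_⟩
  have hb : Function.Bijective (fun t : τ => (⟨e t, Finset.mem_map_of_mem e (Finset.mem_univ t)⟩ :
      {x // x ∈ Finset.univ.map e})) := by
    refine ⟨fun a b hab => e.injective (congrArg Subtype.val hab), fun x => ?_⟩
    obtain ⟨x, hx⟩ := x
    obtain ⟨t, -, rfl⟩ := Finset.mem_map.1 hx
    exact ⟨t, rfl⟩
  exact RS.equiv Ks.gen _ _ (Equiv.ofBijective _ hb) (Equiv.refl (Fin 1)) (fun j => rfl) h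

theorem rs_susp {V : Type} [DecidableEq V] (S : Finset V) (F : MvPolynomial V ℚ)
    (h : Susp S F) : ∃ g : MvPolynomial S ℚ, rename Subtype.val g = F ∧
      RS Ks.gen ⟨S, Fin 1, fun _ => g⟩ := by
  induction h with
  | var i =>
    refine ⟨X ⟨i, Finset.mem_singleton_self i⟩, by rw [rename_X], ?_⟩
    refine rs_of_ro Kd.exh _ (ro_var _ _ fun t => ?_)
    exact Subtype.ext (Finset.mem_singleton.1 t.2)
  | curve g hg e => exact ⟨_, rs_leaf e g (RS.curve g hg)⟩
  | iso n g w d h e => exact ⟨_, rs_leaf e g (RS.isoG n g w d h)⟩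
  | lin r f hf e =>
    have h1 := rs_of_ro Kd.exh _ (ro_plane r 1 Nat.one_pos f hf)
    simp only [pow_one] at h1
    exact ⟨_, rs_leaf e _ h1⟩
  | add S T hST F G hF hw hG ihF ihG =>
    obtain ⟨f, rfl, hf⟩ := ihF
    obtain ⟨g, rfl, hg⟩ := ihG
    refine ⟨rename (Equiv.Finset.union S T hST) (rename Sum.inl f + rename Sum.inr g), ?_, ?_⟩
    · rw [map_add, map_add, rename_rename, rename_rename, rename_rename, rename_rename]
      rfl
    · exact RS.equiv Ks.gen ⟨S ⊕ T, Fin 1, fun _ => rename Sum.inl f + rename Sum.inr g⟩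
        ⟨_, Fin 1, fun _ => rename (Equiv.Finset.union S T hST)
          (rename Sum.inl f + rename Sum.inr g)⟩ (Equiv.Finset.union S T hST)
        (Equiv.refl (Fin 1)) (fun j => rfl)
        (RS.addG _ _ _ _ hf (WH.unrename _ Subtype.val_injective hw) hg)
  | mul S T hST F G hF hG ihF ihG =>
    obtain ⟨f, rfl, hf⟩ := ihF
    obtain ⟨g, rfl, hg⟩ := ihG
    refine ⟨rename (Equiv.Finset.union S T hST) (rename Sum.inl f * rename Sum.inr g), ?_, ?_⟩
    · rw [map_mul, map_mul, rename_rename, rename_rename, rename_rename, rename_rename]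
      rfl
    · exact RS.equiv Ks.gen ⟨S ⊕ T, Fin 1, fun _ => rename Sum.inl f * rename Sum.inr g⟩
        ⟨_, Fin 1, fun _ => rename (Equiv.Finset.union S T hST)
          (rename Sum.inl f * rename Sum.inr g)⟩ (Equiv.Finset.union S T hST)
        (Equiv.refl (Fin 1)) (fun j => rfl) (RS.mulG _ _ _ _ hf hg)
  | pow S F k hk hF ih =>
    obtain ⟨f, rfl, hf⟩ := ih
    exact ⟨f ^ k, map_pow _ _ _, RS.powG _ _ k hk hf⟩
  | smul S F c hc hF ih =>
    obtain ⟨f, rfl, hf⟩ := ih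
    exact ⟨C c * f, by rw [map_mul, rename_C], RS.smulG _ _ c hc hf⟩

theorem susp_gen {V : Type} [Fintype V] [DecidableEq V] (S : Finset V) (F : MvPolynomial V ℚ)
    (h : Susp S F) : RS Ks.gen ⟨V, Fin 1, fun _ => F⟩ := by
  obtain ⟨g, rfl, hg⟩ := rs_susp S F h
  have h1 := RS.extG _ {i : V // ¬ i ∈ S} g hg
  refine RS.equiv Ks.gen _ _ (Equiv.sumCompl fun i : V => i ∈ S) (Equiv.refl (Fin 1))
    (fun j => ?_) h1
  change rename Subtype.val g = rename (Equiv.sumCompl fun i : V => i ∈ S) (rename Sum.inl g)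
  rw [rename_rename]
  rfl

end Pool.Agent.T6.H26.PX
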