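import Pool.Agent.T6.H26.PXW

set_option autoImplicit false
set_option linter.unusedSectionVars false
set_option linter.unusedVariables false

/-! # Non-trivial characters: the roots of the reduced Bernstein-Sato polynomial -/

namespace Pool.Agent.T6.H26.PX

open MvPolynomial MeasureTheory
open Pool.Agent.W427.SMC
open Pool.Agent.Y230.PT Pool.Agent.Y230.PS Pool.Agent.Y230.TH Pool.Agent.R852.PP
open Pool.Agent.W574.RO Pool.Agent.W574.CN
open Pool.Agent.T6.H26
open Pool.Agent.H628R4.TP (IsBFunction weylS)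

attribute [local instance] msZ bsZ nz

variable {p : ℕ} [Fact p.Prime]

section gen

variable {Ω : Type} [MeasurableSpace Ω] (μ : Measure Ω) [IsProbabilityMeasure μ] (G : Ω → ℤ_[p])

/-- the distribution of the angular components, without the contribution of the volumes -/
theorem Ab_red (hG : Measurable G) {M : ℂ → ℕ∞} (h : GoodE p M (Et μ G)) (w : ℤ_[p]) (c : ℕ) :
    Ab μ G c w - (((p : ℂ)⁻¹) ^ c) • Vc μ (fun x => ‖G x‖) p ∈ EP M := by
  induction c with
  | zero =>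
    have e : Ab μ G 0 w - (((p : ℂ)⁻¹) ^ 0) • Vc μ (fun x => ‖G x‖) p = 0 := by
      funext N
      rw [pow_zero, one_smul, Pi.sub_apply, Ab_eq μ G hG, V_eq μ G hG, Pi.zero_apply, sub_eq_zero]
      refine integral_congr_ae (Filter.Eventually.of_forall fun t => ?_)
      beta_reduce
      rw [(ch_one_iff p 0 _).2 (by rw [pow_zero]; exact PadicInt.norm_le_one _), one_mul,
        add_zero]
    rw [e]
    exact (EP M).zero_mem
  | succ c ih =>
    have h2 := GoodE.wt (Et_loc μ G) h (c + 1) (fun t => ch p (c + 1) (-(t * w)))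
      (fun x y hxy => ch_congr p _ _ _ (by
        have e : -(x * w) - -(y * w) = -((x - y) * w) := by ring
        rw [e, norm_neg, norm_mul]
        exact (mul_le_of_le_one_right (norm_nonneg _) (PadicInt.norm_le_one w)).trans hxy))
      (fun x => (norm_ch p _ _).le)
    have h3 := EP_sftk h2 (c + 1)
    have e : Ab μ G (c + 1) w = ((p : ℂ)⁻¹) • Ab μ G c w + fun n =>
        ∫ z, (if ‖z‖ = 1 then ch p (c + 1) (-(z * w)) * Et μ G z (n + (c + 1)) else 0)
          ∂(mu p) := by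
      funext N
      rw [Pi.add_apply, Pi.smul_apply, smul_eq_mul, Ab_eq μ G hG, Ab_eq μ G hG,
        split_p (fun t => ch p (c + 1) (-(t * w)) * Et μ G t (N + (c + 1)))]
      · congr 2
        refine integral_congr_ae (Filter.Eventually.of_forall fun t => ?_)
        beta_reduce
        rw [← add_assoc, Et_p1, ← ch_p p c (-(t * w))]
        congr 2
        ring
      · refine Measurable.mul ?_ (Et_meas μ G _)
        exact (ch_meas p _).comp ((measurable_id.mul_const w).neg)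
      · intro x
        rw [norm_mul, norm_ch, one_mul]
        exact (Et_loc μ G).bdd x _
    have e2 : Ab μ G (c + 1) w - (((p : ℂ)⁻¹) ^ (c + 1)) • Vc μ (fun x => ‖G x‖) p =
        ((p : ℂ)⁻¹) • (Ab μ G c w - (((p : ℂ)⁻¹) ^ c) • Vc μ (fun x => ‖G x‖) p) + fun n =>
        ∫ z, (if ‖z‖ = 1 then ch p (c + 1) (-(z * w)) * Et μ G z (n + (c + 1)) else 0)
          ∂(mu p) := by
      rw [e, smul_sub, smul_smul, pow_succ']
      abel
    rw [e2]
    exact (EP M).add_mem ((EP M).smul_mem _ ih) h3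

variable {c : ℕ} (θ : DirichletCharacter ℂ (p ^ c))

theorem Sx_red (hG : Measurable G) (hc : 1 ≤ c) (hθ : θ ≠ 1) {M : ℂ → ℕ∞}
    (h : GoodE p (tr M) (Eb μ G c)) : Sx μ G (chD θ) ∈ EP (tr M) := by
  have h1 : GoodE p (tr M) (Et (μ.prod (mu p)) (hat G c)) :=
    h.congr fun u _ m => (hat_E μ G hG c u m).symm
  set V := Vc (μ.prod (mu p)) (fun x => ‖hat G c x‖) p with hV
  have h2 : ∀ w : ZMod (p ^ c), Ab (μ.prod (mu p)) (hat G c) c (w.val : ℤ_[p]) -
      (((p : ℂ)⁻¹) ^ c) • V ∈ EP (tr M) := fun w =>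
    Ab_red (μ.prod (mu p)) (hat G c) (hat_meas G hG c) h1 _ c
  have h0 : ∑ w : ZMod (p ^ c), θ w = 0 := MulChar.sum_eq_zero_of_ne_one hθ
  have e : Sx μ G (chD θ) = ∑ w : ZMod (p ^ c), (θ w) •
      (Ab (μ.prod (mu p)) (hat G c) c (w.val : ℤ_[p]) - (((p : ℂ)⁻¹) ^ c) • V) := by
    have h3 : ∑ w : ZMod (p ^ c), (θ w) •
        (Ab (μ.prod (mu p)) (hat G c) c (w.val : ℤ_[p]) - (((p : ℂ)⁻¹) ^ c) • V) =
        ∑ w : ZMod (p ^ c), (θ w) • Ab (μ.prod (mu p)) (hat G c) c (w.val : ℤ_[p]) := by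
      simp only [smul_sub]
      rw [Finset.sum_sub_distrib, ← Finset.sum_smul, h0, zero_smul, sub_zero]
    rw [h3]
    funext N
    rw [← Sx_hatt θ μ G hG hc N, Sx_Ab θ _ _ (hat_meas G hG c) hc, Finset.sum_apply]
    rfl
  rw [e]
  exact Submodule.sum_mem _ fun w _ => Submodule.smul_mem _ _ (h2 w)

end gen

section chars

variable {c : ℕ} (θ : DirichletCharacter ℂ (p ^ c)) {V : Type} [Fintype V]

theorem fac {g : MvPolynomial V ℚ} (hg : NC g) (b : Polynomial ℂ)
    (hb : IsBFunction (map (algebraMap ℚ ℂ) g) b) :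
    ∃ q : Polynomial ℂ, b = (Polynomial.X + 1) * q := by
  have h1 := (FK_iff g _ _).1 (FK_m1' hg) b hb
  rw [pow_one, Polynomial.C_neg, sub_neg_eq_add, Polynomial.C_1] at h1
  exact h1

theorem root_rd {g : MvPolynomial V ℚ} (q : Polynomial ℂ)
    (hb : IsBFunction (map (algebraMap ℚ ℂ) g) ((Polynomial.X + 1) * q)) (T : ℂ) (n : ℕ)
    (hn : n ≠ 0) (h : (n : ℕ∞) ≤ Pool.Agent.Y230.PS.tr (mE p g) T) :
    q.eval ((rr p T : ℝ) : ℂ) = 0 := by
  unfold Pool.Agent.Y230.PS.tr at h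
  split_ifs at h with h1
  · exact absurd (by exact_mod_cast le_antisymm h bot_le : n = 0) hn
  · by_cases c1 : FK ⟨V, Fin 1, fun _ => g⟩ ((rr p T : ℝ) : ℂ) (1 + dl ((rr p T : ℝ) : ℂ))
    · exact root_red _ q ((FK_iff g _ _).1 c1 _ hb)
    · rw [mE_zero c1] at h
      exact absurd (by exact_mod_cast le_antisymm h bot_le : n = 0) hn

/-- **Non-trivial characters: the real parts of the poles are roots of the reduced polynomial.** -/
theorem rs_N (hc : 1 ≤ c) (hθ : θ ≠ 1) (F : MvPolynomial V ℚ)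
    (hF : RS Ks.gen ⟨V, Fin 1, fun _ => F⟩) (q : Polynomial ℂ)
    (hb : IsBFunction (map (algebraMap ℚ ℂ) F) ((Polynomial.X + 1) * q))
    (Z : ℂ → ℂ) (hZ : MeromorphicOn Z Set.univ)
    (hZp : ∀ s : ℂ, 0 < s.re → Z s = zetaT p θ F s) (s₀ : ℂ)
    (hs : meromorphicOrderAt Z s₀ < 0) : q.eval (s₀.re : ℂ) = 0 := by
  obtain ⟨hNC, K, G, hr, hE⟩ := of_mos (rs_main (p := p) Ks.gen _ hF)
  have hG := hr.cont.measurable
  obtain ⟨D, P, hD0, h1, h2⟩ := Zx_rat θ _ G hG hc (Sx_red _ G θ hG hc hθ (hE c hc))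
  have hD1 : Polynomial.X ^ K * D ≠ 0 := mul_ne_zero (pow_ne_zero _ Polynomial.X_ne_zero) hD0
  have h3 := mero_bound p (Polynomial.X ^ K * D) P hD1 Z hZ (fun s hs => by
    rw [pw_real, hZp s (by simpa using hs), ← h1 s hs, Zx_zetaT θ hc F K G hr s,
      Polynomial.eval_mul, Polynomial.eval_pow, Polynomial.eval_X]
    ring) s₀
  have h5 : rr p (pw p s₀) = s₀.re := pw_norm p s₀
  rw [← h5]
  have h6 : (Polynomial.X ^ K * D).rootMultiplicity (pw p s₀) =
      D.rootMultiplicity (pw p s₀) := by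
    rw [Polynomial.rootMultiplicity_mul hD1, Polynomial.rootMultiplicity_eq_zero, zero_add]
    rw [Polynomial.IsRoot, Polynomial.eval_pow, Polynomial.eval_X]
    exact pow_ne_zero _ (pw_ne_zero p s₀)
  rw [h6] at h3
  refine root_rd q hb _ (D.rootMultiplicity (pw p s₀)) (fun h0 => ?_)
    (h2 _ (pw_ne_zero p s₀))
  rw [h0] at h3
  exact absurd (lt_of_le_of_lt h3 hs) (by simp)

end chars

end Pool.Agent.T6.H26.PX
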