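import Pool.Agent.T6.H26.PXK

set_option autoImplicit false
set_option linter.unusedSectionVars false
set_option linter.unusedVariables false

/-! # Local vanishing of the integrals with highly ramified characters -/

namespace Pool.Agent.T6.H26.PX

open MeasureTheory Set Pool.Agent.W427.SMC Pool.Agent.Y230.PT
open scoped ENNReal
open Pool.Agent.Y230.RE

variable {p : ℕ} [Fact p.Prime]

attribute [local instance] msK bsK

/-- the character is not trivial on `1 + p ^ e0 ℤ_p` -/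
def Ram (χ : ℚ_[p] → ℂ) (e0 : ℕ) : Prop := ∃ t : ℚ_[p], ‖t‖ ≤ qr p ^ e0 ∧ χ (1 + t) ≠ 1

theorem Ram.anti {χ : ℚ_[p] → ℂ} {e0 e1 : ℕ} (h : Ram χ e1) (h01 : e0 ≤ e1) : Ram χ e0 := by
  obtain ⟨t, h1, h2⟩ := h
  exact ⟨t, h1.trans (pow_le_pow_of_le_one qr_pos.le qr_lt_one.le h01), h2⟩

/-- families of set functions -/
abbrev SX (p : ℕ) [Fact p.Prime] := (ℚ_[p] → ℂ) → SF p

/-- additivity -/
def AddX (F : SX p) : Prop := ∀ χ e, IsCh χ e → AddF (F χ)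

/-- vanishing for the highly ramified characters -/
def VC (F : SX p) (C : Set (ℚ_[p] × ℚ_[p])) : Prop :=
  ∃ e0 : ℕ, ∀ χ e, IsCh χ e → Ram χ e0 → ∀ s : ℝ, 0 ≤ s → F χ C s = 0

theorem VC.empty {F : SX p} (hF : AddX F) : VC F ∅ :=
  ⟨0, fun χ e hχ _ s hs => (hF χ e hχ).emp s hs⟩

theorem VC.union {F : SX p} (hF : AddX F) {A B : Set (ℚ_[p] × ℚ_[p])} (hA : CO A) (hB : CO B)
    (hd : Disjoint A B) (h1 : VC F A) (h2 : VC F B) : VC F (A ∪ B) := by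
  obtain ⟨e1, h1⟩ := h1
  obtain ⟨e2, h2⟩ := h2
  refine ⟨max e1 e2, fun χ e hχ hr s hs => ?_⟩
  rw [(hF χ e hχ).uni A B hA hB hd s hs, h1 χ e hχ (hr.anti (le_max_left _ _)) s hs,
    h2 χ e hχ (hr.anti (le_max_right _ _)) s hs, add_zero]

theorem VC.congr {F G : SX p} {C : Set (ℚ_[p] × ℚ_[p])} (hF : VC F C)
    (h : ∀ χ e, IsCh χ e → ∀ s : ℝ, 0 ≤ s → F χ C s = G χ C s) : VC G C := by
  obtain ⟨e0, h1⟩ := hF
  exact ⟨e0, fun χ e hχ hr s hs => (h χ e hχ s hs).symm.trans (h1 χ e hχ hr s hs)⟩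

/-- local vanishing at a point -/
def LVan (F : SX p) (x : ℚ_[p] × ℚ_[p]) : Prop :=
  ∃ U, IsOpen U ∧ x ∈ U ∧ ∀ C, CO C → C ⊆ U → VC F C

theorem LVan.glue {F : SX p} (hF : AddX F) {C : Set (ℚ_[p] × ℚ_[p])} (hC : CO C)
    (h : ∀ x ∈ C, LVan F x) : VC F C := by
  refine ball_ind 0 (fun C => VC F C) (VC.empty hF) ?_ C hC ?_
  · intro A B hA hB hd h1 h2
    exact VC.union hF hA hB hd h1 h2
  · intro x hx
    obtain ⟨U, hU, hxU, hU2⟩ := h x hx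
    exact ⟨U, hU, hxU, fun y k hy => hU2 _ (CO_bx 0 y k) hy⟩

theorem LVan.of_boxes {F : SX p} (hF : AddX F) (κ : ℕ) {x : ℚ_[p] × ℚ_[p]}
    {U : Set (ℚ_[p] × ℚ_[p])} (hU : IsOpen U) (hx : x ∈ U)
    (h : ∀ y k, bx κ y k ⊆ U → VC F (bx κ y k)) : LVan F x := by
  refine ⟨U, hU, hx, fun C hC hCU => ?_⟩
  refine ball_ind κ (fun C => VC F C) (VC.empty hF) ?_ C hC ?_
  · intro A B hA hB hd h1 h2
    exact VC.union hF hA hB hd h1 h2
  · intro y hy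
    exact ⟨U, hU, hCU hy, h⟩

theorem LVan.congr {F G : SX p} {x : ℚ_[p] × ℚ_[p]} (hF : LVan F x)
    {V : Set (ℚ_[p] × ℚ_[p])} (hV : IsOpen V) (hxV : x ∈ V)
    (h : ∀ χ e, IsCh χ e → ∀ C, CO C → C ⊆ V → ∀ s : ℝ, 0 ≤ s → F χ C s = G χ C s) :
    LVan G x := by
  obtain ⟨U, hU, hxU, hU2⟩ := hF
  exact ⟨U ∩ V, hU.inter hV, ⟨hxU, hxV⟩, fun C hC hCU =>
    (hU2 C hC (hCU.trans Set.inter_subset_left)).congr
      fun χ e hχ => h χ e hχ C hC (hCU.trans Set.inter_subset_right)⟩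

theorem LVan.mul {F : SX p} {x : ℚ_[p] × ℚ_[p]} (hF : LVan F x) (c : (ℚ_[p] → ℂ) → ℝ → ℂ) :
    LVan (fun χ C s => c χ s * F χ C s) x := by
  obtain ⟨U, hU, hxU, hU2⟩ := hF
  refine ⟨U, hU, hxU, fun C hC hCU => ?_⟩
  obtain ⟨e0, h1⟩ := hU2 C hC hCU
  refine ⟨e0, fun χ e hχ hr s hs => ?_⟩
  beta_reduce
  rw [h1 χ e hχ hr s hs, mul_zero]

/-- **Gluing at a blow-up.** -/
theorem LVan.blow {F F1 F2 : SX p} (h1 : AddX F1)
    (hF : ∀ χ e, IsCh χ e → ∀ L C, CO C → ∀ s : ℝ, 0 ≤ s →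
      F χ C s = F1 χ (S1 L C) s + F2 χ (S2 L C) s)
    (hc : ∀ c : ℚ_[p], LVan F1 (0, c)) (hI : LVan F2 (0, 0)) :
    LVan F (0, 0) := by
  obtain ⟨UI, hUI, h0I, hI2⟩ := hI
  obtain ⟨ε, hε, hε2⟩ := Metric.isOpen_iff.1 hUI _ h0I
  obtain ⟨L, hL⟩ := exists_pow_lt_of_lt_one hε (qr_lt_one (p := p))
  have hq : 0 < qr p ^ L := pow_pos qr_pos L
  choose U hUo hUx hU2 using hc
  have hsub : ({0} : Set ℚ_[p]) ×ˢ Metric.closedBall (0 : ℚ_[p]) ((qr p ^ L)⁻¹) ⊆ ⋃ c, U c := by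
    rintro ⟨x1, x2⟩ ⟨hx1, _⟩
    rw [Set.mem_singleton_iff] at hx1
    change x1 = 0 at hx1
    subst hx1
    exact Set.mem_iUnion.2 ⟨x2, hUx x2⟩
  obtain ⟨u, v, huo, hvo, hu, hv, huv⟩ := generalized_tube_lemma (isCompact_singleton)
    (isCompact_closedBall (0 : ℚ_[p]) ((qr p ^ L)⁻¹)) (isOpen_iUnion hUo) hsub
  refine ⟨(u ∩ Metric.ball 0 (qr p ^ L)) ×ˢ Metric.ball 0 (qr p ^ L),
    (huo.inter Metric.isOpen_ball).prod Metric.isOpen_ball,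
    ⟨⟨hu (Set.mem_singleton _), Metric.mem_ball_self hq⟩, Metric.mem_ball_self hq⟩,
    fun C hC hCU => ?_⟩
  have e1 : VC F1 (S1 L C) := by
    refine LVan.glue h1 (CO_S1 L hC) fun x hx => ?_
    obtain ⟨hx1, hx2⟩ := hx
    have h3 : x ∈ u ×ˢ v := by
      refine ⟨(hCU hx2).1.1, hv ?_⟩
      rw [Set.mem_ofPred_eq, ← le_div_iff₀ hq, one_div] at hx1
      rw [Metric.mem_closedBall, dist_zero_right]
      exact hx1
    obtain ⟨c, hcx⟩ := Set.mem_iUnion.1 (huv h3)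
    exact ⟨U c, hUo c, hcx, hU2 c⟩
  have e2 : VC F2 (S2 L C) := by
    refine hI2 _ (CO_S2 L hC) fun x hx => hε2 ?_
    obtain ⟨hx1, hx2⟩ := hx
    have h3 := (hCU hx2).2
    rw [Metric.mem_ball, dist_zero_right] at h3
    change ‖x.2‖ < qr p ^ L at h3
    change ‖x.1‖ < qr p ^ L at hx1
    rw [Metric.mem_ball, Prod.dist_eq]
    simp only [dist_zero_right]
    exact max_lt (hx1.trans hL) (h3.trans hL)
  obtain ⟨n1, g1⟩ := e1
  obtain ⟨n2, g2⟩ := e2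
  refine ⟨max n1 n2, fun χ e hχ hr s hs => ?_⟩
  rw [hF χ e hχ L C hC s hs, g1 χ e hχ (hr.anti (le_max_left _ _)) s hs,
    g2 χ e hχ (hr.anti (le_max_right _ _)) s hs, add_zero]

theorem LVan.homeo {F G : SX p} (τ : (ℚ_[p] × ℚ_[p]) ≃ₜ (ℚ_[p] × ℚ_[p]))
    (h : ∀ χ e, IsCh χ e → ∀ C, CO C → ∀ s : ℝ, 0 ≤ s → F χ C s = G χ (τ ⁻¹' C) s)
    {x : ℚ_[p] × ℚ_[p]} (hG : LVan G x) : LVan F (τ x) := by
  obtain ⟨U, hU, hxU, hU2⟩ := hG
  refine ⟨τ.symm ⁻¹' U, hU.preimage τ.symm.continuous, by simpa using hxU, fun C hC hCU => ?_⟩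
  obtain ⟨e0, h1⟩ := hU2 (τ ⁻¹' C) ⟨τ.isCompact_preimage.2 hC.cpt, hC.opn.preimage τ.continuous⟩
    (by
      intro y hy
      have := hCU hy
      simpa using this)
  exact ⟨e0, fun χ e hχ hr s hs => (h χ e hχ C hC s hs).trans (h1 χ e hχ hr s hs)⟩

/-! ### Vector fields -/

/-- The substitution `x₂ ↦ x₂ + τ η(x)` multiplies `f` by `1 + τ ρ + O(τ²)`. -/
def Fc (η f ρ : A ℚ_[p]) : Prop :=
  ∃ R : ℚ_[p] × (ℚ_[p] × ℚ_[p]) → ℚ_[p], Continuous R ∧ ∀ (τ : ℚ_[p]) (x : ℚ_[p] × ℚ_[p]),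
    ev (x.1, x.2 + τ * ev x η) f = ev x f * (1 + τ * ev x ρ + τ ^ 2 * R (τ, x))

theorem taylor2 (f : A ℚ_[p]) : ∃ S : ℚ_[p] × (ℚ_[p] × ℚ_[p]) → ℚ_[p], Continuous S ∧
    ∀ (δ : ℚ_[p]) (x : ℚ_[p] × ℚ_[p]), ev (x.1, x.2 + δ) f =
      ev x f + δ * ev x (MvPolynomial.pderiv 1 f) + δ ^ 2 * S (δ, x) := by
  induction f using MvPolynomial.induction_on with
  | C c =>
    refine ⟨fun _ => 0, continuous_const, fun δ x => ?_⟩
    rw [ev_C, ev_C, MvPolynomial.pderiv_C, map_zero]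
    ring
  | add f g hf hg =>
    obtain ⟨S1, h1, h2⟩ := hf
    obtain ⟨S2, h3, h4⟩ := hg
    refine ⟨fun x => S1 x + S2 x, h1.add h3, fun δ x => ?_⟩
    rw [map_add, map_add, map_add, map_add, h2, h4]
    ring
  | mul_X f i hf =>
    obtain ⟨S1, h1, h2⟩ := hf
    have hi : i = 0 ∨ i = 1 := by fin_cases i <;> simp
    rcases hi with rfl | rfl
    · refine ⟨fun x => S1 x * x.2.1, h1.mul (by fun_prop), fun δ x => ?_⟩
      rw [map_mul, map_mul, ev_X0, ev_X0, h2, MvPolynomial.pderiv_mul,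
        MvPolynomial.pderiv_X_of_ne (by decide), mul_zero, add_zero, map_mul, ev_X0]
      ring
    · refine ⟨fun x => S1 x * x.2.2 + ev x.2 (MvPolynomial.pderiv 1 f) + x.1 * S1 x,
        ((h1.mul (by fun_prop)).add ((ev_cont _).comp (by fun_prop))).add
          (continuous_fst.mul h1), fun δ x => ?_⟩
      rw [map_mul, map_mul, ev_X1, ev_X1, h2, MvPolynomial.pderiv_mul,
        MvPolynomial.pderiv_X_self, mul_one, map_add, map_mul, ev_X1]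
      ring

theorem fc_base (f μ : A ℚ_[p]) : Fc (f * μ) f (μ * MvPolynomial.pderiv 1 f) := by
  obtain ⟨S, h1, h2⟩ := taylor2 f
  refine ⟨fun x => ev x.2 f * ev x.2 μ ^ 2 * S (x.1 * (ev x.2 f * ev x.2 μ), x.2), ?_,
    fun τ x => ?_⟩
  · have e1 : Continuous (fun x : ℚ_[p] × (ℚ_[p] × ℚ_[p]) => ev x.2 f) :=
      (ev_cont f).comp continuous_snd
    have e2 : Continuous (fun x : ℚ_[p] × (ℚ_[p] × ℚ_[p]) => ev x.2 μ) :=
      (ev_cont μ).comp continuous_snd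
    exact (e1.mul (e2.pow 2)).mul (h1.comp ((continuous_fst.mul (e1.mul e2)).prodMk
      continuous_snd))
  · rw [h2, map_mul, map_mul]
    ring

theorem fc_X0 (η : A ℚ_[p]) : Fc η (MvPolynomial.X 0) 0 := by
  refine ⟨fun _ => 0, continuous_const, fun τ x => ?_⟩
  rw [ev_X0, ev_X0, map_zero]
  ring

theorem fc_one (η : A ℚ_[p]) : Fc η 1 0 := by
  refine ⟨fun _ => 0, continuous_const, fun τ x => ?_⟩
  rw [map_one, map_one, map_zero]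
  ring

theorem Fc.mul {η f g ρ σ : A ℚ_[p]} (hf : Fc η f ρ) (hg : Fc η g σ) : Fc η (f * g) (ρ + σ) := by
  obtain ⟨R, h1, h2⟩ := hf
  obtain ⟨S, h3, h4⟩ := hg
  have e1 : Continuous (fun x : ℚ_[p] × (ℚ_[p] × ℚ_[p]) => ev x.2 ρ) :=
    (ev_cont ρ).comp continuous_snd
  have e2 : Continuous (fun x : ℚ_[p] × (ℚ_[p] × ℚ_[p]) => ev x.2 σ) :=
    (ev_cont σ).comp continuous_snd
  refine ⟨fun x => R x + S x + ev x.2 ρ * ev x.2 σ + x.1 * (ev x.2 ρ * S x + ev x.2 σ * R x) +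
    x.1 ^ 2 * (R x * S x), ?_, fun τ x => ?_⟩
  · exact ((((h1.add h3).add (e1.mul e2)).add (continuous_fst.mul ((e1.mul h3).add
      (e2.mul h1)))).add ((continuous_fst.pow 2).mul (h1.mul h3)))
  · rw [map_mul, map_mul, h2, h4, map_add]
    ring

theorem Fc.pow {η f ρ : A ℚ_[p]} (hf : Fc η f ρ) (n : ℕ) : Fc η (f ^ n) (n * ρ) := by
  induction n with
  | zero =>
    rw [pow_zero, Nat.cast_zero, zero_mul]
    exact fc_one η
  | succ n ih =>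
    rw [pow_succ]
    have := ih.mul hf
    rwa [show (n : A ℚ_[p]) * ρ + ρ = ((n + 1 : ℕ) : A ℚ_[p]) * ρ by push_cast; ring] at this

theorem Fc.congr {η η' f f' ρ ρ' : A ℚ_[p]} (h : Fc η f ρ) (h1 : η = η') (h2 : f = f')
    (h3 : ρ = ρ') : Fc η' f' ρ' := by
  subst h1 h2 h3
  exact h

end Pool.Agent.T6.H26.PX
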