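import Pool.Agent.T6.H26.PYA

set_option autoImplicit false
set_option linter.unusedSectionVars false
set_option linter.unusedVariables false

/-! # Local vanishing at the leaves of the tree -/

namespace Pool.Agent.T6.H26.PX

open MeasureTheory Set Pool.Agent.W427.SMC Pool.Agent.Y230.PT
open scoped ENNReal
open Pool.Agent.Y230.RE

variable {p : ℕ} [Fact p.Prime]

attribute [local instance] msK bsK

/-- the conductor -/
theorem Ram.cond {χ : ℚ_[p] → ℂ} {e e0 : ℕ} (hχ : IsCh χ e) (h : Ram χ e0) :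
    ∃ (j : ℕ) (t : ℚ_[p]), e0 ≤ j ∧ ‖t‖ ≤ qr p ^ j ∧ χ (1 + t) ≠ 1 ∧
      (∀ w : ℚ_[p], ‖w‖ ≤ qr p ^ (j + 1) → χ (1 + w) = 1) := by
  classical
  have hex : ∃ n, ∀ w : ℚ_[p], ‖w‖ ≤ qr p ^ n → χ (1 + w) = 1 :=
    ⟨e, fun w hw => hχ.loc _ (by rwa [add_sub_cancel_left])⟩
  set n := Nat.find hex with hn
  have h1 := Nat.find_spec hex
  rw [← hn] at h1
  have h2 : e0 < n := by
    by_contra hlt
    obtain ⟨t, ht, ht2⟩ := h.anti (not_lt.1 hlt)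
    exact ht2 (h1 t ht)
  obtain ⟨j, hj⟩ : ∃ j, n = j + 1 := ⟨n - 1, by omega⟩
  have h3 := Nat.find_min hex (m := j) (by omega)
  push Not at h3
  obtain ⟨t, ht, ht2⟩ := h3
  exact ⟨j, t, by omega, ht, ht2, by rw [← hj]; exact h1⟩

/-- the integrand -/
noncomputable def HG (χ : ℚ_[p] → ℂ) (G : A ℚ_[p]) (n0 n1 : ℕ) (s : ℝ)
    (x : ℚ_[p] × ℚ_[p]) : ℂ :=
  NN χ s (ev x G) * (((‖x.1‖ : ℝ) : ℂ) ^ (n0 - 1) * ((‖x.2‖ : ℝ) : ℂ) ^ (n1 - 1))

theorem HX_HG {χ : ℚ_[p] → ℂ} {e : ℕ} (hχ : IsCh χ e) (g : A ℚ_[p]) (a0 n0 a1 n1 : ℕ) :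
    HX χ g a0 n0 a1 n1 =
      HG χ (g * (MvPolynomial.X 0 ^ a0 * MvPolynomial.X 1 ^ a1)) n0 n1 := by
  funext s x
  unfold HX HG ww
  rw [map_mul, map_mul, map_pow, map_pow, ev_X0, ev_X1, NN_mul hχ, NN_mul hχ, NN_pow hχ,
    NN_pow hχ]
  ring

theorem okC_HG {χ : ℚ_[p] → ℂ} {e : ℕ} (hχ : IsCh χ e) (G : A ℚ_[p]) (n0 n1 : ℕ) :
    OkC (HG χ G n0 n1) :=
  (okC_NN hχ _ (ev_cont G)).mul ((okC_norm (fun x => x.1) continuous_fst _).mul
    (okC_norm (fun x => x.2) continuous_snd _))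

theorem bdd_cpt {X : Type} [TopologicalSpace X] (f : X → ℚ_[p]) (hf : Continuous f) {K : Set X}
    (hK : IsCompact K) : ∃ B : ℝ, 0 < B ∧ ∀ x ∈ K, ‖f x‖ ≤ B := by
  obtain ⟨B, hB⟩ := hK.exists_bound_of_continuousOn hf.continuousOn
  exact ⟨max B 1, lt_of_lt_of_le one_pos (le_max_right _ _), fun x hx =>
    (hB x hx).trans (le_max_left _ _)⟩

theorem norm_one_add {w : ℚ_[p]} (hw : ‖w‖ < 1) : ‖1 + w‖ = 1 := by
  rw [Padic.add_eq_max_of_ne (by rw [norm_one]; exact hw.ne'), norm_one, max_eq_left hw.le]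

/-- **The vanishing by a vector field.** -/
theorem van_field (G η ρ : A ℚ_[p]) (n0 n1 : ℕ) (hG : Fc η G ρ)
    (hρ : MvPolynomial.constantCoeff ρ ≠ 0) (hn : n1 = 1 ∨ ∃ μ, Fc η (MvPolynomial.X 1) μ) :
    LVan (fun χ => ZX (HG χ G n0 n1)) (0, 0) := by
  have hρ0 : ev (0, 0) ρ ≠ 0 := by rw [ev_zero]; exact hρ
  obtain ⟨U, hU, h0U, hU2⟩ := near_const (fun x => ev x ρ) (ev_cont ρ) (0, 0) hρ0 1
  set ρ0 := ev (0, 0) ρ with hρ0def
  have hρn : 0 < ‖ρ0‖ := norm_pos_iff.2 hρ0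
  obtain ⟨R, hR1, hR2⟩ := hG
  refine LVan.of_boxes (fun χ e hχ => addF_ZX (okC_HG hχ _ _ _)) 0 hU h0U fun y k hy => ?_
  -- the bounds
  have hcB : IsCompact (bx 0 y k) := (CO_bx 0 y k).cpt
  have hc1 : IsCompact (Metric.closedBall (0 : ℚ_[p]) 1 ×ˢ bx 0 y k) :=
    (isCompact_closedBall _ _).prod hcB
  obtain ⟨M1, hM1, hb1⟩ := bdd_cpt R hR1 hc1
  obtain ⟨M2, hM2, hb2⟩ := bdd_cpt (fun x => ev x η) (ev_cont η) hcB
  obtain ⟨Q, hQ1, hQ2, hQ3⟩ := exists_dq1 η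
  have hc3 : IsCompact (bl y.1 (k + 0) ×ˢ (bl y.2 k ×ˢ bl y.2 k)) :=
    (bl_cpt _ _).prod ((bl_cpt _ _).prod (bl_cpt _ _))
  obtain ⟨M3, hM3, hb3⟩ := bdd_cpt Q hQ1 hc3
  obtain ⟨M4, hM4, hb4⟩ : ∃ M4 : ℝ, 0 < M4 ∧ ∀ τ : ℚ_[p], ‖τ‖ ≤ 1 → ‖τ‖ * M4 < 1 →
      ∀ x ∈ bx 0 y k, ‖x.2 + τ * ev x η‖ ^ (n1 - 1) = ‖x.2‖ ^ (n1 - 1) := by
    rcases hn with rfl | ⟨μ, S, hS1, hS2⟩
    · exact ⟨1, one_pos, fun τ _ _ x _ => by simp⟩
    · obtain ⟨M5, hM5, hb5⟩ := bdd_cpt S hS1 hc1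
      obtain ⟨M6, hM6, hb6⟩ := bdd_cpt (fun x => ev x μ) (ev_cont μ) hcB
      refine ⟨max M5 M6, lt_of_lt_of_le hM5 (le_max_left _ _), fun τ hτ hτ2 x hx => ?_⟩
      have h1 := hS2 τ x
      rw [ev_X1, ev_X1] at h1
      simp only at h1
      rw [h1, norm_mul]
      have h2 : ‖τ * ev x μ‖ < 1 := by
        rw [norm_mul]
        refine lt_of_le_of_lt ?_ hτ2
        exact mul_le_mul_of_nonneg_left ((hb6 x hx).trans (le_max_right _ _)) (norm_nonneg _)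
      have h3 : ‖τ ^ 2 * S (τ, x)‖ < 1 := by
        rw [norm_mul, norm_pow, sq]
        have h4 : ‖τ‖ * ‖τ‖ ≤ 1 * ‖τ‖ := mul_le_mul_of_nonneg_right hτ (norm_nonneg _)
        rw [one_mul] at h4
        refine lt_of_le_of_lt ?_ hτ2
        exact mul_le_mul h4 ((hb5 (τ, x) ⟨by
          rw [Metric.mem_closedBall, dist_zero_right]
          exact hτ, hx⟩).trans (le_max_left _ _)) (norm_nonneg _) (norm_nonneg _)
      have h5 : ‖1 + τ * ev x μ + τ ^ 2 * S (τ, x)‖ = 1 := by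
        rw [add_assoc]
        exact norm_one_add (lt_of_le_of_lt (Padic.nonarchimedean _ _) (max_lt h2 h3))
      rw [h5, mul_one]
  -- the size of `τ`
  have hq := qr_pos (p := p)
  have hq1 := qr_lt_one (p := p)
  obtain ⟨ε, hε, hε1, hε2, hε3, hε4, hε5⟩ : ∃ ε : ℝ, 0 < ε ∧ ε ≤ 1 ∧ ε * M2 ≤ qr p ^ k ∧
      ε * M3 < 1 ∧ ε * M4 < 1 ∧ ε * M1 ≤ qr p * ‖ρ0‖ := by
    have hqk : 0 < qr p ^ k := pow_pos hq k
    set ε := min (min (min 1 (qr p ^ k / M2)) (min (1 / (2 * M3)) (1 / (2 * M4))))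
      (qr p * ‖ρ0‖ / M1) with hεdef
    have hp1 : 0 < 1 / (2 * M3) := by positivity
    have hp2 : 0 < 1 / (2 * M4) := by positivity
    have hp3 : 0 < qr p * ‖ρ0‖ / M1 := by positivity
    have hp4 : 0 < qr p ^ k / M2 := by positivity
    refine ⟨ε, ?_, ?_, ?_, ?_, ?_, ?_⟩
    · exact lt_min (lt_min (lt_min one_pos hp4) (lt_min hp1 hp2)) hp3
    · exact (min_le_left _ _).trans ((min_le_left _ _).trans (min_le_left _ _))
    · have : ε ≤ qr p ^ k / M2 :=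
        (min_le_left _ _).trans ((min_le_left _ _).trans (min_le_right _ _))
      calc ε * M2 ≤ qr p ^ k / M2 * M2 := mul_le_mul_of_nonneg_right this hM2.le
        _ = qr p ^ k := div_mul_cancel₀ _ hM2.ne'
    · have : ε ≤ 1 / (2 * M3) :=
        (min_le_left _ _).trans ((min_le_right _ _).trans (min_le_left _ _))
      calc ε * M3 ≤ 1 / (2 * M3) * M3 := mul_le_mul_of_nonneg_right this hM3.le
        _ = 1 / 2 := by field_simp
        _ < 1 := by norm_num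
    · have : ε ≤ 1 / (2 * M4) :=
        (min_le_left _ _).trans ((min_le_right _ _).trans (min_le_right _ _))
      calc ε * M4 ≤ 1 / (2 * M4) * M4 := mul_le_mul_of_nonneg_right this hM4.le
        _ = 1 / 2 := by field_simp
        _ < 1 := by norm_num
    · have : ε ≤ qr p * ‖ρ0‖ / M1 := min_le_right _ _
      calc ε * M1 ≤ qr p * ‖ρ0‖ / M1 * M1 := mul_le_mul_of_nonneg_right this hM1.le
        _ = qr p * ‖ρ0‖ := div_mul_cancel₀ _ hM1.ne'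
  obtain ⟨e0, he0⟩ := exists_pow_lt_of_lt_one (mul_pos hε hρn) hq1
  refine ⟨max e0 1, fun χ e hχ hr s hs => ?_⟩
  obtain ⟨j, t, hj, ht, ht2, hw⟩ := hr.cond hχ
  have hje : e0 ≤ j := (le_max_left _ _).trans hj
  have hj1 : 1 ≤ j := (le_max_right _ _).trans hj
  have ht1 : ‖t‖ < 1 := ht.trans_lt (pow_lt_one₀ hq.le hq1 (by omega))
  have h1t : ‖1 + t‖ = 1 := norm_one_add ht1
  have h1t0 : 1 + t ≠ 0 := by
    rw [← norm_pos_iff, h1t]
    exact one_pos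
  set τ : ℚ_[p] := t / ρ0 with hτ
  have hτn : ‖τ‖ = ‖t‖ / ‖ρ0‖ := by rw [hτ, norm_div]
  have hτε : ‖τ‖ ≤ ε := by
    rw [hτn, div_le_iff₀ hρn]
    exact (ht.trans (pow_le_pow_of_le_one hq.le hq1.le hje)).trans he0.le
  have hτ1 : ‖τ‖ ≤ 1 := hτε.trans hε1
  -- the values
  have hval : ∀ x ∈ bx 0 y k, NN χ s (ev (x.1, x.2 + τ * ev x η) G) =
      χ (1 + t) * NN χ s (ev x G) := by
    intro x hx
    rw [hR2, NN_mul hχ, mul_comm (χ (1 + t))]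
    congr 1
    set w : ℚ_[p] := (τ * (ev x ρ - ρ0) + τ ^ 2 * R (τ, x)) / (1 + t) with hwdef
    have e1 : 1 + τ * ev x ρ + τ ^ 2 * R (τ, x) = (1 + t) * (1 + w) := by
      have h2 : τ * ρ0 = t := by rw [hτ, div_mul_cancel₀ _ hρ0]
      have h3 : (1 + t) * w = τ * (ev x ρ - ρ0) + τ ^ 2 * R (τ, x) := by
        rw [hwdef, mul_div_cancel₀ _ h1t0]
      rw [mul_add, mul_one, h3, ← h2]
      ring
    have e2 : ‖w‖ ≤ qr p ^ (j + 1) := by
      rw [hwdef, norm_div, h1t, div_one]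
      refine (Padic.nonarchimedean _ _).trans (max_le ?_ ?_)
      · rw [norm_mul]
        have h3 := hU2 x (hy hx)
        rw [pow_one] at h3
        calc ‖τ‖ * ‖ev x ρ - ρ0‖ ≤ ‖τ‖ * (qr p * ‖ρ0‖) :=
              mul_le_mul_of_nonneg_left h3 (norm_nonneg _)
          _ = qr p * ‖t‖ := by rw [hτn]; field_simp
          _ ≤ qr p * qr p ^ j := mul_le_mul_of_nonneg_left ht hq.le
          _ = qr p ^ (j + 1) := by rw [pow_succ]; ring
      · rw [norm_mul, norm_pow]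
        have h3 := hb1 (τ, x) ⟨by
          rw [Metric.mem_closedBall, dist_zero_right]
          exact hτ1, hx⟩
        calc ‖τ‖ ^ 2 * ‖R (τ, x)‖ ≤ ‖τ‖ ^ 2 * M1 :=
              mul_le_mul_of_nonneg_left h3 (pow_nonneg (norm_nonneg _) _)
          _ = ‖τ‖ * (‖τ‖ * M1) := by ring
          _ ≤ ‖τ‖ * (qr p * ‖ρ0‖) := mul_le_mul_of_nonneg_left
              ((mul_le_mul_of_nonneg_right hτε hM1.le).trans hε5) (norm_nonneg _)
          _ = qr p * ‖t‖ := by rw [hτn]; field_simp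
          _ ≤ qr p * qr p ^ j := mul_le_mul_of_nonneg_left ht hq.le
          _ = qr p ^ (j + 1) := by rw [pow_succ]; ring
    have e3 : ‖w‖ < 1 := e2.trans_lt (pow_lt_one₀ hq.le hq1 (by omega))
    rw [e1, NN_mul hχ]
    unfold NN
    rw [hw w e2, h1t, norm_one_add e3, Real.one_rpow]
    simp
  -- the integral
  have hbxm : ∀ u ∈ bl y.1 (k + 0), ∀ v ∈ bl y.2 k, ((u, v) : ℚ_[p] × ℚ_[p]) ∈ bx 0 y k :=
    fun u hu v hv => ⟨hu, hv⟩
  have hint : IntegrableOn (HG χ G n0 n1 s) (bl y.1 (k + 0) ×ˢ bl y.2 k)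
      ((Pool.Agent.Y230.PT.nu p).prod (Pool.Agent.Y230.PT.nu p)) :=
    (okC_HG hχ G n0 n1).int (CO_bx 0 y k) hs
  unfold ZX
  beta_reduce
  rw [bx, nu2, setIntegral_prod _ hint]
  rw [setIntegral_congr_fun (g := fun _ => (0 : ℂ)) (bl_meas _ _)]
  · simp
  intro u hu
  beta_reduce
  set φ : ℚ_[p] → ℚ_[p] := fun v => v + τ * ev (u, v) η with hφ
  have hφc : Continuous φ := continuous_id.add (continuous_const.mul
    ((ev_cont η).comp (by fun_prop)))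
  have hGm : Measurable (fun v => HG χ G n0 n1 s (u, v)) :=
    (okC_HG hχ G n0 n1 s hs).1.comp (measurable_const.prodMk measurable_id)
  have hiso := iso_int φ hφc y.2 k (fun v hv v' hv' => by
    have h3 := hQ2 u v v'
    have h4 : φ v - φ v' = (v - v') * (1 + τ * Q (u, v, v')) := by
      rw [hφ]
      beta_reduce
      linear_combination τ * h3
    rw [h4, norm_mul, norm_one_add, mul_one]
    rw [norm_mul]
    refine lt_of_le_of_lt ?_ hε3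
    exact mul_le_mul hτε (hb3 (u, v, v') ⟨hu, hv, hv'⟩) (norm_nonneg _) hε.le)
    (fun v => HG χ G n0 n1 s (u, v)) hGm
  have hball : bl (φ y.2) k = bl y.2 k := by
    refine (bl_eq (b := y.2) (c := φ y.2) (x := φ y.2) ?_ (self_bl _ _)).symm
    rw [mem_bl, hφ]
    beta_reduce
    rw [add_sub_cancel_left, norm_mul]
    exact (mul_le_mul hτε (hb2 (u, y.2) (hbxm u hu y.2 (self_bl _ _))) (norm_nonneg _)
      hε.le).trans hε2
  rw [hball] at hiso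
  have hpt : ∀ v ∈ bl y.2 k, HG χ G n0 n1 s (u, φ v) = χ (1 + t) * HG χ G n0 n1 s (u, v) := by
    intro v hv
    have hx := hbxm u hu v hv
    have h3 := hval (u, v) hx
    have h4 := hb4 τ hτ1 (lt_of_le_of_lt (mul_le_mul_of_nonneg_right hτε hM4.le) hε4) (u, v) hx
    simp only at h3 h4
    unfold HG
    simp only [hφ]
    rw [h3]
    have h5 : (((‖v + τ * ev (u, v) η‖ : ℝ) : ℂ)) ^ (n1 - 1) = ((‖v‖ : ℝ) : ℂ) ^ (n1 - 1) := by
      exact_mod_cast congrArg (fun r : ℝ => (r : ℂ)) h4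
    rw [h5]
    ring
  rw [setIntegral_congr_fun (bl_meas _ _) hpt, integral_const_mul] at hiso
  have h6 : (χ (1 + t) - 1) * ∫ v in bl y.2 k, HG χ G n0 n1 s (u, v) ∂(Pool.Agent.Y230.PT.nu p) = 0 := by
    linear_combination hiso
  rcases mul_eq_zero.1 h6 with h7 | h7
  · exact absurd (sub_eq_zero.1 h7) ht2
  · exact h7

end Pool.Agent.T6.H26.PX
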