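import Pool.Agent.T6.H26.PYB

set_option autoImplicit false
set_option linter.unusedSectionVars false
set_option linter.unusedVariables false

/-! # Highly ramified characters: the induction over the tree of blow-ups -/

namespace Pool.Agent.T6.H26.PX

open MeasureTheory Set Pool.Agent.W427.SMC Pool.Agent.Y230.PT
open scoped ENNReal
open Pool.Agent.Y230.RE

variable {p : ℕ} [Fact p.Prime]

attribute [local instance] msK bsK

theorem lvan_swap {F G : SX p} (h : ∀ χ e, IsCh χ e → ∀ C, CO C → ∀ s : ℝ, 0 ≤ s →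
    F χ C s = G χ (Prod.swap ⁻¹' C) s) {x : ℚ_[p] × ℚ_[p]} (hG : LVan G x) : LVan F x.swap :=
  LVan.homeo (Homeomorph.prodComm _ _) h hG

/-- the vanishing at a node -/
def VX (g : A ℚ_[p]) (a0 n0 a1 n1 : ℕ) : Prop :=
  LVan (fun χ => ZX (HX χ g a0 n0 a1 n1)) (0, 0)

theorem VX.swap {g : A ℚ_[p]} {a0 n0 a1 n1 : ℕ} (h : VX (sw g) a1 n1 a0 n0) :
    VX g a0 n0 a1 n1 :=
  lvan_swap (F := fun χ => ZX (HX χ g a0 n0 a1 n1)) (G := fun χ => ZX (HX χ (sw g) a1 n1 a0 n0))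
    (x := (0, 0)) (fun χ e _ C _ s _ => ZX_HX_sw g a0 n0 a1 n1 C s) h

theorem vx_of_field {g : A ℚ_[p]} {a0 n0 a1 n1 : ℕ} (η ρ : A ℚ_[p])
    (hG : Fc η (g * (MvPolynomial.X 0 ^ a0 * MvPolynomial.X 1 ^ a1)) ρ)
    (hρ : MvPolynomial.constantCoeff ρ ≠ 0) (hn : n1 = 1 ∨ ∃ μ, Fc η (MvPolynomial.X 1) μ) :
    VX g a0 n0 a1 n1 := by
  refine (van_field _ η ρ n0 n1 hG hρ hn).congr isOpen_univ trivial
    fun χ e hχ C _ _ s _ => ?_
  rw [HX_HG hχ]

theorem vx_unit1 {g : A ℚ_[p]} {a0 n0 a1 n1 : ℕ} (hg : MvPolynomial.constantCoeff g ≠ 0)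
    (ha : 1 ≤ a1) : VX g a0 n0 a1 n1 := by
  have h1 : Fc (g * MvPolynomial.X 1) (MvPolynomial.X 1) (g * MvPolynomial.pderiv 1 (MvPolynomial.X 1)) :=
    (fc_base (MvPolynomial.X 1) g).congr (mul_comm _ _) rfl rfl
  refine vx_of_field (g * MvPolynomial.X 1) _ ((fc_base g (MvPolynomial.X 1)).mul
    (((fc_X0 _).pow a0).mul (h1.pow a1))) ?_ (Or.inr ⟨_, h1⟩)
  rw [MvPolynomial.pderiv_X_self, mul_one, mul_zero, zero_add, map_add, map_mul, map_mul,
    MvPolynomial.constantCoeff_X, zero_mul, zero_add, map_natCast]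
  exact mul_ne_zero (Nat.cast_ne_zero.2 (by omega)) hg

theorem vx_unit0 {g : A ℚ_[p]} {a0 n0 a1 n1 : ℕ} (hg : MvPolynomial.constantCoeff g ≠ 0)
    (ha : 1 ≤ a0) : VX g a0 n0 a1 n1 :=
  VX.swap (vx_unit1 (by rwa [cc_sw]) ha)

theorem vx_curveV {h k : A ℚ_[p]} {a0 n0 m : ℕ} (hm : 1 ≤ m)
    (h0 : MvPolynomial.constantCoeff h = 0)
    (h1 : MvPolynomial.constantCoeff (MvPolynomial.pderiv 1 h) ≠ 0)
    (hk : MvPolynomial.constantCoeff k ≠ 0) : VX (h ^ m * k) a0 n0 0 1 := by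
  have e1 : Fc (h * k) k (h * MvPolynomial.pderiv 1 k) :=
    (fc_base k h).congr (mul_comm _ _) rfl rfl
  have e2 : Fc (h * k) ((MvPolynomial.X 1 : A ℚ_[p]) ^ 0) 0 :=
    (fc_one _).congr rfl (pow_zero _).symm rfl
  refine vx_of_field (h * k) _ ((((fc_base h k).pow m).mul e1).mul
    (((fc_X0 _).pow a0).mul e2)) ?_ (Or.inl rfl)
  rw [mul_zero, zero_add, add_zero, map_add, map_mul, map_mul, map_mul, h0, zero_mul, add_zero,
    map_natCast]
  exact mul_ne_zero (Nat.cast_ne_zero.2 (by omega)) (mul_ne_zero hk h1)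

theorem vx_curveU {h k : A ℚ_[p]} {a1 n1 m : ℕ} (hm : 1 ≤ m)
    (h0 : MvPolynomial.constantCoeff h = 0)
    (h1 : MvPolynomial.constantCoeff (MvPolynomial.pderiv 0 h) ≠ 0)
    (hk : MvPolynomial.constantCoeff k ≠ 0) : VX (h ^ m * k) 0 1 a1 n1 := by
  refine VX.swap ?_
  rw [map_mul, map_pow]
  refine vx_curveV hm ?_ ?_ ?_
  · rw [cc_sw, h0]
  · rw [pderiv_sw, cc_sw]; exact h1
  · rw [cc_sw]; exact hk

theorem cc_ch (c : ℚ_[p]) (κ : A ℚ_[p]) :
    MvPolynomial.constantCoeff (MvPolynomial.aeval (ch c) κ) = MvPolynomial.constantCoeff κ := by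
  rw [← ev_zero, ← ev_zero, ev_aeval]
  congr 1
  simp [Pool.Agent.Y230.RE.ch, ev_zero]

theorem cc_chI (κ : A ℚ_[p]) :
    MvPolynomial.constantCoeff (MvPolynomial.aeval chI κ) = MvPolynomial.constantCoeff κ := by
  rw [← ev_zero, ← ev_zero, ev_aeval]
  congr 1
  simp [chI, ev_zero]

/-- translation to a point of the exceptional curve -/
theorem HX_shift2 {χ : ℚ_[p] → ℂ} {e : ℕ} (h : IsCh χ e) (g0 gc : A ℚ_[p]) (c : ℚ_[p])
    (hg : ∀ x : ℚ_[p] × ℚ_[p], ev (x.1, c + x.2) g0 = ev x gc) (a n a1 n1 : ℕ) (s : ℝ)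
    (x : ℚ_[p] × ℚ_[p]) (hx : ‖c + x.2‖ = ‖c‖) :
    HX χ g0 a n a1 n1 s (x.1, c + x.2) = ((‖c‖ : ℝ) : ℂ) ^ (n1 - 1) *
      HX χ (gc * (MvPolynomial.X 1 + MvPolynomial.C c) ^ a1) a n 0 1 s x := by
  unfold HX
  rw [hg, ww01]
  have h1 : ww χ s a1 n1 (c + x.2) = NN χ s (c + x.2) ^ a1 * ((‖c‖ : ℝ) : ℂ) ^ (n1 - 1) := by
    unfold ww
    rw [hx]
  rw [h1, map_mul, NN_mul h, map_pow, NN_pow h, map_add, ev_X1, ev_C, add_comm x.2 c]
  ring

/-- **The induction.** -/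
theorem main_VX {g : Unit → A ℚ_[p]} {d0 d1 : Bool} (hT : KT g d0 d1) :
    ∀ κ : A ℚ_[p], MvPolynomial.constantCoeff κ ≠ 0 → ∀ a0 n0 a1 n1 : ℕ, 1 ≤ n0 → 1 ≤ n1 →
      (d0 = false → a0 = 0 ∧ n0 = 1) → (d1 = false → a1 = 0 ∧ n1 = 1) →
      (MvPolynomial.constantCoeff (g ()) = 0 ∨ 1 ≤ a0 ∨ 1 ≤ a1) →
      VX (g () * κ) a0 n0 a1 n1 := by
  induction hT with
  | unit g d0 d1 j hj =>
    intro κ hκ a0 n0 a1 n1 hn0 hn1 hd0 hd1 h
    have hcc : MvPolynomial.constantCoeff (g () * κ) ≠ 0 := by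
      rw [map_mul]
      exact mul_ne_zero hj hκ
    rcases h with h | h | h
    · exact absurd h hj
    · exact vx_unit0 hcc h
    · exact vx_unit1 hcc h
  | curveV g d0 m hm h κ' hg h0 h1 j hj =>
    intro κ hκ a0 n0 a1 n1 hn0 hn1 hd0 hd1 _
    obtain ⟨rfl, rfl⟩ := hd1 rfl
    rw [hg (), mul_assoc]
    refine vx_curveV hm h0 h1 ?_
    rw [map_mul]
    exact mul_ne_zero hj hκ
  | curveU g d1 m hm h κ' hg h0 h1 j hj =>
    intro κ hκ a0 n0 a1 n1 hn0 hn1 hd0 hd1 _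
    obtain ⟨rfl, rfl⟩ := hd0 rfl
    rw [hg (), mul_assoc]
    refine vx_curveU hm h0 h1 ?_
    rw [map_mul]
    exact mul_ne_zero hj hκ
  | blowup g d0 d1 m hm gc gI hgc hgI hne h0 hcc hI ih0 ihc ihI =>
    intro κ hκ a0 n0 a1 n1 hn0 hn1 hd0 hd1 _
    have ec : ∀ c, MvPolynomial.aeval (ch c) (g () * κ) =
        MvPolynomial.X 0 ^ m * (gc c () * MvPolynomial.aeval (ch c) κ) := by
      intro c
      rw [map_mul, hgc c ()]
      ring
    have eI : MvPolynomial.aeval chI (g () * κ) =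
        MvPolynomial.X 1 ^ m * (gI () * MvPolynomial.aeval chI κ) := by
      rw [map_mul, hgI ()]
      ring
    have e1 : ∀ χ e, IsCh χ e → G1 (HX χ (g () * κ) a0 n0 a1 n1) =
        HX χ (gc 0 () * MvPolynomial.aeval (ch 0) κ) (a0 + a1 + m) (n0 + n1) a1 n1 := by
      intro χ e hχ
      funext s x
      exact HX_c1 hχ _ _ m (ec 0) a0 n0 a1 n1 hn0 hn1 s x
    have e2 : ∀ χ e, IsCh χ e → G2 (HX χ (g () * κ) a0 n0 a1 n1) =
        HX χ (gI () * MvPolynomial.aeval chI κ) a0 n0 (a0 + a1 + m) (n0 + n1) := by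
      intro χ e hχ
      funext s x
      exact HX_c2 hχ _ _ m eI a0 n0 a1 n1 hn0 hn1 s x
    refine LVan.blow (F1 := fun χ => ZX (G1 (HX χ (g () * κ) a0 n0 a1 n1)))
      (F2 := fun χ => ZX (G2 (HX χ (g () * κ) a0 n0 a1 n1)))
      (fun χ e hχ => addF_ZX (okC_HX hχ _ _ _ _ _).G1)
      (fun χ e hχ L C hC s hs => ZX_blow L (okC_HX hχ _ _ _ _ _) hC hs) ?_ ?_
    · intro c
      by_cases hc0 : c = 0
      · subst hc0
        have hIH := ih0 (MvPolynomial.aeval (ch 0) κ) (by rw [cc_ch]; exact hκ) (a0 + a1 + m)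
          (n0 + n1) a1 n1 (by omega) hn1 (fun h => absurd h (by decide)) hd1
          (Or.inr (Or.inl (by omega)))
        refine hIH.congr isOpen_univ trivial fun χ e hχ C _ _ s _ => ?_
        rw [e1 χ e hχ]
      · have hIH := ihc c hc0 (MvPolynomial.aeval (ch c) κ *
          (MvPolynomial.X 1 + MvPolynomial.C c) ^ a1) (by
            rw [map_mul, cc_ch, map_pow, map_add, MvPolynomial.constantCoeff_X,
              MvPolynomial.constantCoeff_C, zero_add]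
            exact mul_ne_zero hκ (pow_ne_zero _ hc0)) (a0 + a1 + m) (n0 + n1) 0 1 (by omega)
          le_rfl (fun h => absurd h (by decide)) (fun _ => ⟨rfl, rfl⟩)
          (Or.inr (Or.inl (by omega)))
        have h3 : LVan (fun χ => ZX (fun s x => G1 (HX χ (g () * κ) a0 n0 a1 n1) s
            (x.1, c + x.2))) (0, 0) := by
          have hcn : 0 < ‖c‖ := norm_pos_iff.2 hc0
          refine (hIH.mul (fun χ s => ((‖c‖ : ℝ) : ℂ) ^ (n1 - 1))).congr
            (V := Prod.snd ⁻¹' Metric.ball 0 ‖c‖)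
            (Metric.isOpen_ball.preimage continuous_snd) (Metric.mem_ball_self hcn)
            fun χ e hχ C hC hCV s hs => ?_
          unfold ZX
          rw [← integral_const_mul]
          refine setIntegral_congr_fun hC.meas fun x hx => ?_
          beta_reduce
          rw [e1 χ e hχ, HX_shift2 hχ _ (gc c () * MvPolynomial.aeval (ch c) κ) c, mul_assoc]
          · intro x
            have h5 : gc c () * MvPolynomial.aeval (ch c) κ = MvPolynomial.aeval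
                ![MvPolynomial.X 0, MvPolynomial.X 1 + MvPolynomial.C c]
                (gc 0 () * MvPolynomial.aeval (ch 0) κ) := ch_shift1 (ec 0) (ec c)
            rw [h5, ev_shift]
          · have h6 := hCV hx
            rw [Set.mem_preimage, Metric.mem_ball, dist_zero_right] at h6
            rw [Padic.add_eq_max_of_ne h6.ne', max_eq_left h6.le]
        have h4 := LVan.homeo (F := fun χ => ZX (G1 (HX χ (g () * κ) a0 n0 a1 n1)))
          (shV (fun _ => c) continuous_const) (fun χ e hχ C hC s hs =>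
            ZX_shearV _ (okC_HX hχ _ _ _ _ _).G1 (fun _ => c) continuous_const hC hs) h3
        have h5 : (shV (fun _ : ℚ_[p] => c) continuous_const) ((0, 0) : ℚ_[p] × ℚ_[p]) =
            (0, c) := by
          change ((0 : ℚ_[p]), c + 0) = (0, c)
          rw [add_zero]
        rwa [h5] at h4
    · have hIH := ihI (MvPolynomial.aeval chI κ) (by rw [cc_chI]; exact hκ) a0 n0
        (a0 + a1 + m) (n0 + n1) hn0 (by omega) hd0 (fun h => absurd h (by decide))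
        (Or.inr (Or.inr (by omega)))
      refine hIH.congr isOpen_univ trivial fun χ e hχ C _ _ s _ => ?_
      rw [e2 χ e hχ]

/-- **The vanishing at a zero of a polynomial.** -/
theorem van_origin (g : A ℚ_[p]) (hg : g ≠ 0) (h0 : MvPolynomial.constantCoeff g = 0) :
    LVan (fun χ => ZX (HX χ g 0 1 0 1)) (0, 0) := by
  have hT : KT (fun _ : Unit => g) false false :=
    exists_KT _ false false ⟨(), hg⟩ (by simp) (by simp)
  have h := main_VX hT 1 (by simp) 0 1 0 1 le_rfl le_rfl (fun _ => ⟨rfl, rfl⟩)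
    (fun _ => ⟨rfl, rfl⟩) (Or.inl h0)
  rw [mul_one] at h
  exact h

end Pool.Agent.T6.H26.PX
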