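import Pool.Agent.T6.H26.PYC
import Pool.Agent.T6.H26.PXT
import Pool.Agent.T6.H26.Null

set_option autoImplicit false
set_option linter.unusedSectionVars false
set_option linter.unusedVariables false

/-! # The exponential integrals over the neighbourhood of a zero of a plane curve -/

namespace Pool.Agent.T6.H26.PX

open MeasureTheory Set Pool.Agent.W427.SMC Pool.Agent.Y230.PT Pool.Agent.Y230.PS
open Pool.Agent.Y230.TH
open Pool.Agent.W574.SM (IsFunctionalEq)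
open Pool.Agent.W574.RO Pool.Agent.W574.CN Pool.Agent.Y230.RE Pool.Agent.Y230.PL
open Pool.Agent.H628R4.TP (IsBFunction)
open scoped ENNReal

variable {p : ℕ} [Fact p.Prime]

attribute [local instance] msZ bsZ msK bsK nz

/-- `r` is a root of multiplicity at least `m` of all functional equations -/
def FB {σ : Type} (F : MvPolynomial σ ℂ) (r : ℂ) (m : ℕ) : Prop :=
  ∀ b : Polynomial ℂ, IsBFunction F b → (Polynomial.X - Polynomial.C r) ^ m ∣ b

/-- the poles of the exponential sums -/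
noncomputable def mC {σ : Type} (φ : ℚ_[p] →+* ℂ) (f : MvPolynomial σ ℚ_[p]) (T : ℂ) : ℕ∞ :=
  open Classical in if FB (MvPolynomial.map φ f) ((rr p T : ℝ) : ℂ) (1 + dl ((rr p T : ℝ) : ℂ))
    then ⊤ else 0

theorem mC_top {σ : Type} {φ : ℚ_[p] →+* ℂ} {f : MvPolynomial σ ℚ_[p]} {T : ℂ}
    (h : FB (MvPolynomial.map φ f) ((rr p T : ℝ) : ℂ) (1 + dl ((rr p T : ℝ) : ℂ))) :
    mC φ f T = ⊤ := by
  unfold mC
  rw [if_pos h]

theorem mC_zero {σ : Type} {φ : ℚ_[p] →+* ℂ} {f : MvPolynomial σ ℚ_[p]} {T : ℂ}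
    (h : ¬ FB (MvPolynomial.map φ f) ((rr p T : ℝ) : ℂ) (1 + dl ((rr p T : ℝ) : ℂ))) :
    mC φ f T = 0 := by
  unfold mC
  rw [if_neg h]

/-! ### Regularity on compact open sets -/

theorem fe_unit (φ : ℚ_[p] →+* ℂ) (f : A ℚ_[p]) (b : Polynomial ℂ)
    (hb : IsBFunction (MvPolynomial.map φ f) b) :
    IsFunctionalEq (fun _ : Unit => mp φ f) b := by
  refine functionalEq_equiv (Equiv.refl (Fin 2)) (Equiv.ofUnique Unit (Fin 1)) _ _
    (fun j => ?_) b (single_of_isB _ b hb)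
  rw [Equiv.coe_refl, MvPolynomial.rename_id_apply]
  rfl

theorem reg_clop {χ : ℚ_[p] → ℂ} {e : ℕ} (hχ : IsCh χ e) (φ : ℚ_[p] →+* ℂ) (f : A ℚ_[p])
    (hf : f ≠ 0) {C : Set (ℚ_[p] × ℚ_[p])} (hC : CO C) (T : ℂ) (hT : T ≠ 0)
    (hM : ‖T‖ ≤ 1 ∨ (¬ FB (MvPolynomial.map φ f) ((rr p T : ℝ) : ℂ)
      (1 + dl ((rr p T : ℝ) : ℂ)) ∧ ¬ CritX χ T 1 1)) :
    Reg p T 0 (ZX (HX χ f 0 1 0 1) C) := by
  refine LReg.glue (addF_ZX (okC_HX hχ f 0 1 0 1)) hC fun x _ => lregX_pt hχ (fun _ => f) x ?_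
  by_cases hT1 : ‖T‖ ≤ 1
  · exact local_sm hχ hT hT1 (fun _ => f) ⟨(), hf⟩ ![x.1, x.2]
  · obtain ⟨hN, hcr⟩ := hM.resolve_left hT1
    unfold FB at hN
    push Not at hN
    obtain ⟨b, hb, hnd⟩ := hN
    have hb' := fe_unit φ f b hb
    by_cases hr : ((rr p T : ℝ) : ℂ) = -1
    · rw [hr, dl_m1] at hnd
      have hb0 : b ≠ 0 := by
        rintro rfl
        exact hnd (dvd_zero _)
      refine local_m1 hχ φ (fun _ => f) b hb0 hb' hT (rr_norm T (not_le.1 hT1) hr) ?_ hcr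
        ![x.1, x.2] ⟨(), hf⟩
      by_contra h
      exact hnd ((Polynomial.le_rootMultiplicity_iff hb0).1 (by omega))
    · rw [dl_ne hr, add_zero, pow_one, Polynomial.dvd_iff_isRoot] at hnd
      exact local_CX hχ φ (fun _ => f) b hb' hT hnd ![x.1, x.2] ⟨(), hf⟩

theorem reg_p (φ : ℚ_[p] →+* ℂ) (f : A ℚ_[p])
    (hf : f ≠ 0) {C : Set (ℚ_[p] × ℚ_[p])} (hC : CO C)
    (hM : ¬ FB (MvPolynomial.map φ f) (-1) 2) :
    Reg p (p : ℂ) 1 (Zc (Hn (fun _ : Unit => f) 0 1 0 1) C) := by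
  unfold FB at hM
  push Not at hM
  obtain ⟨b, hb, hnd⟩ := hM
  have hb' := fe_unit φ f b hb
  have hb0 : b ≠ 0 := by
    rintro rfl
    exact hnd (dvd_zero _)
  have hp0 : (p : ℂ) ≠ 0 := by exact_mod_cast (Fact.out : p.Prime).ne_zero
  have hrr : ((rr p (p : ℂ) : ℝ) : ℂ) = -1 := by rw [rr_self]; push_cast; rfl
  refine LReg.glue (addF_Zc (ok_Hn (fun _ : Unit => f) 0 1 0 1)) hC fun x _ =>
    lreg_pt (fun _ : Unit => f) x ((local_M φ (fun _ : Unit => f) b hb0 hb' hp0 ![x.1, x.2]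
      ⟨(), hf⟩).mono ?_)
  rw [hrr]
  by_contra h
  exact hnd ((Polynomial.le_rootMultiplicity_iff hb0).1 (by omega))

/-! ### The measure spaces -/

/-- the point of `ℚ_p ^ 2` -/
noncomputable def pb (x : Fin 2 → ℤ_[p]) : ℚ_[p] × ℚ_[p] := (inc p (x 0), inc p (x 1))

theorem pb_cont : Continuous (pb (p := p)) :=
  (inc_cont.comp (continuous_apply 0)).prodMk (inc_cont.comp (continuous_apply 1))

theorem res_ub_pb : (nu2 p).restrict ub = (Measure.pi fun _ : Fin 2 => mu p).map pb := by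
  rw [res_ub]
  have hmp := measurePreserving_finTwoArrow (mu p)
  have hinc : Measurable (inc p) := inc_cont.measurable
  have hm2 : Measurable (fun z : ℤ_[p] × ℤ_[p] => (inc p z.1, inc p z.2)) :=
    (hinc.comp measurable_fst).prodMk (hinc.comp measurable_snd)
  rw [← hmp.map_eq, Measure.map_map hm2 hmp.measurable]
  rfl

theorem res_C {C : Set (ℚ_[p] × ℚ_[p])} (hC : CO C) (hCu : C ⊆ ub) :
    (nu2 p).restrict C = ((Measure.pi fun _ : Fin 2 => mu p).restrict (pb ⁻¹' C)).map pb := by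
  have h1 : (nu2 p).restrict C = ((nu2 p).restrict ub).restrict C := by
    rw [Measure.restrict_restrict hC.meas, Set.inter_eq_self_of_subset_left hCu]
  rw [h1, res_ub_pb, Measure.restrict_map pb_cont.measurable hC.meas]

section piece

variable (φ : ℚ_[p] →+* ℂ) (f : A ℚ_[p]) (G : (Fin 2 → ℤ_[p]) → ℤ_[p])

theorem Zx_piece {χ : ℚ_[p] → ℂ} {e : ℕ} (hχ : IsCh χ e) (hG : ∀ x, inc p (G x) = ev (pb x) f)
    {C : Set (ℚ_[p] × ℚ_[p])} (hC : CO C) (hCu : C ⊆ ub) (s : ℝ) (hs : 0 ≤ s) :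
    Zx (ProbabilityTheory.cond (Measure.pi fun _ : Fin 2 => mu p) (pb ⁻¹' C)) G χ s =
      (((Measure.pi fun _ : Fin 2 => mu p) (pb ⁻¹' C))⁻¹.toReal : ℂ) *
        ZX (HX χ f 0 1 0 1) C s := by
  unfold Zx ZX ProbabilityTheory.cond
  rw [integral_smul_measure, res_C hC hCu, integral_map pb_cont.measurable.aemeasurable
    (okC_HX hχ f 0 1 0 1 s hs).1.aestronglyMeasurable, Complex.real_smul]
  congr 1
  refine integral_congr_ae (Filter.Eventually.of_forall fun x => ?_)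
  beta_reduce
  unfold HX
  rw [ww01, ww01, mul_one, mul_one]
  have h3 : ‖G x‖ = ‖inc p (G x)‖ := rfl
  rw [h3, hG x]
  rfl

theorem FZ_piece (hG : ∀ x, inc p (G x) = ev (pb x) f)
    {C : Set (ℚ_[p] × ℚ_[p])} (hC : CO C) (hCu : C ⊆ ub) (s : ℝ) (hs : 0 ≤ s) :
    FZ (ProbabilityTheory.cond (Measure.pi fun _ : Fin 2 => mu p) (pb ⁻¹' C))
      (fun x => ‖G x‖) s = (((Measure.pi fun _ : Fin 2 => mu p) (pb ⁻¹' C))⁻¹.toReal : ℂ) *
        Zc (Hn (fun _ : Unit => f) 0 1 0 1) C s := by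
  unfold FZ Zc ProbabilityTheory.cond
  rw [lintegral_smul_measure, res_C hC hCu, lintegral_map (ok_Hn (fun _ : Unit => f) 0 1 0 1 s
    hs).1 pb_cont.measurable, smul_eq_mul, ENNReal.toReal_mul]
  push_cast
  congr 2
  congr 1
  refine lintegral_congr fun x => ?_
  unfold Hn mx
  rw [w01, w01, mul_one, mul_one, ciSup_const, ← hG x]
  have h3 : ‖G x‖ = ‖inc p (G x)‖ := rfl
  rw [h3]
  rw [← ENNReal.ofReal_toReal (N_ne_top s (inc p (G x))), N_toReal]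

theorem FZ_Zx {Ω : Type} [MeasurableSpace Ω] (μ : Measure Ω) [IsProbabilityMeasure μ]
    (G : Ω → ℤ_[p]) (hG : Measurable G) (hn : μ {x | G x = 0} = 0) (s : ℝ) (hs : 0 ≤ s) :
    FZ μ (fun x => ‖G x‖) s = Zx μ G (ch1 p) s := by
  unfold FZ Zx
  have h1 : ∫ x, ((‖G x‖ ^ s : ℝ)) ∂μ = (∫⁻ x, ENNReal.ofReal (‖G x‖ ^ s) ∂μ).toReal := by
    refine integral_eq_lintegral_of_nonneg_ae (Filter.Eventually.of_forall fun x =>
      Real.rpow_nonneg (norm_nonneg _) _) ?_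
    exact (hG.norm.pow_const s).aestronglyMeasurable
  rw [← h1, ← integral_complex_ofReal]
  refine integral_congr_ae ?_
  have h2 : ∀ᵐ x ∂μ, G x ≠ 0 := by
    rw [ae_iff]
    simpa using hn
  filter_upwards [h2] with x hx
  have h3 : inc p (G x) ≠ 0 := fun h => hx (inc_inj (by rw [h]; simp [inc]))
  unfold ch1
  rw [if_neg h3, one_mul]

theorem Sx_zero {Ω : Type} [MeasurableSpace Ω] (μ : Measure Ω) [IsProbabilityMeasure μ]
    (G : Ω → ℤ_[p]) (hG : Measurable G) {χ : ℚ_[p] → ℂ} {e : ℕ} (hχ : IsCh χ e)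
    (h : ∀ s : ℝ, 0 < s → Zx μ G χ s = 0) (N : ℕ) : Sx μ G χ N = 0 := by
  have h1 : ser (Sx μ G χ) = 0 := by
    refine Conv.zero_of ?_
    refine (Sx_conv μ G hχ hG).congr fun t h0 h1 => ?_
    obtain ⟨s, hs, rfl⟩ := exists_s p t h0 h1
    rw [(Zx_sum μ G hχ hG s hs).tsum_eq, h s hs]
  have h2 := congrArg (PowerSeries.coeff N) h1
  rwa [coeff_ser, map_zero] at h2

end piece

end Pool.Agent.T6.H26.PX
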