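import Pool.Agent.T6.H26.PYD

set_option autoImplicit false
set_option linter.unusedSectionVars false
set_option linter.unusedVariables false

/-! # The exponential integrals over the neighbourhood of a zero of a plane curve, continued -/

namespace Pool.Agent.T6.H26.PX

open MeasureTheory Set Pool.Agent.W427.SMC Pool.Agent.Y230.PT Pool.Agent.Y230.PS
open Pool.Agent.Y230.TH
open Pool.Agent.W574.SM (IsFunctionalEq)
open Pool.Agent.W574.RO Pool.Agent.W574.CN Pool.Agent.Y230.RE Pool.Agent.Y230.PL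
open Pool.Agent.H628R4.TP (IsBFunction)
open scoped ENNReal

variable {p : ℕ} [Fact p.Prime]

attribute [local instance] msZ bsZ msK bsK nz

/-- the character is not trivial near `1` -/
def Rz {c : ℕ} (θ : DirichletCharacter ℂ (p ^ c)) (e1 : ℕ) : Prop :=
  ∃ t : ℤ_[p], ‖t‖ ≤ ((p : ℝ)⁻¹) ^ e1 ∧ cv θ (1 + t) ≠ 1

theorem cv_invmul {c : ℕ} (θ : DirichletCharacter ℂ (p ^ c)) {v : ℤ_[p]} (hv : ‖v‖ = 1) :
    cv θ⁻¹ v * cv θ v = 1 := by
  unfold cv
  rw [← MulChar.mul_apply, inv_mul_cancel, MulChar.one_apply (unit_of_one hv)]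

theorem near_norm {t : ℤ_[p]} {e1 : ℕ} (he : 1 ≤ e1) (ht : ‖t‖ ≤ ((p : ℝ)⁻¹) ^ e1) :
    ‖1 + t‖ = 1 := by
  obtain ⟨b, hb⟩ := (le_iff_dvd p e1 t).1 ht
  rw [hb]
  exact uo_norm he b

theorem Rz.inv {c : ℕ} {θ : DirichletCharacter ℂ (p ^ c)} {e1 : ℕ} (he : 1 ≤ e1) (h : Rz θ e1) :
    Rz θ⁻¹ e1 := by
  obtain ⟨t, ht, h1⟩ := h
  refine ⟨t, ht, fun h2 => h1 ?_⟩
  have h3 := cv_invmul θ (near_norm he ht)
  rwa [h2, one_mul] at h3

theorem Rz.ne_one {c : ℕ} {θ : DirichletCharacter ℂ (p ^ c)} {e1 : ℕ} (he : 1 ≤ e1)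
    (h : Rz θ e1) : θ ≠ 1 := by
  rintro rfl
  obtain ⟨t, ht, h1⟩ := h
  apply h1
  unfold cv
  exact MulChar.one_apply (unit_of_one (near_norm he ht))

theorem Rz.ram {c : ℕ} {θ : DirichletCharacter ℂ (p ^ c)} {e0 e1 : ℕ} (he : 1 ≤ e1)
    (he0 : e0 ≤ e1) (h : Rz θ e1) : Ram (chD θ) e0 := by
  obtain ⟨t, ht, h1⟩ := h
  refine ⟨inc p t, ?_, ?_⟩
  · have h2 : ‖inc p t‖ = ‖t‖ := rfl
    rw [h2]
    exact ht.trans (pow_le_pow_of_le_one (pinv_pos p).le pinv_lt.le he0)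
  · have h2 := chD_val θ (N := 0) (near_norm he ht)
    rw [pow_zero, one_mul] at h2
    have h3 : inc p (1 + t) = 1 + inc p t := by simp [inc]
    rw [h3] at h2
    rwa [h2]

/-- characters which are trivial near `1` -/
theorem cv_near {c : ℕ} {θ : DirichletCharacter ℂ (p ^ c)} {e1 : ℕ} (h : ¬ Rz θ e1)
    {u v : ℤ_[p]} (hv : ‖v‖ = 1) (huv : ‖u - v‖ ≤ ((p : ℝ)⁻¹) ^ e1) : cv θ u = cv θ v := by
  obtain ⟨w, hw⟩ := PadicInt.isUnit_iff.2 hv
  set t : ℤ_[p] := (u - v) * ((w⁻¹ : ℤ_[p]ˣ) : ℤ_[p]) with ht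
  have e : u = v * (1 + t) := by
    rw [ht, ← hw]
    have : (w : ℤ_[p]) * ((w⁻¹ : ℤ_[p]ˣ) : ℤ_[p]) = 1 := Units.mul_inv w
    linear_combination (-(u - (w : ℤ_[p]))) * this
  have h1 : ‖t‖ ≤ ((p : ℝ)⁻¹) ^ e1 := by
    rw [ht, norm_mul, PadicInt.isUnit_iff.1 (w⁻¹).isUnit, mul_one]
    exact huv
  unfold Rz at h
  push Not at h
  rw [e, cv_mul, h t h1, mul_one]

section gen

variable {Ω : Type} [MeasurableSpace Ω] (μ : Measure Ω) [IsProbabilityMeasure μ] (G : Ω → ℤ_[p])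

theorem Ea_const {c : ℕ} (u : ℤ_[p]) (m : ℕ)
    (h : ∀ y : ℤ_[p], Et μ G (u + (p : ℤ_[p]) ^ c * y) m = Et μ G u m) :
    Ea μ G c u m = Et μ G u m := by
  unfold Ea
  simp only [h]
  rw [integral_const]
  simp

/-- **Local constancy.** -/
theorem Et_const (hG : Measurable G) {e1 : ℕ}
    (h : ∀ c, 1 ≤ c → ∀ θ : DirichletCharacter ℂ (p ^ c), Rz θ e1 → ∀ m, Af μ G θ m = 0)
    (u v : ℤ_[p]) (hu : ‖u‖ = 1) (hv : ‖v‖ = 1) (huv : ‖u - v‖ ≤ ((p : ℝ)⁻¹) ^ e1) (m : ℕ) :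
    Et μ G u m = Et μ G v m := by
  have hL := Et_loc μ G
  have hc : 1 ≤ m + 1 := by omega
  have key : ∀ w : ℤ_[p], Ea μ G (m + 1) w m = Et μ G w m := by
    intro w
    refine Ea_const μ G w m fun y => hL.loc m _ _ ?_
    rw [add_sub_cancel_left, norm_mul, norm_p_pow]
    refine (mul_le_of_le_one_right (pow_nonneg (pinv_pos p).le _)
      (PadicInt.norm_le_one y)).trans ?_
    exact pow_le_pow_of_le_one (pinv_pos p).le pinv_lt.le (by omega)
  rw [← key u, ← key v, Ea_eq μ G hG hc u hu, Ea_eq μ G hG hc v hv]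
  congr 1
  refine Finset.sum_congr rfl fun θ _ => ?_
  by_cases hθ : Rz θ e1
  · rw [h (m + 1) hc θ hθ m, mul_zero, mul_zero]
  · congr 1
    have e1' := cv_near hθ hv huv
    have inv1 : ∀ w : ℤ_[p], ‖w‖ = 1 → θ (PadicInt.toZModPow (m + 1) w)⁻¹ = (cv θ w)⁻¹ := by
      intro w hw
      refine eq_inv_of_mul_eq_one_left ?_
      unfold cv
      rw [← map_mul, ZMod.inv_mul_of_unit _ (unit_of_one hw), map_one]
    rw [inv1 u hu, inv1 v hv, e1']

theorem Af_zero (hG : Measurable G) {c : ℕ} (hc : 1 ≤ c) (θ : DirichletCharacter ℂ (p ^ c))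
    (hθ : θ ≠ 1) (h : ∀ N, Sx μ G (chD θ⁻¹) N = 0) (m : ℕ) : Af μ G θ m = 0 := by
  rw [Af_sum μ G hG θ hc hθ m]
  refine Finset.sum_eq_zero fun j _ => ?_
  split_ifs
  · rw [h, mul_zero]
  · rfl

end gen

theorem GoodE.const_mul {M : ℂ → ℕ∞} {E : ℤ_[p] → ℕ → ℂ} (h : GoodE p M E) (a : ℂ) :
    GoodE p M (fun u m => a * E u m) := by
  obtain ⟨c, h1, h2⟩ := h
  refine ⟨c, fun u v hu hv huv m => by
    beta_reduce
    rw [h1 u v hu hv huv m], fun u hu => ?_⟩
  exact (EP M).smul_mem a (h2 u hu)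

theorem GoodE.zero {M : ℂ → ℕ∞} : GoodE p M (fun _ _ => 0) :=
  ⟨0, fun _ _ _ _ _ _ => rfl, fun _ _ => (EP M).zero_mem⟩

theorem ch1_ncrit {T : ℂ} (hT : T ≠ p) : ¬ CritX (ch1 p) T 1 1 := by
  intro h
  have h1 := h.1
  unfold Crit at h1
  rw [pow_one, pow_one] at h1
  exact hT h1

/-- **The exponential integral over a compact open set near a zero.** -/
theorem good_piece (φ : ℚ_[p] →+* ℂ) (f : A ℚ_[p]) (hf : f ≠ 0)
    (G : (Fin 2 → ℤ_[p]) → ℤ_[p]) (hGm : Measurable G) (hG : ∀ x, inc p (G x) = ev (pb x) f)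
    {C : Set (ℚ_[p] × ℚ_[p])} (hC : CO C) (hCu : C ⊆ ub)
    (hV : VC (fun χ => ZX (HX χ f 0 1 0 1)) C) :
    GoodE p (Pool.Agent.Y230.PS.tr (mC φ f))
      (fun u m => ∫ x in pb ⁻¹' C, ch p m (u * G x) ∂(Measure.pi fun _ : Fin 2 => mu p)) := by
  set S : Set (Fin 2 → ℤ_[p]) := pb ⁻¹' C with hSdef
  set π := (Measure.pi fun _ : Fin 2 => mu p) with hπ
  by_cases hS : π S = 0
  · refine GoodE.zero.congr fun u _ m => ?_
    rw [Measure.restrict_eq_zero.2 hS, integral_zero_measure]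
  have hprob : IsProbabilityMeasure (ProbabilityTheory.cond π S) :=
    ProbabilityTheory.cond_isProbabilityMeasure hS
  set μ := ProbabilityTheory.cond π S with hμ
  have hSt : π S ≠ ⊤ := (measure_lt_top π S).ne
  have hE : ∀ u m, (π S).toReal * Et μ G u m = ∫ x in S, ch p m (u * G x) ∂π := by
    intro u m
    unfold Et
    rw [hμ]
    unfold ProbabilityTheory.cond
    rw [integral_smul_measure, Complex.real_smul, ← mul_assoc, ENNReal.toReal_inv]
    have h0 : (π S).toReal ≠ 0 := (ENNReal.toReal_pos hS hSt).ne'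
    have h1 : (((π S).toReal : ℝ) : ℂ) * ((((π S).toReal)⁻¹ : ℝ) : ℂ) = 1 := by
      rw [← Complex.ofReal_mul, mul_inv_cancel₀ h0, Complex.ofReal_one]
    rw [h1, one_mul]
  refine GoodE.congr ?_ fun u _ m => hE u m
  refine GoodE.const_mul ?_ _
  -- the zero set
  have hn : μ {x | G x = 0} = 0 := by
    have h1 : π {x | G x = 0} = 0 := by
      refine measure_mono_null ?_ (null_mv f hf)
      intro x hx
      have hx' : G x = 0 := hx
      have h2 := hG x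
      rw [hx'] at h2
      rw [Set.mem_ofPred_eq]
      have h3 : MvPolynomial.eval (fun i => inc p (x i)) f = ev (pb x) f := by
        unfold ev pb
        congr 1
        congr 1
        funext i
        fin_cases i <;> rfl
      rw [h3, ← h2]
      simp [inc]
    rw [hμ]
    exact ProbabilityTheory.cond_absolutelyContinuous h1
  obtain ⟨e0, hV⟩ := hV
  set e1 := max e0 1 with he1
  have he1' : 1 ≤ e1 := le_max_right _ _
  have he01 : e0 ≤ e1 := le_max_left _ _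
  have hchar : ∀ c, 1 ≤ c → ∀ θ : DirichletCharacter ℂ (p ^ c), Rz θ e1 → ∀ m,
      Af μ G θ m = 0 := by
    intro c hc θ hθ m
    refine Af_zero μ G hGm hc θ (hθ.ne_one he1') (fun N => ?_) m
    refine Sx_zero μ G hGm (isCh_chD θ⁻¹ hc) (fun s hs => ?_) N
    have h1 := hV (chD θ⁻¹) c (isCh_chD θ⁻¹ hc) ((hθ.inv he1').ram he1' he01) s hs.le
    beta_reduce at h1
    rw [hμ, Zx_piece f G (isCh_chD θ⁻¹ hc) hG hC hCu s hs.le, h1, mul_zero]
  have hA : ∀ c, 1 ≤ c → ∀ θ : DirichletCharacter ℂ (p ^ c),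
      Af μ G θ ∈ EP (Pool.Agent.Y230.PS.tr (mC φ f)) := by
    intro c hc θ
    by_cases hθ : θ = 1
    · subst hθ
      refine Af_one μ G hGm hc (M1 := Pool.Agent.Y230.PS.tr fun T => mC φ f T +
        (if T = (p : ℂ) then 1 else 0)) (Vc_mem μ _ hGm.norm (fun x => val_norm G x) ?_) ?_
      · have hreg : ∀ T : ℂ, T ≠ 0 → (‖T‖ ≤ 1 ∨ (¬ FB (MvPolynomial.map φ f)
            ((rr p T : ℝ) : ℂ) (1 + dl ((rr p T : ℝ) : ℂ)) ∧ T ≠ p)) →
            Reg p T 0 (FZ μ (fun x => ‖G x‖)) := by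
          intro T hT hT2
          have h1 := reg_clop (isCh_one (p := p)) φ f hf hC T hT (hT2.imp_right fun h =>
            ⟨h.1, ch1_ncrit h.2⟩)
          refine ((Reg.const (((π S)⁻¹.toReal : ℝ) : ℂ)).mul0 h1).congr fun s hs => ?_
          rw [FZ_Zx μ G hGm hn s hs, hμ, Zx_piece f G isCh_one hG hC hCu s hs]
        obtain ⟨D, P, hD, h1, h2⟩ := exists_ratX (FZ μ (fun x => ‖G x‖))
          (fun T0 hT0 hT1 => hreg T0 hT0 (Or.inl hT1))
        refine FR_of_rat D P hD h1 fun T hT => ?_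
        unfold Pool.Agent.Y230.PS.tr
        by_cases hT1 : ‖T‖ ≤ 1
        · rw [if_pos hT1]
          exact_mod_cast h2 T hT 0 (hreg T hT (Or.inl hT1))
        rw [if_neg hT1]
        beta_reduce
        by_cases hTp : T = (p : ℂ)
        · rw [if_pos hTp]
          subst hTp
          by_cases hF : FB (MvPolynomial.map φ f) ((rr p (p : ℂ) : ℝ) : ℂ)
              (1 + dl ((rr p (p : ℂ) : ℝ) : ℂ))
          · rw [mC_top hF]
            simp
          · rw [mC_zero hF, zero_add]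
            have hrr : ((rr p (p : ℂ) : ℝ) : ℂ) = -1 := by rw [rr_self]; push_cast; rfl
            rw [hrr, dl_m1] at hF
            have h3 : Reg p (p : ℂ) 1 (FZ μ (fun x => ‖G x‖)) := by
              refine ((Reg.const (((π S)⁻¹.toReal : ℝ) : ℂ)).mul0
                (reg_p φ f hf hC hF)).congr fun s hs => ?_
              rw [hμ, FZ_piece f G hG hC hCu s hs]
            exact_mod_cast h2 _ hT 1 h3
        · rw [if_neg hTp, add_zero]
          by_cases hF : FB (MvPolynomial.map φ f) ((rr p T : ℝ) : ℂ)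
              (1 + dl ((rr p T : ℝ) : ℂ))
          · rw [mC_top hF]
            exact le_top
          · rw [mC_zero hF]
            exact_mod_cast h2 T hT 0 (hreg T hT (Or.inr ⟨hF, hTp⟩))
      · intro T hT
        unfold Pool.Agent.Y230.PS.tr
        by_cases hT1 : ‖T‖ ≤ 1
        · simp [hT1]
        · simp only [if_neg hT1]
          split_ifs with h
          · simp
          · simp
    · refine Af_mem μ G hGm θ hc hθ ?_
      have hθ' : θ⁻¹ ≠ 1 := inv_ne_one.2 hθ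
      have hχ := isCh_chD θ⁻¹ hc
      have hreg : ∀ T : ℂ, T ≠ 0 → (‖T‖ ≤ 1 ∨ ¬ FB (MvPolynomial.map φ f)
          ((rr p T : ℝ) : ℂ) (1 + dl ((rr p T : ℝ) : ℂ))) →
          Reg p T 0 (ZX (HX (chD θ⁻¹) f 0 1 0 1) C) := fun T hT hT2 =>
        reg_clop hχ φ f hf hC T hT (hT2.imp_right fun h => ⟨h, chD_ncrit θ⁻¹ hc hθ' T⟩)
      obtain ⟨D, P, hD, h1, h2⟩ := exists_ratX (ZX (HX (chD θ⁻¹) f 0 1 0 1) C)
        (fun T0 hT0 hT1 => hreg T0 hT0 (Or.inl hT1))
      refine Sx_mem μ G hχ hGm D (Polynomial.C (((π S)⁻¹.toReal : ℂ)) * P) hD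
        (fun s hs => ?_) (fun T hT => ?_)
      · rw [hμ, Zx_piece f G hχ hG hC hCu s hs.le, Polynomial.eval_mul, Polynomial.eval_C,
          ← h1 s hs.le]
        ring
      · unfold Pool.Agent.Y230.PS.tr
        split_ifs with hT1
        · exact_mod_cast h2 T hT 0 (hreg T hT (Or.inl hT1))
        · by_cases hF : FB (MvPolynomial.map φ f) ((rr p T : ℝ) : ℂ)
              (1 + dl ((rr p T : ℝ) : ℂ))
          · rw [mC_top hF]
            exact le_top
          · rw [mC_zero hF]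
            exact_mod_cast h2 T hT 0 (hreg T hT (Or.inr hF))
  refine ⟨e1, fun u v hu hv huv m => Et_const μ G hGm hchar u v hu hv huv m, fun u hu => ?_⟩
  have e : Et μ G u = ((p : ℂ) ^ e1 * ((p ^ e1).totient : ℂ)⁻¹) •
      ∑ θ : DirichletCharacter ℂ (p ^ e1), (θ (PadicInt.toZModPow e1 u)⁻¹) • Af μ G θ := by
    funext m
    have h1 : Ea μ G e1 u m = Et μ G u m := by
      refine Ea_const μ G u m fun y => ?_
      refine Et_const μ G hGm hchar _ u ((unit_add e1 he1' u y).2 hu) hu ?_ m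
      rw [add_sub_cancel_left, norm_mul, norm_p_pow]
      exact mul_le_of_le_one_right (pow_nonneg (pinv_pos p).le _) (PadicInt.norm_le_one y)
    rw [← h1, Ea_eq μ G hGm he1' u hu, Pi.smul_apply, Finset.sum_apply]
    rfl
  rw [e]
  exact Submodule.smul_mem _ _ (Submodule.sum_mem _ fun θ _ =>
    Submodule.smul_mem _ _ (hA e1 he1' θ))

end Pool.Agent.T6.H26.PX
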