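import Pool.Agent.T6.H26.PYE

set_option autoImplicit false
set_option linter.unusedSectionVars false
set_option linter.unusedVariables false

/-! # Polynomials whose exponential sums are sums over critical values -/

namespace Pool.Agent.T6.H26.PX

open MeasureTheory Set Pool.Agent.W427.SMC Pool.Agent.Y230.PT Pool.Agent.Y230.PS
open Pool.Agent.Y230.TH
open Pool.Agent.W574.SM (IsFunctionalEq)
open Pool.Agent.W574.RO Pool.Agent.W574.CN Pool.Agent.Y230.RE Pool.Agent.Y230.PL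
open Pool.Agent.H628R4.TP (IsBFunction)
open scoped ENNReal

variable {p : ℕ} [Fact p.Prime]

attribute [local instance] msZ bsZ msK bsK nz

section FB

variable {σ τ : Type}

theorem FB_smul (F : MvPolynomial σ ℂ) (a : ℂ) (ha0 : a ≠ 0) (r : ℂ) (m : ℕ)
    (h : FB F r m) : FB (MvPolynomial.C a * F) r m := by
  classical
  intro b hb
  refine h b ?_
  obtain ⟨P, hP⟩ := hb
  refine ⟨a • P, fun s => ?_⟩
  have h1 := congrArg (fun z => (a⁻¹) ^ s • z) (hP s)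
  beta_reduce at h1
  have e1 : (a⁻¹) ^ s • (MvPolynomial.C (Polynomial.eval (s : ℂ) b) *
      (MvPolynomial.C a * F) ^ s) = MvPolynomial.C (Polynomial.eval (s : ℂ) b) * F ^ s := by
    rw [mul_pow, ← MvPolynomial.C_pow, MvPolynomial.smul_eq_C_mul]
    have : (MvPolynomial.C (a⁻¹ ^ s) : MvPolynomial σ ℂ) * MvPolynomial.C (a ^ s) = 1 := by
      rw [← MvPolynomial.C_mul, inv_pow, inv_mul_cancel₀ (pow_ne_zero _ ha0), MvPolynomial.C_1]
    linear_combination (MvPolynomial.C (Polynomial.eval (s : ℂ) b) * F ^ s) * this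
  rw [e1] at h1
  rw [h1, Finsupp.smul_sum, Finsupp.sum_smul_index']
  · refine Finsupp.sum_congr fun m _ => ?_
    have e2 : (MvPolynomial.C a * F) ^ (s + 1) = (a ^ (s + 1)) • F ^ (s + 1) := by
      rw [mul_pow, ← MvPolynomial.C_pow, MvPolynomial.smul_eq_C_mul]
    rw [e2, map_smul, smul_smul, smul_smul]
    change _ = (s : ℂ) ^ m • (a • ((P m : Module.End ℂ (MvPolynomial σ ℂ)) (F ^ (s + 1))))
    rw [smul_smul]
    congr 1
    rw [inv_pow, pow_succ]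
    have := pow_ne_zero s ha0
    field_simp
  · intro i
    simp

theorem FB_equiv (F : MvPolynomial σ ℂ) (i : σ ≃ τ) (r : ℂ) (m : ℕ) (h : FB F r m) :
    FB (MvPolynomial.rename i F) r m := by
  intro b hb
  refine h b (Pool.Agent.Y229.isB_of_single _ b ?_)
  exact functionalEq_equiv i (Equiv.refl (Fin 1)) (fun _ => F)
    (fun _ => MvPolynomial.rename i F) (fun _ => rfl) b (single_of_isB _ b hb)

theorem mC_smul (φ : ℚ_[p] →+* ℂ) (f : MvPolynomial σ ℚ_[p]) (a : ℚ_[p]) (ha : a ≠ 0) (T : ℂ) :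
    mC φ f T ≤ mC φ (MvPolynomial.C a * f) T := by
  by_cases h : FB (MvPolynomial.map φ f) ((rr p T : ℝ) : ℂ) (1 + dl ((rr p T : ℝ) : ℂ))
  · have h1 := FB_smul _ (φ a) (by rwa [Ne, map_eq_zero]) _ _ h
    rw [mC_top (f := MvPolynomial.C a * f)]
    · exact le_top
    · rwa [map_mul, MvPolynomial.map_C]
  · rw [mC_zero h]
    exact bot_le

theorem mC_equiv (φ : ℚ_[p] →+* ℂ) (f : MvPolynomial σ ℚ_[p]) (i : σ ≃ τ) (T : ℂ) :
    mC φ f T ≤ mC φ (MvPolynomial.rename i f) T := by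
  by_cases h : FB (MvPolynomial.map φ f) ((rr p T : ℝ) : ℂ) (1 + dl ((rr p T : ℝ) : ℂ))
  · have h1 := FB_equiv _ i _ _ h
    rw [mC_top (f := MvPolynomial.rename i f)]
    · exact le_top
    · rwa [MvPolynomial.map_rename]
  · rw [mC_zero h]
    exact bot_le

end FB

section DC

variable {σ τ : Type}

/-- a sum over finitely many values, with good functions -/
def DC (φ : ℚ_[p] →+* ℂ) (F : MvPolynomial σ ℚ_[p]) (E : ℤ_[p] → ℕ → ℂ) : Prop :=
  ∃ (ι : Type) (_ : Fintype ι) (c : ι → ℤ_[p]) (D : ι → ℤ_[p] → ℕ → ℂ),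
    (∀ i, GoodE p (Pool.Agent.Y230.PS.tr (mC φ (F - MvPolynomial.C (inc p (c i))))) (D i)) ∧
    ∀ u : ℤ_[p], ‖u‖ = 1 → ∀ m, E u m = ∑ i, ch p m (u * c i) * D i u m

theorem DC.congr {φ : ℚ_[p] →+* ℂ} {F : MvPolynomial σ ℚ_[p]} {E E' : ℤ_[p] → ℕ → ℂ}
    (h : DC φ F E) (he : ∀ u : ℤ_[p], ‖u‖ = 1 → ∀ m, E u m = E' u m) : DC φ F E' := by
  obtain ⟨ι, hι, c, D, h1, h2⟩ := h
  exact ⟨ι, hι, c, D, h1, fun u hu m => by rw [← he u hu m, h2 u hu m]⟩

theorem DC.zero {φ : ℚ_[p] →+* ℂ} {F : MvPolynomial σ ℚ_[p]} : DC φ F (fun _ _ => 0) :=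
  ⟨Empty, inferInstance, Empty.elim, Empty.elim, fun i => i.elim, fun u _ m => by simp⟩

theorem DC.add {φ : ℚ_[p] →+* ℂ} {F : MvPolynomial σ ℚ_[p]} {E E' : ℤ_[p] → ℕ → ℂ}
    (h : DC φ F E) (h' : DC φ F E') : DC φ F (fun u m => E u m + E' u m) := by
  obtain ⟨ι, hι, c, D, h1, h2⟩ := h
  obtain ⟨κ, hκ, c', D', h3, h4⟩ := h'
  refine ⟨ι ⊕ κ, inferInstance, Sum.elim c c', Sum.elim D D', ?_, fun u hu m => ?_⟩
  · rintro (i | i)
    · exact h1 i
    · exact h3 i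
  · rw [Fintype.sum_sum_type]
    beta_reduce
    rw [h2 u hu m, h4 u hu m]
    rfl

/-- one value -/
theorem DC.one {φ : ℚ_[p] →+* ℂ} {F : MvPolynomial σ ℚ_[p]} (c : ℤ_[p]) {D : ℤ_[p] → ℕ → ℂ}
    (h : GoodE p (Pool.Agent.Y230.PS.tr (mC φ (F - MvPolynomial.C (inc p c)))) D) :
    DC φ F (fun u m => ch p m (u * c) * D u m) :=
  ⟨Unit, inferInstance, fun _ => c, fun _ => D, fun _ => h, fun u _ m => by simp⟩

/-- the exponential sums of `p ^ K g` are controlled by the roots at all values -/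
def XC (φ : ℚ_[p] →+* ℂ) [Fintype σ] (g : MvPolynomial σ ℚ_[p]) : Prop :=
  ∃ (K : ℕ) (G : (σ → ℤ_[p]) → ℤ_[p]), Rep g K G ∧
    DC φ (MvPolynomial.C ((p : ℚ_[p]) ^ K) * g) (Et (Measure.pi fun _ : σ => mu p) G)

end DC

/-! ### Plane curves -/

theorem LVan.pt (f : A ℚ_[p]) (P : ℚ_[p] × ℚ_[p])
    (h : LVan (fun χ => ZX (HX χ (nd (fun _ : Unit => f) ![P.1, P.2] ()) 0 1 0 1)) (0, 0)) :
    LVan (fun χ => ZX (HX χ f 0 1 0 1)) P := by
  have h1 : LVan (fun χ => ZX (fun s x => (fun s (x : ℚ_[p] × ℚ_[p]) =>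
      HX χ f 0 1 0 1 s (x.1, P.2 + x.2)) s ((fun _ => P.1) x.2 + 1 * x.1, x.2))) (0, 0) := by
    refine h.congr isOpen_univ trivial fun χ e hχ C _ _ s _ => ?_
    unfold ZX
    congr 1
    funext x
    have h2 := HX_nd (χ := χ) (fun _ : Unit => f) P s x
    simp only [one_mul]
    exact h2.symm
  have hok : ∀ χ e, IsCh χ e → OkC (fun s (x : ℚ_[p] × ℚ_[p]) =>
      HX χ f 0 1 0 1 s (x.1, P.2 + x.2)) := fun χ e hχ =>
    (okC_HX hχ f 0 1 0 1).comp (fun x => (x.1, P.2 + x.2)) (by fun_prop)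
  have h2 := LVan.homeo (F := fun χ => ZX (fun s (x : ℚ_[p] × ℚ_[p]) =>
      HX χ f 0 1 0 1 s (x.1, P.2 + x.2))) (shU 1 one_ne_zero (fun _ => P.1) continuous_const)
    (fun χ e hχ C hC s hs => by
      rw [ZX_shearU _ (hok χ e hχ) 1 one_ne_zero (fun _ => P.1) continuous_const hC hs, norm_one,
        Complex.ofReal_one, one_mul]
      rfl) h1
  have e2 : (shU 1 one_ne_zero (fun _ : ℚ_[p] => P.1) continuous_const)
      ((0, 0) : ℚ_[p] × ℚ_[p]) = (P.1, 0) := by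
    change ((P.1 + 1 * 0, 0) : ℚ_[p] × ℚ_[p]) = (P.1, 0)
    rw [mul_zero, add_zero]
  rw [e2] at h2
  have h4 := LVan.homeo (F := fun χ => ZX (HX χ f 0 1 0 1)) (shV (fun _ => P.2) continuous_const)
    (fun χ e hχ C hC s hs => ZX_shearV _ (okC_HX hχ f 0 1 0 1) (fun _ => P.2) continuous_const
      hC hs) h2
  have e4 : (shV (fun _ : ℚ_[p] => P.2) continuous_const) ((P.1, 0) : ℚ_[p] × ℚ_[p]) = P := by
    change ((P.1, P.2 + 0) : ℚ_[p] × ℚ_[p]) = P
    rw [add_zero]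
  rwa [e4] at h4

theorem van_pt (f : A ℚ_[p]) (hf : f ≠ 0) (P : ℚ_[p] × ℚ_[p]) (h0 : ev P f = 0) :
    LVan (fun χ => ZX (HX χ f 0 1 0 1)) P := by
  refine LVan.pt f P (van_origin _ ?_ ?_)
  · obtain ⟨j, hj⟩ := tr_ne_zero (fun _ : Unit => f) ![P.1, P.2] ⟨(), hf⟩
    exact hj
  · rw [← ev_zero]
    unfold nd
    rw [ev_aeval]
    simp only [Matrix.cons_val_zero, Matrix.cons_val_one]
    rw [map_add, map_add, ev_X0, ev_X1, ev_C, ev_C, zero_add, zero_add]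
    exact h0

theorem pb_ub (x : Fin 2 → ℤ_[p]) : pb x ∈ ub := by
  unfold ub bx
  refine ⟨?_, ?_⟩
  · change inc p (x 0) ∈ bl 0 (0 + 0)
    rw [mem_bl, sub_zero, add_zero, pow_zero]
    exact (x 0).2
  · change inc p (x 1) ∈ bl 0 0
    rw [mem_bl, sub_zero, pow_zero]
    exact (x 1).2

theorem exists_pb {y : ℚ_[p] × ℚ_[p]} (hy : y ∈ ub) : ∃ x : Fin 2 → ℤ_[p], pb x = y := by
  obtain ⟨h1, h2⟩ := hy
  change y.1 ∈ bl 0 (0 + 0) at h1
  change y.2 ∈ bl 0 0 at h2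
  rw [mem_bl, sub_zero, add_zero, pow_zero] at h1
  rw [mem_bl, sub_zero, pow_zero] at h2
  exact ⟨![⟨y.1, h1⟩, ⟨y.2, h2⟩], rfl⟩

/-- **All plane curves.** -/
theorem XC_curve (φ : ℚ_[p] →+* ℂ) (g : MvPolynomial (Fin 2) ℚ_[p])
    (hg : ∀ c, g ≠ MvPolynomial.C c) : XC φ g := by
  obtain ⟨K, hK⟩ := clear g
  obtain ⟨P, hP⟩ := hK K le_rfl
  have hr := rep_Gf _ hP
  have hGm := Gf_meas P
  set F : A ℚ_[p] := MvPolynomial.C ((p : ℚ_[p]) ^ K) * g with hF
  have hpK : (p : ℚ_[p]) ^ K ≠ 0 := pow_ne_zero _ p0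
  have hFc : ∀ c, F - MvPolynomial.C c ≠ 0 := by
    intro c h
    apply hg (((p : ℚ_[p]) ^ K)⁻¹ * c)
    rw [map_mul, ← sub_eq_zero.1 h, hF, ← mul_assoc, ← map_mul, inv_mul_cancel₀ hpK, map_one,
      one_mul]
  have hGF : ∀ x, inc p (Gf P x) = ev (pb x) F := by
    intro x
    have h1 := hr x
    have h2 : MvPolynomial.eval (fun i => inc p (x i)) g = ev (pb x) g := by
      unfold ev pb
      congr 1
      congr 1
      funext i
      fin_cases i <;> rfl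
    rw [h1, h2, hF, map_mul, ev_C]
  refine ⟨K, Gf P, hr, ?_⟩
  set π := (Measure.pi fun _ : Fin 2 => mu p) with hπ
  have hint : ∀ (u : ℤ_[p]) (m : ℕ) (S : Set (Fin 2 → ℤ_[p])),
      IntegrableOn (fun x => ch p m (u * Gf P x)) S π := by
    intro u m S
    refine (bdd_int π (fun x => ch p m (u * Gf P x)) ?_ 1 fun x =>
      (norm_ch p m _).le).integrableOn
    exact (ch_meas p m).comp (measurable_const.mul hGm)
  have key := ball_ind (p := p) 0 (fun C => DC φ F (fun u m => ∫ x in pb ⁻¹' C,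
    ch p m (u * Gf P x) ∂π)) ?_ ?_ ub CO_ub ?_
  · refine key.congr fun u _ m => ?_
    have h1 : (pb ⁻¹' ub : Set (Fin 2 → ℤ_[p])) = Set.univ :=
      Set.eq_univ_of_forall fun x => pb_ub x
    rw [h1, setIntegral_univ]
    rfl
  · refine DC.zero.congr fun u _ m => ?_
    simp
  · intro A B hA hB hd h1 h2
    refine (h1.add h2).congr fun u _ m => ?_
    rw [Set.preimage_union, setIntegral_union (hd.preimage _)
      (hB.meas.preimage pb_cont.measurable) (hint u m _) (hint u m _)]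
  · intro y hy
    obtain ⟨x0, rfl⟩ := exists_pb hy
    set c : ℤ_[p] := Gf P x0 with hc
    set f : A ℚ_[p] := F - MvPolynomial.C (inc p c) with hf
    obtain ⟨U, hU, hxU, hU2⟩ := van_pt f (hFc _) (pb x0) (by
      rw [hf, map_sub, ev_C, ← hGF, hc, sub_self])
    refine ⟨U ∩ ub, hU.inter CO_ub.opn, ⟨hxU, hy⟩, fun z k hz => ?_⟩
    have h3 := good_piece φ f (hFc _) (fun x => Gf P x - c) (hGm.sub_const c) (fun x => by
      have h4 : inc p (Gf P x - c) = inc p (Gf P x) - inc p c := by simp [inc]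
      rw [h4, hGF, hf, map_sub, ev_C]) (CO_bx 0 z k) (hz.trans Set.inter_subset_right)
      (hU2 _ (CO_bx 0 z k) (hz.trans Set.inter_subset_left))
    refine (DC.one c h3).congr fun u _ m => ?_
    rw [← integral_const_mul]
    refine integral_congr_ae (Filter.Eventually.of_forall fun x => ?_)
    beta_reduce
    rw [← ch_add]
    congr 1
    ring

end Pool.Agent.T6.H26.PX
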