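import Pool.Agent.T6.H26.PYF

set_option autoImplicit false
set_option linter.unusedSectionVars false
set_option linter.unusedVariables false

/-! # Closure properties of the class `XC` -/

namespace Pool.Agent.T6.H26.PX

open MeasureTheory Pool.Agent.W427.SMC Pool.Agent.Y230.PT Pool.Agent.Y230.PS
open Pool.Agent.Y230.TH MvPolynomial
open scoped ENNReal

variable {p : ℕ} [Fact p.Prime]

attribute [local instance] msZ bsZ msK bsK nz

theorem EP_subk {M : ℂ → ℕ∞} {c : ℕ → ℂ} (hc : c ∈ EP M) (r : ℕ) :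
    (fun m => c (m - r)) ∈ EP M := by
  induction r with
  | zero => exact hc
  | succ r ih =>
    refine EP_of_sft ?_
    have e : sft (fun m => c (m - (r + 1))) = fun m => c (m - r) := by
      funext m
      rw [sft_apply]
      congr 1
      omega
    rw [e]
    exact ih

section add

variable {σ τ : Type}

/-- not constant -/
def NK {R : Type} [CommSemiring R] (f : MvPolynomial σ R) : Prop := ∀ c, f ≠ C c

theorem NK.inl {K : Type} [Field K] {f : MvPolynomial σ K} (h : NK f) (g : MvPolynomial τ K) :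
    NK (rename Sum.inl f + rename Sum.inr g : MvPolynomial (σ ⊕ τ) K) := by
  intro c hc
  have h1 := congrArg (aeval (Sum.elim X (fun _ => 0) : σ ⊕ τ → MvPolynomial σ K)) hc
  rw [th_sum f g] at h1
  have h2 : aeval (Sum.elim X (fun _ => 0) : σ ⊕ τ → MvPolynomial σ K) (C c) = C c := by
    rw [aeval_C]
    rfl
  rw [h2] at h1
  apply h (c - constantCoeff g)
  rw [map_sub, ← h1]
  ring

theorem NK.sub {K : Type} [Field K] {f : MvPolynomial σ K} (h : NK f) (a : K) : NK (f - C a) := by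
  intro c hc
  apply h (c + a)
  rw [map_add, ← hc]
  ring

theorem NK.smul {K : Type} [Field K] {f : MvPolynomial σ K} (h : NK f) (a : K) (ha : a ≠ 0) :
    NK (C a * f) := by
  intro c hc
  apply h (a⁻¹ * c)
  rw [map_mul, ← hc, ← mul_assoc, ← map_mul, inv_mul_cancel₀ ha, map_one, one_mul]

theorem NK.equiv {K : Type} [Field K] {f : MvPolynomial σ K} (h : NK f) (i : σ ≃ τ) :
    NK (rename i f) := by
  intro c hc
  apply h c
  apply rename_injective _ i.injective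
  rw [hc, rename_C]

theorem NK.map {K L : Type} [Field K] [Field L] {f : MvPolynomial σ K} (h : NK f)
    (φ : K →+* L) : NK (MvPolynomial.map φ f) := by
  intro c hc
  have h1 := congrArg (coeff 0) hc
  rw [coeff_map, coeff_zero_C] at h1
  apply h (coeff 0 f)
  apply map_injective φ φ.injective
  rw [hc, map_C, h1]

/-- **The statement on roots of sums.** -/
def StAdd : Prop := ∀ {σ τ : Type} (F : MvPolynomial σ ℂ) (G : MvPolynomial τ ℂ), NK F → NK G →
  ∀ α β : ℂ, FB F α (1 + dl α) → FB G β (1 + dl β) →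
    FB (rename Sum.inl F + rename Sum.inr G : MvPolynomial (σ ⊕ τ) ℂ) (α + β) (1 + dl (α + β))

theorem FB_of_mC {φ : ℚ_[p] →+* ℂ} {f : MvPolynomial σ ℚ_[p]} {T : ℂ} {a : ℕ} (ha : 1 ≤ a)
    (h : (a : ℕ∞) ≤ mC φ f T) :
    FB (MvPolynomial.map φ f) ((rr p T : ℝ) : ℂ) (1 + dl ((rr p T : ℝ) : ℂ)) := by
  by_contra hn
  rw [mC_zero hn] at h
  have : (a : ℕ∞) = 0 := nonpos_iff_eq_zero.1 h
  have : a = 0 := by exact_mod_cast this
  omega

theorem mC_add (hA : StAdd) (φ : ℚ_[p] →+* ℂ) {f : MvPolynomial σ ℚ_[p]}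
    {g : MvPolynomial τ ℚ_[p]} (hf : NK f) (hg : NK g) (T1 T2 : ℂ) (hT1 : 1 < ‖T1‖)
    (hT2 : 1 < ‖T2‖) (a b : ℕ) (ha : 1 ≤ a) (hb : 1 ≤ b) (h3 : (a : ℕ∞) ≤ mC φ f T1)
    (h4 : (b : ℕ∞) ≤ mC φ g T2) : ((a + b - 1 : ℕ) : ℕ∞) ≤
      mC φ (rename Sum.inl f + rename Sum.inr g : MvPolynomial (σ ⊕ τ) ℚ_[p]) (T1 * T2) := by
  rw [mC_top]
  · exact le_top
  · rw [rr_mul T1 T2 hT1 hT2, Complex.ofReal_add, map_add, map_rename, map_rename]
    exact hA _ _ (hf.map φ) (hg.map φ) _ _ (FB_of_mC ha h3) (FB_of_mC hb h4)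

theorem GoodE.mulE {M1 M2 M3 : ℂ → ℕ∞} (H : ∀ T1 T2 : ℂ, 1 < ‖T1‖ → 1 < ‖T2‖ → ∀ a b : ℕ,
    1 ≤ a → 1 ≤ b → (a : ℕ∞) ≤ M1 T1 → (b : ℕ∞) ≤ M2 T2 → ((a + b - 1 : ℕ) : ℕ∞) ≤ M3 (T1 * T2))
    {E1 E2 : ℤ_[p] → ℕ → ℂ} (h1 : GoodE p (Pool.Agent.Y230.PS.tr M1) E1)
    (h2 : GoodE p (Pool.Agent.Y230.PS.tr M2) E2) :
    GoodE p (Pool.Agent.Y230.PS.tr M3) (fun u m => E1 u m * E2 u m) := by
  obtain ⟨c1, hc1, hE1⟩ := h1
  obtain ⟨c2, hc2, hE2⟩ := h2
  refine ⟨max c1 c2, fun u v hu hv huv m => ?_, fun u hu => ?_⟩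
  · beta_reduce
    rw [hc1 u v hu hv (huv.trans ((pw_le_iff _ _).2 (le_max_left _ _))),
      hc2 u v hu hv (huv.trans ((pw_le_iff _ _).2 (le_max_right _ _)))]
  · refine had (Pool.Agent.Y230.PS.tr M1) (Pool.Agent.Y230.PS.tr M2)
      (Pool.Agent.Y230.PS.tr M3) (fun T1 T2 _ _ a b ha hb h3 h4 => ?_) _ _ (hE1 u hu) (hE2 u hu)
    have h5 : 1 < ‖T1‖ := by
      by_contra hn
      rw [Pool.Agent.Y230.PS.tr, if_pos (not_lt.1 hn)] at h3
      have : (a : ℕ∞) = 0 := nonpos_iff_eq_zero.1 h3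
      have : a = 0 := by exact_mod_cast this
      omega
    have h6 : 1 < ‖T2‖ := by
      by_contra hn
      rw [Pool.Agent.Y230.PS.tr, if_pos (not_lt.1 hn)] at h4
      have : (b : ℕ∞) = 0 := nonpos_iff_eq_zero.1 h4
      have : b = 0 := by exact_mod_cast this
      omega
    rw [Pool.Agent.Y230.PS.tr, if_neg (not_le.2 h5)] at h3
    rw [Pool.Agent.Y230.PS.tr, if_neg (not_le.2 h6)] at h4
    rw [Pool.Agent.Y230.PS.tr, if_neg]
    · exact H T1 T2 h5 h6 a b ha hb h3 h4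
    · rw [not_le, norm_mul]
      exact one_lt_mul_of_lt_of_le h5 h6.le

end add

section cl

variable {σ τ : Type} [Fintype σ] [Fintype τ] {φ : ℚ_[p] →+* ℂ}

theorem inc_mulk (r : ℕ) (c : ℤ_[p]) : inc p ((p : ℤ_[p]) ^ r * c) = (p : ℚ_[p]) ^ r * inc p c := by
  simp [inc]

theorem XC.up {g : MvPolynomial σ ℚ_[p]} (h : XC φ g) : ∃ K0 : ℕ, ∀ K, K0 ≤ K →
    ∃ G : (σ → ℤ_[p]) → ℤ_[p], Rep g K G ∧
      DC φ (C ((p : ℚ_[p]) ^ K) * g) (Et (Measure.pi fun _ : σ => mu p) G) := by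
  obtain ⟨K0, G, h1, ι, hι, c, D, h2, h3⟩ := h
  refine ⟨K0, fun K hK => ?_⟩
  obtain ⟨r, rfl⟩ := Nat.exists_eq_add_of_le hK
  refine ⟨_, h1.up r, ι, hι, fun i => (p : ℤ_[p]) ^ r * c i, fun i u m => D i u (m - r),
    fun i => ?_, fun u hu m => ?_⟩
  · have e : C ((p : ℚ_[p]) ^ (K0 + r)) * g - C (inc p ((p : ℤ_[p]) ^ r * c i)) =
        C ((p : ℚ_[p]) ^ r) * (C ((p : ℚ_[p]) ^ K0) * g - C (inc p (c i))) := by
      rw [inc_mulk, map_mul, pow_add, map_mul]
      ring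
    rw [e]
    obtain ⟨c0, h4, h5⟩ := h2 i
    refine GoodE.mono ⟨c0, fun u v hu hv huv m => h4 u v hu hv huv (m - r),
      fun u hu => EP_subk (h5 u hu) r⟩ fun T _ => tr_mono (fun T _ =>
        mC_smul φ _ _ (pow_ne_zero r p0) T) T
  · have e1 : Et (Measure.pi fun _ : σ => mu p) (fun x => (p : ℤ_[p]) ^ r * G x) u m =
        if m < r then 1 else Et (Measure.pi fun _ : σ => mu p) G u (m - r) := by
      rw [← Et_pmul]
      unfold Et
      refine integral_congr_ae (Filter.Eventually.of_forall fun x => ?_)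
      beta_reduce
      congr 1
      ring
    rw [e1]
    split_ifs with hm
    · have e2 : m - r = 0 := by omega
      beta_reduce
      rw [e2]
      have h6 : Et (Measure.pi fun _ : σ => mu p) G u 0 = 1 := by
        unfold Et
        have : ∀ x, ch p 0 (u * G x) = 1 := fun x => (ch_one_iff p 0 _).2 (by
          rw [pow_zero]
          exact PadicInt.norm_le_one _)
        simp only [this]
        simp
      rw [← h6, h3 u hu 0]
      refine Finset.sum_congr rfl fun i _ => ?_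
      congr 1
      rw [(ch_one_iff p 0 _).2 (by rw [pow_zero]; exact PadicInt.norm_le_one _),
        (ch_one_iff p m _).2]
      rw [norm_mul, norm_mul, norm_p_pow, hu, one_mul]
      refine (mul_le_of_le_one_right (pow_nonneg (pinv_pos p).le _)
        (PadicInt.norm_le_one _)).trans ?_
      exact (pw_le_iff _ _).2 hm.le
    · obtain ⟨k, rfl⟩ := Nat.exists_eq_add_of_le (not_lt.1 hm)
      beta_reduce
      rw [Nat.add_sub_cancel_left, h3 u hu k]
      refine Finset.sum_congr rfl fun i _ => ?_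
      congr 1
      rw [add_comm r k, ← ch_pow p k r (u * c i)]
      congr 1
      ring

/-- **Sums in disjoint variables.** -/
theorem XC.add (hA : StAdd) {g₁ : MvPolynomial σ ℚ_[p]} {g₂ : MvPolynomial τ ℚ_[p]}
    (hn1 : NK g₁) (hn2 : NK g₂) (h1 : XC φ g₁) (h2 : XC φ g₂) :
    XC φ (rename Sum.inl g₁ + rename Sum.inr g₂ : MvPolynomial (σ ⊕ τ) ℚ_[p]) := by
  obtain ⟨K1, h1⟩ := h1.up
  obtain ⟨K2, h2⟩ := h2.up
  obtain ⟨G₁, hr1, ι, hι, c, D, hD, hE⟩ := h1 (max K1 K2) (le_max_left _ _)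
  obtain ⟨G₂, hr2, κ, hκ, c', D', hD', hE'⟩ := h2 (max K1 K2) (le_max_right _ _)
  set K := max K1 K2 with hK
  refine ⟨K, fun z => G₁ (fun i => z (Sum.inl i)) + G₂ (fun i => z (Sum.inr i)),
    fun z => ?_, ι × κ, inferInstance, fun q => c q.1 + c' q.2, fun q u m => D q.1 u m *
      D' q.2 u m, fun q => ?_, fun u hu m => ?_⟩
  · have e : inc p (G₁ (fun i => z (Sum.inl i)) + G₂ (fun i => z (Sum.inr i))) =
        inc p (G₁ (fun i => z (Sum.inl i))) + inc p (G₂ (fun i => z (Sum.inr i))) := by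
      simp [inc]
    rw [e, hr1, hr2, map_add, eval_rename, eval_rename, mul_add]
    rfl
  · have e : C ((p : ℚ_[p]) ^ K) * (rename Sum.inl g₁ + rename Sum.inr g₂) -
        C (inc p (c q.1 + c' q.2)) = (rename Sum.inl (C ((p : ℚ_[p]) ^ K) * g₁ -
          C (inc p (c q.1))) + rename Sum.inr (C ((p : ℚ_[p]) ^ K) * g₂ -
          C (inc p (c' q.2))) : MvPolynomial (σ ⊕ τ) ℚ_[p]) := by
      have e1 : inc p (c q.1 + c' q.2) = inc p (c q.1) + inc p (c' q.2) := by simp [inc]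
      rw [e1, map_add, map_sub, map_sub, map_mul, map_mul, rename_C, rename_C, rename_C,
        rename_C]
      ring
    rw [e]
    exact GoodE.mulE (mC_add hA φ ((hn1.smul _ (pow_ne_zero _ p0)).sub _)
      ((hn2.smul _ (pow_ne_zero _ p0)).sub _)) (hD q.1) (hD' q.2)
  · have h3 : Et (Measure.pi fun _ : σ ⊕ τ => mu p)
        (fun z => G₁ (fun i => z (Sum.inl i)) + G₂ (fun i => z (Sum.inr i))) u m =
        Et (Measure.pi fun _ : σ => mu p) G₁ u m * Et (Measure.pi fun _ : τ => mu p) G₂ u m := by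
      rw [← Et_add]
      exact Et_sumpi (fun q : (σ → ℤ_[p]) × (τ → ℤ_[p]) => G₁ q.1 + G₂ q.2) u m
    rw [h3, hE u hu m, hE' u hu m, Finset.sum_mul_sum, Fintype.sum_prod_type]
    refine Finset.sum_congr rfl fun i _ => Finset.sum_congr rfl fun j _ => ?_
    rw [mul_add, ch_add]
    ring

/-- **Constant factors.** -/
theorem XC.smul {g : MvPolynomial σ ℚ_[p]} (h : XC φ g) (a : ℚ_[p]) (ha : a ≠ 0) :
    XC φ (C a * g) := by
  obtain ⟨K0, h0⟩ := h.up
  obtain ⟨n, a0, ha0, han⟩ := unit_dec a ha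
  obtain ⟨K', K, hK, hK0⟩ : ∃ K' K : ℕ, (K' : ℤ) + n = K ∧ K0 ≤ K :=
    ⟨(K0 - n).toNat, (((K0 - n).toNat : ℤ) + n).toNat, by omega, by omega⟩
  obtain ⟨G, h3, ι, hι, c, D, hD, hE⟩ := h0 K hK0
  have h6 : (p : ℚ_[p]) ^ K = (p : ℚ_[p]) ^ K' * (p : ℚ_[p]) ^ n := by
    rw [← zpow_natCast, ← zpow_natCast, ← zpow_add₀ p0, hK]
  have ha0' : inc p a0 ≠ 0 := by
    intro h
    have h7 : ‖inc p a0‖ = 1 := ha0
    rw [h, norm_zero] at h7
    exact zero_ne_one h7
  have e : ∀ c : ℤ_[p], C ((p : ℚ_[p]) ^ K') * (C a * g) - C (inc p (a0 * c)) =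
      C (inc p a0) * (C ((p : ℚ_[p]) ^ K) * g - C (inc p c)) := by
    intro c
    rw [inc_mul', h6, han]
    simp only [map_mul]
    ring
  refine ⟨K', fun z => a0 * G z, fun z => ?_, ι, hι, fun i => a0 * c i,
    fun i u m => D i (u * a0) m, fun i => ?_, fun u hu m => ?_⟩
  · rw [Pool.Agent.T6.H26.inc_mul, h3, map_mul, eval_C, han, h6]
    ring
  · rw [e]
    obtain ⟨c0, h4, h5⟩ := hD i
    refine GoodE.mono ⟨c0, fun u v hu hv huv m => h4 _ _ (by rw [norm_mul, hu, ha0, one_mul])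
      (by rw [norm_mul, hv, ha0, one_mul]) (by
        rw [← sub_mul, norm_mul, ha0, mul_one]
        exact huv) m, fun u hu => h5 _ (by rw [norm_mul, hu, ha0, one_mul])⟩
      fun T _ => tr_mono (fun T _ => mC_smul φ _ _ ha0' T) T
  · have e1 : Et (Measure.pi fun _ : σ => mu p) (fun z => a0 * G z) u m =
        Et (Measure.pi fun _ : σ => mu p) G (u * a0) m := by
      unfold Et
      simp only [mul_assoc]
    rw [e1, hE (u * a0) (by rw [norm_mul, hu, ha0, one_mul]) m]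
    simp only [mul_assoc]

theorem XC.equiv {g : MvPolynomial σ ℚ_[p]} (h : XC φ g) (i : σ ≃ τ) :
    XC φ (rename i g) := by
  obtain ⟨K, G, h1, ι, hι, c, D, hD, hE⟩ := h
  refine ⟨K, fun z => G (fun a => z (i a)), fun z => ?_, ι, hι, c, D, fun j => ?_,
    fun u hu m => ?_⟩
  · rw [h1, eval_rename]
    rfl
  · have e : C ((p : ℚ_[p]) ^ K) * rename i g - C (inc p (c j)) =
        rename i (C ((p : ℚ_[p]) ^ K) * g - C (inc p (c j))) := by
      rw [map_sub, map_mul, rename_C, rename_C]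
    rw [e]
    exact (hD j).mono fun T _ => tr_mono (fun T _ => mC_equiv φ _ i T) T
  · rw [← Et_equiv G i u m]
    exact hE u hu m

end cl

end Pool.Agent.T6.H26.PX
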