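import Pool.Agent.T6.H26.RAA

set_option autoImplicit false
set_option linter.unusedSectionVars false
set_option linter.unusedVariables false

/-! # Roots of the functional equations of `f(x) + g(z)`, without homogeneity -/

namespace Pool.Agent.T6.H26.RA

open MvPolynomial
open Pool.Agent.W574.SM (weyl)
open Pool.Agent.H628R4.TP (IsBFunction weylS)
open Pool.Agent.Y230.TH (kf W StA)
open Pool.Agent.T6.H26

variable {σ τ : Type}

/-- the product of polynomials in disjoint variables -/
noncomputable def mu2 : MvPolynomial σ ℂ →ₗ[ℂ] MvPolynomial τ ℂ →ₗ[ℂ] MvPolynomial (σ ⊕ τ) ℂ :=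
  (LinearMap.mul ℂ (MvPolynomial (σ ⊕ τ) ℂ)).compl₁₂
    (rename (R := ℂ) (Sum.inl : σ → σ ⊕ τ)).toLinearMap
    (rename (R := ℂ) (Sum.inr : τ → σ ⊕ τ)).toLinearMap

theorem mu2_apply (a : MvPolynomial σ ℂ) (b : MvPolynomial τ ℂ) :
    mu2 a b = rename Sum.inl a * rename Sum.inr b := rfl

/-- the product of Laurent polynomials in disjoint variables -/
noncomputable def B : LP σ →ₗ[ℂ] LP τ →ₗ[ℂ] LP (σ ⊕ τ) :=
  Finsupp.lsum ℂ fun j : ℤ =>
    { toFun := fun a => Finsupp.lsum ℂ fun k : ℤ =>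
        (Finsupp.lsingle (j + k) : MvPolynomial (σ ⊕ τ) ℂ →ₗ[ℂ] LP (σ ⊕ τ)) ∘ₗ mu2 a
      map_add' := fun a a' => by
        refine Finsupp.lhom_ext fun k b => ?_
        rw [LinearMap.add_apply, Finsupp.lsum_single, Finsupp.lsum_single, Finsupp.lsum_single,
          map_add, LinearMap.comp_add, LinearMap.add_apply]
      map_smul' := fun c a => by
        refine Finsupp.lhom_ext fun k b => ?_
        rw [LinearMap.smul_apply, Finsupp.lsum_single, Finsupp.lsum_single,
          map_smul, LinearMap.comp_smul, LinearMap.smul_apply]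
        rfl }

theorem B_single (j k : ℤ) (a : MvPolynomial σ ℂ) (b : MvPolynomial τ ℂ) :
    B (Finsupp.single j a) (Finsupp.single k b) =
      Finsupp.single (j + k) (rename Sum.inl a * rename Sum.inr b) := by
  unfold B
  rw [Finsupp.lsum_single]
  change (Finsupp.lsum ℂ fun k : ℤ =>
    (Finsupp.lsingle (j + k) : MvPolynomial (σ ⊕ τ) ℂ →ₗ[ℂ] LP (σ ⊕ τ)) ∘ₗ mu2 a)
      (Finsupp.single k b) = _
  rw [Finsupp.lsum_single, LinearMap.comp_apply, Finsupp.lsingle_apply, mu2_apply]

/-- two bilinear expressions which agree on the elements `a T ^ j` -/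
theorem bil_ext {M : Type} [AddCommGroup M] [Module ℂ M] (φ ψ : LP σ →ₗ[ℂ] LP τ →ₗ[ℂ] M)
    (h : ∀ (j k : ℤ) (a : MvPolynomial σ ℂ) (b : MvPolynomial τ ℂ),
      φ (Finsupp.single j a) (Finsupp.single k b) = ψ (Finsupp.single j a) (Finsupp.single k b))
    (u : LP σ) (v : LP τ) : φ u v = ψ u v := by
  have e : φ = ψ := Finsupp.lhom_ext fun j a => Finsupp.lhom_ext fun k b => h j k a b
  rw [e]

theorem B_YL (u : LP σ) (v : LP τ) : B (Y u) v = Y (B u v) :=
  bil_ext (B ∘ₗ Y) (B.compr₂ Y) (fun j k a b => by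
    change B (Y (Finsupp.single j a)) (Finsupp.single k b) = Y (B (Finsupp.single j a)
      (Finsupp.single k b))
    rw [Y_single, B_single, B_single, Y_single]
    congr 1
    ring) u v

theorem B_YR (u : LP σ) (v : LP τ) : B u (Y v) = Y (B u v) :=
  bil_ext (B.compl₂ Y) (B.compr₂ Y) (fun j k a b => by
    change B (Finsupp.single j a) (Y (Finsupp.single k b)) = Y (B (Finsupp.single j a)
      (Finsupp.single k b))
    rw [Y_single, B_single, B_single, Y_single]
    congr 1
    ring) u v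

theorem B_XL (i : σ) (u : LP σ) (v : LP τ) : B (Xo i u) v = Xo (Sum.inl i) (B u v) :=
  bil_ext (B ∘ₗ Xo i) (B.compr₂ (Xo (Sum.inl i))) (fun j k a b => by
    change B (Xo i (Finsupp.single j a)) (Finsupp.single k b) = Xo (Sum.inl i)
      (B (Finsupp.single j a) (Finsupp.single k b))
    rw [Xo_single, B_single, B_single, Xo_single, map_mul, rename_X, mul_assoc]) u v

theorem B_XR (i : τ) (u : LP σ) (v : LP τ) : B u (Xo i v) = Xo (Sum.inr i) (B u v) :=
  bil_ext (B.compl₂ (Xo i)) (B.compr₂ (Xo (Sum.inr i))) (fun j k a b => by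
    change B (Finsupp.single j a) (Xo i (Finsupp.single k b)) = Xo (Sum.inr i)
      (B (Finsupp.single j a) (Finsupp.single k b))
    rw [Xo_single, B_single, B_single, Xo_single, map_mul, rename_X, mul_left_comm]) u v

section sum

variable (f : MvPolynomial σ ℂ) (g : MvPolynomial τ ℂ)

theorem pd_inl (i : σ) (a : MvPolynomial σ ℂ) :
    pderiv (Sum.inl i) (rename Sum.inl a : MvPolynomial (σ ⊕ τ) ℂ) =
      rename Sum.inl (pderiv i a) := pderiv_rename Sum.inl_injective i a

theorem pd_inr (i : τ) (a : MvPolynomial τ ℂ) :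
    pderiv (Sum.inr i) (rename Sum.inr a : MvPolynomial (σ ⊕ τ) ℂ) =
      rename Sum.inr (pderiv i a) := pderiv_rename Sum.inr_injective i a

theorem pd_inl' (i : σ) (b : MvPolynomial τ ℂ) :
    pderiv (Sum.inl i) (rename Sum.inr b : MvPolynomial (σ ⊕ τ) ℂ) = 0 := by
  classical
  refine pderiv_eq_zero_of_notMem_vars fun h => ?_
  have h1 := vars_rename (Sum.inr : τ → σ ⊕ τ) b h
  obtain ⟨x, -, hx⟩ := Finset.mem_image.1 h1
  exact absurd hx (by simp)

theorem pd_inr' (i : τ) (b : MvPolynomial σ ℂ) :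
    pderiv (Sum.inr i) (rename Sum.inl b : MvPolynomial (σ ⊕ τ) ℂ) = 0 := by
  classical
  refine pderiv_eq_zero_of_notMem_vars fun h => ?_
  have h1 := vars_rename (Sum.inl : σ → σ ⊕ τ) b h
  obtain ⟨x, -, hx⟩ := Finset.mem_image.1 h1
  exact absurd hx (by simp)

/-- `f(x) + g(z)` -/
noncomputable abbrev FG : MvPolynomial (σ ⊕ τ) ℂ := rename Sum.inl f + rename Sum.inr g

theorem B_DL (i : σ) (u : LP σ) (v : LP τ) : B (Do f i u) v = Do (FG f g) (Sum.inl i) (B u v) :=
  bil_ext (B ∘ₗ Do f i) (B.compr₂ (Do (FG f g) (Sum.inl i))) (fun j k a b => by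
    change B (Do f i (Finsupp.single j a)) (Finsupp.single k b) = Do (FG f g) (Sum.inl i)
      (B (Finsupp.single j a) (Finsupp.single k b))
    rw [Do_single, map_add, LinearMap.add_apply, B_single, B_single, B_single, Do_single,
      Derivation.leibniz, map_add, pd_inl, pd_inl, pd_inl', smul_zero, zero_add, pd_inl',
      add_zero, smul_eq_mul, map_mul, mul_comm (rename Sum.inr b)]
    congr 2
    · ring
    · ring) u v

theorem B_DR (i : τ) (u : LP σ) (v : LP τ) : B u (Do g i v) = Do (FG f g) (Sum.inr i) (B u v) :=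
  bil_ext (B.compl₂ (Do g i)) (B.compr₂ (Do (FG f g) (Sum.inr i))) (fun j k a b => by
    change B (Finsupp.single j a) (Do g i (Finsupp.single k b)) = Do (FG f g) (Sum.inr i)
      (B (Finsupp.single j a) (Finsupp.single k b))
    rw [Do_single, map_add, B_single, B_single, B_single, Do_single,
      Derivation.leibniz, map_add, pd_inr, pd_inr, pd_inr', smul_zero, add_zero, pd_inr',
      zero_add, smul_eq_mul, map_mul]
    congr 2
    · ring
    · ring) u v

theorem B_T (u : LP σ) (v : LP τ) : Th (FG f g) (B u v) = B (Th f u) v + B u (Th g v) := by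
  refine bil_ext (B.compr₂ (Th (FG f g))) (B ∘ₗ Th f + B.compl₂ (Th g)) (fun j k a b => ?_) u v
  change Th (FG f g) (B (Finsupp.single j a) (Finsupp.single k b)) =
    B (Th f (Finsupp.single j a)) (Finsupp.single k b) +
      B (Finsupp.single j a) (Th g (Finsupp.single k b))
  rw [Th_single, Th_single, map_add, map_add, LinearMap.add_apply, B_single, B_single, B_single,
    B_single, B_single, Th_single]
  have e1 : j + 1 + k = j + k + 1 := by ring
  have e2 : j + (k + 1) = j + k + 1 := by ring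
  rw [e1, e2, map_smul, map_smul, smul_mul_assoc, mul_smul_comm, map_mul, map_mul]
  have e3 : ((j + k : ℤ) : ℂ) • (rename Sum.inl a * rename Sum.inr b : MvPolynomial (σ ⊕ τ) ℂ) =
      (j : ℂ) • (rename Sum.inl a * rename Sum.inr b) +
        (k : ℂ) • (rename Sum.inl a * rename Sum.inr b) := by
    rw [← add_smul]
    push_cast
    rfl
  have e4 : FG f g * (rename Sum.inl a * rename Sum.inr b) =
      rename Sum.inl f * rename Sum.inl a * rename Sum.inr b +
        rename Sum.inl a * (rename Sum.inr g * rename Sum.inr b) := by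
    unfold FG
    ring
  rw [e3, e4, Finsupp.single_add, Finsupp.single_add]
  abel

theorem B_one : B (o : LP σ) (o : LP τ) = o := by
  unfold o
  rw [B_single, map_one, map_one, mul_one, add_zero]

/-- the span of the products -/
noncomputable def PS2 : Submodule ℂ (LP (σ ⊕ τ)) :=
  Submodule.span ℂ {w | ∃ u v, MM f u ∧ MM g v ∧ w = B u v}

theorem ps_of (φ : LP (σ ⊕ τ) →ₗ[ℂ] LP (σ ⊕ τ))
    (h : ∀ u v, MM f u → MM g v → φ (B u v) ∈ PS2 f g) (w : LP (σ ⊕ τ)) (hw : w ∈ PS2 f g) :
    φ w ∈ PS2 f g := by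
  induction hw using Submodule.span_induction with
  | mem w hw =>
    obtain ⟨u, v, hu, hv, rfl⟩ := hw
    exact h u v hu hv
  | zero => rw [map_zero]; exact (PS2 f g).zero_mem
  | add w w' _ _ h1 h2 => rw [map_add]; exact (PS2 f g).add_mem h1 h2
  | smul c w _ h1 => rw [map_smul]; exact (PS2 f g).smul_mem c h1

theorem ps_mem {u : LP σ} {v : LP τ} (hu : MM f u) (hv : MM g v) : B u v ∈ PS2 f g :=
  Submodule.subset_span ⟨u, v, hu, hv, rfl⟩

theorem mm_ps (w : LP (σ ⊕ τ)) (hw : MM (FG f g) w) : w ∈ PS2 f g := by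
  induction hw with
  | one =>
    rw [← B_one]
    exact ps_mem f g MM.one MM.one
  | add h h' _ _ h1 h2 => exact (PS2 f g).add_mem h1 h2
  | smul c h _ h1 => exact (PS2 f g).smul_mem c h1
  | X i h _ h1 =>
    rcases i with i | i
    · exact ps_of f g _ (fun u v hu hv => by
        rw [← B_XL]; exact ps_mem f g (MM.X _ _ hu) hv) h h1
    · exact ps_of f g _ (fun u v hu hv => by
        rw [← B_XR]; exact ps_mem f g hu (MM.X _ _ hv)) h h1
  | D i h _ h1 =>
    rcases i with i | i
    · exact ps_of f g _ (fun u v hu hv => by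
        rw [← B_DL]; exact ps_mem f g (MM.D _ _ hu) hv) h h1
    · exact ps_of f g _ (fun u v hu hv => by
        rw [← B_DR]; exact ps_mem f g hu (MM.D _ _ hv)) h h1
  | T h _ h1 =>
    exact ps_of f g _ (fun u v hu hv => by
      rw [B_T]
      exact (PS2 f g).add_mem (ps_mem f g (MM.T _ hu) hv) (ps_mem f g hu (MM.T _ hv))) h h1
  | Y h _ h1 =>
    exact ps_of f g _ (fun u v hu hv => by
      rw [← B_YL]; exact ps_mem f g (MM.Y _ hu) hv) h h1

end sum

/-! ### Polynomials in `T⁻¹` -/

/-- `c(T⁻¹)` -/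
noncomputable def ay (c : Polynomial ℂ) : LP σ →ₗ[ℂ] LP σ :=
  Polynomial.aeval (Y : Module.End ℂ (LP σ)) c

theorem ay_add (c d : Polynomial ℂ) (u : LP σ) : ay (c + d) u = ay c u + ay d u := by
  unfold ay
  rw [map_add, LinearMap.add_apply]

theorem ay_C (r : ℂ) (u : LP σ) : ay (Polynomial.C r) u = r • u := by
  unfold ay
  rw [Polynomial.aeval_C]
  rfl

theorem ay_X_mul (c : Polynomial ℂ) (u : LP σ) : ay (c * Polynomial.X) u = Y (ay c u) := by
  unfold ay
  rw [mul_comm, map_mul, Polynomial.aeval_X]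
  rfl

theorem ay_mm {f : MvPolynomial σ ℂ} (c : Polynomial ℂ) (u : LP σ) (hu : MM f u) :
    MM f (ay c u) := by
  induction c using Polynomial.induction_on with
  | C a => rw [ay_C]; exact MM.smul _ _ hu
  | add p q hp hq => rw [ay_add]; exact MM.add _ _ hp hq
  | monomial n a h =>
    rw [pow_succ, ← mul_assoc, ay_X_mul]
    exact MM.Y _ h

theorem ay_BL (c : Polynomial ℂ) (u : LP σ) (v : LP τ) : B (ay c u) v = ay c (B u v) := by
  induction c using Polynomial.induction_on with
  | C a => rw [ay_C, ay_C, map_smul, LinearMap.smul_apply]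
  | add p q hp hq => rw [ay_add, ay_add, map_add, LinearMap.add_apply, hp, hq]
  | monomial n a h => rw [pow_succ, ← mul_assoc, ay_X_mul, ay_X_mul, B_YL, h]

theorem ay_BR (c : Polynomial ℂ) (u : LP σ) (v : LP τ) : B u (ay c v) = ay c (B u v) := by
  induction c using Polynomial.induction_on with
  | C a => rw [ay_C, ay_C, map_smul]
  | add p q hp hq => rw [ay_add, ay_add, map_add, hp, hq]
  | monomial n a h => rw [pow_succ, ← mul_assoc, ay_X_mul, ay_X_mul, B_YR, h]

/-- the values of functionals which vanish on `T⁻¹ M` -/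
theorem ay_lam {f : MvPolynomial σ ℂ} (lam : LP σ →ₗ[ℂ] ℂ) (h0 : ∀ m, MM f m → lam (Y m) = 0)
    (c : Polynomial ℂ) (u : LP σ) (hu : MM f u) : lam (ay c u) = c.eval 0 * lam u := by
  have h := Polynomial.divX_mul_X_add c
  conv_lhs => rw [← h]
  rw [ay_add, ay_X_mul, ay_C, map_add, h0 _ (ay_mm _ _ hu), zero_add, map_smul, smul_eq_mul,
    Polynomial.coeff_zero_eq_eval_zero]

/-! ### Evaluation of the first variables -/

/-- the value at a point of the first variables -/
noncomputable def ev (x : σ → ℂ) : LP (σ ⊕ τ) →ₗ[ℂ] LP τ :=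
  cw (aeval (Sum.elim (fun i => C (x i)) X : σ ⊕ τ → MvPolynomial τ ℂ)).toLinearMap

/-- `a(x)` as an operator -/
noncomputable def Ev (x : σ → ℂ) : LP σ →ₗ[ℂ] LP τ →ₗ[ℂ] LP τ :=
  Finsupp.lsum ℂ fun j : ℤ => (aeval x : MvPolynomial σ ℂ →ₐ[ℂ] ℂ).toLinearMap.smulRight (sh j)

theorem Ev_single (x : σ → ℂ) (j : ℤ) (a : MvPolynomial σ ℂ) (v : LP τ) :
    Ev x (Finsupp.single j a) v = eval x a • sh j v := by
  unfold Ev
  rw [Finsupp.lsum_single, LinearMap.smulRight_apply]
  rfl

theorem ev_B (x : σ → ℂ) (u : LP σ) (v : LP τ) : ev x (B u v) = Ev x u v :=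
  bil_ext (B.compr₂ (ev x)) (Ev x) (fun j k a b => by
    change ev x (B (Finsupp.single j a) (Finsupp.single k b)) = _
    rw [B_single, Ev_single, sh_single, Finsupp.smul_single]
    unfold ev
    rw [cw_single]
    congr 1
    · ring
    · change aeval (Sum.elim (fun i => C (x i)) X : σ ⊕ τ → MvPolynomial τ ℂ)
        (rename Sum.inl a * rename Sum.inr b) = _
      rw [map_mul, aeval_rename, aeval_rename]
      have e1 : (Sum.elim (fun i => C (x i)) X ∘ Sum.inr : τ → MvPolynomial τ ℂ) = X := rfl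
      have e2 : (Sum.elim (fun i => C (x i)) X ∘ Sum.inl : σ → MvPolynomial τ ℂ) =
        fun i => C (x i) := rfl
      rw [e1, e2, aeval_X_left_apply, smul_eq_C_mul]
      congr 1
      induction a using MvPolynomial.induction_on with
      | C r => rw [aeval_C, eval_C]; rfl
      | add p q hp hq => rw [map_add, hp, hq, map_add, map_add]
      | mul_X p i hp => rw [map_mul, hp, aeval_X, map_mul, eval_X, map_mul]) u v

theorem sh_sh (m n : ℤ) (v : LP τ) : sh m (sh n v) = sh (n + m) v := by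
  have e : sh m ∘ₗ sh n = (sh (n + m) : LP τ →ₗ[ℂ] LP τ) := by
    refine Finsupp.lhom_ext fun j a => ?_
    rw [LinearMap.comp_apply, sh_single, sh_single, sh_single, add_assoc]
  exact congrArg (fun L => L v) e

theorem ay_pow (n : ℕ) (v : LP τ) : ay (Polynomial.X ^ n) v = sh (-(n : ℤ)) v := by
  induction n generalizing v with
  | zero =>
    have e : (sh 0 : LP τ →ₗ[ℂ] LP τ) = LinearMap.id := by
      refine Finsupp.lhom_ext fun j a => ?_
      rw [sh_single, add_zero, LinearMap.id_apply]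
    rw [Nat.cast_zero, neg_zero, e, pow_zero]
    have h := ay_C (1 : ℂ) v
    rw [Polynomial.C_1, one_smul] at h
    rw [h, LinearMap.id_apply]
  | succ n ih =>
    rw [pow_succ, ay_X_mul, ih]
    unfold Y
    rw [sh_sh]
    congr 2
    push_cast
    ring

/-- the polynomial `y ^ k a(x)` in `y = T⁻¹` -/
noncomputable def cp (x : σ → ℂ) (k : ℤ) (a : LP σ) : Polynomial ℂ :=
  ∑ j ∈ a.support, Polynomial.C (eval x (a j)) * Polynomial.X ^ (k - j).toNat

theorem ay_sum {ι : Type} (s : Finset ι) (c : ι → Polynomial ℂ) (v : LP τ) :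
    ay (∑ i ∈ s, c i) v = ∑ i ∈ s, ay (c i) v := by
  unfold ay
  rw [map_sum, LinearMap.sum_apply]

theorem ay_C_mul (r : ℂ) (c : Polynomial ℂ) (v : LP τ) :
    ay (Polynomial.C r * c) v = r • ay c v := by
  unfold ay
  rw [map_mul, Polynomial.aeval_C]
  rfl

theorem ay_cp (x : σ → ℂ) (k : ℤ) (a : LP σ) (ha : ∀ j ∈ a.support, j ≤ k) (v : LP τ) :
    ay (cp x k a) v = sh (-k) (Ev x a v) := by
  have e : Ev x a v = ∑ j ∈ a.support, eval x (a j) • sh j v := by
    conv_lhs => rw [← Finsupp.sum_single a]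
    rw [Finsupp.sum, map_sum, LinearMap.sum_apply]
    exact Finset.sum_congr rfl fun j _ => Ev_single x j (a j) v
  rw [e, map_sum, cp, ay_sum]
  refine Finset.sum_congr rfl fun j hj => ?_
  rw [ay_C_mul, ay_pow, map_smul, sh_sh]
  congr 3
  have := ha j hj
  omega

theorem cp_zero (x : σ → ℂ) (k : ℤ) (a : LP σ) (ha : ∀ j ∈ a.support, j ≤ k) :
    (cp x k a).eval 0 = eval x (a k) := by
  classical
  unfold cp
  rw [Polynomial.eval_finsetSum]
  by_cases hk : k ∈ a.support
  · rw [Finset.sum_eq_single k]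
    · simp
    · intro j hj hjk
      have h1 := ha j hj
      have h2 : (k - j).toNat ≠ 0 := by omega
      simp [h2]
    · intro h
      exact absurd hk h
  · rw [Finsupp.notMem_support_iff.1 hk, map_zero]
    refine Finset.sum_eq_zero fun j hj => ?_
    have h1 := ha j hj
    have h2 : (k - j).toNat ≠ 0 := by
      intro h3
      have : j = k := by omega
      exact hk (this ▸ hj)
    simp [h2]

/-- **The product functional is well defined.** -/
theorem well_def {f : MvPolynomial σ ℂ} {g : MvPolynomial τ ℂ} (lam : LP σ →ₗ[ℂ] ℂ)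
    (lam' : LP τ →ₗ[ℂ] ℂ) (h0 : ∀ m, MM f m → lam (Y m) = 0)
    (h0' : ∀ m, MM g m → lam' (Y m) = 0) {ι : Type} [DecidableEq ι] (n : ℕ) :
    ∀ (s : Finset ι) (a : ι → LP σ) (b : ι → LP τ), s.card = n → (∀ i ∈ s, MM f (a i)) →
      (∀ i ∈ s, MM g (b i)) → ∑ i ∈ s, B (a i) (b i) = 0 →
      ∑ i ∈ s, lam (a i) * lam' (b i) = 0 := by
  classical
  induction n with
  | zero =>
    intro s a b hs _ _ _
    rw [Finset.card_eq_zero.1 hs, Finset.sum_empty]
  | succ n ih =>
    intro s a b hs ha hb hsum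
    by_cases hall : ∀ i ∈ s, a i = 0
    · refine Finset.sum_eq_zero fun i hi => ?_
      rw [hall i hi, map_zero, zero_mul]
    · push Not at hall
      -- the highest power of `T`
      set S : Finset ℤ := s.biUnion fun i => (a i).support with hS
      have hSn : S.Nonempty := by
        obtain ⟨i, hi, hai⟩ := hall
        obtain ⟨j, hj⟩ := Finsupp.support_nonempty_iff.2 hai
        exact ⟨j, Finset.mem_biUnion.2 ⟨i, hi, hj⟩⟩
      set k := S.max' hSn with hk
      have hle : ∀ i ∈ s, ∀ j ∈ (a i).support, j ≤ k := fun i hi j hj =>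
        Finset.le_max' S j (Finset.mem_biUnion.2 ⟨i, hi, hj⟩)
      obtain ⟨i0, hi0, hki0⟩ := Finset.mem_biUnion.1 (Finset.max'_mem S hSn)
      rw [← hk] at hki0
      have hne : a i0 k ≠ 0 := Finsupp.mem_support_iff.1 hki0
      obtain ⟨x, hx⟩ : ∃ x, eval x (a i0 k) ≠ 0 := by
        by_contra hcon
        push Not at hcon
        exact hne (MvPolynomial.funext fun x => by rw [hcon x, map_zero])
      set c : ι → Polynomial ℂ := fun i => cp x k (a i) with hc
      have hc0 : (c i0).eval 0 ≠ 0 := by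
        rw [hc]
        beta_reduce
        rwa [cp_zero x k (a i0) (hle i0 hi0)]
      have hrel : ∑ i ∈ s, ay (c i) (b i) = 0 := by
        have h1 := congrArg (fun w => sh (-k) (ev x w)) hsum
        beta_reduce at h1
        rw [map_sum, map_sum, map_zero, map_zero] at h1
        rw [← h1]
        refine Finset.sum_congr rfl fun i hi => ?_
        rw [ev_B, ← ay_cp x k (a i) (hle i hi)]
      set a' : ι → LP σ := fun i => ay (c i0) (a i) - ay (c i) (a i0) with ha'
      have ha'0 : a' i0 = 0 := by rw [ha']; beta_reduce; rw [sub_self]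
      have hsum' : ∑ i ∈ s, B (a' i) (b i) = 0 := by
        have h1 : ∀ i ∈ s, B (a' i) (b i) = ay (c i0) (B (a i) (b i)) -
            B (a i0) (ay (c i) (b i)) := by
          intro i _
          rw [ha']
          beta_reduce
          rw [map_sub, LinearMap.sub_apply, ay_BL, ay_BL, ay_BR]
        rw [Finset.sum_congr rfl h1, Finset.sum_sub_distrib, ← map_sum, ← map_sum, hsum, hrel,
          map_zero, map_zero, sub_zero]
      have h2 := ih (s.erase i0) a' b (by rw [Finset.card_erase_of_mem hi0, hs]; rfl)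
        (fun i hi => by
          have hi' := Finset.mem_of_mem_erase hi
          rw [ha']
          beta_reduce
          rw [sub_eq_add_neg, ← neg_one_smul ℂ (ay (c i) (a i0))]
          exact MM.add _ _ (ay_mm _ _ (ha i hi')) (MM.smul _ _ (ay_mm _ _ (ha i0 hi0))))
        (fun i hi => hb i (Finset.mem_of_mem_erase hi))
        (by
          rw [← hsum']
          refine Finset.sum_subset (Finset.erase_subset _ _) fun i hi hi' => ?_
          have : i = i0 := by
            by_contra hne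
            exact hi' (Finset.mem_erase.2 ⟨hne, hi⟩)
          rw [this, ha'0, map_zero, LinearMap.zero_apply])
      have h3 : ∑ i ∈ s, lam (a' i) * lam' (b i) = 0 := by
        rw [← h2]
        symm
        refine Finset.sum_subset (Finset.erase_subset _ _) fun i hi hi' => ?_
        have : i = i0 := by
          by_contra hne
          exact hi' (Finset.mem_erase.2 ⟨hne, hi⟩)
        rw [this, ha'0, map_zero, zero_mul]
      have h4 : ∀ i ∈ s, lam (a' i) * lam' (b i) = (c i0).eval 0 * (lam (a i) * lam' (b i)) -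
          lam (a i0) * lam' (ay (c i) (b i)) := by
        intro i hi
        rw [ha']
        beta_reduce
        rw [map_sub, ay_lam lam h0 _ _ (ha i hi), ay_lam lam h0 _ _ (ha i0 hi0),
          ay_lam lam' h0' _ _ (hb i hi)]
        ring
      rw [Finset.sum_congr rfl h4, Finset.sum_sub_distrib, ← Finset.mul_sum, ← Finset.mul_sum,
        ← map_sum, hrel, map_zero, mul_zero, sub_zero] at h3
      exact (mul_eq_zero.1 h3).resolve_left hc0

/-! ### The functionals -/

/-- the functional of a forced root -/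
theorem ex_lam (f : MvPolynomial σ ℂ) (α : ℂ)
    (hα : ∀ (q : Polynomial ℂ) (m : LP σ), MM f m →
      Polynomial.aeval (Th f : Module.End ℂ (LP σ)) q o = Y m → q.eval α = 0) :
    ∃ lam : LP σ →ₗ[ℂ] ℂ, (∀ m, MM f m → lam (Y m) = 0) ∧
      ∀ q : Polynomial ℂ, lam (Polynomial.aeval (Th f : Module.End ℂ (LP σ)) q o) =
        q.eval α := by
  classical
  set WW : Submodule ℂ (LP σ) :=
    { carrier := {w | ∃ m, MM f m ∧ w = Y m}
      add_mem' := by
        rintro _ _ ⟨m, hm, rfl⟩ ⟨m', hm', rfl⟩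
        exact ⟨m + m', MM.add _ _ hm hm', (map_add _ _ _).symm⟩
      zero_mem' := ⟨0, MM.zero f, (map_zero _).symm⟩
      smul_mem' := by
        rintro c _ ⟨m, hm, rfl⟩
        exact ⟨c • m, MM.smul _ _ hm, (map_smul _ _ _).symm⟩ } with hWW
  set T : Polynomial ℂ →ₗ[ℂ] (LP σ ⧸ WW) := WW.mkQ ∘ₗ
    { toFun := fun q => Polynomial.aeval (Th f : Module.End ℂ (LP σ)) q o
      map_add' := fun q r => by rw [map_add]; rfl
      map_smul' := fun c q => by rw [map_smul]; rfl } with hT
  set φ : Polynomial ℂ →ₗ[ℂ] ℂ := Polynomial.leval α with hφ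
  have hker : LinearMap.ker T ≤ LinearMap.ker φ := by
    intro q hq
    rw [LinearMap.mem_ker] at hq ⊢
    rw [hT, LinearMap.comp_apply, Submodule.mkQ_apply, Submodule.Quotient.mk_eq_zero] at hq
    obtain ⟨m, hm, h1⟩ := hq
    exact hα q m hm h1
  obtain ⟨ψ, hψ⟩ : ∃ ψ : (LP σ ⧸ WW) →ₗ[ℂ] ℂ, ψ ∘ₗ T = φ := by
    have h1 : φ ∈ (LinearMap.ker T).dualAnnihilator := by
      rw [Submodule.mem_dualAnnihilator]
      intro q hq
      exact hker hq
    rw [← LinearMap.range_dualMap_eq_dualAnnihilator_ker] at h1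
    obtain ⟨ψ, hψ⟩ := h1
    exact ⟨ψ, hψ⟩
  refine ⟨ψ ∘ₗ WW.mkQ, fun m hm => ?_, fun q => ?_⟩
  · have h2 : Y m ∈ WW := ⟨m, hm, rfl⟩
    rw [LinearMap.comp_apply, Submodule.mkQ_apply, (Submodule.Quotient.mk_eq_zero _).2 h2,
      map_zero]
  · have h1 := congrArg (fun L => L q) hψ
    exact h1

/-- `Θ ^ k 1` -/
noncomputable def tk (f : MvPolynomial σ ℂ) : ℕ → LP σ
  | 0 => o
  | k + 1 => Th f (tk f k)

theorem tk_pow (f : MvPolynomial σ ℂ) (k : ℕ) :
    Polynomial.aeval (Th f : Module.End ℂ (LP σ)) (Polynomial.X ^ k : Polynomial ℂ) o =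
      tk f k := by
  induction k with
  | zero => rw [pow_zero, map_one]; rfl
  | succ k ih => rw [pow_succ', map_mul, Module.End.mul_apply, ih, Polynomial.aeval_X]; rfl

theorem tk_mm (f : MvPolynomial σ ℂ) (k : ℕ) : MM f (tk f k) := by
  induction k with
  | zero => exact MM.one
  | succ k ih => exact MM.T _ ih

section graph

variable (f : MvPolynomial σ ℂ) (g : MvPolynomial τ ℂ) (lam : LP σ →ₗ[ℂ] ℂ)
  (lam' : LP τ →ₗ[ℂ] ℂ)

/-- the graph of the product functional -/
noncomputable def GR : Submodule ℂ (LP (σ ⊕ τ) × ℂ) :=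
  Submodule.span ℂ {w | ∃ u v, MM f u ∧ MM g v ∧ w = (B u v, lam u * lam' v)}

theorem gr_fun (h0 : ∀ m, MM f m → lam (Y m) = 0) (h0' : ∀ m, MM g m → lam' (Y m) = 0)
    (r : ℂ) (hr : ((0 : LP (σ ⊕ τ)), r) ∈ GR f g lam lam') : r = 0 := by
  unfold GR at hr
  rw [Submodule.mem_span_set'] at hr
  obtain ⟨n, c, gg, hsum⟩ := hr
  choose u v hu hv huv using fun i => (gg i).2
  have h2 : ∑ i, B (c i • u i) (v i) = 0 := by
    have h3 := congrArg Prod.fst hsum
    rw [Prod.fst_sum] at h3
    refine Eq.trans (Finset.sum_congr rfl fun i _ => ?_) h3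
    rw [Prod.smul_fst, huv i, map_smul, LinearMap.smul_apply]
  have h4 : r = ∑ i, lam (c i • u i) * lam' (v i) := by
    have h3 := congrArg Prod.snd hsum
    rw [Prod.snd_sum] at h3
    refine Eq.trans h3.symm (Finset.sum_congr rfl fun i _ => ?_)
    rw [Prod.smul_snd, huv i, map_smul, smul_eq_mul, smul_eq_mul, mul_assoc]
  rw [h4]
  exact well_def lam lam' h0 h0' _ Finset.univ (fun i => c i • u i) v rfl
    (fun i _ => MM.smul _ _ (hu i)) (fun i _ => hv i) h2

/-- the graph, for the powers of `Θ` -/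
noncomputable def GT (α β : ℂ) : Submodule ℂ (LP (σ ⊕ τ) × ℂ) :=
  Submodule.span ℂ {w | ∃ k l : ℕ, w = (B (tk f k) (tk g l), α ^ k * β ^ l)}

theorem gt_phi (α β : ℂ) (w : LP (σ ⊕ τ) × ℂ) (hw : w ∈ GT f g α β) :
    (Th (FG f g) w.1, (α + β) * w.2) ∈ GT f g α β := by
  unfold GT at hw
  induction hw using Submodule.span_induction with
  | mem w hw =>
    obtain ⟨k, l, rfl⟩ := hw
    have h1 : ((B (tk f (k + 1)) (tk g l), α ^ (k + 1) * β ^ l) : LP (σ ⊕ τ) × ℂ) ∈
        GT f g α β := Submodule.subset_span ⟨k + 1, l, rfl⟩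
    have h2 : ((B (tk f k) (tk g (l + 1)), α ^ k * β ^ (l + 1)) : LP (σ ⊕ τ) × ℂ) ∈
        GT f g α β := Submodule.subset_span ⟨k, l + 1, rfl⟩
    have h3 := Submodule.add_mem _ h1 h2
    rw [Prod.mk_add_mk] at h3
    have h4 : Th (FG f g) (B (tk f k) (tk g l)) = B (tk f (k + 1)) (tk g l) +
        B (tk f k) (tk g (l + 1)) := B_T f g _ _
    have h5 : (α + β) * (α ^ k * β ^ l) = α ^ (k + 1) * β ^ l + α ^ k * β ^ (l + 1) := by ring
    dsimp only
    rw [h4, h5]
    exact h3
  | zero =>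
    rw [Prod.fst_zero, Prod.snd_zero, map_zero, mul_zero]
    exact Submodule.zero_mem _
  | add w w' _ _ h3 h4 =>
    have h5 := Submodule.add_mem _ h3 h4
    rw [Prod.mk_add_mk] at h5
    rw [Prod.fst_add, Prod.snd_add, map_add, mul_add]
    exact h5
  | smul c w _ h3 =>
    have h5 := Submodule.smul_mem _ c h3
    rw [Prod.smul_mk] at h5
    rw [Prod.smul_fst, Prod.smul_snd, map_smul, smul_eq_mul, mul_left_comm]
    exact h5

theorem gt_pow (α β : ℂ) (n : ℕ) : (tk (FG f g) n, (α + β) ^ n) ∈ GT f g α β := by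
  induction n with
  | zero =>
    refine Submodule.subset_span ⟨0, 0, ?_⟩
    rw [pow_zero, pow_zero, pow_zero, mul_one]
    exact Prod.ext B_one.symm rfl
  | succ n ih =>
    have h := gt_phi f g α β _ ih
    dsimp only at h
    rw [pow_succ']
    exact h

theorem gt_gr (α β : ℂ) (h1 : ∀ k, lam (tk f k) = α ^ k) (h1' : ∀ k, lam' (tk g k) = β ^ k) :
    GT f g α β ≤ GR f g lam lam' := by
  refine Submodule.span_le.2 ?_
  rintro _ ⟨k, l, rfl⟩
  refine Submodule.subset_span ⟨_, _, tk_mm f k, tk_mm g l, ?_⟩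
  rw [h1, h1']

theorem gr_Y (h0 : ∀ m, MM f m → lam (Y m) = 0) (w : LP (σ ⊕ τ)) (hw : w ∈ PS2 f g) :
    (Y w, (0 : ℂ)) ∈ GR f g lam lam' := by
  unfold PS2 at hw
  induction hw using Submodule.span_induction with
  | mem w hw =>
    obtain ⟨u, v, hu, hv, rfl⟩ := hw
    refine Submodule.subset_span ⟨Y u, v, MM.Y _ hu, hv, ?_⟩
    rw [B_YL, h0 u hu, zero_mul]
  | zero => rw [map_zero]; exact Submodule.zero_mem _
  | add w w' _ _ h3 h4 =>
    have h5 := Submodule.add_mem _ h3 h4
    rw [Prod.mk_add_mk, add_zero] at h5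
    rw [map_add]
    exact h5
  | smul c w _ h3 =>
    have h5 := Submodule.smul_mem _ c h3
    rw [Prod.smul_mk, smul_zero] at h5
    rw [map_smul]
    exact h5

theorem gr_q (α β : ℂ) (h : GT f g α β ≤ GR f g lam lam') (q : Polynomial ℂ) :
    (Polynomial.aeval (Th (FG f g) : Module.End ℂ (LP (σ ⊕ τ))) q o, q.eval (α + β)) ∈
      GR f g lam lam' := by
  induction q using Polynomial.induction_on' with
  | add p q hp hq =>
    have h2 := Submodule.add_mem _ hp hq
    rw [Prod.mk_add_mk] at h2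
    rw [map_add, LinearMap.add_apply, Polynomial.eval_add]
    exact h2
  | monomial n c =>
    have h2 := Submodule.smul_mem _ c (h (gt_pow f g α β n))
    rw [Prod.smul_mk, smul_eq_mul] at h2
    have h3 : Polynomial.aeval (Th (FG f g) : Module.End ℂ (LP (σ ⊕ τ)))
        (Polynomial.monomial n c) o = c • tk (FG f g) n := by
      rw [← Polynomial.C_mul_X_pow_eq_monomial, map_mul, Polynomial.aeval_C,
        Module.End.mul_apply, tk_pow]
      rfl
    rw [h3, Polynomial.eval_monomial]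
    exact h2

end graph

/-- **The roots of the functional equations of `f(x) + g(z)`.** -/
theorem root_add (f : MvPolynomial σ ℂ) (g : MvPolynomial τ ℂ) (α β : ℂ)
    (hα : ∀ (q : Polynomial ℂ) (m : LP σ), MM f m →
      Polynomial.aeval (Th f : Module.End ℂ (LP σ)) q o = Y m → q.eval α = 0)
    (hβ : ∀ (q : Polynomial ℂ) (m : LP τ), MM g m →
      Polynomial.aeval (Th g : Module.End ℂ (LP τ)) q o = Y m → q.eval β = 0)
    (q : Polynomial ℂ) (m : LP (σ ⊕ τ)) (hm : MM (FG f g) m)
    (hq : Polynomial.aeval (Th (FG f g) : Module.End ℂ (LP (σ ⊕ τ))) q o = Y m) :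
    q.eval (α + β) = 0 := by
  obtain ⟨lam, h0, h1⟩ := ex_lam f α hα
  obtain ⟨lam', h0', h1'⟩ := ex_lam g β hβ
  have hT : ∀ k, lam (tk f k) = α ^ k := by
    intro k
    rw [← tk_pow, h1, Polynomial.eval_pow, Polynomial.eval_X]
  have hT' : ∀ k, lam' (tk g k) = β ^ k := by
    intro k
    rw [← tk_pow, h1', Polynomial.eval_pow, Polynomial.eval_X]
  have h2 := gr_q f g lam lam' α β (gt_gr f g lam lam' α β hT hT') q
  have h5 := Submodule.sub_mem _ h2 (gr_Y f g lam lam' h0 m (mm_ps f g m hm))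
  rw [Prod.mk_sub_mk, hq, sub_self, sub_zero] at h5
  exact gr_fun f g lam lam' h0 h0' _ h5

end Pool.Agent.T6.H26.RA
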