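import Pool.Agent.T6.H26.PYG
import Pool.Agent.T6.H26.RAB

set_option autoImplicit false
set_option linter.unusedSectionVars false
set_option linter.unusedVariables false

/-! # The statement on roots of sums holds -/

namespace Pool.Agent.T6.H26.PX

open MeasureTheory Pool.Agent.W427.SMC Pool.Agent.Y230.PT Pool.Agent.Y230.PS
open Pool.Agent.Y230.TH MvPolynomial
open Pool.Agent.H628R4.TP (IsBFunction)
open scoped ENNReal

variable {σ τ : Type}

theorem NK.ne {K : Type} [Field K] {f : MvPolynomial σ K} (h : NK f) : f ≠ 0 := by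
  intro h0
  exact h 0 (by rw [h0, C_0])

theorem NK.nd {K : Type} [Field K] {f : MvPolynomial σ K} (h : NK f) : ¬ f ∣ 1 := by
  intro h0
  obtain ⟨c, -, h2⟩ := isUnit_iff_eq_C_of_isReduced.1 (isUnit_of_dvd_one h0)
  exact h c h2

theorem fb_lam {F : MvPolynomial σ ℂ} (hF : NK F) (α : ℂ) (h : FB F α (1 + dl α)) :
    ∀ (q : Polynomial ℂ) (m : RA.LP σ), RA.MM F m →
      Polynomial.aeval (RA.Th F : Module.End ℂ (RA.LP σ)) q RA.o = RA.Y m → q.eval α = 0 := by
  intro q m hm hq
  exact root_red α q (h _ (RA.mod_fe Pool.Agent.Y21.TH.tA F hF.ne q m hm hq))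

/-- **The roots of the functional equations of `f(x) + g(z)`.** -/
theorem stAdd : StAdd := by
  intro σ τ F G hF hG α β h1 h2 b hb
  have hN : NK (rename Sum.inl F + rename Sum.inr G : MvPolynomial (σ ⊕ τ) ℂ) := hF.inl G
  obtain ⟨b', e, m, hm, hq⟩ := RA.fe_mod _ hN.ne hN.nd b hb
  rw [e]
  refine dvd_dl (α + β) 1 b' ?_
  rw [pow_one, Polynomial.dvd_iff_isRoot]
  exact RA.root_add F G α β (fb_lam hF α h1) (fb_lam hG β h2) b' m hm hq

end Pool.Agent.T6.H26.PX
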