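import Pool.Agent.T6.H26.PYH
import Pool.Agent.T6.H26.PXW

set_option autoImplicit false
set_option linter.unusedSectionVars false
set_option linter.unusedVariables false

/-! # From the class `XC` to the averaged exponential sums -/

namespace Pool.Agent.T6.H26.PX

open MeasureTheory Pool.Agent.W427.SMC Pool.Agent.Y230.PT Pool.Agent.Y230.PS
open Pool.Agent.Y230.TH MvPolynomial
open Pool.Agent.W574.RO Pool.Agent.R852.PP
open Pool.Agent.H628R4.TP (IsBFunction)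
open scoped ENNReal

variable {p : ℕ} [Fact p.Prime]

attribute [local instance] msZ bsZ msK bsK nz

section cmp

variable {σ : Type} [Fintype σ] (φ : ℚ_[p] →+* ℂ)

theorem FB_map (g : MvPolynomial σ ℚ) (r : ℂ) (m : ℕ) :
    FB (map φ (map (algebraMap ℚ ℚ_[p]) g)) r m ↔ FK ⟨σ, Fin 1, fun _ => g⟩ r m := by
  have e : map φ (map (algebraMap ℚ ℚ_[p]) g) = map (algebraMap ℚ ℂ) g := by
    have h : φ.comp (algebraMap ℚ ℚ_[p]) = algebraMap ℚ ℂ := RingHom.ext_rat _ _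
    rw [map_map, h]
  rw [e, FK_iff]
  rfl

theorem mC_mE (g : MvPolynomial σ ℚ) (T : ℂ) :
    mC φ (map (algebraMap ℚ ℚ_[p]) g) T = mE p g T := by
  by_cases h : FK ⟨σ, Fin 1, fun _ => g⟩ ((rr p T : ℝ) : ℂ) (1 + dl ((rr p T : ℝ) : ℂ))
  · rw [mE_top h, mC_top ((FB_map φ g _ _).2 h)]
  · rw [mE_zero h, mC_zero fun h1 => h ((FB_map φ g _ _).1 h1)]

theorem mC_inv (f : MvPolynomial σ ℚ_[p]) (a : ℚ_[p]) (ha : a ≠ 0) (T : ℂ) :
    mC φ (C a * f) T ≤ mC φ f T := by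
  have h := mC_smul φ (C a * f) a⁻¹ (inv_ne_zero ha) T
  rwa [← mul_assoc, ← map_mul, inv_mul_cancel₀ ha, map_one, one_mul] at h

/-- the polynomials with good exponential sums -/
theorem XC.of_XE {g : MvPolynomial σ ℚ} (h : XE (mE p g) (map (algebraMap ℚ ℚ_[p]) g)) :
    XC φ (map (algebraMap ℚ ℚ_[p]) g) := by
  obtain ⟨K, G, hr, hE⟩ := h
  refine ⟨K, G, hr, ?_⟩
  have h0 : inc p (0 : ℤ_[p]) = 0 := by simp [inc]
  refine (DC.one (φ := φ) (F := C ((p : ℚ_[p]) ^ K) * map (algebraMap ℚ ℚ_[p]) g) 0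
    (D := Et (Measure.pi fun _ : σ => mu p) G) ?_).congr fun u _ m => ?_
  · rw [h0, map_zero, sub_zero]
    refine hE.mono fun T _ => tr_mono (fun T _ => ?_) T
    rw [← mC_mE φ g T]
    exact mC_smul φ _ _ (pow_ne_zero K p0) T
  · rw [mul_zero, (ch_one_iff p m 0).2 (by rw [norm_zero]; exact pow_nonneg (pinv_pos p).le m),
      one_mul]

end cmp

/-- sequences with a factor which vanishes eventually -/
theorem N0_mul (c : ℕ → ℂ) (z : ℤ_[p]) (hz : z ≠ 0) :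
    (fun m => c m * (if ‖z‖ ≤ ((p : ℝ)⁻¹) ^ m then (1 : ℂ) else 0)) ∈ N0 := by
  have h1 : 0 < ‖z‖ := norm_pos_iff.2 hz
  obtain ⟨n, hn⟩ := exists_pow_lt_of_lt_one h1 (pinv_lt (p := p))
  refine (mem_N0 _).2 ⟨n, fun e he => ?_⟩
  rw [if_neg, mul_zero]
  intro h2
  have h3 := (pw_le_iff (p := p) _ _).2 he
  exact absurd (lt_of_le_of_lt (h2.trans h3) hn) (lt_irrefl _)

section avg

variable {Ω : Type} [MeasurableSpace Ω] (μ : Measure Ω) [IsProbabilityMeasure μ] (G : Ω → ℤ_[p])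

/-- **Averages of a sum over values.** -/
theorem Eb_mem (hG : Measurable G) {c : ℕ} (hc : 1 ≤ c) {ι : Type} [Fintype ι] (v : ι → ℤ_[p])
    (D : ι → ℤ_[p] → ℕ → ℂ) (M : ℂ → ℕ∞)
    (hD : ∀ i, ∃ c0 : ℕ, ∀ u w : ℤ_[p], ‖u‖ = 1 → ‖w‖ = 1 → ‖u - w‖ ≤ ((p : ℝ)⁻¹) ^ c0 →
      ∀ m, D i u m = D i w m)
    (h0 : ∀ i, v i = 0 → ∀ u : ℤ_[p], ‖u‖ = 1 → D i u ∈ EP M)
    (hE : ∀ u : ℤ_[p], ‖u‖ = 1 → ∀ m, Et μ G u m = ∑ i, ch p m (u * v i) * D i u m)
    (u : ℤ_[p]) (hu : ‖u‖ = 1) : Eb μ G c u ∈ EP M := by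
  classical
  choose c0 hc0 using hD
  set e : ℕ := ∑ i, c0 i with he
  have hle : ∀ i, c0 i ≤ e := fun i => Finset.single_le_sum (f := c0)
    (fun _ _ => Nat.zero_le _) (Finset.mem_univ i)
  have hloc : ∀ i (w z : ℤ_[p]) (m : ℕ), D i (u * uo c (w + (p : ℤ_[p]) ^ e * z)) m =
      D i (u * uo c w) m := by
    intro i w z m
    refine hc0 i _ _ (by rw [norm_mul, hu, uo_norm hc, one_mul])
      (by rw [norm_mul, hu, uo_norm hc, one_mul]) ?_ m
    rw [← mul_sub, norm_mul, hu, one_mul]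
    unfold uo
    rw [add_sub_add_left_eq_sub, ← mul_sub, norm_mul, norm_p_pow, add_sub_cancel_left,
      norm_mul, norm_p_pow]
    have h3 : ((p : ℝ)⁻¹) ^ c ≤ 1 := pow_le_one₀ (pinv_pos p).le pinv_lt.le
    have h4 : ((p : ℝ)⁻¹) ^ e * ‖z‖ ≤ ((p : ℝ)⁻¹) ^ e :=
      mul_le_of_le_one_right (pow_nonneg (pinv_pos p).le _) (PadicInt.norm_le_one z)
    calc ((p : ℝ)⁻¹) ^ c * (((p : ℝ)⁻¹) ^ e * ‖z‖) ≤ 1 * ((p : ℝ)⁻¹) ^ e :=
          mul_le_mul h3 h4 (mul_nonneg (pow_nonneg (pinv_pos p).le _) (norm_nonneg _)) zero_le_one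
      _ = ((p : ℝ)⁻¹) ^ e := one_mul _
      _ ≤ ((p : ℝ)⁻¹) ^ c0 i := (pw_le_iff _ _).2 (hle i)
  have e1 : Eb μ G c u = ∑ w : ZMod (p ^ e), (((p : ℂ)⁻¹) ^ e) • ∑ i, fun m =>
      (ch p m (u * uo c (w.val : ℤ_[p]) * v i) * D i (u * uo c (w.val : ℤ_[p])) m) *
        (if ‖(p : ℤ_[p]) ^ (c + e) * (u * v i)‖ ≤ ((p : ℝ)⁻¹) ^ m then (1 : ℂ) else 0) := by
    funext m
    unfold Eb
    have hm : Measurable (fun y : ℤ_[p] => Et μ G (u * uo c y) m) :=
      (Et_meas μ G m).comp (measurable_const.mul (uo_cont c).measurable)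
    rw [integral_sm p e _ hm 1 (fun x => (Et_loc μ G).bdd _ _), Finset.sum_apply]
    refine Finset.sum_congr rfl fun w _ => ?_
    rw [Pi.smul_apply, smul_eq_mul, Finset.sum_apply]
    congr 1
    have h2 : ∀ z : ℤ_[p], Et μ G (u * uo c ((w.val : ℤ_[p]) + (p : ℤ_[p]) ^ e * z)) m =
        ∑ i, (ch p m (u * uo c (w.val : ℤ_[p]) * v i) * D i (u * uo c (w.val : ℤ_[p])) m) *
          ch p m (z * ((p : ℤ_[p]) ^ (c + e) * (u * v i))) := by
      intro z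
      rw [hE _ (by rw [norm_mul, hu, uo_norm hc, one_mul])]
      refine Finset.sum_congr rfl fun i _ => ?_
      rw [hloc]
      have h3 : u * uo c ((w.val : ℤ_[p]) + (p : ℤ_[p]) ^ e * z) * v i =
          u * uo c (w.val : ℤ_[p]) * v i + z * ((p : ℤ_[p]) ^ (c + e) * (u * v i)) := by
        unfold uo
        rw [pow_add]
        ring
      rw [h3, ch_add]
      ring
    simp only [h2]
    rw [integral_finsetSum]
    · refine Finset.sum_congr rfl fun i _ => ?_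
      rw [integral_const_mul, ch_int]
    · intro i _
      refine Integrable.const_mul (bdd_int _ _ ((ch_meas p m).comp
        (measurable_id.mul_const _)) 1 fun x => (norm_ch p m _).le) _
  rw [e1]
  refine Submodule.sum_mem _ fun w _ => Submodule.smul_mem _ _ (Submodule.sum_mem _ fun i _ => ?_)
  by_cases hv : v i = 0
  · have h5 : (fun m => (ch p m (u * uo c (w.val : ℤ_[p]) * v i) *
        D i (u * uo c (w.val : ℤ_[p])) m) *
        (if ‖(p : ℤ_[p]) ^ (c + e) * (u * v i)‖ ≤ ((p : ℝ)⁻¹) ^ m then (1 : ℂ) else 0)) =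
        D i (u * uo c (w.val : ℤ_[p])) := by
      funext m
      have h6 : (0 : ℝ) ≤ ((p : ℝ)⁻¹) ^ m := pow_nonneg (pinv_pos p).le m
      rw [hv, mul_zero, mul_zero, mul_zero, norm_zero, if_pos h6, mul_one,
        (ch_one_iff p m 0).2 (by rw [norm_zero]; exact h6), one_mul]
    rw [h5]
    exact h0 i hv _ (by rw [norm_mul, hu, uo_norm hc, one_mul])
  · refine N0_EP M (N0_mul _ _ ?_)
    have hu0 : u ≠ 0 := by
      intro h
      rw [h, norm_zero] at hu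
      exact zero_ne_one hu
    have hp : (p : ℤ_[p]) ≠ 0 := by exact_mod_cast (Fact.out : p.Prime).ne_zero
    exact mul_ne_zero (pow_ne_zero _ hp) (mul_ne_zero hu0 hv)

end avg

/-- **The averaged exponential sums of the class.** -/
theorem XC.XG {σ : Type} [Fintype σ] {φ : ℚ_[p] →+* ℂ} {g : MvPolynomial σ ℚ}
    (h : XC φ (map (algebraMap ℚ ℚ_[p]) g)) : XG (mE p g) (map (algebraMap ℚ ℚ_[p]) g) := by
  obtain ⟨K, G, hr, ι, hι, v, D, hD, hE⟩ := h
  have hG := hr.cont.measurable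
  refine ⟨K, G, hr, fun c hc => ⟨c, fun u w hu hw huw m => ?_, fun u hu => ?_⟩⟩
  · rw [Eb_eq_Ea _ _ c u hu, Eb_eq_Ea _ _ c w hw, Ea_eq _ _ hG hc u hu, Ea_eq _ _ hG hc w hw,
      toZ_congr huw]
  · refine Eb_mem _ G hG hc v D _ (fun i => ?_) (fun i hi u hu => ?_) hE u hu
    · obtain ⟨c0, h1, -⟩ := hD i
      exact ⟨c0, h1⟩
    · obtain ⟨c0, -, h2⟩ := hD i
      refine EP_mono (fun T _ => tr_mono (fun T _ => ?_) T) (h2 u hu)
      have h0 : inc p (v i) = 0 := by rw [hi]; simp [inc]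
      rw [h0, map_zero, sub_zero]
      exact (mC_inv φ _ _ (pow_ne_zero K p0) T).trans (mC_mE φ g T).le

/-- **The averaged exponential sums of the class are controlled by the roots.** -/
theorem MG.of_XC {σ : Type} [Fintype σ] {φ : ℚ_[p] →+* ℂ} {g : MvPolynomial σ ℚ} (hg : NK g)
    (h : XC φ (map (algebraMap ℚ ℚ_[p]) g)) : MG p g := ⟨nc_of hg, h.XG⟩

end Pool.Agent.T6.H26.PX
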