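import Pool.Agent.T6.H26.PXV

set_option autoImplicit false
set_option linter.unusedSectionVars false
set_option linter.unusedVariables false

/-! # Sums of arbitrary plane curves: the definitions -/

namespace Pool.Agent.T6.H26.PX

open MvPolynomial Pool.Agent.Y230.PS Pool.Agent.Y230.TH Pool.Agent.R852.PP
open Pool.Agent.T6.H26

/-- The polynomials which are **sums, in disjoint sets of variables**, of arbitrary nonconstant
polynomials in two variables and of weighted homogeneous polynomials of the class `Susp`;
`SumCurves S F` means that `S` is the set of the variables of such an expression of `F`. -/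
inductive SumCurves {V : Type} [DecidableEq V] : Finset V → MvPolynomial V ℚ → Prop
  /-- **any** nonconstant polynomial in two variables -/
  | curve (g : MvPolynomial (Fin 2) ℚ) (hg : ∀ c, g ≠ C c) (e : Fin 2 ↪ V) :
      SumCurves (Finset.univ.map e) (rename e g)
  /-- a weighted homogeneous polynomial (of positive degree, for some integral weights) of the class
  `Susp`: for example a weighted homogeneous polynomial with an isolated critical point, a nonzero
  linear form `∑_j y_j f_j(x₁, x₂)` over an ideal, a product of weighted homogeneous polynomials in
  two variables each -/
  | wh (S : Finset V) (F : MvPolynomial V ℚ) (h : Susp S F) (hw : WH F) : SumCurves S F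
  /-- **the sum of two polynomials with disjoint sets of variables** -/
  | add (S T : Finset V) (hST : Disjoint S T) (F G : MvPolynomial V ℚ) (hF : SumCurves S F)
      (hG : SumCurves T G) : SumCurves (S ∪ T) (F + G)
  /-- constant factors -/
  | smul (S : Finset V) (F : MvPolynomial V ℚ) (c : ℚ) (hc : c ≠ 0) (hF : SumCurves S F) :
      SumCurves S (C c * F)

end Pool.Agent.T6.H26.PX
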