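import Pool.Agent.T6.H26.PYI
import Pool.Agent.T6.H26.PYJ
import Pool.Agent.T6.H26.PXX

set_option autoImplicit false
set_option linter.unusedSectionVars false
set_option linter.unusedVariables false

/-! # Sums of arbitrary plane curves: the zeta functions -/

namespace Pool.Agent.T6.H26.PX

open MvPolynomial MeasureTheory
open Pool.Agent.W427.SMC
open Pool.Agent.Y230.PT Pool.Agent.Y230.PS Pool.Agent.Y230.TH Pool.Agent.R852.PP
open Pool.Agent.W574.RO Pool.Agent.W574.CN
open Pool.Agent.T6.H26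
open Pool.Agent.H628R4.TP (IsBFunction weylS)

attribute [local instance] msZ bsZ msK bsK nz

section cls

variable {V : Type} [DecidableEq V]

theorem xc_leaf {p : ℕ} [Fact p.Prime] (φ : ℚ_[p] →+* ℂ) {τ : Type} [Fintype τ] (e : τ ↪ V)
    (g : MvPolynomial τ ℚ) (h : XC φ (map (algebraMap ℚ ℚ_[p]) g)) :
    XC φ (map (algebraMap ℚ ℚ_[p]) (rename (fun t : τ =>
      (⟨e t, Finset.mem_map_of_mem e (Finset.mem_univ t)⟩ :
        {x // x ∈ Finset.univ.map e})) g)) := by
  have hb : Function.Bijective (fun t : τ => (⟨e t, Finset.mem_map_of_mem e (Finset.mem_univ t)⟩ :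
      {x // x ∈ Finset.univ.map e})) := by
    refine ⟨fun a b hab => e.injective (congrArg Subtype.val hab), fun x => ?_⟩
    obtain ⟨x, hx⟩ := x
    obtain ⟨t, -, rfl⟩ := Finset.mem_map.1 hx
    exact ⟨t, rfl⟩
  have h1 := h.equiv (Equiv.ofBijective _ hb)
  rw [← map_rename] at h1
  exact h1

theorem NK.of_WH {σ : Type} {g : MvPolynomial σ ℚ} (h : WH g) : NK g := by
  intro c hc
  have h1 := NC.of_WH h
  by_cases h0 : c = 0
  · exact h1.1 (by rw [hc, h0, C_0])
  · exact h1.2 (by rw [hc]; exact (isUnit_iff_ne_zero.2 h0).map C)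

theorem NK.unrename {σ τ : Type} (f : σ → τ) {g : MvPolynomial σ ℚ}
    (h : NK (rename f g)) : NK g := by
  intro c hc
  exact h c (by rw [hc, rename_C])

theorem NK.rename' {σ τ : Type} (f : σ → τ) (hf : Function.Injective f) {g : MvPolynomial σ ℚ}
    (h : NK g) : NK (rename f g) := by
  intro c hc
  apply h c
  apply rename_injective f hf
  rw [hc, rename_C]

/-- **The exponential sums of the class.** -/
theorem sum_XC (S : Finset V) (F : MvPolynomial V ℚ) (h : SumCurves S F) :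
    ∃ g : MvPolynomial S ℚ, rename Subtype.val g = F ∧ NK g ∧
      ∀ (p : ℕ) [Fact p.Prime] (φ : ℚ_[p] →+* ℂ), XC φ (map (algebraMap ℚ ℚ_[p]) g) := by
  induction h with
  | curve g hg e =>
    have hg' : NK g := hg
    refine ⟨rename (fun t : Fin 2 => (⟨e t, Finset.mem_map_of_mem e (Finset.mem_univ t)⟩ :
      {x // x ∈ Finset.univ.map e})) g, by rw [rename_rename]; rfl,
      hg'.rename' _ fun a b hab => e.injective (congrArg Subtype.val hab), fun p _ φ => ?_⟩
    exact xc_leaf φ e g (XC_curve φ _ (hg'.map _))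
  | wh S F h hw =>
    obtain ⟨g, rfl, hg⟩ := rs_susp S F h
    have hw' := WH.unrename _ Subtype.val_injective hw
    refine ⟨g, rfl, NK.of_WH hw', fun p _ φ => ?_⟩
    exact XC.of_XE φ ((of_mos (rs_main (p := p) Ks.gen _ hg)).wh hw')
  | add S T hST F G hF hG ihF ihG =>
    obtain ⟨f, rfl, hNf, hf⟩ := ihF
    obtain ⟨g, rfl, hNg, hg⟩ := ihG
    refine ⟨rename (Equiv.Finset.union S T hST) (rename Sum.inl f + rename Sum.inr g), ?_, ?_,
      fun p _ φ => ?_⟩
    · rw [map_add, map_add, rename_rename, rename_rename, rename_rename, rename_rename]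
      rfl
    · exact (hNf.inl g).equiv _
    · have h1 := (XC.add stAdd (hNf.map (algebraMap ℚ ℚ_[p])) (hNg.map (algebraMap ℚ ℚ_[p]))
        (hf p φ) (hg p φ)).equiv (Equiv.Finset.union S T hST)
      rw [← map_rename, ← map_rename, ← map_add, ← map_rename] at h1
      exact h1
  | smul S F c hc hF ih =>
    obtain ⟨f, rfl, hNf, hf⟩ := ih
    refine ⟨C c * f, by rw [map_mul, rename_C], hNf.smul c hc, fun p _ φ => ?_⟩
    rw [map_mul, map_C]
    refine (hf p φ).smul _ ?_
    rw [Ne, map_eq_zero_iff _ (algebraMap ℚ ℚ_[p]).injective]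
    exact hc

theorem sum_MG {p : ℕ} [Fact p.Prime] [Fintype V] (S : Finset V) (F : MvPolynomial V ℚ)
    (h : SumCurves S F) : MG p F := by
  obtain ⟨φ⟩ := exists_emb p
  obtain ⟨g, rfl, hN, hg⟩ := sum_XC S F h
  have h1 : MG p g := MG.of_XC hN (hg p φ)
  have h2 := (h1.ext (τ := {i : V // ¬ i ∈ S})).equiv (Equiv.sumCompl fun i : V => i ∈ S)
  have e : rename (Equiv.sumCompl fun i : V => i ∈ S)
      (rename Sum.inl g : MvPolynomial (S ⊕ {i : V // ¬ i ∈ S}) ℚ) = rename Subtype.val g := by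
    rw [rename_rename]
    rfl
  rwa [e] at h2

end cls

section zeta

variable {p : ℕ} [Fact p.Prime] {V : Type} [Fintype V]

/-- **The real parts of the poles are roots.** -/
theorem mg_R (F : MvPolynomial V ℚ) (hF : MG p F) (b : Polynomial ℂ)
    (hb : Pool.Agent.H628R4.TP.IsBFunction (map (algebraMap ℚ ℂ) F) b)
    (Z : ℂ → ℂ) (hZ : MeromorphicOn Z Set.univ)
    (hZp : ∀ s : ℂ, 0 < s.re → Z s = zetaQ p F s) (s₀ : ℂ) (hs : meromorphicOrderAt Z s₀ < 0) :
    b.eval (s₀.re : ℂ) = 0 := by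
  have hM := isMltP_R (p := p)
  have h2 := (mos_gen (mos_of hF)).2.mono (hM.base.hyp _)
  obtain ⟨D, P, hD0, h1, h4⟩ := h2.rat
  have h3 := mero_bound p D P hD0 Z hZ (fun s hs => by
    rw [pw_real, hZp s (by simpa using hs), zetaQ_eq, ← FF_hyp]
    exact h1 s hs.le) s₀
  have h5 : rr p (pw p s₀) = s₀.re := pw_norm p s₀
  rw [← h5]
  refine root_of_tr F b hb _ (D.rootMultiplicity (pw p s₀)) (fun h0 => ?_)
    (h4 _ (pw_ne_zero p s₀))
  rw [h0] at h3
  exact absurd (lt_of_le_of_lt h3 hs) (by simp)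

variable {c : ℕ} (θ : DirichletCharacter ℂ (p ^ c))

/-- **The zeta functions with characters: the real parts of the poles are roots.** -/
theorem mg_T (hc : 1 ≤ c) (F : MvPolynomial V ℚ) (hF : MG p F) (b : Polynomial ℂ)
    (hb : IsBFunction (map (algebraMap ℚ ℂ) F) b)
    (Z : ℂ → ℂ) (hZ : MeromorphicOn Z Set.univ)
    (hZp : ∀ s : ℂ, 0 < s.re → Z s = zetaT p θ F s) (s₀ : ℂ)
    (hs : meromorphicOrderAt Z s₀ < 0) : b.eval (s₀.re : ℂ) = 0 := by
  obtain ⟨hNC, K, G, hr, hE⟩ := hF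
  have hG := hr.cont.measurable
  obtain ⟨D, P, hD0, h1, h2⟩ := Zx_rat θ _ G hG hc (Sx_good θ _ G hG hc (hE c hc))
  have hD1 : Polynomial.X ^ K * D ≠ 0 := mul_ne_zero (pow_ne_zero _ Polynomial.X_ne_zero) hD0
  have h3 := mero_bound p (Polynomial.X ^ K * D) P hD1 Z hZ (fun s hs => by
    rw [pw_real, hZp s (by simpa using hs), ← h1 s hs, Zx_zetaT θ hc F K G hr s,
      Polynomial.eval_mul, Polynomial.eval_pow, Polynomial.eval_X]
    ring) s₀
  have h5 : rr p (pw p s₀) = s₀.re := pw_norm p s₀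
  rw [← h5]
  have h6 : (Polynomial.X ^ K * D).rootMultiplicity (pw p s₀) =
      D.rootMultiplicity (pw p s₀) := by
    rw [Polynomial.rootMultiplicity_mul hD1, Polynomial.rootMultiplicity_eq_zero, zero_add]
    rw [Polynomial.IsRoot, Polynomial.eval_pow, Polynomial.eval_X]
    exact pow_ne_zero _ (pw_ne_zero p s₀)
  rw [h6] at h3
  refine root_tw hNC b hb _ (D.rootMultiplicity (pw p s₀)) (fun h0 => ?_)
    (h2 _ (pw_ne_zero p s₀))
  rw [h0] at h3
  exact absurd (lt_of_le_of_lt h3 hs) (by simp)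

/-- **Non-trivial characters: the real parts of the poles are roots of the reduced polynomial.** -/
theorem mg_N (hc : 1 ≤ c) (hθ : θ ≠ 1) (F : MvPolynomial V ℚ) (hF : MG p F) (q : Polynomial ℂ)
    (hb : IsBFunction (map (algebraMap ℚ ℂ) F) ((Polynomial.X + 1) * q))
    (Z : ℂ → ℂ) (hZ : MeromorphicOn Z Set.univ)
    (hZp : ∀ s : ℂ, 0 < s.re → Z s = zetaT p θ F s) (s₀ : ℂ)
    (hs : meromorphicOrderAt Z s₀ < 0) : q.eval (s₀.re : ℂ) = 0 := by
  obtain ⟨hNC, K, G, hr, hE⟩ := hF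
  have hG := hr.cont.measurable
  obtain ⟨D, P, hD0, h1, h2⟩ := Zx_rat θ _ G hG hc (Sx_red _ G θ hG hc hθ (hE c hc))
  have hD1 : Polynomial.X ^ K * D ≠ 0 := mul_ne_zero (pow_ne_zero _ Polynomial.X_ne_zero) hD0
  have h3 := mero_bound p (Polynomial.X ^ K * D) P hD1 Z hZ (fun s hs => by
    rw [pw_real, hZp s (by simpa using hs), ← h1 s hs, Zx_zetaT θ hc F K G hr s,
      Polynomial.eval_mul, Polynomial.eval_pow, Polynomial.eval_X]
    ring) s₀
  have h5 : rr p (pw p s₀) = s₀.re := pw_norm p s₀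
  rw [← h5]
  have h6 : (Polynomial.X ^ K * D).rootMultiplicity (pw p s₀) =
      D.rootMultiplicity (pw p s₀) := by
    rw [Polynomial.rootMultiplicity_mul hD1, Polynomial.rootMultiplicity_eq_zero, zero_add]
    rw [Polynomial.IsRoot, Polynomial.eval_pow, Polynomial.eval_X]
    exact pow_ne_zero _ (pw_ne_zero p s₀)
  rw [h6] at h3
  refine root_rd q hb _ (D.rootMultiplicity (pw p s₀)) (fun h0 => ?_)
    (h2 _ (pw_ne_zero p s₀))
  rw [h0] at h3
  exact absurd (lt_of_le_of_lt h3 hs) (by simp)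

end zeta

end Pool.Agent.T6.H26.PX
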