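import Pool.Agent.T6.H26.PYK

set_option autoImplicit false
set_option linter.unusedSectionVars false
set_option linter.unusedVariables false

/-! # Sums of arbitrary plane curves: the explicit form -/

namespace Pool.Agent.T6.H26.PX

open MvPolynomial

/-- the variables `x_i, y_i` -/
def emb2 {k : ℕ} (i : Fin k) : Fin 2 ↪ Fin k × Fin 2 :=
  ⟨fun j => (i, j), fun a b hab => (Prod.mk.inj hab).2⟩

theorem map_emb2 {k : ℕ} (i : Fin k) : Finset.univ.map (emb2 i) =
    ({i} : Finset (Fin k)) ×ˢ (Finset.univ : Finset (Fin 2)) := by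
  ext ⟨a, b⟩
  rw [Finset.mem_map, Finset.mem_product, Finset.mem_singleton]
  constructor
  · rintro ⟨x, -, hx⟩
    have h1 : (i, x) = (a, b) := hx
    exact ⟨(Prod.mk.inj h1).1.symm, Finset.mem_univ _⟩
  · rintro ⟨h1, -⟩
    dsimp only at h1
    refine ⟨b, Finset.mem_univ _, ?_⟩
    change (i, b) = (a, b)
    rw [h1]

/-- `∑_{i ∈ s} g_i(x_i, y_i)` -/
theorem sum_curves_mem (k : ℕ) (g : Fin k → MvPolynomial (Fin 2) ℚ) (hg : ∀ i c, g i ≠ C c)
    (s : Finset (Fin k)) (hs : s.Nonempty) :
    SumCurves (s ×ˢ (Finset.univ : Finset (Fin 2)))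
      (∑ i ∈ s, rename (fun j : Fin 2 => (i, j)) (g i)) := by
  induction hs using Finset.Nonempty.cons_induction with
  | singleton i =>
    rw [Finset.sum_singleton]
    have h := SumCurves.curve (g i) (hg i) (emb2 i)
    rw [map_emb2] at h
    exact h
  | cons i s hi hs ih =>
    rw [Finset.sum_cons]
    have h := SumCurves.curve (g i) (hg i) (emb2 i)
    rw [map_emb2] at h
    have hd : Disjoint (({i} : Finset (Fin k)) ×ˢ (Finset.univ : Finset (Fin 2)))
        (s ×ˢ (Finset.univ : Finset (Fin 2))) := by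
      rw [Finset.disjoint_left]
      rintro ⟨a, b⟩ h1 h2
      have h3 := Finset.mem_singleton.1 (Finset.mem_product.1 h1).1
      have h4 := (Finset.mem_product.1 h2).1
      dsimp only at h3 h4
      rw [h3] at h4
      exact hi h4
    have h5 := SumCurves.add _ _ hd _ _ h ih
    have e2 : (({i} : Finset (Fin k)) ×ˢ (Finset.univ : Finset (Fin 2))) ∪
        (s ×ˢ (Finset.univ : Finset (Fin 2))) = (Finset.cons i s hi) ×ˢ Finset.univ := by
      ext ⟨a, b⟩
      simp [eq_comm]
    rw [e2] at h5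
    exact h5

end Pool.Agent.T6.H26.PX
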