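import Pool.Agent.T6.H26.PXV

set_option autoImplicit false
set_option linter.unusedSectionVars false
set_option linter.unusedVariables false

/-! # Arithmetic formulas over plane curves: the definitions -/

namespace Pool.Agent.T6.H26.PX

open MvPolynomial Pool.Agent.Y230.PS Pool.Agent.Y230.TH Pool.Agent.R852.PP
open Pool.Agent.T6.H26

/-- Two classes of polynomials which are built in disjoint sets of variables from arbitrary plane
curves: `Arith false S F` is the larger class, closed under products and powers, and `Arith true S F`
is the smaller one, closed under **arbitrary sums**. Here `S` is the set of the variables of such an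
expression of `F`. -/
inductive Arith {V : Type} [DecidableEq V] : Bool → Finset V → MvPolynomial V ℚ → Prop
  /-- **any** nonconstant polynomial in two variables -/
  | curve (g : MvPolynomial (Fin 2) ℚ) (hg : ∀ c, g ≠ C c) (e : Fin 2 ↪ V) :
      Arith true (Finset.univ.map e) (rename e g)
  /-- **the sum of two polynomials with disjoint sets of variables** -/
  | add (S T : Finset V) (hST : Disjoint S T) (F G : MvPolynomial V ℚ) (hF : Arith true S F)
      (hG : Arith true T G) : Arith true (S ∪ T) (F + G)
  /-- weighted homogeneous polynomials (of positive degree, for some integral weights) of the larger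
  class are in the smaller one -/
  | wh (S : Finset V) (F : MvPolynomial V ℚ) (h : Arith false S F) (hw : WH F) : Arith true S F
  /-- the smaller class is contained in the larger one -/
  | of (S : Finset V) (F : MvPolynomial V ℚ) (h : Arith true S F) : Arith false S F
  /-- the class `RS Ks.gen`, in any variables -/
  | gen (τ : Type) [Fintype τ] (g : MvPolynomial τ ℚ) (h : RS Ks.gen ⟨τ, Fin 1, fun _ => g⟩)
      (e : τ ↪ V) : Arith false (Finset.univ.map e) (rename e g)
  /-- the sum of a weighted homogeneous polynomial and a polynomial of the larger class, with
  disjoint sets of variables -/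
  | addW (S T : Finset V) (hST : Disjoint S T) (F G : MvPolynomial V ℚ) (hF : Arith false S F)
      (hw : WH F) (hG : Arith false T G) : Arith false (S ∪ T) (F + G)
  /-- the product of two polynomials with disjoint sets of variables -/
  | mul (S T : Finset V) (hST : Disjoint S T) (F G : MvPolynomial V ℚ) (hF : Arith false S F)
      (hG : Arith false T G) : Arith false (S ∪ T) (F * G)
  /-- powers -/
  | pow (S : Finset V) (F : MvPolynomial V ℚ) (k : ℕ) (hk : k ≠ 0) (hF : Arith false S F) :
      Arith false S (F ^ k)
  /-- constant factors -/
  | smul (k : Bool) (S : Finset V) (F : MvPolynomial V ℚ) (c : ℚ) (hc : c ≠ 0)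
      (hF : Arith k S F) : Arith k S (C c * F)

end Pool.Agent.T6.H26.PX
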