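import Pool.Agent.T6.H26.PYM
import Pool.Agent.T6.H26.PYL

set_option autoImplicit false
set_option linter.unusedSectionVars false
set_option linter.unusedVariables false

/-! # Arithmetic formulas over plane curves: the zeta functions -/

namespace Pool.Agent.T6.H26.PX

open MvPolynomial MeasureTheory
open Pool.Agent.W427.SMC
open Pool.Agent.Y230.PT Pool.Agent.Y230.PS Pool.Agent.Y230.TH Pool.Agent.R852.PP
open Pool.Agent.W574.RO Pool.Agent.W574.CN
open Pool.Agent.T6.H26
open Pool.Agent.H628R4.TP (IsBFunction weylS)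

attribute [local instance] msZ bsZ msK bsK nz

section cls

variable {V : Type} [DecidableEq V]

/-- the properties of the two classes -/
def AM {σ : Type} [Fintype σ] (k : Bool) (g : MvPolynomial σ ℚ) : Prop :=
  NK g ∧ (k = true → ∀ (p : ℕ) [Fact p.Prime] (φ : ℚ_[p] →+* ℂ),
    XC φ (map (algebraMap ℚ ℚ_[p]) g)) ∧ ∀ (p : ℕ) [Fact p.Prime], MG p g

theorem AM.mk {σ : Type} [Fintype σ] {k : Bool} {g : MvPolynomial σ ℚ} (hg : NK g)
    (h : ∀ (p : ℕ) [Fact p.Prime] (φ : ℚ_[p] →+* ℂ), XC φ (map (algebraMap ℚ ℚ_[p]) g)) :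
    AM k g :=
  ⟨hg, fun _ => h, fun p _ => by
    obtain ⟨φ⟩ := exists_emb p
    exact MG.of_XC hg (h p φ)⟩

theorem nk_of_NC {σ : Type} {g : MvPolynomial σ ℚ} (h1 : NC g) : NK g := by
  intro c hc
  by_cases h0 : c = 0
  · exact h1.1 (by rw [hc, h0, C_0])
  · exact h1.2 (by rw [hc]; exact (isUnit_iff_ne_zero.2 h0).map C)

theorem AM.mg {σ : Type} [Fintype σ] {g : MvPolynomial σ ℚ}
    (h : ∀ (p : ℕ) [Fact p.Prime], MG p g) : AM false g :=
  ⟨nk_of_NC (h 2).1, fun h => absurd h (by simp), h⟩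

theorem mg_leaf {p : ℕ} [Fact p.Prime] {τ : Type} [Fintype τ] (e : τ ↪ V)
    (g : MvPolynomial τ ℚ) (h : MG p g) :
    MG p (rename (fun t : τ => (⟨e t, Finset.mem_map_of_mem e (Finset.mem_univ t)⟩ :
        {x // x ∈ Finset.univ.map e})) g) := by
  have hb : Function.Bijective (fun t : τ => (⟨e t, Finset.mem_map_of_mem e (Finset.mem_univ t)⟩ :
      {x // x ∈ Finset.univ.map e})) := by
    refine ⟨fun a b hab => e.injective (congrArg Subtype.val hab), fun x => ?_⟩
    obtain ⟨x, hx⟩ := x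
    obtain ⟨t, -, rfl⟩ := Finset.mem_map.1 hx
    exact ⟨t, rfl⟩
  exact h.equiv (Equiv.ofBijective _ hb)

/-- **The two classes.** -/
theorem arith_AM (k : Bool) (S : Finset V) (F : MvPolynomial V ℚ) (h : Arith k S F) :
    ∃ g : MvPolynomial S ℚ, rename Subtype.val g = F ∧ AM k g := by
  induction h with
  | curve g hg e =>
    have hg' : NK g := hg
    refine ⟨rename (fun t : Fin 2 => (⟨e t, Finset.mem_map_of_mem e (Finset.mem_univ t)⟩ :
      {x // x ∈ Finset.univ.map e})) g, by rw [rename_rename]; rfl, AM.mk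
      (hg'.rename' _ fun a b hab => e.injective (congrArg Subtype.val hab)) fun p _ φ => ?_⟩
    exact xc_leaf φ e g (XC_curve φ _ (hg'.map _))
  | add S T hST F G hF hG ihF ihG =>
    obtain ⟨f, rfl, hNf, hf, -⟩ := ihF
    obtain ⟨g, rfl, hNg, hg, -⟩ := ihG
    refine ⟨rename (Equiv.Finset.union S T hST) (rename Sum.inl f + rename Sum.inr g), ?_,
      AM.mk ?_ fun p _ φ => ?_⟩
    · rw [map_add, map_add, rename_rename, rename_rename, rename_rename, rename_rename]
      rfl
    · exact (hNf.inl g).equiv _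
    · have h1 := (XC.add stAdd (hNf.map (algebraMap ℚ ℚ_[p])) (hNg.map (algebraMap ℚ ℚ_[p]))
        (hf rfl p φ) (hg rfl p φ)).equiv (Equiv.Finset.union S T hST)
      rw [← map_rename, ← map_rename, ← map_add, ← map_rename] at h1
      exact h1
  | wh S F h hw ih =>
    obtain ⟨g, rfl, hN, -, hg⟩ := ih
    have hw' := WH.unrename _ Subtype.val_injective hw
    exact ⟨g, rfl, AM.mk hN fun p _ φ => XC.of_XE φ ((hg p).wh hw')⟩
  | of S F h ih =>
    obtain ⟨g, rfl, hN, -, hg⟩ := ih
    exact ⟨g, rfl, AM.mg fun p _ => hg p⟩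
  | gen τ g h e =>
    refine ⟨rename (fun t : τ => (⟨e t, Finset.mem_map_of_mem e (Finset.mem_univ t)⟩ :
      {x // x ∈ Finset.univ.map e})) g, by rw [rename_rename]; rfl, AM.mg fun p _ => ?_⟩
    exact mg_leaf e g (of_mos (rs_main (p := p) Ks.gen _ h))
  | addW S T hST F G hF hw hG ihF ihG =>
    obtain ⟨f, rfl, -, -, hf⟩ := ihF
    obtain ⟨g, rfl, -, -, hg⟩ := ihG
    refine ⟨rename (Equiv.Finset.union S T hST) (rename Sum.inl f + rename Sum.inr g), ?_,
      AM.mg fun p _ => ?_⟩
    · rw [map_add, map_add, rename_rename, rename_rename, rename_rename, rename_rename]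
      rfl
    · exact ((hf p).add (WH.unrename _ Subtype.val_injective hw) (hg p)).equiv _
  | mul S T hST F G hF hG ihF ihG =>
    obtain ⟨f, rfl, -, -, hf⟩ := ihF
    obtain ⟨g, rfl, -, -, hg⟩ := ihG
    refine ⟨rename (Equiv.Finset.union S T hST) (rename Sum.inl f * rename Sum.inr g), ?_,
      AM.mg fun p _ => ?_⟩
    · rw [map_mul, map_mul, rename_rename, rename_rename, rename_rename, rename_rename]
      rfl
    · exact ((hf p).mul (hg p)).equiv _
  | pow S F k hk hF ih =>
    obtain ⟨f, rfl, -, -, hf⟩ := ih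
    exact ⟨f ^ k, map_pow _ _ _, AM.mg fun p _ => (hf p).pow k hk⟩
  | smul k S F c hc hF ih =>
    obtain ⟨f, rfl, hN, hX, hf⟩ := ih
    refine ⟨C c * f, by rw [map_mul, rename_C], hN.smul c hc, fun hk p _ φ => ?_,
      fun p _ => (hf p).smul c hc⟩
    rw [map_mul, map_C]
    refine (hX hk p φ).smul _ ?_
    rw [Ne, map_eq_zero_iff _ (algebraMap ℚ ℚ_[p]).injective]
    exact hc

theorem arith_MG {p : ℕ} [Fact p.Prime] [Fintype V] (k : Bool) (S : Finset V)
    (F : MvPolynomial V ℚ) (h : Arith k S F) : MG p F := by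
  obtain ⟨g, rfl, -, -, hg⟩ := arith_AM k S F h
  have h2 := ((hg p).ext (τ := {i : V // ¬ i ∈ S})).equiv (Equiv.sumCompl fun i : V => i ∈ S)
  have e : rename (Equiv.sumCompl fun i : V => i ∈ S)
      (rename Sum.inl g : MvPolynomial (S ⊕ {i : V // ¬ i ∈ S}) ℚ) = rename Subtype.val g := by
    rw [rename_rename]
    rfl
  rwa [e] at h2

/-- `Susp` is contained in the larger class -/
theorem arith_susp (S : Finset V) (F : MvPolynomial V ℚ) (h : Susp S F) : Arith false S F := by
  induction h with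
  | var i =>
    have h1 := rs_of_ro Kd.exh _ (ro_var Unit () fun t => rfl)
    have h2 := Arith.gen (V := V) Unit (X ()) h1 ⟨fun _ => i, fun a b _ => rfl⟩
    rw [rename_X] at h2
    exact h2
  | curve g hg e => exact Arith.of _ _ (Arith.curve g hg e)
  | iso n g w d h e => exact Arith.gen _ g (RS.isoG n g w d h) e
  | lin r f hf e =>
    have h1 := rs_of_ro Kd.exh _ (ro_plane r 1 Nat.one_pos f hf)
    simp only [pow_one] at h1
    exact Arith.gen _ _ h1 e
  | add S T hST F G hF hw hG ihF ihG => exact Arith.addW S T hST F G ihF hw ihG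
  | mul S T hST F G hF hG ihF ihG => exact Arith.mul S T hST F G ihF ihG
  | pow S F k hk hF ih => exact Arith.pow S F k hk ih
  | smul S F c hc hF ih => exact Arith.smul false S F c hc ih

/-- sums of plane curves are in the smaller class -/
theorem arith_sum (S : Finset V) (F : MvPolynomial V ℚ) (h : SumCurves S F) : Arith true S F := by
  induction h with
  | curve g hg e => exact Arith.curve g hg e
  | wh S F h hw => exact Arith.wh S F (arith_susp S F h) hw
  | add S T hST F G hF hG ihF ihG => exact Arith.add S T hST F G ihF ihG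
  | smul S F c hc hF ih => exact Arith.smul true S F c hc ih

end cls

end Pool.Agent.T6.H26.PX
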