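import Pool.Agent.T6.H26.RAC

set_option autoImplicit false
set_option linter.unusedSectionVars false
set_option linter.unusedVariables false

/-! # Roots of the functional equations of products near nonzero values, and of powers -/

namespace Pool.Agent.T6.H26.RA

open MvPolynomial
open Pool.Agent.W574.SM (weyl)
open Pool.Agent.H628R4.TP (IsBFunction weylS)
open Pool.Agent.Y230.TH (kf W StA)
open Pool.Agent.T6.H26

variable {σ τ : Type}

theorem MM.Ml {f : MvPolynomial σ ℂ} (a : MvPolynomial σ ℂ) (h : LP σ) (hh : MM f h) :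
    MM f (Ml a h) := by
  induction a using MvPolynomial.induction_on generalizing h with
  | C r =>
    have e : RA.Ml (C r : MvPolynomial σ ℂ) h = r • h :=
      lp_ext (φ := RA.Ml (C r)) (ψ := r • LinearMap.id) (fun k a => by
        change RA.Ml (C r) (Finsupp.single k a) = r • Finsupp.single k a
        rw [Ml_single, Finsupp.smul_single, smul_eq_C_mul]) h
    rw [e]
    exact MM.smul r h hh
  | add p q hp hq =>
    have e : RA.Ml (p + q) h = RA.Ml p h + RA.Ml q h :=
      lp_ext (φ := RA.Ml (p + q)) (ψ := RA.Ml p + RA.Ml q) (fun k a => by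
        change RA.Ml (p + q) (Finsupp.single k a) = RA.Ml p (Finsupp.single k a) +
          RA.Ml q (Finsupp.single k a)
        rw [Ml_single, Ml_single, Ml_single, ← Finsupp.single_add, add_mul]) h
    rw [e]
    exact MM.add _ _ (hp h hh) (hq h hh)
  | mul_X p i hp =>
    have e : RA.Ml (p * MvPolynomial.X i) h = RA.Ml p (Xo i h) :=
      lp_ext (φ := RA.Ml (p * MvPolynomial.X i)) (ψ := RA.Ml p ∘ₗ Xo i) (fun k a => by
        change RA.Ml (p * MvPolynomial.X i) (Finsupp.single k a) =
          RA.Ml p (Xo i (Finsupp.single k a))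
        rw [Ml_single, Xo_single, Ml_single, mul_assoc]) h
    rw [e]
    exact hp _ (MM.X i h hh)

/-- the elements `u (T f) ^ N` -/
theorem mm_fp (f u : MvPolynomial σ ℂ) (N : ℕ) : MM f (Finsupp.single (N : ℤ) (u * f ^ N)) := by
  induction N with
  | zero =>
    have h := MM.Ml u o (MM.one (f := f))
    unfold o at h
    rw [Ml_single] at h
    rw [pow_zero]
    exact h
  | succ N ih =>
    have h := MM.add _ _ (MM.T _ ih) (MM.smul (-(N : ℂ)) _ ih)
    rw [Th_single, Finsupp.smul_single] at h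
    have e : Finsupp.single (N : ℤ) ((((N : ℕ) : ℤ) : ℂ) • (u * f ^ N)) +
        Finsupp.single ((N : ℤ) + 1) (f * (u * f ^ N)) +
        Finsupp.single (N : ℤ) (-(N : ℂ) • (u * f ^ N)) =
        Finsupp.single (((N + 1 : ℕ) : ℤ)) (u * f ^ (N + 1)) := by
      rw [add_right_comm, ← Finsupp.single_add, ← add_smul]
      push_cast
      rw [add_neg_cancel, zero_smul, Finsupp.single_zero, zero_add]
      congr 1
      ring
    rw [e] at h
    exact h

theorem mm_fpi (f u : MvPolynomial σ ℂ) (N : ℕ) (i : ℤ) (hi : i ≤ N) :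
    MM f (Finsupp.single i (u * f ^ N)) := by
  obtain ⟨k, hk⟩ : ∃ k : ℕ, (N : ℤ) = i + k := ⟨((N : ℤ) - i).toNat, by omega⟩
  have key : ∀ k : ℕ, ∀ i : ℤ, (N : ℤ) = i + k → MM f (Finsupp.single i (u * f ^ N)) := by
    intro k
    induction k with
    | zero =>
      intro i hi
      have : i = N := by omega
      rw [this]
      exact mm_fp f u N
    | succ k ih =>
      intro i hi
      have h := MM.Y _ (ih (i + 1) (by push_cast at hi ⊢; omega))
      rw [Y_single, add_neg_cancel_right] at h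
      exact h
  exact key k i hk

/-- the elements of the module as a submodule -/
noncomputable def MS (f : MvPolynomial σ ℂ) : Submodule ℂ (LP σ) where
  carrier := {w | MM f w}
  add_mem' := fun h h' => MM.add _ _ h h'
  zero_mem' := MM.zero f
  smul_mem' := fun c _ h => MM.smul c _ h

theorem lin_ind {P : LP σ → Prop} (h : LP σ) (h0 : P 0) (ha : ∀ u v, P u → P v → P (u + v))
    (hs : ∀ (k : ℤ) (a : MvPolynomial σ ℂ), P (Finsupp.single k a)) : P h := by
  induction h using Finsupp.induction_linear with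
  | zero => exact h0
  | add u v hu hv => exact ha u v hu hv
  | single k a => exact hs k a

section ex

variable {S : Submodule ℂ (LP σ)} {Q : MvPolynomial σ ℂ}

theorem qN_zero : ∃ N0 : ℕ, ∀ N : ℕ, N0 ≤ N → ∃ w ∈ S,
    sh ((N : ℤ) + 1) (Ml (Q ^ N) (0 : LP σ)) = RA.Y w :=
  ⟨0, fun N _ => ⟨0, S.zero_mem, by rw [map_zero, map_zero, map_zero]⟩⟩

theorem qN_add (u v : LP σ)
    (hu : ∃ N0 : ℕ, ∀ N : ℕ, N0 ≤ N → ∃ w ∈ S, sh ((N : ℤ) + 1) (Ml (Q ^ N) u) = RA.Y w)
    (hv : ∃ N0 : ℕ, ∀ N : ℕ, N0 ≤ N → ∃ w ∈ S, sh ((N : ℤ) + 1) (Ml (Q ^ N) v) = RA.Y w) :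
    ∃ N0 : ℕ, ∀ N : ℕ, N0 ≤ N → ∃ w ∈ S, sh ((N : ℤ) + 1) (Ml (Q ^ N) (u + v)) = RA.Y w := by
  obtain ⟨N1, h1⟩ := hu
  obtain ⟨N2, h2⟩ := hv
  refine ⟨max N1 N2, fun N hN => ?_⟩
  obtain ⟨w, hw, e⟩ := h1 N (le_trans (le_max_left _ _) hN)
  obtain ⟨w', hw', e'⟩ := h2 N (le_trans (le_max_right _ _) hN)
  exact ⟨w + w', S.add_mem hw hw', by rw [map_add, map_add, map_add, e, e']⟩

end ex

/-- **Perturbations of higher order.** -/
theorem stb_one (f R : MvPolynomial σ ℂ) : Stb f (f ^ 2 * R) (MS f) where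
  one := MM.one
  X i w hw := MM.X i w hw
  D i w hw := MM.D i w hw
  T w hw := MM.T w hw
  Y w hw := MM.Y w hw
  q1 j := by
    refine ⟨Finsupp.single ((j : ℤ) + 2) (R ^ (j + 1) * f ^ (2 * (j + 1))), ?_, ?_⟩
    · exact mm_fpi f _ _ _ (by push_cast; omega)
    · unfold o
      rw [Ml_single, sh_single, Y_single]
      congr 1
      · push_cast
        ring
      · rw [mul_one, mul_pow, ← pow_mul, mul_comm]
  qN h := by
    refine lin_ind h qN_zero qN_add fun k a => ?_
    refine ⟨(k + 2).toNat, fun N hN => ⟨Finsupp.single (k + ((N : ℤ) + 1) + 1)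
      ((a * R ^ N) * f ^ (2 * N)), ?_, ?_⟩⟩
    · exact mm_fpi f _ _ _ (by push_cast; omega)
    · rw [Ml_single, sh_single, Y_single, add_neg_cancel_right]
      congr 1
      rw [mul_pow, ← pow_mul]
      ring

/-- **The roots for `f + f ^ 2 R`.** -/
theorem root_pert (f R : MvPolynomial σ ℂ) (α : ℂ)
    (hα : ∀ (q : Polynomial ℂ) (m : LP σ), MM f m →
      Polynomial.aeval (Th f : Module.End ℂ (LP σ)) q o = Y m → q.eval α = 0)
    (q : Polynomial ℂ) (m : LP σ) (hm : MM (f + f ^ 2 * R) m)
    (hq : Polynomial.aeval (Th (f + f ^ 2 * R) : Module.End ℂ (LP σ)) q o = Y m) :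
    q.eval α = 0 := by
  obtain ⟨w, hw, e⟩ := (stb_one f R).main q m hm hq
  exact hα q w hw e

/-- **Perturbations of a sum.** -/
theorem stb_two (f : MvPolynomial σ ℂ) (g : MvPolynomial τ ℂ) (κ : ℂ) :
    Stb (FG f g) (C κ * (rename Sum.inl f * rename Sum.inr g)) (PS2 f g) where
  one := by
    rw [← B_one]
    exact ps_mem f g MM.one MM.one
  X i w hw := by
    rcases i with i | i
    · exact ps_of f g _ (fun u v hu hv => by
        rw [← B_XL]; exact ps_mem f g (MM.X _ _ hu) hv) w hw
    · exact ps_of f g _ (fun u v hu hv => by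
        rw [← B_XR]; exact ps_mem f g hu (MM.X _ _ hv)) w hw
  D i w hw := by
    rcases i with i | i
    · exact ps_of f g _ (fun u v hu hv => by
        rw [← B_DL]; exact ps_mem f g (MM.D _ _ hu) hv) w hw
    · exact ps_of f g _ (fun u v hu hv => by
        rw [← B_DR]; exact ps_mem f g hu (MM.D _ _ hv)) w hw
  T w hw := ps_of f g _ (fun u v hu hv => by
    rw [B_T]
    exact (PS2 f g).add_mem (ps_mem f g (MM.T _ hu) hv) (ps_mem f g hu (MM.T _ hv))) w hw
  Y w hw := ps_of f g _ (fun u v hu hv => by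
    rw [← B_YL]; exact ps_mem f g (MM.Y _ hu) hv) w hw
  q1 j := by
    refine ⟨κ ^ (j + 1) • B (Finsupp.single ((j + 1 : ℕ) : ℤ) (1 * f ^ (j + 1)))
      (Finsupp.single 1 (1 * g ^ (j + 1))), (PS2 f g).smul_mem _
      (ps_mem f g (mm_fp f _ _) (mm_fpi g _ _ _ (by push_cast; omega))), ?_⟩
    unfold o
    rw [Ml_single, sh_single, map_smul, B_single, Y_single, Finsupp.smul_single]
    congr 1
    · ring
    · rw [smul_eq_C_mul]
      simp only [mul_one, one_mul, map_mul, map_pow]
      ring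
  qN h := by
    refine lin_ind h qN_zero qN_add fun k a => ?_
    have key : ∀ (u : MvPolynomial σ ℂ) (v : MvPolynomial τ ℂ), ∃ N0 : ℕ, ∀ N : ℕ, N0 ≤ N →
        ∃ w ∈ PS2 f g, sh ((N : ℤ) + 1) (Ml ((C κ * (rename Sum.inl f * rename Sum.inr g)) ^ N)
          (Finsupp.single k (a * (rename Sum.inl u * rename Sum.inr v)))) = RA.Y w := by
      induction a using MvPolynomial.induction_on with
      | C r =>
        intro u v
        refine ⟨(k + 2).toNat, fun N hN => ⟨(r * κ ^ N) • B (Finsupp.single (N : ℤ) (u * f ^ N))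
          (Finsupp.single (k + 2) (v * g ^ N)), (PS2 f g).smul_mem _
          (ps_mem f g (mm_fp f _ _) (mm_fpi g _ _ _ (by omega))), ?_⟩⟩
        rw [Ml_single, sh_single, map_smul, B_single, Y_single, Finsupp.smul_single]
        congr 1
        · ring
        · rw [smul_eq_C_mul]
          simp only [map_mul, map_pow]
          ring
      | add p q hp hq =>
        intro u v
        rw [add_mul, Finsupp.single_add]
        exact qN_add _ _ (hp u v) (hq u v)
      | mul_X p i hp =>
        intro u v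
        rcases i with i | i
        · have h1 := hp (X i * u) v
          have e : p * (rename Sum.inl (X i * u) * rename Sum.inr v) =
              p * X (Sum.inl i) * (rename Sum.inl u * rename Sum.inr v) := by
            rw [map_mul, rename_X]
            ring
          rwa [e] at h1
        · have h1 := hp u (X i * v)
          have e : p * (rename Sum.inl u * rename Sum.inr (X i * v)) =
              p * X (Sum.inr i) * (rename Sum.inl u * rename Sum.inr v) := by
            rw [map_mul, rename_X]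
            ring
          rwa [e] at h1
    have h1 := key 1 1
    rwa [map_one, map_one, mul_one, mul_one] at h1

/-- the functional equation of the sum, with an element of the larger space -/
theorem root_add' (f : MvPolynomial σ ℂ) (g : MvPolynomial τ ℂ) (α β : ℂ)
    (hα : ∀ (q : Polynomial ℂ) (m : LP σ), MM f m →
      Polynomial.aeval (Th f : Module.End ℂ (LP σ)) q o = Y m → q.eval α = 0)
    (hβ : ∀ (q : Polynomial ℂ) (m : LP τ), MM g m →
      Polynomial.aeval (Th g : Module.End ℂ (LP τ)) q o = Y m → q.eval β = 0)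
    (q : Polynomial ℂ) (m : LP (σ ⊕ τ)) (hm : m ∈ PS2 f g)
    (hq : Polynomial.aeval (Th (FG f g) : Module.End ℂ (LP (σ ⊕ τ))) q o = Y m) :
    q.eval (α + β) = 0 := by
  obtain ⟨lam, h0, h1⟩ := ex_lam f α hα
  obtain ⟨lam', h0', h1'⟩ := ex_lam g β hβ
  have hT : ∀ k, lam (tk f k) = α ^ k := by
    intro k
    rw [← tk_pow, h1, Polynomial.eval_pow, Polynomial.eval_X]
  have hT' : ∀ k, lam' (tk g k) = β ^ k := by
    intro k
    rw [← tk_pow, h1', Polynomial.eval_pow, Polynomial.eval_X]
  have h2 := gr_q f g lam lam' α β (gt_gr f g lam lam' α β hT hT') q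
  have h5 := Submodule.sub_mem _ h2 (gr_Y f g lam lam' h0 m hm)
  rw [Prod.mk_sub_mk, hq, sub_self, sub_zero] at h5
  exact gr_fun f g lam lam' h0 h0' _ h5

/-- **The roots for `f(x) + g(z) + κ f(x) g(z)`.** -/
theorem root_mul (f : MvPolynomial σ ℂ) (g : MvPolynomial τ ℂ) (κ α β : ℂ)
    (hα : ∀ (q : Polynomial ℂ) (m : LP σ), MM f m →
      Polynomial.aeval (Th f : Module.End ℂ (LP σ)) q o = Y m → q.eval α = 0)
    (hβ : ∀ (q : Polynomial ℂ) (m : LP τ), MM g m →
      Polynomial.aeval (Th g : Module.End ℂ (LP τ)) q o = Y m → q.eval β = 0)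
    (q : Polynomial ℂ) (m : LP (σ ⊕ τ))
    (hm : MM (FG f g + C κ * (rename Sum.inl f * rename Sum.inr g)) m)
    (hq : Polynomial.aeval (Th (FG f g + C κ * (rename Sum.inl f * rename Sum.inr g)) :
      Module.End ℂ (LP (σ ⊕ τ))) q o = Y m) : q.eval (α + β) = 0 := by
  obtain ⟨w, hw, e⟩ := (stb_two f g κ).main q m hm hq
  exact root_add' f g α β hα hβ q w hw e

end Pool.Agent.T6.H26.RA
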