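import Pool.Agent.T6.H26.PYI
import Pool.Agent.T6.H26.RAD

set_option autoImplicit false
set_option linter.unusedSectionVars false
set_option linter.unusedVariables false

/-! # Roots of products and powers at all values -/

namespace Pool.Agent.T6.H26.PX

open MeasureTheory Pool.Agent.W427.SMC Pool.Agent.Y230.PT Pool.Agent.Y230.PS
open Pool.Agent.Y230.TH MvPolynomial
open Pool.Agent.W574.RO Pool.Agent.W574.CN Pool.Agent.R852.PP
open Pool.Agent.H628R4.TP (IsBFunction)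
open Pool.Agent.T6.H26
open scoped ENNReal

variable {σ τ : Type}

theorem NK.add {K : Type} [Field K] {f : MvPolynomial σ K} (h : NK f) (a : K) : NK (f + C a) := by
  have h1 := h.sub (-a)
  rwa [map_neg, sub_neg_eq_add] at h1

theorem NK.mul {K : Type} [Field K] {f : MvPolynomial σ K} {g : MvPolynomial τ K} (h : NK f)
    (hg : g ≠ 0) : NK (rename Sum.inl f * rename Sum.inr g : MvPolynomial (σ ⊕ τ) K) := by
  intro c hc
  have hf' : (rename Sum.inl f : MvPolynomial (σ ⊕ τ) K) ≠ 0 := fun h0 => h.ne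
    (rename_injective _ Sum.inl_injective (by rw [h0, map_zero]))
  have hg' : (rename Sum.inr g : MvPolynomial (σ ⊕ τ) K) ≠ 0 := fun h0 => hg
    (rename_injective _ Sum.inr_injective (by rw [h0, map_zero]))
  have hc0 : c ≠ 0 := by
    rintro rfl
    rw [C_0] at hc
    exact mul_ne_zero hf' hg' hc
  have h1 : IsUnit (rename Sum.inl f : MvPolynomial (σ ⊕ τ) K) :=
    isUnit_of_mul_isUnit_left (hc ▸ (isUnit_iff_ne_zero.2 hc0).map C)
  obtain ⟨a, -, h2⟩ := isUnit_iff_eq_C_of_isReduced.1 h1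
  apply h a
  apply rename_injective _ Sum.inl_injective
  rw [h2, rename_C]

theorem NK.pow {K : Type} [Field K] {f : MvPolynomial σ K} (h : NK f) (k : ℕ) (hk : k ≠ 0) :
    NK (f ^ k) := by
  intro c hc
  have hc0 : c ≠ 0 := by
    rintro rfl
    rw [C_0] at hc
    exact pow_ne_zero k h.ne hc
  have h1 : IsUnit (f ^ k) := hc ▸ (isUnit_iff_ne_zero.2 hc0).map C
  obtain ⟨a, -, h2⟩ := isUnit_iff_eq_C_of_isReduced.1 ((isUnit_pow_iff hk).1 h1)
  exact h a h2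

theorem FB_zero (F : MvPolynomial σ ℂ) (r : ℂ) : FB F r 0 := fun b _ => by
  rw [pow_zero]
  exact one_dvd b

theorem FB.mono {F : MvPolynomial σ ℂ} {r : ℂ} {m n : ℕ} (h : FB F r n) (hmn : m ≤ n) :
    FB F r m := fun b hb => (pow_dvd_pow _ hmn).trans (h b hb)

theorem FB_m1 {F : MvPolynomial σ ℂ} (hF : NK F) : FB F (-1) 1 := by
  intro b hb
  obtain ⟨P, hP⟩ := hb
  rw [pow_one, Polynomial.dvd_iff_isRoot]
  refine Pool.Agent.W574.HS.minus_one F 1 hF.ne hF.nd b P fun s => ?_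
  rw [one_mul]
  exact hP s

theorem FB_dl {F : MvPolynomial σ ℂ} (hF : NK F) (r : ℂ) : FB F r (dl r) := by
  by_cases hr : r = -1
  · rw [hr, dl_m1]
    exact FB_m1 hF
  · rw [dl_ne hr]
    exact FB_zero _ _

/-- **Products.** -/
theorem FB_mul [Finite σ] {F : MvPolynomial σ ℂ} {G : MvPolynomial τ ℂ} (hF : F ≠ 0) (hG : G ≠ 0)
    (r : ℂ) (hr : ∀ N : ℕ, (N : ℂ) ≠ r) (m n : ℕ) (hm : FB F r m) (hn : FB G r n) :
    FB (rename Sum.inl F * rename Sum.inr G : MvPolynomial (σ ⊕ τ) ℂ) r (m + n) := by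
  intro b hb
  refine FMB_mul _ _ hF hG r hr ?_ m n hm hn b hb
  obtain ⟨b0, hb0, hfe⟩ := Pool.Agent.Y229.exists_fe (fun _ : Fin 1 => F) ⟨0, hF⟩
  exact ⟨b0, hb0, Pool.Agent.Y229.isB_of_single _ _ hfe⟩

/-- **Powers.** -/
theorem FB_pow {F : MvPolynomial σ ℂ} (hF : NK F) (k : ℕ) (hk : 2 ≤ k) (r : ℂ)
    (h : FB F ((k : ℂ) * r) 1) : FB (F ^ k) r (1 + dl r) := by
  have hkC : (k : ℂ) ≠ 0 := by exact_mod_cast (by omega : k ≠ 0)
  by_cases hr : r = -1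
  · intro b hb
    obtain ⟨b', e, h1⟩ := isB_pow_strong' _ hF.ne hF.nd k hk b hb
    have h2 := dvd_of_comp b' (k : ℂ) hkC r 1 (h _ h1)
    rw [e]
    exact dvd_dl r 1 b' h2
  · rw [dl_ne hr]
    intro b hb
    exact dvd_of_comp b (k : ℂ) hkC r 1 (h _ (isB_of_pow _ hF.ne k (by omega) b hb))

/-- **Products, near the nonzero values.** -/
theorem FB_mul_ne {F : MvPolynomial σ ℂ} {G : MvPolynomial τ ℂ} (hF : NK F) (hG : NK G) (a b : ℂ)
    (ha : a ≠ 0) (hb : b ≠ 0) (α β : ℂ) (h1 : FB (F - C a) α (1 + dl α))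
    (h2 : FB (G - C b) β (1 + dl β)) :
    FB (rename Sum.inl F * rename Sum.inr G - C (a * b) : MvPolynomial (σ ⊕ τ) ℂ) (α + β)
      (1 + dl (α + β)) := by
  intro q hq
  have hN : NK (rename Sum.inl F * rename Sum.inr G - C (a * b) : MvPolynomial (σ ⊕ τ) ℂ) :=
    (hF.mul hG.ne).sub _
  obtain ⟨b', e, m, hm, hq'⟩ := RA.fe_mod _ hN.ne hN.nd q hq
  rw [e]
  refine dvd_dl (α + β) 1 b' ?_
  rw [pow_one, Polynomial.dvd_iff_isRoot]
  have hF' : NK (C b * (F - C a)) := (hF.sub a).smul b hb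
  have hG' : NK (C a * (G - C b)) := (hG.sub b).smul a ha
  have e2 : (rename Sum.inl F * rename Sum.inr G - C (a * b) : MvPolynomial (σ ⊕ τ) ℂ) =
      RA.FG (C b * (F - C a)) (C a * (G - C b)) + C ((a * b)⁻¹) *
        (rename Sum.inl (C b * (F - C a)) * rename Sum.inr (C a * (G - C b))) := by
    have e3 : (C ((a * b)⁻¹) : MvPolynomial (σ ⊕ τ) ℂ) * (C b * C a) = 1 := by
      rw [← map_mul, ← map_mul, mul_comm b a, inv_mul_cancel₀ (mul_ne_zero ha hb), map_one]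
    unfold RA.FG
    simp only [map_mul, map_sub, rename_C]
    linear_combination (-(rename Sum.inl F - C a) * (rename Sum.inr G - C b) :
      MvPolynomial (σ ⊕ τ) ℂ) * e3
  rw [e2] at hm hq'
  exact RA.root_mul _ _ _ α β (fb_lam hF' α (FB_smul _ b hb α _ h1))
    (fb_lam hG' β (FB_smul _ a ha β _ h2)) b' m hm hq'

/-- **Powers, near the nonzero values.** -/
theorem FB_pow_ne {F : MvPolynomial σ ℂ} (hF : NK F) (a : ℂ) (ha : a ≠ 0) (k : ℕ) (hk : k ≠ 0)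
    (α : ℂ) (h : FB (F - C a) α (1 + dl α)) : FB (F ^ k - C (a ^ k)) α (1 + dl α) := by
  intro q hq
  have hN : NK (F ^ k - C (a ^ k)) := (hF.pow k hk).sub _
  obtain ⟨b', e, m, hm, hq'⟩ := RA.fe_mod _ hN.ne hN.nd q hq
  rw [e]
  refine dvd_dl α 1 b' ?_
  rw [pow_one, Polynomial.dvd_iff_isRoot]
  set κ : ℂ := (k : ℂ) * a ^ (k - 1) with hκ
  have hκ0 : κ ≠ 0 := mul_ne_zero (by exact_mod_cast hk) (pow_ne_zero _ ha)
  have hF' : NK (C κ * (F - C a)) := (hF.sub a).smul κ hκ0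
  obtain ⟨E, hE⟩ := Polynomial.powAddExpansion (C a : MvPolynomial σ ℂ) (F - C a) k
  have e2 : F ^ k - C (a ^ k) = C κ * (F - C a) + (C κ * (F - C a)) ^ 2 *
      (C (κ⁻¹ ^ 2) * E) := by
    rw [add_sub_cancel] at hE
    have e3 : (C κ : MvPolynomial σ ℂ) ^ 2 * C (κ⁻¹ ^ 2) = 1 := by
      rw [← C_pow, ← map_mul, ← mul_pow, mul_inv_cancel₀ hκ0, one_pow, map_one]
    rw [hE, mul_pow, C_pow]
    have e4 : (C κ : MvPolynomial σ ℂ) = (k : MvPolynomial σ ℂ) * C a ^ (k - 1) := by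
      rw [hκ, map_mul, C_pow]
      simp
    linear_combination (-(E * (F - C a) ^ 2)) * e3 - (F - C a) * e4
  rw [e2] at hm hq'
  exact RA.root_pert _ _ α (fb_lam hF' α (FB_smul _ κ hκ0 α _ h)) b' m hm hq'

/-! ### The poles of the exponential sums -/

section mC

variable {p : ℕ} [Fact p.Prime] (φ : ℚ_[p] →+* ℂ)

theorem mC_mul0 [Finite σ] {f : MvPolynomial σ ℚ_[p]} {g : MvPolynomial τ ℚ_[p]} (hf : NK f)
    (hg : NK g) (T : ℂ) (hT : 1 < ‖T‖) : mC φ f T + (dp p T : ℕ) + mC φ g T ≤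
      mC φ (rename Sum.inl f * rename Sum.inr g : MvPolynomial (σ ⊕ τ) ℚ_[p]) T := by
  have hr : ∀ N : ℕ, (N : ℂ) ≠ ((rr p T : ℝ) : ℂ) := rr_ne T hT
  have hf' := hf.map φ
  have hg' := hg.map φ
  have e : map φ (rename Sum.inl f * rename Sum.inr g : MvPolynomial (σ ⊕ τ) ℚ_[p]) =
      rename Sum.inl (map φ f) * rename Sum.inr (map φ g) := by
    rw [map_mul, map_rename, map_rename]
  by_cases c1 : FB (map φ f) ((rr p T : ℝ) : ℂ) (1 + dl ((rr p T : ℝ) : ℂ))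
  · have h3 := FB_mul hf'.ne hg'.ne _ hr _ 0 c1 (FB_zero _ _)
    rw [add_zero] at h3
    rw [mC_top (f := (rename Sum.inl f * rename Sum.inr g : MvPolynomial (σ ⊕ τ) ℚ_[p]))
      (by rw [e]; exact h3)]
    exact le_top
  · by_cases c2 : FB (map φ g) ((rr p T : ℝ) : ℂ) (1 + dl ((rr p T : ℝ) : ℂ))
    · have h3 := FB_mul hf'.ne hg'.ne _ hr 0 _ (FB_zero _ _) c2
      rw [zero_add] at h3
      rw [mC_top (f := (rename Sum.inl f * rename Sum.inr g : MvPolynomial (σ ⊕ τ) ℚ_[p]))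
        (by rw [e]; exact h3)]
      exact le_top
    · rw [mC_zero c1, mC_zero c2, zero_add, add_zero, dp_eq]
      split_ifs with hTp
      · have h3 : ((rr p T : ℝ) : ℂ) = -1 := by rw [hTp, rr_self]; push_cast; rfl
        rw [mC_top (f := (rename Sum.inl f * rename Sum.inr g : MvPolynomial (σ ⊕ τ) ℚ_[p]))]
        · exact le_top
        · rw [e, h3, dl_m1]
          rw [h3] at hr
          exact FB_mul hf'.ne hg'.ne _ hr 1 1 (FB_m1 hf') (FB_m1 hg')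
      · simp

theorem mC_mulL [Finite σ] {f : MvPolynomial σ ℚ_[p]} {g : MvPolynomial τ ℚ_[p]} (hf : NK f)
    (hg : NK g) (T : ℂ) (hT : 1 < ‖T‖) : mC φ f T ≤
      mC φ (rename Sum.inl f * rename Sum.inr g : MvPolynomial (σ ⊕ τ) ℚ_[p]) T :=
  (le_self_add.trans le_self_add).trans (mC_mul0 φ hf hg T hT)

theorem mC_mulR [Finite σ] {f : MvPolynomial σ ℚ_[p]} {g : MvPolynomial τ ℚ_[p]} (hf : NK f)
    (hg : NK g) (T : ℂ) (hT : 1 < ‖T‖) : mC φ g T ≤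
      mC φ (rename Sum.inl f * rename Sum.inr g : MvPolynomial (σ ⊕ τ) ℚ_[p]) T :=
  le_add_self.trans (mC_mul0 φ hf hg T hT)

theorem mC_mul_ne {f : MvPolynomial σ ℚ_[p]} {g : MvPolynomial τ ℚ_[p]} (hf : NK f)
    (hg : NK g) (x y : ℚ_[p]) (hx : x ≠ 0) (hy : y ≠ 0) (T1 T2 : ℂ) (hT1 : 1 < ‖T1‖)
    (hT2 : 1 < ‖T2‖) (a b : ℕ) (ha : 1 ≤ a) (hb : 1 ≤ b) (h3 : (a : ℕ∞) ≤ mC φ (f - C x) T1)
    (h4 : (b : ℕ∞) ≤ mC φ (g - C y) T2) : ((a + b - 1 : ℕ) : ℕ∞) ≤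
      mC φ (rename Sum.inl f * rename Sum.inr g - C (x * y) : MvPolynomial (σ ⊕ τ) ℚ_[p])
        (T1 * T2) := by
  have hx' : φ x ≠ 0 := by rwa [Ne, map_eq_zero]
  have hy' : φ y ≠ 0 := by rwa [Ne, map_eq_zero]
  rw [mC_top]
  · exact le_top
  · rw [rr_mul T1 T2 hT1 hT2, Complex.ofReal_add, map_sub, map_mul, map_rename, map_rename, map_C,
      map_mul]
    refine FB_mul_ne (hf.map φ) (hg.map φ) _ _ hx' hy' _ _ ?_ ?_
    · have h := FB_of_mC ha h3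
      rwa [map_sub, map_C] at h
    · have h := FB_of_mC hb h4
      rwa [map_sub, map_C] at h

theorem mC_pow0 {f : MvPolynomial σ ℚ_[p]} (hf : NK f) (k : ℕ) (hk : 2 ≤ k) (T : ℂ)
    (hT : 1 < ‖T‖) : mC φ f (T ^ k) + (dp p (T ^ k) : ℕ) ≤ mC φ (f ^ k) T := by
  have hrr := rr_powT (p := p) T k
  by_cases c1 : FB (map φ f) ((rr p (T ^ k) : ℝ) : ℂ) (1 + dl ((rr p (T ^ k) : ℝ) : ℂ))
  · have h3 : FB (map φ f) ((k : ℂ) * ((rr p T : ℝ) : ℂ)) 1 := by
      rw [← hrr]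
      exact c1.mono (by omega)
    rw [mC_top (f := f ^ k) (by rw [map_pow]; exact FB_pow (hf.map φ) k hk _ h3)]
    exact le_top
  · rw [mC_zero c1, zero_add, dp_eq]
    split_ifs with hTp
    · have h3 : FB (map φ f) ((k : ℂ) * ((rr p T : ℝ) : ℂ)) 1 := by
        rw [← hrr, hTp, rr_self]
        push_cast
        exact FB_m1 (hf.map φ)
      rw [mC_top (f := f ^ k) (by rw [map_pow]; exact FB_pow (hf.map φ) k hk _ h3)]
      exact le_top
    · simp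

theorem mC_pow_ne {f : MvPolynomial σ ℚ_[p]} (hf : NK f) (x : ℚ_[p]) (hx : x ≠ 0) (k : ℕ)
    (hk : k ≠ 0) (T : ℂ) : mC φ (f - C x) T ≤ mC φ (f ^ k - C (x ^ k)) T := by
  have hx' : φ x ≠ 0 := by rwa [Ne, map_eq_zero]
  by_cases c1 : FB (map φ (f - C x)) ((rr p T : ℝ) : ℂ) (1 + dl ((rr p T : ℝ) : ℂ))
  · rw [mC_top (f := f ^ k - C (x ^ k))]
    · exact le_top
    · rw [map_sub, map_C] at c1
      rw [map_sub, map_C, map_pow, map_pow φ]
      exact FB_pow_ne (hf.map φ) _ hx' k hk _ c1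
  · rw [mC_zero c1]
    exact bot_le

end mC

end Pool.Agent.T6.H26.PX
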