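import Pool.Agent.T6.H26.PZA
import Pool.Agent.T6.H26.PXN

set_option autoImplicit false
set_option linter.unusedSectionVars false
set_option linter.unusedVariables false

/-! # The pieces of the law of the values -/

namespace Pool.Agent.T6.H26.PX

open MeasureTheory Pool.Agent.W427.SMC Pool.Agent.Y230.PT Pool.Agent.Y230.PS
open Pool.Agent.Y230.TH MvPolynomial
open scoped ENNReal

variable {p : ℕ} [Fact p.Prime]

attribute [local instance] msZ bsZ msK bsK nz

theorem EP_of_ev {M : ℂ → ℕ∞} {a b : ℕ → ℂ} (m0 : ℕ) (hb : b ∈ EP M)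
    (h : ∀ m, m0 ≤ m → a m = b m) : a ∈ EP M := by
  refine EP_of_sftk m0 ?_
  have e : (fun n => a (n + m0)) = fun n => b (n + m0) :=
    funext fun n => h _ (Nat.le_add_left _ _)
  rw [e]
  exact EP_sftk hb m0

/-- the transform of a measure -/
noncomputable def Ef (ν : Measure ℤ_[p]) (u : ℤ_[p]) (m : ℕ) : ℂ := ∫ t, ch p m (u * t) ∂ν

theorem Ef_loc (ν : Measure ℤ_[p]) (m : ℕ) (u v : ℤ_[p]) (h : ‖u - v‖ ≤ ((p : ℝ)⁻¹) ^ m) :
    Ef ν u m = Ef ν v m := by
  unfold Ef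
  refine integral_congr_ae (Filter.Eventually.of_forall fun x => ch_congr p m _ _ ?_)
  rw [← sub_mul, norm_mul]
  exact (mul_le_of_le_one_right (norm_nonneg _) (PadicInt.norm_le_one _)).trans h

theorem Ef_zero (ν : Measure ℤ_[p]) (m : ℕ) : Ef ν 0 m = ((ν Set.univ).toReal : ℂ) := by
  unfold Ef
  simp only [zero_mul, ch_zero]
  rw [integral_const, measureReal_def]
  simp

theorem Ef_pmul (ν : Measure ℤ_[p]) (k : ℕ) (u : ℤ_[p]) (m : ℕ) :
    Ef ν ((p : ℤ_[p]) ^ k * u) m = if m < k then ((ν Set.univ).toReal : ℂ) else Ef ν u (m - k) := by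
  split_ifs with h
  · rw [← Ef_zero ν m]
    refine Ef_loc ν m _ _ ?_
    rw [sub_zero, norm_mul, norm_p_pow]
    exact (mul_le_of_le_one_right (pow_nonneg (pinv_pos p).le _) (PadicInt.norm_le_one _)).trans
      ((pw_le_iff _ _).2 h.le)
  · obtain ⟨j, rfl⟩ : ∃ j, m = j + k := ⟨m - k, by omega⟩
    unfold Ef
    refine integral_congr_ae (Filter.Eventually.of_forall fun x => ?_)
    beta_reduce
    rw [mul_assoc, ch_pow, Nat.add_sub_cancel]

/-- a piece of a law, moved to the origin: it is small, its transform is locally constant and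
has its poles in `M` -/
structure Pc (M : ℂ → ℕ∞) (e1 e : ℕ) (c : ℤ_[p]) (ν : Measure ℤ_[p]) : Prop where
  fin : IsFiniteMeasure ν
  sup : c ≠ 0 → ∀ᵐ t ∂ν, ‖t‖ ≤ ((p : ℝ)⁻¹) ^ e * ‖c‖
  loc : ∀ u v : ℤ_[p], ‖u‖ = 1 → ‖v‖ = 1 → ‖u - v‖ ≤ ((p : ℝ)⁻¹) ^ e1 → ∀ m,
    Ef ν u m = Ef ν v m
  ep : ∀ u : ℤ_[p], ‖u‖ = 1 → Ef ν u ∈ EP M

theorem Pc.zero (M : ℂ → ℕ∞) (e1 e : ℕ) (c : ℤ_[p]) : Pc M e1 e c (0 : Measure ℤ_[p]) where
  fin := inferInstance
  sup := fun _ => by simp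
  loc := fun u v _ _ _ m => by
    unfold Ef
    rw [integral_zero_measure, integral_zero_measure]
  ep := fun u _ => by
    have e : Ef (0 : Measure ℤ_[p]) u = 0 := by
      funext m
      unfold Ef
      rw [integral_zero_measure]
      rfl
    rw [e]
    exact (EP M).zero_mem

theorem int_set {Ω : Type} [MeasurableSpace Ω] (μ : Measure Ω) {S : Set Ω} (hS : MeasurableSet S)
    (f : Ω → ℂ) [DecidablePred (· ∈ S)] :
    ∫ x in S, f x ∂μ = ∫ x, (if x ∈ S then f x else 0) ∂μ := by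
  rw [← integral_indicator hS]
  refine integral_congr_ae (Filter.Eventually.of_forall fun x => ?_)
  beta_reduce
  by_cases h : x ∈ S
  · rw [if_pos h, Set.indicator_of_mem h]
  · rw [if_neg h, Set.indicator_of_notMem h]

section gen

variable {Ω : Type} [MeasurableSpace Ω] (μ : Measure Ω) [IsProbabilityMeasure μ] (G : Ω → ℤ_[p])

theorem ball_ms (hG : Measurable G) (a : ℤ_[p]) (R : ℕ) :
    MeasurableSet {x | ‖G x - a‖ ≤ ((p : ℝ)⁻¹) ^ R} :=
  measurableSet_le ((hG.sub_const _).norm) measurable_const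

/-- **The transform over a ball.** -/
theorem ball_tr (hG : Measurable G) {ι : Type} [Fintype ι] (c : ι → ℤ_[p])
    (D : ι → ℤ_[p] → ℕ → ℂ) (e1 : ℕ) (he1 : 1 ≤ e1)
    (hD : ∀ i, ∀ u v : ℤ_[p], ‖u‖ = 1 → ‖v‖ = 1 → ‖u - v‖ ≤ ((p : ℝ)⁻¹) ^ e1 → ∀ m,
      D i u m = D i v m)
    (hE : ∀ u : ℤ_[p], ‖u‖ = 1 → ∀ m, Et μ G u m = ∑ i, ch p m (u * c i) * D i u m)
    (a : ℤ_[p]) (R m : ℕ) (hm : R + e1 ≤ m) (u : ℤ_[p]) (hu : ‖u‖ = 1) :
    ∫ x in {x | ‖G x - a‖ ≤ ((p : ℝ)⁻¹) ^ R}, ch p m (u * G x) ∂μ =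
      ∑ i, if ‖c i - a‖ ≤ ((p : ℝ)⁻¹) ^ R then ch p m (u * c i) * D i u m else 0 := by
  classical
  have hm2 : m = R + (m - R) := by omega
  have hml : 1 ≤ m - R := by omega
  rw [int_set μ (ball_ms G hG a R)]
  have h1 : ∀ x, (if x ∈ {x | ‖G x - a‖ ≤ ((p : ℝ)⁻¹) ^ R} then ch p m (u * G x) else 0) =
      ∫ z, ch p R (-(z * a)) * ch p m ((u + (p : ℤ_[p]) ^ (m - R) * z) * G x) ∂(mu p) := by
    intro x
    have h2 : ∀ z : ℤ_[p], ch p R (-(z * a)) *
        ch p m ((u + (p : ℤ_[p]) ^ (m - R) * z) * G x) =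
        ch p m (u * G x) * ch p R (z * (G x - a)) := by
      intro z
      have h3 : ch p m ((p : ℤ_[p]) ^ (m - R) * z * G x) = ch p R (z * G x) := by
        conv_lhs => rw [hm2]
        rw [Nat.add_sub_cancel_left, mul_assoc, ch_pow]
      rw [add_mul, ch_add, h3, mul_sub, sub_eq_add_neg, ch_add]
      ring
    simp only [h2]
    rw [integral_const_mul, ch_int]
    by_cases h : ‖G x - a‖ ≤ ((p : ℝ)⁻¹) ^ R
    · rw [if_pos (by exact h), if_pos h, mul_one]
    · rw [if_neg (by exact h), if_neg h, mul_zero]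
  simp only [h1]
  rw [integral_integral_swap]
  · have h4 : ∀ z : ℤ_[p], ∫ x, ch p R (-(z * a)) *
        ch p m ((u + (p : ℤ_[p]) ^ (m - R) * z) * G x) ∂μ =
        ∑ i, ch p m (u * c i) * D i u m * ch p R (z * (c i - a)) := by
      intro z
      rw [integral_const_mul]
      have h5 : ‖u + (p : ℤ_[p]) ^ (m - R) * z‖ = 1 := (unit_add _ hml u z).2 hu
      have h6 := hE _ h5 m
      unfold Et at h6
      rw [h6, Finset.mul_sum]
      refine Finset.sum_congr rfl fun i _ => ?_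
      have h7 : D i (u + (p : ℤ_[p]) ^ (m - R) * z) m = D i u m := by
        refine hD i _ _ h5 hu ?_ m
        rw [add_sub_cancel_left, norm_mul, norm_p_pow]
        exact (mul_le_of_le_one_right (pow_nonneg (pinv_pos p).le _)
          (PadicInt.norm_le_one z)).trans ((pw_le_iff _ _).2 (by omega))
      have h3 : ch p m ((p : ℤ_[p]) ^ (m - R) * z * c i) = ch p R (z * c i) := by
        conv_lhs => rw [hm2]
        rw [Nat.add_sub_cancel_left, mul_assoc, ch_pow]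
      rw [h7, add_mul, ch_add, h3, mul_sub, sub_eq_add_neg (z * c i), ch_add]
      ring
    simp only [h4]
    rw [integral_finsetSum]
    · refine Finset.sum_congr rfl fun i _ => ?_
      rw [integral_const_mul, ch_int]
      split_ifs
      · rw [mul_one]
      · rw [mul_zero]
    · intro i _
      refine (bdd_int _ _ ((ch_meas p R).comp (measurable_id.mul_const _)) 1 fun x =>
        (norm_ch p R _).le).const_mul _
  · refine bdd_int _ _ ?_ 1 fun x => ?_
    · refine Measurable.mul ?_ ?_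
      · exact (ch_meas p R).comp (measurable_snd.mul_const a).neg
      · refine (ch_meas p m).comp ?_
        exact (measurable_const.add (measurable_snd.const_mul _)).mul (hG.comp measurable_fst)
    · rw [Function.uncurry, norm_mul, norm_ch, norm_ch, one_mul]

/-- **The pieces on balls.** -/
theorem pc_ball (hG : Measurable G) {ι : Type} [Fintype ι] (M : ℤ_[p] → ℂ → ℕ∞)
    (c : ι → ℤ_[p]) (D : ι → ℤ_[p] → ℕ → ℂ) (e1 : ℕ) (he1 : 1 ≤ e1)
    (hD : ∀ i, ∀ u v : ℤ_[p], ‖u‖ = 1 → ‖v‖ = 1 → ‖u - v‖ ≤ ((p : ℝ)⁻¹) ^ e1 → ∀ m,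
      D i u m = D i v m)
    (hEP : ∀ i, ∀ u : ℤ_[p], ‖u‖ = 1 → D i u ∈ EP (M (c i)))
    (hE : ∀ u : ℤ_[p], ‖u‖ = 1 → ∀ m, Et μ G u m = ∑ i, ch p m (u * c i) * D i u m)
    (a : ℤ_[p]) (R e : ℕ) (b : ℤ_[p]) (hb : ‖a - b‖ ≤ ((p : ℝ)⁻¹) ^ R)
    (hc : ∀ i, ‖c i - a‖ ≤ ((p : ℝ)⁻¹) ^ R → c i = b)
    (hs : b ≠ 0 → ((p : ℝ)⁻¹) ^ R ≤ ((p : ℝ)⁻¹) ^ e * ‖b‖) :
    Pc (M b) e1 e b ((μ.restrict {x | ‖G x - a‖ ≤ ((p : ℝ)⁻¹) ^ R}).map fun x => G x - b) := by
  classical
  set S : Set Ω := {x | ‖G x - a‖ ≤ ((p : ℝ)⁻¹) ^ R} with hS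
  have hSm : MeasurableSet S := ball_ms G hG a R
  have hGb : Measurable fun x => G x - b := hG.sub_const b
  have hSb : ∀ x ∈ S, ‖G x - b‖ ≤ ((p : ℝ)⁻¹) ^ R := by
    intro x hx
    have e : G x - b = (G x - a) + (a - b) := by ring
    rw [e]
    exact (PadicInt.nonarchimedean _ _).trans (max_le hx hb)
  have hEf : ∀ u m, Ef ((μ.restrict S).map fun x => G x - b) u m =
      ∫ x in S, ch p m (u * (G x - b)) ∂μ := by
    intro u m
    unfold Ef
    rw [integral_map hGb.aemeasurable]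
    exact ((ch_meas p m).comp (measurable_id.const_mul u)).aestronglyMeasurable
  have hlarge : ∀ u, ‖u‖ = 1 → ∀ m, R + e1 ≤ m →
      Ef ((μ.restrict S).map fun x => G x - b) u m =
        ∑ i, if ‖c i - a‖ ≤ ((p : ℝ)⁻¹) ^ R then D i u m else 0 := by
    intro u hu m hm
    rw [hEf]
    have h1 : ∀ x, ch p m (u * (G x - b)) = ch p m (-(u * b)) * ch p m (u * G x) := by
      intro x
      rw [← ch_add]
      congr 1
      ring
    simp only [h1]
    rw [integral_const_mul, ball_tr μ G hG c D e1 he1 hD hE a R m hm u hu, Finset.mul_sum]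
    refine Finset.sum_congr rfl fun i _ => ?_
    split_ifs with hi
    · rw [hc i hi, ← mul_assoc, ← ch_add, neg_add_cancel, ch_zero, one_mul]
    · rw [mul_zero]
  refine ⟨inferInstance, fun hb0 => ?_, fun u v hu hv huv m => ?_, fun u hu => ?_⟩
  · rw [ae_map_iff hGb.aemeasurable (measurableSet_le measurable_norm measurable_const)]
    filter_upwards [ae_restrict_mem hSm] with x hx
    exact (hSb x hx).trans (hs hb0)
  · by_cases hm : R + e1 ≤ m
    · rw [hlarge u hu m hm, hlarge v hv m hm]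
      refine Finset.sum_congr rfl fun i _ => ?_
      rw [hD i u v hu hv huv m]
    · rw [hEf, hEf]
      refine setIntegral_congr_fun hSm fun x hx => ?_
      refine ch_congr p m _ _ ?_
      rw [← sub_mul, norm_mul]
      calc ‖u - v‖ * ‖G x - b‖ ≤ ((p : ℝ)⁻¹) ^ e1 * ((p : ℝ)⁻¹) ^ R :=
            mul_le_mul huv (hSb x hx) (norm_nonneg _) (pow_nonneg (pinv_pos p).le _)
        _ = ((p : ℝ)⁻¹) ^ (R + e1) := by rw [← pow_add, add_comm]
        _ ≤ _ := (pw_le_iff _ _).2 (by omega)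
  · refine EP_of_ev (R + e1) (b := ∑ i, if ‖c i - a‖ ≤ ((p : ℝ)⁻¹) ^ R then D i u else 0)
      ((EP (M b)).sum_mem fun i _ => ?_) fun m hm => ?_
    · split_ifs with hi
      · rw [← hc i hi]
        exact hEP i u hu
      · exact (EP (M b)).zero_mem
    · rw [hlarge u hu m hm, Finset.sum_apply]
      refine Finset.sum_congr rfl fun i _ => ?_
      split_ifs <;> rfl

/-- small enough -/
theorem small_fin {ι : Type} [Fintype ι] (z : ι → ℤ_[p]) :
    ∃ n : ℕ, ∀ i, z i ≠ 0 → ((p : ℝ)⁻¹) ^ n < ‖z i‖ := by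
  classical
  have h : ∀ i, ∃ n : ℕ, z i ≠ 0 → ((p : ℝ)⁻¹) ^ n < ‖z i‖ := by
    intro i
    by_cases hi : z i = 0
    · exact ⟨0, fun h => absurd hi h⟩
    · obtain ⟨n, hn⟩ := exists_pow_lt_of_lt_one (norm_pos_iff.2 hi) (pinv_lt (p := p))
      exact ⟨n, fun _ => hn⟩
  choose n hn using h
  refine ⟨∑ i, n i, fun i hi => lt_of_le_of_lt ?_ (hn i hi)⟩
  exact (pw_le_iff _ _).2 (Finset.single_le_sum (f := n) (fun _ _ => Nat.zero_le _)
    (Finset.mem_univ i))

/-- **The decomposition into pieces.** -/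
theorem pieces (hG : Measurable G) {ι : Type} [Fintype ι] (M : ℤ_[p] → ℂ → ℕ∞)
    (c : ι → ℤ_[p]) (D : ι → ℤ_[p] → ℕ → ℂ) (hD : ∀ i, GoodE p (M (c i)) (D i))
    (hE : ∀ u : ℤ_[p], ‖u‖ = 1 → ∀ m, Et μ G u m = ∑ i, ch p m (u * c i) * D i u m) :
    ∃ e1 : ℕ, 1 ≤ e1 ∧ ∀ e : ℕ, ∃ (κ : Type) (_ : Fintype κ) (a : κ → ℤ_[p])
      (ν : κ → Measure ℤ_[p]), (∀ k, Pc (M (a k)) e1 e (a k) (ν k)) ∧
      ∀ (f : ℤ_[p] → ℂ) (B : ℝ), Measurable f → (∀ x, ‖f x‖ ≤ B) →
        ∫ x, f (G x) ∂μ = ∑ k, ∫ t, f (a k + t) ∂(ν k) := by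
  classical
  choose c0 hc0 hEP using hD
  set e1 : ℕ := 1 + ∑ i, c0 i with he1
  have he1' : 1 ≤ e1 := by omega
  have hD' : ∀ i, ∀ u v : ℤ_[p], ‖u‖ = 1 → ‖v‖ = 1 → ‖u - v‖ ≤ ((p : ℝ)⁻¹) ^ e1 → ∀ m,
      D i u m = D i v m := by
    intro i u v hu hv huv m
    refine hc0 i u v hu hv (huv.trans ((pw_le_iff _ _).2 ?_)) m
    have := Finset.single_le_sum (f := c0) (fun _ _ => Nat.zero_le _) (Finset.mem_univ i)
    omega
  refine ⟨e1, he1', fun e => ?_⟩
  obtain ⟨n1, hn1⟩ := small_fin c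
  obtain ⟨n2, hn2⟩ := small_fin (fun q : ι × ι => c q.1 - c q.2)
  set r : ℕ := n1 + n2 with hr
  have hr1 : ∀ i, c i ≠ 0 → ((p : ℝ)⁻¹) ^ r < ‖c i‖ := fun i hi =>
    lt_of_le_of_lt ((pw_le_iff _ _).2 (by omega)) (hn1 i hi)
  have hr2 : ∀ i j, ‖c i - c j‖ ≤ ((p : ℝ)⁻¹) ^ r → c i = c j := by
    intro i j h
    by_contra hn
    have h1 := hn2 (i, j) (sub_ne_zero.2 hn)
    exact absurd (lt_of_lt_of_le h1 (h.trans ((pw_le_iff _ _).2 (by omega)))) (lt_irrefl _)
  set R : ℕ := r + e with hR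
  have hRr : ((p : ℝ)⁻¹) ^ R ≤ ((p : ℝ)⁻¹) ^ r := (pw_le_iff _ _).2 (by omega)
  -- the centres
  have hcen : ∀ w : ZMod (p ^ R), ∃ b : ℤ_[p], ‖(w.val : ℤ_[p]) - b‖ ≤ ((p : ℝ)⁻¹) ^ R ∧
      ∀ i, ‖c i - (w.val : ℤ_[p])‖ ≤ ((p : ℝ)⁻¹) ^ R → c i = b := by
    intro w
    by_cases h : ∃ i, ‖c i - (w.val : ℤ_[p])‖ ≤ ((p : ℝ)⁻¹) ^ R
    · obtain ⟨i, hi⟩ := h
      refine ⟨c i, by rw [norm_sub_rev]; exact hi, fun j hj => hr2 j i ?_⟩
      have e2 : c j - c i = (c j - (w.val : ℤ_[p])) + -(c i - (w.val : ℤ_[p])) := by ring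
      rw [e2]
      refine (PadicInt.nonarchimedean _ _).trans (max_le (hj.trans hRr) ?_)
      rw [norm_neg]
      exact hi.trans hRr
    · exact ⟨(w.val : ℤ_[p]), by rw [sub_self, norm_zero]; exact pow_nonneg (pinv_pos p).le _,
        fun i hi => absurd ⟨i, hi⟩ h⟩
  choose b hb1 hb2 using hcen
  set a : Option (ZMod (p ^ R)) → ℤ_[p] := fun o => match o with
    | none => 0
    | some w => if ‖(w.val : ℤ_[p])‖ ≤ ((p : ℝ)⁻¹) ^ r then 0 else b w with ha
  set ν : Option (ZMod (p ^ R)) → Measure ℤ_[p] := fun o => match o with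
    | none => (μ.restrict {x | ‖G x - 0‖ ≤ ((p : ℝ)⁻¹) ^ r}).map fun x => G x - 0
    | some w => if ‖(w.val : ℤ_[p])‖ ≤ ((p : ℝ)⁻¹) ^ r then 0 else
        (μ.restrict {x | ‖G x - (w.val : ℤ_[p])‖ ≤ ((p : ℝ)⁻¹) ^ R}).map fun x => G x - b w
    with hν
  refine ⟨Option (ZMod (p ^ R)), inferInstance, a, ν, fun k => ?_, fun f B hf hf1 => ?_⟩
  · rcases k with _ | w
    · refine pc_ball μ G hG M c D e1 he1' hD' hEP hE 0 r e 0 ?_ (fun i hi => ?_) fun h =>
        absurd rfl h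
      · rw [sub_zero, norm_zero]
        exact pow_nonneg (pinv_pos p).le _
      · rw [sub_zero] at hi
        by_contra hn
        exact absurd (lt_of_lt_of_le (hr1 i hn) hi) (lt_irrefl _)
    · by_cases hw : ‖(w.val : ℤ_[p])‖ ≤ ((p : ℝ)⁻¹) ^ r
      · have e1' : a (some w) = 0 := by rw [ha]; exact if_pos hw
        have e2 : ν (some w) = 0 := by rw [hν]; exact if_pos hw
        rw [e1', e2]
        exact Pc.zero _ _ _ _
      · have e1' : a (some w) = b w := by rw [ha]; exact if_neg hw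
        have e2 : ν (some w) = (μ.restrict {x | ‖G x - (w.val : ℤ_[p])‖ ≤
            ((p : ℝ)⁻¹) ^ R}).map fun x => G x - b w := by rw [hν]; exact if_neg hw
        rw [e1', e2]
        refine pc_ball μ G hG M c D e1 he1' hD' hEP hE _ R e (b w) (hb1 w) (hb2 w) fun _ => ?_
        have h3 : ((p : ℝ)⁻¹) ^ r < ‖b w‖ := by
          have e3 : b w = (w.val : ℤ_[p]) - ((w.val : ℤ_[p]) - b w) := by ring
          by_contra hn
          apply hw
          have e4 : (w.val : ℤ_[p]) = ((w.val : ℤ_[p]) - b w) + b w := by ring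
          rw [e4]
          exact (PadicInt.nonarchimedean _ _).trans (max_le ((hb1 w).trans hRr) (not_lt.1 hn))
        rw [hR, pow_add, mul_comm]
        exact mul_le_mul_of_nonneg_left h3.le (pow_nonneg (pinv_pos p).le _)
  · have hfG : Measurable fun x => f (G x) := hf.comp hG
    have hi0 : ∀ S : Set Ω, MeasurableSet S → Integrable
        (fun x => if x ∈ S then f (G x) else 0) μ := by
      intro S hS
      refine bdd_int _ _ (Measurable.ite hS hfG measurable_const) B fun x => ?_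
      split_ifs
      · exact hf1 _
      · rw [norm_zero]
        exact (norm_nonneg _).trans (hf1 0)
    have key : ∀ (S : Set Ω) (b : ℤ_[p]), MeasurableSet S →
        ∫ t, f (b + t) ∂((μ.restrict S).map fun x => G x - b) =
          ∫ x, (if x ∈ S then f (G x) else 0) ∂μ := by
      intro S b hS
      have hfb : Measurable fun t : ℤ_[p] => f (b + t) := hf.comp (measurable_id.const_add b)
      rw [integral_map (hG.sub_const b).aemeasurable hfb.aestronglyMeasurable, ← int_set μ hS]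
      refine integral_congr_ae (Filter.Eventually.of_forall fun x => ?_)
      beta_reduce
      rw [add_sub_cancel]
    rw [Fintype.sum_option]
    have e0 : ∫ t, f (a none + t) ∂(ν none) =
        ∫ x, (if x ∈ {x | ‖G x - 0‖ ≤ ((p : ℝ)⁻¹) ^ r} then f (G x) else 0) ∂μ :=
      key _ 0 (ball_ms G hG 0 r)
    have e1' : ∀ w : ZMod (p ^ R), ∫ t, f (a (some w) + t) ∂(ν (some w)) =
        ∫ x, (if ‖(w.val : ℤ_[p])‖ ≤ ((p : ℝ)⁻¹) ^ r then 0 else
          if x ∈ {x | ‖G x - (w.val : ℤ_[p])‖ ≤ ((p : ℝ)⁻¹) ^ R} then f (G x) else 0) ∂μ := by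
      intro w
      by_cases hw : ‖(w.val : ℤ_[p])‖ ≤ ((p : ℝ)⁻¹) ^ r
      · have e2 : ν (some w) = 0 := by rw [hν]; exact if_pos hw
        simp only [if_pos hw]
        rw [e2, integral_zero_measure, integral_zero]
      · have e1' : a (some w) = b w := by rw [ha]; exact if_neg hw
        have e2 : ν (some w) = (μ.restrict {x | ‖G x - (w.val : ℤ_[p])‖ ≤
            ((p : ℝ)⁻¹) ^ R}).map fun x => G x - b w := by rw [hν]; exact if_neg hw
        simp only [if_neg hw]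
        rw [e1', e2]
        exact key _ (b w) (ball_ms G hG _ R)
    rw [e0, Finset.sum_congr rfl fun w _ => e1' w, ← integral_finsetSum, ← integral_add]
    · refine integral_congr_ae (Filter.Eventually.of_forall fun x => ?_)
      beta_reduce
      have hres : ∀ w : ZMod (p ^ R), ‖G x - (w.val : ℤ_[p])‖ ≤ ((p : ℝ)⁻¹) ^ R ↔
          PadicInt.toZModPow R (G x) = w := fun w => res_eq R (G x) w
      set w0 : ZMod (p ^ R) := PadicInt.toZModPow R (G x) with hw0
      have hw0' : ‖G x - (w0.val : ℤ_[p])‖ ≤ ((p : ℝ)⁻¹) ^ R := (hres w0).2 rfl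
      rw [Finset.sum_eq_single w0]
      · have hiff : ‖G x - 0‖ ≤ ((p : ℝ)⁻¹) ^ r ↔ ‖(w0.val : ℤ_[p])‖ ≤ ((p : ℝ)⁻¹) ^ r := by
          rw [sub_zero]
          constructor
          · intro h
            have e3 : (w0.val : ℤ_[p]) = -(G x - (w0.val : ℤ_[p])) + G x := by ring
            rw [e3]
            refine (PadicInt.nonarchimedean _ _).trans (max_le ?_ h)
            rw [norm_neg]
            exact hw0'.trans hRr
          · intro h
            have e3 : G x = (G x - (w0.val : ℤ_[p])) + (w0.val : ℤ_[p]) := by ring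
            rw [e3]
            exact (PadicInt.nonarchimedean _ _).trans (max_le (hw0'.trans hRr) h)
        simp only [Set.mem_ofPred_eq]
        rw [if_pos hw0']
        by_cases h : ‖(w0.val : ℤ_[p])‖ ≤ ((p : ℝ)⁻¹) ^ r
        · rw [if_pos (hiff.2 h), if_pos h, add_zero]
        · rw [if_neg (fun h' => h (hiff.1 h')), if_neg h, zero_add]
      · intro w _ hw
        simp only [Set.mem_ofPred_eq]
        rw [if_neg (fun h' => hw ((hres w).1 h').symm)]
        split_ifs <;> rfl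
      · intro h
        exact absurd (Finset.mem_univ _) h
    · exact hi0 _ (ball_ms G hG 0 r)
    · refine integrable_finsetSum _ fun w _ => ?_
      by_cases hw : ‖(w.val : ℤ_[p])‖ ≤ ((p : ℝ)⁻¹) ^ r
      · simp only [if_pos hw]
        exact integrable_zero _ _ _
      · simp only [if_neg hw]
        exact hi0 _ (ball_ms G hG _ R)
    · intro w _
      by_cases hw : ‖(w.val : ℤ_[p])‖ ≤ ((p : ℝ)⁻¹) ^ r
      · simp only [if_pos hw]
        exact integrable_zero _ _ _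
      · simp only [if_neg hw]
        exact hi0 _ (ball_ms G hG _ R)

end gen

end Pool.Agent.T6.H26.PX
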