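import Pool.Agent.T6.H26.PZB

set_option autoImplicit false
set_option linter.unusedSectionVars false
set_option linter.unusedVariables false

/-! # Products of pieces -/

namespace Pool.Agent.T6.H26.PX

open MeasureTheory Pool.Agent.W427.SMC Pool.Agent.Y230.PT Pool.Agent.Y230.PS
open Pool.Agent.Y230.TH MvPolynomial
open scoped ENNReal

variable {p : ℕ} [Fact p.Prime]

attribute [local instance] msZ bsZ msK bsK nz

theorem Pc.good {M : ℂ → ℕ∞} {e1 e : ℕ} {c : ℤ_[p]} {ν : Measure ℤ_[p]} (h : Pc M e1 e c ν) :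
    GoodE p M (Ef ν) := ⟨e1, h.loc, h.ep⟩

theorem dvd_of_norm (x y : ℤ_[p]) (h : ‖y‖ ≤ ‖x‖) : x ∣ y := by
  by_cases hx : x = 0
  · rw [hx, norm_zero] at h
    rw [norm_le_zero_iff.1 h]
    exact dvd_zero x
  · obtain ⟨N, x', hx', rfl⟩ := val_dec x hx
    rw [norm_mul, norm_p_pow, hx', mul_one, le_iff_dvd] at h
    obtain ⟨w, hw⟩ := PadicInt.isUnit_iff.2 hx'
    rw [← hw]
    exact (Units.mul_right_dvd).2 h

/-- multiples of units -/
theorem loc_mul {ν : Measure ℤ_[p]} {e1 : ℕ} (h : ∀ u v : ℤ_[p], ‖u‖ = 1 → ‖v‖ = 1 →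
    ‖u - v‖ ≤ ((p : ℝ)⁻¹) ^ e1 → ∀ m, Ef ν u m = Ef ν v m) (u v : ℤ_[p]) (hu : ‖u‖ = 1)
    (hv : ‖v‖ = 1) (huv : ‖u - v‖ ≤ ((p : ℝ)⁻¹) ^ e1) (z : ℤ_[p]) (m : ℕ) :
    Ef ν (u * z) m = Ef ν (v * z) m := by
  by_cases hz : z = 0
  · rw [hz, mul_zero, mul_zero]
  · obtain ⟨N, z', hz', rfl⟩ := val_dec z hz
    have e1 : u * ((p : ℤ_[p]) ^ N * z') = (p : ℤ_[p]) ^ N * (u * z') := by ring
    have e2 : v * ((p : ℤ_[p]) ^ N * z') = (p : ℤ_[p]) ^ N * (v * z') := by ring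
    rw [e1, e2, Ef_pmul, Ef_pmul]
    split_ifs
    · rfl
    · refine h _ _ (by rw [norm_mul, hu, hz', one_mul]) (by rw [norm_mul, hv, hz', one_mul]) ?_ _
      rw [← sub_mul, norm_mul, hz', mul_one]
      exact huv

theorem good_mulc {M : ℂ → ℕ∞} {ν : Measure ℤ_[p]} (h : GoodE p M (Ef ν)) (z : ℤ_[p])
    (hz : z ≠ 0) : GoodE p M (fun u m => Ef ν (u * z) m) := by
  obtain ⟨e1, h1, h2⟩ := h
  refine ⟨e1, fun u v hu hv huv m => loc_mul h1 u v hu hv huv z m, fun u hu => ?_⟩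
  obtain ⟨N, z', hz', rfl⟩ := val_dec z hz
  refine EP_of_sftk N ?_
  have e : (fun n => Ef ν (u * ((p : ℤ_[p]) ^ N * z')) (n + N)) = Ef ν (u * z') := by
    funext n
    have e1 : u * ((p : ℤ_[p]) ^ N * z') = (p : ℤ_[p]) ^ N * (u * z') := by ring
    rw [e1, Ef_pmul, if_neg (by omega), Nat.add_sub_cancel]
  beta_reduce
  rw [e]
  exact h2 _ (by rw [norm_mul, hu, hz', one_mul])

theorem GoodE.cmul {M : ℂ → ℕ∞} {E : ℤ_[p] → ℕ → ℂ} (h : GoodE p M E) (a : ℂ) :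
    GoodE p M (fun u m => E u m * a) := by
  refine (GoodE.const_mul h a).congr fun u _ m => ?_
  beta_reduce
  rw [mul_comm]

/-- the transform of a product of two laws -/
noncomputable def Ep (ν ν' : Measure ℤ_[p]) (c c' : ℤ_[p]) (u : ℤ_[p]) (m : ℕ) : ℂ :=
  ∫ t, ∫ t', ch p m (u * ((c + t) * (c' + t'))) ∂ν' ∂ν

theorem Ep_swap (ν ν' : Measure ℤ_[p]) [IsFiniteMeasure ν] [IsFiniteMeasure ν'] (c c' : ℤ_[p])
    (u : ℤ_[p]) (m : ℕ) : Ep ν ν' c c' u m = Ep ν' ν c' c u m := by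
  unfold Ep
  rw [integral_integral_swap]
  · refine integral_congr_ae (Filter.Eventually.of_forall fun t => ?_)
    refine integral_congr_ae (Filter.Eventually.of_forall fun t' => ?_)
    beta_reduce
    rw [mul_comm (c + t') (c' + t)]
  · refine bdd_int _ _ ?_ 1 fun x => (norm_ch p m _).le
    refine (ch_meas p m).comp (measurable_const.mul ?_)
    exact (measurable_const.add measurable_fst).mul (measurable_const.add measurable_snd)

/-- **Products near a nonzero value.** -/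
theorem Ep_ne {M M' : ℂ → ℕ∞} {e1 e1' e e' : ℕ} {c c' : ℤ_[p]} {ν ν' : Measure ℤ_[p]}
    (h : Pc M e1 e c ν) (h' : Pc M' e1' e' c' ν') (hc' : c' ≠ 0) (he : e1 ≤ e') (he' : 1 ≤ e')
    (u : ℤ_[p]) (hu : ‖u‖ = 1) (m : ℕ) :
    Ep ν ν' c c' u m = ch p m (u * (c * c')) * (Ef ν (u * c') m * Ef ν' (u * c) m) := by
  have := h.fin
  have := h'.fin
  rw [Ep_swap]
  unfold Ep
  have h1 : ∀ᵐ t' ∂ν', ∫ t, ch p m (u * ((c' + t') * (c + t))) ∂ν =
      ch p m (u * (c * c')) * Ef ν (u * c') m * ch p m (u * c * t') := by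
    filter_upwards [h'.sup hc'] with t' ht'
    have h2 : (p : ℤ_[p]) ^ e' * c' ∣ t' := by
      refine dvd_of_norm _ _ ?_
      rw [norm_mul, norm_p_pow]
      exact ht'
    obtain ⟨s, rfl⟩ := h2
    have h3 : ∀ t, ch p m (u * ((c' + (p : ℤ_[p]) ^ e' * c' * s) * (c + t))) =
        ch p m (u * (c * c')) * ch p m (u * c * ((p : ℤ_[p]) ^ e' * c' * s)) *
          ch p m ((u * (1 + (p : ℤ_[p]) ^ e' * s) * c') * t) := by
      intro t
      rw [← ch_add, ← ch_add]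
      congr 1
      ring
    simp only [h3]
    rw [integral_const_mul]
    have h4 : Ef ν (u * (1 + (p : ℤ_[p]) ^ e' * s) * c') m = Ef ν (u * c') m := by
      refine loc_mul h.loc _ u (by rw [norm_mul, hu, unit_one e' he', one_mul]) hu ?_ c' m
      have e5 : u * (1 + (p : ℤ_[p]) ^ e' * s) - u = u * ((p : ℤ_[p]) ^ e' * s) := by ring
      rw [e5, norm_mul, hu, one_mul, norm_mul, norm_p_pow]
      exact (mul_le_of_le_one_right (pow_nonneg (pinv_pos p).le _)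
        (PadicInt.norm_le_one s)).trans ((pw_le_iff _ _).2 he)
    unfold Ef at h4 ⊢
    rw [h4]
    ring
  rw [integral_congr_ae h1, integral_const_mul]
  unfold Ef
  ring

/-- normalised measures -/
theorem exists_prob (ν : Measure ℤ_[p]) [IsFiniteMeasure ν] (h0 : ν ≠ 0) :
    ∃ P : Measure ℤ_[p], IsProbabilityMeasure P ∧ ν = (ν Set.univ) • P := by
  have : NeZero ν := ⟨h0⟩
  refine ⟨(ν Set.univ)⁻¹ • ν, inferInstance, ?_⟩
  rw [smul_smul, ENNReal.mul_inv_cancel (by rwa [Ne, Measure.measure_univ_eq_zero])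
    (measure_ne_top ν _), one_smul]

theorem prob_good {M : ℂ → ℕ∞} {ν P : Measure ℤ_[p]} [IsFiniteMeasure ν]
    [IsProbabilityMeasure P] (hP : ν = (ν Set.univ) • P) (h0 : ν ≠ 0) (h : GoodE p M (Ef ν)) :
    GoodE p M (Et P (fun t : ℤ_[p] => t)) := by
  have ha : (ν Set.univ).toReal ≠ 0 :=
    (ENNReal.toReal_pos (by rwa [Ne, Measure.measure_univ_eq_zero]) (measure_ne_top ν _)).ne'
  refine (GoodE.const_mul h ((((ν Set.univ).toReal : ℝ) : ℂ)⁻¹)).congr fun u _ m => ?_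
  beta_reduce
  have h1 : Ef ν u m = ((ν Set.univ).toReal : ℂ) * Et P (fun t : ℤ_[p] => t) u m := by
    unfold Ef Et
    conv_lhs => rw [hP]
    rw [integral_smul_measure, Complex.real_smul]
  rw [h1, ← mul_assoc, inv_mul_cancel₀ (by exact_mod_cast ha), one_mul]

/-- **Products near zero.** -/
theorem Ep_zero {M M' M3 : ℂ → ℕ∞} {e1 e1' e e' : ℕ} {ν ν' : Measure ℤ_[p]}
    (h : Pc (Pool.Agent.Y230.PS.tr M) e1 e 0 ν) (h' : Pc (Pool.Agent.Y230.PS.tr M') e1' e' 0 ν')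
    (H : ∀ T, 1 < ‖T‖ → M T + (dp p T : ℕ) + M' T ≤ M3 T) :
    GoodE p (Pool.Agent.Y230.PS.tr M3) (Ep ν ν' 0 0) := by
  have := h.fin
  have := h'.fin
  by_cases h0 : ν = 0
  · refine GoodE.zero.congr fun u _ m => ?_
    unfold Ep
    rw [h0, integral_zero_measure]
  by_cases h0' : ν' = 0
  · refine GoodE.zero.congr fun u _ m => ?_
    unfold Ep
    simp only [h0', integral_zero_measure, integral_zero]
  obtain ⟨P, hP, e⟩ := exists_prob ν h0
  obtain ⟨P', hP', e'⟩ := exists_prob ν' h0'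
  have h1 := prob_good e h0 h.good
  have h2 := prob_good e' h0' h'.good
  have h3 := good_mul P P' (fun t : ℤ_[p] => t) (fun t : ℤ_[p] => t) measurable_id measurable_id
    h1 h2 H
  refine (GoodE.const_mul h3 (((ν Set.univ).toReal : ℂ) * ((ν' Set.univ).toReal : ℂ))).congr
    fun u _ m => ?_
  beta_reduce
  have hint : Integrable (fun q : ℤ_[p] × ℤ_[p] => ch p m (u * (q.1 * q.2))) (P.prod P') := by
    refine bdd_int _ _ ?_ 1 fun x => (norm_ch p m _).le
    exact (ch_meas p m).comp (measurable_const.mul (measurable_fst.mul measurable_snd))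
  unfold Ep Et
  rw [integral_prod _ hint]
  have e5 : ∀ t : ℤ_[p], ∫ t', ch p m (u * ((0 + t) * (0 + t'))) ∂ν' =
      ((ν' Set.univ).toReal : ℂ) * ∫ t', ch p m (u * (t * t')) ∂P' := by
    intro t
    simp only [zero_add]
    conv_lhs => rw [e']
    rw [integral_smul_measure, Complex.real_smul]
  simp only [e5]
  rw [integral_const_mul]
  conv_rhs => rw [e]
  rw [integral_smul_measure, Complex.real_smul]
  ring

end Pool.Agent.T6.H26.PX
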