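import Pool.Agent.T6.H26.PZC

set_option autoImplicit false
set_option linter.unusedSectionVars false
set_option linter.unusedVariables false

/-! # Products in the class `XC` -/

namespace Pool.Agent.T6.H26.PX

open MeasureTheory Pool.Agent.W427.SMC Pool.Agent.Y230.PT Pool.Agent.Y230.PS
open Pool.Agent.Y230.TH MvPolynomial
open scoped ENNReal

variable {p : ℕ} [Fact p.Prime]

attribute [local instance] msZ bsZ msK bsK nz

theorem inc0 : inc p (0 : ℤ_[p]) = 0 := by simp [inc]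

theorem inc_ne {a : ℤ_[p]} (ha : a ≠ 0) : inc p a ≠ 0 := by
  intro h
  apply ha
  have h1 : ‖inc p a‖ = ‖a‖ := rfl
  rw [h, norm_zero] at h1
  exact norm_eq_zero.1 h1.symm

section two

variable {Ω₁ Ω₂ : Type} [MeasurableSpace Ω₁] [MeasurableSpace Ω₂] (μ₁ : Measure Ω₁)
  (μ₂ : Measure Ω₂) [IsProbabilityMeasure μ₁] [IsProbabilityMeasure μ₂] (G₁ : Ω₁ → ℤ_[p])
  (G₂ : Ω₂ → ℤ_[p])

/-- **The transform of a product of two functions.** -/
theorem Et_prod_pieces (h1 : Measurable G₁) (h2 : Measurable G₂) {κ κ' : Type} [Fintype κ]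
    [Fintype κ'] (a : κ → ℤ_[p]) (ν : κ → Measure ℤ_[p]) (a' : κ' → ℤ_[p])
    (ν' : κ' → Measure ℤ_[p]) (hfin : ∀ k, IsFiniteMeasure (ν k))
    (hfin' : ∀ k, IsFiniteMeasure (ν' k))
    (hf : ∀ (f : ℤ_[p] → ℂ) (B : ℝ), Measurable f → (∀ x, ‖f x‖ ≤ B) →
      ∫ x, f (G₁ x) ∂μ₁ = ∑ k, ∫ t, f (a k + t) ∂(ν k))
    (hf' : ∀ (f : ℤ_[p] → ℂ) (B : ℝ), Measurable f → (∀ x, ‖f x‖ ≤ B) →
      ∫ x, f (G₂ x) ∂μ₂ = ∑ k, ∫ t, f (a' k + t) ∂(ν' k)) (u : ℤ_[p]) (m : ℕ) :
    Et (μ₁.prod μ₂) (fun q => G₁ q.1 * G₂ q.2) u m =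
      ∑ q : κ × κ', Ep (ν q.1) (ν' q.2) (a q.1) (a' q.2) u m := by
  have hint : Integrable (fun q : Ω₁ × Ω₂ => ch p m (u * (G₁ q.1 * G₂ q.2))) (μ₁.prod μ₂) := by
    refine bdd_int _ _ ?_ 1 fun x => (norm_ch p m _).le
    exact (ch_meas p m).comp (measurable_const.mul ((h1.comp measurable_fst).mul
      (h2.comp measurable_snd)))
  unfold Et
  rw [integral_prod _ hint]
  have hfl : ∀ (k : κ') (x y : ℤ_[p]), ‖x - y‖ ≤ ((p : ℝ)⁻¹) ^ m →
      ∫ t', ch p m (u * (x * (a' k + t'))) ∂(ν' k) =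
        ∫ t', ch p m (u * (y * (a' k + t'))) ∂(ν' k) := by
    intro k x y hxy
    refine integral_congr_ae (Filter.Eventually.of_forall fun t => ?_)
    refine ch_congr p m _ _ ?_
    rw [← mul_sub, ← sub_mul, norm_mul, norm_mul]
    have h3 : ‖u‖ * ‖a' k + t‖ ≤ 1 := mul_le_one₀ (PadicInt.norm_le_one u) (norm_nonneg _)
      (PadicInt.norm_le_one _)
    calc ‖u‖ * (‖x - y‖ * ‖a' k + t‖) = ‖x - y‖ * (‖u‖ * ‖a' k + t‖) := by ring
      _ ≤ ‖x - y‖ * 1 := mul_le_mul_of_nonneg_left h3 (norm_nonneg _)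
      _ ≤ _ := by rw [mul_one]; exact hxy
  have hfm : ∀ k : κ', Measurable fun s : ℤ_[p] =>
      ∫ t', ch p m (u * (s * (a' k + t'))) ∂(ν' k) := fun k => meas_loc m _ (hfl k)
  have hfb : ∀ (k : κ') (s : ℤ_[p]),
      ‖∫ t', ch p m (u * (s * (a' k + t'))) ∂(ν' k)‖ ≤ (ν' k).real Set.univ := by
    intro k s
    have h := norm_integral_le_of_norm_le_const (μ := ν' k)
      (f := fun t' => ch p m (u * (s * (a' k + t')))) (C := 1)
      (Filter.Eventually.of_forall fun x => (norm_ch p m _).le)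
    rwa [one_mul] at h
  have e1 : ∀ x : Ω₁, ∫ y, ch p m (u * (G₁ x * G₂ y)) ∂μ₂ =
      ∑ k, ∫ t', ch p m (u * (G₁ x * (a' k + t'))) ∂(ν' k) := fun x =>
    hf' (fun s => ch p m (u * (G₁ x * s))) 1
      ((ch_meas p m).comp (measurable_const.mul (measurable_const.mul measurable_id)))
      (fun s => (norm_ch p m _).le)
  simp only [e1]
  rw [integral_finsetSum]
  · rw [Fintype.sum_prod_type_right]
    refine Finset.sum_congr rfl fun k' _ => ?_
    exact hf (fun s => ∫ t', ch p m (u * (s * (a' k' + t'))) ∂(ν' k')) _ (hfm k') (hfb k')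
  · intro k _
    exact bdd_int _ _ ((hfm k).comp h1) _ fun x => hfb k _

end two

section cl

variable {σ τ : Type} [Fintype σ] [Fintype τ] {φ : ℚ_[p] →+* ℂ}

/-- **Products in disjoint variables.** -/
theorem XC.mul {g₁ : MvPolynomial σ ℚ_[p]} {g₂ : MvPolynomial τ ℚ_[p]}
    (hn1 : NK g₁) (hn2 : NK g₂) (h1 : XC φ g₁) (h2 : XC φ g₂) :
    XC φ (rename Sum.inl g₁ * rename Sum.inr g₂ : MvPolynomial (σ ⊕ τ) ℚ_[p]) := by
  classical
  obtain ⟨K1, G₁, hr1, ι, hι, c, D, hD, hE⟩ := h1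
  obtain ⟨K2, G₂, hr2, ι', hι', c', D', hD', hE'⟩ := h2
  have hG1 := hr1.cont.measurable
  have hG2 := hr2.cont.measurable
  set F₁ := C ((p : ℚ_[p]) ^ K1) * g₁ with hF1
  set F₂ := C ((p : ℚ_[p]) ^ K2) * g₂ with hF2
  have hN1 : NK F₁ := hn1.smul _ (pow_ne_zero _ p0)
  have hN2 : NK F₂ := hn2.smul _ (pow_ne_zero _ p0)
  obtain ⟨e1, he1, hp1⟩ := pieces (Measure.pi fun _ : σ => mu p) G₁ hG1
    (fun x => Pool.Agent.Y230.PS.tr (mC φ (F₁ - C (inc p x)))) c D hD hE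
  obtain ⟨e2, he2, hp2⟩ := pieces (Measure.pi fun _ : τ => mu p) G₂ hG2
    (fun x => Pool.Agent.Y230.PS.tr (mC φ (F₂ - C (inc p x)))) c' D' hD' hE'
  obtain ⟨κ, hκ, a, ν, hν, hf⟩ := hp1 (max e1 e2)
  obtain ⟨κ', hκ', a', ν', hν', hf'⟩ := hp2 (max e1 e2)
  refine ⟨K1 + K2, fun z => G₁ (fun i => z (Sum.inl i)) * G₂ (fun i => z (Sum.inr i)),
    fun z => ?_, κ × κ', inferInstance, fun q => a q.1 * a' q.2,
    fun q u m => ch p m (-(u * (a q.1 * a' q.2))) * Ep (ν q.1) (ν' q.2) (a q.1) (a' q.2) u m,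
    fun q => ?_, fun u hu m => ?_⟩
  · rw [Pool.Agent.T6.H26.inc_mul, hr1, hr2, map_mul, eval_rename, eval_rename, pow_add]
    simp only [Function.comp_def]
    ring
  · obtain ⟨i, j⟩ := q
    beta_reduce
    have e : C ((p : ℚ_[p]) ^ (K1 + K2)) * (rename Sum.inl g₁ * rename Sum.inr g₂) -
        C (inc p (a i * a' j)) = (rename Sum.inl F₁ * rename Sum.inr F₂ -
          C (inc p (a i) * inc p (a' j)) : MvPolynomial (σ ⊕ τ) ℚ_[p]) := by
      rw [Pool.Agent.T6.H26.inc_mul, hF1, hF2]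
      simp only [map_mul, rename_C, pow_add]
      ring
    rw [e]
    have hcan : ∀ (x : ℤ_[p]) (m : ℕ), ch p m (-x) * ch p m x = 1 := by
      intro x m
      rw [← ch_add, neg_add_cancel, ch_zero]
    have he1' : e1 ≤ max e1 e2 := le_max_left _ _
    have he2' : e2 ≤ max e1 e2 := le_max_right _ _
    have h1' : 1 ≤ max e1 e2 := he1.trans he1'
    have := (hν i).fin
    have := (hν' j).fin
    by_cases hj : a' j = 0
    · by_cases hi : a i = 0
      · rw [hi, hj, inc0, zero_mul, mul_zero, map_zero, sub_zero]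
        have hp := hν i
        have hp' := hν' j
        rw [hi, inc0, map_zero, sub_zero] at hp
        rw [hj, inc0, map_zero, sub_zero] at hp'
        refine (Ep_zero hp hp' (mC_mul0 φ hN1 hN2)).congr fun u _ m => ?_
        rw [mul_zero, neg_zero, ch_zero, one_mul]
      · have h3 : GoodE p (Pool.Agent.Y230.PS.tr (mC φ (F₂ - C (inc p (a' j)))))
            (fun u m => Ef (ν' j) (u * a i) m * ((ν i Set.univ).toReal : ℂ)) :=
          GoodE.cmul (good_mulc (hν' j).good (a i) hi) _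
        rw [hj, inc0, map_zero, sub_zero] at h3
        rw [hj, inc0, mul_zero, map_zero, sub_zero]
        refine GoodE.mono (h3.congr fun u hu m => ?_) fun T _ => tr_mono (mC_mulR φ hN1 hN2) T
        have h4 := Ep_ne (hν' j) (hν i) hi he2' h1' u hu m
        rw [Ep_swap (ν i) (ν' j), ← hj, h4, mul_comm (a i) (a' j), ← mul_assoc, hcan, one_mul, hj,
          mul_zero, Ef_zero]
    · have h4 := Ep_ne (hν i) (hν' j) hj he1' h1'
      by_cases hi : a i = 0
      · have h3 : GoodE p (Pool.Agent.Y230.PS.tr (mC φ (F₁ - C (inc p (a i)))))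
            (fun u m => Ef (ν i) (u * a' j) m * ((ν' j Set.univ).toReal : ℂ)) :=
          GoodE.cmul (good_mulc (hν i).good (a' j) hj) _
        rw [hi, inc0, map_zero, sub_zero] at h3
        rw [hi, inc0, zero_mul, map_zero, sub_zero]
        refine GoodE.mono (h3.congr fun u hu m => ?_) fun T _ => tr_mono (mC_mulL φ hN1 hN2) T
        rw [← hi, h4 u hu m, ← mul_assoc, hcan, one_mul, hi, mul_zero, Ef_zero]
      · have h3 := GoodE.mulE (mC_mul_ne φ hN1 hN2 _ _ (inc_ne hi) (inc_ne hj))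
          (good_mulc (hν i).good (a' j) hj) (good_mulc (hν' j).good (a i) hi)
        refine h3.congr fun u hu m => ?_
        rw [h4 u hu m, ← mul_assoc, hcan, one_mul]
  · have h3 : Et (Measure.pi fun _ : σ ⊕ τ => mu p)
        (fun z => G₁ (fun i => z (Sum.inl i)) * G₂ (fun i => z (Sum.inr i))) u m =
        Et ((Measure.pi fun _ : σ => mu p).prod (Measure.pi fun _ : τ => mu p))
          (fun q => G₁ q.1 * G₂ q.2) u m :=
      Et_sumpi (fun q : (σ → ℤ_[p]) × (τ → ℤ_[p]) => G₁ q.1 * G₂ q.2) u m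
    rw [h3, Et_prod_pieces _ _ G₁ G₂ hG1 hG2 a ν a' ν' (fun k => (hν k).fin)
      (fun k => (hν' k).fin) hf hf']
    refine Finset.sum_congr rfl fun q _ => ?_
    rw [← mul_assoc, ← ch_add, add_neg_cancel, ch_zero, one_mul]

end cl

end Pool.Agent.T6.H26.PX
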