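import Pool.Agent.T6.H26.PZD

set_option autoImplicit false
set_option linter.unusedSectionVars false
set_option linter.unusedVariables false

/-! # Powers in the class `XC` -/

namespace Pool.Agent.T6.H26.PX

open MeasureTheory Pool.Agent.W427.SMC Pool.Agent.Y230.PT Pool.Agent.Y230.PS
open Pool.Agent.Y230.TH MvPolynomial
open scoped ENNReal

variable {p : ℕ} [Fact p.Prime]

attribute [local instance] msZ bsZ msK bsK nz

/-- invariance under multiplication by units near `1` -/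
theorem inv_nu {ν : Measure ℤ_[p]} [IsFiniteMeasure ν] {e1 : ℕ} (he1 : 1 ≤ e1)
    (hloc : ∀ u v : ℤ_[p], ‖u‖ = 1 → ‖v‖ = 1 → ‖u - v‖ ≤ ((p : ℝ)⁻¹) ^ e1 → ∀ m,
      Ef ν u m = Ef ν v m) (n : ℕ) (h : ℤ_[p] → ℂ)
    (hh : ∀ x y, ‖x - y‖ ≤ ((p : ℝ)⁻¹) ^ n → h x = h y) (hb : ∀ x, ‖h x‖ ≤ 1) (y : ℤ_[p]) :
    ∫ x, h ((1 + (p : ℤ_[p]) ^ e1 * y) * x) ∂ν = ∫ x, h x ∂ν := by
  by_cases h0 : ν = 0
  · rw [h0, integral_zero_measure, integral_zero_measure]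
  obtain ⟨P, hP, e⟩ := exists_prob ν h0
  have ha : (ν Set.univ).toReal ≠ 0 :=
    (ENNReal.toReal_pos (by rwa [Ne, Measure.measure_univ_eq_zero]) (measure_ne_top ν _)).ne'
  have h1 : ∀ u m, Ef ν u m = ((ν Set.univ).toReal : ℂ) * Et P (fun t : ℤ_[p] => t) u m := by
    intro u m
    unfold Ef Et
    conv_lhs => rw [e]
    rw [integral_smul_measure, Complex.real_smul]
  have hc : ∀ u v : ℤ_[p], ‖u‖ = 1 → ‖v‖ = 1 → ‖u - v‖ ≤ ((p : ℝ)⁻¹) ^ e1 → ∀ m,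
      Et P (fun t : ℤ_[p] => t) u m = Et P (fun t : ℤ_[p] => t) v m := by
    intro u v hu hv huv m
    have h2 := hloc u v hu hv huv m
    rw [h1, h1] at h2
    exact mul_left_cancel₀ (by exact_mod_cast ha) h2
  have h3 := inv_int P (fun t : ℤ_[p] => t) measurable_id hc (1 + (p : ℤ_[p]) ^ e1 * y)
    (unit_one e1 he1 y) (by
      rw [add_sub_cancel_left, norm_mul, norm_p_pow]
      exact mul_le_of_le_one_right (pow_nonneg (pinv_pos p).le _) (PadicInt.norm_le_one y)) n h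
    hh hb
  rw [e, integral_smul_measure, integral_smul_measure, h3]

/-- isometries preserve the Haar measure -/
theorem int_iso (h : ℤ_[p] → ℤ_[p]) (hh : ∀ x y, ‖h x - h y‖ = ‖x - y‖) (n : ℕ)
    (f : ℤ_[p] → ℂ) (hf : ∀ x y, ‖x - y‖ ≤ ((p : ℝ)⁻¹) ^ n → f x = f y) (hb : ∀ x, ‖f x‖ ≤ 1) :
    ∫ y, f (h y) ∂(mu p) = ∫ y, f y ∂(mu p) := by
  have key : ∀ g : ℤ_[p] → ℂ, (∀ x y, ‖x - y‖ ≤ ((p : ℝ)⁻¹) ^ n → g x = g y) →
      (∀ x, ‖g x‖ ≤ 1) → ∫ y, g y ∂(mu p) = ∑ w : ZMod (p ^ n), ((p : ℂ)⁻¹) ^ n *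
        g (w.val : ℤ_[p]) := by
    intro g hg hg1
    rw [integral_sm p n g (meas_loc n g hg) 1 hg1]
    refine Finset.sum_congr rfl fun w _ => ?_
    congr 1
    have h1 : ∀ z : ℤ_[p], g ((w.val : ℤ_[p]) + (p : ℤ_[p]) ^ n * z) = g (w.val : ℤ_[p]) := by
      intro z
      refine hg _ _ ?_
      rw [add_sub_cancel_left, norm_mul, norm_p_pow]
      exact mul_le_of_le_one_right (pow_nonneg (pinv_pos p).le _) (PadicInt.norm_le_one z)
    simp only [h1]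
    rw [integral_const]
    simp
  rw [key (fun y => f (h y)) (fun x y hxy => hf _ _ (by rw [hh]; exact hxy)) (fun x => hb _),
    key f hf hb]
  set s : ZMod (p ^ n) → ZMod (p ^ n) := fun w => PadicInt.toZModPow n (h (w.val : ℤ_[p]))
    with hs
  have hs1 : ∀ w : ZMod (p ^ n), ‖h (w.val : ℤ_[p]) - ((s w).val : ℤ_[p])‖ ≤
      ((p : ℝ)⁻¹) ^ n := fun w => (res_eq n _ _).2 rfl
  have hinj : Function.Injective s := by
    intro w w' hww
    have h2 : ‖h (w.val : ℤ_[p]) - h (w'.val : ℤ_[p])‖ ≤ ((p : ℝ)⁻¹) ^ n := by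
      have e : h (w.val : ℤ_[p]) - h (w'.val : ℤ_[p]) =
          (h (w.val : ℤ_[p]) - ((s w).val : ℤ_[p])) +
            -(h (w'.val : ℤ_[p]) - ((s w').val : ℤ_[p])) := by
        rw [hww]
        ring
      rw [e]
      refine (PadicInt.nonarchimedean _ _).trans (max_le (hs1 w) ?_)
      rw [norm_neg]
      exact hs1 w'
    rw [hh] at h2
    have h3 := (res_eq n (w.val : ℤ_[p]) w').1 h2
    rw [map_natCast, ZMod.natCast_zmod_val] at h3
    exact h3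
  have hbij : Function.Bijective s := Finite.injective_iff_bijective.1 hinj
  rw [← hbij.sum_comp (fun w => ((p : ℂ)⁻¹) ^ n * f (w.val : ℤ_[p]))]
  refine Finset.sum_congr rfl fun w _ => ?_
  rw [hf _ _ (hs1 w)]

/-- powers near `1` -/
theorem pow_exp (k v e1 e : ℕ) (hk : ‖(k : ℤ_[p])‖ = ((p : ℝ)⁻¹) ^ v) (he : v + e1 ≤ e) :
    ∃ Q : Polynomial ℤ_[p], ∀ s : ℤ_[p], (1 + (p : ℤ_[p]) ^ e * s) ^ k =
      1 + (k : ℤ_[p]) * ((p : ℤ_[p]) ^ e * s) * (1 + (p : ℤ_[p]) ^ e1 * Q.eval s) := by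
  obtain ⟨k0, hk0⟩ := (le_iff_dvd p v (k : ℤ_[p])).1 hk.le
  have h1 : ‖k0‖ = 1 := by
    have h2 := congrArg norm hk0
    rw [norm_mul, norm_p_pow, hk] at h2
    have h3 : ((p : ℝ)⁻¹) ^ v ≠ 0 := (pow_pos (pinv_pos p) v).ne'
    exact mul_left_cancel₀ h3 (by rw [mul_one]; exact h2.symm)
  obtain ⟨w, hw⟩ := PadicInt.isUnit_iff.2 h1
  have hw1 : k0 * ((w⁻¹ : ℤ_[p]ˣ) : ℤ_[p]) = 1 := by
    rw [← hw]
    exact Units.mul_inv w
  obtain ⟨K, hK⟩ := Polynomial.powAddExpansion (1 : Polynomial ℤ_[p])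
    (Polynomial.C ((p : ℤ_[p]) ^ e) * Polynomial.X) k
  refine ⟨Polynomial.C (((w⁻¹ : ℤ_[p]ˣ) : ℤ_[p]) * (p : ℤ_[p]) ^ (e - v - e1)) * Polynomial.X * K,
    fun s => ?_⟩
  have h2 := congrArg (Polynomial.eval s) hK
  simp only [Polynomial.eval_pow, Polynomial.eval_add, Polynomial.eval_one, Polynomial.eval_mul,
    Polynomial.eval_C, Polynomial.eval_X, one_pow, mul_one, Polynomial.eval_natCast] at h2
  rw [h2]
  simp only [Polynomial.eval_mul, Polynomial.eval_C, Polynomial.eval_X]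
  have h3 : (p : ℤ_[p]) ^ e = (p : ℤ_[p]) ^ v * ((p : ℤ_[p]) ^ e1 * (p : ℤ_[p]) ^ (e - v - e1)) := by
    rw [← pow_add, ← pow_add]
    congr 1
    omega
  have h4 : (k : ℤ_[p]) * ((w⁻¹ : ℤ_[p]ˣ) : ℤ_[p]) = (p : ℤ_[p]) ^ v := by
    rw [hk0, mul_assoc, hw1, mul_one]
  have h5 : (k : ℤ_[p]) * ((p : ℤ_[p]) ^ e * s) * ((p : ℤ_[p]) ^ e1 *
      (((w⁻¹ : ℤ_[p]ˣ) : ℤ_[p]) * (p : ℤ_[p]) ^ (e - v - e1) * s * K.eval s)) =
      K.eval s * ((p : ℤ_[p]) ^ e * s) ^ 2 := by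
    have h6 : K.eval s * ((p : ℤ_[p]) ^ e * s) ^ 2 = K.eval s * s ^ 2 * (p : ℤ_[p]) ^ e *
        ((p : ℤ_[p]) ^ v * ((p : ℤ_[p]) ^ e1 * (p : ℤ_[p]) ^ (e - v - e1))) := by
      rw [← h3]
      ring
    rw [h6, ← h4]
    ring
  linear_combination (-1 : ℤ_[p]) * h5

/-- the transform of a power of a law -/
noncomputable def Ek (ν : Measure ℤ_[p]) (c : ℤ_[p]) (k : ℕ) (u : ℤ_[p]) (m : ℕ) : ℂ :=
  ∫ t, ch p m (u * (c + t) ^ k) ∂ν

/-- **Powers near a nonzero value.** -/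
theorem Ek_ne {M : ℂ → ℕ∞} {e1 e v k : ℕ} {c : ℤ_[p]} {ν : Measure ℤ_[p]}
    (h : Pc M e1 e c ν) (hc : c ≠ 0) (hk1 : 1 ≤ k) (hk : ‖(k : ℤ_[p])‖ = ((p : ℝ)⁻¹) ^ v)
    (he1 : 1 ≤ e1) (he : v + e1 ≤ e) (u : ℤ_[p]) (hu : ‖u‖ = 1) (m : ℕ) :
    Ek ν c k u m = ch p m (u * c ^ k) * Ef ν (u * ((k : ℤ_[p]) * c ^ (k - 1))) m := by
  classical
  have := h.fin
  obtain ⟨Q, hQ⟩ := pow_exp k v e1 e hk he
  obtain ⟨N, hN⟩ := exists_val c hc
  set κ : ℤ_[p] := (k : ℤ_[p]) * c ^ (k - 1) with hκ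
  have hrad : ((p : ℝ)⁻¹) ^ e * ‖c‖ = ((p : ℝ)⁻¹) ^ (e + N) := by rw [hN, pow_add]
  set g : ℤ_[p] → ℂ := fun t => if ‖t‖ ≤ ((p : ℝ)⁻¹) ^ (e + N) then
    ch p m (u * (c + t) ^ k) else 0 with hg
  have hck : c ^ k = c ^ (k - 1) * c := by
    rw [← pow_succ]
    congr 1
    omega
  have hpow : ∀ s : ℤ_[p], (c + (p : ℤ_[p]) ^ e * c * s) ^ k = c ^ k +
      κ * ((p : ℤ_[p]) ^ e * c * s) * (1 + (p : ℤ_[p]) ^ e1 * Q.eval s) := by
    intro s
    have e5 : c + (p : ℤ_[p]) ^ e * c * s = c * (1 + (p : ℤ_[p]) ^ e * s) := by ring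
    rw [e5, mul_pow, hQ, hκ, hck]
    ring
  have hchl : ∀ x y : ℤ_[p], ‖x - y‖ ≤ ((p : ℝ)⁻¹) ^ m →
      ch p m (u * (c + x) ^ k) = ch p m (u * (c + y) ^ k) := by
    intro x y hxy
    refine ch_congr p m _ _ ?_
    rw [← mul_sub, norm_mul, hu, one_mul]
    obtain ⟨r, hr⟩ := sub_dvd_pow_sub_pow (c + x) (c + y) k
    rw [hr, norm_mul, add_sub_add_left_eq_sub]
    exact (mul_le_of_le_one_right (norm_nonneg _) (PadicInt.norm_le_one _)).trans hxy
  have hgl : ∀ x y : ℤ_[p], ‖x - y‖ ≤ ((p : ℝ)⁻¹) ^ (m + (e + N)) → g x = g y := by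
    intro x y hxy
    have h1 : ‖x - y‖ ≤ ((p : ℝ)⁻¹) ^ (e + N) := hxy.trans ((pw_le_iff _ _).2 (by omega))
    have h2 : ‖x‖ ≤ ((p : ℝ)⁻¹) ^ (e + N) ↔ ‖y‖ ≤ ((p : ℝ)⁻¹) ^ (e + N) := by
      constructor
      · intro hx
        have e5 : y = -(x - y) + x := by ring
        rw [e5]
        refine (PadicInt.nonarchimedean _ _).trans (max_le ?_ hx)
        rw [norm_neg]
        exact h1
      · intro hy
        have e5 : x = (x - y) + y := by ring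
        rw [e5]
        exact (PadicInt.nonarchimedean _ _).trans (max_le h1 hy)
    rw [hg]
    beta_reduce
    rw [hchl x y (hxy.trans ((pw_le_iff _ _).2 (by omega)))]
    simp only [h2]
  have hg1 : ∀ x, ‖g x‖ ≤ 1 := by
    intro x
    rw [hg]
    beta_reduce
    split_ifs
    · exact (norm_ch p m _).le
    · simp
  have hgm : Measurable g := meas_loc _ g hgl
  have s1 : Ek ν c k u m = ∫ t, g t ∂ν := by
    unfold Ek
    refine integral_congr_ae ?_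
    filter_upwards [h.sup hc] with t ht
    rw [hrad] at ht
    rw [hg]
    beta_reduce
    rw [if_pos ht]
  have s2 : ∫ t, g t ∂ν = ∫ y, ∫ t, g ((1 + (p : ℤ_[p]) ^ e1 * y) * t) ∂ν ∂(mu p) := by
    simp only [inv_nu he1 h.loc _ g hgl hg1]
    rw [integral_const]
    simp
  have hmm : Measurable fun q : ℤ_[p] × ℤ_[p] => (1 + (p : ℤ_[p]) ^ e1 * q.1) * q.2 :=
    (measurable_const.add (measurable_fst.const_mul _)).mul measurable_snd
  have s3 : ∫ y, ∫ t, g ((1 + (p : ℤ_[p]) ^ e1 * y) * t) ∂ν ∂(mu p) =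
      ∫ t, ∫ y, g ((1 + (p : ℤ_[p]) ^ e1 * y) * t) ∂(mu p) ∂ν := by
    rw [integral_integral_swap]
    exact bdd_int _ _ (hgm.comp hmm) 1 fun x => hg1 _
  have s4 : ∀ᵐ t ∂ν, ∫ y, g ((1 + (p : ℤ_[p]) ^ e1 * y) * t) ∂(mu p) =
      ch p m (u * c ^ k) * ∫ y, ch p m (u * (1 + (p : ℤ_[p]) ^ e1 * y) * κ * t) ∂(mu p) := by
    filter_upwards [h.sup hc] with t ht
    have h2 : (p : ℤ_[p]) ^ e * c ∣ t := by
      refine dvd_of_norm _ _ ?_
      rw [norm_mul, norm_p_pow]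
      exact ht
    rw [hrad] at ht
    obtain ⟨s, hs⟩ := h2
    set hfun : ℤ_[p] → ℤ_[p] := fun y => y + Q.eval (s * (1 + (p : ℤ_[p]) ^ e1 * y)) *
      (1 + (p : ℤ_[p]) ^ e1 * y) with hhf
    have hiso : ∀ x y, ‖hfun x - hfun y‖ = ‖x - y‖ := by
      intro x y
      set q : Polynomial ℤ_[p] := Q.comp (Polynomial.C s * (1 + Polynomial.X)) *
        (1 + Polynomial.X) with hq
      have hqe : ∀ y, q.eval ((p : ℤ_[p]) ^ e1 * y) =
          Q.eval (s * (1 + (p : ℤ_[p]) ^ e1 * y)) * (1 + (p : ℤ_[p]) ^ e1 * y) := by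
        intro y
        rw [hq]
        simp only [Polynomial.eval_mul, Polynomial.eval_comp, Polynomial.eval_C,
          Polynomial.eval_add, Polynomial.eval_one, Polynomial.eval_X]
      obtain ⟨r, hr⟩ := Polynomial.sub_dvd_eval_sub ((p : ℤ_[p]) ^ e1 * x)
        ((p : ℤ_[p]) ^ e1 * y) q
      have e5 : hfun x - hfun y = (x - y) + (p : ℤ_[p]) ^ e1 * (x - y) * r := by
        rw [hhf]
        beta_reduce
        rw [← hqe, ← hqe]
        linear_combination hr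
      by_cases hxy : x - y = 0
      · rw [e5, hxy]
        simp
      · have e6 : hfun x - hfun y = (x - y) * (1 + (p : ℤ_[p]) ^ e1 * r) := by
          rw [e5]
          ring
        rw [e6, norm_mul, unit_one e1 he1, mul_one]
    have e7 : ∀ y, g ((1 + (p : ℤ_[p]) ^ e1 * y) * t) = ch p m (u * c ^ k) *
        ch p m (u * (1 + (p : ℤ_[p]) ^ e1 * hfun y) * κ * t) := by
      intro y
      have e8 : ‖(1 + (p : ℤ_[p]) ^ e1 * y) * t‖ ≤ ((p : ℝ)⁻¹) ^ (e + N) := by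
        rw [norm_mul, unit_one e1 he1, one_mul]
        exact ht
      rw [hg]
      beta_reduce
      rw [if_pos e8, ← ch_add]
      congr 1
      have e9 : (1 + (p : ℤ_[p]) ^ e1 * y) * t = (p : ℤ_[p]) ^ e * c *
          (s * (1 + (p : ℤ_[p]) ^ e1 * y)) := by
        rw [hs]
        ring
      rw [e9, hpow, hs, hhf]
      ring
    simp only [e7]
    rw [integral_const_mul]
    congr 1
    refine int_iso hfun hiso m (fun y => ch p m (u * (1 + (p : ℤ_[p]) ^ e1 * y) * κ * t))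
      (fun x y hxy => ch_congr p m _ _ ?_) (fun x => (norm_ch p m _).le)
    have e10 : u * (1 + (p : ℤ_[p]) ^ e1 * x) * κ * t - u * (1 + (p : ℤ_[p]) ^ e1 * y) * κ * t =
        (x - y) * (u * (p : ℤ_[p]) ^ e1 * κ * t) := by ring
    rw [e10, norm_mul]
    exact (mul_le_of_le_one_right (norm_nonneg _) (PadicInt.norm_le_one _)).trans hxy
  rw [s1, s2, s3, integral_congr_ae s4, integral_const_mul]
  congr 1
  rw [integral_integral_swap]
  · have e11 : ∀ y : ℤ_[p], ∫ t, ch p m (u * (1 + (p : ℤ_[p]) ^ e1 * y) * κ * t) ∂ν =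
        Ef ν (u * κ) m := by
      intro y
      have e12 := loc_mul h.loc (u * (1 + (p : ℤ_[p]) ^ e1 * y)) u
        (by rw [norm_mul, hu, unit_one e1 he1, one_mul]) hu (by
          have e5 : u * (1 + (p : ℤ_[p]) ^ e1 * y) - u = u * ((p : ℤ_[p]) ^ e1 * y) := by ring
          rw [e5, norm_mul, hu, one_mul, norm_mul, norm_p_pow]
          exact mul_le_of_le_one_right (pow_nonneg (pinv_pos p).le _)
            (PadicInt.norm_le_one y)) κ m
      rw [← e12]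
      rfl
    simp only [e11]
    rw [integral_const]
    simp
  · refine bdd_int _ _ ?_ 1 fun x => (norm_ch p m _).le
    refine (ch_meas p m).comp ?_
    exact ((measurable_const.mul (measurable_const.add (measurable_snd.const_mul _))).mul
      measurable_const).mul measurable_fst

/-- **Powers near zero.** -/
theorem Ek_zero {M M' : ℂ → ℕ∞} {e1 e k : ℕ} (hk : 1 ≤ k) {ν : Measure ℤ_[p]}
    (h : Pc (Pool.Agent.Y230.PS.tr M) e1 e 0 ν)
    (H : ∀ T, 1 < ‖T‖ → M (T ^ k) + (dp p (T ^ k) : ℕ) ≤ M' T) :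
    GoodE p (Pool.Agent.Y230.PS.tr M') (Ek ν 0 k) := by
  have := h.fin
  by_cases h0 : ν = 0
  · refine GoodE.zero.congr fun u _ m => ?_
    unfold Ek
    rw [h0, integral_zero_measure]
  obtain ⟨P, hP, e⟩ := exists_prob ν h0
  have h1 := prob_good e h0 h.good
  have h3 := good_pow P (fun t : ℤ_[p] => t) measurable_id h1 k hk H
  refine (GoodE.const_mul h3 ((ν Set.univ).toReal : ℂ)).congr fun u _ m => ?_
  unfold Ek Et
  conv_rhs => rw [e]
  rw [integral_smul_measure, Complex.real_smul]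
  simp only [zero_add]

end Pool.Agent.T6.H26.PX
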