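import Pool.Agent.T6.H26.PZE

set_option autoImplicit false
set_option linter.unusedSectionVars false
set_option linter.unusedVariables false

/-! # Powers and constants in the class `XC` -/

namespace Pool.Agent.T6.H26.PX

open MeasureTheory Pool.Agent.W427.SMC Pool.Agent.Y230.PT Pool.Agent.Y230.PS
open Pool.Agent.Y230.TH MvPolynomial
open scoped ENNReal

variable {p : ℕ} [Fact p.Prime]

attribute [local instance] msZ bsZ msK bsK nz

variable {σ : Type} [Fintype σ] {φ : ℚ_[p] →+* ℂ}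

/-- **Powers.** -/
theorem XC.pow {g : MvPolynomial σ ℚ_[p]} (hn : NK g) (h : XC φ g) (k : ℕ) (hk : 1 ≤ k) :
    XC φ (g ^ k) := by
  classical
  rcases (show k = 1 ∨ 2 ≤ k by omega) with rfl | hk2
  · rwa [pow_one]
  obtain ⟨K, G, hr, ι, hι, c, D, hD, hE⟩ := h
  have hG := hr.cont.measurable
  set F := C ((p : ℚ_[p]) ^ K) * g with hF
  have hN : NK F := hn.smul _ (pow_ne_zero _ p0)
  obtain ⟨e1, he1, hp1⟩ := pieces (Measure.pi fun _ : σ => mu p) G hG
    (fun x => Pool.Agent.Y230.PS.tr (mC φ (F - C (inc p x)))) c D hD hE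
  have hk0 : (k : ℤ_[p]) ≠ 0 := by exact_mod_cast (by omega : k ≠ 0)
  obtain ⟨v, hv⟩ := exists_val (p := p) (k : ℤ_[p]) hk0
  obtain ⟨κ, hκ, a, ν, hν, hf⟩ := hp1 (v + e1)
  have hpow : ∀ x : ℤ_[p], inc p (x ^ k) = inc p x ^ k := fun x => by simp [inc]
  have e : ∀ x : ℤ_[p], C ((p : ℚ_[p]) ^ (K * k)) * g ^ k - C (inc p (x ^ k)) =
      F ^ k - C (inc p x ^ k) := by
    intro x
    rw [hpow, hF, mul_pow, ← C_pow, pow_mul]
  have hcan : ∀ (x : ℤ_[p]) (y : ℂ) (m : ℕ), ch p m (-x) * (ch p m x * y) = y := by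
    intro x y m
    rw [← mul_assoc, ← ch_add, neg_add_cancel, ch_zero, one_mul]
  refine ⟨K * k, fun z => G z ^ k, fun z => ?_, κ, inferInstance, fun i => a i ^ k,
    fun i u m => ch p m (-(u * a i ^ k)) * Ek (ν i) (a i) k u m, fun i => ?_,
    fun u hu m => ?_⟩
  · rw [hpow, hr, mul_pow, map_pow, pow_mul]
  · beta_reduce
    rw [e]
    by_cases hi : a i = 0
    · have hp := hν i
      rw [hi, inc0, map_zero, sub_zero] at hp
      rw [hi, inc0, zero_pow (by omega), map_zero, sub_zero]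
      refine (Ek_zero hk hp (mC_pow0 φ hN k hk2)).congr fun u _ m => ?_
      rw [zero_pow (by omega), mul_zero, neg_zero, ch_zero, one_mul]
    · refine GoodE.mono ((good_mulc (hν i).good ((k : ℤ_[p]) * a i ^ (k - 1))
        (mul_ne_zero hk0 (pow_ne_zero _ hi))).congr fun u hu m => ?_) fun T _ =>
          tr_mono (fun T _ => mC_pow_ne φ hN _ (inc_ne hi) k (by omega) T) T
      rw [Ek_ne (hν i) hi hk hv he1 le_rfl u hu m, hcan]
  · have h1 : Et (Measure.pi fun _ : σ => mu p) (fun z => G z ^ k) u m =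
        ∑ i, ∫ t, ch p m (u * (a i + t) ^ k) ∂(ν i) :=
      hf (fun s => ch p m (u * s ^ k)) 1
        ((ch_meas p m).comp (measurable_const.mul (measurable_id.pow_const k)))
        (fun s => (norm_ch p m _).le)
    rw [h1]
    refine Finset.sum_congr rfl fun i _ => ?_
    rw [← mul_assoc, ← ch_add, add_neg_cancel, ch_zero, one_mul]
    rfl

/-- **Constants.** -/
theorem XC.addC {g : MvPolynomial σ ℚ_[p]} (h : XC φ g) (a : ℚ_[p]) : XC φ (g + C a) := by
  obtain ⟨K0, h0⟩ := h.up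
  obtain ⟨K, b, hK0, hb⟩ : ∃ (K : ℕ) (b : ℤ_[p]), K0 ≤ K ∧ inc p b = (p : ℚ_[p]) ^ K * a := by
    by_cases ha : a = 0
    · exact ⟨K0, 0, le_rfl, by rw [ha, mul_zero, inc0]⟩
    · obtain ⟨n, a0, ha0, han⟩ := unit_dec a ha
      have hKn : 0 ≤ (K0 : ℤ) + n.natAbs + n := by omega
      refine ⟨K0 + n.natAbs, (p : ℤ_[p]) ^ ((K0 : ℤ) + n.natAbs + n).toNat * a0,
        Nat.le_add_right _ _, ?_⟩
      rw [inc_mulk, han, ← mul_assoc, ← zpow_natCast, ← zpow_natCast, ← zpow_add₀ p0]
      congr 2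
      rw [Int.toNat_of_nonneg hKn]
      push_cast
      ring
  obtain ⟨G, hr, ι, hι, c, D, hD, hE⟩ := h0 K hK0
  refine ⟨K, fun z => G z + b, fun z => ?_, ι, hι, fun i => c i + b, D, fun i => ?_,
    fun u hu m => ?_⟩
  · have e : inc p (G z + b) = inc p (G z) + inc p b := by simp [inc]
    rw [e, hr, hb, map_add, eval_C, mul_add]
  · have e : C ((p : ℚ_[p]) ^ K) * (g + C a) - C (inc p (c i + b)) =
        C ((p : ℚ_[p]) ^ K) * g - C (inc p (c i)) := by
      have e1 : inc p (c i + b) = inc p (c i) + inc p b := by simp [inc]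
      rw [e1, hb, map_add, map_mul]
      ring
    rw [e]
    exact hD i
  · have e1 : Et (Measure.pi fun _ : σ => mu p) (fun z => G z + b) u m =
        ch p m (u * b) * Et (Measure.pi fun _ : σ => mu p) G u m := by
      unfold Et
      rw [← integral_const_mul]
      refine integral_congr_ae (Filter.Eventually.of_forall fun x => ?_)
      beta_reduce
      rw [← ch_add]
      congr 1
      ring
    rw [e1, hE u hu m, Finset.mul_sum]
    refine Finset.sum_congr rfl fun i _ => ?_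
    rw [mul_add, ch_add]
    ring

end Pool.Agent.T6.H26.PX
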