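import Pool.Agent.T6.H26.PXV

set_option autoImplicit false
set_option linter.unusedSectionVars false
set_option linter.unusedVariables false

/-! # Read-once formulas over plane curves: the definitions -/

namespace Pool.Agent.T6.H26.PX

open MvPolynomial Pool.Agent.Y230.PS Pool.Agent.Y230.TH Pool.Agent.R852.PP
open Pool.Agent.T6.H26

/-- **Read-once formulas over plane curves.** The polynomials which are built with **sums, products,
powers, nonzero constant factors and additive constants, in disjoint sets of variables**, from
arbitrary nonconstant polynomials in one or two variables and from the weighted homogeneous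
polynomials of the class `Susp`; `ReadOnce S F` means that `S` is the set of the variables of such
an expression of `F`. -/
inductive ReadOnce {V : Type} [DecidableEq V] : Finset V → MvPolynomial V ℚ → Prop
  /-- **any** nonconstant polynomial in two variables -/
  | curve (g : MvPolynomial (Fin 2) ℚ) (hg : ∀ c, g ≠ C c) (e : Fin 2 ↪ V) :
      ReadOnce (Finset.univ.map e) (rename e g)
  /-- any nonconstant polynomial in one variable -/
  | one (g : MvPolynomial Unit ℚ) (hg : ∀ c, g ≠ C c) (i : V) :
      ReadOnce {i} (rename (fun _ => i) g)
  /-- a weighted homogeneous polynomial (of positive degree, for some integral weights) of the class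
  `Susp`: for example a weighted homogeneous polynomial with an isolated critical point, or a nonzero
  linear form `∑_j y_j f_j(x₁, x₂)` over an ideal of `ℚ[x₁, x₂]` -/
  | wh (S : Finset V) (F : MvPolynomial V ℚ) (h : Susp S F) (hw : WH F) : ReadOnce S F
  /-- **the sum of two polynomials with disjoint sets of variables** -/
  | add (S T : Finset V) (hST : Disjoint S T) (F G : MvPolynomial V ℚ) (hF : ReadOnce S F)
      (hG : ReadOnce T G) : ReadOnce (S ∪ T) (F + G)
  /-- **the product of two polynomials with disjoint sets of variables** -/
  | mul (S T : Finset V) (hST : Disjoint S T) (F G : MvPolynomial V ℚ) (hF : ReadOnce S F)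
      (hG : ReadOnce T G) : ReadOnce (S ∪ T) (F * G)
  /-- **powers** -/
  | pow (S : Finset V) (F : MvPolynomial V ℚ) (k : ℕ) (hk : k ≠ 0) (hF : ReadOnce S F) :
      ReadOnce S (F ^ k)
  /-- constant factors -/
  | smul (S : Finset V) (F : MvPolynomial V ℚ) (c : ℚ) (hc : c ≠ 0) (hF : ReadOnce S F) :
      ReadOnce S (C c * F)
  /-- **additive constants** -/
  | const (S : Finset V) (F : MvPolynomial V ℚ) (c : ℚ) (hF : ReadOnce S F) :
      ReadOnce S (F + C c)

end Pool.Agent.T6.H26.PX
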