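import Pool.Agent.T6.H26.PZF
import Pool.Agent.T6.H26.PZG
import Pool.Agent.T6.H26.PYN

set_option autoImplicit false
set_option linter.unusedSectionVars false
set_option linter.unusedVariables false

/-! # Read-once formulas over plane curves: the exponential sums -/

namespace Pool.Agent.T6.H26.PX

open MvPolynomial MeasureTheory
open Pool.Agent.W427.SMC
open Pool.Agent.Y230.PT Pool.Agent.Y230.PS Pool.Agent.Y230.TH Pool.Agent.R852.PP
open Pool.Agent.W574.RO Pool.Agent.W574.CN
open Pool.Agent.T6.H26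
open Pool.Agent.H628R4.TP (IsBFunction weylS)

attribute [local instance] msZ bsZ msK bsK nz

variable {p : ℕ} [Fact p.Prime]

section unext

variable {σ τ : Type}

theorem mC_unext (φ : ℚ_[p] →+* ℂ) (f : MvPolynomial σ ℚ_[p]) (T : ℂ) :
    mC φ (rename Sum.inl f : MvPolynomial (σ ⊕ τ) ℚ_[p]) T ≤ mC φ f T := by
  by_cases h : FB (MvPolynomial.map φ (rename Sum.inl f : MvPolynomial (σ ⊕ τ) ℚ_[p]))
      ((rr p T : ℝ) : ℂ) (1 + dl ((rr p T : ℝ) : ℂ))
  · rw [mC_top (f := f)]
    · exact le_top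
    · intro b hb
      refine h b ?_
      rw [map_rename]
      exact isB_rename _ b hb
  · rw [mC_zero h]
    exact bot_le

variable [Fintype σ] [Fintype τ] {φ : ℚ_[p] →+* ℂ}

/-- dummy variables may be removed -/
theorem XC.unext {g : MvPolynomial σ ℚ_[p]}
    (h : XC φ (rename Sum.inl g : MvPolynomial (σ ⊕ τ) ℚ_[p])) : XC φ g := by
  obtain ⟨K, G, hr, ι, hι, c, D, hD, hE⟩ := h
  have hG := hr.cont.measurable
  set G' : (σ → ℤ_[p]) → ℤ_[p] := fun x => G (Sum.elim x fun _ => 0) with hG'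
  have hr' : Rep g K G' := by
    intro x
    rw [hG']
    beta_reduce
    rw [hr, eval_rename]
    rfl
  have hGG : ∀ z : σ ⊕ τ → ℤ_[p], G z = G' (fun i => z (Sum.inl i)) := by
    intro z
    have hinj : Function.Injective (inc p) := (inc_emb p).injective
    apply hinj
    rw [hr, hr', eval_rename]
    rfl
  have hG'm : Measurable G' := hr'.cont.measurable
  refine ⟨K, G', hr', ι, hι, c, D, fun i => ?_, fun u hu m => ?_⟩
  · have e : C ((p : ℚ_[p]) ^ K) * (rename Sum.inl g : MvPolynomial (σ ⊕ τ) ℚ_[p]) -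
        C (inc p (c i)) = rename Sum.inl (C ((p : ℚ_[p]) ^ K) * g - C (inc p (c i))) := by
      rw [map_sub, map_mul, rename_C, rename_C]
    have h1 := hD i
    rw [e] at h1
    exact h1.mono fun T _ => tr_mono (fun T _ => mC_unext φ _ T) T
  · rw [← hE u hu m]
    have e1 : G = fun z => G' (fun i => z (Sum.inl i)) := funext hGG
    rw [e1]
    have e2 := Et_sumpi (p := p) (σ := σ) (τ := τ)
      (fun q : (σ → ℤ_[p]) × (τ → ℤ_[p]) => G' q.1) u m
    rw [e2]
    unfold Et
    exact (Et_fst _ _ (fun x => ch p m (u * G' x))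
      ((ch_meas p m).comp (hG'm.const_mul _)) fun x => (norm_ch p m _).le).symm

/-- polynomials in one variable -/
theorem XC_one (φ : ℚ_[p] →+* ℂ) (g : MvPolynomial Unit ℚ_[p]) (hg : NK g) : XC φ g := by
  set g2 : MvPolynomial (Fin 2) ℚ_[p] := rename (fun _ => 0) g with hg2
  have hinj : Function.Injective (fun _ : Unit => (0 : Fin 2)) := fun _ _ _ => rfl
  have hn : ∀ c, g2 ≠ C c := by
    intro c hc
    apply hg c
    apply rename_injective _ hinj
    rw [rename_C]
    exact hc
  set i : Fin 2 → Unit ⊕ Unit := ![Sum.inl (), Sum.inr ()] with hi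
  have hb : Function.Bijective i := by
    constructor
    · intro a b hab
      fin_cases a <;> fin_cases b <;> simp_all
    · rintro (⟨⟩ | ⟨⟩)
      · exact ⟨0, rfl⟩
      · exact ⟨1, rfl⟩
  have h1 := (XC_curve φ g2 hn).equiv (Equiv.ofBijective i hb)
  have e : rename (Equiv.ofBijective i hb) g2 =
      (rename Sum.inl g : MvPolynomial (Unit ⊕ Unit) ℚ_[p]) := by
    rw [hg2, rename_rename]
    congr 1
  rw [e] at h1
  exact h1.unext

end unext

section cls

variable {V : Type} [DecidableEq V]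

/-- **Read-once formulas: the exponential sums.** -/
theorem ro_XC (S : Finset V) (F : MvPolynomial V ℚ) (h : ReadOnce S F) :
    ∃ g : MvPolynomial S ℚ, rename Subtype.val g = F ∧ NK g ∧
      ∀ (p : ℕ) [Fact p.Prime] (φ : ℚ_[p] →+* ℂ), XC φ (map (algebraMap ℚ ℚ_[p]) g) := by
  induction h with
  | curve g hg e =>
    have hg' : NK g := hg
    refine ⟨rename (fun t : Fin 2 => (⟨e t, Finset.mem_map_of_mem e (Finset.mem_univ t)⟩ :
      {x // x ∈ Finset.univ.map e})) g, by rw [rename_rename]; rfl,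
      hg'.rename' _ fun a b hab => e.injective (congrArg Subtype.val hab), fun p _ φ => ?_⟩
    exact xc_leaf φ e g (XC_curve φ _ (hg'.map _))
  | one g hg i =>
    have hg' : NK g := hg
    have hb : Function.Bijective (fun _ : Unit => (⟨i, Finset.mem_singleton_self i⟩ :
        {x // x ∈ ({i} : Finset V)})) := by
      refine ⟨fun _ _ _ => rfl, fun x => ⟨(), ?_⟩⟩
      obtain ⟨x, hx⟩ := x
      exact Subtype.ext (Finset.mem_singleton.1 hx).symm
    refine ⟨rename (Equiv.ofBijective _ hb) g, by rw [rename_rename]; rfl, hg'.equiv _,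
      fun p _ φ => ?_⟩
    rw [map_rename]
    exact (XC_one φ _ (hg'.map _)).equiv _
  | wh S F h hw =>
    obtain ⟨g, hg, -, hN, hM⟩ := arith_AM _ S F (arith_susp S F h)
    subst hg
    have hw' := WH.unrename _ Subtype.val_injective hw
    exact ⟨g, rfl, nk_of_NC (hM 2).1, fun p _ φ => XC.of_XE φ ((hM p).wh hw')⟩
  | add S T hST F G hF hG ihF ihG =>
    obtain ⟨f, rfl, hNf, hf⟩ := ihF
    obtain ⟨g, rfl, hNg, hg⟩ := ihG
    refine ⟨rename (Equiv.Finset.union S T hST) (rename Sum.inl f + rename Sum.inr g), ?_,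
      (hNf.inl g).equiv _, fun p _ φ => ?_⟩
    · rw [map_add, map_add, rename_rename, rename_rename, rename_rename, rename_rename]
      rfl
    · have h1 := (XC.add stAdd (hNf.map (algebraMap ℚ ℚ_[p])) (hNg.map (algebraMap ℚ ℚ_[p]))
        (hf p φ) (hg p φ)).equiv (Equiv.Finset.union S T hST)
      rw [← map_rename, ← map_rename, ← map_add, ← map_rename] at h1
      exact h1
  | mul S T hST F G hF hG ihF ihG =>
    obtain ⟨f, rfl, hNf, hf⟩ := ihF
    obtain ⟨g, rfl, hNg, hg⟩ := ihG
    refine ⟨rename (Equiv.Finset.union S T hST) (rename Sum.inl f * rename Sum.inr g), ?_,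
      (hNf.mul hNg.ne).equiv _, fun p _ φ => ?_⟩
    · rw [map_mul, map_mul, rename_rename, rename_rename, rename_rename, rename_rename]
      rfl
    · have h1 := (XC.mul (hNf.map (algebraMap ℚ ℚ_[p])) (hNg.map (algebraMap ℚ ℚ_[p]))
        (hf p φ) (hg p φ)).equiv (Equiv.Finset.union S T hST)
      rw [← map_rename, ← map_rename, ← map_mul, ← map_rename] at h1
      exact h1
  | pow S F k hk hF ih =>
    obtain ⟨f, rfl, hN, hf⟩ := ih
    refine ⟨f ^ k, map_pow _ _ _, hN.pow k hk, fun p _ φ => ?_⟩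
    rw [map_pow]
    exact XC.pow (hN.map _) (hf p φ) k (by omega)
  | smul S F c hc hF ih =>
    obtain ⟨f, rfl, hN, hf⟩ := ih
    refine ⟨C c * f, by rw [map_mul, rename_C], hN.smul c hc, fun p _ φ => ?_⟩
    rw [map_mul, map_C]
    refine (hf p φ).smul _ ?_
    rw [Ne, map_eq_zero_iff _ (algebraMap ℚ ℚ_[p]).injective]
    exact hc
  | const S F c hF ih =>
    obtain ⟨f, rfl, hN, hf⟩ := ih
    refine ⟨f + C c, by rw [map_add, rename_C], hN.add c, fun p _ φ => ?_⟩
    rw [map_add, map_C]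
    exact (hf p φ).addC _

/-- **Read-once formulas: the zeta functions.** -/
theorem ro_MG [Fintype V] (S : Finset V) (F : MvPolynomial V ℚ) (h : ReadOnce S F) : MG p F := by
  obtain ⟨g, rfl, hN, hg⟩ := ro_XC S F h
  obtain ⟨φ⟩ := exists_emb p
  have h1 : MG p g := MG.of_XC hN (hg p φ)
  have h2 := (h1.ext (τ := {i : V // ¬ i ∈ S})).equiv (Equiv.sumCompl fun i : V => i ∈ S)
  have e : rename (Equiv.sumCompl fun i : V => i ∈ S)
      (rename Sum.inl g : MvPolynomial (S ⊕ {i : V // ¬ i ∈ S}) ℚ) = rename Subtype.val g := by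
    rw [rename_rename]
    rfl
  rwa [e] at h2

end cls

end Pool.Agent.T6.H26.PX
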