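import Pool.Agent.T6.H26.PZH

set_option autoImplicit false
set_option linter.unusedSectionVars false
set_option linter.unusedVariables false

/-! # The poles of the Poincare series -/

namespace Pool.Agent.T6.H26.PX

open MvPolynomial MeasureTheory
open Pool.Agent.W427.SMC
open Pool.Agent.Y230.PT Pool.Agent.Y230.PS Pool.Agent.Y230.TH Pool.Agent.R852.PP
open Pool.Agent.W574.RO Pool.Agent.W574.CN
open Pool.Agent.T6.H26
open Pool.Agent.H628R4.TP (IsBFunction weylS)

attribute [local instance] msZ bsZ msK bsK nz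

variable {p : ℕ} [Fact p.Prime] {V : Type} [Fintype V]

/-- the poles of the Poincare series -/
theorem mg_poin (F : MvPolynomial V ℤ) (hF : MG p (map (Int.castRingHom ℚ) F))
    (b : Polynomial ℂ) (hb : IsBFunction (map (Int.castRingHom ℂ) F) b) :
    ∃ Φ : RatFunc ℂ, ((Φ.denom : Polynomial ℂ) : PowerSeries ℂ) * poincare p F =
        ((Φ.num : Polynomial ℂ) : PowerSeries ℂ) ∧
      ∀ T₀ : ℂ, Φ.denom.eval T₀ = 0 → b.eval ((-Real.log ‖T₀‖ / Real.log p : ℝ) : ℂ) = 0 := by
  have hM := isMltP_R (p := p)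
  have h2 := (mos_gen (mos_of hF)).2.mono (hM.base.hyp _)
  obtain ⟨D, P, hD0, h1, h6⟩ := h2.rat
  obtain ⟨Φ, h3, h4, h5⟩ := poincare_of p F D P hD0 (fun s hs => by
    rw [← h1 s hs, FF_hyp]
    simp only [tau_N])
  refine ⟨Φ, h3, fun T hT0 => ?_⟩
  have hd : Φ.denom ≠ 0 := Φ.denom_ne_zero
  have h6' : Φ.denom.rootMultiplicity T ≠ 0 := by
    rw [Ne, Polynomial.rootMultiplicity_eq_zero_iff]
    intro h
    exact hd (h hT0)
  have hT : T ≠ 0 := by
    rintro rfl
    exact h6' h4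
  refine root_of_tr (map (Int.castRingHom ℚ) F) b ?_ T (D.rootMultiplicity T) (fun h0 => ?_)
    (h6 T hT)
  · rw [map_map]
    exact hb
  · have := h5 T
    omega

end Pool.Agent.T6.H26.PX
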