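import Pool.Agent.T6.H26.PZG

set_option autoImplicit false
set_option linter.unusedSectionVars false
set_option linter.unusedVariables false

/-! # Arithmetic formulas over plane curves with all operations: the definitions -/

namespace Pool.Agent.T6.H26.PX

open MvPolynomial Pool.Agent.Y230.PS Pool.Agent.Y230.TH Pool.Agent.R852.PP
open Pool.Agent.T6.H26

/-- Two classes of polynomials which are built in disjoint sets of variables from arbitrary plane
curves: the smaller class `Formula true S F` is closed under **arbitrary sums, products, powers and
additive constants**; the larger class `Formula false S F` contains moreover the class `RS Ks.gen` and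
is closed under products, powers, and sums with a weighted homogeneous summand. Here `S` is the set
of the variables of such an expression of `F`. -/
inductive Formula {V : Type} [DecidableEq V] : Bool → Finset V → MvPolynomial V ℚ → Prop
  /-- **any** nonconstant polynomial in two variables -/
  | curve (g : MvPolynomial (Fin 2) ℚ) (hg : ∀ c, g ≠ C c) (e : Fin 2 ↪ V) :
      Formula true (Finset.univ.map e) (rename e g)
  /-- any nonconstant polynomial in one variable -/
  | one (g : MvPolynomial Unit ℚ) (hg : ∀ c, g ≠ C c) (i : V) :
      Formula true {i} (rename (fun _ => i) g)
  /-- **the sum of two polynomials with disjoint sets of variables** -/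
  | add (S T : Finset V) (hST : Disjoint S T) (F G : MvPolynomial V ℚ) (hF : Formula true S F)
      (hG : Formula true T G) : Formula true (S ∪ T) (F + G)
  /-- **additive constants** -/
  | const (S : Finset V) (F : MvPolynomial V ℚ) (c : ℚ) (hF : Formula true S F) :
      Formula true S (F + C c)
  /-- weighted homogeneous polynomials (of positive degree, for some integral weights) of the larger
  class are in the smaller one -/
  | wh (S : Finset V) (F : MvPolynomial V ℚ) (h : Formula false S F) (hw : WH F) : Formula true S F
  /-- the smaller class is contained in the larger one -/
  | of (S : Finset V) (F : MvPolynomial V ℚ) (h : Formula true S F) : Formula false S F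
  /-- the class `RS Ks.gen`, in any variables -/
  | gen (τ : Type) [Fintype τ] (g : MvPolynomial τ ℚ) (h : RS Ks.gen ⟨τ, Fin 1, fun _ => g⟩)
      (e : τ ↪ V) : Formula false (Finset.univ.map e) (rename e g)
  /-- the sum of a weighted homogeneous polynomial and a polynomial of the larger class, with
  disjoint sets of variables -/
  | addW (S T : Finset V) (hST : Disjoint S T) (F G : MvPolynomial V ℚ) (hF : Formula false S F)
      (hw : WH F) (hG : Formula false T G) : Formula false (S ∪ T) (F + G)
  /-- **the product of two polynomials with disjoint sets of variables** (both classes) -/
  | mul (k : Bool) (S T : Finset V) (hST : Disjoint S T) (F G : MvPolynomial V ℚ)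
      (hF : Formula k S F) (hG : Formula k T G) : Formula k (S ∪ T) (F * G)
  /-- **powers** (both classes) -/
  | pow (k : Bool) (S : Finset V) (F : MvPolynomial V ℚ) (m : ℕ) (hm : m ≠ 0)
      (hF : Formula k S F) : Formula k S (F ^ m)
  /-- constant factors -/
  | smul (k : Bool) (S : Finset V) (F : MvPolynomial V ℚ) (c : ℚ) (hc : c ≠ 0)
      (hF : Formula k S F) : Formula k S (C c * F)

end Pool.Agent.T6.H26.PX
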