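import Pool.Agent.T6.H26.PZH
import Pool.Agent.T6.H26.PZJ

set_option autoImplicit false
set_option linter.unusedSectionVars false
set_option linter.unusedVariables false

/-! # Arithmetic formulas over plane curves with all operations: the zeta functions -/

namespace Pool.Agent.T6.H26.PX

open MvPolynomial MeasureTheory
open Pool.Agent.W427.SMC
open Pool.Agent.Y230.PT Pool.Agent.Y230.PS Pool.Agent.Y230.TH Pool.Agent.R852.PP
open Pool.Agent.W574.RO Pool.Agent.W574.CN
open Pool.Agent.T6.H26
open Pool.Agent.H628R4.TP (IsBFunction weylS)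

attribute [local instance] msZ bsZ msK bsK nz

section cls

variable {V : Type} [DecidableEq V]

/-- **The two classes.** -/
theorem form_AM (k : Bool) (S : Finset V) (F : MvPolynomial V ℚ) (h : Formula k S F) :
    ∃ g : MvPolynomial S ℚ, rename Subtype.val g = F ∧ AM k g := by
  induction h with
  | curve g hg e =>
    have hg' : NK g := hg
    refine ⟨rename (fun t : Fin 2 => (⟨e t, Finset.mem_map_of_mem e (Finset.mem_univ t)⟩ :
      {x // x ∈ Finset.univ.map e})) g, by rw [rename_rename]; rfl, AM.mk
      (hg'.rename' _ fun a b hab => e.injective (congrArg Subtype.val hab)) fun p _ φ => ?_⟩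
    exact xc_leaf φ e g (XC_curve φ _ (hg'.map _))
  | one g hg i =>
    have hg' : NK g := hg
    have hb : Function.Bijective (fun _ : Unit => (⟨i, Finset.mem_singleton_self i⟩ :
        {x // x ∈ ({i} : Finset V)})) := by
      refine ⟨fun _ _ _ => rfl, fun x => ⟨(), ?_⟩⟩
      obtain ⟨x, hx⟩ := x
      exact Subtype.ext (Finset.mem_singleton.1 hx).symm
    refine ⟨rename (Equiv.ofBijective _ hb) g, by rw [rename_rename]; rfl,
      AM.mk (hg'.equiv _) fun p _ φ => ?_⟩
    rw [map_rename]
    exact (XC_one φ _ (hg'.map _)).equiv _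
  | add S T hST F G hF hG ihF ihG =>
    obtain ⟨f, rfl, hNf, hf, -⟩ := ihF
    obtain ⟨g, rfl, hNg, hg, -⟩ := ihG
    refine ⟨rename (Equiv.Finset.union S T hST) (rename Sum.inl f + rename Sum.inr g), ?_,
      AM.mk ?_ fun p _ φ => ?_⟩
    · rw [map_add, map_add, rename_rename, rename_rename, rename_rename, rename_rename]
      rfl
    · exact (hNf.inl g).equiv _
    · have h1 := (XC.add stAdd (hNf.map (algebraMap ℚ ℚ_[p])) (hNg.map (algebraMap ℚ ℚ_[p]))
        (hf rfl p φ) (hg rfl p φ)).equiv (Equiv.Finset.union S T hST)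
      rw [← map_rename, ← map_rename, ← map_add, ← map_rename] at h1
      exact h1
  | const S F c hF ih =>
    obtain ⟨f, rfl, hN, hf, -⟩ := ih
    refine ⟨f + C c, by rw [map_add, rename_C], AM.mk (hN.add c) fun p _ φ => ?_⟩
    rw [map_add, map_C]
    exact (hf rfl p φ).addC _
  | wh S F h hw ih =>
    obtain ⟨g, rfl, hN, -, hg⟩ := ih
    have hw' := WH.unrename _ Subtype.val_injective hw
    exact ⟨g, rfl, AM.mk hN fun p _ φ => XC.of_XE φ ((hg p).wh hw')⟩
  | of S F h ih =>
    obtain ⟨g, rfl, hN, -, hg⟩ := ih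
    exact ⟨g, rfl, AM.mg fun p _ => hg p⟩
  | gen τ g h e =>
    refine ⟨rename (fun t : τ => (⟨e t, Finset.mem_map_of_mem e (Finset.mem_univ t)⟩ :
      {x // x ∈ Finset.univ.map e})) g, by rw [rename_rename]; rfl, AM.mg fun p _ => ?_⟩
    exact mg_leaf e g (of_mos (rs_main (p := p) Ks.gen _ h))
  | addW S T hST F G hF hw hG ihF ihG =>
    obtain ⟨f, rfl, -, -, hf⟩ := ihF
    obtain ⟨g, rfl, -, -, hg⟩ := ihG
    refine ⟨rename (Equiv.Finset.union S T hST) (rename Sum.inl f + rename Sum.inr g), ?_,
      AM.mg fun p _ => ?_⟩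
    · rw [map_add, map_add, rename_rename, rename_rename, rename_rename, rename_rename]
      rfl
    · exact ((hf p).add (WH.unrename _ Subtype.val_injective hw) (hg p)).equiv _
  | mul k S T hST F G hF hG ihF ihG =>
    obtain ⟨f, rfl, hNf, hXf, hf⟩ := ihF
    obtain ⟨g, rfl, hNg, hXg, hg⟩ := ihG
    refine ⟨rename (Equiv.Finset.union S T hST) (rename Sum.inl f * rename Sum.inr g), ?_,
      (hNf.mul hNg.ne).equiv _, fun hk p _ φ => ?_, fun p _ => ((hf p).mul (hg p)).equiv _⟩
    · rw [map_mul, map_mul, rename_rename, rename_rename, rename_rename, rename_rename]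
      rfl
    · have h1 := (XC.mul (hNf.map (algebraMap ℚ ℚ_[p])) (hNg.map (algebraMap ℚ ℚ_[p]))
        (hXf hk p φ) (hXg hk p φ)).equiv (Equiv.Finset.union S T hST)
      rw [← map_rename, ← map_rename, ← map_mul, ← map_rename] at h1
      exact h1
  | pow k S F m hm hF ih =>
    obtain ⟨f, rfl, hN, hX, hf⟩ := ih
    refine ⟨f ^ m, map_pow _ _ _, hN.pow m hm, fun hk p _ φ => ?_, fun p _ => (hf p).pow m hm⟩
    rw [map_pow]
    exact XC.pow (hN.map _) (hX hk p φ) m (by omega)
  | smul k S F c hc hF ih =>
    obtain ⟨f, rfl, hN, hX, hf⟩ := ih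
    refine ⟨C c * f, by rw [map_mul, rename_C], hN.smul c hc, fun hk p _ φ => ?_,
      fun p _ => (hf p).smul c hc⟩
    rw [map_mul, map_C]
    refine (hX hk p φ).smul _ ?_
    rw [Ne, map_eq_zero_iff _ (algebraMap ℚ ℚ_[p]).injective]
    exact hc

theorem form_MG {p : ℕ} [Fact p.Prime] [Fintype V] (k : Bool) (S : Finset V)
    (F : MvPolynomial V ℚ) (h : Formula k S F) : MG p F := by
  obtain ⟨g, rfl, -, -, hg⟩ := form_AM k S F h
  have h2 := ((hg p).ext (τ := {i : V // ¬ i ∈ S})).equiv (Equiv.sumCompl fun i : V => i ∈ S)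
  have e : rename (Equiv.sumCompl fun i : V => i ∈ S)
      (rename Sum.inl g : MvPolynomial (S ⊕ {i : V // ¬ i ∈ S}) ℚ) = rename Subtype.val g := by
    rw [rename_rename]
    rfl
  rwa [e] at h2

/-- `Susp` is contained in the larger class -/
theorem form_susp (S : Finset V) (F : MvPolynomial V ℚ) (h : Susp S F) : Formula false S F := by
  induction h with
  | var i =>
    have h1 := rs_of_ro Kd.exh _ (ro_var Unit () fun t => rfl)
    have h2 := Formula.gen (V := V) Unit (X ()) h1 ⟨fun _ => i, fun a b _ => rfl⟩
    rw [rename_X] at h2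
    exact h2
  | curve g hg e => exact Formula.of _ _ (Formula.curve g hg e)
  | iso n g w d h e => exact Formula.gen _ g (RS.isoG n g w d h) e
  | lin r f hf e =>
    have h1 := rs_of_ro Kd.exh _ (ro_plane r 1 Nat.one_pos f hf)
    simp only [pow_one] at h1
    exact Formula.gen _ _ h1 e
  | add S T hST F G hF hw hG ihF ihG => exact Formula.addW S T hST F G ihF hw ihG
  | mul S T hST F G hF hG ihF ihG => exact Formula.mul false S T hST F G ihF ihG
  | pow S F k hk hF ih => exact Formula.pow false S F k hk ih
  | smul S F c hc hF ih => exact Formula.smul false S F c hc ih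

/-- read-once formulas are in the smaller class -/
theorem form_ro (S : Finset V) (F : MvPolynomial V ℚ) (h : ReadOnce S F) : Formula true S F := by
  induction h with
  | curve g hg e => exact Formula.curve g hg e
  | one g hg i => exact Formula.one g hg i
  | wh S F h hw => exact Formula.wh S F (form_susp S F h) hw
  | add S T hST F G hF hG ihF ihG => exact Formula.add S T hST F G ihF ihG
  | mul S T hST F G hF hG ihF ihG => exact Formula.mul true S T hST F G ihF ihG
  | pow S F k hk hF ih => exact Formula.pow true S F k hk ih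
  | smul S F c hc hF ih => exact Formula.smul true S F c hc ih
  | const S F c hF ih => exact Formula.const S F c ih

/-- the former classes are contained in the new ones -/
theorem form_arith (k : Bool) (S : Finset V) (F : MvPolynomial V ℚ) (h : Arith k S F) :
    Formula k S F := by
  induction h with
  | curve g hg e => exact Formula.curve g hg e
  | add S T hST F G hF hG ihF ihG => exact Formula.add S T hST F G ihF ihG
  | wh S F h hw ih => exact Formula.wh S F ih hw
  | of S F h ih => exact Formula.of S F ih
  | gen τ g h e => exact Formula.gen τ g h e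
  | addW S T hST F G hF hw hG ihF ihG => exact Formula.addW S T hST F G ihF hw ihG
  | mul S T hST F G hF hG ihF ihG => exact Formula.mul false S T hST F G ihF ihG
  | pow S F k hk hF ih => exact Formula.pow false S F k hk ih
  | smul k S F c hc hF ih => exact Formula.smul k S F c hc ih

end cls

end Pool.Agent.T6.H26.PX
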