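import Pool.Agent.T6.H26.FTPow

set_option autoImplicit false
set_option linter.unusedSectionVars false
set_option linter.unusedVariables false

/-! # Laurent polynomials with twisted operators -/

namespace Pool.Agent.T6.H26.RA

open MvPolynomial
open Pool.Agent.W574.SM (weyl)
open Pool.Agent.H628R4.TP (IsBFunction weylS)
open Pool.Agent.Y230.TH (kf W StA)
open Pool.Agent.T6.H26

variable {σ τ : Type}

/-- Laurent polynomials in `T` with polynomial coefficients -/
abbrev LP (σ : Type) := ℤ →₀ MvPolynomial σ ℂ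

/-- multiplication by `T ^ n` -/
noncomputable def sh (n : ℤ) : LP σ →ₗ[ℂ] LP σ := Finsupp.lmapDomain _ ℂ (fun j => j + n)

theorem sh_single (n j : ℤ) (a : MvPolynomial σ ℂ) :
    sh n (Finsupp.single j a) = Finsupp.single (j + n) a := by
  unfold sh
  rw [Finsupp.lmapDomain_apply, Finsupp.mapDomain_single]

/-- coefficientwise -/
noncomputable def cw (A : MvPolynomial σ ℂ →ₗ[ℂ] MvPolynomial τ ℂ) : LP σ →ₗ[ℂ] LP τ :=
  Finsupp.mapRange.linearMap A

theorem cw_single (A : MvPolynomial σ ℂ →ₗ[ℂ] MvPolynomial τ ℂ) (j : ℤ) (a : MvPolynomial σ ℂ) :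
    cw A (Finsupp.single j a) = Finsupp.single j (A a) := by
  unfold cw
  rw [Finsupp.mapRange.linearMap_apply, Finsupp.mapRange_single]

/-- `T d / d T` on the coefficients -/
noncomputable def th : LP σ →ₗ[ℂ] LP σ :=
  Finsupp.lsum ℂ (fun j : ℤ => ((j : ℂ)) • (Finsupp.lsingle j : MvPolynomial σ ℂ →ₗ[ℂ] LP σ))

theorem th_single (j : ℤ) (a : MvPolynomial σ ℂ) :
    th (Finsupp.single j a) = Finsupp.single j ((j : ℂ) • a) := by
  unfold th
  rw [Finsupp.lsum_single, LinearMap.smul_apply, Finsupp.lsingle_apply, Finsupp.smul_single]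

/-- the variable -/
noncomputable def Xo (i : σ) : LP σ →ₗ[ℂ] LP σ := cw (LinearMap.mulLeft ℂ (X i))

theorem Xo_single (i : σ) (j : ℤ) (a : MvPolynomial σ ℂ) :
    Xo i (Finsupp.single j a) = Finsupp.single j (X i * a) := cw_single _ _ _

/-- the twisted derivative -/
noncomputable def Do (f : MvPolynomial σ ℂ) (i : σ) : LP σ →ₗ[ℂ] LP σ :=
  cw ((pderiv i : Derivation ℂ (MvPolynomial σ ℂ) (MvPolynomial σ ℂ)) :
    MvPolynomial σ ℂ →ₗ[ℂ] MvPolynomial σ ℂ) + sh 1 ∘ₗ cw (LinearMap.mulLeft ℂ (pderiv i f))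

theorem Do_single (f : MvPolynomial σ ℂ) (i : σ) (j : ℤ) (a : MvPolynomial σ ℂ) :
    Do f i (Finsupp.single j a) =
      Finsupp.single j (pderiv i a) + Finsupp.single (j + 1) (pderiv i f * a) := by
  unfold Do
  rw [LinearMap.add_apply, LinearMap.comp_apply, cw_single, cw_single, sh_single]
  rfl

/-- the twisted Euler operator -/
noncomputable def Th (f : MvPolynomial σ ℂ) : LP σ →ₗ[ℂ] LP σ :=
  th + sh 1 ∘ₗ cw (LinearMap.mulLeft ℂ f)

theorem Th_single (f : MvPolynomial σ ℂ) (j : ℤ) (a : MvPolynomial σ ℂ) :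
    Th f (Finsupp.single j a) =
      Finsupp.single j ((j : ℂ) • a) + Finsupp.single (j + 1) (f * a) := by
  unfold Th
  rw [LinearMap.add_apply, LinearMap.comp_apply, th_single, cw_single, sh_single]
  rfl

/-- multiplication by `T⁻¹` -/
noncomputable def Y : LP σ →ₗ[ℂ] LP σ := sh (-1)

theorem Y_single (j : ℤ) (a : MvPolynomial σ ℂ) :
    Y (Finsupp.single j a) = Finsupp.single (j + -1) a := sh_single _ _ _

/-- the element `1` -/
noncomputable def o : LP σ := Finsupp.single 0 1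

/-- the module generated by `1` -/
inductive MM (f : MvPolynomial σ ℂ) : LP σ → Prop
  | one : MM f o
  | add (h h' : LP σ) (a : MM f h) (b : MM f h') : MM f (h + h')
  | smul (c : ℂ) (h : LP σ) (a : MM f h) : MM f (c • h)
  | X (i : σ) (h : LP σ) (a : MM f h) : MM f (Xo i h)
  | D (i : σ) (h : LP σ) (a : MM f h) : MM f (Do f i h)
  | T (h : LP σ) (a : MM f h) : MM f (Th f h)
  | Y (h : LP σ) (a : MM f h) : MM f (Y h)

theorem MM.zero (f : MvPolynomial σ ℂ) : MM f 0 := by
  have h := MM.smul (0 : ℂ) _ (MM.one (f := f))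
  rwa [zero_smul] at h

theorem MM.sum {f : MvPolynomial σ ℂ} {ι : Type} (s : Finset ι) (h : ι → LP σ)
    (hh : ∀ i ∈ s, MM f (h i)) : MM f (∑ i ∈ s, h i) := by
  classical
  induction s using Finset.induction_on with
  | empty => rw [Finset.sum_empty]; exact MM.zero f
  | insert a s ha ih =>
    rw [Finset.sum_insert ha]
    exact MM.add _ _ (hh a (Finset.mem_insert_self a s))
      (ih fun i hi => hh i (Finset.mem_insert_of_mem hi))

/-! ### The coefficients of `h e ^ (T f)` -/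

/-- the coefficient of `T ^ N` in `h e ^ (T f)` -/
noncomputable def cN (f : MvPolynomial σ ℂ) (N : ℤ) : LP σ →ₗ[ℂ] MvPolynomial σ ℂ :=
  Finsupp.lsum ℂ fun j : ℤ => LinearMap.mulRight ℂ (pz f (N - j))

theorem cN_single (f : MvPolynomial σ ℂ) (N j : ℤ) (a : MvPolynomial σ ℂ) :
    cN f N (Finsupp.single j a) = a * pz f (N - j) := by
  unfold cN
  rw [Finsupp.lsum_single]
  rfl

theorem cN_one (f : MvPolynomial σ ℂ) (N : ℤ) : cN f N o = pz f N := by
  unfold o
  rw [cN_single, sub_zero, one_mul]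

theorem pz_pderiv (f : MvPolynomial σ ℂ) (i : σ) (K : ℤ) :
    pderiv i (pz f K) = pderiv i f * pz f (K - 1) := by
  rcases lt_trichotomy K 0 with h | h | h
  · rw [pz_neg f K h, pz_neg f (K - 1) (by omega), map_zero, mul_zero]
  · subst h
    rw [pz_neg f (0 - 1) (by omega), mul_zero]
    have := pz_nat f 0
    rw [Nat.cast_zero] at this
    rw [this, pow_zero, Derivation.map_smul, (pderiv i).map_one_eq_zero, smul_zero]
  · obtain ⟨k, rfl⟩ : ∃ k : ℕ, K = ((k + 1 : ℕ) : ℤ) := ⟨(K - 1).toNat, by omega⟩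
    have h1 : (((k + 1 : ℕ) : ℤ) - 1) = (k : ℤ) := by omega
    rw [h1, pz_nat, pz_nat, Derivation.map_smul, Derivation.leibniz_pow, Nat.add_sub_cancel,
      smul_eq_mul, ← Nat.cast_smul_eq_nsmul ℂ, smul_smul, mul_smul_comm, mul_comm (f ^ k)]
    congr 1
    rw [Nat.factorial_succ]
    have h4 : (k.factorial : ℂ) ≠ 0 := by exact_mod_cast k.factorial_ne_zero
    have h5 : (k : ℂ) + 1 ≠ 0 := by exact_mod_cast Nat.succ_ne_zero k
    push_cast
    field_simp

theorem pz_mul (f : MvPolynomial σ ℂ) (K : ℤ) :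
    f * pz f (K - 1) = (K : ℂ) • pz f K := by
  rcases lt_trichotomy K 0 with h | h | h
  · rw [pz_neg f K h, pz_neg f (K - 1) (by omega), smul_zero, mul_zero]
  · subst h
    rw [pz_neg f (0 - 1) (by omega), mul_zero, Int.cast_zero, zero_smul]
  · obtain ⟨k, rfl⟩ : ∃ k : ℕ, K = ((k + 1 : ℕ) : ℤ) := ⟨(K - 1).toNat, by omega⟩
    have h1 : (((k + 1 : ℕ) : ℤ) - 1) = (k : ℤ) := by omega
    rw [h1, pz_nat, pz_nat, smul_smul, mul_smul_comm, pow_succ']
    congr 1
    rw [Nat.factorial_succ]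
    have h4 : (k.factorial : ℂ) ≠ 0 := by exact_mod_cast k.factorial_ne_zero
    have h5 : (k : ℂ) + 1 ≠ 0 := by exact_mod_cast Nat.succ_ne_zero k
    push_cast
    field_simp

theorem cN_X (f : MvPolynomial σ ℂ) (N : ℤ) (i : σ) (h : LP σ) :
    cN f N (Xo i h) = X i * cN f N h := by
  have e : cN f N ∘ₗ Xo i = LinearMap.mulLeft ℂ (X i) ∘ₗ cN f N := by
    refine Finsupp.lhom_ext fun j a => ?_
    rw [LinearMap.comp_apply, LinearMap.comp_apply, Xo_single, cN_single, cN_single,
      LinearMap.mulLeft_apply, mul_assoc]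
  exact congrArg (fun L => L h) e

theorem cN_D (f : MvPolynomial σ ℂ) (N : ℤ) (i : σ) (h : LP σ) :
    cN f N (Do f i h) = pderiv i (cN f N h) := by
  have e : cN f N ∘ₗ Do f i = ((pderiv i : Derivation ℂ (MvPolynomial σ ℂ) (MvPolynomial σ ℂ)) :
    MvPolynomial σ ℂ →ₗ[ℂ] MvPolynomial σ ℂ) ∘ₗ cN f N := by
    refine Finsupp.lhom_ext fun j a => ?_
    rw [LinearMap.comp_apply, LinearMap.comp_apply, Do_single, map_add, cN_single, cN_single,
      cN_single]
    change _ = pderiv i (a * pz f (N - j))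
    rw [Derivation.leibniz, pz_pderiv, smul_eq_mul, smul_eq_mul]
    have : N - (j + 1) = N - j - 1 := by ring
    rw [this]
    ring
  exact congrArg (fun L => L h) e

theorem cN_T (f : MvPolynomial σ ℂ) (N : ℤ) (h : LP σ) :
    cN f N (Th f h) = (N : ℂ) • cN f N h := by
  have e : cN f N ∘ₗ Th f = (N : ℂ) • cN f N := by
    refine Finsupp.lhom_ext fun j a => ?_
    rw [LinearMap.comp_apply, LinearMap.smul_apply, Th_single, map_add, cN_single, cN_single,
      cN_single]
    have : N - (j + 1) = N - j - 1 := by ring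
    rw [this, mul_assoc, mul_left_comm, pz_mul, smul_mul_assoc, mul_smul_comm, ← add_smul]
    congr 1
    push_cast
    ring
  exact congrArg (fun L => L h) e

theorem cN_Y (f : MvPolynomial σ ℂ) (N : ℤ) (h : LP σ) :
    cN f N (Y h) = cN f (N + 1) h := by
  have e : cN f N ∘ₗ (Y : LP σ →ₗ[ℂ] LP σ) = cN f (N + 1) := by
    refine Finsupp.lhom_ext fun j a => ?_
    rw [LinearMap.comp_apply, Y_single, cN_single, cN_single]
    congr 2
    ring
  exact congrArg (fun L => L h) e

/-- the coefficients determine the Laurent polynomial -/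
theorem cN_inj (f : MvPolynomial σ ℂ) (h : LP σ) (hz : ∀ N, cN f N h = 0) : h = 0 := by
  by_contra hne
  have hs : h.support.Nonempty := Finsupp.support_nonempty_iff.2 hne
  set j0 := h.support.min' hs with hj0
  have h1 := hz j0
  have h2 : cN f j0 h = h j0 := by
    unfold cN
    rw [Finsupp.lsum_apply, Finsupp.sum, Finset.sum_eq_single j0]
    · change h j0 * pz f (j0 - j0) = h j0
      have := pz_nat f 0
      rw [Nat.cast_zero] at this
      rw [sub_self, this, pow_zero, Nat.factorial_zero, Nat.cast_one, inv_one, one_smul, mul_one]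
    · intro j hj hjne
      change h j * pz f (j0 - j) = 0
      have h3 : j0 ≤ j := Finset.min'_le _ _ hj
      rw [pz_neg f _ (by omega), mul_zero]
    · intro h3
      exact absurd (Finset.min'_mem _ hs) h3
  rw [h2] at h1
  exact Finsupp.mem_support_iff.1 (Finset.min'_mem _ hs) h1

/-! ### The functional equation -/

theorem lift_weyl (f : MvPolynomial σ ℂ) (Q : Module.End ℂ (MvPolynomial σ ℂ)) (hQ : Q ∈ weyl σ) :
    ∀ h, MM f h → ∃ h', MM f h' ∧ ∀ N, cN f N h' = Q (cN f N h) := by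
  induction hQ using Algebra.adjoin_induction with
  | mem R hR =>
    rcases hR with ⟨i, rfl⟩ | ⟨i, rfl⟩
    · intro h hh
      exact ⟨_, MM.X i h hh, fun N => cN_X f N i h⟩
    · intro h hh
      exact ⟨_, MM.D i h hh, fun N => cN_D f N i h⟩
  | algebraMap r =>
    intro h hh
    exact ⟨_, MM.smul r h hh, fun N => map_smul _ _ _⟩
  | add R R' _ _ h1 h2 =>
    intro h hh
    obtain ⟨u, hu, h3⟩ := h1 h hh
    obtain ⟨v, hv, h4⟩ := h2 h hh
    exact ⟨u + v, MM.add _ _ hu hv, fun N => by rw [map_add, h3, h4]; rfl⟩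
  | mul R R' _ _ h1 h2 =>
    intro h hh
    obtain ⟨v, hv, h4⟩ := h2 h hh
    obtain ⟨u, hu, h3⟩ := h1 v hv
    exact ⟨u, hu, fun N => by rw [h3, h4]; rfl⟩

theorem lift_pow (f : MvPolynomial σ ℂ) (m : ℕ) : ∀ h, MM f h →
    ∃ h', MM f h' ∧ ∀ N : ℤ, cN f (N + 1) h' = ((N : ℂ) ^ m) • cN f (N + 1) h := by
  induction m with
  | zero => exact fun h hh => ⟨h, hh, fun N => by rw [pow_zero, one_smul]⟩
  | succ m ih =>
    intro h hh
    obtain ⟨u, hu, h1⟩ := ih h hh
    refine ⟨Th f u + (-1 : ℂ) • u, MM.add _ _ (MM.T _ hu) (MM.smul _ _ hu), fun N => ?_⟩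
    rw [map_add, cN_T, map_smul, ← add_smul, h1, smul_smul]
    congr 1
    push_cast
    ring

theorem aeval_Th (f : MvPolynomial σ ℂ) (q : Polynomial ℂ) (N : ℤ) (h : LP σ) :
    cN f N (Polynomial.aeval (Th f : Module.End ℂ (LP σ)) q h) = q.eval (N : ℂ) • cN f N h := by
  induction q using Polynomial.induction_on' with
  | add p q hp hq =>
    rw [map_add, LinearMap.add_apply, map_add, hp, hq, Polynomial.eval_add, add_smul]
  | monomial n a =>
    have hn : ∀ h : LP σ, cN f N (((Th f : Module.End ℂ (LP σ)) ^ n) h) =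
        ((N : ℂ) ^ n) • cN f N h := by
      induction n with
      | zero => intro h; rw [pow_zero, pow_zero, one_smul]; rfl
      | succ n ih =>
        intro h
        rw [pow_succ, Module.End.mul_apply, ih, cN_T, smul_smul, pow_succ]
    rw [Polynomial.aeval_monomial, Polynomial.eval_monomial, Module.End.mul_apply]
    change cN f N (a • ((Th f : Module.End ℂ (LP σ)) ^ n) h) = _
    rw [map_smul, hn, smul_smul]

/-- **The functional equation as a statement on the module.** -/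
theorem fe_mod (F : MvPolynomial σ ℂ) (hF0 : F ≠ 0) (hFd : ¬ F ∣ 1) (b : Polynomial ℂ)
    (hb : IsBFunction F b) : ∃ b' : Polynomial ℂ, b = (Polynomial.X + 1) * b' ∧
      ∃ m, MM F m ∧ Polynomial.aeval (Th F : Module.End ℂ (LP σ)) b' o = Y m := by
  classical
  obtain ⟨P, hP⟩ := hb
  have hm1 : b.eval (-1) = 0 := by
    refine Pool.Agent.W574.HS.minus_one F 1 hF0 hFd b P fun s => ?_
    rw [one_mul]
    exact hP s
  obtain ⟨b', hb'⟩ : (Polynomial.X + 1 : Polynomial ℂ) ∣ b := by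
    have := Polynomial.dvd_iff_isRoot.2 hm1
    rwa [Polynomial.C_neg, sub_neg_eq_add, Polynomial.C_1] at this
  refine ⟨b', hb', ?_⟩
  have hP1 : ∀ n : ℕ, (((n : ℂ) + 1) * b'.eval (n : ℂ)) • F ^ n = P.sum fun m Q =>
      ((n : ℂ) ^ m) • (Q : Module.End ℂ (MvPolynomial σ ℂ)) (F ^ (n + 1)) := by
    intro n
    rw [← hP n, hb', Polynomial.eval_mul, Polynomial.eval_add, Polynomial.eval_X,
      Polynomial.eval_one, C_mul']
  have h0 := at_minus F hF0 P b' hP1
  have hP' : ∀ N : ℕ, b'.eval (N : ℂ) • pz F N = P.sum fun m Q => ((N : ℂ) ^ m) •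
      (Q : Module.End ℂ (MvPolynomial σ ℂ)) (pz F ((N + 1 : ℕ) : ℤ)) := by
    intro N
    have h2 := congrArg (fun G => (((N + 1).factorial : ℂ))⁻¹ • G) (hP1 N)
    beta_reduce at h2
    rw [smul_smul, Finsupp.smul_sum] at h2
    have h3 : (((N + 1).factorial : ℂ))⁻¹ * (((N : ℂ) + 1) * b'.eval (N : ℂ)) =
        b'.eval (N : ℂ) * ((N.factorial : ℂ))⁻¹ := by
      rw [Nat.factorial_succ]
      push_cast
      have h4 : (N.factorial : ℂ) ≠ 0 := by exact_mod_cast N.factorial_ne_zero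
      have h5 : (N : ℂ) + 1 ≠ 0 := by exact_mod_cast Nat.succ_ne_zero N
      field_simp
    rw [h3, mul_smul] at h2
    rw [pz_nat, h2]
    refine Finsupp.sum_congr fun m _ => ?_
    rw [pz_nat, map_smul, smul_comm]
  -- the operators
  have hex : ∀ m : ℕ, ∃ h, MM F h ∧ ∀ N : ℤ, cN F (N + 1) h = ((N : ℂ) ^ m) •
      (P m : Module.End ℂ (MvPolynomial σ ℂ)) (pz F (N + 1)) := by
    intro m
    obtain ⟨u, hu, h1⟩ := lift_weyl F (P m).1 (P m).2 o MM.one
    obtain ⟨v, hv, h2⟩ := lift_pow F m u hu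
    exact ⟨v, hv, fun N => by rw [h2, h1, cN_one]⟩
  choose h hh1 hh2 using hex
  refine ⟨∑ m ∈ P.support, h m, MM.sum _ _ fun m _ => hh1 m, ?_⟩
  rw [← sub_eq_zero]
  refine cN_inj F _ fun N => ?_
  rw [map_sub, sub_eq_zero, aeval_Th, cN_Y, map_sum, cN_one]
  simp only [hh2]
  rcases lt_trichotomy N (-1) with hN | hN | hN
  · rw [pz_neg F N (by omega), smul_zero, pz_neg F (N + 1) (by omega)]
    simp only [map_zero, smul_zero, Finset.sum_const_zero]
  · subst hN
    rw [pz_neg F (-1) (by omega), smul_zero]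
    have h3 : pz F (-1 + 1) = 1 := by
      have := pz_nat F 0
      rw [Nat.cast_zero] at this
      rw [neg_add_cancel, this, pow_zero, Nat.factorial_zero, Nat.cast_one, inv_one, one_smul]
    rw [h3]
    push_cast
    exact h0.symm
  · obtain ⟨k, rfl⟩ : ∃ k : ℕ, N = (k : ℤ) := ⟨N.toNat, by omega⟩
    have h4 := hP' k
    rw [Finsupp.sum] at h4
    rw [Int.cast_natCast, h4]
    push_cast
    rfl

/-! ### From the module to functional equations -/

theorem W_weyl (f : MvPolynomial σ ℂ) (A : Module.End ℂ (MvPolynomial σ ℂ)) (hA : A ∈ weyl σ)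
    (v : ℕ → MvPolynomial σ ℂ) (hv : v ∈ W f) : (fun k => A (v k)) ∈ W f := by
  induction hv using Submodule.span_induction with
  | mem v h =>
    obtain ⟨j, e, Q, he, rfl⟩ := h
    refine Submodule.subset_span ⟨j, e, ⟨A * Q.1, Subalgebra.mul_mem _ hA Q.2⟩, he, ?_⟩
    funext k
    rw [map_smul]
    rfl
  | zero =>
    refine (congrArg (· ∈ W f) (funext fun k => ?_)).mp (W f).zero_mem
    exact (map_zero A).symm
  | add v w _ _ hv hw =>
    refine (congrArg (· ∈ W f) (funext fun k => ?_)).mp ((W f).add_mem hv hw)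
    exact (map_add A _ _).symm
  | smul c v _ hv =>
    refine (congrArg (· ∈ W f) (funext fun k => ?_)).mp ((W f).smul_mem c hv)
    exact (map_smul A _ _).symm

theorem W_k (f : MvPolynomial σ ℂ) (c : ℂ)
    (v : ℕ → MvPolynomial σ ℂ) (hv : v ∈ W f) : (fun k : ℕ => ((k : ℂ) + c) • v k) ∈ W f := by
  induction hv using Submodule.span_induction with
  | mem v h =>
    obtain ⟨j, e, Q, he, rfl⟩ := h
    have h1 : (fun k : ℕ => ((k : ℂ) ^ (j + 1) * kf k e) •
      (Q : Module.End ℂ (MvPolynomial σ ℂ)) (f ^ (k + e))) ∈ W f :=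
      Submodule.subset_span ⟨j + 1, e, Q, he, rfl⟩
    have h2 : (fun k : ℕ => ((k : ℂ) ^ j * kf k e) •
      (Q : Module.End ℂ (MvPolynomial σ ℂ)) (f ^ (k + e))) ∈ W f :=
      Submodule.subset_span ⟨j, e, Q, he, rfl⟩
    refine (congrArg (· ∈ W f) (funext fun k => ?_)).mp
      ((W f).add_mem h1 ((W f).smul_mem c h2))
    rw [Pi.add_apply, Pi.smul_apply, smul_smul, smul_smul, ← add_smul]
    congr 1
    ring
  | zero =>
    refine (congrArg (· ∈ W f) (funext fun k => ?_)).mp (W f).zero_mem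
    exact (smul_zero _).symm
  | add v w _ _ hv hw =>
    refine (congrArg (· ∈ W f) (funext fun k => ?_)).mp ((W f).add_mem hv hw)
    exact (smul_add _ _ _).symm
  | smul c' v _ hv =>
    refine (congrArg (· ∈ W f) (funext fun k => ?_)).mp ((W f).smul_mem c' hv)
    change c' • ((k : ℂ) + c) • v k = ((k : ℂ) + c) • c' • v k
    rw [smul_comm]

theorem mm_W (f : MvPolynomial σ ℂ) (h : LP σ) (hh : MM f h) : ∀ e : ℕ, 1 ≤ e →
    (fun k : ℕ => (k.factorial : ℂ) • cN f ((k : ℤ) + e) h) ∈ W f := by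
  induction hh with
  | one =>
    intro e he
    refine Submodule.subset_span ⟨0, e, 1, he, ?_⟩
    funext k
    have h1 : (k : ℤ) + e = ((k + e : ℕ) : ℤ) := by push_cast; rfl
    rw [h1, cN_one, pz_nat, pow_zero, one_mul, smul_smul]
    rfl
  | add h h' a b ha hb =>
    intro e he
    refine (congrArg (· ∈ W f) (funext fun k => ?_)).mp ((W f).add_mem (ha e he) (hb e he))
    rw [map_add, smul_add]
    rfl
  | smul c h a ha =>
    intro e he
    refine (congrArg (· ∈ W f) (funext fun k => ?_)).mp ((W f).smul_mem c (ha e he))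
    rw [map_smul, smul_comm]
    rfl
  | X i h a ha =>
    intro e he
    refine (congrArg (· ∈ W f) (funext fun k => ?_)).mp (W_weyl f _
      (Algebra.subset_adjoin (Or.inl ⟨i, rfl⟩)) _ (ha e he))
    rw [cN_X, map_smul]
    rfl
  | D i h a ha =>
    intro e he
    refine (congrArg (· ∈ W f) (funext fun k => ?_)).mp (W_weyl f _
      (Algebra.subset_adjoin (Or.inr ⟨i, rfl⟩)) _ (ha e he))
    rw [cN_D, map_smul]
    rfl
  | T h a ha =>
    intro e he
    refine (congrArg (· ∈ W f) (funext fun k => ?_)).mp (W_k f (e : ℂ) _ (ha e he))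
    rw [cN_T, smul_comm]
    push_cast
    rfl
  | Y h a ha =>
    intro e he
    refine (congrArg (· ∈ W f) (funext fun k => ?_)).mp (ha (e + 1) (by omega))
    rw [cN_Y]
    push_cast
    rw [add_assoc]

/-- the elements of `T⁻¹ M` give functional equations -/
theorem mod_fe (hA : StA) (f : MvPolynomial σ ℂ) (hf : f ≠ 0) (q : Polynomial ℂ) (m : LP σ)
    (hm : MM f m) (h : Polynomial.aeval (Th f : Module.End ℂ (LP σ)) q o = Y m) :
    IsBFunction f ((Polynomial.X + 1) * q) := by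
  refine hA f hf q ?_
  refine (congrArg (· ∈ W f) (funext fun k => ?_)).mp (mm_W f m hm 1 le_rfl)
  have h1 := aeval_Th f q (k : ℤ) o
  rw [h, cN_Y, cN_one, pz_nat] at h1
  have h4 : (k.factorial : ℂ) ≠ 0 := by exact_mod_cast k.factorial_ne_zero
  push_cast at h1 ⊢
  rw [h1, smul_smul, smul_smul]
  congr 1
  field_simp

end Pool.Agent.T6.H26.RA
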