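import Pool.Agent.T6.H26.RAB

set_option autoImplicit false
set_option linter.unusedSectionVars false
set_option linter.unusedVariables false

/-! # Perturbations of the twisted modules -/

namespace Pool.Agent.T6.H26.RA

open MvPolynomial
open Pool.Agent.W574.SM (weyl)
open Pool.Agent.H628R4.TP (IsBFunction weylS)
open Pool.Agent.Y230.TH (kf W StA)
open Pool.Agent.T6.H26

variable {σ τ : Type}

/-- multiplication by a polynomial -/
noncomputable def Ml (a : MvPolynomial σ ℂ) : LP σ →ₗ[ℂ] LP σ := cw (LinearMap.mulLeft ℂ a)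

theorem Ml_single (a : MvPolynomial σ ℂ) (j : ℤ) (b : MvPolynomial σ ℂ) :
    Ml a (Finsupp.single j b) = Finsupp.single j (a * b) := cw_single _ _ _

theorem lp_ext {φ ψ : LP σ →ₗ[ℂ] LP τ}
    (h : ∀ (j : ℤ) (a : MvPolynomial σ ℂ), φ (Finsupp.single j a) = ψ (Finsupp.single j a))
    (u : LP σ) : φ u = ψ u := by
  have e : φ = ψ := Finsupp.lhom_ext h
  rw [e]

theorem Do_sM (A : MvPolynomial σ ℂ) (i : σ) (j : ℤ) (b : MvPolynomial σ ℂ) (h : LP σ) :
    Do A i (sh j (Ml b h)) = sh j (Ml b (Do A i h)) + sh j (Ml (pderiv i b) h) :=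
  lp_ext (φ := Do A i ∘ₗ sh j ∘ₗ Ml b) (ψ := sh j ∘ₗ Ml b ∘ₗ Do A i + sh j ∘ₗ Ml (pderiv i b))
    (fun k a => by
      change Do A i (sh j (Ml b (Finsupp.single k a))) =
        sh j (Ml b (Do A i (Finsupp.single k a))) + sh j (Ml (pderiv i b) (Finsupp.single k a))
      rw [Ml_single, sh_single, Do_single, Do_single, map_add, map_add, Ml_single, Ml_single,
        sh_single, sh_single, Ml_single, sh_single, Derivation.leibniz, smul_eq_mul, smul_eq_mul,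
        Finsupp.single_add]
      have e1 : k + j + 1 = k + 1 + j := by ring
      have e2 : pderiv i A * (b * a) = b * (pderiv i A * a) := by ring
      have e3 : a * pderiv i b = pderiv i b * a := by ring
      rw [e1, e2, e3]
      abel) h

theorem Th_sM (A : MvPolynomial σ ℂ) (j : ℤ) (b : MvPolynomial σ ℂ) (h : LP σ) :
    Th A (sh j (Ml b h)) = sh j (Ml b (Th A h)) + (j : ℂ) • sh j (Ml b h) :=
  lp_ext (φ := Th A ∘ₗ sh j ∘ₗ Ml b) (ψ := sh j ∘ₗ Ml b ∘ₗ Th A + (j : ℂ) • (sh j ∘ₗ Ml b))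
    (fun k a => by
      change Th A (sh j (Ml b (Finsupp.single k a))) =
        sh j (Ml b (Th A (Finsupp.single k a))) + (j : ℂ) • sh j (Ml b (Finsupp.single k a))
      rw [Ml_single, sh_single, Th_single, Th_single, map_add, map_add, Ml_single, Ml_single,
        sh_single, sh_single, Finsupp.smul_single]
      have e1 : k + j + 1 = k + 1 + j := by ring
      have e2 : A * (b * a) = b * (A * a) := by ring
      have e3 : (((k + j : ℤ) : ℂ)) • (b * a) = b * ((k : ℂ) • a) + (j : ℂ) • (b * a) := by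
        rw [mul_smul_comm, ← add_smul]
        push_cast
        rfl
      rw [e1, e2, e3, Finsupp.single_add]
      abel) h

theorem Do_add (A Q : MvPolynomial σ ℂ) (i : σ) (h : LP σ) :
    Do (A + Q) i h = Do A i h + sh 1 (Ml (pderiv i Q) h) :=
  lp_ext (φ := Do (A + Q) i) (ψ := Do A i + sh 1 ∘ₗ Ml (pderiv i Q)) (fun k a => by
    change _ = Do A i (Finsupp.single k a) + sh 1 (Ml (pderiv i Q) (Finsupp.single k a))
    rw [Do_single, Do_single, Ml_single, sh_single, map_add, add_mul, Finsupp.single_add]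
    abel) h

theorem Th_add (A Q : MvPolynomial σ ℂ) (h : LP σ) :
    Th (A + Q) h = Th A h + sh 1 (Ml Q h) :=
  lp_ext (φ := Th (A + Q)) (ψ := Th A + sh 1 ∘ₗ Ml Q) (fun k a => by
    change _ = Th A (Finsupp.single k a) + sh 1 (Ml Q (Finsupp.single k a))
    rw [Th_single, Th_single, Ml_single, sh_single, add_mul, Finsupp.single_add]
    abel) h

theorem sMsM (i j : ℤ) (a b : MvPolynomial σ ℂ) (h : LP σ) :
    sh i (Ml a (sh j (Ml b h))) = sh (j + i) (Ml (a * b) h) :=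
  lp_ext (φ := sh i ∘ₗ Ml a ∘ₗ sh j ∘ₗ Ml b) (ψ := sh (j + i) ∘ₗ Ml (a * b)) (fun k c => by
    change sh i (Ml a (sh j (Ml b (Finsupp.single k c)))) =
      sh (j + i) (Ml (a * b) (Finsupp.single k c))
    rw [Ml_single, sh_single, Ml_single, sh_single, Ml_single, sh_single, mul_assoc,
      add_assoc]) h

theorem Th_Y' (A : MvPolynomial σ ℂ) (h : LP σ) : Th A (Y h) = Y (Th A h) - Y h :=
  lp_ext (φ := Th A ∘ₗ Y) (ψ := Y ∘ₗ Th A - Y) (fun k a => by
    change Th A (Y (Finsupp.single k a)) = Y (Th A (Finsupp.single k a)) -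
      Y (Finsupp.single k a)
    rw [Y_single, Th_single, Th_single, map_add, Y_single, Y_single]
    have e1 : k + 1 + -1 = k + -1 + 1 := by ring
    have e3 : (((k + -1 : ℤ) : ℂ)) • a = (k : ℂ) • a - a := by
      push_cast
      rw [add_smul, neg_one_smul, sub_eq_add_neg]
    rw [e1, e3, Finsupp.single_sub]
    abel) h

theorem Th_Y (A : MvPolynomial σ ℂ) (h : LP σ) : Th A (Y h) = Y (Th A h + (-1 : ℂ) • h) := by
  rw [Th_Y', map_add, map_smul, neg_one_smul, sub_eq_add_neg]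

theorem X_sM (i : σ) (j : ℤ) (b : MvPolynomial σ ℂ) (h : LP σ) :
    Xo i (sh j (Ml b h)) = sh j (Ml b (Xo i h)) :=
  lp_ext (φ := Xo i ∘ₗ sh j ∘ₗ Ml b) (ψ := sh j ∘ₗ Ml b ∘ₗ Xo i) (fun k a => by
    change Xo i (sh j (Ml b (Finsupp.single k a))) = sh j (Ml b (Xo i (Finsupp.single k a)))
    rw [Ml_single, sh_single, Xo_single, Xo_single, Ml_single, sh_single]
    congr 1
    ring) h

theorem Y_sM (j : ℤ) (b : MvPolynomial σ ℂ) (h : LP σ) :
    Y (sh j (Ml b h)) = sh j (Ml b (Y h)) :=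
  lp_ext (φ := Y ∘ₗ sh j ∘ₗ Ml b) (ψ := sh j ∘ₗ Ml b ∘ₗ Y) (fun k a => by
    change Y (sh j (Ml b (Finsupp.single k a))) = sh j (Ml b (Y (Finsupp.single k a)))
    rw [Ml_single, sh_single, Y_single, Y_single, Ml_single, sh_single]
    congr 1
    ring) h

/-- multiplication by the truncated exponential of `T Q` -/
noncomputable def eN (Q : MvPolynomial σ ℂ) : ℕ → LP σ →ₗ[ℂ] LP σ
  | 0 => sh 0 ∘ₗ Ml 1
  | N + 1 => eN Q N + ((((N + 1).factorial : ℕ) : ℂ))⁻¹ • (sh ((N + 1 : ℕ) : ℤ) ∘ₗ Ml (Q ^ (N + 1)))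

theorem eN_zero (Q : MvPolynomial σ ℂ) (h : LP σ) : eN Q 0 h = h :=
  lp_ext (φ := eN Q 0) (ψ := LinearMap.id) (fun k a => by
    change sh 0 (Ml 1 (Finsupp.single k a)) = Finsupp.single k a
    rw [Ml_single, sh_single, one_mul, add_zero]) h

theorem eN_succ (Q : MvPolynomial σ ℂ) (N : ℕ) (h : LP σ) : eN Q (N + 1) h = eN Q N h +
    ((((N + 1).factorial : ℕ) : ℂ))⁻¹ • sh ((N + 1 : ℕ) : ℤ) (Ml (Q ^ (N + 1)) h) := rfl

theorem fac_inv (N : ℕ) : ((((N + 1).factorial : ℕ) : ℂ))⁻¹ * ((N : ℂ) + 1) =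
    (((N.factorial : ℕ) : ℂ))⁻¹ := by
  rw [Nat.factorial_succ]
  have h4 : (N.factorial : ℂ) ≠ 0 := by exact_mod_cast N.factorial_ne_zero
  have h5 : (N : ℂ) + 1 ≠ 0 := by exact_mod_cast Nat.succ_ne_zero N
  push_cast
  field_simp

theorem Ml_smul (r : ℂ) (b : MvPolynomial σ ℂ) (h : LP σ) : Ml (r • b) h = r • Ml b h :=
  lp_ext (φ := Ml (r • b)) (ψ := r • Ml b) (fun k a => by
    change Ml (r • b) (Finsupp.single k a) = r • Ml b (Finsupp.single k a)
    rw [Ml_single, Ml_single, Finsupp.smul_single, smul_mul_assoc]) h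

theorem eN_D (A Q : MvPolynomial σ ℂ) (i : σ) (N : ℕ) (h : LP σ) :
    Do A i (eN Q N h) = eN Q N (Do (A + Q) i h) -
      (((N.factorial : ℕ) : ℂ))⁻¹ • sh ((N : ℤ) + 1) (Ml (Q ^ N * pderiv i Q) h) := by
  induction N with
  | zero =>
    rw [eN_zero, eN_zero, Do_add]
    simp
  | succ N ih =>
    rw [eN_succ, eN_succ, map_add, ih, map_smul, Do_sM, Do_add A Q i h, map_add, map_add, map_add,
      sMsM]
    have e1 : pderiv i (Q ^ (N + 1)) = ((N : ℂ) + 1) • (Q ^ N * pderiv i Q) := by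
      rw [Derivation.leibniz_pow, Nat.add_sub_cancel, smul_eq_mul, ← Nat.cast_smul_eq_nsmul ℂ]
      push_cast
      rfl
    have e2 : (1 : ℤ) + ((N + 1 : ℕ) : ℤ) = ((N + 1 : ℕ) : ℤ) + 1 := by ring
    have e3 : ((N : ℤ) + 1) = ((N + 1 : ℕ) : ℤ) := by push_cast; ring
    rw [e1, Ml_smul, map_smul, smul_add, smul_smul, fac_inv, e2, e3, smul_add]
    abel

theorem eN_T (A Q : MvPolynomial σ ℂ) (N : ℕ) (h : LP σ) :
    Th A (eN Q N h) = eN Q N (Th (A + Q) h) -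
      (((N.factorial : ℕ) : ℂ))⁻¹ • sh ((N : ℤ) + 1) (Ml (Q ^ N * Q) h) := by
  induction N with
  | zero =>
    rw [eN_zero, eN_zero, Th_add]
    simp
  | succ N ih =>
    rw [eN_succ, eN_succ, map_add, ih, map_smul, Th_sM, Th_add A Q h, map_add, map_add, map_add,
      sMsM]
    have e1 : (((N + 1 : ℕ) : ℤ) : ℂ) = (N : ℂ) + 1 := by push_cast; ring
    have e2 : (1 : ℤ) + ((N + 1 : ℕ) : ℤ) = ((N + 1 : ℕ) : ℤ) + 1 := by ring
    have e3 : ((N : ℤ) + 1) = ((N + 1 : ℕ) : ℤ) := by push_cast; ring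
    rw [e1, smul_add, smul_smul, fac_inv, e2, e3, smul_add, ← pow_succ]
    abel

theorem eN_X (Q : MvPolynomial σ ℂ) (i : σ) (N : ℕ) (h : LP σ) :
    Xo i (eN Q N h) = eN Q N (Xo i h) := by
  induction N with
  | zero => rw [eN_zero, eN_zero]
  | succ N ih => rw [eN_succ, eN_succ, map_add, ih, map_smul, X_sM]

theorem eN_Y (Q : MvPolynomial σ ℂ) (N : ℕ) (h : LP σ) :
    Y (eN Q N h) = eN Q N (Y h) := by
  induction N with
  | zero => rw [eN_zero, eN_zero]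
  | succ N ih => rw [eN_succ, eN_succ, map_add, ih, map_smul, Y_sM]

/-! ### The perturbation lemma -/

/-- a submodule which is stable under the operators twisted by `A`, in which the powers of `T Q`
tend to zero -/
structure Stb (A Q : MvPolynomial σ ℂ) (S : Submodule ℂ (LP σ)) : Prop where
  one : o ∈ S
  X : ∀ i, ∀ w ∈ S, Xo i w ∈ S
  D : ∀ i, ∀ w ∈ S, Do A i w ∈ S
  T : ∀ w ∈ S, Th A w ∈ S
  Y : ∀ w ∈ S, RA.Y w ∈ S
  q1 : ∀ j : ℕ, ∃ w ∈ S, sh ((j + 1 : ℕ) : ℤ) (Ml (Q ^ (j + 1)) o) = RA.Y w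
  qN : ∀ h : LP σ, ∃ N0 : ℕ, ∀ N : ℕ, N0 ≤ N → ∃ w ∈ S, sh ((N : ℤ) + 1) (Ml (Q ^ N) h) = RA.Y w

variable {A Q : MvPolynomial σ ℂ} {S : Submodule ℂ (LP σ)}

theorem sM_mul (j : ℤ) (a b : MvPolynomial σ ℂ) (h : LP σ) :
    sh j (Ml (a * b) h) = sh j (Ml a (Ml b h)) :=
  lp_ext (φ := sh j ∘ₗ Ml (a * b)) (ψ := sh j ∘ₗ Ml a ∘ₗ Ml b) (fun k c => by
    change sh j (Ml (a * b) (Finsupp.single k c)) = sh j (Ml a (Ml b (Finsupp.single k c)))
    rw [Ml_single, Ml_single, Ml_single, mul_assoc]) h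

theorem Stb.mem (hS : Stb A Q S) (h : LP σ) (hh : MM (A + Q) h) :
    ∃ N0 : ℕ, ∀ N : ℕ, N0 ≤ N → eN Q N h ∈ S := by
  induction hh with
  | one =>
    refine ⟨0, fun N _ => ?_⟩
    induction N with
    | zero => rw [eN_zero]; exact hS.one
    | succ N ih =>
      rw [eN_succ]
      obtain ⟨w, hw, e⟩ := hS.q1 N
      rw [e]
      exact S.add_mem (ih (Nat.zero_le _)) (S.smul_mem _ (hS.Y w hw))
  | add h h' _ _ h1 h2 =>
    obtain ⟨N1, h1⟩ := h1
    obtain ⟨N2, h2⟩ := h2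
    refine ⟨max N1 N2, fun N hN => ?_⟩
    rw [map_add]
    exact S.add_mem (h1 N (le_trans (le_max_left _ _) hN)) (h2 N (le_trans (le_max_right _ _) hN))
  | smul c h _ h1 =>
    obtain ⟨N1, h1⟩ := h1
    exact ⟨N1, fun N hN => by rw [map_smul]; exact S.smul_mem _ (h1 N hN)⟩
  | X i h _ h1 =>
    obtain ⟨N1, h1⟩ := h1
    exact ⟨N1, fun N hN => by rw [← eN_X]; exact hS.X i _ (h1 N hN)⟩
  | D i h _ h1 =>
    obtain ⟨N1, h1⟩ := h1
    obtain ⟨N2, h2⟩ := hS.qN (Ml (pderiv i Q) h)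
    refine ⟨max N1 N2, fun N hN => ?_⟩
    have e := eN_D A Q i N h
    obtain ⟨w, hw, e2⟩ := h2 N (le_trans (le_max_right _ _) hN)
    rw [sM_mul, e2] at e
    rw [eq_sub_iff_add_eq] at e
    rw [← e]
    exact S.add_mem (hS.D i _ (h1 N (le_trans (le_max_left _ _) hN)))
      (S.smul_mem _ (hS.Y w hw))
  | T h _ h1 =>
    obtain ⟨N1, h1⟩ := h1
    obtain ⟨N2, h2⟩ := hS.qN (Ml Q h)
    refine ⟨max N1 N2, fun N hN => ?_⟩
    have e := eN_T A Q N h
    obtain ⟨w, hw, e2⟩ := h2 N (le_trans (le_max_right _ _) hN)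
    rw [sM_mul, e2] at e
    rw [eq_sub_iff_add_eq] at e
    rw [← e]
    exact S.add_mem (hS.T _ (h1 N (le_trans (le_max_left _ _) hN)))
      (S.smul_mem _ (hS.Y w hw))
  | Y h _ h1 =>
    obtain ⟨N1, h1⟩ := h1
    exact ⟨N1, fun N hN => by rw [← eN_Y]; exact hS.Y _ (h1 N hN)⟩

/-- the powers of `Θ` -/
theorem Stb.tk (hS : Stb A Q S) (n : ℕ) : ∃ N0 : ℕ, ∀ N : ℕ, N0 ≤ N →
    ∃ w ∈ S, eN Q N (tk (A + Q) n) = RA.tk A n + RA.Y w := by
  induction n with
  | zero =>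
    refine ⟨0, fun N _ => ?_⟩
    change ∃ w ∈ S, eN Q N o = o + RA.Y w
    induction N with
    | zero => exact ⟨0, S.zero_mem, by rw [eN_zero, map_zero, add_zero]⟩
    | succ N ih =>
      obtain ⟨w, hw, e⟩ := ih (Nat.zero_le _)
      obtain ⟨w', hw', e'⟩ := hS.q1 N
      refine ⟨w + ((((N + 1).factorial : ℕ) : ℂ))⁻¹ • w', S.add_mem hw (S.smul_mem _ hw'), ?_⟩
      rw [eN_succ, e, e', map_add, map_smul, add_assoc]
  | succ n ih =>
    obtain ⟨N1, h1⟩ := ih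
    obtain ⟨N2, h2⟩ := hS.qN (Ml Q (RA.tk (A + Q) n))
    refine ⟨max N1 N2, fun N hN => ?_⟩
    obtain ⟨w, hw, e1⟩ := h1 N (le_trans (le_max_left _ _) hN)
    obtain ⟨w', hw', e2⟩ := h2 N (le_trans (le_max_right _ _) hN)
    have e := eN_T A Q N (RA.tk (A + Q) n)
    rw [sM_mul, e2, e1, map_add, Th_Y, eq_sub_iff_add_eq] at e
    refine ⟨(Th A w + (-1 : ℂ) • w) + (((N.factorial : ℕ) : ℂ))⁻¹ • w',
      S.add_mem (S.add_mem (hS.T _ hw) (S.smul_mem _ hw)) (S.smul_mem _ hw'), ?_⟩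
    change eN Q N (Th (A + Q) (RA.tk (A + Q) n)) = Th A (RA.tk A n) + _
    rw [← e, map_add RA.Y (Th A w + (-1 : ℂ) • w), map_smul RA.Y _ w', add_assoc]

theorem aeval_tk (A : MvPolynomial σ ℂ) (q : Polynomial ℂ) :
    Polynomial.aeval (Th A : Module.End ℂ (LP σ)) q o = ∑ n ∈ q.support, q.coeff n • tk A n := by
  conv_lhs => rw [q.as_sum_support]
  rw [map_sum, LinearMap.sum_apply]
  refine Finset.sum_congr rfl fun n _ => ?_
  rw [← Polynomial.C_mul_X_pow_eq_monomial, map_mul, Polynomial.aeval_C, Module.End.mul_apply,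
    tk_pow]
  rfl

/-- **The perturbation lemma.** -/
theorem Stb.main (hS : Stb A Q S) (q : Polynomial ℂ) (m : LP σ) (hm : MM (A + Q) m)
    (hq : Polynomial.aeval (Th (A + Q) : Module.End ℂ (LP σ)) q o = RA.Y m) :
    ∃ w ∈ S, Polynomial.aeval (Th A : Module.End ℂ (LP σ)) q o = RA.Y w := by
  classical
  obtain ⟨N1, h1⟩ := hS.mem m hm
  choose N2 h2 using hS.tk
  set N := N1 + ∑ n ∈ q.support, N2 n with hN
  have hle : ∀ n ∈ q.support, N2 n ≤ N := fun n hn =>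
    (Finset.single_le_sum (f := N2) (fun _ _ => Nat.zero_le _) hn).trans (Nat.le_add_left _ _)
  have h3 : ∀ n, ∃ w ∈ S, n ∈ q.support → eN Q N (RA.tk (A + Q) n) = RA.tk A n + RA.Y w := by
    intro n
    by_cases hn : n ∈ q.support
    · obtain ⟨w, hw, e⟩ := h2 n N (hle n hn)
      exact ⟨w, hw, fun _ => e⟩
    · exact ⟨0, S.zero_mem, fun h => absurd h hn⟩
  choose w hw e using h3
  have h4 := congrArg (eN Q N) hq
  rw [aeval_tk, map_sum, ← eN_Y] at h4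
  have h5 : ∑ n ∈ q.support, eN Q N (q.coeff n • RA.tk (A + Q) n) =
      ∑ n ∈ q.support, q.coeff n • RA.tk A n + RA.Y (∑ n ∈ q.support, q.coeff n • w n) := by
    rw [map_sum, ← Finset.sum_add_distrib]
    refine Finset.sum_congr rfl fun n hn => ?_
    rw [map_smul, e n hn, smul_add, map_smul]
  rw [h5] at h4
  refine ⟨eN Q N m - ∑ n ∈ q.support, q.coeff n • w n, S.sub_mem (h1 N (Nat.le_add_right _ _))
    (S.sum_mem fun n _ => S.smul_mem _ (hw n)), ?_⟩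
  rw [aeval_tk, map_sub, ← h4, add_sub_cancel_right]

end Pool.Agent.T6.H26.RA
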