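import Pool.Agent.T6.H26.HTDefs

set_option autoImplicit false
set_option linter.unusedSectionVars false
set_option linter.unusedVariables false

/-! # Starting points for the Thom-Sebastiani closures: the definitions -/

namespace Pool.Agent.T6.H26

open MvPolynomial Pool.Agent.Y230.PS Pool.Agent.R779.HK Pool.Agent.R852.PP

/-- The classes of the starting points: the classes `PTS` (monomial ideals, ideals of `ℚ[x, y]`,
plane curves, homogeneous cones, ...) and, for ideals, also `WGood` (weighted cones). -/
inductive WPBase : Bool → FamQ → Prop
  /-- the classes `PTS` -/
  | pts (c : Bool) (A : FamQ) (h : PTS false c A) : WPBase c A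
  /-- the class `WGood` -/
  | wgood (A : FamQ) (h : WGood A) : WPBase false A

/-- The classes of the starting points: the classes `PTS` (monomial ideals, ideals of `ℚ[x, y]`,
plane curves, homogeneous cones, ...) and, for ideals, also the products of the ideals of
maximal minors of Hankel matrices `k t × (N + 1 - k t)` in the same `N` variables,
`2 * k t < N`. -/
inductive HPBase : Bool → FamQ → Prop
  /-- the classes `PTS` -/
  | pts (c : Bool) (A : FamQ) (h : PTS false c A) : HPBase c A
  /-- products of ideals of maximal minors of Hankel matrices -/
  | hank (N T : ℕ) (k : Fin T → ℕ) (hk : ∀ t, 2 * k t < N) : HPBase false (hankQ N k)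

end Pool.Agent.T6.H26
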