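import Pool.Agent.T6.H26.DTSDefs

set_option autoImplicit false
set_option linter.unusedSectionVars false
set_option linter.unusedVariables false

/-! # Thom-Sebastiani closures and weighted cones: the definitions -/

namespace Pool.Agent.T6.H26

open MvPolynomial Pool.Agent.Y230.PS Pool.Agent.Y230.TH Pool.Agent.R852.PP

/-- The Thom-Sebastiani closure of a pair `B` of classes: `TSC B false A` for ideals and
`TSC B true A` for principal ideals (hypersurfaces). They are the smallest classes which contain `B`
and have the following properties. -/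
inductive TSC (B : Bool → FamQ → Prop) : Bool → FamQ → Prop
  /-- the ideals and the hypersurfaces in `B` -/
  | base (c : Bool) (A : FamQ) (h : B c A) : TSC B c A
  /-- a hypersurface is a principal ideal -/
  | hyp (A : FamQ) (h : TSC B true A) : TSC B false A
  /-- the powers of a hypersurface are principal ideals -/
  | pow (σ : Type) [Fintype σ] (g : MvPolynomial σ ℚ) (k : ℕ) (hk : k ≠ 0)
      (h : TSC B true ⟨σ, Fin 1, fun _ => g⟩) : TSC B false ⟨σ, Fin 1, fun _ => g ^ k⟩
  /-- the sum of two ideals in disjoint sets of variables -/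
  | sum (A A' : FamQ) (hA : TSC B false A) (hA' : TSC B false A') : TSC B false (A.sum A')
  /-- the product of two ideals, or of two polynomials, in disjoint sets of variables -/
  | mul (c : Bool) (A A' : FamQ) (hA : TSC B c A) (hA' : TSC B c A') : TSC B c (A.mul A')
  /-- the polynomial `∑ y_j f_j(x)` -/
  | univ (A : FamQ) (hA : TSC B false A) : TSC B true A.univ
  /-- the products of powers `h(x) ∏_t (∑_j y_{t, j} f_{t, j}(x)) ^ a_t`, if the ideal
  `h ∏_t (f_{t, j})_j ^ a_t` is in the class -/
  | form (σ : Type) [Fintype σ] (m : ℕ) (r a : Fin m → ℕ) (hm : 0 < m) (ha : ∀ t, 0 < a t)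
      (h : MvPolynomial σ ℚ)
      (f : (t : Fin m) → Fin (r t) → MvPolynomial σ ℚ)
      (hA : TSC B false (genQ a h f)) : TSC B true (formQ a h f)
  /-- the Thom-Sebastiani sum `∑ y_j f_j(x) + g(z)` -/
  | ts (A : FamQ) (τ : Type) [Fintype τ] (g : MvPolynomial τ ℚ) (hA : TSC B false A)
      (hg : TSC B true ⟨τ, Fin 1, fun _ => g⟩) : TSC B true (tsum A τ g)
  /-- variables which do not occur may be dropped -/
  | drop (σ κ : Type) [Fintype σ] [Fintype κ] (g : MvPolynomial σ ℚ)
      (h : TSC B true ⟨σ ⊕ κ, Fin 1, fun _ => rename Sum.inl g⟩) :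
      TSC B true ⟨σ, Fin 1, fun _ => g⟩
  /-- the variables and the generators may be indexed differently -/
  | equiv (c : Bool) (A A' : FamQ) (i : A.σ ≃ A'.σ) (k : A.ι ≃ A'.ι)
      (h : ∀ j, A'.f (k j) = rename i (A.f j)) (hA : TSC B c A) : TSC B c A'

/-- The substitution `x_i = c`; the other variables keep their order. -/
noncomputable def subQ {n : ℕ} (i : Fin (n + 1)) (c : ℚ) :
    MvPolynomial (Fin (n + 1)) ℚ →ₐ[ℚ] MvPolynomial (Fin n) ℚ :=
  aeval (Fin.insertNth i (C c : MvPolynomial (Fin n) ℚ) X)

/-- The ideals which are obtained by sums and products in disjoint sets of variables and by weighted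
cones from the nonzero ideals of `ℚ[x, y]` and the unit ideals. -/
inductive WGood : FamQ → Prop
  /-- a nonzero ideal of `ℚ[x, y]` -/
  | plane (r : ℕ) (f : Fin r → MvPolynomial (Fin 2) ℚ) (hf : ∃ j, f j ≠ 0) :
      WGood ⟨Fin 2, Fin r, f⟩
  /-- the unit ideal -/
  | free (A : FamQ) (g : A.ι → MvPolynomial A.σ ℚ) (h : ∑ j, g j * A.f j = 1) : WGood A
  /-- the sum of two ideals in disjoint sets of variables -/
  | sum (A B : FamQ) (hA : WGood A) (hB : WGood B) : WGood (A.sum B)
  /-- the product of two ideals in disjoint sets of variables -/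
  | mul (A B : FamQ) (hA : WGood A) (hB : WGood B) : WGood (A.mul B)
  /-- the variables and the generators may be indexed differently -/
  | equiv (A B : FamQ) (i : A.σ ≃ B.σ) (k : A.ι ≃ B.ι) (h : ∀ j, B.f (k j) = rename i (A.f j))
      (hA : WGood A) : WGood B
  /-- weighted homogeneous polynomials of the same degree `d > 0` in `x_0, ..., x_n`, for weights
  `w_i ≥ 0` which are not all zero, such that the functions `f_{e(i)}` for `w_i > 0` together with
  the variables `x_i` with `w_i = 0` are algebraically independent (their Jacobian determinant is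
  not zero), and such that the ideals of the charts `x_i = c`, `w_i > 0`, `c ≠ 0`, are in the
  class -/
  | wcone (n r d : ℕ) (hd : 0 < d) (w : Fin (n + 1) → ℕ) (hw : ∃ i, w i ≠ 0)
      (f : Fin r → MvPolynomial (Fin (n + 1)) ℚ)
      (hf : ∀ j, (f j).IsWeightedHomogeneous w d) (e : Fin (n + 1) → Fin r)
      (he : (Matrix.of fun s t => pderiv s (if w t = 0 then X t else f (e t))).det ≠ 0)
      (h : ∀ i, w i ≠ 0 → ∀ c : ℚ, c ≠ 0 → WGood ⟨Fin n, Fin r, fun j => subQ i c (f j)⟩) :
      WGood ⟨Fin (n + 1), Fin r, f⟩

/-- The classes of the starting points: `DTS` and, for ideals, also `WGood`. -/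
inductive WBase : Bool → FamQ → Prop
  /-- the classes `DTS` -/
  | dts (c : Bool) (A : FamQ) (h : DTS c A) : WBase c A
  /-- the class `WGood` -/
  | wgood (A : FamQ) (h : WGood A) : WBase false A

end Pool.Agent.T6.H26
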